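import Pool.Agent.GTR.Pers

/-!
# GTR ChL : counting solutions in a chart, real and nondegenerate problems (helper85)
-/

set_option autoImplicit false

open Matrix Topology Filter Pool.GTR.Tr

noncomputable section

namespace GTC

variable {k l : ℕ}

/-- the number of solutions is locally constant at a nondegenerate problem. -/
theorem sol_ncard_eq (hk : 1 ≤ k) {h : Fin (k * l) → Cf ℂ k (k + l)} (hfin : (Sol h).Finite)
    {T : Matrix (Fin (k + l)) (Fin (k + l)) ℂ} (hT : T.det ≠ 0)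
    (hc : ∀ u, IsSol h u → ∃ z, rs u = rs (uz T z))
    (hJ : ∀ v ∈ Zs (mT T) h, Jc (mT T) h v ≠ 0) :
    ∀ᶠ h' in 𝓝 h, (Sol h').ncard = (Sol h).ncard := by
  have h1 := Pool.GTR.Tr.ncard_eq (m := mT T) (Zs_finite hT hfin) hJ (l := 𝓝 h) le_rfl
    ((FO hk h hfin).mono fun h' hf => Zs_finite hT hf) fun W hW => by
      filter_upwards [chart_upper hT hc W hW] with h' hh z hz
      obtain ⟨z', e, a, ha, hza⟩ := hh (uz T z) ((issol_uz hT).2 hz)
      rw [uz_inj T hT z z' e]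
      exact ⟨a, ha, hza⟩
  filter_upwards [h1, chart_upper hT hc (fun _ => Set.univ) fun _ _ => univ_mem] with h' h2 h3
  rw [ncard_Sol hT hc, ncard_Sol hT fun u hu => ?_, h2]
  obtain ⟨z, e, -⟩ := h3 u hu
  exact ⟨z, e⟩

/-- zeros of a totally real nondegenerate problem in a real chart. -/
theorem RR.zero {F : ℕ} {h : Fin (k * l) → Cf ℝ k (k + l)} (hR : RR h F)
    {T : Matrix (Fin (k + l)) (Fin (k + l)) ℝ} (hT : T.det ≠ 0) {z : Fin (k * l) → ℂ}
    (hz : z ∈ Zs (mT (cm T)) (ch h)) :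
    ∃ x : Fin (k * l) → ℝ, z = (fun i => (x i : ℂ)) ∧ IsSol h (uz T x) ∧
      Jc (mT (cm T)) (ch h) z = ((cj h T x : ℝ) : ℂ) ∧ cj h T x ≠ 0 := by
  have hT' := det_cm T hT
  have h1 := (issol_uz hT').2 hz
  obtain ⟨u, hu, e⟩ := hR.real _ ⟨_, h1, rfl⟩
  obtain ⟨x, rfl⟩ := chart_real T hT z u hu e.symm
  have h2 := (issol_real hT).1 hz
  refine ⟨x, rfl, h2, cj_real h T x, ?_⟩
  rw [cj_ne_iff hT h2]
  exact hR.nd _ h2

theorem Jc_ne {h : Fin (k * l) → Cf ℝ k (k + l)}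
    (hreal : ∀ L ∈ Sol (ch h), ∃ u : Matrix (Fin k) (Fin (k + l)) ℝ, FR u ∧ L = rs (cm u))
    (hnd : ∀ u : Matrix (Fin k) (Fin (k + l)) ℝ, IsSol h u → JJ h u ≠ 0)
    {T : Matrix (Fin (k + l)) (Fin (k + l)) ℝ} (hT : T.det ≠ 0) {z : Fin (k * l) → ℂ}
    (hz : z ∈ Zs (mT (cm T)) (ch h)) : Jc (mT (cm T)) (ch h) z ≠ 0 := by
  have hT' := det_cm T hT
  have h1 := (issol_uz hT').2 hz
  obtain ⟨u, hu, e⟩ := hreal _ ⟨_, h1, rfl⟩
  obtain ⟨x, rfl⟩ := chart_real T hT z u hu e.symm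
  have h2 := (issol_real hT).1 hz
  rw [cj_real]
  have h3 : cj h T x ≠ 0 := by
    rw [cj_ne_iff hT h2]
    exact hnd _ h2
  exact_mod_cast h3

/-- complex conjugation preserves the zeros of a real problem in a real chart. -/
theorem conj_mem {h : Fin (k * l) → Cf ℝ k (k + l)}
    {T : Matrix (Fin (k + l)) (Fin (k + l)) ℝ} {z : Fin (k * l) → ℂ}
    (hz : z ∈ Zs (mT (cm T)) (ch h)) :
    (fun i => (starRingEnd ℂ) (z i)) ∈ Zs (mT (cm T)) (ch h) := by
  rw [mem_Zs] at hz ⊢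
  intro i
  have h1 := congrArg (starRingEnd ℂ) (hz i)
  rw [map_zero, lf_map, ← uz_map] at h1
  have h2 : (cm T).map (starRingEnd ℂ) = cm T := by
    ext a b
    exact Complex.conj_ofReal _
  have h3 : (fun t => (starRingEnd ℂ) (ch h i t)) = ch h i := by
    funext t
    exact Complex.conj_ofReal _
  rw [h2, h3] at h1
  exact h1

end GTC
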