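import Pool.Agent.GTR.ChZ

/-!
# GTR ChR : real points in a chart (helper85)
-/

set_option autoImplicit false

open Matrix Topology Filter Pool.GTR.Tr

noncomputable section

namespace GTC

theorem ch_continuous {k n : ℕ} {ι : Type*} :
    Continuous (ch : (ι → Cf ℝ k n) → ι → Cf ℂ k n) :=
  continuous_pi fun i => continuous_pi fun t =>
    Complex.continuous_ofReal.comp ((continuous_apply t).comp (continuous_apply i))

theorem cm_continuous {k n : ℕ} : Continuous (cm : Matrix (Fin k) (Fin n) ℝ → _) :=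
  continuous_id.matrix_map Complex.continuous_ofReal

theorem cm_mul {m k n : ℕ} (g : Matrix (Fin m) (Fin k) ℝ) (u : Matrix (Fin k) (Fin n) ℝ) :
    cm (g * u) = cm g * cm u :=
  Matrix.map_mul (f := Complex.ofRealHom)

theorem re_cm {k n : ℕ} (u : Matrix (Fin k) (Fin n) ℝ) : (cm u).map Complex.re = u := by
  ext a b
  exact Complex.ofReal_re _

/-- normalisation by a minor. -/
def nm {K : Type*} [Field K] {k n : ℕ} (t : Fin k → Fin n) (v : Matrix (Fin k) (Fin n) K) :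
    Matrix (Fin k) (Fin n) K := (v.submatrix id t)⁻¹ * v

theorem sub_mul_id {K : Type*} [Field K] {k n : ℕ} (g : Matrix (Fin k) (Fin k) K)
    (v : Matrix (Fin k) (Fin n) K) (t : Fin k → Fin n) :
    (g * v).submatrix id t = g * v.submatrix id t := by
  ext a b
  simp [Matrix.mul_apply]

theorem nm_mul {K : Type*} [Field K] {k n : ℕ} (t : Fin k → Fin n)
    (g : Matrix (Fin k) (Fin k) K) (hg : g.det ≠ 0) (v : Matrix (Fin k) (Fin n) K) :
    nm t (g * v) = nm t v := by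
  unfold nm
  rw [sub_mul_id, Matrix.mul_inv_rev, Matrix.mul_assoc, ← Matrix.mul_assoc g⁻¹ g v,
    Matrix.nonsing_inv_mul g (isUnit_iff_ne_zero.2 hg), Matrix.one_mul]

theorem nm_cm {k n : ℕ} (t : Fin k → Fin n) (v : Matrix (Fin k) (Fin n) ℝ) :
    nm t (cm v) = cm (nm t v) := by
  unfold nm
  rw [cm_mul]
  congr 1
  have h1 : (cm v).submatrix id t = cm (v.submatrix id t) := rfl
  rw [h1, Matrix.inv_def, Matrix.inv_def, Ring.inverse_eq_inv', Ring.inverse_eq_inv']
  have h2 : (cm (v.submatrix id t)).det = (((v.submatrix id t).det : ℝ) : ℂ) :=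
    (RingHom.map_det Complex.ofRealHom _).symm
  have h3 : (cm (v.submatrix id t)).adjugate = cm ((v.submatrix id t).adjugate) :=
    (RingHom.map_adjugate Complex.ofRealHom _).symm
  rw [h2, h3]
  ext a b
  show _ = (((((v.submatrix id t).det)⁻¹ * (v.submatrix id t).adjugate a b : ℝ)) : ℂ)
  rw [Complex.ofReal_mul, Complex.ofReal_inv]
  rfl

theorem nm_continuousAt {k n : ℕ} (t : Fin k → Fin n) {v : Matrix (Fin k) (Fin n) ℂ}
    (hv : (v.submatrix id t).det ≠ 0) : ContinuousAt (nm t) v := by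
  have h0 : nm t = fun v : Matrix (Fin k) (Fin n) ℂ =>
      ((v.submatrix id t).det)⁻¹ • ((v.submatrix id t).adjugate * v) := by
    funext v
    unfold nm
    rw [Matrix.inv_def, Ring.inverse_eq_inv', Matrix.smul_mul]
  rw [h0]
  have h1 : Continuous fun v : Matrix (Fin k) (Fin n) ℂ => v.submatrix id t :=
    continuous_id.matrix_submatrix id t
  have h2 : ContinuousAt (fun v : Matrix (Fin k) (Fin n) ℂ => ((v.submatrix id t).det)⁻¹) v :=
    h1.matrix_det.continuousAt.inv₀ hv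
  have h3 : ContinuousAt (fun v : Matrix (Fin k) (Fin n) ℂ =>
      (v.submatrix id t).adjugate * v) v :=
    (h1.matrix_adjugate.matrix_mul continuous_id).continuousAt
  exact h2.smul h3

theorem nm_self {K : Type*} [Field K] {k n : ℕ} (t : Fin k → Fin n)
    {v : Matrix (Fin k) (Fin n) K} (hv : (v.submatrix id t).det ≠ 0) :
    v.submatrix id t * nm t v = v := by
  unfold nm
  rw [← Matrix.mul_assoc, Matrix.mul_nonsing_inv _ (isUnit_iff_ne_zero.2 hv), Matrix.one_mul]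

variable {k l : ℕ}

/-- the chart commutes with ring homomorphisms. -/
theorem uz_map {R S : Type*} [CommRing R] [CommRing S] (f : R →+* S)
    (T : Matrix (Fin (k + l)) (Fin (k + l)) R) (z : Fin (k * l) → R) :
    uz (T.map f) (fun i => f (z i)) = (uz T z).map f := by
  unfold uz
  rw [Matrix.map_mul]
  congr 1
  ext a b
  unfold oz
  refine Fin.addCases (fun j => ?_) (fun j => ?_) b
  · simp only [Matrix.of_apply, Matrix.map_apply, Fin.append_left]
    split_ifs
    · rw [map_one]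
    · rw [map_zero]
  · simp only [Matrix.of_apply, Matrix.map_apply, Fin.append_right]

theorem dz_map {R S : Type*} [CommRing R] [CommRing S] (f : R →+* S)
    (T : Matrix (Fin (k + l)) (Fin (k + l)) R) (j : Fin (k * l)) :
    dz (T.map f) j = (dz T j).map f := by
  unfold dz
  have h1 := uz_map f T (Pi.single j 1)
  have h2 := uz_map f T 0
  have h3 : (fun i => f ((Pi.single j 1 : Fin (k * l) → R) i)) = Pi.single j 1 := by
    funext i
    by_cases hij : i = j
    · subst hij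
      rw [Pi.single_eq_same, Pi.single_eq_same, map_one]
    · rw [Pi.single_eq_of_ne hij, Pi.single_eq_of_ne hij, map_zero]
  have h4 : (fun i => f ((0 : Fin (k * l) → R) i)) = 0 := by
    funext i
    exact map_zero f
  rw [h3] at h1
  rw [h4] at h2
  rw [h1, h2, Matrix.map_sub f (map_sub f)]

theorem cj_map {R S : Type*} [CommRing R] [CommRing S] (f : R →+* S)
    (h : Fin (k * l) → Cf R k (k + l)) (T : Matrix (Fin (k + l)) (Fin (k + l)) R)
    (z : Fin (k * l) → R) :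
    cj (fun i t => f (h i t)) (T.map f) (fun i => f (z i)) = f (cj h T z) := by
  unfold cj
  rw [RingHom.map_det]
  congr 1
  ext i j
  show dlf _ _ _ = f (dlf _ _ _)
  rw [uz_map, dz_map, dlf_map]

/-- the real zeros. -/
theorem cj_real (h : Fin (k * l) → Cf ℝ k (k + l)) (T : Matrix (Fin (k + l)) (Fin (k + l)) ℝ)
    (x : Fin (k * l) → ℝ) :
    Jc (mT (cm T)) (ch h) (fun i => (x i : ℂ)) = ((cj h T x : ℝ) : ℂ) := by
  rw [Jc_mT]
  exact cj_map Complex.ofRealHom h T x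

theorem issol_real {h : Fin (k * l) → Cf ℝ k (k + l)}
    {T : Matrix (Fin (k + l)) (Fin (k + l)) ℝ} (hT : T.det ≠ 0) {x : Fin (k * l) → ℝ} :
    (fun i => (x i : ℂ)) ∈ Zs (mT (cm T)) (ch h) ↔ IsSol h (uz T x) := by
  rw [← issol_uz (det_cm T hT), uz_cm, issol_cm]

/-- a real solution in the chart. -/
theorem real_rep {h : Fin (k * l) → Cf ℝ k (k + l)}
    {T : Matrix (Fin (k + l)) (Fin (k + l)) ℝ} (hT : T.det ≠ 0)
    {u : Matrix (Fin k) (Fin (k + l)) ℝ} (hu : IsSol h u) {z : Fin (k * l) → ℂ}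
    (hz : rs (cm u) = rs (uz (cm T) z)) :
    ∃ x : Fin (k * l) → ℝ, z = (fun i => (x i : ℂ)) ∧ IsSol h (uz T x) ∧
      ∃ g : Matrix (Fin k) (Fin k) ℝ, g.det ≠ 0 ∧ u = g * uz T x := by
  obtain ⟨x, hx⟩ := chart_real T hT z u hu.1 hz
  subst hx
  rw [uz_cm] at hz
  obtain ⟨g, hg, e⟩ := rs_eq_real (uz T x) u (uz_fr T hT x) hu.1 hz.symm
  refine ⟨x, rfl, ?_, g, hg, e⟩
  rw [← issol_mul h g hg, ← e]
  exact hu

/-- the relation of the two Jacobians in a fixed chart. -/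
theorem JJ_chart_c (T : Matrix (Fin (k + l)) (Fin (k + l)) ℝ) (hT : T.det ≠ 0) :
    ∃ c : ℝ, c ≠ 0 ∧ ∀ (h : Fin (k * l) → Cf ℝ k (k + l)) (z : Fin (k * l) → ℝ),
      (∀ i, lf (h i) (uz T z) = 0) →
      JJ h (uz T z) = c * (uz T z * (uz T z)ᵀ).det ^ k * cj h T z := by
  obtain ⟨sg, hsg, h1⟩ := JJ_chart k l
  have h2 : sg ≠ 0 := by rcases hsg with h | h <;> rw [h] <;> norm_num
  have h3 : T.det ^ k ≠ 0 := pow_ne_zero _ hT
  first
    | exact ⟨sg * T.det ^ k, mul_ne_zero h2 h3, fun h z hz => h1 h T z hT hz⟩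
    | refine ⟨sg * (T.det ^ k)⁻¹, mul_ne_zero h2 (inv_ne_zero h3), fun h z hz => ?_⟩
      have h4 := h1 h T z hT hz
      have h5 : JJ h (uz T z) = JJ h (uz T z) * T.det ^ k * (T.det ^ k)⁻¹ := by
        rw [mul_assoc, mul_inv_cancel₀ h3, mul_one]
      rw [h5, h4]
      ring

/-- the two Jacobians vanish together. -/
theorem cj_ne_iff {h : Fin (k * l) → Cf ℝ k (k + l)}
    {T : Matrix (Fin (k + l)) (Fin (k + l)) ℝ} (hT : T.det ≠ 0) {x : Fin (k * l) → ℝ}
    (hx : IsSol h (uz T x)) : cj h T x ≠ 0 ↔ JJ h (uz T x) ≠ 0 := by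
  obtain ⟨c, hc, h1⟩ := JJ_chart_c T hT
  rw [h1 h x hx.2]
  have h3 : c * (uz T x * (uz T x)ᵀ).det ^ k ≠ 0 :=
    mul_ne_zero hc (pow_ne_zero _ (det_uut_pos _ hx.1).ne')
  exact ⟨fun h => mul_ne_zero h3 h, fun h => right_ne_zero_of_mul h⟩

theorem JJ_ne_mul (hk : 1 ≤ k) (h : Fin (k * l) → Cf ℝ k (k + l))
    (u : Matrix (Fin k) (Fin (k + l)) ℝ) {g : Matrix (Fin k) (Fin k) ℝ} (hg : g.det ≠ 0) :
    JJ h (g * u) ≠ 0 ↔ JJ h u ≠ 0 := by
  rw [JJ_mul hk h u g hg]
  exact ⟨fun h => right_ne_zero_of_mul h, fun h => mul_ne_zero (pow_ne_zero _ hg) h⟩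

/-- product of two Jacobians. -/
theorem JJ_prod (hk : 1 ≤ k) {h : Fin (k * l) → Cf ℝ k (k + l)}
    {T : Matrix (Fin (k + l)) (Fin (k + l)) ℝ} (hT : T.det ≠ 0) {x y : Fin (k * l) → ℝ}
    (hx : IsSol h (uz T x)) (hy : IsSol h (uz T y)) {g : Matrix (Fin k) (Fin k) ℝ}
    (hg : g.det ≠ 0) (hp : 0 < JJ h (g * uz T x) * JJ h (g * uz T y)) :
    0 < cj h T x * cj h T y := by
  obtain ⟨c, hc, h1⟩ := JJ_chart_c T hT
  rw [JJ_mul hk h _ g hg, JJ_mul hk h _ g hg, h1 h x hx.2, h1 h y hy.2] at hp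
  set A := (uz T x * (uz T x)ᵀ).det ^ k with hA
  set B := (uz T y * (uz T y)ᵀ).det ^ k with hB
  have hAp : 0 < A := pow_pos (det_uut_pos _ hx.1) _
  have hBp : 0 < B := pow_pos (det_uut_pos _ hy.1) _
  set D := g.det ^ (k + (k - 1) * l) with hD
  have hDn : D ≠ 0 := pow_ne_zero _ hg
  have h3 : D * (c * A * cj h T x) * (D * (c * B * cj h T y)) =
      (D ^ 2 * c ^ 2 * A * B) * (cj h T x * cj h T y) := by ring
  rw [h3] at hp
  have h4 : 0 < D ^ 2 * c ^ 2 * A * B := by positivity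
  exact (mul_pos_iff_of_pos_left h4).1 hp

end GTC
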