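import Pool.Agent.GTR.P1

/-!
# GTR FO : finiteness is an open condition; compactness of the solutions

PROOFS.
* `upper`: suppose not: then there is a filter `≤ 𝓝 h` (ultrafilter, or a sequence: the space of all
  families `h` is metrizable) along which solutions `u'` of `h'` exist none of whose multiples
  `g * u'` lies in a neighbourhood `U u` for a solution `u` of `h`.  By `exists_orth` take `u'` with
  `u' * u'ᴴ = 1`; these matrices lie in a compact set (`orth_compact`); a cluster point `u` satisfies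
  `u uᴴ = 1`, so `FR u`, and `lf (h i) u = 0` by joint continuity (`lf_continuous`).  So `u` is a
  solution of `h`, and `u'` is frequently in `U u`: contradiction (`g = 1` after the change of
  representative).
* `exists_form`: for each `L ∈ S` choose `u_L`; some minor of `u_L` is nonzero so `c ↦ lf c u_L` is a
  nonzero linear functional on `Cf ℂ k n`; a vector space over an infinite field is not a finite union
  of proper subspaces (kernels) (`Submodule.iUnion_ne_top...` or a product of nonzero polynomials).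
  Note `lf c (g * u) = det g * lf c u`, so `lf c u ≠ 0` for all `u` with `rs u = L`.
* `FO`: choose `c` for `S = Sol h`.  If `Sol h'` is infinite, `P1` gives a solution `u'` of `h'` with
  `lf c u' = 0`, for `h'` arbitrarily near `h`.  The set `U u = {v | lf c v ≠ 0}` is a neighbourhood of
  every solution `u` of `h`; `upper` gives `g` with `lf c (g * u') ≠ 0`, so `lf c u' ≠ 0`
  (`lf_mul`): contradiction.
-/

set_option autoImplicit false

open Matrix Topology Filter

namespace GTC

theorem upper {k n : ℕ} {ι : Type*} [Finite ι] (h : ι → Cf ℂ k n)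
    (U : Matrix (Fin k) (Fin n) ℂ → Set (Matrix (Fin k) (Fin n) ℂ))
    (hU : ∀ u, IsSol h u → U u ∈ 𝓝 u) :
    ∀ᶠ h' in 𝓝 h, ∀ u', IsSol h' u' → ∃ u, IsSol h u ∧ ∃ g : Matrix (Fin k) (Fin k) ℂ,
      g.det ≠ 0 ∧ g * u' ∈ U u := by
  have key : ∀ᶠ h' in 𝓝 h, ∀ u' ∈ {u : Matrix (Fin k) (Fin n) ℂ | u * uᴴ = 1},
      (IsSol h' u' → ∃ u, IsSol h u ∧ u' ∈ U u) := by
    refine (orth_compact k n).eventually_forall_of_forall_eventually
      (P := fun h' u' => IsSol h' u' → ∃ u, IsSol h u ∧ u' ∈ U u) ?_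
    intro y hy
    by_cases hs : IsSol h y
    · have h1 : ∀ᶠ z : (ι → Cf ℂ k n) × Matrix (Fin k) (Fin n) ℂ in 𝓝 (h, y), z.2 ∈ U y :=
        (continuous_snd.tendsto (h, y)).eventually (hU y hs)
      exact h1.mono fun z hz _ => ⟨y, hs, hz⟩
    · have h2 : ∃ i, lf (h i) y ≠ 0 := by
        by_contra hcon
        push Not at hcon
        exact hs ⟨fr_of_orth y hy, hcon⟩
      obtain ⟨i, hi⟩ := h2
      have hm : Continuous fun z : (ι → Cf ℂ k n) × Matrix (Fin k) (Fin n) ℂ =>
          (z.1 i, z.2) :=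
        ((continuous_apply i).comp continuous_fst).prodMk continuous_snd
      have hc : Continuous fun z : (ι → Cf ℂ k n) × Matrix (Fin k) (Fin n) ℂ =>
          lf (z.1 i) z.2 := (lf_continuous k n).comp hm
      have h3 : ∀ᶠ z : (ι → Cf ℂ k n) × Matrix (Fin k) (Fin n) ℂ in 𝓝 (h, y),
          lf (z.1 i) z.2 ≠ 0 := hc.continuousAt.eventually_ne hi
      exact h3.mono fun z hz hsol => absurd (hsol.2 i) hz
  refine key.mono fun h' hh' u' hu' => ?_
  obtain ⟨g, hg, hgu⟩ := exists_orth u' hu'.1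
  obtain ⟨u, hu, huU⟩ := hh' (g * u') hgu ((issol_mul h' g hg u').2 hu')
  exact ⟨u, hu, g, hg, huU⟩

/-- The value at `u`, as a linear functional of the coefficients. -/
noncomputable def lfl {k n : ℕ} (u : Matrix (Fin k) (Fin n) ℂ) : Module.Dual ℂ (Cf ℂ k n) where
  toFun c := lf c u
  map_add' c c' := by
    unfold lf
    rw [← Finset.sum_add_distrib]
    exact Finset.sum_congr rfl fun t _ => by rw [Pi.add_apply, add_mul]
  map_smul' r c := by
    unfold lf
    rw [RingHom.id_apply, smul_eq_mul, Finset.mul_sum]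
    exact Finset.sum_congr rfl fun t _ => by rw [Pi.smul_apply, smul_eq_mul, mul_assoc]

theorem exists_form {k n : ℕ} (S : Set (Submodule ℂ (Fin n → ℂ))) (hS : S.Finite) :
    ∃ c : Cf ℂ k n, ∀ u : Matrix (Fin k) (Fin n) ℂ, FR u → rs u ∈ S → lf c u ≠ 0 := by
  classical
  let T : Set (Submodule ℂ (Fin n → ℂ)) :=
    {L | L ∈ S ∧ ∃ u : Matrix (Fin k) (Fin n) ℂ, FR u ∧ rs u = L}
  have hT : T.Finite := hS.subset fun L hL => hL.1
  have : Finite T := hT.to_subtype
  have hch : ∀ L : T, ∃ u : Matrix (Fin k) (Fin n) ℂ, FR u ∧ rs u = L.1 := fun L => L.2.2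
  choose v hv hvL using hch
  obtain ⟨c, hc⟩ := Module.Dual.exists_forall_ne_zero_of_forall_exists
    (fun L : T => lfl (v L)) (fun L => by
      obtain ⟨t, ht⟩ := (fr_iff_minor (v L)).1 (hv L)
      refine ⟨Pi.single t 1, ?_⟩
      change lf (Pi.single t 1) (v L) ≠ 0
      unfold lf
      rw [Finset.sum_eq_single t]
      · rw [Pi.single_eq_same, one_mul]
        exact ht
      · intro b _ hb
        rw [Pi.single_eq_of_ne hb, zero_mul]
      · intro hb
        exact absurd (Finset.mem_univ t) hb)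
  refine ⟨c, fun u hu huS => ?_⟩
  obtain ⟨g, hg, hgu⟩ := rs_eq (v ⟨rs u, huS, u, hu, rfl⟩) u (hv _) hu (hvL _)
  rw [hgu, lf_mul]
  exact mul_ne_zero hg (hc ⟨rs u, huS, u, hu, rfl⟩)

theorem FO {k n : ℕ} (hk : 1 ≤ k) {ι : Type*} [Finite ι] (h : ι → Cf ℂ k n)
    (hfin : (Sol h).Finite) : ∀ᶠ h' in 𝓝 h, (Sol h').Finite := by
  obtain ⟨c, hc⟩ := exists_form (k := k) (Sol h) hfin
  have hcont : Continuous fun v : Matrix (Fin k) (Fin n) ℂ => lf c v :=
    (lf_continuous k n).comp (continuous_const.prodMk continuous_id)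
  have hup := upper h (fun _ => {v | lf c v ≠ 0}) (fun u hu =>
    hcont.continuousAt.eventually_ne (hc u hu.1 ⟨u, hu, rfl⟩))
  refine hup.mono fun h' hh' => ?_
  by_contra hinf
  obtain ⟨u', hu', hcu'⟩ := P1 hk h' hinf c
  obtain ⟨u, _, g, _, hgu⟩ := hh' u' hu'
  apply hgu
  rw [lf_mul, hcu', mul_zero]

end GTC
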