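import Pool.Agent.GTR.Chart
import Pool.Agent.GTR.FO
import Pool.Agent.GTR.Tr.Uniq

/-!
# GTR ChZ : solutions in a chart as zeros of a polynomial system (helper85)

`mT T t` = the minor `t` of `uz T z` as a polynomial in `z`; `sys (mT T) h = Fp h T`.
* `issol_uz`    : `uz T z` is a solution iff `z ∈ Zs (mT T) h`;
* `chart_upper` : if all solutions of `h` are in the chart then for `h'` near `h` all solutions of `h'` are in the chart, near the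
  solutions of `h`.
-/

set_option autoImplicit false

open Matrix Topology Filter Pool.GTR.Tr

noncomputable section

namespace GTC

variable {k l : ℕ}

/-- the minors in the chart. -/
def mT (T : Matrix (Fin (k + l)) (Fin (k + l)) ℂ) (t : Fin k → Fin (k + l)) :
    MvPolynomial (Fin (k * l)) ℂ :=
  ((uz (T.map MvPolynomial.C) MvPolynomial.X).submatrix id t).det

theorem sys_mT (h : Fin (k * l) → Cf ℂ k (k + l)) (T : Matrix (Fin (k + l)) (Fin (k + l)) ℂ) :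
    sys (mT T) h = Fp h T := rfl

theorem mem_Zs {h : Fin (k * l) → Cf ℂ k (k + l)} {T : Matrix (Fin (k + l)) (Fin (k + l)) ℂ}
    {z : Fin (k * l) → ℂ} : z ∈ Zs (mT T) h ↔ ∀ i, lf (h i) (uz T z) = 0 := by
  unfold Zs
  rw [Set.mem_ofPred_eq, sys_mT]
  simp only [eval_Fp]

theorem issol_uz {h : Fin (k * l) → Cf ℂ k (k + l)} {T : Matrix (Fin (k + l)) (Fin (k + l)) ℂ}
    (hT : T.det ≠ 0) {z : Fin (k * l) → ℂ} : IsSol h (uz T z) ↔ z ∈ Zs (mT T) h := by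
  rw [mem_Zs]
  exact ⟨fun h => h.2, fun h => ⟨uz_fr T hT z, h⟩⟩

theorem Jc_mT (h : Fin (k * l) → Cf ℂ k (k + l)) (T : Matrix (Fin (k + l)) (Fin (k + l)) ℂ)
    (z : Fin (k * l) → ℂ) : Jc (mT T) h z = cj h T z := by
  unfold Jc cj
  rw [sys_mT]
  simp only [eval_pderiv_Fp]
  rfl

/-- representatives in the chart. -/
theorem chart_rep {h : Fin (k * l) → Cf ℂ k (k + l)} {T : Matrix (Fin (k + l)) (Fin (k + l)) ℂ}
    (hT : T.det ≠ 0) {u : Matrix (Fin k) (Fin (k + l)) ℂ} (hu : IsSol h u)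
    {z : Fin (k * l) → ℂ} (hz : rs u = rs (uz T z)) :
    z ∈ Zs (mT T) h ∧ ∃ g : Matrix (Fin k) (Fin k) ℂ, g.det ≠ 0 ∧ u = g * uz T z := by
  obtain ⟨g, hg, e⟩ := rs_eq (uz T z) u (uz_fr T hT z) hu.1 hz.symm
  refine ⟨?_, g, hg, e⟩
  rw [← issol_uz hT, ← issol_mul h g hg, ← e]
  exact hu

theorem Sol_image {h : Fin (k * l) → Cf ℂ k (k + l)} {T : Matrix (Fin (k + l)) (Fin (k + l)) ℂ}
    (hT : T.det ≠ 0) (hc : ∀ u, IsSol h u → ∃ z, rs u = rs (uz T z)) :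
    Sol h = (fun z => rs (uz T z)) '' Zs (mT T) h := by
  ext L
  constructor
  · rintro ⟨u, hu, rfl⟩
    obtain ⟨z, hz⟩ := hc u hu
    exact ⟨z, (chart_rep hT hu hz).1, hz.symm⟩
  · rintro ⟨z, hz, rfl⟩
    exact ⟨uz T z, (issol_uz hT).2 hz, rfl⟩

theorem rs_uz_inj {T : Matrix (Fin (k + l)) (Fin (k + l)) ℂ} (hT : T.det ≠ 0) :
    Function.Injective fun z : Fin (k * l) → ℂ => rs (uz T z) :=
  fun z z' h => uz_inj T hT z z' h

theorem Zs_finite {h : Fin (k * l) → Cf ℂ k (k + l)} {T : Matrix (Fin (k + l)) (Fin (k + l)) ℂ}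
    (hT : T.det ≠ 0) (hfin : (Sol h).Finite) : (Zs (mT T) h).Finite := by
  refine Set.Finite.of_finite_image (hfin.subset ?_) (rs_uz_inj hT).injOn
  rintro _ ⟨z, hz, rfl⟩
  exact ⟨uz T z, (issol_uz hT).2 hz, rfl⟩

theorem ncard_Sol {h : Fin (k * l) → Cf ℂ k (k + l)} {T : Matrix (Fin (k + l)) (Fin (k + l)) ℂ}
    (hT : T.det ≠ 0) (hc : ∀ u, IsSol h u → ∃ z, rs u = rs (uz T z)) :
    (Sol h).ncard = (Zs (mT T) h).ncard := by
  rw [Sol_image hT hc]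
  exact Set.ncard_image_of_injective _ (rs_uz_inj hT)

/-- neighbourhoods from the chart. -/
theorem chart_nhds {T : Matrix (Fin (k + l)) (Fin (k + l)) ℂ} (hT : T.det ≠ 0)
    {u : Matrix (Fin k) (Fin (k + l)) ℂ} {g : Matrix (Fin k) (Fin k) ℂ} (hg : g.det ≠ 0)
    {a : Fin (k * l) → ℂ} (e : u = g * uz T a) {W : Set (Fin (k * l) → ℂ)} (hW : W ∈ 𝓝 a) :
    ∃ U ∈ 𝓝 u, ∀ v ∈ U, ∃ z ∈ W, rs v = rs (uz T z) := by
  obtain ⟨G, Z, hG, hG1, hZ, hZ1, hGZ⟩ := uz_near T hT a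
  have hcont : Continuous fun v : Matrix (Fin k) (Fin (k + l)) ℂ => g⁻¹ * v :=
    continuous_const.matrix_mul continuous_id
  have hgu : g⁻¹ * u = uz T a := by
    rw [e, ← Matrix.mul_assoc, Matrix.nonsing_inv_mul g (isUnit_iff_ne_zero.2 hg),
      Matrix.one_mul]
  have h1 : ∀ᶠ v in 𝓝 u, (G (g⁻¹ * v)).det ≠ 0 := by
    have h2 : ContinuousAt (fun v => (G (g⁻¹ * v)).det) u :=
      ((hG.comp hcont).matrix_det).continuousAt
    refine h2.eventually_ne ?_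
    rw [hgu, hG1, Matrix.det_one]
    exact one_ne_zero
  have h2 : ∀ᶠ v in 𝓝 u, Z (g⁻¹ * v) ∈ W := by
    have h3 : ContinuousAt (fun v => Z (g⁻¹ * v)) u := by
      refine ContinuousAt.comp (g := Z) ?_ hcont.continuousAt
      rw [hgu]
      exact hZ
    have h4 : ∀ᶠ y in 𝓝 (Z (g⁻¹ * u)), y ∈ W := by
      rw [hgu, hZ1]
      exact hW
    exact h3.eventually h4
  refine ⟨{v | (G (g⁻¹ * v)).det ≠ 0 ∧ Z (g⁻¹ * v) ∈ W}, h1.and h2, ?_⟩
  rintro v ⟨hv1, hv2⟩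
  refine ⟨Z (g⁻¹ * v), hv2, ?_⟩
  have hgi : (g⁻¹).det ≠ 0 := by
    rw [Matrix.det_nonsing_inv, Ring.inverse_eq_inv']
    exact inv_ne_zero hg
  have h5 := hGZ _ hv1
  calc rs v = rs (g⁻¹ * v) := (rs_mul g⁻¹ hgi v).symm
    _ = rs (G (g⁻¹ * v) * uz T (Z (g⁻¹ * v))) := congrArg rs h5
    _ = rs (uz T (Z (g⁻¹ * v))) := rs_mul _ hv1 _

/-- all solutions of `h'` are in the chart, near the solutions of `h`. -/
theorem chart_upper {h : Fin (k * l) → Cf ℂ k (k + l)}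
    {T : Matrix (Fin (k + l)) (Fin (k + l)) ℂ} (hT : T.det ≠ 0)
    (hc : ∀ u, IsSol h u → ∃ z, rs u = rs (uz T z))
    (W : (Fin (k * l) → ℂ) → Set (Fin (k * l) → ℂ)) (hW : ∀ a ∈ Zs (mT T) h, W a ∈ 𝓝 a) :
    ∀ᶠ h' in 𝓝 h, ∀ u, IsSol h' u → ∃ z, rs u = rs (uz T z) ∧ ∃ a ∈ Zs (mT T) h, z ∈ W a := by
  classical
  have key : ∀ u : Matrix (Fin k) (Fin (k + l)) ℂ, ∃ U : Set (Matrix (Fin k) (Fin (k + l)) ℂ),
      IsSol h u → U ∈ 𝓝 u ∧ ∀ v ∈ U, ∃ z, rs v = rs (uz T z) ∧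
        ∃ a ∈ Zs (mT T) h, z ∈ W a := by
    intro u
    by_cases hu : IsSol h u
    · obtain ⟨a, ha⟩ := hc u hu
      obtain ⟨haZ, g, hg, e⟩ := chart_rep hT hu ha
      obtain ⟨U, hU, hUW⟩ := chart_nhds hT hg e (hW a haZ)
      refine ⟨U, fun _ => ⟨hU, fun v hv => ?_⟩⟩
      obtain ⟨z, hz, e'⟩ := hUW v hv
      exact ⟨z, e', a, haZ, hz⟩
    · exact ⟨Set.univ, fun h => absurd h hu⟩
  choose U hU using key
  filter_upwards [upper h U fun u hu => (hU u hu).1] with h' hh u hu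
  obtain ⟨u0, hu0, g, hg, hgu⟩ := hh u hu
  obtain ⟨z, hz, ha⟩ := (hU u0 hu0).2 _ hgu
  rw [rs_mul g hg] at hz
  exact ⟨z, hz, ha⟩

/-- complexified chart. -/
theorem det_cm (T : Matrix (Fin (k + l)) (Fin (k + l)) ℝ) (hT : T.det ≠ 0) :
    (cm T).det ≠ 0 := by
  unfold cm
  have h1 : (T.map fun x : ℝ => (x : ℂ)).det = ((T.det : ℝ) : ℂ) :=
    (RingHom.map_det Complex.ofRealHom T).symm
  rw [h1]
  exact_mod_cast hT

/-- a chart for a finite set of solutions. -/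
theorem chart_ex {h : Fin (k * l) → Cf ℂ k (k + l)} (hfin : (Sol h).Finite) :
    ∃ T : Matrix (Fin (k + l)) (Fin (k + l)) ℝ, T.det ≠ 0 ∧
      ∀ u, IsSol h u → ∃ z, rs u = rs (uz (cm T) z) := by
  obtain ⟨T, hT, h1⟩ := chart_exists (Sol h) hfin fun L hL => by
    obtain ⟨u, hu, e⟩ := hL
    exact ⟨u, hu.1, e⟩
  exact ⟨T, hT, fun u hu => h1 _ ⟨u, hu, rfl⟩⟩

end GTC
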