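import Pool.Agent.GTR.Jac

/-!
# GTR Chart : affine charts of the Grassmannian

`uz T z = (1 | z) * T`, where `z : Fin (k * l) → R` is read as a `k × l` matrix by
`finProdFinEquiv`.  `dz T j` = derivative of `uz T z` in the direction of the `j`-th coordinate.
`cj h T z` = chart Jacobian, `Fp h T i` = the polynomial `z ↦ lf (h i) (uz T z)`.

PROOFS.
* `uz_fr`: the first `k` columns of `uz T z * T⁻¹` are the identity.
* `uz_inj`: if `uz T z' = g * uz T z`, multiply by `T⁻¹` and compare the first `k` columns: `g = 1`.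
* `chart_exists`: given finitely many complex matrices `U 1, …, U m` of full rank there is a real
  matrix `T`, `det T ≠ 0`, such that for every `i` the first `k` columns of `U i * T⁻¹` have nonzero
  determinant (and then `rs (U i) = rs (uz T z)` for a `z`: divide by this block).  Put `S = T⁻¹`.
  The function `S ↦ det S * ∏ i, det ((U i * S) first k columns)` is a polynomial in the entries of
  `S` which is not identically zero on complex matrices: for each single factor there is a complex
  (even permutation-like) `S` where it is nonzero (`fr_iff_minor`: choose `S` with first `k` columns the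
  unit vectors selected by the nonzero minor); a product of nonzero polynomials is nonzero, and a
  nonzero polynomial with complex coefficients has a real (even rational) point where it does not
  vanish (`MvPolynomial.funext`-type lemma for infinite sets: `MvPolynomial.funext_set` or: real and
  imaginary part polynomials).
* `chart_complex` (real version of membership): if `rs (cm u) = rs (uz (T.map ofReal) z)` with `u` real
  then `z` is real: `z` is computed from `u * T⁻¹` by real operations.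
* `JW_chart`: let `w0 = T⁻¹ * (1; 0)`.  Then `uz T z * w0 = 1`.  `JW h (uz T z) w0`: with `δ = δ' * T`
  (determinant `det T ^ k`) the map becomes `δ' ↦ (dlf (h i) (uz T z) (δ' T), first k columns of δ')`.
  On the matrix units `δ' = E_(a, natAdd b)` the second component is `0` and `δ' T = dz T j`,
  `j = finProdFinEquiv (a, b)`; on `δ' = E_(a, castAdd b)` the second component is `E_ab`.  So with
  respect to this numbering of the basis the matrix is block triangular with diagonal blocks
  `(dlf (h i) (uz T z) (dz T j))_(i,j)` and the identity.  The comparison of the numbering with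
  `idx k l` is a fixed permutation of `Fin (k*l) ⊕ (Fin k × Fin k)`, of sign `sg k l`.
* `JJ_chart`: `JW_change` with `w = uᵀ`, `w' = w0`, `u = uz T z`: `JJ h u * 1 = JW h u w0 * det (u uᵀ)^k`.
  (`JW h u w0 * det T ^ k = ± cj h T z`, so `JJ h u * det T ^ k = ± det (u uᵀ)^k * cj h T z`.)
* `eval_Fp`, `eval_pderiv_Fp`: `lf_map` for the evaluation homomorphism; for the derivative use
  `dlf_coeff`/multilinearity: `lf c (u + s δ) = lf c u + s dlf c u δ + O(s^2)`, together with
  `uz T (z + s e_j) = uz T z + s • dz T j`.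
* `Fp_tendsto`: `lf (h i) (uz T z)` is jointly continuous in `(h, z)`, hence tends uniformly for `z` in
  a compact set when `h' → h`.
-/

set_option autoImplicit false

open Matrix Topology Filter

namespace GTC

section
variable {R : Type*} [CommRing R] {k l : ℕ}

/-- the matrix `(1 | z)`. -/
def oz (z : Fin (k * l) → R) : Matrix (Fin k) (Fin (k + l)) R :=
  Matrix.of fun a => Fin.append (fun b : Fin k => if a = b then (1 : R) else 0)
    (fun b : Fin l => z (finProdFinEquiv (a, b)))

/-- the chart. -/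
def uz (T : Matrix (Fin (k + l)) (Fin (k + l)) R) (z : Fin (k * l) → R) :
    Matrix (Fin k) (Fin (k + l)) R := oz z * T

/-- coordinate directions of the chart. -/
def dz (T : Matrix (Fin (k + l)) (Fin (k + l)) R) (j : Fin (k * l)) :
    Matrix (Fin k) (Fin (k + l)) R := uz T (Pi.single j 1) - uz T 0

/-- the chart Jacobian. -/
def cj (h : Fin (k * l) → Cf R k (k + l)) (T : Matrix (Fin (k + l)) (Fin (k + l)) R)
    (z : Fin (k * l) → R) : R :=
  (Matrix.of fun i j => dlf (h i) (uz T z) (dz T j)).det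

/-- the equations in the chart. -/
noncomputable def Fp (h : Fin (k * l) → Cf R k (k + l))
    (T : Matrix (Fin (k + l)) (Fin (k + l)) R) (i : Fin (k * l)) : MvPolynomial (Fin (k * l)) R :=
  lf (fun t => MvPolynomial.C (h i t)) (uz (T.map MvPolynomial.C) MvPolynomial.X)

theorem oz_left (z : Fin (k * l) → R) (a b : Fin k) :
    oz z a (Fin.castAdd l b) = if a = b then (1 : R) else 0 := by
  simp [oz]

theorem oz_right (z : Fin (k * l) → R) (a : Fin k) (b : Fin l) :
    oz z a (Fin.natAdd k b) = z (finProdFinEquiv (a, b)) := by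
  simp [oz]

theorem oz_sub (z : Fin (k * l) → R) :
    (oz z).submatrix id (Fin.castAdd l) = (1 : Matrix (Fin k) (Fin k) R) := by
  ext a b
  rw [Matrix.submatrix_apply, id_eq, oz_left, Matrix.one_apply]

theorem oz_add (z : Fin (k * l) → R) (j : Fin (k * l)) (s : R) :
    oz (z + Pi.single j s) = oz z + s • (oz (Pi.single j (1 : R)) - oz (0 : Fin (k * l) → R)) := by
  ext a c
  refine Fin.addCases (fun b => ?_) (fun b => ?_) c
  · simp only [Matrix.add_apply, Matrix.smul_apply, Matrix.sub_apply, oz_left, sub_self, smul_zero,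
      add_zero]
  · simp only [Matrix.add_apply, Matrix.smul_apply, Matrix.sub_apply, oz_right, Pi.add_apply,
      Pi.zero_apply, sub_zero, smul_eq_mul]
    rcases eq_or_ne (finProdFinEquiv (a, b)) j with h | h
    · rw [h, Pi.single_eq_same, Pi.single_eq_same, mul_one]
    · rw [Pi.single_eq_of_ne h, Pi.single_eq_of_ne h, mul_zero]

theorem uz_add (T : Matrix (Fin (k + l)) (Fin (k + l)) R) (z : Fin (k * l) → R) (j : Fin (k * l))
    (s : R) : uz T (z + Pi.single j s) = uz T z + s • dz T j := by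
  unfold dz uz
  rw [oz_add, Matrix.add_mul, Matrix.smul_mul, Matrix.sub_mul]

theorem oz_map {S : Type*} [CommRing S] (f : R →+* S) (z : Fin (k * l) → R) :
    (oz z).map f = oz (fun i => f (z i)) := by
  ext a c
  refine Fin.addCases (fun b => ?_) (fun b => ?_) c
  · rw [Matrix.map_apply, oz_left, oz_left]
    split_ifs
    · exact map_one f
    · exact map_zero f
  · rw [Matrix.map_apply, oz_right, oz_right]

theorem uz_map42 {S : Type*} [CommRing S] (f : R →+* S) (T : Matrix (Fin (k + l)) (Fin (k + l)) R)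
    (z : Fin (k * l) → R) : (uz T z).map f = uz (T.map f) (fun i => f (z i)) := by
  unfold uz
  rw [Matrix.map_mul, oz_map]

theorem dz_map42 {S : Type*} [CommRing S] (f : R →+* S) (T : Matrix (Fin (k + l)) (Fin (k + l)) R)
    (j : Fin (k * l)) : (dz T j).map f = dz (T.map f) j := by
  unfold dz
  have h1 : (uz T (Pi.single j (1 : R)) - uz T 0).map f
      = (uz T (Pi.single j (1 : R))).map f - (uz T 0).map f := by
    ext a b
    simp only [Matrix.map_apply, Matrix.sub_apply, map_sub]
  rw [h1, uz_map42, uz_map42]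
  have h2 : (fun i => f ((Pi.single j (1 : R) : Fin (k * l) → R) i)) = Pi.single j (1 : S) := by
    funext i
    rcases eq_or_ne i j with h | h
    · rw [h, Pi.single_eq_same, Pi.single_eq_same, map_one]
    · rw [Pi.single_eq_of_ne h, Pi.single_eq_of_ne h, map_zero]
  have h3 : (fun i => f ((0 : Fin (k * l) → R) i)) = (0 : Fin (k * l) → S) := by
    funext i
    exact map_zero f
  rw [h2, h3]

theorem eval_Fp (h : Fin (k * l) → Cf R k (k + l)) (T : Matrix (Fin (k + l)) (Fin (k + l)) R)
    (i : Fin (k * l)) (z : Fin (k * l) → R) :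
    MvPolynomial.eval z (Fp h T i) = lf (h i) (uz T z) := by
  unfold Fp
  rw [lf_map (MvPolynomial.eval z), uz_map42]
  congr 1
  · funext t
    exact MvPolynomial.eval_C _
  · have h1 : (T.map MvPolynomial.C).map (MvPolynomial.eval z) = T := by
      ext a b
      simp
    have h2 : (fun i => MvPolynomial.eval z (MvPolynomial.X i)) = z := by
      funext i
      simp
    rw [h1, h2]

/-- evaluation along a coordinate line. -/
noncomputable def lnh (z : Fin (k * l) → R) (j : Fin (k * l)) :
    MvPolynomial (Fin (k * l)) R →+* Polynomial R :=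
  MvPolynomial.eval₂Hom Polynomial.C
    (fun i => Polynomial.C (z i) + (Pi.single j Polynomial.X : Fin (k * l) → Polynomial R) i)

theorem single_coeff_zero (i j : Fin (k * l)) :
    ((Pi.single j Polynomial.X : Fin (k * l) → Polynomial R) i).coeff 0 = 0 := by
  rcases eq_or_ne i j with h | h
  · rw [h, Pi.single_eq_same, Polynomial.coeff_X_zero]
  · rw [Pi.single_eq_of_ne h, Polynomial.coeff_zero]

theorem single_coeff_one (i j : Fin (k * l)) :
    ((Pi.single j Polynomial.X : Fin (k * l) → Polynomial R) i).coeff 1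
      = (Pi.single j (1 : R) : Fin (k * l) → R) i := by
  rcases eq_or_ne i j with h | h
  · rw [h, Pi.single_eq_same, Pi.single_eq_same, Polynomial.coeff_X_one]
  · rw [Pi.single_eq_of_ne h, Pi.single_eq_of_ne h, Polynomial.coeff_zero]

theorem lnh_coeff (z : Fin (k * l) → R) (j : Fin (k * l)) (P : MvPolynomial (Fin (k * l)) R) :
    (lnh z j P).coeff 0 = MvPolynomial.eval z P ∧
    (lnh z j P).coeff 1 = MvPolynomial.eval z (MvPolynomial.pderiv j P) := by
  classical
  induction P using MvPolynomial.induction_on with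
  | C a =>
    constructor
    · simp [lnh]
    · simp [lnh]
  | add p q hp hq =>
    constructor
    · rw [map_add, Polynomial.coeff_add, hp.1, hq.1, map_add]
    · rw [map_add, Polynomial.coeff_add, hp.2, hq.2, map_add, map_add]
  | mul_X p n hp =>
    have hX0 : (lnh z j (MvPolynomial.X n)).coeff 0 = z n := by
      simp only [lnh, MvPolynomial.coe_eval₂Hom, MvPolynomial.eval₂_X, Polynomial.coeff_add,
        Polynomial.coeff_C_zero, single_coeff_zero, add_zero]
    have hX1 : (lnh z j (MvPolynomial.X n)).coeff 1 = (Pi.single j (1 : R) : Fin (k * l) → R) n := by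
      simp only [lnh, MvPolynomial.coe_eval₂Hom, MvPolynomial.eval₂_X, Polynomial.coeff_add,
        single_coeff_one]
      rw [Polynomial.coeff_C, if_neg one_ne_zero, zero_add]
    constructor
    · rw [map_mul, Polynomial.mul_coeff_zero, hp.1, hX0, map_mul, MvPolynomial.eval_X]
    · rw [map_mul, Polynomial.mul_coeff_one, hp.1, hp.2, hX0, hX1, MvPolynomial.pderiv_mul, map_add,
        map_mul, map_mul, MvPolynomial.eval_X, MvPolynomial.pderiv_X, add_comm]
      congr 1
      rcases eq_or_ne n j with h | h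
      · rw [h, Pi.single_eq_same, Pi.single_eq_same, map_one]
      · rw [Pi.single_eq_of_ne h, Pi.single_eq_of_ne h, map_zero]

theorem eval_pderiv_Fp (h : Fin (k * l) → Cf R k (k + l))
    (T : Matrix (Fin (k + l)) (Fin (k + l)) R) (i j : Fin (k * l)) (z : Fin (k * l) → R) :
    MvPolynomial.eval z (MvPolynomial.pderiv j (Fp h T i)) = dlf (h i) (uz T z) (dz T j) := by
  rw [← (lnh_coeff z j (Fp h T i)).2, ← dlf_coeff]
  congr 1
  unfold Fp
  rw [lf_map (lnh z j), uz_map42]
  congr 1
  · funext t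
    simp [lnh]
  · have h1 : (T.map MvPolynomial.C).map (lnh z j) = T.map Polynomial.C := by
      ext1 a b
      simp [lnh]
    have h2 : (fun i => lnh z j (MvPolynomial.X i))
        = (fun i => Polynomial.C (z i)) + (Pi.single j Polynomial.X : Fin (k * l) → Polynomial R) := by
      funext i
      simp only [lnh, MvPolynomial.coe_eval₂Hom, MvPolynomial.eval₂_X, Pi.add_apply]
    rw [h1, h2, uz_add, uz_map42, dz_map42]

end

theorem uz_fr {K : Type*} [Field K] {k l : ℕ} (T : Matrix (Fin (k + l)) (Fin (k + l)) K)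
    (hT : T.det ≠ 0) (z : Fin (k * l) → K) : FR (uz T z) := by
  unfold uz
  rw [fr_mul_right T hT, fr_iff_minor]
  refine ⟨Fin.castAdd l, ?_⟩
  rw [oz_sub, Matrix.det_one]
  exact one_ne_zero

theorem uz_mul_inv {K : Type*} [Field K] {k l : ℕ} (T : Matrix (Fin (k + l)) (Fin (k + l)) K)
    (hT : T.det ≠ 0) (z : Fin (k * l) → K) : uz T z * T⁻¹ = oz z := by
  unfold uz
  rw [Matrix.mul_assoc, Matrix.mul_nonsing_inv _ (isUnit_iff_ne_zero.mpr hT), Matrix.mul_one]

theorem sub_mul_left {R : Type*} [CommRing R] {k n m : ℕ} (A : Matrix (Fin k) (Fin k) R)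
    (B : Matrix (Fin k) (Fin n) R) (f : Fin m → Fin n) :
    (A * B).submatrix id f = A * B.submatrix id f := by
  ext a b
  simp [Matrix.mul_apply]

theorem oz_inj {R : Type*} [CommRing R] {k l : ℕ} (z z' : Fin (k * l) → R)
    (h : oz z = oz z') : z = z' := by
  funext i
  have h1 := congrFun (congrFun h (finProdFinEquiv.symm i).1) (Fin.natAdd k (finProdFinEquiv.symm i).2)
  rw [oz_right, oz_right, Prod.mk.eta, Equiv.apply_symm_apply] at h1
  exact h1

/-- the coordinates of a matrix in the chart. -/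
noncomputable def crd {K : Type*} [Field K] {k l : ℕ} (T : Matrix (Fin (k + l)) (Fin (k + l)) K)
    (v : Matrix (Fin k) (Fin (k + l)) K) : Fin (k * l) → K := fun i =>
  (((v * T⁻¹).submatrix id (Fin.castAdd l))⁻¹ * (v * T⁻¹)) (finProdFinEquiv.symm i).1
    (Fin.natAdd k (finProdFinEquiv.symm i).2)

theorem crd_spec {K : Type*} [Field K] {k l : ℕ} (T : Matrix (Fin (k + l)) (Fin (k + l)) K)
    (hT : T.det ≠ 0) (v : Matrix (Fin k) (Fin (k + l)) K)
    (hv : ((v * T⁻¹).submatrix id (Fin.castAdd l)).det ≠ 0) :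
    v = (v * T⁻¹).submatrix id (Fin.castAdd l) * uz T (crd T v) := by
  set G := (v * T⁻¹).submatrix id (Fin.castAdd l) with hG
  have h1 : oz (crd T v) = G⁻¹ * (v * T⁻¹) := by
    ext a c
    refine Fin.addCases (fun b => ?_) (fun b => ?_) c
    · have h2 : (G⁻¹ * (v * T⁻¹)).submatrix id (Fin.castAdd l) = 1 := by
        rw [sub_mul_left, ← hG, Matrix.nonsing_inv_mul _ (isUnit_iff_ne_zero.mpr hv)]
      have h3 := congrFun (congrFun h2 a) b
      rw [Matrix.submatrix_apply, id_eq] at h3
      rw [oz_left, h3, Matrix.one_apply]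
    · rw [oz_right]
      simp only [crd, Equiv.symm_apply_apply]
      rw [← hG]
  unfold uz
  rw [h1, ← Matrix.mul_assoc, ← Matrix.mul_assoc, Matrix.mul_nonsing_inv _
    (isUnit_iff_ne_zero.mpr hv), Matrix.one_mul, Matrix.mul_assoc, Matrix.nonsing_inv_mul _
    (isUnit_iff_ne_zero.mpr hT), Matrix.mul_one]

theorem uz_inj {k l : ℕ} (T : Matrix (Fin (k + l)) (Fin (k + l)) ℂ) (hT : T.det ≠ 0)
    (z z' : Fin (k * l) → ℂ) (h : rs (uz T z) = rs (uz T z')) : z = z' := by
  obtain ⟨g, -, hg⟩ := rs_eq _ _ (uz_fr T hT z) (uz_fr T hT z') h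
  have h1 : oz z' = g * oz z := by
    rw [← uz_mul_inv T hT z', ← uz_mul_inv T hT z, hg, Matrix.mul_assoc]
  have h2 : (1 : Matrix (Fin k) (Fin k) ℂ) = g := by
    have h3 := congrArg (fun M => M.submatrix id (Fin.castAdd l)) h1
    simp only [sub_mul_left, oz_sub, Matrix.mul_one] at h3
    exact h3
  rw [← h2, Matrix.one_mul] at h1
  exact oz_inj _ _ h1.symm

theorem oz_continuous (k l : ℕ) : Continuous (oz (R := ℂ) (k := k) (l := l)) := by
  refine continuous_matrix fun a c => ?_
  refine Fin.addCases (fun b => ?_) (fun b => ?_) c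
  · simp only [oz_left]
    exact continuous_const
  · simp only [oz_right]
    exact continuous_apply _

theorem uz_continuous {k l : ℕ} (T : Matrix (Fin (k + l)) (Fin (k + l)) ℂ) :
    Continuous (uz (k := k) (l := l) T) := by
  unfold uz
  exact (oz_continuous k l).matrix_mul continuous_const

theorem uz_cm {k l : ℕ} (T : Matrix (Fin (k + l)) (Fin (k + l)) ℝ) (z : Fin (k * l) → ℝ) :
    uz (cm T) (fun i => (z i : ℂ)) = cm (uz T z) := by
  have h := uz_map42 Complex.ofRealHom T z
  unfold cm
  exact h.symm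

/-- near a point of the chart every matrix is in the chart, with continuous coordinates: `g` is the
block, `v = g * uz T z`. -/
theorem uz_near {k l : ℕ} (T : Matrix (Fin (k + l)) (Fin (k + l)) ℂ) (hT : T.det ≠ 0)
    (z0 : Fin (k * l) → ℂ) : ∃ G : Matrix (Fin k) (Fin (k + l)) ℂ → Matrix (Fin k) (Fin k) ℂ,
    ∃ Z : Matrix (Fin k) (Fin (k + l)) ℂ → (Fin (k * l) → ℂ),
      Continuous G ∧ G (uz T z0) = 1 ∧ ContinuousAt Z (uz T z0) ∧ Z (uz T z0) = z0 ∧
      ∀ v, (G v).det ≠ 0 → v = G v * uz T (Z v) := by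
  have hG1 : ((uz T z0) * T⁻¹).submatrix id (Fin.castAdd l) = (1 : Matrix (Fin k) (Fin k) ℂ) := by
    rw [uz_mul_inv T hT, oz_sub]
  have hGc : Continuous fun v : Matrix (Fin k) (Fin (k + l)) ℂ =>
      (v * T⁻¹).submatrix id (Fin.castAdd l) :=
    (continuous_id.matrix_mul continuous_const).matrix_submatrix _ _
  refine ⟨fun v => (v * T⁻¹).submatrix id (Fin.castAdd l), crd T, hGc, hG1, ?_, ?_, ?_⟩
  · refine continuousAt_pi.mpr fun i => ?_
    have h1 : (fun v : Matrix (Fin k) (Fin (k + l)) ℂ => crd T v i)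
        = fun v => (((v * T⁻¹).submatrix id (Fin.castAdd l)).det)⁻¹ *
          (((v * T⁻¹).submatrix id (Fin.castAdd l)).adjugate * (v * T⁻¹))
            (finProdFinEquiv.symm i).1 (Fin.natAdd k (finProdFinEquiv.symm i).2) := by
      funext v
      simp only [crd]
      rw [Matrix.inv_def, Ring.inverse_eq_inv', Matrix.smul_mul, Matrix.smul_apply, smul_eq_mul]
    have hm : Continuous fun v : Matrix (Fin k) (Fin (k + l)) ℂ => v * T⁻¹ :=
      continuous_id.matrix_mul continuous_const
    have hd : ((uz T z0 * T⁻¹).submatrix id (Fin.castAdd l)).det ≠ 0 := by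
      rw [hG1, Matrix.det_one]
      exact one_ne_zero
    have h2 : Continuous fun v : Matrix (Fin k) (Fin (k + l)) ℂ =>
        (((v * T⁻¹).submatrix id (Fin.castAdd l)).adjugate * (v * T⁻¹))
            (finProdFinEquiv.symm i).1 (Fin.natAdd k (finProdFinEquiv.symm i).2) :=
      (hGc.matrix_adjugate.matrix_mul hm).matrix_elem _ _
    rw [h1]
    exact ContinuousAt.mul (ContinuousAt.inv₀ hGc.matrix_det.continuousAt hd) h2.continuousAt
  · have h1 := crd_spec T hT (uz T z0) (by rw [hG1, Matrix.det_one]; exact one_ne_zero)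
    rw [hG1, Matrix.one_mul] at h1
    exact (uz_inj T hT _ _ (congrArg rs h1)).symm
  · intro v hv
    exact crd_spec T hT v hv

/-- the generic minor. -/
noncomputable def gm {k l : ℕ} (u : Matrix (Fin k) (Fin (k + l)) ℂ) :
    MvPolynomial (Fin (k + l) × Fin (k + l)) ℂ :=
  (Matrix.of fun a b : Fin k => ∑ c : Fin (k + l),
    MvPolynomial.C (u a c) * MvPolynomial.X (c, Fin.castAdd l b)).det

theorem gm_eval {k l : ℕ} (u : Matrix (Fin k) (Fin (k + l)) ℂ)
    (x : Fin (k + l) × Fin (k + l) → ℂ) :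
    MvPolynomial.eval x (gm u)
      = ((u * Matrix.of fun a b => x (a, b)).submatrix id (Fin.castAdd l)).det := by
  unfold gm
  rw [RingHom.map_det]
  congr 1
  ext a b
  simp [Matrix.mul_apply]

theorem det_cm42 {n : ℕ} (A : Matrix (Fin n) (Fin n) ℝ) : (cm A).det = ((A.det : ℝ) : ℂ) := by
  have h := RingHom.map_det Complex.ofRealHom A
  exact h.symm

theorem cm_mul42 {k m n : ℕ} (A : Matrix (Fin k) (Fin m) ℝ) (B : Matrix (Fin m) (Fin n) ℝ) :
    (A * B).map (fun x : ℝ => (x : ℂ))
      = A.map (fun x : ℝ => (x : ℂ)) * B.map (fun x : ℝ => (x : ℂ)) := by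
  ext a b
  simp [Matrix.mul_apply]

theorem cm_inv {n : ℕ} (S : Matrix (Fin n) (Fin n) ℝ) (hS : S.det ≠ 0) :
    (cm S⁻¹)⁻¹ = cm S := by
  refine Matrix.inv_eq_right_inv ?_
  unfold cm
  rw [← cm_mul42, Matrix.nonsing_inv_mul _ (isUnit_iff_ne_zero.mpr hS)]
  ext a b
  by_cases hab : a = b
  · subst hab
    simp
  · simp [Matrix.one_apply_ne hab]

theorem chart_exists {k l : ℕ} (S : Set (Submodule ℂ (Fin (k + l) → ℂ))) (hS : S.Finite)
    (hS' : ∀ L ∈ S, ∃ u : Matrix (Fin k) (Fin (k + l)) ℂ, FR u ∧ L = rs u) :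
    ∃ T : Matrix (Fin (k + l)) (Fin (k + l)) ℝ, T.det ≠ 0 ∧ ∀ L ∈ S, ∃ z, L = rs (uz (cm T) z) := by
  classical
  choose! U hU hLU using hS'
  have hfin : S.Finite := hS
  have hP : ∀ L ∈ S, gm (U L) ≠ 0 := by
    intro L hL h0
    obtain ⟨t, ht⟩ := (fr_iff_minor (U L)).mp (hU L hL)
    have h1 := gm_eval (U L) (fun p => Fin.addCases (motive := fun _ => ℂ)
      (fun b => if p.1 = t b then 1 else 0) (fun _ => 0) p.2)
    rw [h0, map_zero] at h1
    apply ht
    rw [h1]
    congr 1
    ext a b
    simp [Matrix.mul_apply]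
  set Q : MvPolynomial (Fin (k + l) × Fin (k + l)) ℂ :=
    (Matrix.mvPolynomialX (Fin (k + l)) (Fin (k + l)) ℂ).det * ∏ L ∈ hfin.toFinset, gm (U L) with hQ
  have hQ0 : Q ≠ 0 := by
    refine mul_ne_zero (Matrix.det_mvPolynomialX_ne_zero _ _) ?_
    refine Finset.prod_ne_zero_iff.mpr fun L hL => hP L ?_
    exact hfin.mem_toFinset.mp hL
  have hex : ∃ x ∈ Set.univ.pi (fun _ : Fin (k + l) × Fin (k + l) =>
      Set.range (fun r : ℝ => (r : ℂ))), MvPolynomial.eval x Q ≠ 0 := by
    by_contra hcon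
    push Not at hcon
    apply hQ0
    refine MvPolynomial.funext_set (fun _ => Set.range (fun r : ℝ => (r : ℂ))) (fun _ => ?_) ?_
    · exact Set.infinite_range_of_injective Complex.ofReal_injective
    · intro x hx
      rw [hcon x hx, map_zero]
  obtain ⟨x, hx, hxQ⟩ := hex
  have hx' : ∀ p, ∃ r : ℝ, (r : ℂ) = x p := fun p => hx p (Set.mem_univ p)
  choose y hy using hx'
  set V : Matrix (Fin (k + l)) (Fin (k + l)) ℝ := Matrix.of fun a b => y (a, b) with hV
  have hcV : cm V = Matrix.of fun a b => x (a, b) := by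
    ext a b
    simp [cm, hV, hy]
  have hdV : (cm V).det = MvPolynomial.eval x
      (Matrix.mvPolynomialX (Fin (k + l)) (Fin (k + l)) ℂ).det := by
    rw [RingHom.map_det, hcV]
    congr 1
    ext a b
    simp [Matrix.mvPolynomialX]
  have hV0 : V.det ≠ 0 := by
    intro h0
    apply hxQ
    rw [hQ, map_mul, ← hdV, det_cm42, h0, Complex.ofReal_zero, zero_mul]
  refine ⟨V⁻¹, ?_, ?_⟩
  · have h1 : (V⁻¹ * V).det = 1 := by
      rw [Matrix.nonsing_inv_mul _ (isUnit_iff_ne_zero.mpr hV0), Matrix.det_one]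
    rw [Matrix.det_mul] at h1
    exact left_ne_zero_of_mul_eq_one h1
  · intro L hL
    have hT0 : (cm V⁻¹).det ≠ 0 := by
      have h1 : (V⁻¹ * V).det = 1 := by
        rw [Matrix.nonsing_inv_mul _ (isUnit_iff_ne_zero.mpr hV0), Matrix.det_one]
      rw [Matrix.det_mul] at h1
      rw [det_cm42]
      exact_mod_cast left_ne_zero_of_mul_eq_one h1
    have hG : ((U L * (cm V⁻¹)⁻¹).submatrix id (Fin.castAdd l)).det ≠ 0 := by
      rw [cm_inv V hV0, hcV, ← gm_eval (U L) x]
      intro h0
      apply hxQ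
      rw [hQ, map_mul, map_prod, Finset.prod_eq_zero (hfin.mem_toFinset.mpr hL) h0, mul_zero]
    refine ⟨crd (cm V⁻¹) (U L), ?_⟩
    have h2 := crd_spec (cm V⁻¹) hT0 (U L) hG
    exact (hLU L hL).trans ((congrArg rs h2).trans (rs_mul _ hG _))

theorem chart_real {k l : ℕ} (T : Matrix (Fin (k + l)) (Fin (k + l)) ℝ) (hT : T.det ≠ 0)
    (z : Fin (k * l) → ℂ) (u : Matrix (Fin k) (Fin (k + l)) ℝ) (hu : FR u)
    (h : rs (cm u) = rs (uz (cm T) z)) :
    ∃ x : Fin (k * l) → ℝ, z = fun i => (x i : ℂ) := by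
  have hT' : (cm T).det ≠ 0 := by
    rw [det_cm42]
    exact_mod_cast hT
  obtain ⟨g, -, hg⟩ := rs_eq _ _ ((fr_cm u).mpr hu) (uz_fr (cm T) hT' z) h
  have hTi : (cm T)⁻¹ = cm T⁻¹ := by
    refine Matrix.inv_eq_right_inv ?_
    unfold cm
    rw [← cm_mul42, Matrix.mul_nonsing_inv _ (isUnit_iff_ne_zero.mpr hT)]
    ext a b
    by_cases hab : a = b
    · subst hab
      simp
    · simp [Matrix.one_apply_ne hab]
  have h1 : oz z = g * cm (u * T⁻¹) := by
    rw [← uz_mul_inv (cm T) hT' z, hg, hTi, Matrix.mul_assoc]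
    congr 1
    unfold cm
    rw [← cm_mul42]
  have h2 : (1 : Matrix (Fin k) (Fin k) ℂ) = g * cm ((u * T⁻¹).submatrix id (Fin.castAdd l)) := by
    have h3 := congrArg (fun M => M.submatrix id (Fin.castAdd l)) h1
    simp only [sub_mul_left, oz_sub] at h3
    exact h3
  have h4 : ((u * T⁻¹).submatrix id (Fin.castAdd l)).det ≠ 0 := by
    intro h0
    have h5 := congrArg Matrix.det h2
    rw [Matrix.det_mul, det_cm42, h0, Matrix.det_one, Complex.ofReal_zero, mul_zero] at h5
    exact one_ne_zero h5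
  have h6 := crd_spec T hT u h4
  refine ⟨crd T u, ?_⟩
  refine uz_inj (cm T) hT' _ _ ?_
  rw [← h, uz_cm]
  have h7 : cm u = cm ((u * T⁻¹).submatrix id (Fin.castAdd l)) * cm (uz T (crd T u)) := by
    conv_lhs => rw [h6]
    exact cm_mul42 _ _
  rw [h7]
  refine rs_mul _ ?_ _
  rw [det_cm42]
  exact_mod_cast h4

theorem nat_ne_cast {k l : ℕ} (b : Fin l) (b' : Fin k) : Fin.natAdd k b ≠ Fin.castAdd l b' := by
  intro h
  have h1 := congrArg Fin.val h
  simp only [Fin.val_natAdd, Fin.val_castAdd] at h1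
  have := b'.isLt
  omega

/-- an explicit numbering. -/
def idy (k l : ℕ) : (Fin (k * l) ⊕ (Fin k × Fin k)) ≃ (Fin k × Fin (k + l)) :=
  (Equiv.sumCongr finProdFinEquiv.symm (Equiv.refl _)).trans
    ((Equiv.prodSumDistrib (Fin k) (Fin l) (Fin k)).symm.trans
      (Equiv.prodCongr (Equiv.refl _) ((Equiv.sumComm _ _).trans finSumFinEquiv)))

theorem idy_inl {k l : ℕ} (j : Fin (k * l)) : idy k l (Sum.inl j)
    = ((finProdFinEquiv.symm j).1, Fin.natAdd k (finProdFinEquiv.symm j).2) := rfl

theorem idy_inr {k l : ℕ} (q : Fin k × Fin k) : idy k l (Sum.inr q)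
    = (q.1, Fin.castAdd l q.2) := rfl

/-- the matrix `(1; 0)`. -/
def EE (R : Type*) [CommRing R] (k l : ℕ) : Matrix (Fin (k + l)) (Fin k) R :=
  Matrix.of fun c b => if c = Fin.castAdd l b then 1 else 0

theorem mul_EE {R : Type*} [CommRing R] {k l : ℕ} (B : Matrix (Fin k) (Fin (k + l)) R) :
    B * EE R k l = B.submatrix id (Fin.castAdd l) := by
  ext a b
  simp [EE, Matrix.mul_apply]

/-- the matrix of the Jacobian for a numbering `e`. -/
def Mw {R : Type*} [CommRing R] {k l : ℕ} (h : Fin (k * l) → Cf R k (k + l))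
    (u : Matrix (Fin k) (Fin (k + l)) R) (w : Matrix (Fin (k + l)) (Fin k) R)
    (e : (Fin (k * l) ⊕ (Fin k × Fin k)) ≃ (Fin k × Fin (k + l))) :
    Matrix (Fin (k * l) ⊕ (Fin k × Fin k)) (Fin (k * l) ⊕ (Fin k × Fin k)) R :=
  Matrix.of fun p q => Sum.elim (fun i => dlf (h i) u (eb R (e q)))
      (fun ab => (eb R (e q) * w) ab.1 ab.2) p

/-- right multiplication by `T`. -/
def Cw {R : Type*} [CommRing R] {k l : ℕ} (T : Matrix (Fin (k + l)) (Fin (k + l)) R)
    (e : (Fin (k * l) ⊕ (Fin k × Fin k)) ≃ (Fin k × Fin (k + l))) :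
    Matrix (Fin (k * l) ⊕ (Fin k × Fin k)) (Fin (k * l) ⊕ (Fin k × Fin k)) R :=
  Matrix.of fun q q' => (eb R (e q') * T) (e q).1 (e q).2

theorem det_Cw {R : Type*} [CommRing R] {k l : ℕ} (T : Matrix (Fin (k + l)) (Fin (k + l)) R)
    (e : (Fin (k * l) ⊕ (Fin k × Fin k)) ≃ (Fin k × Fin (k + l))) :
    (Cw T e).det = T.det ^ k := by
  have h1 : Cw T e = ((Matrix.kroneckerMap (fun x y => x * y) (1 : Matrix (Fin k) (Fin k) R)
      T).submatrix e e)ᵀ := by
    ext q q'
    rw [Matrix.transpose_apply, Matrix.submatrix_apply, Matrix.kroneckerMap_apply]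
    unfold Cw eb
    rw [Matrix.of_apply, Matrix.one_apply]
    by_cases h : (e q').1 = (e q).1
    · rw [if_pos h, one_mul, ← h]
      simp
    · rw [if_neg h, zero_mul]
      exact Matrix.single_mul_apply_of_ne _ _ _ _ _ (fun h' => h h'.symm) _
  rw [h1, Matrix.det_transpose, Matrix.det_submatrix_equiv_self, Matrix.det_kronecker,
    Matrix.det_one, one_pow, one_mul, Fintype.card_fin]

theorem sum_eb {R : Type*} [CommRing R] {k l : ℕ} (δ : Matrix (Fin k) (Fin (k + l)) R)
    (e : (Fin (k * l) ⊕ (Fin k × Fin k)) ≃ (Fin k × Fin (k + l))) :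
    δ = ∑ q, δ (e q).1 (e q).2 • eb R (e q) := by
  rw [Equiv.sum_comp e (fun p => δ p.1 p.2 • eb R p), Fintype.sum_prod_type]
  conv_lhs => rw [Matrix.matrix_eq_sum_single δ]
  refine Finset.sum_congr rfl fun a _ => Finset.sum_congr rfl fun c _ => ?_
  unfold eb
  rw [Matrix.smul_single, smul_eq_mul, mul_one]

/-- `dlf` as a linear map. -/
def dlL {R : Type*} [CommRing R] {k n : ℕ} (c : Cf R k n) (u : Matrix (Fin k) (Fin n) R) :
    Matrix (Fin k) (Fin n) R →ₗ[R] R where
  toFun := dlf c u
  map_add' := dlf_add c u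
  map_smul' := fun r δ => dlf_smul c u δ r

theorem Mw_mul {R : Type*} [CommRing R] {k l : ℕ} (h : Fin (k * l) → Cf R k (k + l))
    (u : Matrix (Fin k) (Fin (k + l)) R) (w : Matrix (Fin (k + l)) (Fin k) R)
    (T : Matrix (Fin (k + l)) (Fin (k + l)) R)
    (e : (Fin (k * l) ⊕ (Fin k × Fin k)) ≃ (Fin k × Fin (k + l))) :
    Mw h u w e * Cw T e = Matrix.of fun p q => Sum.elim (fun i => dlf (h i) u (eb R (e q) * T))
      (fun ab => (eb R (e q) * T * w) ab.1 ab.2) p := by
  ext p q
  rw [Matrix.mul_apply, Matrix.of_apply]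
  rcases p with i | ab
  · rw [Sum.elim_inl]
    have h1 : dlf (h i) u (eb R (e q) * T) = dlL (h i) u (eb R (e q) * T) := rfl
    rw [h1, sum_eb (eb R (e q) * T) e, map_sum]
    refine Finset.sum_congr rfl fun q' _ => ?_
    rw [map_smul, smul_eq_mul, mul_comm]
    rfl
  · rw [Sum.elim_inr]
    conv_rhs => rw [sum_eb (eb R (e q) * T) e, Matrix.sum_mul, Matrix.sum_apply]
    refine Finset.sum_congr rfl fun q' _ => ?_
    rw [Matrix.smul_mul, Matrix.smul_apply, smul_eq_mul, mul_comm]
    rfl

theorem dz_eq {R : Type*} [CommRing R] {k l : ℕ} (T : Matrix (Fin (k + l)) (Fin (k + l)) R)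
    (j : Fin (k * l)) : eb R ((finProdFinEquiv.symm j).1, Fin.natAdd k (finProdFinEquiv.symm j).2)
      * T = dz T j := by
  unfold dz uz
  rw [← Matrix.sub_mul]
  congr 1
  ext a c
  unfold eb
  refine Fin.addCases (fun b => ?_) (fun b => ?_) c
  · rw [Matrix.sub_apply, oz_left, oz_left, sub_self]
    refine Matrix.single_apply_of_col_ne _ _ ?_ _
    exact nat_ne_cast _ _
  · rw [Matrix.sub_apply, oz_right, oz_right, Pi.zero_apply, sub_zero, Matrix.single_apply]
    by_cases h : finProdFinEquiv (a, b) = j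
    · rw [h, Pi.single_eq_same, if_pos]
      rw [← h, Equiv.symm_apply_apply]
      exact ⟨rfl, rfl⟩
    · rw [Pi.single_eq_of_ne h, if_neg]
      rintro ⟨h1, h2⟩
      apply h
      have h3 : (finProdFinEquiv.symm j).2 = b := Fin.natAdd_injective l k h2
      rw [← h1, ← h3, Prod.mk.eta, Equiv.apply_symm_apply]

/-- the universal sign of the numbering. -/
theorem JJ_chart (k l : ℕ) : ∃ sg : ℝ, (sg = 1 ∨ sg = -1) ∧
    ∀ (h : Fin (k * l) → Cf ℝ k (k + l)) (T : Matrix (Fin (k + l)) (Fin (k + l)) ℝ)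
      (z : Fin (k * l) → ℝ), T.det ≠ 0 → (∀ i, lf (h i) (uz T z) = 0) →
      JJ h (uz T z) * T.det ^ k = sg * (uz T z * (uz T z)ᵀ).det ^ k * cj h T z := by
  refine ⟨((Equiv.Perm.sign ((idx k l).trans (idy k l).symm) : ℤ) : ℝ), ?_, ?_⟩
  · rcases Int.units_eq_one_or (Equiv.Perm.sign ((idx k l).trans (idy k l).symm)) with h | h
    · left
      rw [h]
      simp
    · right
      rw [h]
      simp
  · intro h T z hT hz
    have hu := isUnit_iff_ne_zero.mpr hT
    have h1 := JW_change h (uz T z) hz (uz T z)ᵀ (T⁻¹ * EE ℝ k l)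
    have h2 : uz T z * (T⁻¹ * EE ℝ k l) = 1 := by
      unfold uz
      rw [Matrix.mul_assoc, Matrix.mul_nonsing_inv_cancel_left _ _ hu, mul_EE, oz_sub]
    rw [h2, Matrix.det_one, one_pow, mul_one] at h1
    have h3 : JW h (uz T z) (T⁻¹ * EE ℝ k l)
        = ((Equiv.Perm.sign ((idx k l).trans (idy k l).symm) : ℤ) : ℝ)
          * (Mw h (uz T z) (T⁻¹ * EE ℝ k l) (idy k l)).det := by
      rw [← Matrix.det_permute']
      unfold JW
      congr 1
      ext p q
      rcases p with p | p
      · simp [Mw]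
      · simp [Mw]
    have h4 : (Mw h (uz T z) (T⁻¹ * EE ℝ k l) (idy k l)).det * T.det ^ k = cj h T z := by
      rw [← det_Cw T (idy k l), ← Matrix.det_mul]
      have h5 : Mw h (uz T z) (T⁻¹ * EE ℝ k l) (idy k l) * Cw T (idy k l)
          = Matrix.fromBlocks (Matrix.of fun i j => dlf (h i) (uz T z) (dz T j))
            (Matrix.of fun i (q : Fin k × Fin k) =>
              dlf (h i) (uz T z) (eb ℝ (q.1, Fin.castAdd l q.2) * T)) 0 1 := by
        rw [Mw_mul]
        ext p q
        rcases p with p | p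
        · rcases q with q | q
          · simp only [Matrix.of_apply, Sum.elim_inl, Matrix.fromBlocks_apply₁₁, idy_inl, dz_eq]
          · simp only [Matrix.of_apply, Sum.elim_inl, Matrix.fromBlocks_apply₁₂, idy_inr]
        · have h6 : ∀ B : Matrix (Fin k) (Fin (k + l)) ℝ,
              B * T * (T⁻¹ * EE ℝ k l) = B.submatrix id (Fin.castAdd l) := by
            intro B
            rw [Matrix.mul_assoc, Matrix.mul_nonsing_inv_cancel_left _ _ hu, mul_EE]
          rcases q with q | q
          · simp only [Matrix.of_apply, Sum.elim_inr, Matrix.fromBlocks_apply₂₁, idy_inl, h6,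
              Matrix.submatrix_apply, id_eq, Matrix.zero_apply]
            unfold eb
            refine Matrix.single_apply_of_col_ne _ _ ?_ _
            exact nat_ne_cast _ _
          · simp only [Matrix.of_apply, Sum.elim_inr, Matrix.fromBlocks_apply₂₂, idy_inr, h6,
              Matrix.submatrix_apply, id_eq]
            rw [Matrix.one_apply]
            unfold eb
            rw [Matrix.single_apply]
            refine if_congr ?_ rfl rfl
            constructor
            · rintro ⟨h7, h8⟩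
              refine Prod.ext h7.symm ?_
              exact (Fin.castAdd_injective k l h8).symm
            · intro h7
              rw [h7]
              exact ⟨rfl, rfl⟩
      rw [h5, Matrix.det_fromBlocks_zero₂₁, Matrix.det_one, mul_one]
      rfl
    unfold JJ
    rw [h1, h3, ← h4]
    ring

theorem Fp_tendsto {k l : ℕ} (h : Fin (k * l) → Cf ℂ k (k + l))
    (T : Matrix (Fin (k + l)) (Fin (k + l)) ℂ) (i : Fin (k * l)) (K : Set (Fin (k * l) → ℂ))
    (hK : IsCompact K) :
    TendstoUniformlyOn (fun (h' : Fin (k * l) → Cf ℂ k (k + l)) z =>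
      MvPolynomial.eval z (Fp h' T i)) (fun z => MvPolynomial.eval z (Fp h T i)) (𝓝 h) K := by
  simp only [eval_Fp]
  have h2 : Continuous fun p : (Fin (k * l) → Cf ℂ k (k + l)) × (Fin (k * l) → ℂ) =>
      ((p.1 i, uz T p.2) : Cf ℂ k (k + l) × Matrix (Fin k) (Fin (k + l)) ℂ) :=
    ((continuous_apply i).comp continuous_fst).prodMk ((uz_continuous T).comp continuous_snd)
  have hc : Continuous (Function.uncurry fun (h' : Fin (k * l) → Cf ℂ k (k + l))
      (z : Fin (k * l) → ℂ) => lf (h' i) (uz T z)) := (lf_continuous k (k + l)).comp h2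
  intro V hV
  obtain ⟨v, hv, hvV⟩ := IsCompact.mem_uniformity_of_prod (s := Set.univ) (q := h) hK
    hc.continuousOn (Set.mem_univ h) (symm_le_uniformity hV)
  rw [nhdsWithin_univ] at hv
  filter_upwards [hv] with h' hh' z hz
  exact hvV h' hh' z hz

end GTC
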