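import Pool.Agent.GTR.ChL

/-!
# GTR LimOpn : limits and openness of total reality (interface of section 1; helper85)

PROOF of `lim_RR`.  Let `u0` be a complex solution of `h`.  By `pers` it is a limit of solutions of `H ν`,
which are real; real row spaces form a closed set (normalise by a minor of `u0`), so `rs u0` is real.
Let `u0` be a real solution, suppose `JJ h u0 = 0`.  In a chart containing `Sol h` (`chart_exists`)
all zeros of `F_ν = Fp (H ν) T` are real (`chart_real`) and nondegenerate (`RR.nd`, `JJ_chart`).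
BD: for a neighbourhood `W` of `z0` (small, so that all real `uz z`, `z ∈ W`, lie in the neighbourhood
`U` of `hsg`, after multiplication by `g0`, `u0 = g0 * uz z0`) the sum of `1 / cj` over the zeros
in `W` is bounded; the signs of `cj` at all zeros in `W` agree (`JJ_chart`, `JJ_mul`, `hsg`), so each
`1 / |cj|` is bounded by `C`; there is a zero `z' → z0` (`pers`), `cj (H ν) T z' → cj h T z0`, hence
`|cj h T z0| ≥ 1 / C > 0` and `JJ h u0 ≠ 0`.
Number of solutions: `h` has finitely many solutions `u_1, …, u_m` (different row spaces), choose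
disjoint (in the sense of row spaces: use `uniq` and `rs`-separated) neighbourhoods `U_j` as in `uniq`;
eventually every solution of `H ν` is in some `g U_j` (`upper`), every `U_j` contains a solution
(`pers`), at most one row space per `U_j` (`uniq`), and the `U_j` do not share row spaces (if small;
for instance they have different chart coordinates).  So `m = F`.

PROOF of `open_RR`.  The same argument with `h' → h`: `FO`; real: the solution of `h'` near `u_j` is
unique and complex conjugation maps `U_j` (taken conjugation invariant) to itself and solutions of the real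
problem `h'` to solutions; so its row space is invariant under conjugation, hence real; `JJ ≠ 0` by
continuity (`JJ_continuous`, `JJ_mul`).
-/

set_option autoImplicit false

open Matrix Topology Filter Pool.GTR.Tr

namespace GTC

/-- limits of real solutions are real. -/
theorem lim_real {k l : ℕ} (hk : 1 ≤ k) (h : Fin (k * l) → Cf ℝ k (k + l))
    (hfin : (Sol (ch h)).Finite) {ι : Type*} (L : Filter ι) [L.NeBot]
    (H : ι → Fin (k * l) → Cf ℝ k (k + l)) (hH : Tendsto H L (𝓝 h))
    (hr : ∀ᶠ ν in L, ∀ K ∈ Sol (ch (H ν)), ∃ u : Matrix (Fin k) (Fin (k + l)) ℝ,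
      FR u ∧ K = rs (cm u)) :
    ∀ K ∈ Sol (ch h), ∃ u : Matrix (Fin k) (Fin (k + l)) ℝ, FR u ∧ K = rs (cm u) := by
  rintro K ⟨u0, hu0, rfl⟩
  obtain ⟨t, ht⟩ := (fr_iff_minor u0).1 hu0.1
  have hinv : ((u0.submatrix id t)⁻¹).det ≠ 0 := by
    rw [Matrix.det_nonsing_inv, Ring.inverse_eq_inv']
    exact inv_ne_zero ht
  have key : ∀ i j, (nm t u0 i j).im = 0 := by
    intro i j
    by_contra hne
    have h1 : {v | (nm t v i j).im ≠ 0} ∈ 𝓝 u0 := by
      have h2 : ContinuousAt (fun v => (nm t v i j).im) u0 := by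
        have h3 : Continuous fun v : Matrix (Fin k) (Fin (k + l)) ℂ => (v i j).im :=
          Complex.continuous_im.comp (continuous_id.matrix_elem i j)
        exact h3.continuousAt.comp (nm_continuousAt t ht)
      exact h2.eventually_ne hne
    have h4 := ((ch_continuous (ι := Fin (k * l)) (k := k) (n := k + l)).continuousAt.tendsto.comp
      hH).eventually (pers hk (ch h) hfin u0 hu0 _ h1)
    obtain ⟨ν, ⟨v, hv, hvs⟩, h5⟩ := (h4.and hr).exists
    obtain ⟨w, hw, e⟩ := h5 (rs v) ⟨v, hvs, rfl⟩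
    obtain ⟨g, hg, e'⟩ := rs_eq (cm w) v ((fr_cm w).2 hw) hvs.1 e.symm
    apply hv
    rw [e', nm_mul t g hg, nm_cm]
    exact Complex.ofReal_im _
  have h1 : nm t u0 = cm ((nm t u0).map Complex.re) := by
    ext i j
    refine Complex.ext (Complex.ofReal_re _).symm ?_
    rw [key i j]
    exact (Complex.ofReal_im _).symm
  have h2 : FR (nm t u0) := (fr_mul _ hinv u0).2 hu0.1
  refine ⟨(nm t u0).map Complex.re, ?_, ?_⟩
  · rw [← fr_cm, ← h1]
    exact h2
  · rw [← h1]
    exact (rs_mul _ hinv u0).symm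

theorem lim_RR {k l : ℕ} (hk : 1 ≤ k) (F : ℕ) (h : Fin (k * l) → Cf ℝ k (k + l))
    (hfin : (Sol (ch h)).Finite) {ι : Type*} (L : Filter ι) [L.NeBot]
    (H : ι → Fin (k * l) → Cf ℝ k (k + l)) (hH : Tendsto H L (𝓝 h)) (hRR : ∀ᶠ ν in L, RR (H ν) F)
    (hsg : ∀ u, IsSol h u → ∃ U ∈ 𝓝 u, ∀ᶠ ν in L, ∀ v ∈ U, ∀ v' ∈ U, IsSol (H ν) v →
      IsSol (H ν) v' → 0 < JJ (H ν) v * JJ (H ν) v') : RR h F := by
  have hreal := lim_real hk h hfin L H hH (hRR.mono fun ν hν => hν.real)
  have hH' : Tendsto (fun ν => ch (H ν)) L (𝓝 (ch h)) :=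
    (ch_continuous (ι := Fin (k * l)) (k := k) (n := k + l)).continuousAt.tendsto.comp hH
  obtain ⟨T, hT, hc⟩ := chart_ex hfin
  have hT' := det_cm T hT
  have hnd : ∀ u : Matrix (Fin k) (Fin (k + l)) ℝ, IsSol h u → JJ h u ≠ 0 := by
    intro u0 hu0
    obtain ⟨z, hz⟩ := hc _ ((issol_cm h u0).2 hu0)
    obtain ⟨x, rfl, hx, g, hg, e⟩ := real_rep hT hu0 hz
    obtain ⟨U, hU, hUs⟩ := hsg u0 hu0
    have hW : {z : Fin (k * l) → ℂ | g * uz T (fun i => (z i).re) ∈ U} ∈
        𝓝 (fun i => ((x i : ℝ) : ℂ)) := by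
      have h0 : Continuous fun z : Fin (k * l) → ℂ =>
          cm (uz (k := k) (l := l) T (fun i => (z i).re)) := by
        have h1 : Continuous fun z : Fin (k * l) → ℂ =>
            uz (k := k) (l := l) (cm T) (fun i => (((z i).re : ℝ) : ℂ)) :=
          (uz_continuous (cm T)).comp (continuous_pi fun i => Complex.continuous_ofReal.comp
            (Complex.continuous_re.comp (continuous_apply i)))
        simpa only [uz_cm] using h1
      have h1 : Continuous fun z : Fin (k * l) → ℂ =>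
          g * uz (k := k) (l := l) T (fun i => (z i).re) := by
        refine continuous_const.matrix_mul ?_
        have h2 := h0.matrix_map Complex.continuous_re
        simpa only [re_cm] using h2
      have h2 : U ∈ 𝓝 (g * uz T (fun i => ((((x i : ℝ) : ℂ)).re))) := by
        simp only [Complex.ofReal_re]
        rw [← e]
        exact hU
      exact h1.continuousAt.preimage_mem_nhds h2
    have h3 := Pool.GTR.Tr.nondeg (m := mT (cm T)) (Zs_finite hT' hfin)
      ((issol_real hT).2 hx) hW (l := L) hH'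
      (hRR.mono fun ν hν => Zs_finite hT' hν.fin)
      (hRR.mono fun ν hν a ha => by
        obtain ⟨y, -, -, e1, e2⟩ := hν.zero hT ha
        rw [e1]
        exact_mod_cast e2)
      (by
        filter_upwards [hRR, hUs] with ν hν hs a ha haW a' ha' haW'
        obtain ⟨y, rfl, hy, e1, -⟩ := hν.zero hT ha
        obtain ⟨y', rfl, hy', e1', -⟩ := hν.zero hT ha'
        have h4 : g * uz T y ∈ U := by
          have := haW
          simpa only [Set.mem_ofPred_eq, Complex.ofReal_re] using this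
        have h4' : g * uz T y' ∈ U := by
          have := haW'
          simpa only [Set.mem_ofPred_eq, Complex.ofReal_re] using this
        have h5 := hs _ h4 _ h4' ((issol_mul (H ν) g hg _).2 hy) ((issol_mul (H ν) g hg _).2 hy')
        rw [e1, e1', Complex.ofReal_im, Complex.ofReal_re, Complex.ofReal_re]
        exact ⟨rfl, JJ_prod hk hT hy hy' hg h5⟩)
    rw [cj_real] at h3
    have h4 : cj h T x ≠ 0 := by exact_mod_cast h3
    rw [e, JJ_ne_mul hk h _ hg, ← cj_ne_iff hT hx]
    exact h4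
  refine ⟨hfin, ?_, hreal, hnd⟩
  have h5 := hH'.eventually (sol_ncard_eq hk hfin hT' hc fun v hv => Jc_ne hreal hnd hT hv)
  obtain ⟨ν, h6, h7⟩ := (h5.and hRR).exists
  rw [← h6]
  exact h7.card

theorem open_RR {k l : ℕ} (hk : 1 ≤ k) (F : ℕ) (h : Fin (k * l) → Cf ℝ k (k + l)) (hRR : RR h F) :
    ∀ᶠ h' in 𝓝 h, RR h' F := by
  obtain ⟨T, hT, hc⟩ := chart_ex hRR.fin
  have hT' := det_cm T hT
  have hJ : ∀ v ∈ Zs (mT (cm T)) (ch h), Jc (mT (cm T)) (ch h) v ≠ 0 := fun v hv =>
    Jc_ne hRR.real hRR.nd hT hv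
  have hch := (ch_continuous (ι := Fin (k * l)) (k := k) (n := k + l)).continuousAt (x := h)
  -- neighbourhoods with uniqueness and nonvanishing Jacobian
  have h1 : ∀ v, ∃ W, v ∈ Zs (mT (cm T)) (ch h) → W ∈ 𝓝 v ∧ ∀ᶠ c in 𝓝 (ch h),
      (∀ z ∈ W, ∀ z' ∈ W, z ∈ Zs (mT (cm T)) c → z' ∈ Zs (mT (cm T)) c → z = z') ∧
      ∀ z ∈ W, Jc (mT (cm T)) c z ≠ 0 := by
    intro v
    by_cases hv : v ∈ Zs (mT (cm T)) (ch h)
    · obtain ⟨W, hW, hWu⟩ := Pool.GTR.Tr.uniq (hJ v hv)
      have h2 : ∀ᶠ x in 𝓝 (ch h, v), Jc (mT (cm T)) x.1 x.2 ≠ 0 :=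
        (Jc_cont (m := mT (cm T))).continuousAt.eventually_ne (hJ v hv)
      rw [nhds_prod_eq, Filter.eventually_prod_iff] at h2
      obtain ⟨p1, hp1, p2, hp2, h12⟩ := h2
      refine ⟨W ∩ {z | p2 z}, fun _ => ⟨Filter.inter_mem hW hp2, ?_⟩⟩
      filter_upwards [hWu, hp1] with c hc1 hc2
      exact ⟨fun z hz z' hz' => hc1 z hz.1 z' hz'.1, fun z hz => h12 hc2 hz.2⟩
    · exact ⟨∅, fun h => absurd h hv⟩
  choose W hW using h1
  -- conjugation invariant neighbourhoods
  set W' : (Fin (k * l) → ℂ) → Set (Fin (k * l) → ℂ) := fun v =>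
    W v ∩ {z | (fun i => (starRingEnd ℂ) (z i)) ∈ W v} with hW'
  have hW'n : ∀ v ∈ Zs (mT (cm T)) (ch h), W' v ∈ 𝓝 v := by
    intro v hv
    refine Filter.inter_mem (hW v hv).1 ?_
    have h2 : Continuous fun z : Fin (k * l) → ℂ => fun i => (starRingEnd ℂ) (z i) :=
      continuous_pi fun i => Complex.continuous_conj.comp (continuous_apply i)
    refine h2.continuousAt.preimage_mem_nhds ?_
    obtain ⟨x, rfl, -⟩ := hRR.zero hT hv
    simp only [Complex.conj_ofReal]
    exact (hW _ hv).1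
  have hZf : (Zs (mT (cm T)) (ch h)).Finite := Zs_finite hT' hRR.fin
  have h2 : ∀ᶠ c in 𝓝 (ch h), ∀ v ∈ Zs (mT (cm T)) (ch h),
      (∀ z ∈ W v, ∀ z' ∈ W v, z ∈ Zs (mT (cm T)) c → z' ∈ Zs (mT (cm T)) c → z = z') ∧
      ∀ z ∈ W v, Jc (mT (cm T)) c z ≠ 0 :=
    (Filter.eventually_all_finite hZf).2 fun v hv => (hW v hv).2
  filter_upwards [hch.eventually (FO hk (ch h) hRR.fin),
    hch.eventually (sol_ncard_eq hk hRR.fin hT' hc hJ), hch.eventually h2,
    hch.eventually (chart_upper hT' hc W' hW'n)] with h' a1 a2 a3 a4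
  have key : ∀ u, IsSol (ch h') u → ∃ x : Fin (k * l) → ℝ,
      rs u = rs (uz (cm T) (fun i => (x i : ℂ))) ∧ cj h' T x ≠ 0 ∧ IsSol h' (uz T x) := by
    intro u hu
    obtain ⟨z, e, v, hv, hzW⟩ := a4 u hu
    have hz := (chart_rep hT' hu e).1
    have h3 := (a3 v hv).1 z hzW.1 _ hzW.2 hz (conj_mem hz)
    have h4 : z = fun i => (((z i).re : ℝ) : ℂ) := by
      funext i
      have h5 := congrFun h3 i
      exact (Complex.conj_eq_iff_re.1 h5.symm).symm
    have h6 := (a3 v hv).2 z hzW.1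
    rw [h4] at e hz h6
    rw [cj_real] at h6
    exact ⟨fun i => (z i).re, e, by exact_mod_cast h6, (issol_real hT).1 hz⟩
  refine ⟨a1, by rw [a2]; exact hRR.card, ?_, ?_⟩
  · rintro L ⟨u, hu, rfl⟩
    obtain ⟨x, e, -, hx⟩ := key u hu
    refine ⟨uz T x, hx.1, ?_⟩
    rw [e, uz_cm]
  · intro u hu
    obtain ⟨x, e, hx, hxs⟩ := key (cm u) ((issol_cm h' u).2 hu)
    rw [uz_cm] at e
    obtain ⟨g, hg, e'⟩ := rs_eq_real (uz T x) u hxs.1 hu.1 e.symm
    rw [e', JJ_ne_mul hk h' _ hg, ← cj_ne_iff hT hxs]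
    exact hx

end GTC
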