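import Pool.Agent.GTR.EpsU
import Pool.Agent.GTR.LimOpn

/-!
# GTR Coh : coherence of the signs, closedness and openness of `RR + COH`
-/

set_option autoImplicit false

open Matrix Topology Filter Set Real

namespace GTC

open Pool.GTR (GP eps stdF IsGS isGS_std eps_tendsto eps_or eps_ne)

/-- normalised representative -/
noncomputable def nrm {m n : ℕ} (γ : ℝ → Fin n → ℝ) (v : Matrix (Fin (m + 1)) (Fin n) ℝ) :
    Matrix (Fin (m + 1)) (Fin n) ℝ :=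
  ((v * jet γ (m + 1) 0).det)⁻¹ • ((v * jet γ (m + 1) 0).adjugate * v)

/-- all normalised real solutions have the same value of `JJ * eps`. -/
def COH {m l : ℕ} (γ : ℝ → Fin (m + 1 + l) → ℝ) (t : Fin ((m + 1) * l) → ℝ) : Prop :=
  ∀ u u' : Matrix (Fin (m + 1)) (Fin (m + 1 + l)) ℝ, IsSol (sp (m + 1) γ t) u →
    IsSol (sp (m + 1) γ t) u' → u * jet γ (m + 1) 0 = 1 → u' * jet γ (m + 1) 0 = 1 →
    0 < (JJ (sp (m + 1) γ t) u * eps (pth γ u)) * (JJ (sp (m + 1) γ t) u' * eps (pth γ u'))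

section nrm

variable {m n : ℕ} {γ : ℝ → Fin n → ℝ}

theorem nrm_spec {v : Matrix (Fin (m + 1)) (Fin n) ℝ} (h : (v * jet γ (m + 1) 0).det ≠ 0) :
    nrm γ v * jet γ (m + 1) 0 = 1 ∧ ∃ g : Matrix (Fin (m + 1)) (Fin (m + 1)) ℝ,
      g.det * (v * jet γ (m + 1) 0).det = 1 ∧ nrm γ v = g * v := by
  obtain ⟨g, hg⟩ : ∃ g, g = ((v * jet γ (m + 1) 0).det)⁻¹ • (v * jet γ (m + 1) 0).adjugate :=
    ⟨_, rfl⟩
  have h1 : nrm γ v = g * v := by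
    rw [hg]
    unfold nrm
    rw [Matrix.smul_mul]
  have h2 : g * (v * jet γ (m + 1) 0) = 1 := by
    rw [hg, Matrix.smul_mul, adjugate_mul, smul_smul, inv_mul_cancel₀ h, one_smul]
  refine ⟨?_, g, ?_, h1⟩
  · rw [h1, Matrix.mul_assoc, h2]
  · rw [← det_mul, h2, det_one]

theorem nrm_mul {u : Matrix (Fin (m + 1)) (Fin n) ℝ} (h : u * jet γ (m + 1) 0 = 1)
    {g : Matrix (Fin (m + 1)) (Fin (m + 1)) ℝ} (hg : g.det ≠ 0) : nrm γ (g * u) = u := by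
  unfold nrm
  rw [Matrix.mul_assoc, h, Matrix.mul_one, ← Matrix.mul_assoc, adjugate_mul, Matrix.smul_mul,
    Matrix.one_mul, smul_smul, inv_mul_cancel₀ hg, one_smul]

theorem nrm_self {u : Matrix (Fin (m + 1)) (Fin n) ℝ} (h : u * jet γ (m + 1) 0 = 1) :
    nrm γ u = u := by
  have := nrm_mul h (g := 1) (by rw [det_one]; exact one_ne_zero)
  rwa [Matrix.one_mul] at this

theorem nrm_sol {k' : ℕ} {h : Fin k' → Cf ℝ (m + 1) n} {v : Matrix (Fin (m + 1)) (Fin n) ℝ}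
    (hv : (v * jet γ (m + 1) 0).det ≠ 0) (hs : IsSol h v) : IsSol h (nrm γ v) := by
  obtain ⟨-, g, hg, hn⟩ := nrm_spec hv
  rw [hn, issol_mul h g (left_ne_zero_of_mul (by rw [hg]; exact one_ne_zero))]
  exact hs

end nrm

section family

variable {n : ℕ} {Γ : ℝ → ℝ → Fin n → ℝ}

theorem jet_continuous (hΓ : Family Γ) (k : ℕ) : Continuous fun s => jet (Γ s) k 0 := by
  refine continuous_matrix fun i j => ?_
  exact (continuous_apply i).comp ((hΓ.cont (j : ℕ)).comp (continuous_id.prodMk continuous_const))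

theorem sp_continuous (hΓ : Family Γ) (k N : ℕ) :
    Continuous fun p : ℝ × (Fin N → ℝ) => sp k (Γ p.1) p.2 := by
  refine continuous_pi fun i => continuous_pi fun t => ?_
  show Continuous fun p : ℝ × (Fin N → ℝ) =>
    ∏ a : Fin k, iteratedDeriv (a : ℕ) (Γ p.1) (p.2 i) (t a)
  refine continuous_finsetProd _ fun a _ => ?_
  exact (continuous_apply (t a)).comp ((hΓ.cont (a : ℕ)).comp
    (continuous_fst.prodMk ((continuous_apply i).comp continuous_snd)))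

theorem sp_tendsto (hΓ : Family Γ) (k N : ℕ) {ι : Type*} {L : Filter ι} {s : ι → ℝ} {s0 : ℝ}
    {t : ι → Fin N → ℝ} {t0 : Fin N → ℝ} (hs : Tendsto s L (𝓝 s0)) (ht : Tendsto t L (𝓝 t0)) :
    Tendsto (fun ν => sp k (Γ (s ν)) (t ν)) L (𝓝 (sp k (Γ s0) t0)) := by
  have h1 := hs.prodMk_nhds ht
  have h2 := ((sp_continuous hΓ k N).tendsto (s0, t0)).comp h1
  exact h2

theorem nrm_tendsto {m : ℕ} (hΓ : Family Γ) {ι : Type*} {L : Filter ι} {s : ι → ℝ} {s0 : ℝ}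
    {v : ι → Matrix (Fin (m + 1)) (Fin n) ℝ} {v0 : Matrix (Fin (m + 1)) (Fin n) ℝ}
    (hs : Tendsto s L (𝓝 s0)) (hv : Tendsto v L (𝓝 v0))
    (h0 : (v0 * jet (Γ s0) (m + 1) 0).det ≠ 0) :
    Tendsto (fun ν => (v ν * jet (Γ (s ν)) (m + 1) 0).det) L
        (𝓝 (v0 * jet (Γ s0) (m + 1) 0).det) ∧
      Tendsto (fun ν => nrm (Γ (s ν)) (v ν)) L (𝓝 (nrm (Γ s0) v0)) := by
  have hc : Continuous fun p : ℝ × Matrix (Fin (m + 1)) (Fin n) ℝ =>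
      p.2 * jet (Γ p.1) (m + 1) 0 :=
    Continuous.matrix_mul continuous_snd ((jet_continuous hΓ (m + 1)).comp continuous_fst)
  have hp : Tendsto (fun ν => (s ν, v ν)) L (𝓝 (s0, v0)) := hs.prodMk_nhds hv
  have h1 : Tendsto (fun ν => v ν * jet (Γ (s ν)) (m + 1) 0) L
      (𝓝 (v0 * jet (Γ s0) (m + 1) 0)) := (hc.tendsto (s0, v0)).comp hp
  have h2 : Tendsto (fun ν => (v ν * jet (Γ (s ν)) (m + 1) 0).det) L
        (𝓝 (v0 * jet (Γ s0) (m + 1) 0).det) :=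
    ((continuous_id.matrix_det).tendsto _).comp h1
  have h3 : Tendsto (fun ν => (v ν * jet (Γ (s ν)) (m + 1) 0).adjugate) L
        (𝓝 (v0 * jet (Γ s0) (m + 1) 0).adjugate) :=
    ((continuous_id.matrix_adjugate).tendsto _).comp h1
  have h4 : Tendsto (fun ν => (v ν * jet (Γ (s ν)) (m + 1) 0).adjugate * v ν) L
        (𝓝 ((v0 * jet (Γ s0) (m + 1) 0).adjugate * v0)) := by
    have hm : Continuous fun p : Matrix (Fin (m + 1)) (Fin (m + 1)) ℝ ×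
        Matrix (Fin (m + 1)) (Fin n) ℝ => p.1 * p.2 :=
      Continuous.matrix_mul continuous_fst continuous_snd
    have h6 := h3.prodMk_nhds hv
    have h7 := (hm.tendsto ((v0 * jet (Γ s0) (m + 1) 0).adjugate, v0)).comp h6
    exact h7
  exact ⟨h2, (h2.inv₀ h0).smul h4⟩

end family

section main

variable {m l F : ℕ} {Γ : ℝ → ℝ → Fin (m + 1 + l) → ℝ}

theorem JJ_sign {h : Fin ((m + 1) * l) → Cf ℝ (m + 1) (m + 1 + l)}
    {γ γ' : ℝ → Fin (m + 1 + l) → ℝ}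
    {v v' : Matrix (Fin (m + 1)) (Fin (m + 1 + l)) ℝ}
    (hd : 0 < (v * jet γ (m + 1) 0).det * (v' * jet γ' (m + 1) 0).det) :
    0 < JJ h (nrm γ v) * JJ h (nrm γ' v') ↔ 0 < JJ h v * JJ h v' := by
  obtain ⟨-, g, hg, hn⟩ := nrm_spec (γ := γ) (v := v) (left_ne_zero_of_mul hd.ne')
  obtain ⟨-, g', hg', hn'⟩ := nrm_spec (γ := γ') (v := v') (right_ne_zero_of_mul hd.ne')
  rw [hn, hn', JJ_mul (by omega) h v g (left_ne_zero_of_mul (by rw [hg]; exact one_ne_zero)),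
    JJ_mul (by omega) h v' g' (left_ne_zero_of_mul (by rw [hg']; exact one_ne_zero))]
  have h1 : 0 < g.det * g'.det := by
    have h2 : (g.det * g'.det) * ((v * jet γ (m + 1) 0).det * (v' * jet γ' (m + 1) 0).det) = 1 := by
      calc _ = (g.det * (v * jet γ (m + 1) 0).det) * (g'.det * (v' * jet γ' (m + 1) 0).det) := by
            ring
        _ = 1 := by rw [hg, hg', one_mul]
    have h3 : 0 < (g.det * g'.det) *
        ((v * jet γ (m + 1) 0).det * (v' * jet γ' (m + 1) 0).det) := by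
      rw [h2]
      exact zero_lt_one
    exact (pos_iff_pos_of_mul_pos h3).2 hd
  have h4 := pow_pos h1 (m + 1 + (m + 1 - 1) * l)
  have h5 : g.det ^ (m + 1 + (m + 1 - 1) * l) * JJ h v *
      (g'.det ^ (m + 1 + (m + 1 - 1) * l) * JJ h v') =
      (g.det * g'.det) ^ (m + 1 + (m + 1 - 1) * l) * (JJ h v * JJ h v') := by
    rw [mul_pow]
    ring
  rw [h5]
  exact mul_pos_iff_of_pos_left h4

/-- local constancy of the sign of the normalised representative -/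
theorem loc_const (hΓ : Family Γ) {s0 : ℝ} (hG0 : GOOD (m + 1) l (Γ s0))
    {t0 : Fin ((m + 1) * l) → ℝ} (ht0 : Simple t0)
    {u0 : Matrix (Fin (m + 1)) (Fin (m + 1 + l)) ℝ} (hu0 : IsSol (sp (m + 1) (Γ s0) t0) u0)
    {ι : Type*} {L : Filter ι} {s : ι → ℝ} {t : ι → Fin ((m + 1) * l) → ℝ}
    {v : ι → Matrix (Fin (m + 1)) (Fin (m + 1 + l)) ℝ}
    (hs : Tendsto s L (𝓝 s0)) (hv : Tendsto v L (𝓝 u0))
    (hG : ∀ᶠ ν in L, GOOD (m + 1) l (Γ (s ν))) (hS : ∀ᶠ ν in L, Simple (t ν))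
    (hsol : ∀ᶠ ν in L, IsSol (sp (m + 1) (Γ (s ν)) (t ν)) (v ν)) :
    ∀ᶠ ν in L, 0 < (v ν * jet (Γ (s ν)) (m + 1) 0).det * (u0 * jet (Γ s0) (m + 1) 0).det ∧
      eps (pth (Γ (s ν)) (nrm (Γ (s ν)) (v ν))) = eps (pth (Γ s0) (nrm (Γ s0) u0)) := by
  have hne := wf_zero_ne hG0 ht0 hu0
  obtain ⟨h1, h2⟩ := nrm_tendsto hΓ hs hv hne
  have h3 : ∀ᶠ ν in L, 0 <
      (v ν * jet (Γ (s ν)) (m + 1) 0).det * (u0 * jet (Γ s0) (m + 1) 0).det := by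
    have h4 := h1.mul_const ((u0 * jet (Γ s0) (m + 1) 0).det)
    exact h4.eventually_const_lt (mul_self_pos.2 hne)
  refine h3.and (eps_pth_tendsto hΓ hs h2 ?_ ?_)
  · filter_upwards [hG, hS, hsol] with ν a1 a2 a3
    have hne' := wf_zero_ne a1 a2 a3
    exact gp_pth (hΓ.nice _) a1 a2 (nrm_sol hne' a3) (nrm_spec hne').1
  · exact gp_pth (hΓ.nice _) hG0 ht0 (nrm_sol hne hu0) (nrm_spec hne).1

/-- `RR + COH` -/
def PC (F : ℕ) (γ : ℝ → Fin (m + 1 + l) → ℝ) (t : Fin ((m + 1) * l) → ℝ) : Prop :=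
  RR (sp (m + 1) γ t) F ∧ COH γ t

theorem eps_sq (M : ℝ → Fin m → Fin (m + 1) → ℝ) : eps M * eps M = 1 := by
  rcases eps_or M with h | h <;> rw [h] <;> norm_num

theorem coh_closed (hΓ : Family Γ) {s0 : ℝ} (hG0 : GOOD (m + 1) l (Γ s0))
    {t0 : Fin ((m + 1) * l) → ℝ} (ht0 : Simple t0) {ι : Type*} {L : Filter ι} [L.NeBot]
    {s : ι → ℝ} {t : ι → Fin ((m + 1) * l) → ℝ}
    (hs : Tendsto s L (𝓝 s0)) (ht : Tendsto t L (𝓝 t0))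
    (hG : ∀ᶠ ν in L, GOOD (m + 1) l (Γ (s ν))) (hS : ∀ᶠ ν in L, Simple (t ν))
    (hP : ∀ᶠ ν in L, PC F (Γ (s ν)) (t ν))
    (hfin : (Sol (ch (sp (m + 1) (Γ s0) t0))).Finite) : PC F (Γ s0) t0 := by
  have hH : Tendsto (fun ν => sp (m + 1) (Γ (s ν)) (t ν)) L (𝓝 (sp (m + 1) (Γ s0) t0)) :=
    sp_tendsto hΓ (m + 1) ((m + 1) * l) hs ht
  -- the local statement near a solution
  have loc : ∀ u, IsSol (sp (m + 1) (Γ s0) t0) u → ∀ᶠ p in L ×ˢ 𝓝 u,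
      IsSol (sp (m + 1) (Γ (s p.1)) (t p.1)) p.2 →
      0 < (p.2 * jet (Γ (s p.1)) (m + 1) 0).det * (u * jet (Γ s0) (m + 1) 0).det ∧
      eps (pth (Γ (s p.1)) (nrm (Γ (s p.1)) p.2)) = eps (pth (Γ s0) (nrm (Γ s0) u)) := by
    intro u hu
    obtain ⟨B, hB⟩ : ∃ B : Set (ι × Matrix (Fin (m + 1)) (Fin (m + 1 + l)) ℝ),
      B = {p | IsSol (sp (m + 1) (Γ (s p.1)) (t p.1)) p.2} := ⟨_, rfl⟩
    have h1 : Tendsto (Prod.fst : ι × Matrix (Fin (m + 1)) (Fin (m + 1 + l)) ℝ → ι)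
        ((L ×ˢ 𝓝 u) ⊓ 𝓟 B) L := tendsto_fst.mono_left inf_le_left
    have h2 : Tendsto (Prod.snd : ι × Matrix (Fin (m + 1)) (Fin (m + 1 + l)) ℝ → _)
        ((L ×ˢ 𝓝 u) ⊓ 𝓟 B) (𝓝 u) := tendsto_snd.mono_left inf_le_left
    have h3 := loc_const hΓ hG0 ht0 hu (L := (L ×ˢ 𝓝 u) ⊓ 𝓟 B)
      (s := fun p => s p.1) (t := fun p => t p.1) (v := fun p => p.2) (hs.comp h1) h2
      (h1.eventually hG) (h1.eventually hS) (by
        refine (eventually_inf_principal.2 ?_)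
        rw [hB]
        exact Eventually.of_forall fun p hp => hp)
    rw [eventually_inf_principal, hB] at h3
    exact h3
  have hRR : RR (sp (m + 1) (Γ s0) t0) F := by
    refine lim_RR (by omega) F _ hfin L _ hH (hP.mono fun ν h => h.1) fun u hu => ?_
    obtain ⟨pa, hpa, pb, hpb, hab⟩ := eventually_prod_iff.1 (loc u hu)
    refine ⟨{v | pb v}, hpb, ?_⟩
    filter_upwards [hpa, hP, hG, hS] with ν h1 h2 h3 h4
    intro v hv v' hv' hsv hsv'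
    obtain ⟨a1, a2⟩ := hab h1 hv hsv
    obtain ⟨a1', a2'⟩ := hab h1 hv' hsv'
    have hne : (v * jet (Γ (s ν)) (m + 1) 0).det ≠ 0 := left_ne_zero_of_mul a1.ne'
    have hne' : (v' * jet (Γ (s ν)) (m + 1) 0).det ≠ 0 := left_ne_zero_of_mul a1'.ne'
    have h5 := h2.2 _ _ (nrm_sol hne hsv) (nrm_sol hne' hsv') (nrm_spec hne).1 (nrm_spec hne').1
    simp only at a2 a2'
    rw [a2, a2'] at h5
    have h6 := eps_sq (pth (Γ s0) (nrm (Γ s0) u))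
    have h7 : 0 < JJ (sp (m + 1) (Γ (s ν)) (t ν)) (nrm (Γ (s ν)) v) *
        JJ (sp (m + 1) (Γ (s ν)) (t ν)) (nrm (Γ (s ν)) v') := by
      have e : JJ (sp (m + 1) (Γ (s ν)) (t ν)) (nrm (Γ (s ν)) v) *
        eps (pth (Γ s0) (nrm (Γ s0) u)) *
        (JJ (sp (m + 1) (Γ (s ν)) (t ν)) (nrm (Γ (s ν)) v') *
        eps (pth (Γ s0) (nrm (Γ s0) u))) = JJ (sp (m + 1) (Γ (s ν)) (t ν)) (nrm (Γ (s ν)) v) *
        JJ (sp (m + 1) (Γ (s ν)) (t ν)) (nrm (Γ (s ν)) v') *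
        (eps (pth (Γ s0) (nrm (Γ s0) u)) * eps (pth (Γ s0) (nrm (Γ s0) u))) := by ring
      rw [e, h6, mul_one] at h5
      exact h5
    refine (JJ_sign ?_).1 h7
    have h8 := mul_pos a1 a1'
    simp only at h8
    have h9 : (v * jet (Γ (s ν)) (m + 1) 0).det * (u * jet (Γ s0) (m + 1) 0).det *
        ((v' * jet (Γ (s ν)) (m + 1) 0).det * (u * jet (Γ s0) (m + 1) 0).det) =
        ((v * jet (Γ (s ν)) (m + 1) 0).det * (v' * jet (Γ (s ν)) (m + 1) 0).det) *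
        ((u * jet (Γ s0) (m + 1) 0).det * (u * jet (Γ s0) (m + 1) 0).det) := by ring
    rw [h9] at h8
    exact (pos_iff_pos_of_mul_pos h8).2 (mul_self_pos.2 (wf_zero_ne hG0 ht0 hu))
  refine ⟨hRR, fun u u' hu hu' hn hn' => ?_⟩
  -- coherence in the limit
  have hB : ∀ u, IsSol (sp (m + 1) (Γ s0) t0) u → u * jet (Γ s0) (m + 1) 0 = 1 →
      ∀ᶠ ν in L, ∃ v, IsSol (sp (m + 1) (Γ (s ν)) (t ν)) v ∧
        0 < JJ (sp (m + 1) (Γ (s ν)) (t ν)) v * JJ (sp (m + 1) (Γ s0) t0) u ∧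
        0 < (v * jet (Γ (s ν)) (m + 1) 0).det ∧
        eps (pth (Γ (s ν)) (nrm (Γ (s ν)) v)) = eps (pth (Γ s0) u) := by
    intro u hu hn
    have hJ : ∀ᶠ p in L ×ˢ 𝓝 u, 0 < JJ (sp (m + 1) (Γ (s p.1)) (t p.1)) p.2 *
        JJ (sp (m + 1) (Γ s0) t0) u := by
      have h1 : Tendsto (fun p : ι × Matrix (Fin (m + 1)) (Fin (m + 1 + l)) ℝ =>
          (sp (m + 1) (Γ (s p.1)) (t p.1), p.2)) (L ×ˢ 𝓝 u)
          (𝓝 (sp (m + 1) (Γ s0) t0, u)) :=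
        (hH.comp tendsto_fst).prodMk_nhds tendsto_snd
      have h2 := ((JJ_continuous (m + 1) l).tendsto (sp (m + 1) (Γ s0) t0, u)).comp h1
      have h3 := h2.mul_const (JJ (sp (m + 1) (Γ s0) t0) u)
      exact h3.eventually_const_lt (mul_self_pos.2 (hRR.nd u hu))
    obtain ⟨pa, hpa, pb, hpb, hab⟩ := eventually_prod_iff.1 (hJ.and (loc u hu))
    have hp := pers_real (by omega) _ hfin u hu {v | pb v} hpb
    filter_upwards [hH.eventually hp, hpa, hP] with ν h1 h2 h3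
    obtain ⟨v, hv, hvs⟩ := h1 h3.1.real
    obtain ⟨a1, a2⟩ := hab h2 hv
    obtain ⟨a3, a4⟩ := a2 hvs
    simp only at a1 a3 a4
    rw [hn, det_one, mul_one] at a3
    rw [nrm_self hn] at a4
    exact ⟨v, hvs, a1, a3, a4⟩
  obtain ⟨ν, ⟨v, b1, b2, b3, b4⟩, ⟨v', b1', b2', b3', b4'⟩, b5⟩ :=
    ((hB u hu hn).and ((hB u' hu' hn').and hP)).exists
  have h5 := b5.2 _ _ (nrm_sol b3.ne' b1) (nrm_sol b3'.ne' b1') (nrm_spec b3.ne').1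
    (nrm_spec b3'.ne').1
  rw [b4, b4'] at h5
  obtain ⟨J, hJ⟩ : ∃ J, J = JJ (sp (m + 1) (Γ (s ν)) (t ν)) (nrm (Γ (s ν)) v) := ⟨_, rfl⟩
  obtain ⟨J', hJ'⟩ : ∃ J', J' = JJ (sp (m + 1) (Γ (s ν)) (t ν)) (nrm (Γ (s ν)) v') := ⟨_, rfl⟩
  obtain ⟨e, he⟩ : ∃ e, e = eps (pth (Γ s0) u) := ⟨_, rfl⟩
  obtain ⟨e', he'⟩ : ∃ e', e' = eps (pth (Γ s0) u') := ⟨_, rfl⟩
  have hsg := JJ_sign (h := sp (m + 1) (Γ (s ν)) (t ν)) (γ := Γ (s ν)) (γ' := Γ (s ν))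
    (v := v) (v' := v') (mul_pos b3 b3')
  rw [← hJ, ← hJ'] at hsg h5
  rw [← he, ← he'] at h5 ⊢
  obtain ⟨a, ha⟩ : ∃ a, a = JJ (sp (m + 1) (Γ (s ν)) (t ν)) v := ⟨_, rfl⟩
  obtain ⟨a', ha'⟩ : ∃ a', a' = JJ (sp (m + 1) (Γ (s ν)) (t ν)) v' := ⟨_, rfl⟩
  obtain ⟨c, hc⟩ : ∃ c, c = JJ (sp (m + 1) (Γ s0) t0) u := ⟨_, rfl⟩
  obtain ⟨c', hc'⟩ : ∃ c', c' = JJ (sp (m + 1) (Γ s0) t0) u' := ⟨_, rfl⟩
  rw [← ha, ← ha'] at hsg
  rw [← ha, ← hc] at b2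
  rw [← ha', ← hc'] at b2'
  rw [← hc, ← hc']
  -- a purely real statement
  have hee : e * e = 1 := by rw [he]; exact eps_sq _
  have hee' : e' * e' = 1 := by rw [he']; exact eps_sq _
  have h6 : 0 < (J * J') * (e * e') := by
    have : J * e * (J' * e') = (J * J') * (e * e') := by ring
    rwa [this] at h5
  have h7 : 0 < (a * c) * (a' * c') := mul_pos b2 b2'
  have h8 : 0 < (a * a') * (c * c') := by
    have : (a * c) * (a' * c') = (a * a') * (c * c') := by ring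
    rwa [this] at h7
  have h9 : 0 < (c * c') * (e * e') := by
    by_cases hp : 0 < a * a'
    · have i1 : 0 < c * c' := (pos_iff_pos_of_mul_pos h8).1 hp
      have i2 : 0 < J * J' := hsg.2 hp
      exact mul_pos i1 ((pos_iff_pos_of_mul_pos h6).1 i2)
    · have i1 : ¬ 0 < c * c' := fun h => hp ((pos_iff_pos_of_mul_pos h8).2 h)
      have i2 : ¬ 0 < J * J' := fun h => hp (hsg.1 h)
      have i3 : ¬ 0 < e * e' := fun h => i2 ((pos_iff_pos_of_mul_pos h6).2 h)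
      have i4 : c * c' ≠ 0 := right_ne_zero_of_mul h8.ne'
      have i5 : e * e' ≠ 0 := right_ne_zero_of_mul h6.ne'
      exact mul_pos_of_neg_of_neg (lt_of_le_of_ne (not_lt.1 i1) i4)
        (lt_of_le_of_ne (not_lt.1 i3) i5)
  have : c * e * (c' * e') = (c * c') * (e * e') := by ring
  rw [this]
  exact h9

/-- cluster points of normalised solutions -/
theorem cluster (hΓ : Family Γ) {s0 : ℝ} (hG0 : GOOD (m + 1) l (Γ s0))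
    {t0 : Fin ((m + 1) * l) → ℝ} (ht0 : Simple t0) {ι : Type*} (𝒰 : Ultrafilter ι)
    {s : ι → ℝ} {t : ι → Fin ((m + 1) * l) → ℝ}
    (hs : Tendsto s 𝒰 (𝓝 s0)) (ht : Tendsto t 𝒰 (𝓝 t0))
    {u : ι → Matrix (Fin (m + 1)) (Fin (m + 1 + l)) ℝ}
    (hu : ∀ᶠ ν in (𝒰 : Filter ι), IsSol (sp (m + 1) (Γ (s ν)) (t ν)) (u ν) ∧
      u ν * jet (Γ (s ν)) (m + 1) 0 = 1) :
    ∃ u0, IsSol (sp (m + 1) (Γ s0) t0) u0 ∧ u0 * jet (Γ s0) (m + 1) 0 = 1 ∧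
      Tendsto u 𝒰 (𝓝 u0) := by
  have hH : Tendsto (fun ν => sp (m + 1) (Γ (s ν)) (t ν)) 𝒰 (𝓝 (sp (m + 1) (Γ s0) t0)) :=
    sp_tendsto hΓ (m + 1) ((m + 1) * l) hs ht
  have hw : ∀ ν, ∃ w : Matrix (Fin (m + 1)) (Fin (m + 1 + l)) ℝ,
      (IsSol (sp (m + 1) (Γ (s ν)) (t ν)) (u ν) ∧ u ν * jet (Γ (s ν)) (m + 1) 0 = 1) →
      w * wᵀ = 1 ∧ ∃ g : Matrix (Fin (m + 1)) (Fin (m + 1)) ℝ, g.det ≠ 0 ∧ w = g * u ν := by
    intro ν
    by_cases h : IsSol (sp (m + 1) (Γ (s ν)) (t ν)) (u ν) ∧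
      u ν * jet (Γ (s ν)) (m + 1) 0 = 1
    · obtain ⟨g, hg, hg2⟩ := exists_orth_real (u ν) h.1.1
      exact ⟨g * u ν, fun _ => ⟨hg2, g, hg, rfl⟩⟩
    · exact ⟨0, fun h' => absurd h' h⟩
  choose w hw using hw
  have hwK : ∀ᶠ ν in (𝒰 : Filter ι), w ν ∈ {w : Matrix (Fin (m + 1)) (Fin (m + 1 + l)) ℝ |
      w * wᵀ = 1} := hu.mono fun ν h => (hw ν h).1
  obtain ⟨w0, hw0, hlim⟩ := (orth_compact_real (m + 1) (m + 1 + l)).ultrafilter_le_nhds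
    (𝒰.map w) (le_principal_iff.2 hwK)
  have hwt : Tendsto w 𝒰 (𝓝 w0) := hlim
  have hsol : IsSol (sp (m + 1) (Γ s0) t0) w0 := by
    refine ⟨fr_of_orth_real w0 hw0, fun i => ?_⟩
    have h0 : Tendsto (fun ν => (sp (m + 1) (Γ (s ν)) (t ν) i, w ν)) 𝒰
        (𝓝 (sp (m + 1) (Γ s0) t0 i, w0)) :=
      (tendsto_pi_nhds.1 hH i).prodMk_nhds hwt
    have h1' := ((lf_continuous_real (m + 1) (m + 1 + l)).tendsto
      (sp (m + 1) (Γ s0) t0 i, w0)).comp h0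
    have h1 : Tendsto (fun ν => lf (sp (m + 1) (Γ (s ν)) (t ν) i) (w ν)) 𝒰
        (𝓝 (lf (sp (m + 1) (Γ s0) t0 i) w0)) := h1'
    have h2 : Tendsto (fun ν => lf (sp (m + 1) (Γ (s ν)) (t ν) i) (w ν)) 𝒰 (𝓝 0) := by
      refine tendsto_const_nhds.congr' ?_
      filter_upwards [hu] with ν hν
      obtain ⟨-, g, -, hg⟩ := hw ν hν
      rw [hg, lf_mul, hν.1.2 i, mul_zero]
    exact tendsto_nhds_unique h1 h2
  have hne := wf_zero_ne hG0 ht0 hsol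
  obtain ⟨h3, -⟩ := nrm_spec hne
  refine ⟨nrm (Γ s0) w0, nrm_sol hne hsol, h3, ?_⟩
  refine (nrm_tendsto hΓ hs hwt hne).2.congr' ?_
  filter_upwards [hu] with ν hν
  obtain ⟨-, g, hg, hg2⟩ := hw ν hν
  rw [hg2]
  exact nrm_mul hν.2 hg

theorem coh_open (hΓ : Family Γ) {s0 : ℝ} (hG0 : GOOD (m + 1) l (Γ s0))
    {t0 : Fin ((m + 1) * l) → ℝ} (ht0 : Simple t0) {ι : Type*} {L : Filter ι}
    {s : ι → ℝ} {t : ι → Fin ((m + 1) * l) → ℝ}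
    (hs : Tendsto s L (𝓝 s0)) (ht : Tendsto t L (𝓝 t0))
    (hG : ∀ᶠ ν in L, GOOD (m + 1) l (Γ (s ν))) (hS : ∀ᶠ ν in L, Simple (t ν))
    (hP : PC F (Γ s0) t0) : ∀ᶠ ν in L, PC F (Γ (s ν)) (t ν) := by
  have hH : Tendsto (fun ν => sp (m + 1) (Γ (s ν)) (t ν)) L (𝓝 (sp (m + 1) (Γ s0) t0)) :=
    sp_tendsto hΓ (m + 1) ((m + 1) * l) hs ht
  have hRR := hH.eventually (open_RR (by omega) F _ hP.1)
  refine hRR.and ?_
  by_contra hcon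
  have hfr : ∃ᶠ ν in L, ¬ COH (Γ (s ν)) (t ν) := not_eventually.1 hcon
  have hch : ∀ ν, ∃ p : Matrix (Fin (m + 1)) (Fin (m + 1 + l)) ℝ ×
      Matrix (Fin (m + 1)) (Fin (m + 1 + l)) ℝ, ¬ COH (Γ (s ν)) (t ν) →
      (IsSol (sp (m + 1) (Γ (s ν)) (t ν)) p.1 ∧ p.1 * jet (Γ (s ν)) (m + 1) 0 = 1) ∧
      (IsSol (sp (m + 1) (Γ (s ν)) (t ν)) p.2 ∧ p.2 * jet (Γ (s ν)) (m + 1) 0 = 1) ∧
      ¬ 0 < (JJ (sp (m + 1) (Γ (s ν)) (t ν)) p.1 * eps (pth (Γ (s ν)) p.1)) *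
        (JJ (sp (m + 1) (Γ (s ν)) (t ν)) p.2 * eps (pth (Γ (s ν)) p.2)) := by
    intro ν
    by_cases h : COH (Γ (s ν)) (t ν)
    · exact ⟨(0, 0), fun h' => absurd h h'⟩
    · have h2 := h
      unfold COH at h2
      push Not at h2
      obtain ⟨u, u', a1, a2, a3, a4, a5⟩ := h2
      exact ⟨(u, u'), fun _ => ⟨⟨a1, a3⟩, ⟨a2, a4⟩, not_lt.2 a5⟩⟩
  choose p hp using hch
  obtain ⟨B, hB⟩ : ∃ B : Set ι, B = {ν | ¬ COH (Γ (s ν)) (t ν)} := ⟨_, rfl⟩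
  have hne : (L ⊓ 𝓟 B).NeBot := by
    rw [hB]
    exact frequently_mem_iff_neBot.1 hfr
  obtain ⟨𝒰, h𝒰⟩ : ∃ 𝒰 : Ultrafilter ι, (𝒰 : Filter ι) ≤ L ⊓ 𝓟 B :=
    ⟨Ultrafilter.of (L ⊓ 𝓟 B), Ultrafilter.of_le _⟩
  have h𝒰L : (𝒰 : Filter ι) ≤ L := h𝒰.trans inf_le_left
  have h𝒰B : ∀ᶠ ν in (𝒰 : Filter ι), ¬ COH (Γ (s ν)) (t ν) := by
    have : B ∈ (𝒰 : Filter ι) := le_principal_iff.1 (h𝒰.trans inf_le_right)
    rw [hB] at this
    exact this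
  obtain ⟨u0, a1, a2, a3⟩ := cluster hΓ hG0 ht0 𝒰 (hs.mono_left h𝒰L) (ht.mono_left h𝒰L)
    (u := fun ν => (p ν).1) (h𝒰B.mono fun ν h => (hp ν h).1)
  obtain ⟨u0', a1', a2', a3'⟩ := cluster hΓ hG0 ht0 𝒰 (hs.mono_left h𝒰L) (ht.mono_left h𝒰L)
    (u := fun ν => (p ν).2) (h𝒰B.mono fun ν h => (hp ν h).2.1)
  have key : ∀ (w : ι → Matrix (Fin (m + 1)) (Fin (m + 1 + l)) ℝ)
      (w0 : Matrix (Fin (m + 1)) (Fin (m + 1 + l)) ℝ),
      IsSol (sp (m + 1) (Γ s0) t0) w0 → w0 * jet (Γ s0) (m + 1) 0 = 1 →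
      Tendsto w 𝒰 (𝓝 w0) → (∀ᶠ ν in (𝒰 : Filter ι),
        IsSol (sp (m + 1) (Γ (s ν)) (t ν)) (w ν) ∧ w ν * jet (Γ (s ν)) (m + 1) 0 = 1) →
      Tendsto (fun ν => JJ (sp (m + 1) (Γ (s ν)) (t ν)) (w ν) * eps (pth (Γ (s ν)) (w ν))) 𝒰
        (𝓝 (JJ (sp (m + 1) (Γ s0) t0) w0 * eps (pth (Γ s0) w0))) := by
    intro w w0 b1 b2 b3 b4
    have c0 : Tendsto (fun ν => (sp (m + 1) (Γ (s ν)) (t ν), w ν)) 𝒰
        (𝓝 (sp (m + 1) (Γ s0) t0, w0)) := (hH.mono_left h𝒰L).prodMk_nhds b3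
    have c1' := ((JJ_continuous (m + 1) l).tendsto (sp (m + 1) (Γ s0) t0, w0)).comp c0
    have c1 : Tendsto (fun ν => JJ (sp (m + 1) (Γ (s ν)) (t ν)) (w ν)) 𝒰
        (𝓝 (JJ (sp (m + 1) (Γ s0) t0) w0)) := c1'
    have c2 : ∀ᶠ ν in (𝒰 : Filter ι), eps (pth (Γ (s ν)) (w ν)) = eps (pth (Γ s0) w0) := by
      refine eps_pth_tendsto hΓ (hs.mono_left h𝒰L) b3 ?_ (gp_pth (hΓ.nice _) hG0 ht0 b1 b2)
      filter_upwards [b4, hG.filter_mono h𝒰L, hS.filter_mono h𝒰L] with ν d1 d2 d3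
      exact gp_pth (hΓ.nice _) d2 d3 d1.1 d1.2
    refine (c1.mul_const (eps (pth (Γ s0) w0))).congr' ?_
    filter_upwards [c2] with ν d1
    rw [d1]
  have k1 := key _ u0 a1 a2 a3 (h𝒰B.mono fun ν h => (hp ν h).1)
  have k2 := key _ u0' a1' a2' a3' (h𝒰B.mono fun ν h => (hp ν h).2.1)
  have k3 := (k1.mul k2).eventually_const_lt (hP.2 u0 u0' a1 a1' a2 a2')
  obtain ⟨ν, e1, e2⟩ := (k3.and h𝒰B).exists
  exact (hp ν e2).2.2 e1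

end main

end GTC
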