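import Pool.Agent.GTR.Coh

/-!
# GTR Cont : the continuation principle (4.2), and its use for a fixed curve
-/

set_option autoImplicit false

open Matrix Topology Filter Set Real

namespace GTC

section main

variable {m l F : ℕ} {Γ : ℝ → ℝ → Fin (m + 1 + l) → ℝ}

/-- (4.2) -/
theorem continuation (hΓ : Family Γ) {s1 : ℝ} (hs1 : 0 ≤ s1)
    (hG : ∀ s ∈ Icc 0 s1, GOOD (m + 1) l (Γ s)) {ι : Type*} [Finite ι]
    (T : ι → ℝ → Fin ((m + 1) * l) → ℝ) (hT : ∀ c, Continuous (T c))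
    (hS : ∀ c, ∀ s ∈ Icc 0 s1, Simple (T c s)) (base : ∀ c, PC F (Γ 0) (T c 0))
    (step : ∀ s ∈ Ioc 0 s1, (∀ s' ∈ Ico 0 s, ∀ c, PC F (Γ s') (T c s')) →
      ∀ c, (Sol (ch (sp (m + 1) (Γ s) (T c s)))).Finite) :
    ∀ s ∈ Icc 0 s1, ∀ c, PC F (Γ s) (T c s) := by
  obtain ⟨S, hSdef⟩ : ∃ S : Set ℝ, S = {x | ∀ s ∈ Icc 0 x, ∀ c, PC F (Γ s) (T c s)} := ⟨_, rfl⟩
  have hclosed : IsClosed (S ∩ Icc 0 s1) := by
    rw [← isSeqClosed_iff_isClosed]
    intro x y hx hxy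
    have hy1 : y ∈ Icc 0 s1 := isClosed_Icc.mem_of_tendsto hxy
      (Eventually.of_forall fun n => (hx n).2)
    refine ⟨?_, hy1⟩
    rw [hSdef]
    intro s hs c
    by_cases h : ∃ n, s ≤ x n
    · obtain ⟨n, hn⟩ := h
      have := (hx n).1
      rw [hSdef] at this
      exact this s ⟨hs.1, hn⟩ c
    · push Not at h
      have hsy : s = y := le_antisymm hs.2 (le_of_tendsto' hxy fun n => (h n).le)
      rw [hsy]
      rcases hy1.1.eq_or_lt with h0 | h0
      · rw [← h0]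
        exact base c
      · have hbelow : ∀ s' ∈ Ico 0 y, ∀ c, PC F (Γ s') (T c s') := by
          intro s' hs' c
          obtain ⟨n, hn⟩ := (hxy.eventually (lt_mem_nhds hs'.2)).exists
          have := (hx n).1
          rw [hSdef] at this
          exact this s' ⟨hs'.1, hn.le⟩ c
        have hne : (𝓝[<] y).NeBot := nhdsLT_neBot_of_exists_lt ⟨0, h0⟩
        have hmem : ∀ᶠ s' in 𝓝[<] y, s' ∈ Ico 0 y := Ico_mem_nhdsLT h0
        have hid : Tendsto (fun s' : ℝ => s') (𝓝[<] y) (𝓝 y) := nhdsWithin_le_nhds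
        exact coh_closed hΓ (hG y hy1) (hS c y hy1) (L := 𝓝[<] y) (s := fun s' => s')
          (t := fun s' => T c s') hid (((hT c).tendsto y).comp hid)
          (hmem.mono fun s' h' => hG s' ⟨h'.1, h'.2.le.trans hy1.2⟩)
          (hmem.mono fun s' h' => hS c s' ⟨h'.1, h'.2.le.trans hy1.2⟩)
          (hmem.mono fun s' h' => hbelow s' h' c) (step y ⟨h0, hy1.2⟩ hbelow c)
  have h0S : (0 : ℝ) ∈ S := by
    rw [hSdef]
    intro s hs c
    have : s = 0 := le_antisymm hs.2 hs.1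
    rw [this]
    exact base c
  have hgt : ∀ x ∈ S ∩ Ico 0 s1, ∀ y ∈ Ioi x, (S ∩ Ioc x y).Nonempty := by
    rintro x ⟨hxS, hx⟩ y hy
    have hx1 : x ∈ Icc 0 s1 := ⟨hx.1, hx.2.le⟩
    rw [hSdef] at hxS
    have hid : Tendsto (fun s' : ℝ => s') (𝓝[>] x) (𝓝 x) := nhdsWithin_le_nhds
    have hmem : ∀ᶠ s' in 𝓝[>] x, s' ∈ Ioo x s1 := Ioo_mem_nhdsGT hx.2
    have hev : ∀ᶠ s' in 𝓝[>] x, ∀ c, PC F (Γ s') (T c s') := by
      rw [eventually_all]
      intro c
      exact coh_open hΓ (hG x hx1) (hS c x hx1) (L := 𝓝[>] x) (s := fun s' => s')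
          (t := fun s' => T c s') hid (((hT c).tendsto x).comp hid)
          (hmem.mono fun s' h' => hG s' ⟨hx.1.trans h'.1.le, h'.2.le⟩)
          (hmem.mono fun s' h' => hS c s' ⟨hx.1.trans h'.1.le, h'.2.le⟩)
          (hxS x ⟨hx.1, le_rfl⟩ c)
    obtain ⟨z, hz, hz2⟩ := mem_nhdsGT_iff_exists_Ioo_subset.1 hev
    obtain ⟨w, hw⟩ : ∃ w, w = min ((x + z) / 2) y := ⟨_, rfl⟩
    have hxw : x < w := by
      rw [hw]
      exact lt_min (by linarith [hz.out]) hy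
    have hwz : w < z := by
      rw [hw]
      exact (min_le_left _ _).trans_lt (by linarith [hz.out])
    refine ⟨w, ?_, hxw, hw ▸ min_le_right _ _⟩
    rw [hSdef]
    intro s hs c
    rcases le_or_gt s x with h | h
    · exact hxS s ⟨hs.1, h⟩ c
    · exact hz2 ⟨h, hs.2.trans_lt hwz⟩ c
  have hsub := hclosed.Icc_subset_of_forall_exists_gt h0S hgt
  intro s hs c
  have := hsub (right_mem_Icc.2 hs1)
  rw [hSdef] at this
  exact this s hs c

theorem sp_perm (k : ℕ) {n N : ℕ} (γ : ℝ → Fin n → ℝ) (t : Fin N → ℝ) (σ : Equiv.Perm (Fin N)) :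
    sp k γ (t ∘ σ) = fun i => sp k γ t (σ i) := rfl

theorem issol_perm {K : Type*} [Field K] {k n N : ℕ} (h : Fin N → Cf K k n)
    (σ : Equiv.Perm (Fin N)) (u : Matrix (Fin k) (Fin n) K) :
    IsSol (fun i => h (σ i)) u ↔ IsSol h u := by
  refine and_congr Iff.rfl ⟨fun H i => ?_, fun H i => H _⟩
  have : lf (h (σ (σ.symm i))) u = 0 := H (σ.symm i)
  rwa [σ.apply_symm_apply] at this

theorem sol_perm {k n N : ℕ} (h : Fin N → Cf ℂ k n) (σ : Equiv.Perm (Fin N)) :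
    Sol (fun i => h (σ i)) = Sol h := by
  ext L
  exact exists_congr fun u => and_congr (issol_perm h σ u) Iff.rfl

theorem PC_perm {γ : ℝ → Fin (m + 1 + l) → ℝ} {t : Fin ((m + 1) * l) → ℝ}
    (σ : Equiv.Perm (Fin ((m + 1) * l))) (h : PC F γ t) : PC F γ (t ∘ σ) := by
  have hS : Sol (ch (sp (m + 1) γ (t ∘ σ))) = Sol (ch (sp (m + 1) γ t)) :=
    sol_perm (ch (sp (m + 1) γ t)) σ
  have hJ : ∀ u, JJ (sp (m + 1) γ (t ∘ σ)) u =
      ((Equiv.Perm.sign σ : ℤ) : ℝ) * JJ (sp (m + 1) γ t) u :=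
    fun u => JJ_perm (sp (m + 1) γ t) σ u
  have hI : ∀ u : Matrix (Fin (m + 1)) (Fin (m + 1 + l)) ℝ,
      IsSol (sp (m + 1) γ (t ∘ σ)) u ↔ IsSol (sp (m + 1) γ t) u :=
    fun u => issol_perm (sp (m + 1) γ t) σ u
  have hsq : ((Equiv.Perm.sign σ : ℤ) : ℝ) * ((Equiv.Perm.sign σ : ℤ) : ℝ) = 1 := by
    rcases Int.units_eq_one_or (Equiv.Perm.sign σ) with h1 | h1 <;> rw [h1] <;> norm_num
  refine ⟨⟨?_, ?_, ?_, ?_⟩, ?_⟩
  · rw [hS]
    exact h.1.fin
  · rw [hS]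
    exact h.1.card
  · rw [hS]
    exact h.1.real
  · intro u hu
    rw [hJ]
    exact mul_ne_zero (left_ne_zero_of_mul (by rw [hsq]; exact one_ne_zero))
      (h.1.nd u ((hI u).1 hu))
  · intro u u' hu hu' hn hn'
    have h1 := h.2 u u' ((hI u).1 hu) ((hI u').1 hu') hn hn'
    rw [hJ, hJ]
    have h2 : ((Equiv.Perm.sign σ : ℤ) : ℝ) * JJ (sp (m + 1) γ t) u *
        Pool.GTR.eps (pth γ u) *
        (((Equiv.Perm.sign σ : ℤ) : ℝ) * JJ (sp (m + 1) γ t) u' * Pool.GTR.eps (pth γ u')) =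
        (((Equiv.Perm.sign σ : ℤ) : ℝ) * ((Equiv.Perm.sign σ : ℤ) : ℝ)) *
        (JJ (sp (m + 1) γ t) u * Pool.GTR.eps (pth γ u) *
        (JJ (sp (m + 1) γ t) u' * Pool.GTR.eps (pth γ u'))) := by ring
    rw [h2, hsq, one_mul]
    exact h1

theorem exists_sort {N : ℕ} {t : Fin N → ℝ} (ht : Simple t) :
    ∃ σ : Equiv.Perm (Fin N), StrictMono (t ∘ σ) := by
  refine ⟨Tuple.sort t, ?_⟩
  have h1 : Monotone (t ∘ Tuple.sort t) := Tuple.monotone_sort t
  exact h1.strictMono_of_injective (ht.1.comp (Tuple.sort t).injective)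

/-- the case of a fixed curve: `RR + COH` spreads from one simple problem to all. -/
theorem spread {γ : ℝ → Fin (m + 1 + l) → ℝ} (hγ : Nice γ) (hG : GOOD (m + 1) l γ)
    (hfin : ∀ t : Fin ((m + 1) * l) → ℝ, Simple t → (Sol (ch (sp (m + 1) γ t))).Finite)
    {t0 : Fin ((m + 1) * l) → ℝ} (ht0 : Simple t0) (h0 : PC F γ t0)
    {t : Fin ((m + 1) * l) → ℝ} (ht : Simple t) : PC F γ t := by
  have hΓ : Family (fun _ : ℝ => γ) := by
    refine ⟨fun _ => hγ, fun b => ?_⟩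
    exact (continuous_iter hγ.smooth b).comp continuous_snd
  obtain ⟨σ0, hσ0⟩ := exists_sort ht0
  obtain ⟨σ, hσ⟩ := exists_sort ht
  obtain ⟨a, ha⟩ : ∃ a, a = t0 ∘ σ0 := ⟨_, rfl⟩
  obtain ⟨b, hb⟩ : ∃ b, b = t ∘ σ := ⟨_, rfl⟩
  rw [← ha] at hσ0
  rw [← hb] at hσ
  have ham : ∀ i, a i ∈ Ioo 0 π := by
    intro i
    rw [ha]
    exact ht0.2 _
  have hbm : ∀ i, b i ∈ Ioo 0 π := by
    intro i
    rw [hb]
    exact ht.2 _
  have hP : PC F γ a := by
    rw [ha]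
    exact PC_perm σ0 h0
  have hTS : ∀ s ∈ Icc (0 : ℝ) 1, Simple (fun i => (1 - s) * a i + s * b i) := by
    intro s hs
    refine ⟨StrictMono.injective ?_, fun i => ?_⟩
    · intro i j hij
      have h1 := hσ0 hij
      have h2 := hσ hij
      show (1 - s) * a i + s * b i < (1 - s) * a j + s * b j
      rcases hs.1.eq_or_lt with h3 | h3
      · rw [← h3]
        linarith
      · have h4 : 0 < s * (b j - b i) := mul_pos h3 (by linarith)
        have h5 : 0 ≤ (1 - s) * (a j - a i) := mul_nonneg (by linarith [hs.2]) (by linarith)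
        nlinarith
    · have := (convex_Ioo (0 : ℝ) π) (ham i) (hbm i) (by linarith [hs.2] : (0 : ℝ) ≤ 1 - s) hs.1
        (by ring : 1 - s + s = 1)
      simpa using this
  have key := continuation (F := F) hΓ (s1 := 1) zero_le_one (fun _ _ => hG) (ι := Unit)
    (fun _ s i => (1 - s) * a i + s * b i) (fun _ => by fun_prop) (fun _ s hs => hTS s hs)
    (fun _ => by
      have : (fun i => (1 - (0 : ℝ)) * a i + 0 * b i) = a := by
        funext i
        ring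
      rw [this]
      exact hP)
    (fun s hs _ _ => hfin _ (hTS s ⟨hs.1.le, hs.2⟩)) 1 ⟨zero_le_one, le_rfl⟩ ()
  have h1 : (fun i => (1 - (1 : ℝ)) * a i + 1 * b i) = b := by
    funext i
    ring
  rw [h1] at key
  have h2 := PC_perm σ.symm key
  have h3 : b ∘ σ.symm = t := by
    rw [hb]
    funext i
    show t (σ (σ.symm i)) = t i
    rw [σ.apply_symm_apply]
  rwa [h3] at h2

end main

end GTC
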