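import Mathlib

/-!
# GTR Rol : Rolle's theorem with multiplicities and divided differences

PROOFS.
* `rolle_mult`: induction on `m`.  `m = 0`: `f` has a zero (`c` has a point of positive
  multiplicity).  `m + 1`: let `x_1 < … < x_r` be the support of `c` (`r ≥ 1`).  `f'` vanishes to order `c x_i - 1` at
  `x_i` and has by Rolle (`exists_deriv_eq_zero`) a zero in each open interval `(x_i, x_(i+1))`: total
  multiplicity `≥ (∑ c x_i) - r + (r - 1) = ∑ c - 1 > m`.  Apply the induction hypothesis to `f'`
  with the multiplicity function `c'` = (`c x_i - 1` at `x_i`, `1` at the new points).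
  To make the induction simple one may first assume `∑ c = m + 1` exactly.
* `dd_mean`: `r ≥ 0`, points `x 0, …, x r` distinct in `[a, b]`.  Let `p` be the Lagrange interpolation
  polynomial of `f` at these points (degree `≤ r`; `Lagrange.interpolate`); `f - p` has `r + 1` zeros,
  so by `rolle_mult` (`m = r`) some `ξ ∈ [a, b]` has `iteratedDeriv r f ξ = iteratedDeriv r p ξ = r! *
  (leading coefficient of p)`, and the coefficient of `X^r` in `p` is
  `∑ j, f (x j) / ∏ i ≠ j, (x j - x i)`.
-/

set_option autoImplicit false

open Set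

namespace GTC

/-- Rolle for sequences with multiplicities -/
private theorem rol_seq (n : ℕ) : ∀ f : ℝ → ℝ, ContDiff ℝ (⊤ : ℕ∞) f → ∀ (a b : ℝ) (z : ℕ → ℝ),
    (∀ i < n, z i ≤ z (i + 1)) → (∀ i ≤ n, z i ∈ Icc a b) →
    (∀ i ≤ n, ∀ k ≤ i, z (i - k) = z i → iteratedDeriv k f (z i) = 0) →
    ∃ ξ ∈ Icc a b, iteratedDeriv n f ξ = 0 := by
  induction n with
  | zero =>
    intro f _ a b z _ hz h
    exact ⟨z 0, hz 0 le_rfl, h 0 le_rfl 0 le_rfl rfl⟩
  | succ n ih =>
    intro f hf a b z hm hz h
    have h0 : ∀ i ≤ n + 1, f (z i) = 0 := by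
      intro i hi
      have := h i hi 0 (Nat.zero_le _) rfl
      rwa [iteratedDeriv_zero] at this
    have hR : ∀ i, ∃ w, i ≤ n → (z i = z (i + 1) ∧ w = z i) ∨
        (z i < w ∧ w < z (i + 1) ∧ deriv f w = 0) := by
      intro i
      by_cases hi : i ≤ n
      · rcases eq_or_lt_of_le (hm i (by omega)) with he | hlt
        · exact ⟨z i, fun _ => Or.inl ⟨he, rfl⟩⟩
        · obtain ⟨w, hw, hw'⟩ := exists_deriv_eq_zero hlt hf.continuous.continuousOn
            ((h0 i (by omega)).trans (h0 (i + 1) (by omega)).symm)
          exact ⟨w, fun _ => Or.inr ⟨hw.1, hw.2, hw'⟩⟩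
      · exact ⟨0, fun h => absurd h hi⟩
    choose w hw using hR
    have hwz : ∀ i ≤ n, z i ≤ w i ∧ w i ≤ z (i + 1) := by
      intro i hi
      rcases hw i hi with ⟨h1, h2⟩ | ⟨h1, h2, _⟩
      · rw [h2]
        exact ⟨le_rfl, h1.le⟩
      · exact ⟨h1.le, h2.le⟩
    have hmono : ∀ i j, i ≤ j → j ≤ n + 1 → z i ≤ z j := by
      intro i j hij
      induction j, hij using Nat.le_induction with
      | base => exact fun _ => le_rfl
      | succ j hij ihj => exact fun hj => (ihj (by omega)).trans (hm j (by omega))
    simp only [iteratedDeriv_succ']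
    refine ih (deriv f) (contDiff_infty_iff_deriv.1 hf).2 a b w ?_ ?_ ?_
    · intro i hi
      exact (hwz i (by omega)).2.trans (hwz (i + 1) (by omega)).1
    · intro i hi
      exact ⟨(hz i (by omega)).1.trans (hwz i hi).1, (hwz i hi).2.trans (hz (i + 1) (by omega)).2⟩
    · intro i hi k hk heq
      rcases Nat.eq_zero_or_pos k with rfl | hkpos
      · rw [iteratedDeriv_zero]
        rcases hw i hi with ⟨h1, h2⟩ | ⟨_, _, h3⟩
        · have h4 := h (i + 1) (by omega) 1 (by omega) (by simpa using h1)
          rw [iteratedDeriv_one] at h4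
          rw [h2, h1]
          exact h4
        · exact h3
      · have h1 := (hwz (i - k) (by omega)).2
        have h2 := hmono (i - k + 1) i (by omega) (by omega)
        have h3 := (hwz i hi).1
        have h4 : z i = w i := le_antisymm h3 (by rw [← heq]; exact h1.trans h2)
        have h5 : w (i - k) = z (i - k + 1) := by
          refine le_antisymm h1 ?_
          rw [heq]
          exact h2.trans h3
        have h6 : z i = z (i + 1) := by
          rcases hw i hi with ⟨h1, _⟩ | ⟨h1, _, _⟩
          · exact h1
          · exact absurd h4 h1.ne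
        have h7 : z (i - k) = w (i - k) := by
          rcases hw (i - k) (by omega) with ⟨_, h1⟩ | ⟨_, h1, _⟩
          · exact h1.symm
          · exact absurd h5 h1.ne
        have h8 := h (i + 1) (by omega) (k + 1) (by omega) (by
          rw [Nat.add_sub_add_right, h7, heq, ← h4, h6])
        rw [iteratedDeriv_succ'] at h8
        rw [← h4, h6]
        exact h8

theorem rolle_mult (f : ℝ → ℝ) (hf : ContDiff ℝ (⊤ : ℕ∞) f) (a b : ℝ) (c : ℝ →₀ ℕ)
    (hc : ∀ x ∈ c.support, x ∈ Icc a b) (hv : ∀ x, ∀ j < c x, iteratedDeriv j f x = 0)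
    (m : ℕ) (hm : m < c.sum fun _ q => q) : ∃ ξ ∈ Icc a b, iteratedDeriv m f ξ = 0 := by
  classical
  set L : List ℝ := (Finsupp.toMultiset c).sort with hL
  have hlen : L.length = c.sum fun _ q => q := by
    rw [hL, Multiset.length_sort, Finsupp.card_toMultiset]
    rfl
  have hcount : ∀ x, L.count x = c x := by
    intro x
    rw [← Multiset.coe_count, hL, Multiset.sort_eq, Finsupp.count_toMultiset]
  have hsort : L.Pairwise (· ≤ ·) := Multiset.pairwise_sort _ _
  have hle : ∀ i j (hi : i < L.length) (hj : j < L.length), i ≤ j → L[i] ≤ L[j] := by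
    intro i j hi hj hij
    rcases Nat.eq_or_lt_of_le hij with h | h
    · subst h
      exact le_rfl
    · exact List.pairwise_iff_getElem.1 hsort i j hi hj h
  have hget : ∀ i (hi : i < L.length), L.getD i 0 = L[i] := fun i hi =>
    List.getD_eq_getElem L 0 hi
  rw [← hlen] at hm
  refine rol_seq m f hf a b (fun i => L.getD i 0) ?_ ?_ ?_
  · intro i hi
    have h1 : i < L.length := by omega
    have h2 : i + 1 < L.length := by omega
    simp only [hget i h1, hget (i + 1) h2]
    exact hle i (i + 1) h1 h2 (by omega)
  · intro i hi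
    have h1 : i < L.length := by omega
    simp only [hget i h1]
    apply hc
    rw [Finsupp.mem_support_iff, ← hcount]
    exact (List.count_pos_iff.2 (List.getElem_mem h1)).ne'
  · intro i hi k hk heq
    have h1 : i < L.length := by omega
    have h2 : i - k < L.length := by omega
    simp only [hget i h1, hget (i - k) h2] at heq ⊢
    apply hv
    rw [← hcount]
    have h3 : (L.drop (i - k)).take (k + 1) = List.replicate (k + 1) L[i] := by
      rw [List.eq_replicate_iff]
      refine ⟨?_, ?_⟩
      · rw [List.length_take, List.length_drop]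
        omega
      · intro y hy
        obtain ⟨j, hj, rfl⟩ := List.getElem_of_mem hy
        rw [List.length_take, List.length_drop] at hj
        rw [List.getElem_take, List.getElem_drop]
        refine le_antisymm (hle _ _ _ _ (by omega)) ?_
        rw [← heq]
        exact hle _ _ _ _ (by omega)
    have h4 : List.Sublist (List.replicate (k + 1) L[i]) L := by
      rw [← h3]
      exact (List.take_sublist _ _).trans (List.drop_sublist _ _)
    exact List.replicate_sublist_iff.1 h4

theorem dd_mean (f : ℝ → ℝ) (hf : ContDiff ℝ (⊤ : ℕ∞) f) (a b : ℝ) (r : ℕ) (x : Fin (r + 1) → ℝ)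
    (hx : Function.Injective x) (hab : ∀ i, x i ∈ Icc a b) :
    ∃ ξ ∈ Icc a b, ∑ j, f (x j) / ∏ i ∈ Finset.univ.erase j, (x j - x i) =
      iteratedDeriv r f ξ / (r.factorial : ℝ) := by
  classical
  set P : Polynomial ℝ := Lagrange.interpolate Finset.univ x (fun i => f (x i)) with hP
  have hinj : Set.InjOn x ((Finset.univ : Finset (Fin (r + 1))) : Set (Fin (r + 1))) :=
    hx.injOn
  have hcard : (Finset.univ : Finset (Fin (r + 1))).card = r + 1 := by
    rw [Finset.card_univ, Fintype.card_fin]
  have hdeg : P.degree < (Finset.univ : Finset (Fin (r + 1))).card :=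
    Lagrange.degree_interpolate_lt _ hinj
  have hev : ∀ i, P.eval (x i) = f (x i) := fun i =>
    Lagrange.eval_interpolate_at_node _ hinj (Finset.mem_univ i)
  have hco := Lagrange.coeff_eq_sum hinj hdeg
  rw [hcard, Nat.add_sub_cancel] at hco
  simp only [hev] at hco
  have hPc : ContDiff ℝ (⊤ : ℕ∞) (fun t => P.eval t) := by
    have := P.contDiff_aeval (𝕜 := ℝ) ((⊤ : ℕ∞) : WithTop ℕ∞)
    simpa [Polynomial.coe_aeval_eq_eval] using this
  obtain ⟨ξ, hξ, h0⟩ := rolle_mult (fun t => f t - P.eval t) (hf.sub hPc) a b
    (∑ i, Finsupp.single (x i) 1) (by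
      intro y hy
      rw [Finsupp.mem_support_iff, Finsupp.finsetSum_apply] at hy
      obtain ⟨i, _, hi⟩ := Finset.exists_ne_zero_of_sum_ne_zero hy
      have : x i = y := by
        by_contra h
        exact hi (Finsupp.single_eq_of_ne' h)
      rw [← this]
      exact hab i) (by
      intro y j hj
      rw [Finsupp.finsetSum_apply] at hj
      have h1 : ∑ i, (Finsupp.single (x i) 1 : ℝ →₀ ℕ) y ≤ 1 := by
        by_cases h : ∃ i, x i = y
        · obtain ⟨i, rfl⟩ := h
          rw [Finset.sum_eq_single i]
          · rw [Finsupp.single_eq_same]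
          · intro k _ hk
            exact Finsupp.single_eq_of_ne' (fun h => hk (hx h))
          · intro h
            exact absurd (Finset.mem_univ i) h
        · push Not at h
          rw [Finset.sum_eq_zero]
          · exact Nat.zero_le _
          · intro i _
            exact Finsupp.single_eq_of_ne' (h i)
      have hj0 : j = 0 := by omega
      subst hj0
      obtain ⟨i, _, hi⟩ := Finset.exists_ne_zero_of_sum_ne_zero (by omega :
        ∑ i, (Finsupp.single (x i) 1 : ℝ →₀ ℕ) y ≠ 0)
      have : x i = y := by
        by_contra h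
        exact hi (Finsupp.single_eq_of_ne' h)
      rw [iteratedDeriv_zero, ← this, hev, sub_self]) r (by
      have h1 : (∑ i, Finsupp.single (x i) 1 : ℝ →₀ ℕ).sum (fun _ q => q) =
          Multiset.card (Finsupp.toMultiset (∑ i, Finsupp.single (x i) 1 : ℝ →₀ ℕ)) := by
        rw [Finsupp.card_toMultiset]
        rfl
      rw [h1, Finsupp.toMultiset_sum, Multiset.card_sum]
      simp)
  refine ⟨ξ, hξ, ?_⟩
  have h1 : iteratedDeriv r (fun t => f t - P.eval t) ξ =
      iteratedDeriv r f ξ - iteratedDeriv r (fun t => P.eval t) ξ := by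
    have := iteratedDeriv_fun_sub (n := r) (x := ξ) (f := f) (g := fun t => P.eval t)
      ((hf.of_le (by exact_mod_cast le_top)).contDiffAt)
      ((hPc.of_le (by exact_mod_cast le_top)).contDiffAt)
    exact this
  have h2 : iteratedDeriv r (fun t => P.eval t) ξ = (r.factorial : ℝ) * P.coeff r := by
    have h3 : ∀ (n : ℕ) (Q : Polynomial ℝ), deriv^[n] (fun t => Q.eval t) =
        fun t => (Polynomial.derivative^[n] Q).eval t := by
      intro n
      induction n with
      | zero => intro Q; rfl
      | succ n ih =>
        intro Q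
        rw [Function.iterate_succ_apply, Function.iterate_succ_apply]
        have : deriv (fun t => Q.eval t) = fun t => (Polynomial.derivative Q).eval t := by
          funext t
          exact Polynomial.deriv Q
        rw [this, ih]
    rw [iteratedDeriv_eq_iterate, h3]
    have hnd : P.natDegree ≤ r := by
      rw [hcard] at hdeg
      by_contra hlt
      have hP0 : P ≠ 0 := by
        intro h0
        rw [h0, Polynomial.natDegree_zero] at hlt
        omega
      have := (Polynomial.natDegree_lt_iff_degree_lt hP0).2 hdeg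
      omega
    have h4 : Polynomial.derivative^[r] P = Polynomial.C ((r.factorial : ℝ) * P.coeff r) := by
      have h5 : (Polynomial.derivative^[r] P).natDegree = 0 := by
        have := Polynomial.natDegree_iterate_derivative P r
        omega
      rw [Polynomial.eq_C_of_natDegree_eq_zero h5, Polynomial.coeff_iterate_derivative]
      congr 1
      rw [zero_add, Nat.descFactorial_self, nsmul_eq_mul]
    rw [h4]
    exact Polynomial.eval_C
  rw [h1, h2, sub_eq_zero] at h0
  rw [h0, ← hco]
  field_simp

end GTC
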