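import Pool.Agent.GTR.Der
import Pool.Agent.GTR.Rol

/-!
# GTR Ddf : approximation of a problem with multiplicities by simple problems

PROOF of `dd_limit`.  Componentwise (`t : Fin k → Fin n`): `g_s y = wf k (Γ s) y t` is smooth, its
derivatives are the components of `pf`, jointly continuous (`pf_continuous`).  By `dd_mean` the divided
difference is `(pf k (Γ s) ξ r) t / r!` for some `ξ` between `x + ε` and `x + ε (r+1)`, and this tends to
`(pf k (Γ s0) x r) t / r!` when `s → s0`, `ε → 0+`.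

PROOF of `approx`.  `N = ∑ c`.  Choose `τ : Fin N → ℝ` with `#{i | τ i = x} = c x` for all `x` (a multiset of
`N` elements), `r i = #{i' < i | τ i' = τ i}` (so on the fibre of `x` `r` takes the values
`0, …, c x - 1`, each once).  `ε ν = 1 / (ν + 1)`, `t ν i = τ i + ε ν * (r i + 1)`.  Eventually these are
different and in `Ioo 0 π` (`τ i ∈ Ico 0 π`).  Let
`H ν i = ∑ j ≤ r i, (1 / ∏ j' ≠ j, j' ≤ r i, ε ν (j - j')) • wf k (Γ (s ν)) (τ i + ε ν (j + 1))`
(the divided difference), `h i = (1 / (r i)!) • pf k (Γ s0) (τ i) (r i)`: `H ν → h` by `dd_limit`.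
On each fibre the forms `H ν i` are obtained from the forms `wf k (Γ (s ν)) (t ν i)` by a triangular matrix
with nonzero diagonal, so they have the same common zeros.
-/

set_option autoImplicit false

open Matrix Real Set Topology Filter

namespace GTC

theorem iterDeriv_apply {ι : Type*} [Fintype ι] (F : ℝ → ι → ℝ) (hF : ContDiff ℝ (⊤ : ℕ∞) F)
    (t : ι) (r : ℕ) : iteratedDeriv r (fun y => F y t) = fun y => iteratedDeriv r F y t := by
  induction r with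
  | zero => funext y; simp
  | succ r ih =>
    funext y
    rw [iteratedDeriv_succ, iteratedDeriv_succ, ih]
    have h1 : DifferentiableAt ℝ (iteratedDeriv r F) y :=
      (hF.differentiable_iteratedDeriv r (by exact_mod_cast WithTop.coe_lt_top _)) y
    have h2 := hasDerivAt_pi.1 h1.hasDerivAt t
    exact h2.deriv

theorem dd_step {k n : ℕ} (γ : ℝ → Fin n → ℝ) (hγ : ContDiff ℝ (⊤ : ℕ∞) γ) (x : ℝ) (r : ℕ)
    (ε : ℝ) (hε : 0 < ε) (t : Fin k → Fin n) :
    ∃ ξ ∈ Icc (x + ε) (x + ε * (r + 1)),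
      (∑ j : Fin (r + 1), (∏ i ∈ Finset.univ.erase j, (ε * ((j : ℝ) - (i : ℝ))))⁻¹ •
          wf k γ (x + ε * ((j : ℝ) + 1))) t =
        (r.factorial : ℝ)⁻¹ * pf k γ ξ r t := by
  have hsm : ContDiff ℝ (⊤ : ℕ∞) (wf k γ) := wf_contDiff hγ
  have hinj : Function.Injective fun j : Fin (r + 1) => x + ε * ((j : ℝ) + 1) := by
    intro j j' h
    have h1 : ε * ((j : ℝ) + 1) = ε * ((j' : ℝ) + 1) := add_left_cancel h
    have h2 := mul_left_cancel₀ hε.ne' h1
    have h3 : ((j : ℕ) : ℝ) = (j' : ℕ) := add_right_cancel h2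
    exact Fin.ext (Nat.cast_injective h3)
  have hab : ∀ j : Fin (r + 1), x + ε * ((j : ℝ) + 1) ∈
      Icc (x + ε) (x + ε * (r + 1)) := by
    intro j
    have h0 : (0 : ℝ) ≤ (j : ℕ) := Nat.cast_nonneg _
    have h1 : ((j : ℕ) : ℝ) ≤ r := Nat.cast_le.2 (Nat.lt_succ_iff.1 j.2)
    constructor
    · have := mul_le_mul_of_nonneg_left (show (1 : ℝ) ≤ (j : ℕ) + 1 by linarith) hε.le
      linarith
    · have := mul_le_mul_of_nonneg_left (show ((j : ℕ) : ℝ) + 1 ≤ r + 1 by linarith) hε.le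
      linarith
  obtain ⟨ξ, hξ, hξ'⟩ := dd_mean (fun y => wf k γ y t)
    (contDiff_pi.1 hsm t) (x + ε) (x + ε * (r + 1)) r
    (fun j : Fin (r + 1) => x + ε * ((j : ℝ) + 1)) hinj hab
  refine ⟨ξ, hξ, ?_⟩
  rw [iterDeriv_apply _ hsm, div_eq_mul_inv, mul_comm (iteratedDeriv r (wf k γ) ξ t)] at hξ'
  rw [Finset.sum_apply]
  refine Eq.trans (Finset.sum_congr rfl fun j _ => ?_) hξ'
  rw [Pi.smul_apply, smul_eq_mul, div_eq_mul_inv, mul_comm]
  congr 2
  refine Finset.prod_congr rfl fun i _ => ?_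
  ring

theorem pf_lim0 {k n : ℕ} (Γ : ℝ → ℝ → Fin n → ℝ) (hΓ : Family Γ) (r : ℕ) (t : Fin k → Fin n) :
    Continuous fun p : ℝ × ℝ => pf k (Γ p.1) p.2 r t :=
  (continuous_apply t).comp (pf_continuous hΓ r)

theorem pf_lim1 (F : ℝ × ℝ → ℝ) (h0 : Continuous F) (s : ℕ → ℝ) (s0 : ℝ)
    (hs : Tendsto s atTop (𝓝 s0)) (ξ : ℕ → ℝ) (x : ℝ) (hξ : Tendsto ξ atTop (𝓝 x)) :
    Tendsto (fun ν => F (s ν, ξ ν)) atTop (𝓝 (F (s0, x))) := by
  have h2 : Tendsto (fun ν => (s ν, ξ ν)) atTop (𝓝 (s0, x)) := hs.prodMk_nhds hξ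
  exact (h0.tendsto (s0, x)).comp h2

theorem pf_lim {k n : ℕ} (Γ : ℝ → ℝ → Fin n → ℝ) (hΓ : Family Γ) (s : ℕ → ℝ) (s0 : ℝ)
    (hs : Tendsto s atTop (𝓝 s0)) (ξ : ℕ → ℝ) (x : ℝ) (hξ : Tendsto ξ atTop (𝓝 x)) (r : ℕ)
    (t : Fin k → Fin n) :
    Tendsto (fun ν => pf k (Γ (s ν)) (ξ ν) r t) atTop (𝓝 (pf k (Γ s0) x r t)) :=
  pf_lim1 _ (pf_lim0 Γ hΓ r t) s s0 hs ξ x hξ

theorem dd_limit {k n : ℕ} (Γ : ℝ → ℝ → Fin n → ℝ) (hΓ : Family Γ) (s : ℕ → ℝ) (s0 : ℝ)
    (hs : Tendsto s atTop (𝓝 s0)) (x : ℝ) (r : ℕ) (ε : ℕ → ℝ) (hε : ∀ ν, 0 < ε ν)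
    (hε0 : Tendsto ε atTop (𝓝 0)) :
    Tendsto (fun ν => ∑ j : Fin (r + 1),
        (∏ i ∈ Finset.univ.erase j, (ε ν * ((j : ℝ) - (i : ℝ))))⁻¹ •
          wf k (Γ (s ν)) (x + ε ν * ((j : ℝ) + 1))) atTop
      (𝓝 ((r.factorial : ℝ)⁻¹ • pf k (Γ s0) x r)) := by
  rw [tendsto_pi_nhds]
  intro t
  have hex := fun ν => dd_step (k := k) (Γ (s ν)) (hΓ.nice _).smooth x r (ε ν) (hε ν) t
  choose ξ hξ hξ' using hex
  refine (tendsto_congr hξ').2 ?_
  rw [Pi.smul_apply, smul_eq_mul]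
  refine Tendsto.const_mul _ ?_
  have hlim : Tendsto ξ atTop (𝓝 x) := by
    have l1 : Tendsto (fun ν => x + ε ν) atTop (𝓝 x) := by
      simpa using tendsto_const_nhds.add hε0
    have l2 : Tendsto (fun ν => x + ε ν * ((r : ℝ) + 1)) atTop (𝓝 x) := by
      simpa using tendsto_const_nhds.add (hε0.mul_const ((r : ℝ) + 1))
    exact tendsto_of_tendsto_of_tendsto_of_le_of_le l1 l2 (fun ν => (hξ ν).1) (fun ν => (hξ ν).2)
  exact pf_lim Γ hΓ s s0 hs ξ x hlim r t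

/-- the points of a problem, with multiplicities -/
theorem exists_fib (c : ℝ →₀ ℕ) (N : ℕ) (hN : (c.sum fun _ m => m) = N) :
    ∃ (τ : Fin N → ℝ) (r : Fin N → ℕ), (∀ i, r i < c (τ i)) ∧
      (∀ x, ∀ j < c x, ∃ i, τ i = x ∧ r i = j) ∧
      (∀ i i', τ i = τ i' → r i = r i' → i = i') := by
  classical
  have hcard : Fintype.card (Fin N) = Fintype.card (Σ x : c.support, Fin (c x)) := by
    rw [Fintype.card_fin, Fintype.card_sigma, ← hN, Finsupp.sum, ← Finset.sum_coe_sort]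
    simp
  let e : Fin N ≃ (Σ x : c.support, Fin (c x)) := Fintype.equivOfCardEq hcard
  refine ⟨fun i => (e i).1, fun i => (e i).2, fun i => (e i).2.2, fun x j hj => ?_,
    fun i i' h1 h2 => ?_⟩
  · have hx : x ∈ c.support := Finsupp.mem_support_iff.2 (by omega)
    refine ⟨e.symm ⟨⟨x, hx⟩, ⟨j, hj⟩⟩, ?_⟩
    simp only
    rw [Equiv.apply_symm_apply]
    exact ⟨rfl, rfl⟩
  · apply e.injective
    simp only at h1 h2
    generalize e i = p at h1 h2 ⊢
    generalize e i' = q at h1 h2 ⊢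
    obtain ⟨⟨x, hx⟩, ⟨j, hj⟩⟩ := p
    obtain ⟨⟨x', hx'⟩, ⟨j', hj'⟩⟩ := q
    have h1' : x = x' := h1
    subst h1'
    have h2' : j = j' := h2
    subst h2'
    rfl

theorem lf_cc_sum {k n : ℕ} {ι : Type*} (S : Finset ι) (b : ι → ℝ) (w : ι → Cf ℝ k n)
    (u : Matrix (Fin k) (Fin n) ℂ) :
    lf (cc (∑ j ∈ S, b j • w j)) u = ∑ j ∈ S, (b j : ℂ) * lf (cc (w j)) u := by
  rw [← lf_comb]
  congr 1
  funext t
  simp [cc, Finset.sum_apply]

theorem lf_cc_smul {k n : ℕ} (b : ℝ) (w : Cf ℝ k n) (u : Matrix (Fin k) (Fin n) ℂ) :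
    lf (cc (b • w)) u = (b : ℂ) * lf (cc w) u := by
  have h := lf_cc_sum ({()} : Finset Unit) (fun _ => b) (fun _ => w) u
  simpa using h

theorem approx {k n N : ℕ} (Γ : ℝ → ℝ → Fin n → ℝ) (hΓ : Family Γ) (s : ℕ → ℝ) (s0 : ℝ)
    (hs : Tendsto s atTop (𝓝 s0)) (c : ℝ →₀ ℕ) (hc : Prob N c) :
    ∃ (τ : Fin N → ℝ) (t : ℕ → Fin N → ℝ) (H : ℕ → Fin N → Cf ℝ k n) (h : Fin N → Cf ℝ k n),
      (∀ i, τ i ∈ Ico 0 π) ∧ (∀ x, (Finset.univ.filter fun i => τ i = x).card = c x) ∧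
      (∀ i, Tendsto (fun ν => t ν i) atTop (𝓝 (τ i))) ∧ (∀ᶠ ν in atTop, Simple (t ν)) ∧
      Tendsto H atTop (𝓝 h) ∧
      (∀ᶠ ν in atTop, ∀ u : Matrix (Fin k) (Fin n) ℂ,
        (∀ i, lf (cc (H ν i)) u = 0) ↔ ∀ i, lf (cc (sp k (Γ (s ν)) (t ν) i)) u = 0) ∧
      ∀ u : Matrix (Fin k) (Fin n) ℂ, (∀ i, lf (cc (h i)) u = 0) ↔ Van k (Γ s0) c u := by
  obtain ⟨τ, r, h1, h2, h3⟩ := exists_fib c N hc.2
  have hτ : ∀ i, τ i ∈ Ico 0 π := fun i =>
    hc.1 _ (Finsupp.mem_support_iff.2 (by have := h1 i; omega))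
  obtain ⟨ε, hε, hε0⟩ : ∃ ε : ℕ → ℝ, (∀ ν, 0 < ε ν) ∧ Tendsto ε atTop (𝓝 0) :=
    ⟨fun ν => 1 / ((ν : ℝ) + 1), fun ν => by positivity, tendsto_one_div_add_atTop_nhds_zero_nat⟩
  have htl : ∀ i, Tendsto (fun ν => τ i + ε ν * ((r i : ℝ) + 1)) atTop (𝓝 (τ i)) := by
    intro i
    simpa using tendsto_const_nhds.add (hε0.mul_const ((r i : ℝ) + 1))
  refine ⟨τ, fun ν i => τ i + ε ν * ((r i : ℝ) + 1),
    fun ν i => ∑ j : Fin (r i + 1),
        (∏ i' ∈ Finset.univ.erase j, (ε ν * ((j : ℝ) - (i' : ℝ))))⁻¹ •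
          wf k (Γ (s ν)) (τ i + ε ν * ((j : ℝ) + 1)),
    fun i => ((r i).factorial : ℝ)⁻¹ • pf k (Γ s0) (τ i) (r i), hτ, ?_, htl, ?_, ?_, ?_, ?_⟩
  · intro x
    rw [← Finset.card_range (c x)]
    refine Finset.card_bij (fun i _ => r i) ?_ ?_ ?_
    · intro i hi
      rw [← (Finset.mem_filter.1 hi).2]
      exact Finset.mem_range.2 (h1 i)
    · intro i hi i' hi' h
      exact h3 i i' ((Finset.mem_filter.1 hi).2.trans (Finset.mem_filter.1 hi').2.symm) h
    · intro j hj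
      obtain ⟨i, hi1, hi2⟩ := h2 x j (Finset.mem_range.1 hj)
      exact ⟨i, Finset.mem_filter.2 ⟨Finset.mem_univ i, hi1⟩, hi2⟩
  · have e1 : ∀ᶠ ν in atTop, ∀ i, τ i + ε ν * ((r i : ℝ) + 1) < π :=
      eventually_all.2 fun i => (htl i).eventually_lt_const (hτ i).2
    have e2 : ∀ᶠ ν in atTop, ∀ i i', i ≠ i' →
        τ i + ε ν * ((r i : ℝ) + 1) ≠ τ i' + ε ν * ((r i' : ℝ) + 1) := by
      refine eventually_all.2 fun i => eventually_all.2 fun i' => ?_
      by_cases hii : i = i'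
      · exact Eventually.of_forall fun ν h => absurd hii h
      · by_cases hττ : τ i = τ i'
        · refine Eventually.of_forall fun ν _ h => ?_
          rw [hττ] at h
          have h4 := mul_left_cancel₀ (hε ν).ne' (add_left_cancel h)
          have h5 : ((r i : ℕ) : ℝ) = (r i' : ℕ) := add_right_cancel h4
          exact hii (h3 i i' hττ (by exact_mod_cast h5))
        · have h4 := ((htl i).sub (htl i')).eventually_ne (sub_ne_zero.2 hττ)
          exact h4.mono fun ν hν _ h => hν (sub_eq_zero.2 h)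
    filter_upwards [e1, e2] with ν g1 g2
    refine ⟨fun i i' h => ?_, fun i => ⟨?_, g1 i⟩⟩
    · by_contra hne
      exact g2 i i' hne h
    · have := (hτ i).1
      have h4 : 0 < ε ν * ((r i : ℝ) + 1) := mul_pos (hε ν) (by positivity)
      show 0 < τ i + ε ν * ((r i : ℝ) + 1)
      linarith
  · refine tendsto_pi_nhds.2 fun i => ?_
    exact dd_limit Γ hΓ s s0 hs (τ i) (r i) ε hε hε0
  · refine Eventually.of_forall fun ν u => ?_
    have key : ∀ i, ∀ j : Fin (r i + 1), ∃ i', τ i' = τ i ∧ r i' = j ∧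
        wf k (Γ (s ν)) (τ i + ε ν * ((j : ℝ) + 1)) =
          sp k (Γ (s ν)) (fun i => τ i + ε ν * ((r i : ℝ) + 1)) i' := by
      intro i j
      obtain ⟨i', h4, h5⟩ := h2 (τ i) j (lt_of_lt_of_le j.2 (h1 i))
      refine ⟨i', h4, h5, ?_⟩
      show _ = wf k (Γ (s ν)) (τ i' + ε ν * ((r i' : ℝ) + 1))
      rw [h4, h5]
    have hcoef : ∀ i, ∀ j : Fin (r i + 1),
        (∏ i' ∈ Finset.univ.erase j, (ε ν * ((j : ℝ) - (i' : ℝ))))⁻¹ ≠ 0 := by
      intro i j
      refine inv_ne_zero (Finset.prod_ne_zero_iff.2 fun i' hi' => mul_ne_zero (hε ν).ne' ?_)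
      refine sub_ne_zero.2 fun h => ?_
      have h4 : (j : ℕ) = i' := by exact_mod_cast h
      exact (Finset.mem_erase.1 hi').1 (Fin.ext h4.symm)
    constructor
    · intro hH
      have main : ∀ m : ℕ, ∀ i, r i = m →
          lf (cc (sp k (Γ (s ν)) (fun i => τ i + ε ν * ((r i : ℝ) + 1)) i)) u = 0 := by
        intro m
        induction m using Nat.strong_induction_on with
        | _ m ih =>
          intro i hi
          have hHi := hH i
          rw [lf_cc_sum, Finset.sum_eq_single (Fin.last (r i))] at hHi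
          · have h4 := (mul_eq_zero.1 hHi).resolve_left (by exact_mod_cast hcoef i _)
            obtain ⟨i', h5, h6, h7⟩ := key i (Fin.last (r i))
            rw [h7] at h4
            have h8 : i' = i := h3 i' i h5 h6
            rw [h8] at h4
            exact h4
          · intro j _ hj
            obtain ⟨i', h5, h6, h7⟩ := key i j
            rw [h7, ih j (by
              have h9 : (j : ℕ) ≠ r i := fun h => hj (Fin.ext h)
              have := j.2
              omega) i' h6, mul_zero]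
          · intro h
            exact absurd (Finset.mem_univ _) h
      exact fun i => main _ i rfl
    · intro hs i
      rw [lf_cc_sum]
      refine Finset.sum_eq_zero fun j _ => ?_
      obtain ⟨i', _, _, h7⟩ := key i j
      rw [h7, hs i', mul_zero]
  · intro u
    constructor
    · intro h x j hj
      obtain ⟨i, hi1, hi2⟩ := h2 x j hj
      have h4 := h i
      rw [lf_cc_smul, hi1, hi2] at h4
      refine (mul_eq_zero.1 h4).resolve_left ?_
      have : ((j.factorial : ℝ))⁻¹ ≠ 0 := inv_ne_zero (by exact_mod_cast j.factorial_ne_zero)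
      exact_mod_cast this
    · intro h i
      rw [lf_cc_smul, h (τ i) (r i) (h1 i), mul_zero]

end GTC
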