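import Mathlib

/-!
# GTR : total reality for convex curves, all dimensions : definitions

`u : Matrix (Fin k) (Fin n) K` of full row rank stands for a point of the Grassmannian (its row
space).  A linear form is given by coefficients `c : (Fin k → Fin n) → K`,
`lf c u = ∑ t, c t * det (u.submatrix id t)`.
-/

set_option autoImplicit false

open Matrix Set Real

namespace GTC

/-- coefficients of a linear form on the Grassmannian cone. -/
abbrev Cf (R : Type*) (k n : ℕ) := (Fin k → Fin n) → R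

section Ring

variable {R : Type*} [CommRing R] {k n : ℕ}

/-- the value of the linear form `c` at the matrix `u`. -/
def lf (c : Cf R k n) (u : Matrix (Fin k) (Fin n) R) : R :=
  ∑ t : Fin k → Fin n, c t * (u.submatrix id t).det

/-- the derivative of `lf c` at `u` in the direction `δ`. -/
def dlf (c : Cf R k n) (u δ : Matrix (Fin k) (Fin n) R) : R :=
  ∑ a : Fin k, lf c (u.updateRow a (δ a))

end Ring

/-- full row rank. -/
def FR {K : Type*} [Field K] {k n : ℕ} (u : Matrix (Fin k) (Fin n) K) : Prop :=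
  LinearIndependent K (fun a : Fin k => u a)

/-- `u` is a solution of the problem `h` (a family of linear forms). -/
def IsSol {K : Type*} [Field K] {k n : ℕ} {ι : Type*} (h : ι → Cf K k n)
    (u : Matrix (Fin k) (Fin n) K) : Prop :=
  FR u ∧ ∀ i, lf (h i) u = 0

/-- the row space. -/
def rs {k n : ℕ} (u : Matrix (Fin k) (Fin n) ℂ) : Submodule ℂ (Fin n → ℂ) :=
  Submodule.span ℂ (Set.range fun a : Fin k => u a)

/-- complexification of a real matrix. -/
def cm {k n : ℕ} (u : Matrix (Fin k) (Fin n) ℝ) : Matrix (Fin k) (Fin n) ℂ :=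
  u.map (fun x : ℝ => (x : ℂ))

/-- complexification of a real linear form. -/
def cc {k n : ℕ} (c : Cf ℝ k n) : Cf ℂ k n := fun t => (c t : ℂ)

/-- the set of solutions (row spaces). -/
def Sol {k n : ℕ} {ι : Type*} (h : ι → Cf ℂ k n) : Set (Submodule ℂ (Fin n → ℂ)) :=
  {L | ∃ u, IsSol h u ∧ L = rs u}

/-- an identification of index sets. -/
noncomputable def idx (k l : ℕ) : (Fin (k * l) ⊕ (Fin k × Fin k)) ≃ (Fin k × Fin (k + l)) :=
  Fintype.equivOfCardEq (by simp; ring)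

/-- matrix units. -/
def eb (R : Type*) [CommRing R] {k n : ℕ} (q : Fin k × Fin n) : Matrix (Fin k) (Fin n) R :=
  Matrix.single q.1 q.2 1

/-- the determinant of the linear map `δ ↦ ((dlf (h i) u δ)_i, δ * w)`. -/
noncomputable def JW {R : Type*} [CommRing R] {k l : ℕ} (h : Fin (k * l) → Cf R k (k + l))
    (u : Matrix (Fin k) (Fin (k + l)) R) (w : Matrix (Fin (k + l)) (Fin k) R) : R :=
  (Matrix.of fun p q : Fin (k * l) ⊕ (Fin k × Fin k) =>
    Sum.elim (fun i => dlf (h i) u (eb R (idx k l q)))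
      (fun ab => (eb R (idx k l q) * w) ab.1 ab.2) p).det

/-- the Jacobian of a real problem at `u`. -/
noncomputable def JJ {k l : ℕ} (h : Fin (k * l) → Cf ℝ k (k + l))
    (u : Matrix (Fin k) (Fin (k + l)) ℝ) : ℝ := JW h u uᵀ

/-- the complexified problem. -/
def ch {k n : ℕ} {ι : Type*} (h : ι → Cf ℝ k n) : ι → Cf ℂ k n := fun i => cc (h i)

/-- all solutions are real and nondegenerate and there are exactly `F` of them. -/
structure RR {k l : ℕ} (h : Fin (k * l) → Cf ℝ k (k + l)) (F : ℕ) : Prop where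
  fin : (Sol (ch h)).Finite
  card : (Sol (ch h)).ncard = F
  real : ∀ L ∈ Sol (ch h), ∃ u : Matrix (Fin k) (Fin (k + l)) ℝ, FR u ∧ L = rs (cm u)
  nd : ∀ u : Matrix (Fin k) (Fin (k + l)) ℝ, IsSol h u → JJ h u ≠ 0

/-! ### curves -/

/-- the matrix with columns `γ x, γ' x, ..., γ^(m-1) x`. -/
noncomputable def jet {n : ℕ} (γ : ℝ → Fin n → ℝ) (m : ℕ) (x : ℝ) : Matrix (Fin n) (Fin m) ℝ :=
  Matrix.of fun j b => iteratedDeriv (b : ℕ) γ x j

/-- the linear form `u ↦ det (u * jet γ k x)`. -/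
noncomputable def wf (k : ℕ) {n : ℕ} (γ : ℝ → Fin n → ℝ) (x : ℝ) : Cf ℝ k n :=
  fun t => ∏ a : Fin k, iteratedDeriv (a : ℕ) γ x (t a)

/-- the `j`-th derivative in `x` of the form `wf k γ x`. -/
noncomputable def pf (k : ℕ) {n : ℕ} (γ : ℝ → Fin n → ℝ) (x : ℝ) (j : ℕ) : Cf ℝ k n :=
  iteratedDeriv j (wf k γ) x

/-- nice curves. -/
structure Nice {n : ℕ} (γ : ℝ → Fin n → ℝ) : Prop where
  smooth : ContDiff ℝ (⊤ : ℕ∞) γ
  twist : ∀ x, γ (x + π) = (-1 : ℝ) ^ (n - 1) • γ x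
  indep : ∀ x, (jet γ n x).det ≠ 0

/-- families of nice curves, jointly continuous together with all derivatives in `x`. -/
structure Family {n : ℕ} (Γ : ℝ → ℝ → Fin n → ℝ) : Prop where
  nice : ∀ s, Nice (Γ s)
  cont : ∀ b : ℕ, Continuous fun p : ℝ × ℝ => iteratedDeriv b (Γ p.1) p.2

/-- `W_u` has at most `k l` zeros with multiplicities on the circle, for all real `u`. -/
def GOOD (k l : ℕ) (γ : ℝ → Fin (k + l) → ℝ) : Prop :=
  ∀ u : Matrix (Fin k) (Fin (k + l)) ℝ, FR u → ∀ c : ℝ →₀ ℕ, (∀ x ∈ c.support, x ∈ Ico 0 π) →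
    (∀ x, ∀ j < c x, lf (pf k γ x j) u = 0) → (c.sum fun _ m => m) ≤ k * l

/-- simple problems. -/
def Simple {N : ℕ} (t : Fin N → ℝ) : Prop := Function.Injective t ∧ ∀ i, t i ∈ Ioo 0 π

/-- the linear forms of the simple problem `t`. -/
noncomputable def sp (k : ℕ) {n N : ℕ} (γ : ℝ → Fin n → ℝ) (t : Fin N → ℝ) : Fin N → Cf ℝ k n :=
  fun i => wf k γ (t i)

/-- problems with multiplicities. -/
def Prob (N : ℕ) (c : ℝ →₀ ℕ) : Prop :=
  (∀ x ∈ c.support, x ∈ Ico 0 π) ∧ (c.sum fun _ m => m) = N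

/-- the complex matrix `u` satisfies all conditions of `c`. -/
def Van (k : ℕ) {n : ℕ} (γ : ℝ → Fin n → ℝ) (c : ℝ →₀ ℕ) (u : Matrix (Fin k) (Fin n) ℂ) : Prop :=
  ∀ x, ∀ j < c x, lf (cc (pf k γ x j)) u = 0

/-- the set of solutions of a problem with multiplicities. -/
def SolM (k : ℕ) {n : ℕ} (γ : ℝ → Fin n → ℝ) (c : ℝ →₀ ℕ) : Set (Submodule ℂ (Fin n → ℂ)) :=
  {L | ∃ u, FR u ∧ Van k γ c u ∧ L = rs u}

/-- the order of vanishing of `W_u` at `x` is exactly `m`. -/
def IsOrd (k : ℕ) {n : ℕ} (γ : ℝ → Fin n → ℝ) (u : Matrix (Fin k) (Fin n) ℂ) (x : ℝ) (m : ℕ) :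
    Prop :=
  (∀ j < m, lf (cc (pf k γ x j)) u = 0) ∧ lf (cc (pf k γ x m)) u ≠ 0

/-- parity: every solution of a finite problem is real and has the right parities. -/
def PAR (k l : ℕ) (γ : ℝ → Fin (k + l) → ℝ) : Prop :=
  ∀ c : ℝ →₀ ℕ, Prob (k * l) c → (SolM k γ c).Finite → ∀ u, FR u → Van k γ c u →
    (∃ v : Matrix (Fin k) (Fin (k + l)) ℝ, FR v ∧ rs (cm v) = rs u) ∧
    ∀ x ∈ Ico 0 π, ∀ m, IsOrd k γ u x m → m % 2 = c x % 2

/-- the osculating spaces. -/
def FF {n : ℕ} (γ : ℝ → Fin n → ℝ) (i : ℕ) (x : ℝ) : Submodule ℝ (Fin n → ℝ) :=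
  Submodule.span ℝ (Set.range fun b : Fin i => iteratedDeriv (b : ℕ) γ x)

/-- transversal flags. -/
def Transv {n : ℕ} (γ : ℝ → Fin n → ℝ) (x y : ℝ) : Prop :=
  ∀ i ≤ n, FF γ i x ⊓ FF γ (n - i) y = ⊥

/-- the rational normal curve. -/
noncomputable def rnc (n : ℕ) (x : ℝ) : Fin n → ℝ := fun j => cos x ^ (n - 1 - (j : ℕ)) * sin x ^ (j : ℕ)

/-- words (standard Young tableaux of the `k × l` rectangle, rows counted from below). -/
def IsWord {k l : ℕ} (e : Fin k × Fin l ≃ Fin (k * l)) : Prop :=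
  (∀ a j j', j < j' → e (a, j) < e (a, j')) ∧ ∀ a a' j, a < a' → e (a', j) < e (a, j)

/-- the number of words. -/
noncomputable def FN (k l : ℕ) : ℕ := Nat.card {e : Fin k × Fin l ≃ Fin (k * l) // IsWord e}

end GTC
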