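import Pool.Agent.GTR.Lin

/-!
# GTR Der : the functions `W_u` and their derivatives

PROOFS.
* `lf_wf`: `lf_prod` with `P = jet γ k x`.  `lf_cc_wf`: the same over `ℂ` (`cc` of a product of reals).
* `wf_contDiff`: `iteratedDeriv b γ` is smooth; products of coordinates; `contDiff_pi`.
* `lf_pf`, `lf_cc_pf`: `u` fixed, `c ↦ lf c u` is linear (continuous) in `c`; iterated derivatives
  commute with continuous linear maps (`ContinuousLinearMap.iteratedFDeriv_comp_left` or by induction
  with `iteratedDeriv_succ` and `HasDerivAt`).  For the complex version the linear map is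
  `c ↦ lf (cc c) u`, real linear `Cf ℝ k n → ℂ`.
* `pf_continuous`: call `F : ℝ → ℝ → ℝ` tame if every `F s` is smooth and `(s, x) ↦ iteratedDeriv j (F s) x`
  is continuous for all `j`.  Constants and products of tame functions are tame (Leibniz rule, or:
  show by induction on `j` that for tame `F, G` `iteratedDeriv j (F s * G s)` is a finite sum of products of
  derivatives: `iteratedDeriv_mul`).  The functions `iteratedDeriv a (Γ s) x (t a)` are tame, so is
  their product; the components of `iteratedDeriv j (wf k γ)` are the derivatives of the components.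
* `iter_twist`: `iteratedDeriv b γ (x + π) = iteratedDeriv b (fun y => γ (y + π)) x`
  (`iteratedDeriv_comp_add_const`) `= (-1)^(n-1) • iteratedDeriv b γ x`.
* `pf_twist`: `wf k γ (x + π) = ((-1)^(n-1))^k • wf k γ x`, then as before.
-/

set_option autoImplicit false

open Matrix Real

namespace GTC

variable {k n : ℕ}

private theorem smooth_iter {F : Type*} [NormedAddCommGroup F] [NormedSpace ℝ F] {f : ℝ → F}
    (hf : ContDiff ℝ (⊤ : ℕ∞) f) (j : ℕ) : ContDiff ℝ (⊤ : ℕ∞) (iteratedDeriv j f) := by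
  rw [iteratedDeriv_eq_iterate]
  exact ContDiff.iterate_deriv j hf

private theorem iter_clm {E F : Type*} [NormedAddCommGroup E] [NormedSpace ℝ E]
    [NormedAddCommGroup F] [NormedSpace ℝ F] (L : E →L[ℝ] F) {f : ℝ → E}
    (hf : ContDiff ℝ (⊤ : ℕ∞) f) (j : ℕ) :
    iteratedDeriv j (fun y => L (f y)) = fun y => L (iteratedDeriv j f y) := by
  induction j with
  | zero => simp
  | succ j ih =>
    rw [iteratedDeriv_succ, ih]
    funext y
    rw [iteratedDeriv_succ]
    have h1 : DifferentiableAt ℝ (iteratedDeriv j f) y :=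
      ((smooth_iter hf j).differentiable (by simp)).differentiableAt
    exact (L.hasFDerivAt.comp_hasDerivAt y h1.hasDerivAt).deriv

/-- tame families of functions. -/
private def Tame (F : ℝ → ℝ → ℝ) : Prop :=
  (∀ s, ContDiff ℝ (⊤ : ℕ∞) (F s)) ∧
    ∀ j : ℕ, Continuous fun p : ℝ × ℝ => iteratedDeriv j (F p.1) p.2

private theorem Tame.deriv {F : ℝ → ℝ → ℝ} (h : Tame F) : Tame fun s => deriv (F s) := by
  refine ⟨fun s => ?_, fun j => ?_⟩
  · have h1 := smooth_iter (h.1 s) 1
    rwa [iteratedDeriv_one] at h1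
  · have h1 := h.2 (j + 1)
    simp only [iteratedDeriv_succ'] at h1
    exact h1

private theorem Tame.mul_aux (j : ℕ) : ∀ F G : ℝ → ℝ → ℝ, Tame F → Tame G →
    Continuous fun p : ℝ × ℝ => iteratedDeriv j (fun y => F p.1 y * G p.1 y) p.2 := by
  induction j with
  | zero =>
    intro F G hF hG
    have h1 := hF.2 0
    have h2 := hG.2 0
    simp only [iteratedDeriv_zero] at h1 h2 ⊢
    exact h1.mul h2
  | succ j ih =>
    intro F G hF hG
    have h1 := (ih _ _ hF.deriv hG).add (ih _ _ hF hG.deriv)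
    refine h1.congr fun p => ?_
    have h3 : _root_.deriv (fun y => F p.1 y * G p.1 y)
        = (fun y => _root_.deriv (F p.1) y * G p.1 y) + fun y => F p.1 y * _root_.deriv (G p.1) y := by
      funext y
      have e1 : DifferentiableAt ℝ (F p.1) y :=
        ((hF.1 p.1).differentiable (by simp)).differentiableAt
      have e2 : DifferentiableAt ℝ (G p.1) y :=
        ((hG.1 p.1).differentiable (by simp)).differentiableAt
      exact (e1.hasDerivAt.mul e2.hasDerivAt).deriv
    have a1 : ContDiff ℝ (⊤ : ℕ∞) fun y => _root_.deriv (F p.1) y * G p.1 y :=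
      (hF.deriv.1 p.1).mul (hG.1 p.1)
    have a2 : ContDiff ℝ (⊤ : ℕ∞) fun y => F p.1 y * _root_.deriv (G p.1) y :=
      (hF.1 p.1).mul (hG.deriv.1 p.1)
    rw [iteratedDeriv_succ', h3]
    refine (iteratedDeriv_add ?_ ?_).symm
    · exact (a1.of_le (by exact_mod_cast le_top)).contDiffAt
    · exact (a2.of_le (by exact_mod_cast le_top)).contDiffAt

private theorem Tame.mul {F G : ℝ → ℝ → ℝ} (hF : Tame F) (hG : Tame G) :
    Tame fun s y => F s y * G s y :=
  ⟨fun s => (hF.1 s).mul (hG.1 s), fun j => Tame.mul_aux j F G hF hG⟩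

private theorem Tame.one : Tame fun _ _ => 1 := by
  refine ⟨fun s => contDiff_const, fun j => ?_⟩
  simp only [iteratedDeriv_const]
  split_ifs <;> exact continuous_const

private theorem Tame.prod {ι : Type*} (s : Finset ι) (F : ι → ℝ → ℝ → ℝ) (h : ∀ i, Tame (F i)) :
    Tame fun r y => ∏ i ∈ s, F i r y := by
  classical
  induction s using Finset.induction_on with
  | empty =>
    simp only [Finset.prod_empty]
    exact Tame.one
  | insert i s hi ih =>
    simp only [Finset.prod_insert hi]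
    exact (h i).mul ih

/-- the form as a continuous linear map in the coefficients. -/
private noncomputable def lfL (u : Matrix (Fin k) (Fin n) ℝ) : Cf ℝ k n →L[ℝ] ℝ :=
  LinearMap.toContinuousLinearMap
    { toFun := fun c => lf c u
      map_add' := fun c d => by
        simp only [lf, Pi.add_apply, add_mul, Finset.sum_add_distrib]
      map_smul' := fun r c => by
        simp only [lf, Pi.smul_apply, smul_eq_mul, Finset.mul_sum, mul_assoc, RingHom.id_apply] }

private theorem lfL_apply (u : Matrix (Fin k) (Fin n) ℝ) (c : Cf ℝ k n) : lfL u c = lf c u := rfl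

private noncomputable def lfC (u : Matrix (Fin k) (Fin n) ℂ) : Cf ℝ k n →L[ℝ] ℂ :=
  LinearMap.toContinuousLinearMap
    { toFun := fun c => lf (cc c) u
      map_add' := fun c d => by
        simp only [lf, cc, Pi.add_apply, Complex.ofReal_add, add_mul, Finset.sum_add_distrib]
      map_smul' := fun r c => by
        simp only [lf, cc, Pi.smul_apply, smul_eq_mul, Complex.ofReal_mul, Finset.mul_sum, mul_assoc,
          RingHom.id_apply, Complex.real_smul] }

private theorem lfC_apply (u : Matrix (Fin k) (Fin n) ℂ) (c : Cf ℝ k n) :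
    lfC u c = lf (cc c) u := rfl

theorem lf_wf (γ : ℝ → Fin n → ℝ) (x : ℝ) (u : Matrix (Fin k) (Fin n) ℝ) :
    lf (wf k γ x) u = (u * jet γ k x).det := by
  rw [← lf_prod (jet γ k x) u]
  rfl

theorem lf_cc_wf (γ : ℝ → Fin n → ℝ) (x : ℝ) (u : Matrix (Fin k) (Fin n) ℂ) :
    lf (cc (wf k γ x)) u = (u * cm (jet γ k x)).det := by
  rw [← lf_prod (cm (jet γ k x)) u]
  congr 1
  funext t
  simp [cc, wf, cm, jet]

theorem wf_contDiff {γ : ℝ → Fin n → ℝ} (hγ : ContDiff ℝ (⊤ : ℕ∞) γ) :
    ContDiff ℝ (⊤ : ℕ∞) (wf k γ) := by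
  refine contDiff_pi.2 fun t => ?_
  refine contDiff_prod fun a _ => ?_
  exact contDiff_pi.1 (smooth_iter hγ (a : ℕ)) (t a)

theorem W_contDiff {γ : ℝ → Fin n → ℝ} (hγ : ContDiff ℝ (⊤ : ℕ∞) γ)
    (u : Matrix (Fin k) (Fin n) ℝ) : ContDiff ℝ (⊤ : ℕ∞) (fun y => lf (wf k γ y) u) :=
  (lfL u).contDiff.comp (wf_contDiff hγ)

theorem Wc_contDiff {γ : ℝ → Fin n → ℝ} (hγ : ContDiff ℝ (⊤ : ℕ∞) γ)
    (u : Matrix (Fin k) (Fin n) ℂ) : ContDiff ℝ (⊤ : ℕ∞) (fun y => lf (cc (wf k γ y)) u) :=
  (lfC u).contDiff.comp (wf_contDiff hγ)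

theorem lf_pf {γ : ℝ → Fin n → ℝ} (hγ : ContDiff ℝ (⊤ : ℕ∞) γ) (x : ℝ) (j : ℕ)
    (u : Matrix (Fin k) (Fin n) ℝ) :
    lf (pf k γ x j) u = iteratedDeriv j (fun y => lf (wf k γ y) u) x :=
  (congrFun (iter_clm (lfL u) (wf_contDiff (k := k) hγ) j) x).symm

theorem lf_cc_pf {γ : ℝ → Fin n → ℝ} (hγ : ContDiff ℝ (⊤ : ℕ∞) γ) (x : ℝ) (j : ℕ)
    (u : Matrix (Fin k) (Fin n) ℂ) :
    lf (cc (pf k γ x j)) u = iteratedDeriv j (fun y : ℝ => lf (cc (wf k γ y)) u) x :=
  (congrFun (iter_clm (lfC u) (wf_contDiff (k := k) hγ) j) x).symm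

theorem pf_zero (γ : ℝ → Fin n → ℝ) (x : ℝ) : pf k γ x 0 = wf k γ x := by
  simp [pf]

theorem pf_continuous {Γ : ℝ → ℝ → Fin n → ℝ} (hΓ : Family Γ) (j : ℕ) :
    Continuous fun p : ℝ × ℝ => pf k (Γ p.1) p.2 j := by
  refine continuous_pi fun t => ?_
  have hT : ∀ (b : ℕ) (i : Fin n), Tame fun s y => iteratedDeriv b (Γ s) y i := by
    intro b i
    have hit : ∀ (j : ℕ) (s : ℝ), iteratedDeriv j (fun y => iteratedDeriv b (Γ s) y i)
        = fun y => iteratedDeriv (j + b) (Γ s) y i := by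
      intro j s
      have h1 := iter_clm (ContinuousLinearMap.proj (R := ℝ) (φ := fun _ : Fin n => ℝ) i)
        (smooth_iter (hΓ.nice s).smooth b) j
      refine h1.trans ?_
      funext y
      rw [iteratedDeriv_eq_iterate, iteratedDeriv_eq_iterate, iteratedDeriv_eq_iterate,
        ← Function.iterate_add_apply]
      rfl
    refine ⟨fun s => contDiff_pi.1 (smooth_iter (hΓ.nice s).smooth b) i, fun j => ?_⟩
    simp only [hit]
    exact (continuous_apply i).comp (hΓ.cont (j + b))
  have h2 := (Tame.prod (Finset.univ : Finset (Fin k))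
    (fun a s y => iteratedDeriv (a : ℕ) (Γ s) y (t a)) (fun a => hT a (t a))).2 j
  refine h2.congr fun p => ?_
  have h3 := iter_clm (ContinuousLinearMap.proj (R := ℝ) (φ := fun _ : Fin k → Fin n => ℝ) t)
    (wf_contDiff (k := k) (hΓ.nice p.1).smooth) j
  exact congrFun h3 p.2

theorem iter_twist {γ : ℝ → Fin n → ℝ} (hγ : Nice γ) (b : ℕ) (x : ℝ) :
    iteratedDeriv b γ (x + π) = (-1 : ℝ) ^ (n - 1) • iteratedDeriv b γ x := by
  have h1 : iteratedDeriv b (fun y => γ (y + π)) = fun y => iteratedDeriv b γ (y + π) :=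
    iteratedDeriv_comp_add_const b γ π
  have h2 : (fun y => γ (y + π)) = fun y => (-1 : ℝ) ^ (n - 1) • γ y := funext hγ.twist
  have h3 := iter_clm (((-1 : ℝ) ^ (n - 1)) • ContinuousLinearMap.id ℝ (Fin n → ℝ)) hγ.smooth b
  have h4 := congrFun h1 x
  rw [h2] at h4
  rw [← h4]
  exact congrFun h3 x

theorem pf_twist {γ : ℝ → Fin n → ℝ} (hγ : Nice γ) (x : ℝ) (j : ℕ) :
    pf k γ (x + π) j = (((-1 : ℝ) ^ (n - 1)) ^ k) • pf k γ x j := by
  have h0 : ∀ y, wf k γ (y + π) = (((-1 : ℝ) ^ (n - 1)) ^ k) • wf k γ y := by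
    intro y
    funext t
    simp only [wf, Pi.smul_apply, smul_eq_mul, iter_twist hγ, Finset.prod_mul_distrib,
      Finset.prod_const, Finset.card_univ, Fintype.card_fin]
  have h1 : iteratedDeriv j (fun y => wf k γ (y + π)) = fun y => iteratedDeriv j (wf k γ) (y + π) :=
    iteratedDeriv_comp_add_const j (wf k γ) π
  have h2 : (fun y => wf k γ (y + π)) = fun y => (((-1 : ℝ) ^ (n - 1)) ^ k) • wf k γ y :=
    funext h0
  have h3 := iter_clm ((((-1 : ℝ) ^ (n - 1)) ^ k) • ContinuousLinearMap.id ℝ (Cf ℝ k n))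
    (wf_contDiff (k := k) hγ.smooth) j
  have h4 := congrFun h1 x
  rw [h2] at h4
  unfold pf
  rw [← h4]
  exact congrFun h3 x

end GTC
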