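import Pool.Agent.GTR.Frk

/-!
# GTR Ech : echelon form adapted to a flag of columns

PROOF.  For `i ≤ n` let `L_i = {x | x ᵥ* A vanishes in the columns < i}`, a decreasing chain of subspaces of
`Fin k → K`, `L_0 = everything`, `L_n = 0` (`FR A`), `dim L_i - dim L_(i+1) ≤ 1`.  The jumps: there are
exactly `k` indices `d 0 < … < d (k-1)` with `L_(d a + 1) ≠ L_(d a)`.  Choose `g a ∈ L_(d a)`,
`g a ∉ L_(d a + 1)`: then `(g A) a j = 0` for `j < d a`, `≠ 0` for `j = d a`; the rows `g a` are
independent (the matrix `g A` restricted to the columns `d 0, …, d (k-1)` is triangular with nonzero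
diagonal), so `det g ≠ 0`.  The rank of the first `i` columns of `A` is that of the first `i` columns of
`g A`: the rows with `d a ≥ i` vanish there, the rows with `d a < i` are independent there
(triangular), so the rank is `#{a | d a < i}`.
(Alternatively: induction on `n`.)
-/

set_option autoImplicit false

open Matrix

namespace GTC

private theorem tri_indep {K : Type*} [Field K] {ι : Type*} [Fintype ι] {m : ℕ}
    (B : ι → Fin m → K) (d : ι → Fin m) (hd : Function.Injective d)
    (h0 : ∀ a j, j < d a → B a j = 0) (h1 : ∀ a, B a (d a) ≠ 0) : LinearIndependent K B := by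
  rw [Fintype.linearIndependent_iff]
  intro c hc
  have key : ∀ n : ℕ, ∀ a, ((d a : Fin m) : ℕ) = n → c a = 0 := by
    intro n
    induction n using Nat.strong_induction_on with
    | _ n ih =>
      intro a ha
      have h2 := congrFun hc (d a)
      rw [Finset.sum_apply, Finset.sum_eq_single a] at h2
      · rw [Pi.smul_apply, smul_eq_mul, Pi.zero_apply] at h2
        exact (mul_eq_zero.1 h2).resolve_right (h1 a)
      · intro b _ hb
        rw [Pi.smul_apply, smul_eq_mul]
        rcases lt_trichotomy (d b) (d a) with h3 | h3 | h3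
        · have h4 : ((d b : Fin m) : ℕ) < d a := h3
          rw [ih _ (by omega) b rfl, zero_mul]
        · exact absurd (hd h3) hb
        · rw [h0 b _ h3, mul_zero]
      · intro h
        exact absurd (Finset.mem_univ a) h
  exact fun a => key _ a rfl

theorem echelon {K : Type*} [Field K] {k n : ℕ} (A : Matrix (Fin k) (Fin n) K) (hA : FR A) :
    ∃ (g : Matrix (Fin k) (Fin k) K) (d : Fin k → Fin n), g.det ≠ 0 ∧ StrictMono d ∧
      (∀ a j, j < d a → (g * A) a j = 0) ∧ (∀ a, (g * A) a (d a) ≠ 0) ∧
      ∀ (i : ℕ) (hi : i ≤ n), (A.submatrix id (Fin.castLE hi)).rank =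
        (Finset.univ.filter fun a => (d a : ℕ) < i).card := by
  classical
  have hinj : Function.Injective A.vecMul := Matrix.vecMul_injective_iff.2 hA
  have hP : ∀ x : Fin k → K, x ≠ 0 → ∃ j, (∀ i, i < j → (x ᵥ* A) i = 0) ∧ (x ᵥ* A) j ≠ 0 := by
    intro x hx
    have h1 : ∃ j, (x ᵥ* A) j ≠ 0 := by
      by_contra h
      push Not at h
      apply hx
      apply hinj
      change x ᵥ* A = (0 : Fin k → K) ᵥ* A
      rw [Matrix.zero_vecMul]
      exact funext h
    obtain ⟨j, hj, hmin⟩ := wellFounded_lt.has_min {j | (x ᵥ* A) j ≠ 0} h1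
    refine ⟨j, fun i hi => ?_, hj⟩
    by_contra h
    exact hmin i h hi
  let D : Finset (Fin n) := Finset.univ.filter fun j =>
    ∃ x : Fin k → K, (∀ i, i < j → (x ᵥ* A) i = 0) ∧ (x ᵥ* A) j ≠ 0
  have hX : ∀ j : D, ∃ x : Fin k → K, (∀ i, i < j.1 → (x ᵥ* A) i = 0) ∧ (x ᵥ* A) j.1 ≠ 0 :=
    fun j => (Finset.mem_filter.1 j.2).2
  choose X hX0 hX1 using hX
  have hXA : LinearIndependent K (fun j : D => X j ᵥ* A) :=
    tri_indep (fun j : D => X j ᵥ* A) (fun j => j.1) Subtype.val_injective hX0 hX1
  have hXi : LinearIndependent K X := LinearIndependent.of_comp A.vecMulLinear hXA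
  have hcard : D.card = k := by
    apply le_antisymm
    · have h1 := hXi.fintype_card_le_finrank
      rwa [Fintype.card_coe, Module.finrank_fin_fun] at h1
    · have h1 : Function.Injective
          ((LinearMap.funLeft K K (fun j : D => j.1)).comp A.vecMulLinear) := by
        rw [← LinearMap.ker_eq_bot, LinearMap.ker_eq_bot']
        intro x hx
        by_contra hne
        obtain ⟨j, hj0, hj1⟩ := hP x hne
        have hjD : j ∈ D := Finset.mem_filter.2 ⟨Finset.mem_univ j, x, hj0, hj1⟩
        exact hj1 (congrFun hx ⟨j, hjD⟩)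
      have h2 := LinearMap.finrank_le_finrank_of_injective h1
      rwa [Module.finrank_fin_fun, Module.finrank_fintype_fun_eq_card, Fintype.card_coe] at h2
  let e : Fin k ↪o Fin n := D.orderEmbOfFin hcard
  have he : ∀ a, e a ∈ D := fun a => D.orderEmbOfFin_mem hcard a
  let g : Matrix (Fin k) (Fin k) K := Matrix.of fun a => X ⟨e a, he a⟩
  have hgA : ∀ a j, (g * A) a j = (X ⟨e a, he a⟩ ᵥ* A) j := fun a j => rfl
  have hdet : g.det ≠ 0 := by
    have h1 : LinearIndependent K g.row := by
      refine hXi.comp (fun a : Fin k => (⟨e a, he a⟩ : D)) ?_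
      intro a b hab
      exact e.injective (congrArg Subtype.val hab)
    rw [Matrix.linearIndependent_rows_iff_isUnit, Matrix.isUnit_iff_isUnit_det] at h1
    exact h1.ne_zero
  refine ⟨g, e, hdet, e.strictMono, fun a j hj => ?_, fun a => ?_, fun i hi => ?_⟩
  · rw [hgA]
    exact hX0 ⟨e a, he a⟩ j hj
  · rw [hgA]
    exact hX1 ⟨e a, he a⟩
  · have h1 : (A.submatrix id (Fin.castLE hi)).rank =
        ((g * A).submatrix id (Fin.castLE hi)).rank := by
      have h2 : (g * A).submatrix id (Fin.castLE hi) = g * A.submatrix id (Fin.castLE hi) := rfl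
      rw [h2, Matrix.rank_mul_eq_right_of_isUnit_det g _ (isUnit_iff_ne_zero.2 hdet)]
    have h3 : LinearIndependent K (fun a : {a : Fin k // ((e a : Fin n) : ℕ) < i} =>
        ((g * A).submatrix id (Fin.castLE hi)) a.1) := by
      refine tri_indep _ (fun a => (⟨e a.1, a.2⟩ : Fin i)) ?_ ?_ ?_
      · intro a b hab
        have h4 : ((e a.1 : Fin n) : ℕ) = e b.1 := congrArg (fun z : Fin i => (z : ℕ)) hab
        exact Subtype.ext (e.injective (Fin.ext h4))
      · intro a j hj
        exact hX0 ⟨e a.1, he a.1⟩ (Fin.castLE hi j) hj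
      · intro a
        exact hX1 ⟨e a.1, he a.1⟩
    have h5 : Submodule.span K (Set.range ((g * A).submatrix id (Fin.castLE hi)).row) =
        Submodule.span K (Set.range (fun a : {a : Fin k // ((e a : Fin n) : ℕ) < i} =>
          ((g * A).submatrix id (Fin.castLE hi)) a.1)) := by
      apply le_antisymm
      · rw [Submodule.span_le]
        rintro _ ⟨a, rfl⟩
        by_cases ha : ((e a : Fin n) : ℕ) < i
        · exact Submodule.subset_span ⟨⟨a, ha⟩, rfl⟩
        · have h6 : ((g * A).submatrix id (Fin.castLE hi)).row a = 0 := by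
            funext j
            refine hX0 ⟨e a, he a⟩ (Fin.castLE hi j) ?_
            have h7 := j.2
            change (j : ℕ) < ((e a : Fin n) : ℕ)
            omega
          rw [h6]
          exact zero_mem _
      · refine Submodule.span_mono ?_
        rintro _ ⟨a, rfl⟩
        exact ⟨a.1, rfl⟩
    rw [h1, Matrix.rank_eq_finrank_span_row, h5, finrank_span_eq_card h3,
      Fintype.card_subtype]

end GTC
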