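import Pool.Agent.GTR.Frk
import Pool.Agent.GTR.Der
import Pool.Agent.GTR.Cl.Eps

/-!
# GTR EpsU : the path of a real solution (4.1)
-/

set_option autoImplicit false

open Matrix Topology Filter Set Real

namespace GTC

open Pool.GTR (GP eps stdF IsGS isGS_std eps_tendsto)

/-- the columns `u γ^(j) (x)`, `j < k - 1`. -/
noncomputable def pth {m n : ℕ} (γ : ℝ → Fin n → ℝ) (u : Matrix (Fin (m + 1)) (Fin n) ℝ)
    (x : ℝ) : Fin m → Fin (m + 1) → ℝ :=
  fun j => u *ᵥ iteratedDeriv (j : ℕ) γ x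

section smooth

variable {n : ℕ} {γ : ℝ → Fin n → ℝ}

theorem hasDerivAt_iter (h : ContDiff ℝ (⊤ : ℕ∞) γ) (b : ℕ) (x : ℝ) :
    HasDerivAt (iteratedDeriv b γ) (iteratedDeriv (b + 1) γ x) x := by
  have h1 : Differentiable ℝ (iteratedDeriv b γ) :=
    h.differentiable_iteratedDeriv b (by exact_mod_cast ENat.natCast_lt_top b)
  rw [iteratedDeriv_succ]
  exact (h1 x).hasDerivAt

theorem continuous_iter (h : ContDiff ℝ (⊤ : ℕ∞) γ) (b : ℕ) :
    Continuous (iteratedDeriv b γ) :=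
  h.continuous_iteratedDeriv b (by exact_mod_cast le_top)

theorem hasDerivAt_wf (k : ℕ) (h : ContDiff ℝ (⊤ : ℕ∞) γ) (x : ℝ) :
    HasDerivAt (wf k γ) (fun t => ∑ a : Fin k, ∏ b : Fin k,
      ((jet γ k x).updateCol a (iteratedDeriv ((a : ℕ) + 1) γ x)) (t b) b) x := by
  refine hasDerivAt_pi.2 fun t => ?_
  have h1 : HasDerivAt (fun y => ∏ a : Fin k, iteratedDeriv (a : ℕ) γ y (t a))
      (∑ a : Fin k, (∏ b ∈ Finset.univ.erase a, iteratedDeriv (b : ℕ) γ x (t b)) •
        iteratedDeriv ((a : ℕ) + 1) γ x (t a)) x :=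
    HasDerivAt.fun_finsetProd fun a _ => hasDerivAt_pi.1 (hasDerivAt_iter h a x) (t a)
  have h2 : (∑ a : Fin k, (∏ b ∈ Finset.univ.erase a, iteratedDeriv (b : ℕ) γ x (t b)) •
        iteratedDeriv ((a : ℕ) + 1) γ x (t a)) = ∑ a : Fin k, ∏ b : Fin k,
      ((jet γ k x).updateCol a (iteratedDeriv ((a : ℕ) + 1) γ x)) (t b) b := by
    refine Finset.sum_congr rfl fun a _ => ?_
    rw [← Finset.prod_erase_mul _ _ (Finset.mem_univ a), smul_eq_mul, updateCol_self]
    congr 1
    refine Finset.prod_congr rfl fun b hb => ?_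
    rw [updateCol_ne (Finset.ne_of_mem_erase hb)]
    rfl
  rw [h2] at h1
  exact h1

theorem lf_pf_one (k : ℕ) (h : ContDiff ℝ (⊤ : ℕ∞) γ) (x : ℝ) (u : Matrix (Fin k) (Fin n) ℝ) :
    lf (pf k γ x 1) u =
      ∑ a : Fin k, (u * (jet γ k x).updateCol a (iteratedDeriv ((a : ℕ) + 1) γ x)).det := by
  have h1 : pf k γ x 1 = fun t => ∑ a : Fin k, 1 * ∏ b : Fin k,
      ((jet γ k x).updateCol a (iteratedDeriv ((a : ℕ) + 1) γ x)) (t b) b := by
    unfold pf
    rw [iteratedDeriv_one, (hasDerivAt_wf k h x).deriv]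
    funext t
    refine Finset.sum_congr rfl fun a _ => (one_mul _).symm
  rw [h1, lf_comb Finset.univ (fun _ => (1 : ℝ)) (fun a t => ∏ b : Fin k,
      ((jet γ k x).updateCol a (iteratedDeriv ((a : ℕ) + 1) γ x)) (t b) b) u]
  refine Finset.sum_congr rfl fun a _ => ?_
  rw [one_mul, lf_prod]

/-- if the first `k - 1` columns are dependent then `W_u` has a double zero. -/
theorem double_zero {m : ℕ} (h : ContDiff ℝ (⊤ : ℕ∞) γ) (x : ℝ)
    (u : Matrix (Fin (m + 1)) (Fin n) ℝ) (hdep : ¬ LinearIndependent ℝ (pth γ u x)) :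
    lf (wf (m + 1) γ x) u = 0 ∧ lf (pf (m + 1) γ x 1) u = 0 := by
  rw [Fintype.not_linearIndependent_iff] at hdep
  obtain ⟨g, hg, j0, hj0⟩ := hdep
  -- a determinant whose first columns are `pth γ u x` vanishes
  have key : ∀ M : Matrix (Fin (m + 1)) (Fin (m + 1)) ℝ,
      (∀ (i : Fin (m + 1)) (j : Fin m), M i j.castSucc = pth γ u x j i) → M.det = 0 := by
    intro M hM
    refine Matrix.exists_mulVec_eq_zero_iff.1 ⟨Fin.snoc g 0, ?_, ?_⟩
    · intro h0
      have := congrFun h0 j0.castSucc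
      rw [Fin.snoc_castSucc] at this
      exact hj0 this
    · funext i
      rw [mulVec, dotProduct, Fin.sum_univ_castSucc, Fin.snoc_last, mul_zero, add_zero]
      have h1 := congrFun hg i
      rw [Finset.sum_apply] at h1
      rw [← h1]
      refine Finset.sum_congr rfl fun j _ => ?_
      rw [Fin.snoc_castSucc, hM, mul_comm]
      rfl
  constructor
  · rw [lf_wf]
    exact key _ fun i j => rfl
  · rw [lf_pf_one _ h]
    refine Finset.sum_eq_zero fun a _ => ?_
    refine Fin.lastCases ?_ (fun j => ?_) a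
    · refine key _ fun i j => ?_
      rw [mul_apply]
      show _ = ∑ s, u i s * iteratedDeriv (j : ℕ) γ x s
      refine Finset.sum_congr rfl fun s _ => ?_
      rw [updateCol_ne (Fin.castSucc_lt_last j).ne]
      rfl
    · refine Matrix.det_zero_of_column_eq (i := j.castSucc) (j := j.succ) ?_ fun i => ?_
      · exact (Fin.castSucc_lt_succ).ne
      · rw [mul_apply, mul_apply]
        refine Finset.sum_congr rfl fun s _ => ?_
        rw [updateCol_self, updateCol_ne (Fin.castSucc_lt_succ).ne']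
        rfl

end smooth

/-- a solution of a simple problem has no further zeros. -/
theorem good_extra {k l : ℕ} {γ : ℝ → Fin (k + l) → ℝ} (hG : GOOD k l γ)
    {t : Fin (k * l) → ℝ} (ht : Simple t) {u : Matrix (Fin k) (Fin (k + l)) ℝ}
    (hu : IsSol (sp k γ t) u) {x : ℝ} (hx : x ∈ Ico 0 π) (h0 : lf (wf k γ x) u = 0)
    (h1 : lf (pf k γ x 1) u = 0 ∨ ∀ i, t i ≠ x) : False := by
  classical
  obtain ⟨c, hc⟩ : ∃ c : ℝ →₀ ℕ, c = ∑ i, Finsupp.single (t i) 1 + Finsupp.single x 1 :=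
    ⟨_, rfl⟩
  have hcv : ∀ y, c y = (Finset.univ.filter fun i => t i = y).card + if x = y then 1 else 0 := by
    intro y
    rw [hc, Finsupp.add_apply, Finsupp.finsetSum_apply, Finsupp.single_apply]
    congr 1
    rw [Finset.card_filter]
    refine Finset.sum_congr rfl fun i _ => ?_
    rw [Finsupp.single_apply]
  have hle : ∀ y, (Finset.univ.filter fun i => t i = y).card ≤ 1 := by
    intro y
    rw [Finset.card_le_one]
    intro a ha b hb
    rw [Finset.mem_filter] at ha hb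
    exact ht.1 (ha.2.trans hb.2.symm)
  have hsum : (c.sum fun _ m => m) = k * l + 1 := by
    have e1 : ∀ a : ℝ →₀ ℕ, (a.sum fun _ m => m) = a.degree := fun a => rfl
    rw [e1, hc, map_add, map_sum]
    simp
  have := hG u hu.1 c (fun y hy => ?_) (fun y j hj => ?_)
  · omega
  · rw [Finsupp.mem_support_iff, hcv] at hy
    by_cases hxy : x = y
    · rw [← hxy]
      exact hx
    · rw [if_neg hxy, add_zero] at hy
      obtain ⟨i, hi⟩ := Finset.card_ne_zero.1 hy
      rw [Finset.mem_filter] at hi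
      rw [← hi.2]
      exact ⟨(ht.2 i).1.le, (ht.2 i).2⟩
  · have hW : ∀ i, lf (wf k γ (t i)) u = 0 := hu.2
    rw [hcv] at hj
    have h2 := hle y
    by_cases hxy : x = y
    · rw [if_pos hxy] at hj
      rcases Nat.eq_zero_or_pos j with h3 | h3
      · rw [h3, pf_zero, ← hxy]
        exact h0
      · have h4 : j = 1 := by omega
        rcases h1 with h1 | h1
        · rw [h4, ← hxy]
          exact h1
        · exfalso
          have h5 : (Finset.univ.filter fun i => t i = y) = ∅ := by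
            rw [Finset.filter_eq_empty_iff]
            intro i _ hi
            exact h1 i (hi.trans hxy.symm)
          rw [h5, Finset.card_empty] at hj
          omega
    · rw [if_neg hxy, add_zero] at hj
      have h4 : j = 0 := by omega
      obtain ⟨i, hi⟩ := Finset.card_pos.1 (by omega : 0 < (Finset.univ.filter fun i => t i = y).card)
      rw [Finset.mem_filter] at hi
      rw [h4, pf_zero, ← hi.2]
      exact hW i

/-- the Wronskian of a solution does not vanish at `0`. -/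
theorem wf_zero_ne {k l : ℕ} {γ : ℝ → Fin (k + l) → ℝ} (hG : GOOD k l γ)
    {t : Fin (k * l) → ℝ} (ht : Simple t) {u : Matrix (Fin k) (Fin (k + l)) ℝ}
    (hu : IsSol (sp k γ t) u) : (u * jet γ k 0).det ≠ 0 := by
  intro h0
  refine good_extra hG ht hu (x := 0) ⟨le_rfl, pi_pos⟩ ?_ (Or.inr fun i => (ht.2 i).1.ne')
  rw [lf_wf, h0]

theorem pth_li {m l : ℕ} {γ : ℝ → Fin (m + 1 + l) → ℝ} (hγ : Nice γ) (hG : GOOD (m + 1) l γ)
    {t : Fin ((m + 1) * l) → ℝ} (ht : Simple t) {u : Matrix (Fin (m + 1)) (Fin (m + 1 + l)) ℝ}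
    (hu : IsSol (sp (m + 1) γ t) u) {x : ℝ} (hx : x ∈ Ico 0 π) :
    LinearIndependent ℝ (pth γ u x) := by
  by_contra h
  obtain ⟨h1, h2⟩ := double_zero hγ.smooth x u h
  exact good_extra hG ht hu hx h1 (Or.inl h2)

theorem pth_pi {m n : ℕ} {γ : ℝ → Fin n → ℝ} (hγ : Nice γ)
    (u : Matrix (Fin (m + 1)) (Fin n) ℝ) :
    pth γ u π = pth γ u 0 ∨ pth γ u π = -pth γ u 0 := by
  have h1 : pth γ u π = (-1 : ℝ) ^ (n - 1) • pth γ u 0 := by
    funext j
    have h2 := iter_twist hγ j 0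
    rw [zero_add] at h2
    show u *ᵥ iteratedDeriv (j : ℕ) γ π = (-1 : ℝ) ^ (n - 1) • (u *ᵥ iteratedDeriv (j : ℕ) γ 0)
    rw [h2, mulVec_smul]
  rcases neg_one_pow_eq_or ℝ (n - 1) with h2 | h2
  · left
    rw [h1, h2, one_smul]
  · right
    rw [h1, h2, neg_one_smul]

theorem pth_continuous {m n : ℕ} {γ : ℝ → Fin n → ℝ} (hγ : Nice γ)
    (u : Matrix (Fin (m + 1)) (Fin n) ℝ) : Continuous (pth γ u) := by
  refine continuous_pi fun j => ?_
  exact Continuous.matrix_mulVec continuous_const (continuous_iter hγ.smooth j)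

/-- (4.1) -/
theorem gp_pth {m l : ℕ} {γ : ℝ → Fin (m + 1 + l) → ℝ} (hγ : Nice γ) (hG : GOOD (m + 1) l γ)
    {t : Fin ((m + 1) * l) → ℝ} (ht : Simple t) {u : Matrix (Fin (m + 1)) (Fin (m + 1 + l)) ℝ}
    (hu : IsSol (sp (m + 1) γ t) u) (h0 : u * jet γ (m + 1) 0 = 1) : GP (pth γ u) := by
  have hstd : IsGS (pth γ u 0) stdF := by
    have h1 : ∀ (j : Fin m) (a : Fin (m + 1)), pth γ u 0 j a =
        (1 : Matrix (Fin (m + 1)) (Fin (m + 1)) ℝ) a j.castSucc := by
      intro j a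
      rw [← h0]
      rfl
    refine isGS_std (fun j => ?_) fun j i hij => ?_
    · rw [h1, Matrix.one_apply_eq]
      exact zero_lt_one
    · rw [h1, Matrix.one_apply_ne hij.ne']
  refine ⟨(pth_continuous hγ u).continuousOn, fun x hx => ?_, hstd, ?_⟩
  · rcases hx.2.eq_or_lt with h | h
    · rw [h]
      have h1 := pth_li hγ hG ht hu (x := 0) ⟨le_rfl, pi_pos⟩
      rcases pth_pi hγ u with h2 | h2
      · rw [h2]
        exact h1
      · rw [h2]
        exact h1.neg
    · exact pth_li hγ hG ht hu ⟨hx.1, h⟩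
  · rcases pth_pi hγ u with h2 | h2
    · left
      rw [h2]
      exact hstd
    · right
      rw [h2]
      exact hstd.neg

/-- local constancy of the sign -/
theorem eps_pth_tendsto {ι : Type*} {L : Filter ι} {m n : ℕ} {Γ : ℝ → ℝ → Fin n → ℝ}
    (hΓ : Family Γ) {s : ι → ℝ} {s0 : ℝ} {u : ι → Matrix (Fin (m + 1)) (Fin n) ℝ}
    {u0 : Matrix (Fin (m + 1)) (Fin n) ℝ} (hs : Tendsto s L (𝓝 s0)) (hu : Tendsto u L (𝓝 u0))
    (hgp : ∀ᶠ ν in L, GP (pth (Γ (s ν)) (u ν))) (h0 : GP (pth (Γ s0) u0)) :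
    ∀ᶠ ν in L, eps (pth (Γ (s ν)) (u ν)) = eps (pth (Γ s0) u0) := by
  refine eps_tendsto (F := fun ν => pth (Γ (s ν)) (u ν)) hgp h0 fun x _ => ?_
  have hc : Continuous fun p : ℝ × Matrix (Fin (m + 1)) (Fin n) ℝ × ℝ =>
      pth (Γ p.1) p.2.1 p.2.2 := by
    refine continuous_pi fun j => ?_
    refine Continuous.matrix_mulVec (continuous_fst.comp continuous_snd) ?_
    exact (hΓ.cont (j : ℕ)).comp (continuous_fst.prodMk (continuous_snd.comp continuous_snd))
  have h1 : Tendsto (fun p : ι × ℝ => (s p.1, u p.1, p.2)) (L ×ˢ 𝓝[Icc 0 π] x)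
      (𝓝 (s0, u0, x)) := by
    refine Tendsto.prodMk_nhds (hs.comp tendsto_fst) (Tendsto.prodMk_nhds (hu.comp tendsto_fst) ?_)
    exact tendsto_snd.mono_right nhdsWithin_le_nhds
  exact (hc.tendsto (s0, u0, x)).comp h1

end GTC
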