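import Pool.Agent.GTR.Lin

/-!
# GTR Frk : full rank matrices, row spaces, representatives

PROOFS.
* `fr_iff_minor`: `LinearIndependent K u` iff some `k × k` minor is nonzero (for instance
  `Matrix.rank`: rank = k, row rank = column rank, choose `k` independent columns; conversely if the
  minor is nonzero the rows of the submatrix are independent, hence the rows of `u`).
* `fr_iff_rank`: `LinearIndependent.rank_matrix` / `Matrix.rank_eq_finrank_span_row`.
* `fr_mul`, `rs_mul`: multiplication by an invertible matrix is a change of basis.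
* `rs_eq`: two bases of the same space.
* `fr_cm`: by `fr_iff_minor` and `det (map) = map (det)`.
* `rs_eq_real`: if `cm v = g * cm u` with `g` complex invertible, choose a minor `t` with
  `det (u_t) ≠ 0`: `g = cm(v)_t * cm(u)_t⁻¹` is the complexification of the real matrix
  `v_t * u_t⁻¹`.
* `exists_orth`: Gram-Schmidt: `u * uᴴ` is positive definite, write it as `B * Bᴴ` (or use an
  orthonormal basis of the row space) and take `g = B⁻¹`.
* `fr_of_orth`: if `x ᵥ* u = 0` then `x = x (u uᴴ) = 0`.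
* `orth_compact`: closed and bounded (entries of modulus `≤ 1`).
* `det_uut_pos`: `u uᵀ` is positive definite (`Matrix.PosDef`), `PosDef.det_pos`.
* `fr_open`: `fr_iff_minor` and continuity of minors.
-/

set_option autoImplicit false

open Matrix

namespace GTC

private theorem sub_mul_id {K : Type*} [CommRing K] {k n : ℕ} (g : Matrix (Fin k) (Fin k) K)
    (u : Matrix (Fin k) (Fin n) K) (t : Fin k → Fin n) :
    (g * u).submatrix id t = g * u.submatrix id t := by
  ext i j
  simp [Matrix.mul_apply]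

theorem fr_iff_minor {K : Type*} [Field K] {k n : ℕ} (u : Matrix (Fin k) (Fin n) K) :
    FR u ↔ ∃ t : Fin k → Fin n, (u.submatrix id t).det ≠ 0 := by
  constructor
  · intro hu
    have hrank : u.rank = k := by
      have h1 : LinearIndependent K u.row := hu
      have := h1.rank_matrix
      rwa [Fintype.card_fin] at this
    obtain ⟨κ, a, ha, hspan, hli⟩ := exists_linearIndependent' K (fun j : Fin n => uᵀ j)
    have hfin : Finite κ := Finite.of_injective a ha
    have hft : Fintype κ := Fintype.ofFinite κ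
    have hcard : Fintype.card κ = k := by
      have h1 := finrank_span_eq_card hli
      rw [hspan] at h1
      have h2 : u.rank = Module.finrank K (Submodule.span K (Set.range fun j : Fin n => uᵀ j)) :=
        u.rank_eq_finrank_span_cols
      rw [← h1, ← h2, hrank]
    have e : Fin k ≃ κ := (Fintype.equivFinOfCardEq hcard).symm
    refine ⟨fun i => a (e i), ?_⟩
    have h3 : LinearIndependent K (u.submatrix id (fun i => a (e i))).col := by
      have := hli.comp e e.injective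
      exact this
    rw [linearIndependent_cols_iff_isUnit, isUnit_iff_isUnit_det] at h3
    exact h3.ne_zero
  · rintro ⟨t, ht⟩
    have h1 : LinearIndependent K (u.submatrix id t).row := linearIndependent_rows_of_det_ne_zero ht
    refine LinearIndependent.of_comp (LinearMap.funLeft K K t) ?_
    exact h1

theorem fr_iff_rank {K : Type*} [Field K] {k n : ℕ} (u : Matrix (Fin k) (Fin n) K) :
    FR u ↔ u.rank = k := by
  have h0 : FR u ↔ LinearIndependent K u.row := Iff.rfl
  rw [h0, linearIndependent_iff_card_eq_finrank_span, Fintype.card_fin,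
    u.rank_eq_finrank_span_row, Set.finrank]
  exact eq_comm

theorem fr_mul {K : Type*} [Field K] {k n : ℕ} (g : Matrix (Fin k) (Fin k) K) (hg : g.det ≠ 0)
    (u : Matrix (Fin k) (Fin n) K) : FR (g * u) ↔ FR u := by
  rw [fr_iff_minor, fr_iff_minor]
  refine exists_congr fun t => ?_
  rw [sub_mul_id, det_mul]
  exact ⟨fun h => right_ne_zero_of_mul h, fun h => mul_ne_zero hg h⟩

theorem fr_mul_right {K : Type*} [Field K] {k n : ℕ} (T : Matrix (Fin n) (Fin n) K)
    (hT : T.det ≠ 0) (u : Matrix (Fin k) (Fin n) K) : FR (u * T) ↔ FR u := by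
  rw [fr_iff_rank, fr_iff_rank, rank_mul_eq_left_of_det_ne_zero T u hT]

private theorem rs_mul_le {k n : ℕ} (g : Matrix (Fin k) (Fin k) ℂ)
    (u : Matrix (Fin k) (Fin n) ℂ) : rs (g * u) ≤ rs u := by
  unfold rs
  rw [Submodule.span_le]
  rintro _ ⟨a, rfl⟩
  have h1 : (g * u) a = ∑ b, g a b • u b := by
    ext j
    rw [Matrix.mul_apply, Finset.sum_apply]
    rfl
  change (g * u) a ∈ Submodule.span ℂ (Set.range fun a : Fin k => u a)
  rw [h1]
  exact Submodule.sum_mem _ fun b _ => Submodule.smul_mem _ _ (Submodule.subset_span ⟨b, rfl⟩)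

theorem rs_mul {k n : ℕ} (g : Matrix (Fin k) (Fin k) ℂ) (hg : g.det ≠ 0)
    (u : Matrix (Fin k) (Fin n) ℂ) : rs (g * u) = rs u := by
  refine le_antisymm (rs_mul_le g u) ?_
  have h1 := rs_mul_le g⁻¹ (g * u)
  rwa [← Matrix.mul_assoc, nonsing_inv_mul g (isUnit_iff_ne_zero.2 hg), Matrix.one_mul] at h1

/-- invertibility from full rank of a product -/
private theorem det_of_fr {K : Type*} [Field K] {k n : ℕ} (g : Matrix (Fin k) (Fin k) K)
    (u : Matrix (Fin k) (Fin n) K) (h : FR (g * u)) : g.det ≠ 0 := by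
  obtain ⟨t, ht⟩ := (fr_iff_minor _).1 h
  rw [sub_mul_id, det_mul] at ht
  exact left_ne_zero_of_mul ht

theorem rs_eq {k n : ℕ} (u v : Matrix (Fin k) (Fin n) ℂ) (hu : FR u) (hv : FR v)
    (h : rs u = rs v) : ∃ g : Matrix (Fin k) (Fin k) ℂ, g.det ≠ 0 ∧ v = g * u := by
  have h1 : ∀ a, ∃ c : Fin k → ℂ, ∑ b, c b • u b = v a := by
    intro a
    have h2 : v a ∈ rs v := Submodule.subset_span ⟨a, rfl⟩
    rw [← h] at h2
    exact (Submodule.mem_span_range_iff_exists_fun ℂ).1 h2
  choose g hg using h1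
  have h2 : v = (Matrix.of g) * u := by
    ext a j
    rw [Matrix.mul_apply, ← hg a, Finset.sum_apply]
    rfl
  refine ⟨Matrix.of g, ?_, h2⟩
  rw [h2] at hv
  exact det_of_fr _ _ hv

theorem finrank_rs {k n : ℕ} (u : Matrix (Fin k) (Fin n) ℂ) (hu : FR u) :
    Module.finrank ℂ (rs u) = k := by
  have := finrank_span_eq_card hu
  rwa [Fintype.card_fin] at this

private theorem det_cm {k : ℕ} (u : Matrix (Fin k) (Fin k) ℝ) :
    (u.map (fun x : ℝ => (x : ℂ))).det = ((u.det : ℝ) : ℂ) := by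
  have := RingHom.map_det Complex.ofRealHom u
  exact this.symm

theorem fr_cm {k n : ℕ} (u : Matrix (Fin k) (Fin n) ℝ) : FR (cm u) ↔ FR u := by
  rw [fr_iff_minor, fr_iff_minor]
  refine exists_congr fun t => ?_
  have h1 : (cm u).submatrix id t = (u.submatrix id t).map (fun x : ℝ => (x : ℂ)) := rfl
  rw [h1, det_cm]
  exact not_congr Complex.ofReal_eq_zero

theorem lf_cm {k n : ℕ} (c : Cf ℝ k n) (u : Matrix (Fin k) (Fin n) ℝ) :
    lf (cc c) (cm u) = ((lf c u : ℝ) : ℂ) :=
  (lf_map Complex.ofRealHom c u).symm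

theorem issol_cm {k n : ℕ} {ι : Type*} (h : ι → Cf ℝ k n) (u : Matrix (Fin k) (Fin n) ℝ) :
    IsSol (ch h) (cm u) ↔ IsSol h u := by
  unfold IsSol
  rw [fr_cm]
  refine and_congr Iff.rfl (forall_congr' fun i => ?_)
  have h1 : lf (ch h i) (cm u) = ((lf (h i) u : ℝ) : ℂ) := lf_cm (h i) u
  rw [h1]
  exact Complex.ofReal_eq_zero

theorem issol_mul {K : Type*} [Field K] {k n : ℕ} {ι : Type*} (h : ι → Cf K k n)
    (g : Matrix (Fin k) (Fin k) K) (hg : g.det ≠ 0) (u : Matrix (Fin k) (Fin n) K) :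
    IsSol h (g * u) ↔ IsSol h u := by
  unfold IsSol
  rw [fr_mul g hg]
  refine and_congr Iff.rfl (forall_congr' fun i => ?_)
  rw [lf_mul]
  exact ⟨fun h => (mul_eq_zero.1 h).resolve_left hg, fun h => by rw [h, mul_zero]⟩

theorem rs_eq_real {k n : ℕ} (u v : Matrix (Fin k) (Fin n) ℝ) (hu : FR u) (hv : FR v)
    (h : rs (cm u) = rs (cm v)) : ∃ g : Matrix (Fin k) (Fin k) ℝ, g.det ≠ 0 ∧ v = g * u := by
  obtain ⟨g, -, hg⟩ := rs_eq (cm u) (cm v) ((fr_cm u).2 hu) ((fr_cm v).2 hv) h
  have h2 : v = (g.map Complex.re) * u := by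
    ext a j
    have h3 : ((v a j : ℝ) : ℂ) = ∑ b, g a b * ((u b j : ℝ) : ℂ) := by
      have := congrFun (congrFun hg a) j
      rw [Matrix.mul_apply] at this
      exact this
    have h4 := congrArg Complex.re h3
    rw [Complex.ofReal_re, Complex.re_sum] at h4
    rw [h4, Matrix.mul_apply]
    refine Finset.sum_congr rfl fun b _ => ?_
    rw [Complex.re_mul_ofReal]
    rfl
  refine ⟨g.map Complex.re, ?_, h2⟩
  rw [h2] at hv
  exact det_of_fr _ _ hv

private theorem det_of_rank {K : Type*} [Field K] {k : ℕ} {A : Matrix (Fin k) (Fin k) K}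
    (h : A.rank = k) : A.det ≠ 0 := by
  have h1 : LinearIndependent K A.row := (fr_iff_rank A).2 h
  rw [linearIndependent_rows_iff_isUnit, isUnit_iff_isUnit_det] at h1
  exact h1.ne_zero

open scoped MatrixOrder ComplexOrder in
private theorem orth_gen {𝕜 : Type*} [RCLike 𝕜] {k n : ℕ} (u : Matrix (Fin k) (Fin n) 𝕜)
    (hu : FR u) : ∃ g : Matrix (Fin k) (Fin k) 𝕜, g.det ≠ 0 ∧ (g * u) * (g * u)ᴴ = 1 := by
  have hdet : (u * uᴴ).det ≠ 0 := by
    apply det_of_rank
    rw [rank_self_mul_conjTranspose]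
    exact (fr_iff_rank u).1 hu
  obtain ⟨B, hB⟩ := CStarAlgebra.nonneg_iff_eq_star_mul_self.mp
    (posSemidef_self_mul_conjTranspose u).nonneg
  rw [star_eq_conjTranspose] at hB
  have hB1 : (Bᴴ).det ≠ 0 := by
    rw [hB, det_mul] at hdet
    exact left_ne_zero_of_mul hdet
  have hBu : IsUnit (Bᴴ).det := isUnit_iff_ne_zero.2 hB1
  refine ⟨(Bᴴ)⁻¹, ?_, ?_⟩
  · exact (isUnit_nonsing_inv_det _ hBu).ne_zero
  · rw [conjTranspose_mul, Matrix.mul_assoc, ← Matrix.mul_assoc u uᴴ, hB, Matrix.mul_assoc Bᴴ B,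
      ← Matrix.mul_assoc (Bᴴ)⁻¹ Bᴴ, nonsing_inv_mul _ hBu, Matrix.one_mul]
    have h1 : B * ((Bᴴ)⁻¹)ᴴ = (((Bᴴ)⁻¹) * Bᴴ)ᴴ := by
      rw [conjTranspose_mul, conjTranspose_conjTranspose]
    rw [h1, nonsing_inv_mul _ hBu, conjTranspose_one]

theorem exists_orth {k n : ℕ} (u : Matrix (Fin k) (Fin n) ℂ) (hu : FR u) :
    ∃ g : Matrix (Fin k) (Fin k) ℂ, g.det ≠ 0 ∧ (g * u) * (g * u)ᴴ = 1 :=
  orth_gen u hu

theorem exists_orth_real {k n : ℕ} (u : Matrix (Fin k) (Fin n) ℝ) (hu : FR u) :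
    ∃ g : Matrix (Fin k) (Fin k) ℝ, g.det ≠ 0 ∧ (g * u) * (g * u)ᵀ = 1 := by
  obtain ⟨g, h1, h2⟩ := orth_gen u hu
  refine ⟨g, h1, ?_⟩
  rwa [conjTranspose_eq_transpose_of_trivial] at h2

open scoped ComplexOrder in
theorem fr_of_orth {k n : ℕ} (u : Matrix (Fin k) (Fin n) ℂ) (hu : u * uᴴ = 1) : FR u := by
  rw [fr_iff_rank]
  have h1 := rank_self_mul_conjTranspose u
  rw [hu, rank_one, Fintype.card_fin] at h1
  exact h1.symm

theorem fr_of_orth_real {k n : ℕ} (u : Matrix (Fin k) (Fin n) ℝ) (hu : u * uᵀ = 1) : FR u := by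
  rw [fr_iff_rank]
  have h1 := rank_self_mul_transpose u
  rw [hu, rank_one, Fintype.card_fin] at h1
  exact h1.symm

private theorem compact_gen {𝕜 : Type*} [RCLike 𝕜] (k n : ℕ) :
    IsCompact {u : Matrix (Fin k) (Fin n) 𝕜 | u * uᴴ = 1} := by
  have hc : IsCompact (Set.univ.pi fun _ : Fin k => Set.univ.pi fun _ : Fin n =>
      Metric.closedBall (0 : 𝕜) 1) :=
    isCompact_univ_pi fun _ => isCompact_univ_pi fun _ => isCompact_closedBall 0 1
  have hcl : IsClosed {u : Matrix (Fin k) (Fin n) 𝕜 | u * uᴴ = 1} :=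
    isClosed_eq (continuous_id.matrix_mul continuous_id.matrix_conjTranspose) continuous_const
  refine hc.of_isClosed_subset hcl ?_
  intro (u : Matrix (Fin k) (Fin n) 𝕜) (hu' : u * uᴴ = 1)
  rw [Set.mem_univ_pi]
  intro a
  rw [Set.mem_univ_pi]
  intro j
  rw [mem_closedBall_zero_iff]
  have h1 : (u * uᴴ) a a = 1 := by
    rw [hu', Matrix.one_apply_eq]
  rw [Matrix.mul_apply] at h1
  have h2 : ∑ j, ‖u a j‖ ^ 2 = 1 := by
    have h3 : ((∑ j, ‖u a j‖ ^ 2 : ℝ) : 𝕜) = 1 := by
      rw [← h1]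
      push_cast
      refine Finset.sum_congr rfl fun j _ => ?_
      rw [conjTranspose_apply, ← RCLike.mul_conj]
      rfl
    exact_mod_cast h3
  have h4 : ‖u a j‖ ^ 2 ≤ 1 := by
    rw [← h2]
    exact Finset.single_le_sum (f := fun j => ‖u a j‖ ^ 2) (fun i _ => sq_nonneg _)
      (Finset.mem_univ j)
  have h5 := norm_nonneg (u a j)
  nlinarith

theorem orth_compact (k n : ℕ) : IsCompact {u : Matrix (Fin k) (Fin n) ℂ | u * uᴴ = 1} :=
  compact_gen k n

theorem orth_compact_real (k n : ℕ) :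
    IsCompact {u : Matrix (Fin k) (Fin n) ℝ | u * uᵀ = 1} := by
  have := compact_gen (𝕜 := ℝ) k n
  simpa only [conjTranspose_eq_transpose_of_trivial] using this

theorem det_uut_pos {k n : ℕ} (u : Matrix (Fin k) (Fin n) ℝ) (hu : FR u) :
    0 < (u * uᵀ).det := by
  have hdet : (u * uᵀ).det ≠ 0 := by
    apply det_of_rank
    rw [rank_self_mul_transpose]
    exact (fr_iff_rank u).1 hu
  have h1 : 0 ≤ (u * uᵀ).det := by
    have h2 := (posSemidef_self_mul_conjTranspose u).det_nonneg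
    rwa [conjTranspose_eq_transpose_of_trivial] at h2
  exact lt_of_le_of_ne h1 (Ne.symm hdet)

private theorem open_gen {𝕜 : Type*} [RCLike 𝕜] (k n : ℕ) :
    IsOpen {u : Matrix (Fin k) (Fin n) 𝕜 | FR u} := by
  have h1 : {u : Matrix (Fin k) (Fin n) 𝕜 | FR u} =
      ⋃ t : Fin k → Fin n, {u | (u.submatrix id t).det ≠ 0} := by
    ext u
    rw [Set.mem_iUnion]
    exact fr_iff_minor u
  rw [h1]
  refine isOpen_iUnion fun t => ?_
  exact isOpen_ne_fun (continuous_id.matrix_submatrix id t).matrix_det continuous_const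

theorem fr_open (k n : ℕ) : IsOpen {u : Matrix (Fin k) (Fin n) ℂ | FR u} :=
  open_gen k n

theorem fr_open_real (k n : ℕ) : IsOpen {u : Matrix (Fin k) (Fin n) ℝ | FR u} :=
  open_gen k n

private theorem cont_gen {𝕜 : Type*} [RCLike 𝕜] (k n : ℕ) :
    Continuous fun p : Cf 𝕜 k n × Matrix (Fin k) (Fin n) 𝕜 => lf p.1 p.2 := by
  unfold lf
  refine continuous_finsetSum _ fun t _ => ?_
  exact ((continuous_apply t).comp continuous_fst).mul
    (continuous_snd.matrix_submatrix id t).matrix_det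

/-- `lf` is jointly continuous. -/
theorem lf_continuous (k n : ℕ) : Continuous fun p : Cf ℂ k n × Matrix (Fin k) (Fin n) ℂ =>
    lf p.1 p.2 :=
  cont_gen k n

theorem lf_continuous_real (k n : ℕ) : Continuous fun p : Cf ℝ k n × Matrix (Fin k) (Fin n) ℝ =>
    lf p.1 p.2 :=
  cont_gen k n

end GTC
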