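import Mathlib

/-!
# GTR HDefs : definitions for section 8 (from nice curves to all convex curves)

Real vectors in `Fin n → ℝ`; `l`-dimensional complex subspaces `V` of `Fin n → ℂ`, osculating planes
of dimension `k`, `n = k + l`, `N = k * l`. All nice curves which occur are forms of degree
`n + 2 p - 1` in `cos x, sin x`, given by a matrix `G` of size `n × (n + 2 p)`.
-/

set_option autoImplicit false

open Matrix Submodule

namespace GTR

/-- The complexification of a real vector. -/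
def cxv {n : ℕ} (v : Fin n → ℝ) : Fin n → ℂ := fun i => (v i : ℂ)

/-- The complexified osculating `k`-plane `span {γ(z), γ'(z), …, γ^{(k-1)}(z)}`. -/
noncomputable def osc (n k : ℕ) (γ : ℝ → Fin n → ℝ) (z : ℝ) : Submodule ℂ (Fin n → ℂ) :=
  span ℂ (Set.range (fun j : Fin k => cxv (iteratedDeriv j γ z)))

/-- `V` is the complexification of a real subspace. -/
def IsRealSub {n : ℕ} (V : Submodule ℂ (Fin n → ℂ)) : Prop :=
  ∃ V0 : Submodule ℝ (Fin n → ℝ), V = span ℂ (cxv '' (V0 : Set (Fin n → ℝ)))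

/-- The solutions of the Schubert problem for the planes `W i`. -/
def SP (n l : ℕ) {ι : Type*} (W : ι → Submodule ℂ (Fin n → ℂ)) : Set (Submodule ℂ (Fin n → ℂ)) :=
  {V | Module.finrank ℂ V = l ∧ ∀ i, V ⊓ W i ≠ ⊥}

/-- exactly `f` solutions, all of them real. -/
def TRl (n l f : ℕ) {ι : Type*} (W : ι → Submodule ℂ (Fin n → ℂ)) : Prop :=
  (SP n l W).Finite ∧ (SP n l W).ncard = f ∧ ∀ V ∈ SP n l W, IsRealSub V

/-- the complex linear map of a real matrix -/
noncomputable def cmap {n : ℕ} (r : Matrix (Fin n) (Fin n) ℝ) : (Fin n → ℂ) →ₗ[ℂ] (Fin n → ℂ) :=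
  Matrix.toLin' (r.map (fun y : ℝ => (y : ℂ)))

/-- The complex span of the columns `p` with `k * i ≤ p < k * i + k` of `A`. -/
noncomputable def win {n K : ℕ} (k : ℕ) (A : Matrix (Fin n) (Fin K) ℝ) (i : ℕ) :
    Submodule ℂ (Fin n → ℂ) :=
  span ℂ (cxv '' {v | ∃ p : Fin K, (p : ℕ) / k = i ∧ v = fun a => A a p})

/-- All maximal minors are positive. -/
def TP {n K : ℕ} (A : Matrix (Fin n) (Fin K) ℝ) : Prop :=
  ∀ σ : Fin n → Fin K, StrictMono σ → 0 < (A.submatrix id σ).det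

/-- `(cos^(n-1-j) x sin^j x)_(j < n)` -/
noncomputable def bn (n : ℕ) (x : ℝ) : Fin n → ℝ :=
  fun j => Real.cos x ^ (n - 1 - (j : ℕ)) * Real.sin x ^ (j : ℕ)

/-- the curve (of degree `M - 1`) with matrix `G`. -/
noncomputable def cv {n M : ℕ} (G : Matrix (Fin n) (Fin M) ℝ) (x : ℝ) : Fin n → ℝ :=
  G.mulVec (bn M x)

/-- the matrix `(γ(x), γ'(x), ..., γ^(n-1)(x))` -/
noncomputable def jet {n : ℕ} (γ : ℝ → Fin n → ℝ) (x : ℝ) : Matrix (Fin n) (Fin n) ℝ :=
  fun a b => iteratedDeriv (b : ℕ) γ x a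

/-- the curve `x ↦ ∑_j sin^m (x - φ_j) A_j` -/
noncomputable def sc {n : ℕ} {ι : Type*} [Fintype ι] (m : ℕ) (φ : ι → ℝ) (A : Matrix (Fin n) ι ℝ)
    (x : ℝ) : Fin n → ℝ :=
  fun a => ∑ j, Real.sin (x - φ j) ^ m * A a j

/-- Families of nice curves which start at `T b`; `M = n + 2 p`. -/
structure Fam (n M : ℕ) (G : ℝ → Matrix (Fin n) (Fin M) ℝ) : Prop where
  par : ∃ p, M = n + 2 * p
  cont : Continuous G
  det : ∀ s ∈ Set.Icc (0 : ℝ) 1, ∀ x, (jet (cv (G s)) x).det ≠ 0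
  start : ∃ T : Matrix (Fin n) (Fin n) ℝ, T.det ≠ 0 ∧ ∀ x, cv (G 0) x = T.mulVec (bn n x)

end GTR
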