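import Pool.Agent.GTR.Frk
import Pool.Agent.GTR.Der
import Pool.Agent.GTR.HDefs

/-!
# GTR GlueA : solutions as row spaces and as kernels

PROOF.  For a subspace `L` of `Fin n → ℂ` let `L⊥ = {v | ∀ w ∈ L, ∑ j, w j * v j = 0}` (bilinear, no
conjugation); `dim L⊥ = n - dim L`, `L⊥⊥ = L` (compare `Pool.Agent.Helper65.TD.PE`).  For `L = rs u`,
`FR u`: `L⊥ = ker u = {v | u *ᵥ v = 0}`, of
dimension `l` (`n = k + l`).  `ker u` meets `osc n k γ x` (the complex span of the independent columns of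
`cm (jet γ k x)`) nontrivially iff `u *ᵥ (cm (jet γ k x) *ᵥ c) = 0` for some `c ≠ 0`, iff
`det (u * cm (jet γ k x)) = 0`, iff `lf (cc (wf k γ x)) u = 0` (`lf_cc_wf`).  Hence `L ↦ L⊥` is a bijection from
`Sol (ch (fun i => wf k γ (t i)))` onto `GTR.SP (k+l) l (osc planes)` (surjective: `V` of dimension `l` is
`L⊥` for `L = V⊥` of dimension `k`, take a basis of `L` as rows of `u`).  If `L = rs (cm v)` with `v` real then
`L` is the complexification of a real subspace, hence so is `L⊥`.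
-/

set_option autoImplicit false

open Matrix Real Set

namespace GTC

/-- the orthogonal complement for the dot product (no conjugation) -/
def prp {m : ℕ} (V : Submodule ℂ (Fin m → ℂ)) : Submodule ℂ (Fin m → ℂ) where
  carrier := {x | ∀ y ∈ V, x ⬝ᵥ y = 0}
  add_mem' hx hx' y hy := by rw [add_dotProduct, hx y hy, hx' y hy, add_zero]
  zero_mem' y _ := by simp
  smul_mem' c x hx y hy := by rw [smul_dotProduct, hx y hy, smul_zero]

/-- the bilinear form of the dot product -/
noncomputable def prpB (m : ℕ) : LinearMap.BilinForm ℂ (Fin m → ℂ) :=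
  Matrix.toBilin' (1 : Matrix (Fin m) (Fin m) ℂ)

theorem prpB_apply {m : ℕ} (x y : Fin m → ℂ) : prpB m x y = x ⬝ᵥ y := by
  rw [prpB, Matrix.toBilin'_apply', Matrix.one_mulVec]

theorem prpB_nondeg (m : ℕ) : (prpB m).Nondegenerate :=
  LinearMap.BilinForm.nondegenerate_toBilin'_of_det_ne_zero' _ (by simp)

theorem prpB_refl (m : ℕ) : (prpB m).IsRefl := by
  intro x y h
  rw [prpB_apply] at h ⊢
  rw [dotProduct_comm, h]

theorem prp_eq {m : ℕ} (V : Submodule ℂ (Fin m → ℂ)) : prp V = (prpB m).orthogonal V := by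
  ext x
  rw [LinearMap.BilinForm.mem_orthogonal_iff]
  constructor
  · intro h y hy
    change prpB m y x = 0
    rw [prpB_apply, dotProduct_comm]
    exact h y hy
  · intro h y hy
    have h1 : prpB m y x = 0 := h y hy
    rw [prpB_apply, dotProduct_comm] at h1
    exact h1

theorem prp_finrank {m : ℕ} (V : Submodule ℂ (Fin m → ℂ)) :
    Module.finrank ℂ (prp V) + Module.finrank ℂ V = m := by
  rw [prp_eq, LinearMap.BilinForm.finrank_orthogonal (prpB_nondeg m)]
  have h1 : Module.finrank ℂ V ≤ Module.finrank ℂ (Fin m → ℂ) := Submodule.finrank_le V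
  have h2 : Module.finrank ℂ (Fin m → ℂ) = m := by simp
  rw [h2] at h1 ⊢
  omega

theorem prp_prp {m : ℕ} (V : Submodule ℂ (Fin m → ℂ)) : prp (prp V) = V := by
  rw [prp_eq, prp_eq, LinearMap.BilinForm.orthogonal_orthogonal (prpB_nondeg m) (prpB_refl m)]

theorem prp_real {m : ℕ} {V : Submodule ℂ (Fin m → ℂ)} (h : GTR.IsRealSub V) :
    GTR.IsRealSub (prp V) := by
  obtain ⟨V0, rfl⟩ := h
  refine ⟨{ carrier := {x | ∀ y ∈ V0, x ⬝ᵥ y = 0}
            add_mem' := fun hx hx' y hy => by rw [add_dotProduct, hx y hy, hx' y hy, add_zero]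
            zero_mem' := fun y _ => by simp
            smul_mem' := fun c x hx y hy => by rw [smul_dotProduct, hx y hy, smul_zero] }, ?_⟩
  have hkey : ∀ x : Fin m → ℂ, x ∈ prp (Submodule.span ℂ (GTR.cxv '' (V0 : Set (Fin m → ℝ)))) ↔
      ∀ y ∈ V0, x ⬝ᵥ GTR.cxv y = 0 := by
    intro x
    constructor
    · intro hx y hy
      exact hx _ (Submodule.subset_span ⟨y, hy, rfl⟩)
    · intro hx y hy
      induction hy using Submodule.span_induction with
      | mem y hy =>
        obtain ⟨y0, hy0, rfl⟩ := hy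
        exact hx y0 hy0
      | zero => simp
      | add a b _ _ ha hb => rw [dotProduct_add, ha, hb, add_zero]
      | smul c a _ ha => rw [dotProduct_smul, ha, smul_zero]
  have hre : ∀ (x : Fin m → ℂ) (y : Fin m → ℝ),
      (x ⬝ᵥ GTR.cxv y).re = (fun i => (x i).re) ⬝ᵥ y := by
    intro x y
    simp [dotProduct, GTR.cxv, Complex.re_sum]
  have him : ∀ (x : Fin m → ℂ) (y : Fin m → ℝ),
      (x ⬝ᵥ GTR.cxv y).im = (fun i => (x i).im) ⬝ᵥ y := by
    intro x y
    simp [dotProduct, GTR.cxv, Complex.im_sum]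
  ext x
  rw [hkey]
  constructor
  · intro hx
    have e : x = GTR.cxv (fun i => (x i).re) + Complex.I • GTR.cxv (fun i => (x i).im) := by
      ext i
      simp only [GTR.cxv, Pi.add_apply, Pi.smul_apply, smul_eq_mul]
      rw [mul_comm]
      exact (Complex.re_add_im (x i)).symm
    rw [e]
    refine Submodule.add_mem _ (Submodule.subset_span ⟨_, ?_, rfl⟩)
      (Submodule.smul_mem _ _ (Submodule.subset_span ⟨_, ?_, rfl⟩))
    · intro y hy
      rw [← hre, hx y hy, Complex.zero_re]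
    · intro y hy
      rw [← him, hx y hy, Complex.zero_im]
  · intro hx y hy
    induction hx using Submodule.span_induction with
    | mem x hx =>
      obtain ⟨x0, hx0, rfl⟩ := hx
      have h1 : x0 ⬝ᵥ y = 0 := hx0 y hy
      apply Complex.ext
      · rw [hre]
        simpa [GTR.cxv] using h1
      · rw [him]
        simp [GTR.cxv, dotProduct]
    | zero => simp
    | add a b _ _ ha hb => rw [add_dotProduct, ha, hb, add_zero]
    | smul c a _ ha => rw [smul_dotProduct, ha, smul_zero]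

theorem mem_prp_rs {k n : ℕ} (u : Matrix (Fin k) (Fin n) ℂ) (v : Fin n → ℂ) :
    v ∈ prp (rs u) ↔ u *ᵥ v = 0 := by
  constructor
  · intro h
    ext a
    have h1 : v ⬝ᵥ u a = 0 := h _ (Submodule.subset_span ⟨a, rfl⟩)
    rw [dotProduct_comm] at h1
    exact h1
  · intro h y hy
    unfold rs at hy
    induction hy using Submodule.span_induction with
    | mem y hy =>
      obtain ⟨a, rfl⟩ := hy
      rw [dotProduct_comm]
      exact congrFun h a
    | zero => simp
    | add a b _ _ ha hb => rw [dotProduct_add, ha, hb, add_zero]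
    | smul c a _ ha => rw [dotProduct_smul, ha, smul_zero]

theorem mem_osc {k n : ℕ} (γ : ℝ → Fin n → ℝ) (x : ℝ) (v : Fin n → ℂ) :
    v ∈ GTR.osc n k γ x ↔ ∃ c : Fin k → ℂ, cm (jet γ k x) *ᵥ c = v := by
  unfold GTR.osc
  rw [Submodule.mem_span_range_iff_exists_fun ℂ]
  refine exists_congr fun c => ?_
  have : ∑ i, c i • GTR.cxv (iteratedDeriv (i : ℕ) γ x) = cm (jet γ k x) *ᵥ c := by
    ext j
    rw [Finset.sum_apply, Matrix.mulVec, dotProduct]
    refine Finset.sum_congr rfl fun b _ => ?_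
    rw [Pi.smul_apply, smul_eq_mul, mul_comm]
    rfl
  rw [this]

theorem jet_inj {k l : ℕ} (γ : ℝ → Fin (k + l) → ℝ) (x : ℝ) (hx : (jet γ (k + l) x).det ≠ 0)
    (c : Fin k → ℂ) (h : cm (jet γ k x) *ᵥ c = 0) : c = 0 := by
  have hd : (cm (jet γ (k + l) x)).det ≠ 0 := by
    have h1 : (cm (jet γ (k + l) x)).det = (((jet γ (k + l) x).det : ℝ) : ℂ) :=
      (RingHom.map_det Complex.ofRealHom _).symm
    rw [h1]
    exact Complex.ofReal_ne_zero.2 hx
  have h2 : cm (jet γ (k + l) x) *ᵥ (Fin.append c (0 : Fin l → ℂ)) = 0 := by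
    rw [← h]
    ext j
    simp only [Matrix.mulVec, dotProduct]
    rw [Fin.sum_univ_add]
    simp only [Fin.append_left, Fin.append_right, Pi.zero_apply, mul_zero,
      Finset.sum_const_zero, add_zero]
    rfl
  have h3 := Matrix.eq_zero_of_mulVec_eq_zero hd h2
  ext i
  have h4 := congrFun h3 (Fin.castAdd l i)
  rw [Fin.append_left] at h4
  exact h4

theorem meet_iff {k l : ℕ} (γ : ℝ → Fin (k + l) → ℝ) (x : ℝ)
    (hx : (jet γ (k + l) x).det ≠ 0) (u : Matrix (Fin k) (Fin (k + l)) ℂ) :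
    prp (rs u) ⊓ GTR.osc (k + l) k γ x ≠ ⊥ ↔ lf (cc (wf k γ x)) u = 0 := by
  rw [lf_cc_wf, ← Matrix.exists_mulVec_eq_zero_iff, Submodule.ne_bot_iff]
  constructor
  · rintro ⟨v, hv, hv0⟩
    obtain ⟨h1, h2⟩ := Submodule.mem_inf.1 hv
    rw [mem_prp_rs] at h1
    obtain ⟨c, rfl⟩ := (mem_osc γ x v).1 h2
    refine ⟨c, ?_, ?_⟩
    · rintro rfl
      exact hv0 (Matrix.mulVec_zero _)
    · rw [← Matrix.mulVec_mulVec]
      exact h1
  · rintro ⟨c, hc, h1⟩
    refine ⟨cm (jet γ k x) *ᵥ c, Submodule.mem_inf.2 ⟨?_, (mem_osc γ x _).2 ⟨c, rfl⟩⟩, ?_⟩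
    · rw [mem_prp_rs, Matrix.mulVec_mulVec]
      exact h1
    · intro h
      exact hc (jet_inj γ x hx c h)

theorem exists_rs {k n : ℕ} (L : Submodule ℂ (Fin n → ℂ)) (h : Module.finrank ℂ L = k) :
    ∃ u : Matrix (Fin k) (Fin n) ℂ, FR u ∧ L = rs u := by
  have b : Module.Basis (Fin k) ℂ L := Module.finBasisOfFinrankEq ℂ L h
  refine ⟨fun a => (b a : Fin n → ℂ), ?_, ?_⟩
  · have h1 := b.linearIndependent.map' L.subtype (Submodule.ker_subtype L)
    exact h1
  · have h1 := b.span_eq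
    have h2 : Submodule.map L.subtype (Submodule.span ℂ (Set.range b)) = L := by
      rw [h1, Submodule.map_top, Submodule.range_subtype]
    rw [Submodule.map_span, ← Set.range_comp] at h2
    exact h2.symm

theorem real_rs {k n : ℕ} (u : Matrix (Fin k) (Fin n) ℝ) : GTR.IsRealSub (rs (cm u)) := by
  refine ⟨Submodule.span ℝ (Set.range fun a : Fin k => u a), le_antisymm ?_ ?_⟩
  · unfold rs
    rw [Submodule.span_le]
    rintro _ ⟨a, rfl⟩
    exact Submodule.subset_span ⟨u a, Submodule.subset_span ⟨a, rfl⟩, rfl⟩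
  · rw [Submodule.span_le]
    rintro _ ⟨v, hv, rfl⟩
    change GTR.cxv v ∈ rs (cm u)
    have hv' : v ∈ Submodule.span ℝ (Set.range fun a : Fin k => u a) := hv
    induction hv' using Submodule.span_induction with
    | mem y hy =>
      obtain ⟨a, rfl⟩ := hy
      exact Submodule.subset_span ⟨a, rfl⟩
    | zero =>
      have : GTR.cxv (0 : Fin n → ℝ) = 0 := by
        ext i
        simp [GTR.cxv]
      rw [this]
      exact Submodule.zero_mem _
    | add a b ha0 hb0 ha hb =>
      have : GTR.cxv (a + b) = GTR.cxv a + GTR.cxv b := by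
        ext i
        simp [GTR.cxv]
      rw [this]
      exact Submodule.add_mem _ (ha ha0) (hb hb0)
    | smul c a ha0 ha =>
      have : GTR.cxv (c • a) = (c : ℂ) • GTR.cxv a := by
        ext i
        simp [GTR.cxv]
      rw [this]
      exact Submodule.smul_mem _ _ (ha ha0)

theorem trl_of_sol {k l F : ℕ} {ι : Type*} (γ : ℝ → Fin (k + l) → ℝ) (t : ι → ℝ)
    (ht : ∀ i, (jet γ (k + l) (t i)).det ≠ 0)
    (hfin : (Sol (ch fun i => wf k γ (t i))).Finite)
    (hcard : (Sol (ch fun i => wf k γ (t i))).ncard = F)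
    (hreal : ∀ L ∈ Sol (ch fun i => wf k γ (t i)),
      ∃ u : Matrix (Fin k) (Fin (k + l)) ℝ, FR u ∧ L = rs (cm u)) :
    GTR.TRl (k + l) l F (fun i => GTR.osc (k + l) k γ (t i)) := by
  have himg : GTR.SP (k + l) l (fun i => GTR.osc (k + l) k γ (t i)) =
      prp '' Sol (ch fun i => wf k γ (t i)) := by
    ext V
    constructor
    · rintro ⟨h1, h2⟩
      have h3 := prp_finrank V
      obtain ⟨u, hu, hVu⟩ := exists_rs (k := k) (prp V) (by omega)
      refine ⟨prp V, ⟨u, ⟨hu, fun i => ?_⟩, hVu⟩, prp_prp V⟩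
      have h4 := h2 i
      rw [← prp_prp V, hVu] at h4
      exact (meet_iff γ (t i) (ht i) u).1 h4
    · rintro ⟨L, ⟨u, ⟨hu, hi⟩, rfl⟩, rfl⟩
      refine ⟨?_, fun i => (meet_iff γ (t i) (ht i) u).2 (hi i)⟩
      have h3 := prp_finrank (rs u)
      have h4 := finrank_rs u hu
      omega
  have hinj : Function.Injective (prp (m := k + l)) := by
    intro a b hab
    rw [← prp_prp a, hab, prp_prp]
  refine ⟨?_, ?_, ?_⟩
  · rw [himg]
    exact hfin.image _
  · rw [himg, Set.ncard_image_of_injective _ hinj, hcard]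
  · intro V hV
    rw [himg] at hV
    obtain ⟨L, hL, rfl⟩ := hV
    obtain ⟨u, -, rfl⟩ := hreal L hL
    exact prp_real (real_rs u)

end GTC
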