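import Pool.Agent.GTR.HDefs
import Pool.Agent.Helper65.TD.CS
import Pool.Agent.Helper65.TD.PEA
import Pool.Agent.TR.SignC

/-!
# GTR HCurve : osculating planes of a convex curve are windows of a totally positive matrix (8.4)

`TR.ConvexCurve n γ`: `γ` continuous, `n` values at different points are independent. Hence
`det (γ(t_i))` has a constant sign `ε` for increasing `t` (the set of increasing `t` is convex and the
determinant does not vanish): `TR.sign_const hγ` gives `ε = 1 ∨ ε = -1` and the hypothesis `hpos` of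
`TD.taylor_tp`. (See the proof of `col_tp` in Pool/Agent/Helper65/TD/FIN.lean for a similar use.)

Let `S = {z i}`, `Nm t = if t ∈ S then k else 1` and `v t l = (1/l!) iteratedDeriv l γ t`. Then
`TD.Jet n γ Nm v` (copy `TD.jet_of`, `TD.deriv_indep` from Pool/Agent/Helper65/TD/FIN.lean, they are for
`TR.osc`, which has the same text as our `osc`; do not import FIN, it is heavy). Points:
`y g = z g` for `g < N`, `y g = z (N-1) + (g + 1 - N)` for `g ≥ N` (strictly increasing; `N ≥ 1`).
Column `p < k N`: group `p / k`, index `p % k`; column `k N`, `k N + 1`: groups `N`, `N + 1`, index 0.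
The column with group `g` and index `κ` is `∑_(l < Nm (y g)) (κ h)^l • v (y g) l`, and `TD.taylor_tp`
(for each of the finitely many strictly increasing `σ : Fin n → Fin (k N + 2)`) gives: for small
`h > 0` all minors times `ε` are positive. (The minors in `TD` have the vectors as rows: transpose.)
For `h > 0` the `k` columns of group `i < N` span the same space as the derivatives (Vandermonde
matrix `((κ h)^l)_(κ, l < k)` is invertible): `win k A i = osc n k γ (z i)`.
If `ε = 1` take `r = 1`; if `ε = -1` take `r = diag (-1, 1, ..., 1)` and `A = r * (columns)`.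
-/

set_option autoImplicit false

open Matrix Submodule Topology Filter

namespace GTR

/-! ### complexification -/

private theorem hc_sum {n : ℕ} {ι : Type*} (s : Finset ι) (c : ι → ℝ) (w : ι → Fin n → ℝ) :
    cxv (∑ j ∈ s, c j • w j) = ∑ j ∈ s, (c j : ℂ) • cxv (w j) := by
  funext a
  simp [cxv, Finset.sum_apply]

private theorem hc_smul {n : ℕ} (c : ℝ) (w : Fin n → ℝ) : cxv (c • w) = (c : ℂ) • cxv w := by
  funext a
  simp [cxv]

private theorem hc_map {n : ℕ} (r : Matrix (Fin n) (Fin n) ℝ) (w : Fin n → ℝ) :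
    cmap r (cxv w) = cxv (r.mulVec w) := by
  funext a
  simp [cmap, cxv, Matrix.mulVec, dotProduct, Matrix.toLin'_apply]

private theorem win_mul {n K : ℕ} (k : ℕ) (r : Matrix (Fin n) (Fin n) ℝ)
    (A : Matrix (Fin n) (Fin K) ℝ) (i : ℕ) : win k (r * A) i = (win k A i).map (cmap r) := by
  unfold win
  rw [Submodule.map_span, Set.image_image]
  congr 1
  ext x
  constructor
  · rintro ⟨v, ⟨p, hp, rfl⟩, rfl⟩
    exact ⟨fun a => A a p, ⟨p, hp, rfl⟩, hc_map r (fun a => A a p)⟩
  · rintro ⟨v, ⟨p, hp, rfl⟩, rfl⟩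
    exact ⟨fun a => (r * A) a p, ⟨p, hp, rfl⟩, (hc_map r (fun a => A a p)).symm⟩

/-! ### jets -/

private noncomputable def tv {n : ℕ} (γ : ℝ → Fin n → ℝ) (t : ℝ) (l : ℕ) : Fin n → ℝ :=
  ((l.factorial : ℝ)⁻¹) • iteratedDeriv l γ t

private theorem curve_ne {n : ℕ} {γ : ℝ → Fin n → ℝ} (hγ : TR.ConvexCurve n γ) (hn : 1 ≤ n)
    (t : ℝ) : γ t ≠ 0 := by
  have h := hγ.2 (fun i => t + (i : ℕ)) (fun i j hij => by
    simp only [add_right_inj, Nat.cast_inj] at hij
    exact Fin.ext hij)
  have h2 := h.ne_zero ⟨0, hn⟩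
  simpa using h2

private theorem deriv_indep {n k : ℕ} {γ : ℝ → Fin n → ℝ} {t : ℝ}
    (h : Module.finrank ℂ (osc n k γ t) = k) :
    LinearIndependent ℝ fun l : Fin k => iteratedDeriv l γ t := by
  have h1 : LinearIndependent ℂ fun l : Fin k => cxv (iteratedDeriv l γ t) := by
    rw [linearIndependent_iff_card_eq_finrank_span, Fintype.card_fin]
    exact h.symm
  rw [Fintype.linearIndependent_iff] at h1 ⊢
  intro g hg i
  have h2 := h1 (fun l => (g l : ℂ)) (by
    have h3 : cxv (∑ l, g l • iteratedDeriv l γ t) = 0 := by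
      rw [hg]
      funext j
      simp [cxv]
    rw [hc_sum] at h3
    exact h3) i
  exact_mod_cast h2

open Classical in
private theorem jet_of {n k : ℕ} {γ : ℝ → Fin n → ℝ} (hγ : TR.ConvexCurve n γ) (hn : 1 ≤ n)
    (hk : 1 ≤ k) (S : Set ℝ) (hS : ∀ t ∈ S, Module.finrank ℂ (osc n k γ t) = k) :
    TD.Jet n γ (fun t => if t ∈ S then k else 1) (tv γ) where
  one t := by split_ifs <;> omega
  zero t := by simp [tv]
  exp t := by
    refine TD.peano (by split_ifs <;> omega) hγ.1.continuousAt fun l hl => ?_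
    split_ifs at hl with h
    · exact (deriv_indep (hS t h)).ne_zero ⟨l, hl⟩
    · have : l = 0 := by omega
      subst this
      rw [iteratedDeriv_zero]
      exact curve_ne hγ hn t
  ind t := by
    have key : ∀ N : ℕ, (LinearIndependent ℝ fun l : Fin N => iteratedDeriv l γ t) →
        LinearIndependent ℝ fun l : Fin N => tv γ t l := by
      intro N hN
      have h2 := hN.units_smul (fun l : Fin N =>
        Units.mk0 (((l : ℕ).factorial : ℝ)⁻¹) (inv_ne_zero (by positivity)))
      exact h2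
    have h2 : ∀ N : ℕ, (t ∈ S ∧ N = k) ∨ N = 1 →
        LinearIndependent ℝ fun l : Fin N => iteratedDeriv l γ t := by
      rintro N (⟨h, rfl⟩ | rfl)
      · exact deriv_indep (hS t h)
      · rw [linearIndependent_unique_iff]
        simp only [Fin.default_eq_zero, Fin.isValue, Fin.val_zero, iteratedDeriv_zero]
        exact curve_ne hγ hn t
    refine key _ (h2 _ ?_)
    by_cases h : t ∈ S
    · exact Or.inl ⟨h, if_pos h⟩
    · exact Or.inr (if_neg h)

/-! ### groups, indices, points -/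

private def gp (k N p : ℕ) : ℕ := if p < k * N then p / k else N + (p - k * N)

private def kp (k N p : ℕ) : ℕ := if p < k * N then p % k else 0

private theorem gp_lex {k N p q : ℕ} (hpq : p < q) :
    gp k N p ≤ gp k N q ∧ (gp k N p = gp k N q → kp k N p < kp k N q) := by
  unfold gp kp
  by_cases hq : q < k * N
  · have hp : p < k * N := hpq.trans hq
    rw [if_pos hp, if_pos hq, if_pos hp, if_pos hq]
    refine ⟨Nat.div_le_div_right hpq.le, fun h => ?_⟩
    have h1 := Nat.div_add_mod p k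
    have h2 := Nat.div_add_mod q k
    rw [h] at h1
    omega
  · rw [if_neg hq, if_neg hq]
    by_cases hp : p < k * N
    · rw [if_pos hp, if_pos hp]
      have h1 : p / k < N := Nat.div_lt_of_lt_mul hp
      exact ⟨by omega, fun h => by omega⟩
    · rw [if_neg hp, if_neg hp]
      exact ⟨by omega, fun h => by omega⟩

private noncomputable def ys {N : ℕ} (hN : 1 ≤ N) (z : Fin N → ℝ) (g : ℕ) : ℝ :=
  if h : g < N then z ⟨g, h⟩ else z ⟨N - 1, by omega⟩ + ((g : ℝ) + 1 - N)

private theorem ys_lt {N : ℕ} (hN : 1 ≤ N) (z : Fin N → ℝ) {g : ℕ} (h : g < N) :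
    ys hN z g = z ⟨g, h⟩ := by
  unfold ys
  rw [dif_pos h]

private theorem ys_mono {N : ℕ} (hN : 1 ≤ N) {z : Fin N → ℝ} (hz : StrictMono z) :
    StrictMono (ys hN z) := by
  refine strictMono_nat_of_lt_succ fun g => ?_
  unfold ys
  by_cases h1 : g + 1 < N
  · rw [dif_pos h1, dif_pos (by omega : g < N)]
    exact hz (by simp [Fin.lt_def])
  · rw [dif_neg h1]
    by_cases h2 : g < N
    · rw [dif_pos h2]
      have h3 : g = N - 1 := by omega
      subst h3
      have h4 : ((N - 1 + 1 : ℕ) : ℝ) = N := by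
        congr 1
        omega
      push_cast at h4 ⊢
      linarith
    · rw [dif_neg h2]
      push_cast
      linarith

open Classical in
private noncomputable def co {n N : ℕ} (k : ℕ) (hN : 1 ≤ N) (γ : ℝ → Fin n → ℝ) (z : Fin N → ℝ)
    (h : ℝ) (p : ℕ) : Fin n → ℝ :=
  ∑ l ∈ Finset.range (if ys hN z (gp k N p) ∈ Set.range z then k else 1),
    ((kp k N p : ℕ) * h) ^ l • tv γ (ys hN z (gp k N p)) l

open Classical in
private theorem co_tp {n k N : ℕ} (hk : 1 ≤ k) (hkn : k ≤ n) (hN : 1 ≤ N) {γ : ℝ → Fin n → ℝ}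
    (hγ : TR.ConvexCurve n γ) {z : Fin N → ℝ} (hz : StrictMono z)
    (hosc : ∀ i, Module.finrank ℂ (osc n k γ (z i)) = k) {ε : ℝ} (hε : ε = 1 ∨ ε = -1)
    (hpos : ∀ t : Fin n → ℝ, StrictMono t → 0 < ε * Matrix.det (fun i => γ (t i))) (L : ℕ) :
    ∃ h : ℝ, 0 < h ∧ ∀ σ : Fin n → Fin L, StrictMono σ →
      0 < ε * Matrix.det (fun i => co k hN γ z h (σ i)) := by
  have hJ := jet_of hγ (hk.trans hkn) hk (Set.range z) (by
    rintro t ⟨i, rfl⟩
    exact hosc i)
  have key : ∀ σ : Fin n → Fin L, StrictMono σ →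
      ∀ᶠ h : ℝ in 𝓝[>] 0, 0 < ε * Matrix.det (fun i => co k hN γ z h (σ i)) := by
    intro σ hσ
    have hT := TD.taylor_tp hγ hJ hε hpos (ys_mono hN hz) (grp := fun r => gp k N (σ r))
      (k := fun r => kp k N (σ r)) ?_ ?_ ?_
    · unfold co
      convert hT
    · intro r s hrs
      rcases hrs.eq_or_lt with h1 | h1
      · rw [h1]
      · exact (gp_lex (hσ h1)).1
    · intro r s hrs he
      exact (gp_lex (hσ hrs)).2 he
    · intro r
      by_cases h1 : (σ r : ℕ) < k * N
      · have h2 : gp k N (σ r) < N := by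
          unfold gp
          rw [if_pos h1]
          exact Nat.div_lt_of_lt_mul h1
        have h3 : ys hN z (gp k N (σ r)) ∈ Set.range z := by
          rw [ys_lt hN z h2]
          exact ⟨_, rfl⟩
        simp only [if_pos h3]
        unfold kp
        rw [if_pos h1]
        exact Nat.mod_lt _ (by omega)
      · have h2 : kp k N (σ r) = 0 := by
          unfold kp
          rw [if_neg h1]
        simp only [h2]
        split_ifs <;> omega
  have hfin : ∀ᶠ h : ℝ in 𝓝[>] 0, ∀ σ : Fin n → Fin L, StrictMono σ →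
      0 < ε * Matrix.det (fun i => co k hN γ z h (σ i)) := by
    rw [Filter.eventually_all]
    intro σ
    by_cases hσ : StrictMono σ
    · exact (key σ hσ).mono fun h hh _ => hh
    · exact Eventually.of_forall fun h hh => absurd hh hσ
  obtain ⟨h, h1, h2⟩ := (hfin.and self_mem_nhdsWithin).exists
  exact ⟨h, h2, h1⟩

open Classical in
private theorem co_win {n k N : ℕ} (hk : 1 ≤ k) (hN : 1 ≤ N) {γ : ℝ → Fin n → ℝ}
    {z : Fin N → ℝ} {h : ℝ} (hh : 0 < h) (i : Fin N) :
    win k (fun a (p : Fin (k * N + 2)) => co k hN γ z h p a) i = osc n k γ (z i) := by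
  -- the columns of the window
  have hcol : ∀ j : ℕ, j < k → co k hN γ z h (k * i + j) =
      ∑ l ∈ Finset.range k, ((j : ℕ) * h) ^ l • tv γ (z i) l := by
    intro j hj
    have h1 : k * (i : ℕ) + j < k * N := by
      calc k * (i : ℕ) + j < k * i + k := by omega
        _ = k * (i + 1) := by ring
        _ ≤ k * N := Nat.mul_le_mul_left k i.2
    have h2 : gp k N (k * i + j) = i := by
      unfold gp
      rw [if_pos h1, Nat.mul_add_div (by omega), Nat.div_eq_of_lt hj, add_zero]
    have h3 : kp k N (k * i + j) = j := by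
      unfold kp
      rw [if_pos h1, Nat.mul_add_mod, Nat.mod_eq_of_lt hj]
    have h4 : ys hN z i = z i := ys_lt hN z i.2
    unfold co
    rw [h2, h3, h4, if_pos ⟨i, rfl⟩]
  have hmem : ∀ p : Fin (k * N + 2), (p : ℕ) / k = i → ∃ j < k, (p : ℕ) = k * i + j := by
    intro p hp
    refine ⟨p % k, Nat.mod_lt _ (by omega), ?_⟩
    rw [← hp]
    exact (Nat.div_add_mod _ _).symm
  apply le_antisymm
  · unfold win
    rw [span_le]
    rintro x ⟨v, ⟨p, hp, rfl⟩, rfl⟩
    obtain ⟨j, hj, hpj⟩ := hmem p hp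
    have h1 : (fun a => co k hN γ z h p a) = co k hN γ z h (k * i + j) := by
      rw [← hpj]
    simp only [SetLike.mem_coe]
    rw [h1, hcol j hj, hc_sum]
    refine Submodule.sum_mem _ fun l hl => Submodule.smul_mem _ _ ?_
    unfold tv
    rw [hc_smul]
    refine Submodule.smul_mem _ _ (subset_span ⟨⟨l, Finset.mem_range.1 hl⟩, rfl⟩)
  · unfold osc
    rw [span_le]
    rintro x ⟨l, rfl⟩
    simp only [SetLike.mem_coe]
    -- the Vandermonde matrix
    obtain ⟨V, hV⟩ : ∃ V : Matrix (Fin k) (Fin k) ℝ,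
      V = Matrix.vandermonde (fun κ : Fin k => ((κ : ℕ) : ℝ) * h) := ⟨_, rfl⟩
    have hdet : V.det ≠ 0 := by
      rw [hV, Matrix.det_vandermonde_ne_zero_iff]
      intro a b hab
      have := mul_right_cancel₀ hh.ne' hab
      exact Fin.ext (by exact_mod_cast this)
    have hinv : V⁻¹ * V = 1 := Matrix.nonsing_inv_mul V (isUnit_iff_ne_zero.2 hdet)
    have h1 : tv γ (z i) l = ∑ κ : Fin k, V⁻¹ l κ • co k hN γ z h (k * i + κ) := by
      have h2 : ∀ κ : Fin k, co k hN γ z h (k * i + κ) = ∑ l' : Fin k, V κ l' • tv γ (z i) l' := by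
        intro κ
        rw [hcol κ κ.2, Finset.sum_range]
        refine Finset.sum_congr rfl fun l' _ => ?_
        rw [hV, Matrix.vandermonde_apply]
      simp only [h2, Finset.smul_sum, smul_smul]
      rw [Finset.sum_comm]
      simp only [← Finset.sum_smul]
      have h3 : ∀ l' : Fin k, ∑ κ : Fin k, V⁻¹ l κ * V κ l' = if l = l' then 1 else 0 := by
        intro l'
        rw [← Matrix.mul_apply, hinv, Matrix.one_apply]
      simp only [h3, ite_smul, one_smul, zero_smul]
      rw [Finset.sum_ite_eq]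
      simp
    have h2 : iteratedDeriv (l : ℕ) γ (z i) = ((l : ℕ).factorial : ℝ) • tv γ (z i) l := by
      unfold tv
      rw [smul_smul, mul_inv_cancel₀ (by positivity), one_smul]
    rw [h2, hc_smul, h1, hc_sum]
    refine Submodule.smul_mem _ _ (Submodule.sum_mem _ fun κ _ => Submodule.smul_mem _ _ ?_)
    refine subset_span ⟨co k hN γ z h (k * i + κ), ⟨⟨k * i + κ, ?_⟩, ?_, rfl⟩, rfl⟩
    · have h5 : k * (i : ℕ) + κ < k * i + k := by
        have := κ.2
        omega
      have h6 : k * (i : ℕ) + k ≤ k * N := by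
        calc k * (i : ℕ) + k = k * (i + 1) := by ring
          _ ≤ k * N := Nat.mul_le_mul_left k i.2
      omega
    · show (k * (i : ℕ) + κ) / k = i
      rw [Nat.mul_add_div (by omega), Nat.div_eq_of_lt κ.2, add_zero]

theorem curve_tp {n k N : ℕ} (hk : 1 ≤ k) (hkn : k ≤ n) (hN : 1 ≤ N) {γ : ℝ → Fin n → ℝ}
    (hγ : TR.ConvexCurve n γ) {z : Fin N → ℝ} (hz : StrictMono z)
    (hosc : ∀ i, Module.finrank ℂ (osc n k γ (z i)) = k) :
    ∃ (r : Matrix (Fin n) (Fin n) ℝ) (A : Matrix (Fin n) (Fin (k * N + 2)) ℝ), r.det ≠ 0 ∧ TP A ∧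
      ∀ i : Fin N, win k A i = (osc n k γ (z i)).map (cmap r) := by
  classical
  obtain ⟨ε, hε, hpos⟩ := TR.sign_const hγ
  obtain ⟨h, hh, hA⟩ := co_tp hk hkn hN hγ hz hosc hε hpos (k * N + 2)
  obtain ⟨A₀, hA₀⟩ : ∃ A₀ : Matrix (Fin n) (Fin (k * N + 2)) ℝ,
    A₀ = fun a (p : Fin (k * N + 2)) => co k hN γ z h p a := ⟨_, rfl⟩
  have hn : 0 < n := by omega
  obtain ⟨r, hr⟩ : ∃ r : Matrix (Fin n) (Fin n) ℝ,
    r = Matrix.diagonal (fun i : Fin n => if i = ⟨0, hn⟩ then ε else 1) := ⟨_, rfl⟩
  have hdet : r.det = ε := by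
    rw [hr, Matrix.det_diagonal, Finset.prod_ite_eq']
    simp
  have hε0 : ε ≠ 0 := by
    rcases hε with h1 | h1 <;> rw [h1] <;> norm_num
  refine ⟨r, r * A₀, by rwa [hdet], ?_, ?_⟩
  · intro σ hσ
    have h1 : (r * A₀).submatrix id σ = r * A₀.submatrix id σ := by
      ext a b
      simp [Matrix.mul_apply]
    have h2 : A₀.submatrix id σ = (Matrix.of fun i => co k hN γ z h (σ i))ᵀ := by
      ext a b
      rw [hA₀]
      rfl
    rw [h1, Matrix.det_mul, hdet, h2, Matrix.det_transpose]
    exact hA σ hσ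
  · intro i
    rw [win_mul, hA₀, co_win hk hN hh i]

end GTR
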