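import Pool.Agent.GTR.HDefs

/-!
# GTR HInv : invariance of total reality under invertible real matrices

`cmap r` is a linear bijection of `Fin n → ℂ` (`det` of the complexified matrix is `det r ≠ 0`), and
`cmap r (cxv v) = cxv (r.mulVec v)`. `V ↦ V.map (cmap r)` is a bijection of the subspaces which
preserves `finrank`, `⊓` and `≠ ⊥`, so it maps `SP n l W` onto `SP n l (fun i => (W i).map (cmap r))`
(`Submodule.map_inf`, `LinearEquiv.finrank_map_eq`, `Submodule.map_eq_bot_iff`...). It maps real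
subspaces to real subspaces: `(span ℂ (cxv '' V0)).map (cmap r) = span ℂ (cxv '' (V0.map r))`; the
same for `r⁻¹`. `ncard` is preserved by injective maps (`Set.ncard_image_of_injective`).

`osc_mulVec`: for the curves `cv G` all derivatives exist, and the iterated derivative commutes with
the linear map `r.mulVec`.
-/

set_option autoImplicit false

open Matrix Submodule

namespace GTR

private theorem cmap_inv {n : ℕ} {r : Matrix (Fin n) (Fin n) ℝ} (hr : r.det ≠ 0) :
    (cmap r⁻¹).comp (cmap r) = LinearMap.id := by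
  have hu : IsUnit r.det := isUnit_iff_ne_zero.2 hr
  rw [cmap, cmap, ← Matrix.toLin'_mul]
  have h : (r⁻¹).map (fun y : ℝ => (y : ℂ)) * r.map (fun y : ℝ => (y : ℂ)) = 1 := by
    have h1 := Matrix.map_mul (L := r⁻¹) (M := r) (f := Complex.ofRealHom)
    have h2 : (r⁻¹).map (fun y : ℝ => (y : ℂ)) * r.map (fun y : ℝ => (y : ℂ)) =
        (r⁻¹ * r).map Complex.ofRealHom := h1.symm
    rw [h2, Matrix.nonsing_inv_mul _ hu]
    exact Matrix.map_one _ (map_zero _) (map_one _)
  rw [h, Matrix.toLin'_one]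

private theorem inv_det_ne {n : ℕ} {r : Matrix (Fin n) (Fin n) ℝ} (hr : r.det ≠ 0) :
    r⁻¹.det ≠ 0 := by
  rw [Matrix.det_nonsing_inv, Ring.inverse_eq_inv']
  exact inv_ne_zero hr

private theorem cmap_inv' {n : ℕ} {r : Matrix (Fin n) (Fin n) ℝ} (hr : r.det ≠ 0) :
    (cmap r).comp (cmap r⁻¹) = LinearMap.id := by
  have h := cmap_inv (inv_det_ne hr)
  rwa [Matrix.nonsing_inv_nonsing_inv r (isUnit_iff_ne_zero.2 hr)] at h

/-- `cmap r` as an equivalence -/
private noncomputable def ceq {n : ℕ} {r : Matrix (Fin n) (Fin n) ℝ} (hr : r.det ≠ 0) :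
    (Fin n → ℂ) ≃ₗ[ℂ] (Fin n → ℂ) :=
  LinearEquiv.ofLinearMap (cmap r) (cmap r⁻¹) (cmap_inv' hr) (cmap_inv hr)

private theorem ceq_coe {n : ℕ} {r : Matrix (Fin n) (Fin n) ℝ} (hr : r.det ≠ 0) :
    ((ceq hr : (Fin n → ℂ) ≃ₗ[ℂ] (Fin n → ℂ)) : (Fin n → ℂ) →ₗ[ℂ] (Fin n → ℂ)) = cmap r := by
  ext x
  rfl

private theorem cmap_injective {n : ℕ} {r : Matrix (Fin n) (Fin n) ℝ} (hr : r.det ≠ 0) :
    Function.Injective (cmap r) := by
  intro x y hxy
  have h := congrArg (cmap r⁻¹) hxy
  rwa [← LinearMap.comp_apply, ← LinearMap.comp_apply, cmap_inv hr, LinearMap.id_apply,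
    LinearMap.id_apply] at h

private theorem cmap_cxv {n : ℕ} (r : Matrix (Fin n) (Fin n) ℝ) (v : Fin n → ℝ) :
    cmap r (cxv v) = cxv (r.mulVec v) := by
  funext a
  rw [cmap, Matrix.toLin'_apply, Matrix.mulVec, cxv, Matrix.mulVec, dotProduct, dotProduct]
  push_cast
  rfl

private theorem map_inv_map {n : ℕ} {r : Matrix (Fin n) (Fin n) ℝ} (hr : r.det ≠ 0)
    (V : Submodule ℂ (Fin n → ℂ)) : (V.map (cmap r)).map (cmap r⁻¹) = V := by
  rw [← Submodule.map_comp, cmap_inv hr, Submodule.map_id]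

private theorem map_map_inv {n : ℕ} {r : Matrix (Fin n) (Fin n) ℝ} (hr : r.det ≠ 0)
    (V : Submodule ℂ (Fin n → ℂ)) : (V.map (cmap r⁻¹)).map (cmap r) = V := by
  rw [← Submodule.map_comp, cmap_inv' hr, Submodule.map_id]

private theorem real_map {n : ℕ} (r : Matrix (Fin n) (Fin n) ℝ)
    {V : Submodule ℂ (Fin n → ℂ)} (hV : IsRealSub V) : IsRealSub (V.map (cmap r)) := by
  obtain ⟨V0, rfl⟩ := hV
  refine ⟨V0.map (Matrix.mulVecLin r), ?_⟩
  rw [Submodule.map_span, Submodule.map_coe, ← Set.image_comp, ← Set.image_comp]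
  congr 1
  apply Set.image_congr
  intro v _
  exact cmap_cxv r v

private theorem finrank_cmap {n : ℕ} {r : Matrix (Fin n) (Fin n) ℝ} (hr : r.det ≠ 0)
    (V : Submodule ℂ (Fin n → ℂ)) :
    Module.finrank ℂ (V.map (cmap r)) = Module.finrank ℂ V := by
  rw [← ceq_coe hr]
  exact LinearEquiv.finrank_map_eq (ceq hr) V

private theorem SP_mem {n l : ℕ} {ι : Type*} {r : Matrix (Fin n) (Fin n) ℝ} (hr : r.det ≠ 0)
    (W : ι → Submodule ℂ (Fin n → ℂ)) {V : Submodule ℂ (Fin n → ℂ)} (hV : V ∈ SP n l W) :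
    V.map (cmap r) ∈ SP n l (fun i => (W i).map (cmap r)) := by
  refine ⟨(finrank_cmap hr V).trans hV.1, fun i h => hV.2 i ?_⟩
  rw [← Submodule.map_inf _ (cmap_injective hr)] at h
  have h1 := congrArg (Submodule.map (cmap r⁻¹)) h
  rwa [map_inv_map hr, Submodule.map_bot] at h1

private theorem SP_eq {n l : ℕ} {ι : Type*} {r : Matrix (Fin n) (Fin n) ℝ} (hr : r.det ≠ 0)
    (W : ι → Submodule ℂ (Fin n → ℂ)) :
    SP n l (fun i => (W i).map (cmap r)) = (Submodule.map (cmap r)) '' SP n l W := by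
  apply Set.Subset.antisymm
  · intro V hV
    refine ⟨V.map (cmap r⁻¹), ?_, map_map_inv hr V⟩
    have h := SP_mem (inv_det_ne hr) _ hV
    have h2 : (fun i => ((W i).map (cmap r)).map (cmap r⁻¹)) = W :=
      funext fun i => map_inv_map hr (W i)
    rwa [h2] at h
  · rintro _ ⟨V, hV, rfl⟩
    exact SP_mem hr W hV

theorem TRl_map {n l f : ℕ} {ι : Type*} {r : Matrix (Fin n) (Fin n) ℝ} (hr : r.det ≠ 0)
    (W : ι → Submodule ℂ (Fin n → ℂ)) :
    TRl n l f (fun i => (W i).map (cmap r)) ↔ TRl n l f W := by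
  have hinj : Function.Injective (Submodule.map (cmap r) :
      Submodule ℂ (Fin n → ℂ) → Submodule ℂ (Fin n → ℂ)) :=
    Submodule.map_injective_of_injective (cmap_injective hr)
  unfold TRl
  rw [SP_eq hr W, Set.finite_image_iff hinj.injOn, Set.ncard_image_of_injective _ hinj]
  refine and_congr_right fun _ => and_congr_right fun _ => ?_
  constructor
  · intro h V hV
    have h1 := real_map r⁻¹ (h _ ⟨V, hV, rfl⟩)
    rwa [map_inv_map hr] at h1
  · rintro h _ ⟨V, hV, rfl⟩
    exact real_map r (h V hV)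

theorem TRl_reindex {n l f : ℕ} {ι κ : Type*} (e : ι ≃ κ) (W : κ → Submodule ℂ (Fin n → ℂ)) :
    TRl n l f (fun i => W (e i)) ↔ TRl n l f W := by
  have h : SP n l (fun i => W (e i)) = SP n l W := by
    ext V
    simp only [SP, Set.mem_ofPred_eq]
    refine and_congr_right fun _ => ?_
    constructor
    · intro h i
      have := h (e.symm i)
      rwa [Equiv.apply_symm_apply] at this
    · intro h i
      exact h (e i)
  unfold TRl
  rw [h]

theorem osc_mulVec {n k : ℕ} {γ : ℝ → Fin n → ℝ} (hγ : ContDiff ℝ ⊤ γ)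
    (r : Matrix (Fin n) (Fin n) ℝ) (x : ℝ) :
    osc n k (fun y => r.mulVec (γ y)) x = (osc n k γ x).map (cmap r) := by
  set L : (Fin n → ℝ) →L[ℝ] (Fin n → ℝ) := LinearMap.toContinuousLinearMap (Matrix.mulVecLin r)
    with hL
  have hLa : ∀ v, L v = r.mulVec v := fun v => rfl
  have key : ∀ j : ℕ, iteratedDeriv j (fun y => r.mulVec (γ y)) =
      fun y => r.mulVec (iteratedDeriv j γ y) := by
    intro j
    induction j with
    | zero => simp only [iteratedDeriv_zero]
    | succ j ih =>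
      rw [iteratedDeriv_succ, ih]
      funext y
      rw [iteratedDeriv_succ]
      have hd : DifferentiableAt ℝ (iteratedDeriv j γ) y :=
        (hγ.differentiable_iteratedDeriv j (by exact_mod_cast WithTop.coe_lt_top _)) y
      have h1 := (L.hasFDerivAt.comp_hasDerivAt y hd.hasDerivAt).deriv
      exact h1
  unfold osc
  rw [Submodule.map_span, ← Set.range_comp]
  congr 2
  funext j
  rw [key, Function.comp_apply, cmap_cxv]

theorem sc_contDiff {n : ℕ} {ι : Type*} [Fintype ι] (m : ℕ) (φ : ι → ℝ) (A : Matrix (Fin n) ι ℝ) :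
    ContDiff ℝ ⊤ (sc m φ A) := by
  rw [contDiff_pi]
  intro a
  unfold sc
  refine ContDiff.sum fun j _ => ?_
  refine ContDiff.mul ?_ contDiff_const
  exact (Real.contDiff_sin.comp (contDiff_id.sub contDiff_const)).pow m

end GTR
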