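import Pool.Agent.GTR.HOsc

/-!
# GTR HWin : every totally positive configuration of windows is osculating (8.3)

Positions `s_p = 3 k (p / k) + p % k` (strictly increasing in `p < K`, `s_p < 3 K + 3 k`),
`θ = π / (2 (3 K + 3 k))`, `φ p = θ s_p ∈ [0, π/2)`, `x i = 3 k i θ + π/2` for `i < N` (the numbers
`3 k i θ ∈ [0, π/2)` are different), `J_i = {p : p / k = i}` (exactly `k` elements because `k N ≤ K`).
`sin (x i - φ p) = cos (φ p - 3 k i θ)` with `|φ p - 3 k i θ| < π/2`, hence positive; for `a ∈ J_i`,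
`p ∉ J_i`: `|s_a - 3 k i| ≤ k - 1 < 2 k + 1 ≤ |s_p - 3 k i|`, so `sin (x i - φ p) < sin (x i - φ a)`
(cos is even and decreasing on `[0, π/2]`), and `eta m φ (x i) J_i p a → 0` as `m → ∞`.
`cos/sin (x i - φ a) = tan (φ a - 3 k i θ)` is injective on `J_i` (even on all `p`).

Let `H_m` be the `K × K` matrix with `H_m p a = eta m φ (x i) J_i p a` if `a / k = i < N` and
`p / k ≠ i`, and `0` otherwise; `H_m → 0`. For large `m = n - 1 + 2 p'` the matrix `1 + H_m` is
invertible and `A' = A (1 + H_m)⁻¹` is close to `A`, so `TP A'` (finitely many strict inequalities,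
continuity of `det` and of the inverse at `1`). Since `A' (1 + H_m) = A`, the window vectors in
`osc_window` for `A'`, `J_i` are exactly the columns `A_a`, `a ∈ J_i`.
-/

set_option autoImplicit false

open Matrix Submodule

namespace GTR

private lemma win_card {k N K : ℕ} (hk : 1 ≤ k) (hK : k * N ≤ K) (i : ℕ) (hi : i < N) :
    (Finset.univ.filter (fun p : Fin K => (p : ℕ) / k = i)).card = k := by
  have h1 : k * i + k ≤ K := by
    calc k * i + k = k * (i + 1) := by ring
      _ ≤ k * N := Nat.mul_le_mul_left k hi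
      _ ≤ K := hK
  have h2 : (Finset.range k).card = (Finset.univ.filter (fun p : Fin K => (p : ℕ) / k = i)).card := by
    apply Finset.card_bij (fun r hr => (⟨k * i + r, by
      have := Finset.mem_range.1 hr
      omega⟩ : Fin K))
    · intro r hr
      have hr' := Finset.mem_range.1 hr
      rw [Finset.mem_filter]
      refine ⟨Finset.mem_univ _, ?_⟩
      show (k * i + r) / k = i
      rw [Nat.mul_add_div (by omega), Nat.div_eq_of_lt hr', Nat.add_zero]
    · intro r hr r' hr' h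
      have := congrArg Fin.val h
      simp only at this
      omega
    · intro p hp
      rw [Finset.mem_filter] at hp
      refine ⟨(p : ℕ) % k, Finset.mem_range.2 (Nat.mod_lt _ (by omega)), ?_⟩
      apply Fin.ext
      show k * i + (p : ℕ) % k = p
      rw [← hp.2]
      exact Nat.div_add_mod _ _
  rw [← h2, Finset.card_range]

/-- the positions -/
private def pos (k p : ℕ) : ℕ := 3 * (k * (p / k)) + p % k

private lemma pos_lt {k p q : ℕ} (hk : 1 ≤ k) (h : p < q) : pos k p < pos k q := by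
  unfold pos
  have h1 := Nat.div_le_div_right (c := k) h.le
  have hp := Nat.div_add_mod p k
  have hq := Nat.div_add_mod q k
  have mp := Nat.mod_lt p (show 0 < k by omega)
  rcases Nat.lt_or_ge (p / k) (q / k) with h2 | h2
  · have h3 : k * (p / k + 1) ≤ k * (q / k) := Nat.mul_le_mul_left k h2
    rw [Nat.mul_add, Nat.mul_one] at h3
    omega
  · have h3 : p / k = q / k := le_antisymm h1 h2
    rw [h3] at hp ⊢
    omega

private lemma pos_bd {k p K : ℕ} (hk : 1 ≤ k) (h : p < K) : pos k p < 3 * K + 3 * k := by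
  unfold pos
  have hp := Nat.div_add_mod p k
  have mp := Nat.mod_lt p (show 0 < k by omega)
  omega

private lemma pos_in {k p i : ℕ} (h : p / k = i) : (pos k p : ℤ) - 3 * (k * i) = (p % k : ℕ) := by
  unfold pos
  rw [h]
  push_cast
  ring

private lemma pos_out {k p i : ℕ} (hk : 1 ≤ k) (h : p / k ≠ i) :
    2 * (k : ℤ) + 1 ≤ |(pos k p : ℤ) - 3 * (k * i)| := by
  unfold pos
  have mp := Nat.mod_lt p (show 0 < k by omega)
  have mp' : ((p % k : ℕ) : ℤ) < k := by exact_mod_cast mp
  have mp0 : (0 : ℤ) ≤ ((p % k : ℕ) : ℤ) := Int.natCast_nonneg _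
  have hk' : (1 : ℤ) ≤ k := by exact_mod_cast hk
  rcases Nat.lt_or_ge (p / k) i with h2 | h2
  · have h3 : k * (p / k + 1) ≤ k * i := Nat.mul_le_mul_left k h2
    have h4 : (k : ℤ) * ((p / k : ℕ) : ℤ) + k ≤ k * i := by
      have : ((k * (p / k + 1) : ℕ) : ℤ) ≤ ((k * i : ℕ) : ℤ) := by exact_mod_cast h3
      push_cast at this
      push_cast
      linarith
    rw [le_abs]
    right
    push_cast at h4 mp' ⊢
    linarith
  · have h3 : k * (i + 1) ≤ k * (p / k) := Nat.mul_le_mul_left k (by omega)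
    have h4 : (k : ℤ) * i + k ≤ k * ((p / k : ℕ) : ℤ) := by
      have : ((k * (i + 1) : ℕ) : ℤ) ≤ ((k * (p / k) : ℕ) : ℤ) := by exact_mod_cast h3
      push_cast at this
      push_cast
      linarith
    rw [le_abs]
    left
    push_cast at h4 mp0 ⊢
    linarith

theorem windows {n k N K : ℕ} (hk : 1 ≤ k) (hkn : k ≤ n) (hK : k * N ≤ K)
    {A : Matrix (Fin n) (Fin K) ℝ} (hA : TP A) :
    ∃ (p : ℕ) (φ : Fin K → ℝ) (x : Fin N → ℝ) (A' : Matrix (Fin n) (Fin K) ℝ),
      StrictMono φ ∧ (∀ i j, φ j - φ i < Real.pi) ∧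
      (∀ i j, i ≠ j → Real.sin (x i - x j) ≠ 0) ∧ TP A' ∧
      ∀ i : Fin N, osc n k (sc (n - 1 + 2 * p) φ A') (x i) = win k A i := by
  have hpi := Real.pi_pos
  obtain ⟨T, hT⟩ : ∃ T : ℝ, T = ((3 * K + 3 * k : ℕ) : ℝ) := ⟨_, rfl⟩
  have hT0 : 0 < T := by
    rw [hT]
    exact_mod_cast (show 0 < 3 * K + 3 * k by omega)
  obtain ⟨θ, hθ⟩ : ∃ θ : ℝ, θ = Real.pi / (2 * T) := ⟨_, rfl⟩
  have hθ0 : 0 < θ := by rw [hθ]; positivity
  have hθT : θ * T = Real.pi / 2 := by rw [hθ]; field_simp
  obtain ⟨φ, hφ⟩ : ∃ φ : Fin K → ℝ, φ = fun p : Fin K => θ * (pos k p : ℝ) := ⟨_, rfl⟩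
  obtain ⟨x, hx⟩ : ∃ x : Fin N → ℝ, x = fun i : Fin N => θ * (3 * (k * (i : ℕ)) : ℝ) + Real.pi / 2 :=
    ⟨_, rfl⟩
  have hmono : StrictMono φ := by
    intro p q hpq
    rw [hφ]
    have h1 : pos k p < pos k q := pos_lt hk hpq
    have h2 : (pos k p : ℝ) < (pos k q : ℝ) := by exact_mod_cast h1
    exact mul_lt_mul_of_pos_left h2 hθ0
  have hφ0 : ∀ p, 0 ≤ φ p := by
    intro p; rw [hφ]; positivity
  have hφ1 : ∀ p, φ p < Real.pi / 2 := by
    intro p
    rw [hφ, ← hθT, hT]
    have h1 : pos k p < 3 * K + 3 * k := pos_bd hk p.2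
    have h2 : (pos k p : ℝ) < ((3 * K + 3 * k : ℕ) : ℝ) := by exact_mod_cast h1
    exact mul_lt_mul_of_pos_left h2 hθ0
  -- the centres
  have hc0 : ∀ i : Fin N, 0 ≤ θ * (3 * (k * (i : ℕ)) : ℝ) := by
    intro i; positivity
  have hc1 : ∀ i : Fin N, θ * (3 * (k * (i : ℕ)) : ℝ) < Real.pi / 2 := by
    intro i
    rw [← hθT, hT]
    have h1 : k * (i : ℕ) ≤ k * N := Nat.mul_le_mul_left k i.2.le
    have h2 : 3 * (k * (i : ℕ)) < 3 * K + 3 * k := by omega
    have h3 : (3 * (k * (i : ℕ)) : ℝ) < ((3 * K + 3 * k : ℕ) : ℝ) := by exact_mod_cast h2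
    exact mul_lt_mul_of_pos_left h3 hθ0
  have hdist : ∀ i j : Fin N, i < j → θ * (3 * (k * (i : ℕ)) : ℝ) < θ * (3 * (k * (j : ℕ)) : ℝ) := by
    intro i j hij
    apply mul_lt_mul_of_pos_left _ hθ0
    have h1 : k * (i : ℕ) < k * (j : ℕ) := Nat.mul_lt_mul_of_pos_left hij (by omega)
    have h2 : ((k * (i : ℕ) : ℕ) : ℝ) < ((k * (j : ℕ) : ℕ) : ℝ) := by exact_mod_cast h1
    push_cast at h2
    linarith
  have hsx : ∀ i j, i ≠ j → Real.sin (x i - x j) ≠ 0 := by
    have key : ∀ i j : Fin N, i < j → 0 < Real.sin (x j - x i) := by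
      intro i j hij
      apply Real.sin_pos_of_pos_of_lt_pi
      · rw [hx]
        have := hdist i j hij
        simp only
        linarith
      · rw [hx]
        have h1 := hc1 j
        have h2 := hc0 i
        simp only
        linarith
    intro i j hij
    rcases lt_or_gt_of_ne hij with h | h
    · have := key i j h
      rw [← neg_sub, Real.sin_neg]
      linarith
    · exact (key j i h).ne'
  -- the angle
  have hxφ : ∀ (i : Fin N) (p : Fin K), x i - φ p =
      Real.pi / 2 - θ * (((pos k p : ℤ) - 3 * (k * (i : ℕ)) : ℤ) : ℝ) := by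
    intro i p
    rw [hx, hφ]
    push_cast
    ring
  have habs : ∀ (i : Fin N) (p : Fin K),
      |θ * (((pos k p : ℤ) - 3 * (k * (i : ℕ)) : ℤ) : ℝ)| < Real.pi / 2 := by
    intro i p
    have e : θ * (((pos k p : ℤ) - 3 * (k * (i : ℕ)) : ℤ) : ℝ) =
        φ p - θ * (3 * (k * (i : ℕ)) : ℝ) := by
      rw [hφ]; push_cast; ring
    rw [e, abs_lt]
    constructor <;> linarith [hφ0 p, hφ1 p, hc0 i, hc1 i]
  have hsin : ∀ (i : Fin N) (p : Fin K), Real.sin (x i - φ p) =
      Real.cos (θ * (((pos k p : ℤ) - 3 * (k * (i : ℕ)) : ℤ) : ℝ)) := by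
    intro i p
    rw [hxφ, Real.sin_pi_div_two_sub]
  have hcos : ∀ (i : Fin N) (p : Fin K), Real.cos (x i - φ p) =
      Real.sin (θ * (((pos k p : ℤ) - 3 * (k * (i : ℕ)) : ℤ) : ℝ)) := by
    intro i p
    rw [hxφ, Real.cos_pi_div_two_sub]
  have hspos : ∀ (i : Fin N) (p : Fin K), 0 < Real.sin (x i - φ p) := by
    intro i p
    rw [hsin]
    have := abs_lt.1 (habs i p)
    exact Real.cos_pos_of_mem_Ioo ⟨by linarith [this.1], this.2⟩
  have hlt : ∀ (i : Fin N) (p a : Fin K), (a : ℕ) / k = i → (p : ℕ) / k ≠ i →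
      Real.sin (x i - φ p) < Real.sin (x i - φ a) := by
    intro i p a ha hp
    rw [hsin, hsin, ← Real.cos_abs, ← Real.cos_abs (θ * (((pos k a : ℤ) - 3 * (k * (i : ℕ)) : ℤ) : ℝ))]
    apply Real.cos_lt_cos_of_nonneg_of_le_pi (abs_nonneg _) (by linarith [habs i p])
    rw [abs_mul, abs_mul, abs_of_pos hθ0]
    apply mul_lt_mul_of_pos_left _ hθ0
    rw [← Int.cast_abs, ← Int.cast_abs, Int.cast_lt]
    have h1 := pos_out hk hp
    have h2 := pos_in ha
    rw [h2]
    have h3 : (a : ℕ) % k < k := Nat.mod_lt _ (by omega)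
    rw [abs_of_nonneg (Int.natCast_nonneg _)]
    have h4 : (((a : ℕ) % k : ℕ) : ℤ) < k := by exact_mod_cast h3
    have hk' : (1 : ℤ) ≤ k := by exact_mod_cast hk
    linarith
  -- the windows
  obtain ⟨J, hJ⟩ : ∃ J : ℕ → Finset (Fin K), J = fun i =>
    Finset.univ.filter (fun p : Fin K => (p : ℕ) / k = i) := ⟨_, rfl⟩
  have hJm : ∀ i (p : Fin K), p ∈ J i ↔ (p : ℕ) / k = i := by
    intro i p; rw [hJ]; simp
  have hJc : ∀ i : Fin N, (J i).card = k := by
    intro i
    rw [hJ]
    exact win_card hk hK i i.2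
  have hinj : ∀ i : Fin N, Set.InjOn
      (fun p => Real.cos (x i - φ p) / Real.sin (x i - φ p)) (J i) := by
    intro i p _ q _ h
    simp only at h
    rw [hsin, hsin, hcos, hcos, ← Real.tan_eq_sin_div_cos, ← Real.tan_eq_sin_div_cos] at h
    have h1 := abs_lt.1 (habs i p)
    have h2 := abs_lt.1 (habs i q)
    have h3 := Real.injOn_tan ⟨by linarith [h1.1], h1.2⟩ ⟨by linarith [h2.1], h2.2⟩ h
    have h4 : φ p = φ q := by
      have e : ∀ r : Fin K, φ r = θ * (((pos k r : ℤ) - 3 * (k * (i : ℕ)) : ℤ) : ℝ) +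
          θ * (3 * (k * (i : ℕ)) : ℝ) := by
        intro r; rw [hφ]; push_cast; ring
      rw [e p, e q, h3]
    exact hmono.injective h4
  -- the matrices
  obtain ⟨H, hH⟩ : ∃ H : ℕ → Matrix (Fin K) (Fin K) ℝ, H = fun m (p a : Fin K) =>
    if h : (a : ℕ) / k < N then
      (if (p : ℕ) / k ≠ (a : ℕ) / k then
        eta m φ (x ⟨(a : ℕ) / k, h⟩) (J ((a : ℕ) / k)) p a else 0) else 0 := ⟨_, rfl⟩
  have hH0 : Filter.Tendsto H Filter.atTop (nhds 0) := by
    refine tendsto_pi_nhds.2 fun p => tendsto_pi_nhds.2 fun a => ?_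
    rw [hH]
    show Filter.Tendsto _ _ (nhds (0 : ℝ))
    by_cases h : (a : ℕ) / k < N
    · by_cases h2 : (p : ℕ) / k ≠ (a : ℕ) / k
      · simp only [dif_pos h, if_pos h2]
        unfold eta
        rw [← zero_mul (∏ b ∈ (J ((a : ℕ) / k)).erase a,
          ((Real.cos (x ⟨(a : ℕ) / k, h⟩ - φ p) / Real.sin (x ⟨(a : ℕ) / k, h⟩ - φ p) -
            Real.cos (x ⟨(a : ℕ) / k, h⟩ - φ b) / Real.sin (x ⟨(a : ℕ) / k, h⟩ - φ b)) /
          (Real.cos (x ⟨(a : ℕ) / k, h⟩ - φ a) / Real.sin (x ⟨(a : ℕ) / k, h⟩ - φ a) -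
            Real.cos (x ⟨(a : ℕ) / k, h⟩ - φ b) / Real.sin (x ⟨(a : ℕ) / k, h⟩ - φ b))))]
        apply Filter.Tendsto.mul_const
        apply tendsto_pow_atTop_nhds_zero_of_lt_one
        · exact div_nonneg (hspos _ _).le (hspos _ _).le
        · rw [div_lt_one (hspos _ _)]
          exact hlt ⟨(a : ℕ) / k, h⟩ p a rfl h2
      · simp only [dif_pos h, if_neg h2]
        exact tendsto_const_nhds
    · simp only [dif_neg h]
      exact tendsto_const_nhds
  have hseq : Filter.Tendsto (fun p : ℕ => H (n - 1 + 2 * p)) Filter.atTop (nhds 0) := by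
    apply hH0.comp
    apply Filter.tendsto_atTop_mono (f := fun p : ℕ => p) (fun p => by omega)
    exact Filter.tendsto_id
  have hdet : ∀ᶠ Q : Matrix (Fin K) (Fin K) ℝ in nhds 0, 0 < (1 + Q).det := by
    have hc : Continuous (fun Q : Matrix (Fin K) (Fin K) ℝ => (1 + Q).det) :=
      (continuous_const.add continuous_id).matrix_det
    have := hc.continuousAt (x := 0)
    apply this.eventually (lt_mem_nhds _)
    simp
  have hmin : ∀ σ : Fin n → Fin K, ∀ᶠ Q : Matrix (Fin K) (Fin K) ℝ in nhds 0,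
      StrictMono σ → 0 < ((A * (1 + Q).adjugate).submatrix id σ).det := by
    intro σ
    by_cases hσ : StrictMono σ
    · have hc : Continuous (fun Q : Matrix (Fin K) (Fin K) ℝ =>
          ((A * (1 + Q).adjugate).submatrix id σ).det) := by
        apply Continuous.matrix_det
        apply Continuous.matrix_submatrix
        apply Continuous.matrix_mul continuous_const
        exact (continuous_const.add continuous_id).matrix_adjugate
      have := hc.continuousAt (x := 0)
      have h2 := this.eventually (lt_mem_nhds (a := 0) (by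
        simp only [add_zero, Matrix.adjugate_one, Matrix.mul_one]
        exact hA σ hσ))
      filter_upwards [h2] with Q hQ _
      exact hQ
    · filter_upwards with Q h
      exact absurd h hσ
  have hall := hdet.and (Filter.eventually_all.2 hmin)
  obtain ⟨p, hp1, hp2⟩ := (hseq.eventually hall).exists
  obtain ⟨M, hM⟩ : ∃ M, M = 1 + H (n - 1 + 2 * p) := ⟨_, rfl⟩
  rw [← hM] at hp1
  refine ⟨p, φ, x, (M.det)⁻¹ • (A * M.adjugate), hmono, ?_, hsx, ?_, ?_⟩
  · intro i j
    linarith [hφ0 i, hφ1 j]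
  · intro σ hσ
    rw [Matrix.submatrix_smul]
    show 0 < ((M.det)⁻¹ • (A * M.adjugate).submatrix id σ).det
    rw [Matrix.det_smul]
    have := hp2 σ hσ
    rw [← hM] at this
    positivity
  · intro i
    have hprod : ((M.det)⁻¹ • (A * M.adjugate)) * M = A := by
      rw [Matrix.smul_mul, Matrix.mul_assoc, Matrix.adjugate_mul, Matrix.mul_smul, Matrix.mul_one,
        smul_smul, inv_mul_cancel₀ hp1.ne', one_smul]
    obtain ⟨A', hA'⟩ : ∃ A', A' = (M.det)⁻¹ • (A * M.adjugate) := ⟨_, rfl⟩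
    rw [← hA'] at hprod ⊢
    rw [osc_window hk (by omega) φ A' (x i) (J i) (hJc i) (hspos i) (hinj i)]
    unfold win
    congr 2
    ext v
    constructor
    · rintro ⟨a, ha, rfl⟩
      refine ⟨a, (hJm i a).1 ha, ?_⟩
      funext r
      have h1 := congrFun (congrFun hprod r) a
      rw [← h1, Matrix.mul_apply, hM]
      simp only [Matrix.add_apply, Matrix.one_apply, mul_add, Finset.sum_add_distrib]
      have e1 : ∑ q : Fin K, A' r q * (if q = a then (1 : ℝ) else 0) = A' r a := by simp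
      rw [e1]
      congr 1
      have ha' := (hJm i a).1 ha
      have e2 : ∀ q : Fin K, A' r q * H (n - 1 + 2 * p) q a =
          if q ∈ J i then 0 else eta (n - 1 + 2 * p) φ (x i) (J i) q a * A' r q := by
        intro q
        rw [hH]
        have h3 : (a : ℕ) / k < N := by rw [ha']; exact i.2
        have h4 : (⟨(a : ℕ) / k, h3⟩ : Fin N) = i := Fin.ext ha'
        simp only [dif_pos h3, h4]
        by_cases h5 : q ∈ J i
        · have h6 := (hJm i q).1 h5
          rw [if_pos h5, if_neg (by rw [h6, ha']; exact fun h => h rfl), mul_zero]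
        · have h6 : (q : ℕ) / k ≠ (a : ℕ) / k := by
            rw [ha']; exact fun h => h5 ((hJm i q).2 h)
          rw [if_neg h5, if_pos h6, ha']
          ring
      rw [Finset.sum_congr rfl (fun q _ => e2 q), Finset.sum_ite, Finset.sum_const_zero, zero_add]
      apply Finset.sum_congr _ (fun _ _ => rfl)
      ext q
      simp
    · rintro ⟨a, ha, rfl⟩
      refine ⟨a, (hJm i a).2 ha, ?_⟩
      funext r
      have h1 := congrFun (congrFun hprod r) a
      rw [← h1, Matrix.mul_apply, hM]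
      simp only [Matrix.add_apply, Matrix.one_apply, mul_add, Finset.sum_add_distrib]
      have e1 : ∑ q : Fin K, A' r q * (if q = a then (1 : ℝ) else 0) = A' r a := by simp
      rw [e1]
      congr 1
      have ha' := ha
      have e2 : ∀ q : Fin K, A' r q * H (n - 1 + 2 * p) q a =
          if q ∈ J i then 0 else eta (n - 1 + 2 * p) φ (x i) (J i) q a * A' r q := by
        intro q
        rw [hH]
        have h3 : (a : ℕ) / k < N := by rw [ha']; exact i.2
        have h4 : (⟨(a : ℕ) / k, h3⟩ : Fin N) = i := Fin.ext ha'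
        simp only [dif_pos h3, h4]
        by_cases h5 : q ∈ J i
        · have h6 := (hJm i q).1 h5
          rw [if_pos h5, if_neg (by rw [h6, ha']; exact fun h => h rfl), mul_zero]
        · have h6 : (q : ℕ) / k ≠ (a : ℕ) / k := by
            rw [ha']; exact fun h => h5 ((hJm i q).2 h)
          rw [if_neg h5, if_pos h6, ha']
          ring
      rw [Finset.sum_congr rfl (fun q _ => e2 q), Finset.sum_ite, Finset.sum_const_zero, zero_add]
      apply Finset.sum_congr _ (fun _ _ => rfl)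
      ext q
      simp

end GTR
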