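import Pool.Agent.GTR.HPath
import Pool.Agent.GTR.HWin
import Pool.Agent.GTR.HCurve
import Pool.Agent.GTR.HInv

/-!
# GTR HFin : total reality for convex curves from total reality for nice curves
-/

set_option autoImplicit false

open Matrix Submodule

namespace GTR

/-- The main theorem on nice curves for `(k, l)`, with the number `f`. -/
def MT (k l f : ℕ) : Prop :=
  ∀ (M : ℕ) (G : ℝ → Matrix (Fin (k + l)) (Fin M) ℝ), Fam (k + l) M G →
    ∀ t : Fin (k * l) → ℝ, (∀ i j, i ≠ j → Real.sin (t i - t j) ≠ 0) →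
      TRl (k + l) l f (fun i => osc (k + l) k (cv (G 1)) (t i))

theorem final {k l f : ℕ} (hk : 1 ≤ k) (hl : 1 ≤ l) (h : MT k l f) {γ : ℝ → Fin (k + l) → ℝ}
    (hγ : TR.ConvexCurve (k + l) γ) {z : Fin (k * l) → ℝ} (hz : Function.Injective z)
    (hosc : ∀ i, Module.finrank ℂ (osc (k + l) k γ (z i)) = k) :
    TRl (k + l) l f (fun i => osc (k + l) k γ (z i)) := by
  obtain ⟨e, he⟩ : ∃ e : Equiv.Perm (Fin (k * l)), StrictMono (z ∘ e) :=
    ⟨Tuple.sort z, (Tuple.monotone_sort z).strictMono_of_injective (hz.comp (Equiv.injective _))⟩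
  have hN : 1 ≤ k * l := Nat.mul_pos hk hl
  obtain ⟨r, A, hr, hA, hwin⟩ := curve_tp hk (Nat.le_add_right k l) hN hγ he
    (fun i => hosc (e i))
  obtain ⟨p, φ, x, A', hφ, hπ, hx, hA', hosc'⟩ := windows hk (Nat.le_add_right k l)
    (show k * (k * l) ≤ k * (k * l) + 2 by omega) hA
  have hK : k + l + 1 ≤ k * (k * l) + 2 := by
    have h1 : l ≤ k * l := Nat.le_mul_of_pos_left l hk
    have h2 : k ≤ k * l := Nat.le_mul_of_pos_right k hl
    rcases Nat.lt_or_ge k 2 with h3 | h3
    · have : k = 1 := by omega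
      subst this
      omega
    · have h4 : 2 * (k * l) ≤ k * (k * l) := Nat.mul_le_mul_right _ h3
      omega
  obtain ⟨G, hG, r2, hr2, hG2⟩ := main_path (n := k + l) (p := p) (by omega) hK hφ hπ hA'
  have h1 := h _ G hG x hx
  have e1 : cv (G 1) = fun y => r2.mulVec (sc (k + l - 1 + 2 * p) φ A' y) := funext hG2
  rw [e1] at h1
  simp only [osc_mulVec (sc_contDiff _ _ _), hosc'] at h1
  rw [TRl_map hr2] at h1
  simp only [hwin] at h1
  rw [TRl_map hr] at h1
  exact (TRl_reindex e _).1 h1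

end GTR
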