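import Pool.Agent.GTR.RncTan

/-!
# GTR RncNice : the rational normal curve is nice; rotations

PROOFS.
* `rnc_rot`: `cos (x+a) = cos a cos x - sin a sin x`, `sin (x+a) = sin a cos x + cos a sin x`; expanding
  `cos(x+a)^(n-1-j) * sin(x+a)^j` binomially gives a form of degree `n - 1` in `cos x, sin x`, that is a
  combination of the `cos^(n-1-i) x sin^i x` with coefficients depending on `a, j, i` (for instance: the
  homogeneous polynomials; or `Polynomial`-coefficients of
  `(cos a - sin a X)^(n-1-j) * (sin a + cos a X)^j`, natDegree `≤ n - 1`, homogenised).  So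
  `rnc n (x+a) = R a *ᵥ rnc n x` for all `x`.  Invertible: `R (-a) * R a` fixes all vectors `rnc n x`, and
  these span (the jets at `0` are derivatives of the curve, `det_jet_rnc_of_cos` at `x = 0`: a vector `w`
  orthogonal to all `rnc n x` is orthogonal to all derivatives, so `w = 0`), hence `R (-a) * R a = 1`.
* `jet_shift`: `jet (fun y => R *ᵥ γ y) m x = R * jet γ m x`, `jet (fun y => γ (y + a)) m x = jet γ m (x+a)`.
* `rnc_nice`: smooth; `cos (x+π) = - cos x`, `sin (x+π) = - sin x`; the jets: if `cos x = 0` choose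
  `a` with `cos (x + a) ≠ 0` (`a = π/4`): `jet (rnc n) n (x + a) = R * jet (rnc n) n x`.
-/

set_option autoImplicit false

open Matrix Real Set Topology Filter

namespace GTC

/-- Forms of degree `m` in two variables. -/
private def Form (m : ℕ) (F : ℝ → ℝ → ℝ) : Prop :=
  ∃ r : ℕ → ℝ, ∀ c s, F c s = ∑ i ∈ Finset.range (m + 1), r i * (c ^ (m - i) * s ^ i)

private theorem form_one : Form 0 fun _ _ => 1 := by
  refine ⟨fun _ => 1, fun c s => ?_⟩
  rw [Finset.sum_range_one]
  simp

private theorem form_mul {m : ℕ} {F : ℝ → ℝ → ℝ} (hF : Form m F) (α β : ℝ) :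
    Form (m + 1) fun c s => F c s * (α * c + β * s) := by
  obtain ⟨r, hr⟩ := hF
  refine ⟨fun i => α * (if i ≤ m then r i else 0) + β * (if i = 0 then 0 else r (i - 1)),
    fun c s => ?_⟩
  have h1 : ∀ i ∈ Finset.range (m + 1 + 1),
      (α * (if i ≤ m then r i else 0) + β * (if i = 0 then 0 else r (i - 1))) *
        (c ^ (m + 1 - i) * s ^ i) =
      α * (if i ≤ m then r i else 0) * (c ^ (m + 1 - i) * s ^ i) +
        β * (if i = 0 then 0 else r (i - 1)) * (c ^ (m + 1 - i) * s ^ i) := fun i _ => by ring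
  rw [Finset.sum_congr rfl h1, Finset.sum_add_distrib, Finset.sum_range_succ,
    if_neg (by omega : ¬ m + 1 ≤ m), mul_zero, zero_mul, add_zero,
    Finset.sum_range_succ' (fun i => β * (if i = 0 then 0 else r (i - 1)) *
      (c ^ (m + 1 - i) * s ^ i)), if_pos rfl, mul_zero, zero_mul, add_zero,
    ← Finset.sum_add_distrib]
  show F c s * (α * c + β * s) = _
  rw [hr, Finset.sum_mul]
  refine Finset.sum_congr rfl fun i hi => ?_
  have hi' := Finset.mem_range.1 hi
  have e1 : m + 1 - i = (m - i) + 1 := by omega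
  have e2 : m + 1 - (i + 1) = m - i := by omega
  rw [if_pos (by omega : i ≤ m), if_neg (by omega : ¬ i + 1 = 0), Nat.add_sub_cancel, e1, e2]
  ring

private theorem form_pow (α β γ δ : ℝ) (a b : ℕ) :
    Form (a + b) fun c s => (α * c + β * s) ^ a * (γ * c + δ * s) ^ b := by
  induction b with
  | zero =>
    induction a with
    | zero => simpa using form_one
    | succ a ih =>
      have h := form_mul ih α β
      obtain ⟨r, hr⟩ := h
      refine ⟨r, fun c s => ?_⟩
      rw [Nat.add_zero] at hr ⊢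
      rw [← hr]
      ring
  | succ b ih =>
    obtain ⟨r, hr⟩ := form_mul ih γ δ
    refine ⟨r, fun c s => ?_⟩
    rw [← Nat.add_assoc]
    rw [← hr]
    ring

private theorem iter_mulVec {n : ℕ} {γ : ℝ → Fin n → ℝ} (hγ : ContDiff ℝ (⊤ : ℕ∞) γ)
    (R : Matrix (Fin n) (Fin n) ℝ) (b : ℕ) (x : ℝ) :
    iteratedDeriv b (fun y => R *ᵥ γ y) x = R *ᵥ iteratedDeriv b γ x := by
  induction b generalizing x with
  | zero => simp only [iteratedDeriv_zero]
  | succ b ih =>
    have h1 : iteratedDeriv b (fun y => R *ᵥ γ y) = fun x => R *ᵥ iteratedDeriv b γ x :=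
      funext ih
    rw [iteratedDeriv_succ, h1, iteratedDeriv_succ]
    have hd : HasDerivAt (iteratedDeriv b γ) (deriv (iteratedDeriv b γ) x) x :=
      (hγ.differentiable_iteratedDeriv b (by exact_mod_cast WithTop.coe_lt_top b) x).hasDerivAt
    have h2 := (LinearMap.toContinuousLinearMap (Matrix.mulVecLin R)).hasFDerivAt.comp_hasDerivAt
      x hd
    exact h2.deriv

theorem jet_mulVec {m n : ℕ} {γ : ℝ → Fin n → ℝ} (hγ : ContDiff ℝ (⊤ : ℕ∞) γ)
    (R : Matrix (Fin n) (Fin n) ℝ) (x : ℝ) :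
    jet (fun y => R *ᵥ γ y) m x = R * jet γ m x := by
  ext i b
  simp only [jet, Matrix.of_apply]
  rw [iter_mulVec hγ, Matrix.mul_apply]
  rfl

theorem jet_shift {m n : ℕ} (γ : ℝ → Fin n → ℝ) (a x : ℝ) :
    jet (fun y => γ (y + a)) m x = jet γ m (x + a) := by
  ext i b
  simp only [jet, Matrix.of_apply]
  rw [iteratedDeriv_comp_add_const]

theorem rnc_rot (n : ℕ) (a : ℝ) : ∃ R : Matrix (Fin n) (Fin n) ℝ, R.det ≠ 0 ∧
    ∀ x, rnc n (x + a) = R *ᵥ rnc n x := by
  have hex : ∀ a : ℝ, ∃ R : Matrix (Fin n) (Fin n) ℝ, ∀ x, rnc n (x + a) = R *ᵥ rnc n x := by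
    intro a
    have h1 : ∀ j : Fin n, ∃ r : ℕ → ℝ, ∀ c s : ℝ,
        (cos a * c + -sin a * s) ^ (n - 1 - (j : ℕ)) * (sin a * c + cos a * s) ^ (j : ℕ) =
          ∑ i ∈ Finset.range n, r i * (c ^ (n - 1 - i) * s ^ i) := by
      intro j
      obtain ⟨r, hr⟩ := form_pow (cos a) (-sin a) (sin a) (cos a) (n - 1 - (j : ℕ)) j
      have e1 : n - 1 - (j : ℕ) + j = n - 1 := by omega
      have e2 : n - 1 + 1 = n := by omega
      rw [e1, e2] at hr
      exact ⟨r, hr⟩
    choose r hr using h1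
    refine ⟨Matrix.of fun j i => r j i, fun x => ?_⟩
    funext j
    have h2 := hr j (cos x) (sin x)
    show cos (x + a) ^ (n - 1 - (j : ℕ)) * sin (x + a) ^ (j : ℕ) =
      ∑ i : Fin n, r j i * (cos x ^ (n - 1 - (i : ℕ)) * sin x ^ (i : ℕ))
    rw [Fin.sum_univ_eq_sum_range (fun i => r j i * (cos x ^ (n - 1 - i) * sin x ^ i)) n, ← h2,
      cos_add, sin_add]
    congr 2
    · ring
    · ring
  obtain ⟨R, hR⟩ := hex a
  obtain ⟨R', hR'⟩ := hex (-a)
  refine ⟨R, ?_, hR⟩
  have h1 : ∀ x, rnc n x = (R' * R) *ᵥ rnc n x := by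
    intro x
    rw [← Matrix.mulVec_mulVec, ← hR, ← hR', add_neg_cancel_right]
  have h2 := jet_mulVec (m := n) (rnc_contDiff n) (R' * R) 0
  have h3 : (fun y => (R' * R) *ᵥ rnc n y) = rnc n := (funext h1).symm
  rw [h3] at h2
  have h4 := det_jet_rnc_of_cos n 0 (by rw [cos_zero]; exact one_ne_zero)
  intro h0
  apply h4
  rw [h2, Matrix.det_mul, Matrix.det_mul, h0, mul_zero, zero_mul]

theorem rnc_nice (n : ℕ) (hn : 1 ≤ n) : Nice (rnc n) := by
  refine ⟨rnc_contDiff n, fun x => ?_, fun x => ?_⟩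
  · funext j
    show cos (x + π) ^ (n - 1 - (j : ℕ)) * sin (x + π) ^ (j : ℕ) =
      (-1 : ℝ) ^ (n - 1) * (cos x ^ (n - 1 - (j : ℕ)) * sin x ^ (j : ℕ))
    have e1 : (-1 : ℝ) ^ (n - 1) = (-1) ^ (n - 1 - (j : ℕ)) * (-1) ^ (j : ℕ) := by
      rw [← pow_add]
      congr 1
      omega
    rw [cos_add_pi, sin_add_pi, e1, neg_pow (cos x), neg_pow (sin x)]
    ring
  · by_cases hx : cos x = 0
    · obtain ⟨R, -, hR⟩ := rnc_rot n (π / 4)
      have hs : sin x ≠ 0 := by
        intro h
        have h1 := sin_sq_add_cos_sq x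
        rw [h, hx] at h1
        norm_num at h1
      have hc : cos (x + π / 4) ≠ 0 := by
        rw [cos_add, hx, zero_mul, zero_sub, neg_ne_zero, sin_pi_div_four]
        exact mul_ne_zero hs (by positivity)
      have h1 := det_jet_rnc_of_cos n _ hc
      rw [← jet_shift] at h1
      have h2 : (fun y => rnc n (y + π / 4)) = fun y => R *ᵥ rnc n y := funext hR
      rw [h2, jet_mulVec (rnc_contDiff n), Matrix.det_mul] at h1
      exact right_ne_zero_of_mul h1
    · exact det_jet_rnc_of_cos n x hx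

end GTC
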