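import Pool.Agent.GTR.GlueA
import Pool.Agent.GTR.RncNice
import Pool.Agent.GTR.HFin

/-!
# GTR GlueC : from the main theorem on families to helper58's `MT k l F`

PROOF.  Let `M, G`, `Fam (k+l) M G`, `t` with `sin (t i - t j) ≠ 0` for `i ≠ j`; `n = k + l`.  Choose `a` with
`sin (t i - a) ≠ 0` for all `i` (finitely many excluded values modulo `π`).  There are unique integers
`m i` with `θ i = t i - a - m i π ∈ (0, π)` (`toIocMod`/`Int.floor`); `θ` is injective:
`θ i = θ j` gives `sin (t i - t j) = 0`.  So `Simple θ`.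
`T` from `Fam.start`, `R` from `rnc_rot n a`, `Q = (T * R)⁻¹`.  `σ s = projIcc 0 1 s` (as a real number; continuous,
`σ 0 = 0`, `σ 1 = 1`).  `Γ s x = Q *ᵥ cv (G (σ s)) (x + a)`.
`Γ 0 x = Q *ᵥ (T *ᵥ rnc n (x+a)) = Q *ᵥ (T * R) *ᵥ rnc n x = rnc n x` (`GTR.bn n = rnc n` by definition).
`Family Γ`: `cv G x = G *ᵥ bn M x`, so `iteratedDeriv b (Γ s) x = Q *ᵥ (G (σ s) *ᵥ iteratedDeriv b (bn M) (x+a))`
(linear maps commute with derivatives, `iteratedDeriv_comp_add_const`): jointly continuous, smooth;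
twist: `M = n + 2 p`, `bn M (x+π) = (-1)^(M-1) bn M x`, `(-1)^(M-1) = (-1)^(n-1)` for `n ≥ 1`; jets:
`jet (Γ s) n x = Q * (jets of cv (G (σ s)) at x+a)` (`jet_mulVec`, `jet_shift`), nonzero determinant by `Fam.det`
(`GTR.jet g x` and `jet g n x` have the same entries).
By hypothesis `RR (sp k (Γ 1) θ) F`, so by `trl_of_sol` `TRl n l F (fun i => osc n k (Γ 1) (θ i))`.
`osc n k (Γ 1) (θ i) = map of Q of osc n k (cv (G 1)) (a + θ i)` and by the twist (periodicity up to sign of the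
curve and of its derivatives) `osc n k (cv (G 1)) (a + θ i) = osc n k (cv (G 1)) (t i)`.  `GTR.TRl_map` (HInv) with
the invertible matrix `Q` gives the claim.  (`GTR.osc_mulVec` in HInv.)
-/

set_option autoImplicit false

open Matrix Real Set

namespace GTC

private theorem gc_iter {m n : ℕ} {γ : ℝ → Fin n → ℝ} (hγ : ContDiff ℝ (⊤ : ℕ∞) γ)
    (r : Matrix (Fin m) (Fin n) ℝ) (j : ℕ) :
    iteratedDeriv j (fun y => r *ᵥ γ y) = fun y => r *ᵥ iteratedDeriv j γ y := by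
  set L : (Fin n → ℝ) →L[ℝ] (Fin m → ℝ) := LinearMap.toContinuousLinearMap (Matrix.mulVecLin r)
    with hL
  induction j with
  | zero => simp only [iteratedDeriv_zero]
  | succ j ih =>
    rw [iteratedDeriv_succ, ih]
    funext y
    rw [iteratedDeriv_succ]
    have hd : DifferentiableAt ℝ (iteratedDeriv j γ) y :=
      (hγ.differentiable_iteratedDeriv j (by exact_mod_cast WithTop.coe_lt_top _)) y
    have h1 := (L.hasFDerivAt.comp_hasDerivAt y hd.hasDerivAt).deriv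
    exact h1

private theorem gc_shift {n : ℕ} (γ : ℝ → Fin n → ℝ) (a : ℝ) (j : ℕ) :
    iteratedDeriv j (fun y => γ (y + a)) = fun y => iteratedDeriv j γ (y + a) :=
  iteratedDeriv_comp_add_const j γ a

private theorem bn_contDiff (M : ℕ) : ContDiff ℝ (⊤ : ℕ∞) (GTR.bn M) := by
  rw [contDiff_pi]
  intro j
  exact (Real.contDiff_cos.pow _).mul (Real.contDiff_sin.pow _)

private theorem cv_contDiff {n M : ℕ} (G : Matrix (Fin n) (Fin M) ℝ) :
    ContDiff ℝ (⊤ : ℕ∞) (GTR.cv G) := by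
  have h : GTR.cv G = fun x => (LinearMap.toContinuousLinearMap (Matrix.mulVecLin G)) (GTR.bn M x) :=
    rfl
  rw [h]
  exact (ContinuousLinearMap.contDiff _).comp (bn_contDiff M)

private theorem bn_int (M : ℕ) (m : ℤ) (x : ℝ) :
    GTR.bn M (x - m * π) = (((-1 : ℝ) ^ m) ^ (M - 1)) • GTR.bn M x := by
  funext j
  simp only [GTR.bn, Pi.smul_apply, smul_eq_mul, Real.cos_sub_int_mul_pi,
    Real.sin_sub_int_mul_pi]
  obtain ⟨q, hq⟩ : ∃ q, M - 1 - (j : ℕ) = q := ⟨_, rfl⟩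
  have h1 : M - 1 = q + j := by
    have := j.2
    omega
  rw [hq, h1, mul_pow, mul_pow, pow_add]
  ring

private theorem cv_int {n M : ℕ} (G : Matrix (Fin n) (Fin M) ℝ) (m : ℤ) (x : ℝ) :
    GTR.cv G (x - m * π) = (((-1 : ℝ) ^ m) ^ (M - 1)) • GTR.cv G x := by
  unfold GTR.cv
  rw [bn_int, Matrix.mulVec_smul]

private theorem cv_iter_int {n M : ℕ} (G : Matrix (Fin n) (Fin M) ℝ) (m : ℤ) (x : ℝ) (j : ℕ) :
    iteratedDeriv j (GTR.cv G) (x - m * π) =
      (((-1 : ℝ) ^ m) ^ (M - 1)) • iteratedDeriv j (GTR.cv G) x := by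
  have h1 := congrFun (gc_shift (GTR.cv G) (-(m * π)) j) x
  have h2 : (fun y => GTR.cv G (y + -(m * π))) =
      fun y => (((-1 : ℝ) ^ m) ^ (M - 1)) • GTR.cv G y := by
    funext y
    rw [← sub_eq_add_neg, cv_int]
  rw [h2, ← sub_eq_add_neg] at h1
  rw [← h1]
  exact iteratedDeriv_fun_const_smul ((cv_contDiff G).contDiffAt.of_le (by exact_mod_cast le_top)) _

private theorem gc_osc_le {n k : ℕ} {γ γ' : ℝ → Fin n → ℝ} {z z' : ℝ} (ε : ℝ)
    (h : ∀ j, iteratedDeriv j γ z = ε • iteratedDeriv j γ' z') :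
    GTR.osc n k γ z ≤ GTR.osc n k γ' z' := by
  unfold GTR.osc
  rw [Submodule.span_le]
  rintro _ ⟨j, rfl⟩
  have h1 : GTR.cxv (iteratedDeriv (j : ℕ) γ z) =
      (ε : ℂ) • GTR.cxv (iteratedDeriv (j : ℕ) γ' z') := by
    rw [h]
    funext i
    simp [GTR.cxv]
  simp only [SetLike.mem_coe]
  rw [h1]
  exact Submodule.smul_mem _ _ (Submodule.subset_span ⟨j, rfl⟩)

private theorem gc_eps (m : ℤ) (N : ℕ) : (((-1 : ℝ) ^ m) ^ N) * (((-1 : ℝ) ^ m) ^ N) = 1 := by
  rw [← mul_pow, ← mul_zpow]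
  simp

private theorem osc_cv_int {n k M : ℕ} (G : Matrix (Fin n) (Fin M) ℝ) (m : ℤ) (x : ℝ) :
    GTR.osc n k (GTR.cv G) (x - m * π) = GTR.osc n k (GTR.cv G) x := by
  refine le_antisymm (gc_osc_le _ fun j => cv_iter_int G m x j)
    (gc_osc_le (((-1 : ℝ) ^ m) ^ (M - 1)) fun j => ?_)
  rw [cv_iter_int, smul_smul, gc_eps, one_smul]

private theorem cmap_cxv' {n : ℕ} (r : Matrix (Fin n) (Fin n) ℝ) (v : Fin n → ℝ) :
    GTR.cmap r (GTR.cxv v) = GTR.cxv (r.mulVec v) := by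
  funext a
  rw [GTR.cmap, Matrix.toLin'_apply, Matrix.mulVec, GTR.cxv, Matrix.mulVec, dotProduct, dotProduct]
  push_cast
  rfl

/-- the osculating planes of `x ↦ Q γ(x + a)`. -/
private theorem gc_osc {n k : ℕ} {γ : ℝ → Fin n → ℝ} (hγ : ContDiff ℝ (⊤ : ℕ∞) γ)
    (Q : Matrix (Fin n) (Fin n) ℝ) (a x : ℝ) :
    GTR.osc n k (fun y => Q *ᵥ γ (y + a)) x = (GTR.osc n k γ (x + a)).map (GTR.cmap Q) := by
  have hγ2 : ContDiff ℝ (⊤ : ℕ∞) (fun y => γ (y + a)) :=
    hγ.comp (contDiff_id.add contDiff_const)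
  unfold GTR.osc
  rw [Submodule.map_span, ← Set.range_comp]
  congr 2
  funext j
  rw [gc_iter hγ2 Q, gc_shift, Function.comp_apply, cmap_cxv']

theorem mt_of {k l F : ℕ} (hk : 1 ≤ k) (hl : 1 ≤ l)
    (h : ∀ Γ : ℝ → ℝ → Fin (k + l) → ℝ, Family Γ → (∀ x, Γ 0 x = rnc (k + l) x) →
      ∀ t, Simple t → RR (sp k (Γ 1) t) F) : GTR.MT k l F := by
  intro M G hG t ht
  obtain ⟨p, hp⟩ := hG.par
  obtain ⟨T, hT, hT2⟩ := hG.start
  -- the rotation
  obtain ⟨a, ha⟩ : ∃ a : ℝ, ∀ i, sin (t i - a) ≠ 0 := by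
    have hc : (⋃ i, Set.range (fun m : ℤ => t i - m * π)).Countable :=
      Set.countable_iUnion fun i => Set.countable_range _
    obtain ⟨a, ha⟩ := (hc.dense_compl ℝ).nonempty
    refine ⟨a, fun i hi => ha ?_⟩
    rw [Real.sin_eq_zero_iff] at hi
    obtain ⟨m, hm⟩ := hi
    exact Set.mem_iUnion.2 ⟨i, m, by simp only; linarith⟩
  obtain ⟨R, hR, hR2⟩ := rnc_rot (k + l) a
  -- the reduction modulo `π`
  obtain ⟨m, hm⟩ : ∃ m : Fin (k * l) → ℤ, Simple (fun i => t i - a - m i * π) := by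
    refine ⟨fun i => ⌊(t i - a) / π⌋, ?_, ?_⟩
    · intro i j hij
      by_contra hne
      apply ht i j hne
      rw [Real.sin_eq_zero_iff]
      refine ⟨⌊(t i - a) / π⌋ - ⌊(t j - a) / π⌋, ?_⟩
      simp only at hij
      push_cast
      linarith
    · intro i
      have h1 := Int.floor_le ((t i - a) / π)
      have h2 := Int.lt_floor_add_one ((t i - a) / π)
      rw [le_div_iff₀ Real.pi_pos] at h1
      rw [div_lt_iff₀ Real.pi_pos] at h2
      refine ⟨lt_of_le_of_ne (by simp only; linarith) fun h0 => ?_, by simp only; linarith⟩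
      apply ha i
      rw [Real.sin_eq_zero_iff]
      exact ⟨⌊(t i - a) / π⌋, by simp only at h0; linarith⟩
  -- the family
  have hTR : IsUnit (T * R).det := by
    rw [Matrix.det_mul]
    exact isUnit_iff_ne_zero.2 (mul_ne_zero hT hR)
  obtain ⟨Q, hQ⟩ : ∃ Q, Q = (T * R)⁻¹ := ⟨_, rfl⟩
  have hQ1 : Q * (T * R) = 1 := by
    rw [hQ]
    exact Matrix.nonsing_inv_mul _ hTR
  have hQ2 : Q.det ≠ 0 := by
    intro h0
    have h1 := congrArg Matrix.det hQ1
    rw [Matrix.det_mul, h0, zero_mul, Matrix.det_one] at h1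
    exact zero_ne_one h1
  obtain ⟨σ, hσ⟩ : ∃ σ : ℝ → ℝ, σ = fun s => max 0 (min s 1) := ⟨_, rfl⟩
  have hσc : Continuous σ := by
    rw [hσ]
    fun_prop
  have hσm : ∀ s, σ s ∈ Set.Icc (0 : ℝ) 1 := by
    intro s
    rw [hσ]
    exact ⟨le_max_left _ _, max_le zero_le_one (min_le_right _ _)⟩
  have hσ0 : σ 0 = 0 := by
    rw [hσ]
    simp
  have hσ1 : σ 1 = 1 := by
    rw [hσ]
    simp
  obtain ⟨Γ, hΓ⟩ : ∃ Γ : ℝ → ℝ → Fin (k + l) → ℝ,
    Γ = fun s x => Q *ᵥ GTR.cv (G (σ s)) (x + a) := ⟨_, rfl⟩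
  have hsh : ∀ s, ContDiff ℝ (⊤ : ℕ∞) (fun x => GTR.cv (G (σ s)) (x + a)) := fun s =>
    (cv_contDiff _).comp (contDiff_id.add contDiff_const)
  have hfam : Family Γ := by
    refine ⟨fun s => ⟨?_, ?_, ?_⟩, fun b => ?_⟩
    · have h1 : Γ s = fun x => (LinearMap.toContinuousLinearMap (Matrix.mulVecLin Q))
          (GTR.cv (G (σ s)) (x + a)) := by
        rw [hΓ]
        rfl
      rw [h1]
      exact (ContinuousLinearMap.contDiff _).comp (hsh s)
    · intro x
      have h1 := cv_int (G (σ s)) (-1) (x + a)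
      have h2 : x + a - ((-1 : ℤ) : ℝ) * π = x + π + a := by
        push_cast
        ring
      rw [h2] at h1
      rw [hΓ]
      simp only
      rw [h1, Matrix.mulVec_smul]
      congr 1
      have h3 : M - 1 = (k + l - 1) + 2 * p := by omega
      rw [h3, pow_add _ (k + l - 1), pow_mul]
      simp
    · intro x
      have h1 : Γ s = fun y => Q *ᵥ (fun z => GTR.cv (G (σ s)) (z + a)) y := by
        rw [hΓ]
      rw [h1, jet_mulVec (hsh s) Q x, jet_shift, Matrix.det_mul]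
      exact mul_ne_zero hQ2 (hG.det (σ s) (hσm s) (x + a))
    · have h1 : (fun q : ℝ × ℝ => iteratedDeriv b (Γ q.1) q.2) =
          fun q : ℝ × ℝ => Q *ᵥ (G (σ q.1) *ᵥ iteratedDeriv b (GTR.bn M) (q.2 + a)) := by
        funext q
        have h2 : Γ q.1 = fun y => Q *ᵥ (fun z => GTR.cv (G (σ q.1)) (z + a)) y := by
          rw [hΓ]
        rw [h2, gc_iter (hsh q.1) Q, gc_shift]
        simp only
        have h3 : GTR.cv (G (σ q.1)) = fun y => G (σ q.1) *ᵥ GTR.bn M y := rfl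
        rw [h3, gc_iter (bn_contDiff M)]
      rw [h1]
      have h4 : Continuous (iteratedDeriv b (GTR.bn M)) :=
        (bn_contDiff M).continuous_iteratedDeriv b (by exact_mod_cast le_top)
      have h5 : Continuous fun q : ℝ × ℝ => iteratedDeriv b (GTR.bn M) (q.2 + a) :=
        h4.comp (continuous_snd.add continuous_const)
      have h6 : Continuous fun q : ℝ × ℝ => G (σ q.1) := hG.cont.comp (hσc.comp continuous_fst)
      exact continuous_const.matrix_mulVec (h6.matrix_mulVec h5)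
  have hstart : ∀ x, Γ 0 x = rnc (k + l) x := by
    intro x
    rw [hΓ]
    simp only
    rw [hσ0, hT2]
    have h1 : GTR.bn (k + l) (x + a) = rnc (k + l) (x + a) := rfl
    rw [h1, hR2, Matrix.mulVec_mulVec, Matrix.mulVec_mulVec, Matrix.mul_assoc, hQ1,
      Matrix.one_mulVec]
  have hRR := h Γ hfam hstart _ hm
  have hTRl := trl_of_sol (Γ 1) (fun i => t i - a - m i * π) (fun i => (hfam.nice 1).indep _)
    hRR.fin hRR.card hRR.real
  have e1 : (fun i => GTR.osc (k + l) k (Γ 1) (t i - a - m i * π)) =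
      fun i => (GTR.osc (k + l) k (GTR.cv (G 1)) (t i)).map (GTR.cmap Q) := by
    funext i
    have h1 : Γ 1 = fun y => Q *ᵥ GTR.cv (G 1) (y + a) := by
      rw [hΓ]
      simp only [hσ1]
    rw [h1, gc_osc (cv_contDiff (G 1)) Q a]
    have h2 : t i - a - m i * π + a = t i - m i * π := by ring
    rw [h2, osc_cv_int]
  rw [e1, GTR.TRl_map hQ2] at hTRl
  exact hTRl

end GTC
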