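import Pool.Agent.GTR.GoodUse
import Pool.Agent.GTR.Rol

/-!
# GTR GoodOpen : GOOD is an open condition

PROOF.  Suppose not: there are `s ν → s0` and real `u ν` of full rank, `c ν` supported in `Ico 0 π`, with
all conditions of `c ν` and `∑ c ν ≥ N + 1`, `N = k l`.  We may take `u ν (u ν)ᵀ = 1`
(`exists_orth_real`, `lf_mul`) and `∑ c ν = N + 1` (decrease `c ν`).  Represent `c ν` by a map
`p ν : Fin (N+1) → Ico 0 π` with `c ν x = #{i | p ν i = x}`.  Pass to a subsequence: `u ν → u`
(`orth_compact_real`; `FR u`), `p ν i → p i ∈ [0, π]`.  Let `q i = p i` if `p i < π`, `q i = 0` if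
`p i = π`, and `c x = #{i | q i = x}`, supported in `Ico 0 π`, `∑ c = N + 1`.
CLAIM: `lf (pf k (Γ s0) x j) u = 0` for `j < c x`.  (Then `GOOD k l (Γ s0)` is violated.)
Let `p' ν i = p ν i - π` if `p i = π`, `p' ν i = p ν i` otherwise; so `p' ν i → q i`, and the function
`W ν y = lf (wf k (Γ (s ν)) y) u ν` vanishes at the points `p' ν i` with multiplicities (`pf_twist`:
`pf` at `y - π` is `±` `pf` at `y`; the points `p' ν i` coming from `p i = π` are negative, those coming
from `p i = 0` are `≥ 0`, so they do not interfere).  Fix `x`, `j < c x` and `δ > 0`.  For large `ν` the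
points `p' ν i` with `q i = x` are in `[x - δ, x + δ]` and count `c x > j` zeros with multiplicities
of `W ν`; `rolle_mult` gives `ξ` in this interval with `iteratedDeriv j (W ν) ξ = 0`, that is
`lf (pf k (Γ (s ν)) ξ j) (u ν) = 0` (`lf_pf`).  Let `δ → 0`, `ν → ∞`; joint continuity (`pf_continuous`,
`lf_continuous_real`).
-/

set_option autoImplicit false

open Matrix Real Set Topology Filter

namespace GTC

private noncomputable def cnt {m : ℕ} (p : Fin m → ℝ) (I : Finset (Fin m)) : ℝ →₀ ℕ :=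
  ∑ i ∈ I, Finsupp.single (p i) 1

private theorem cnt_apply {m : ℕ} (p : Fin m → ℝ) (I : Finset (Fin m)) (x : ℝ) :
    cnt p I x = (I.filter (fun i => p i = x)).card := by
  classical
  unfold cnt
  rw [Finsupp.finsetSum_apply]
  simp only [Finsupp.single_apply]
  rw [Finset.card_filter]

private theorem cnt_sum {m : ℕ} (p : Fin m → ℝ) (I : Finset (Fin m)) :
    ((cnt p I).sum fun _ q => q) = I.card := by
  classical
  unfold cnt
  induction I using Finset.induction_on with
  | empty => simp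
  | insert a s ha ih =>
    rw [Finset.sum_insert ha, Finsupp.sum_add_index' (fun _ => rfl) (fun _ _ _ => rfl), ih,
      Finsupp.sum_single_index rfl, Finset.card_insert_of_notMem ha, add_comm]

private theorem cnt_supp {m : ℕ} (p : Fin m → ℝ) (I : Finset (Fin m)) {x : ℝ}
    (hx : x ∈ (cnt p I).support) : ∃ i ∈ I, p i = x := by
  rw [Finsupp.mem_support_iff, cnt_apply] at hx
  obtain ⟨i, hi⟩ := Finset.card_ne_zero.1 hx
  rw [Finset.mem_filter] at hi
  exact ⟨i, hi.1, hi.2⟩

/-- points with multiplicities as a list -/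
private theorem exists_pts (c : ℝ →₀ ℕ) (N : ℕ) (h : N ≤ c.sum fun _ m => m) :
    ∃ p : Fin N → ℝ, ∀ x, (Finset.univ.filter (fun i => p i = x)).card ≤ c x := by
  classical
  have hcard : (Finsupp.toMultiset c).toList.length = c.sum fun _ m => m := by
    rw [Multiset.length_toList, Finsupp.card_toMultiset]
    rfl
  have hlen : ((Finsupp.toMultiset c).toList.take N).length = N := by
    rw [List.length_take, hcard]
    exact min_eq_left h
  obtain ⟨v, hv⟩ : ∃ v : List.Vector ℝ N, v.toList = (Finsupp.toMultiset c).toList.take N :=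
    ⟨⟨_, hlen⟩, rfl⟩
  refine ⟨fun i => v.get i, fun x => ?_⟩
  have h1 := Fin.card_filter_univ_eq_vector_get_eq_count x v
  have h2 : (Finset.univ.filter (fun i : Fin N => v.get i = x)).card =
      List.count x ((Finsupp.toMultiset c).toList.take N) := by
    rw [← hv, ← h1]
  rw [h2]
  calc List.count x ((Finsupp.toMultiset c).toList.take N)
      ≤ List.count x ((Finsupp.toMultiset c).toList) := (List.take_sublist _ _).count_le _
    _ = (Finsupp.toMultiset c).count x := by
        rw [← Multiset.coe_count, Multiset.coe_toList]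
    _ = c x := Finsupp.count_toMultiset c x

private theorem not_good {k l : ℕ} {γ : ℝ → Fin (k + l) → ℝ} (h : ¬ GOOD k l γ) :
    ∃ (u : Matrix (Fin k) (Fin (k + l)) ℝ) (p : Fin (k * l + 1) → ℝ), u * uᵀ = 1 ∧
      (∀ i, p i ∈ Ico 0 π) ∧
      ∀ x, ∀ j < (Finset.univ.filter (fun i => p i = x)).card, lf (pf k γ x j) u = 0 := by
  classical
  unfold GOOD at h
  push Not at h
  obtain ⟨u, hu, c, hc, hv, hs⟩ := h
  obtain ⟨g, hg, ho⟩ := exists_orth_real u hu
  obtain ⟨p, hp⟩ := exists_pts c (k * l + 1) hs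
  refine ⟨g * u, p, ho, fun i => ?_, fun x j hj => ?_⟩
  · refine hc _ (Finsupp.mem_support_iff.2 ?_)
    have h1 : 0 < (Finset.univ.filter (fun i' => p i' = p i)).card :=
      Finset.card_pos.2 ⟨i, Finset.mem_filter.2 ⟨Finset.mem_univ _, rfl⟩⟩
    have h2 := hp (p i)
    omega
  · rw [lf_mul, hv x j (lt_of_lt_of_le hj (hp x)), mul_zero]

/-- the Rolle step -/
private theorem rolle_step {k l : ℕ} {γ : ℝ → Fin (k + l) → ℝ} (hγ : Nice γ)
    (u : Matrix (Fin k) (Fin (k + l)) ℝ) {m : ℕ} (p : Fin m → ℝ) (hp : ∀ i, p i ∈ Ico 0 π)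
    (hv : ∀ x, ∀ j < (Finset.univ.filter (fun i => p i = x)).card, lf (pf k γ x j) u = 0)
    (J : Fin m → Prop) [DecidablePred J] (I : Finset (Fin m)) (a b : ℝ)
    (hI : ∀ i ∈ I, (if J i then p i - π else p i) ∈ Icc a b) (j : ℕ) (hj : j < I.card) :
    ∃ ξ ∈ Icc a b, lf (pf k γ ξ j) u = 0 := by
  classical
  have hW := W_contDiff (k := k) hγ.smooth u
  have hvan : ∀ y, ∀ j' < (cnt (fun i => if J i then p i - π else p i) I) y,
      iteratedDeriv j' (fun y => lf (wf k γ y) u) y = 0 := by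
    intro y j' hj'
    rw [← lf_pf hγ.smooth]
    rw [cnt_apply] at hj'
    rcases le_or_gt 0 y with hy | hy
    · refine hv y j' (lt_of_lt_of_le hj' (Finset.card_le_card ?_))
      intro i hi
      rw [Finset.mem_filter] at hi ⊢
      refine ⟨Finset.mem_univ _, ?_⟩
      by_cases hJ : J i
      · have h1 := hi.2
        rw [if_pos hJ] at h1
        have := (hp i).2
        exfalso
        linarith
      · have h1 := hi.2
        rw [if_neg hJ] at h1
        exact h1
    · have h0 : lf (pf k γ (y + π) j') u = 0 := by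
        refine hv (y + π) j' (lt_of_lt_of_le hj' (Finset.card_le_card ?_))
        intro i hi
        rw [Finset.mem_filter] at hi ⊢
        refine ⟨Finset.mem_univ _, ?_⟩
        by_cases hJ : J i
        · have h1 := hi.2
          rw [if_pos hJ] at h1
          linarith
        · have h1 := hi.2
          rw [if_neg hJ] at h1
          have := (hp i).1
          exfalso
          linarith
      rw [pf_twist hγ] at h0
      have h1 : lf ((((-1 : ℝ) ^ (k + l - 1)) ^ k) • pf k γ y j') u =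
          (((-1 : ℝ) ^ (k + l - 1)) ^ k) * lf (pf k γ y j') u := by
        unfold lf
        rw [Finset.mul_sum]
        refine Finset.sum_congr rfl fun t _ => ?_
        rw [Pi.smul_apply, smul_eq_mul, mul_assoc]
      rw [h1] at h0
      refine (mul_eq_zero.1 h0).resolve_left ?_
      exact pow_ne_zero _ (pow_ne_zero _ (by norm_num))
  obtain ⟨ξ, h1, h2⟩ := rolle_mult _ hW a b (cnt (fun i => if J i then p i - π else p i) I)
    (fun x hx => by
      obtain ⟨i, hi, rfl⟩ := cnt_supp _ _ hx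
      exact hI i hi) hvan j (by rw [cnt_sum]; exact hj)
  exact ⟨ξ, h1, by rw [lf_pf hγ.smooth]; exact h2⟩

theorem good_open {k l : ℕ} (Γ : ℝ → ℝ → Fin (k + l) → ℝ) (hΓ : Family Γ) (s0 : ℝ)
    (h : GOOD k l (Γ s0)) : ∀ᶠ s in 𝓝 s0, GOOD k l (Γ s) := by
  classical
  by_contra hcon
  rw [Filter.not_eventually] at hcon
  obtain ⟨U, hUbad, hUle⟩ : ∃ U : Ultrafilter ℝ, (∀ᶠ s in (U : Filter ℝ), ¬ GOOD k l (Γ s)) ∧
      (U : Filter ℝ) ≤ 𝓝 s0 := by
    have hne : (𝓝 s0 ⊓ 𝓟 {s | ¬ GOOD k l (Γ s)}).NeBot :=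
      Filter.frequently_mem_iff_neBot.1 hcon
    refine ⟨Ultrafilter.of (𝓝 s0 ⊓ 𝓟 {s | ¬ GOOD k l (Γ s)}), ?_,
      (Ultrafilter.of_le _).trans inf_le_left⟩
    exact ((Ultrafilter.of_le _).trans inf_le_right) (mem_principal_self _)
  -- the data
  have hdata : ∀ s, ∃ (u : Matrix (Fin k) (Fin (k + l)) ℝ) (p : Fin (k * l + 1) → ℝ),
      ¬ GOOD k l (Γ s) → u * uᵀ = 1 ∧ (∀ i, p i ∈ Ico 0 π) ∧
      ∀ x, ∀ j < (Finset.univ.filter (fun i => p i = x)).card,
        lf (pf k (Γ s) x j) u = 0 := by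
    intro s
    by_cases hs : GOOD k l (Γ s)
    · exact ⟨0, 0, fun h => absurd hs h⟩
    · obtain ⟨u, p, h1⟩ := not_good hs
      exact ⟨u, p, fun _ => h1⟩
  choose u p hup using hdata
  have hE : ∀ᶠ s in (U : Filter ℝ), u s * (u s)ᵀ = 1 ∧ (∀ i, p s i ∈ Ico 0 π) ∧
      ∀ x, ∀ j < (Finset.univ.filter (fun i => p s i = x)).card,
        lf (pf k (Γ s) x j) (u s) = 0 := hUbad.mono fun s hs => hup s hs
  -- limits
  obtain ⟨u0, hu0, hu0l⟩ := (orth_compact_real k (k + l)).ultrafilter_le_nhds (U.map u) (by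
    rw [Filter.le_principal_iff]
    exact hE.mono fun s hs => hs.1)
  have hu0l' : Tendsto u (U : Filter ℝ) (𝓝 u0) := hu0l
  have hp0 : ∀ i, ∃ x ∈ Icc (0 : ℝ) π, Tendsto (fun s => p s i) (U : Filter ℝ) (𝓝 x) := by
    intro i
    obtain ⟨x, hx, hxl⟩ := (isCompact_Icc (a := (0 : ℝ)) (b := π)).ultrafilter_le_nhds
      (U.map fun s => p s i) (by
        rw [Filter.le_principal_iff]
        exact hE.mono fun s hs => ⟨(hs.2.1 i).1, (hs.2.1 i).2.le⟩)
    exact ⟨x, hx, hxl⟩
  choose p0 hp0m hp0l using hp0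
  obtain ⟨q, hq⟩ : ∃ q : Fin (k * l + 1) → ℝ, q = fun i => if p0 i = π then p0 i - π else p0 i :=
    ⟨_, rfl⟩
  have hql : ∀ i, Tendsto (fun s => if p0 i = π then p s i - π else p s i) (U : Filter ℝ)
      (𝓝 (q i)) := by
    intro i
    rw [hq]
    by_cases hi : p0 i = π
    · simp only [if_pos hi]
      exact (hp0l i).sub_const π
    · simp only [if_neg hi]
      exact hp0l i
  have hqm : ∀ i, q i ∈ Ico 0 π := by
    intro i
    rw [hq]
    by_cases hi : p0 i = π
    · simp only [if_pos hi]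
      rw [hi, sub_self]
      exact ⟨le_rfl, Real.pi_pos⟩
    · simp only [if_neg hi]
      exact ⟨(hp0m i).1, lt_of_le_of_ne (hp0m i).2 hi⟩
  have hkey : ∀ x, ∀ j < cnt q Finset.univ x, lf (pf k (Γ s0) x j) u0 = 0 := by
    intro x j hj
    rw [cnt_apply] at hj
    by_contra hne
    -- joint continuity
    have hcont : Continuous fun z : (ℝ × Matrix (Fin k) (Fin (k + l)) ℝ) × ℝ =>
        lf (pf k (Γ z.1.1) z.2 j) z.1.2 := by
      have h1 : Continuous fun z : (ℝ × Matrix (Fin k) (Fin (k + l)) ℝ) × ℝ =>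
          pf k (Γ z.1.1) z.2 j :=
        (pf_continuous hΓ j).comp
          ((continuous_fst.comp continuous_fst).prodMk continuous_snd)
      exact (lf_continuous_real k (k + l)).comp
        (h1.prodMk (continuous_snd.comp continuous_fst))
    have hev : ∀ᶠ z in 𝓝 ((s0, u0), x), lf (pf k (Γ z.1.1) z.2 j) z.1.2 ≠ 0 :=
      hcont.continuousAt.eventually_ne hne
    rw [nhds_prod_eq] at hev
    obtain ⟨P, hP, Q, hQ, hPQ⟩ := Filter.eventually_prod_iff.1 hev
    obtain ⟨δ, hδ, hδQ⟩ := Metric.nhds_basis_closedBall.eventually_iff.1 hQ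
    have hsu : Tendsto (fun s => (s, u s)) (U : Filter ℝ) (𝓝 (s0, u0)) :=
      Filter.Tendsto.prodMk_nhds (tendsto_id.mono_left hUle) hu0l'
    have hcl : ∀ᶠ s in (U : Filter ℝ), ∀ i ∈ Finset.univ.filter (fun i => q i = x),
        (if p0 i = π then p s i - π else p s i) ∈ Icc (x - δ) (x + δ) := by
      rw [Filter.eventually_all_finset]
      intro i hi
      have hix : q i = x := (Finset.mem_filter.1 hi).2
      have h1 := hql i
      rw [hix] at h1
      exact h1 (Icc_mem_nhds (by linarith) (by linarith))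
    obtain ⟨s, hs1, hs2, hs3⟩ := (hE.and ((hsu.eventually hP).and hcl)).exists
    obtain ⟨ξ, hξ, hξ0⟩ := rolle_step (hΓ.nice s) (u s) (p s) hs1.2.1 hs1.2.2
      (fun i => p0 i = π) (Finset.univ.filter (fun i => q i = x)) (x - δ) (x + δ) hs3 j hj
    have hξQ : Q ξ := hδQ (by
      rw [Metric.mem_closedBall, Real.dist_eq, abs_le]
      constructor <;> linarith [hξ.1, hξ.2])
    exact hPQ hs2 hξQ hξ0
  have hfin := h u0 (fr_of_orth_real u0 hu0) (cnt q Finset.univ)
    (fun x hx => by
      obtain ⟨i, -, rfl⟩ := cnt_supp _ _ hx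
      exact hqm i) hkey
  rw [cnt_sum, Finset.card_univ, Fintype.card_fin] at hfin
  omega

end GTC
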