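import Pool.Agent.GTR.Ordf

/-!
# GTR GoodUse : consequences of GOOD

PROOFS.
* `good_zeros`: `c` = indicator of the finite set `t '' univ ∪ {x}` (`k l + 1` points if `x` is not one of
  them): `GOOD` is violated.  Multiplicity two at `t i`: `c = indicator + single (t i) 1`; the
  condition `j = 1` is `lf (pf k γ (t i) 1) u = deriv (fun y => lf (wf k γ y) u) (t i) = 0` (`lf_pf`).
* `good_zero_ne`: `0 ∈ Ico 0 π` is not one of the `t i ∈ Ioo 0 π`.
* `good_card`: the same count in the form used in section 5: no real `u` vanishes at more than `k l` different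
  points of `Ico 0 π`.
* `good_top`: for different `x, y ∈ Ico 0 π` no real `u` has all conditions of order `< k l` at `y` and
  vanishes at `x` (`c = single y (k l) + single x 1`).
-/

set_option autoImplicit false

open Matrix Real Set

namespace GTC

variable {k l : ℕ} {γ : ℝ → Fin (k + l) → ℝ}

/-- the indicator of a finite set, as a finitely supported function -/
private theorem gu_ind (S : Finset ℝ) : ∃ c : ℝ →₀ ℕ, (∀ x, x ∈ S → c x = 1) ∧
    (∀ x, x ∉ S → c x = 0) ∧ c.support = S ∧ (c.sum fun _ m => m) = S.card := by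
  classical
  obtain ⟨c, hc⟩ : ∃ c : ℝ →₀ ℕ, ∀ x, c x = if x ∈ S then 1 else 0 :=
    ⟨Finsupp.onFinset S (fun x => if x ∈ S then 1 else 0) (by
      intro x hx
      by_contra h
      simp [h] at hx), fun x => rfl⟩
  have hsup : c.support = S := by
    ext x
    rw [Finsupp.mem_support_iff, hc]
    by_cases h : x ∈ S <;> simp [h]
  refine ⟨c, fun x hx => by rw [hc, if_pos hx], fun x hx => by rw [hc, if_neg hx], hsup, ?_⟩
  rw [Finsupp.sum, hsup, Finset.card_eq_sum_ones]
  refine Finset.sum_congr rfl fun x hx => ?_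
  rw [hc, if_pos hx]

private theorem gu_sum (c : ℝ →₀ ℕ) (a : ℝ) (m : ℕ) :
    ((c + Finsupp.single a m).sum fun _ m => m) = (c.sum fun _ m => m) + m := by
  rw [Finsupp.sum_add_index' (fun _ => rfl) (fun _ _ _ => rfl), Finsupp.sum_single_index rfl]

private theorem gu_card (hG : GOOD k l γ) (u : Matrix (Fin k) (Fin (k + l)) ℝ) (hu : FR u)
    (S : Finset ℝ) (hS : ∀ x ∈ S, x ∈ Ico 0 π) (hv : ∀ x ∈ S, lf (wf k γ x) u = 0) :
    S.card ≤ k * l := by
  obtain ⟨c, h1, h0, hsup, hsum⟩ := gu_ind S
  rw [← hsum]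
  refine hG u hu c (by rw [hsup]; exact hS) fun x j hj => ?_
  by_cases h : x ∈ S
  · rw [h1 x h] at hj
    have : j = 0 := by omega
    rw [this, pf_zero]
    exact hv x h
  · rw [h0 x h] at hj
    omega

theorem good_zeros (hγ : Nice γ) (hG : GOOD k l γ) (t : Fin (k * l) → ℝ)
    (ht : Simple t) (u : Matrix (Fin k) (Fin (k + l)) ℝ) (hu : IsSol (sp k γ t) u) :
    (∀ x ∈ Ico 0 π, lf (wf k γ x) u = 0 → ∃ i, t i = x) ∧
    ∀ i, deriv (fun y => lf (wf k γ y) u) (t i) ≠ 0 := by
  classical
  obtain ⟨hu1, hu2⟩ := hu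
  obtain ⟨ht1, ht2⟩ := ht
  have hcard : (Finset.univ.image t).card = k * l := by
    rw [Finset.card_image_of_injective _ ht1, Finset.card_univ, Fintype.card_fin]
  have hI : ∀ i, t i ∈ Ico 0 π := fun i => ⟨(ht2 i).1.le, (ht2 i).2⟩
  constructor
  · intro x hx h0
    by_contra hno
    have hx' : x ∉ Finset.univ.image t := by
      intro h
      obtain ⟨i, -, hi⟩ := Finset.mem_image.1 h
      exact hno ⟨i, hi⟩
    have h1 := gu_card hG u hu1 (insert x (Finset.univ.image t)) (by
      intro y hy
      rcases Finset.mem_insert.1 hy with h | h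
      · rw [h]
        exact hx
      · obtain ⟨i, -, hi⟩ := Finset.mem_image.1 h
        rw [← hi]
        exact hI i) (by
      intro y hy
      rcases Finset.mem_insert.1 hy with h | h
      · rw [h]
        exact h0
      · obtain ⟨i, -, hi⟩ := Finset.mem_image.1 h
        rw [← hi]
        exact hu2 i)
    rw [Finset.card_insert_of_notMem hx', hcard] at h1
    omega
  · intro i hd
    obtain ⟨c, h1, h0, hsup, hsum⟩ := gu_ind (Finset.univ.image t)
    have h2 := hG u hu1 (c + Finsupp.single (t i) 1) (by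
      intro x hx
      have h3 := Finsupp.support_add hx
      rw [hsup] at h3
      rcases Finset.mem_union.1 h3 with h | h
      · obtain ⟨j, -, hj⟩ := Finset.mem_image.1 h
        rw [← hj]
        exact hI j
      · have h4 := Finset.mem_singleton.1 (Finsupp.support_single_subset h)
        rw [h4]
        exact hI i) (by
      intro x j hj
      rw [Finsupp.add_apply] at hj
      by_cases hxi : x = t i
      · rw [hxi, h1 _ (Finset.mem_image_of_mem _ (Finset.mem_univ i)), Finsupp.single_eq_same] at hj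
        rw [hxi]
        rcases (by omega : j = 0 ∨ j = 1) with h | h
        · rw [h, pf_zero]
          exact hu2 i
        · rw [h, lf_pf hγ.smooth, iteratedDeriv_one]
          exact hd
      · rw [Finsupp.single_apply, if_neg (Ne.symm hxi), add_zero] at hj
        by_cases h : x ∈ Finset.univ.image t
        · rw [h1 x h] at hj
          have h5 : j = 0 := by omega
          obtain ⟨i', -, hi'⟩ := Finset.mem_image.1 h
          rw [h5, pf_zero, ← hi']
          exact hu2 i'
        · rw [h0 x h] at hj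
          omega)
    rw [gu_sum, hsum, hcard] at h2
    omega

theorem good_zero_ne (hγ : Nice γ) (hG : GOOD k l γ) (t : Fin (k * l) → ℝ)
    (ht : Simple t) (u : Matrix (Fin k) (Fin (k + l)) ℝ) (hu : IsSol (sp k γ t) u) :
    lf (wf k γ 0) u ≠ 0 := by
  intro h
  obtain ⟨i, hi⟩ := (good_zeros hγ hG t ht u hu).1 0 ⟨le_refl _, pi_pos⟩ h
  have h1 := (ht.2 i).1
  rw [hi] at h1
  exact lt_irrefl _ h1

theorem good_card (hG : GOOD k l γ) (u : Matrix (Fin k) (Fin (k + l)) ℝ) (hu : FR u)
    (S : Finset ℝ) (hS : ∀ x ∈ S, x ∈ Ico 0 π) (hv : ∀ x ∈ S, lf (wf k γ x) u = 0) :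
    S.card ≤ k * l :=
  gu_card hG u hu S hS hv

theorem good_top (hG : GOOD k l γ) (x y : ℝ) (hx : x ∈ Ico 0 π) (hy : y ∈ Ico 0 π) (hxy : x ≠ y)
    (u : Matrix (Fin k) (Fin (k + l)) ℝ) (hu : FR u)
    (hv : ∀ j < k * l, lf (pf k γ y j) u = 0) : lf (wf k γ x) u ≠ 0 := by
  intro h0
  have h2 := hG u hu (Finsupp.single y (k * l) + Finsupp.single x 1) (by
    classical
    intro z hz
    rcases Finset.mem_union.1 (Finsupp.support_add hz) with h | h
    · rw [Finset.mem_singleton.1 (Finsupp.support_single_subset h)]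
      exact hy
    · rw [Finset.mem_singleton.1 (Finsupp.support_single_subset h)]
      exact hx) (by
    intro z j hj
    rw [Finsupp.add_apply, Finsupp.single_apply, Finsupp.single_apply] at hj
    by_cases h1 : x = z
    · rw [if_pos h1, if_neg (fun h => hxy (h1.trans h.symm))] at hj
      have h3 : j = 0 := by omega
      rw [h3, pf_zero, ← h1]
      exact h0
    · rw [if_neg h1, add_zero] at hj
      by_cases h3 : y = z
      · rw [if_pos h3] at hj
        rw [← h3]
        exact hv j hj
      · rw [if_neg h3] at hj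
        omega)
  rw [gu_sum, Finsupp.sum_single_index rfl] at h2
  omega

end GTC
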