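import Pool.Agent.GTR.HDefs

/-!
# GTR HConn : totally positive configurations are connected (8.2)

Normal form: `X_K` = all `A : Matrix (Fin n) (Fin K) ℝ`, `K ≥ n`, whose first `n` columns are the
identity and with `TP A`. Claim: any two points of `X_K` are joined by a path in `X_K`. Induction on
`K`; `X_n = {1}`. For `K + 1`: deleting the last column maps `X_(K+1)` to `X_K`. (a) For `A ∈ X_K` the set
`V(A)` of all last columns `v` with `(A, v) ∈ X_(K+1)` is convex (all minors are affine linear in `v`, in
fact linear) and open, and `(A', v)` is still positive for `A'` near `A`. (b) `V(A)` is not empty: take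
`v = ∑_(i<n) (-ε)^i A_(K-1-i)`, `ε > 0` small: for `σ : Fin (n-1) → Fin K` strictly increasing let `i` be
the smallest number such that `K-1-i` is not in the range of `σ`; `det (A_σ, v) =
(-ε)^i det (A_σ, A_(K-1-i)) + O(ε^(i+1))`, and moving the last column to its place over `i` columns gives
`det (A_σ, A_(K-1-i)) = (-1)^i * (positive minor)`. (c) Given `(A, v), (B, w) ∈ X_(K+1)` and a path `C`
from `A` to `B` in `X_K`: for every `s` pick `v_s ∈ V(C s)`; it works in a neighbourhood of `s`; by
compactness (Lebesgue number) `0 = s_0 < ... < s_r = 1` and `v_1, ..., v_r` with `v_i ∈ V(C s)` for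
`s ∈ [s_(i-1), s_i]`; move along `C` with the constant last column `v_i` and, at `s_i`, along the
segment from `v_i` to `v_(i+1)` (convexity). Equivalently use connectedness: `X_(K+1) → X_K` is an open
continuous surjection with connected fibres; or a partition of unity
(`exists_continuous_forall_mem_convex_of_local_const` in Mathlib: a continuous selection `s ↦ v(s) ∈
V(C s)` exists because the sets are convex and locally constant choices exist!) and then straight
segments at both ends.

`tp_path`: `g = (first n columns of A)⁻¹` (positive determinant), `h` similarly for `B`; multiplying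
with `g` multiplies all minors by `det g > 0`. Extend the path to all `s` by `Set.projIcc`
(`Path.extend`).
-/

set_option autoImplicit false

open Matrix

namespace GTR

/-- append the column `v` -/
private def app {n K : ℕ} (C : Matrix (Fin n) (Fin K) ℝ) (v : Fin n → ℝ) :
    Matrix (Fin n) (Fin (K + 1)) ℝ :=
  fun a j => Fin.lastCases (motive := fun _ => ℝ) (v a) (fun j => C a j) j

@[simp] private lemma app_last {n K : ℕ} (C : Matrix (Fin n) (Fin K) ℝ) (v : Fin n → ℝ)
    (a : Fin n) : app C v a (Fin.last K) = v a := by simp [app]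

@[simp] private lemma app_castSucc {n K : ℕ} (C : Matrix (Fin n) (Fin K) ℝ) (v : Fin n → ℝ)
    (a : Fin n) (j : Fin K) : app C v a j.castSucc = C a j := by simp [app]

private lemma small_eps {ι : Type*} [Finite ι] (a b : ι → ℝ)
    (h : ∀ i, 0 < a i ∨ (a i = 0 ∧ 0 < b i)) : ∃ ε : ℝ, ∀ i, 0 < a i + ε * b i := by
  have key : ∀ i, ∀ᶠ ε in nhdsWithin (0:ℝ) (Set.Ioi 0), 0 < a i + ε * b i := by
    intro i
    rcases h i with h1 | ⟨h1, h2⟩
    · have hc : Continuous (fun ε : ℝ => a i + ε * b i) := by fun_prop
      have h3 := hc.tendsto 0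
      have h4 : ∀ᶠ ε in nhds (0:ℝ), 0 < a i + ε * b i :=
        h3.eventually (lt_mem_nhds (by simpa using h1))
      exact h4.filter_mono nhdsWithin_le_nhds
    · filter_upwards [self_mem_nhdsWithin] with ε hε
      rw [h1, zero_add]
      exact mul_pos hε h2
  obtain ⟨ε, hε⟩ := (Filter.eventually_all.2 key).exists
  exact ⟨ε, hε⟩

private lemma cons_zero_mono {m K : ℕ} (σ : Fin m → Fin (K + 1)) (hσ : StrictMono σ)
    (h0 : ∀ i, 0 < σ i) : StrictMono (Fin.cons 0 σ : Fin (m + 1) → Fin (K + 1)) := by
  intro i j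
  induction i using Fin.cases with
  | zero =>
    induction j using Fin.cases with
    | zero => intro h; exact absurd h (lt_irrefl _)
    | succ j => intro _; simpa using h0 j
  | succ i =>
    induction j using Fin.cases with
    | zero => intro h; exact absurd h (not_lt.2 (Fin.zero_le _))
    | succ j =>
      intro h
      simpa using hσ (Fin.succ_lt_succ_iff.1 h)

private lemma front {E : Type*} [AddCommGroup E] [Module ℝ E] (m : ℕ) :
    ∀ (K : ℕ) (ω : E [⋀^Fin (m + 1)]→ₗ[ℝ] ℝ) (c : Fin K → E), m + 1 ≤ K →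
      (∀ σ : Fin (m + 1) → Fin K, StrictMono σ → 0 < ω (c ∘ σ)) →
      ∃ v : E, ∀ τ : Fin m → Fin K, StrictMono τ → 0 < ω (Matrix.vecCons v (c ∘ τ)) := by
  induction m with
  | zero =>
    intro K ω c hK H
    obtain ⟨K, rfl⟩ : ∃ L, K = L + 1 := ⟨K - 1, by omega⟩
    refine ⟨c 0, fun τ _ => ?_⟩
    have h1 := H (fun _ => 0) (fun i j hij => absurd hij (by
      rw [Subsingleton.elim (α := Fin 1) i j]
      exact lt_irrefl _))
    have e : (c ∘ fun _ : Fin (0 + 1) => (0 : Fin (K + 1))) = Matrix.vecCons (c 0) (c ∘ τ) := by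
      funext i
      rw [Subsingleton.elim (α := Fin 1) i 0]
      rfl
    rwa [e] at h1
  | succ m ih =>
    intro K ω c hK H
    obtain ⟨K, rfl⟩ : ∃ L, K = L + 1 := ⟨K - 1, by omega⟩
    obtain ⟨v', hv'⟩ := ih K (ω.curryLeft (c 0)) (c ∘ Fin.succ) (by omega) (by
      intro σ hσ
      have h1 := H (Fin.cons 0 (Fin.succ ∘ σ))
        (cons_zero_mono _ (Fin.strictMono_succ.comp hσ) (fun i => Fin.succ_pos _))
      have e : (c ∘ (Fin.cons 0 (Fin.succ ∘ σ) : Fin (m + 1 + 1) → Fin (K + 1))) =
          Matrix.vecCons (c 0) ((c ∘ Fin.succ) ∘ σ) := by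
        funext i
        refine Fin.cases ?_ (fun i => ?_) i <;> simp
      rw [e] at h1
      exact h1)
    have swap : ∀ w : Fin m → E, ω (Matrix.vecCons v' (Matrix.vecCons (c 0) w)) =
        - ω (Matrix.vecCons (c 0) (Matrix.vecCons v' w)) := by
      intro w
      have h1 : ((ω.curryLeft (v' + c 0)).curryLeft (v' + c 0)) w = 0 := by
        rw [AlternatingMap.curryLeft_same]; rfl
      have h2 : ((ω.curryLeft v').curryLeft v') w = 0 := by
        rw [AlternatingMap.curryLeft_same]; rfl
      have h3 : ((ω.curryLeft (c 0)).curryLeft (c 0)) w = 0 := by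
        rw [AlternatingMap.curryLeft_same]; rfl
      have h4 : ((ω.curryLeft (v' + c 0)).curryLeft (v' + c 0)) w =
          ((ω.curryLeft v').curryLeft v') w + ((ω.curryLeft v').curryLeft (c 0)) w +
          (((ω.curryLeft (c 0)).curryLeft v') w + ((ω.curryLeft (c 0)).curryLeft (c 0)) w) := by
        rw [map_add ω.curryLeft, AlternatingMap.curryLeft_add, map_add]
        simp only [LinearMap.add_apply, AlternatingMap.add_apply]
        ring
      rw [h1, h2, h3] at h4
      have h5 : ((ω.curryLeft v').curryLeft (c 0)) w =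
        ω (Matrix.vecCons v' (Matrix.vecCons (c 0) w)) := rfl
      have h6 : ((ω.curryLeft (c 0)).curryLeft v') w =
        ω (Matrix.vecCons (c 0) (Matrix.vecCons v' w)) := rfl
      rw [h5, h6] at h4
      linarith
    obtain ⟨ε, hε⟩ := small_eps
      (ι := {σ : Fin (m + 1) → Fin (K + 1) // StrictMono σ})
      (fun σ => ω (Matrix.vecCons (c 0) (c ∘ σ.1)))
      (fun σ => - ω (Matrix.vecCons v' (c ∘ σ.1))) (by
        rintro ⟨σ, hσ⟩
        by_cases h0 : σ 0 = 0
        · right
          have hpos : ∀ i : Fin m, σ i.succ ≠ 0 := by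
            intro i h
            have := hσ (Fin.succ_pos i)
            rw [h, h0] at this
            exact lt_irrefl _ this
          have e : (c ∘ σ) = Matrix.vecCons (c 0)
              ((c ∘ Fin.succ) ∘ fun i => (σ i.succ).pred (hpos i)) := by
            funext i
            refine Fin.cases ?_ (fun i => ?_) i
            · simp [h0]
            · simp
          have hmono : StrictMono fun i => (σ i.succ).pred (hpos i) := by
            intro i j hij
            simpa using hσ (Fin.succ_lt_succ_iff.2 hij)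
          simp only
          rw [e]
          refine ⟨?_, ?_⟩
          · exact ω.map_eq_zero_of_eq _ (i := 0) (j := 1) (by simp) Fin.zero_ne_one
          · rw [swap, neg_neg]
            exact hv' _ hmono
        · left
          have hp : ∀ i, 0 < σ i := by
            intro i
            have h1 : 0 < σ 0 := Fin.pos_iff_ne_zero.2 h0
            exact lt_of_lt_of_le h1 (hσ.monotone (Fin.zero_le i))
          have h1 := H (Fin.cons 0 σ) (cons_zero_mono σ hσ hp)
          have e : (c ∘ (Fin.cons 0 σ : Fin (m + 1 + 1) → Fin (K + 1))) =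
              Matrix.vecCons (c 0) (c ∘ σ) := by
            funext i
            refine Fin.cases ?_ (fun i => ?_) i <;> simp
          rw [e] at h1
          exact h1)
    refine ⟨c 0 + ε • (- v'), fun τ hτ => ?_⟩
    have h1 := hε ⟨τ, hτ⟩
    have h2 : ω (Matrix.vecCons (c 0 + ε • (- v')) (c ∘ τ)) =
        ω (Matrix.vecCons (c 0) (c ∘ τ)) + ε * (- ω (Matrix.vecCons v' (c ∘ τ))) := by
      have h3 : (ω.curryLeft (c 0 + ε • (- v'))) (c ∘ τ) =
          (ω.curryLeft (c 0)) (c ∘ τ) + ε * (- (ω.curryLeft v') (c ∘ τ)) := by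
        rw [map_add, map_smul, map_neg]
        rfl
      exact h3
    rw [h2]
    exact h1

private lemma det_ext {n : ℕ} {M N : Matrix (Fin n) (Fin n) ℝ} (h : 0 < M.det) (e : M = N) :
    0 < N.det := e ▸ h

private lemma exists_last {n K : ℕ} (C : Matrix (Fin n) (Fin K) ℝ) (hn : n ≤ K) (hC : TP C) :
    ∃ v, TP (app C v) := by
  rcases n with _ | m
  · exact ⟨0, fun σ _ => by simp⟩
  · have hdet : ∀ x : Fin (m + 1) → (Fin (m + 1) → ℝ),
        ((Matrix.detRowAlternating :
          (Fin (m + 1) → ℝ) [⋀^Fin (m + 1)]→ₗ[ℝ] ℝ).domDomCongr Fin.revPerm) x =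
          (Matrix.of fun a i => x i.rev a).det := by
      intro x
      rw [← Matrix.det_transpose]
      rfl
    obtain ⟨v, hv⟩ := front m K
      ((Matrix.detRowAlternating :
          (Fin (m + 1) → ℝ) [⋀^Fin (m + 1)]→ₗ[ℝ] ℝ).domDomCongr Fin.revPerm)
      (fun j a => C a j.rev) hn (by
        intro σ hσ
        rw [hdet]
        refine det_ext (hC (fun i => (σ i.rev).rev) ?_) ?_
        · intro i j hij
          exact Fin.rev_lt_rev.2 (hσ (Fin.rev_lt_rev.2 hij))
        · ext a i
          rfl)
    refine ⟨v, fun σ hσ => ?_⟩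
    by_cases hl : σ (Fin.last m) = Fin.last K
    · have hne : ∀ i : Fin m, σ i.castSucc ≠ Fin.last K := by
        intro i h
        have h1 := hσ (Fin.castSucc_lt_last i)
        rw [h, hl] at h1
        exact lt_irrefl _ h1
      have hmono : StrictMono fun i : Fin m => ((σ i.rev.castSucc).castPred (hne i.rev)).rev := by
        intro i j hij
        refine Fin.rev_lt_rev.2 ?_
        simp only [Fin.castPred_lt_castPred_iff]
        exact hσ (by simpa using hij)
      have h1 := hv _ hmono
      rw [hdet] at h1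
      refine det_ext h1 ?_
      ext a i
      refine Fin.lastCases ?_ (fun i => ?_) i
      · simp [hl]
      · have e1 : (σ i.castSucc) = ((σ i.castSucc).castPred (hne i)).castSucc := by simp
        simp only [Matrix.of_apply, Matrix.submatrix_apply, id]
        rw [e1, app_castSucc]
        rw [Fin.rev_castSucc]
        simp
    · have hne : ∀ i : Fin (m + 1), σ i ≠ Fin.last K := by
        intro i h
        have h1 := hσ.monotone (Fin.le_last i)
        rw [h] at h1
        exact hl (le_antisymm (Fin.le_last _) h1)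
      have hmono : StrictMono fun i : Fin (m + 1) => (σ i).castPred (hne i) := by
        intro i j hij
        simp only [Fin.castPred_lt_castPred_iff]
        exact hσ hij
      refine det_ext (hC _ hmono) ?_
      ext a i
      have e1 : (σ i) = ((σ i).castPred (hne i)).castSucc := by simp
      simp only [Matrix.submatrix_apply, id]
      conv_rhs => rw [e1, app_castSucc]

private lemma convex_V {n K : ℕ} (C : Matrix (Fin n) (Fin K) ℝ) :
    Convex ℝ {v | TP (app C v)} := by
  intro v hv w hw a b ha hb hab σ hσ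
  have hv := hv σ hσ
  have hw := hw σ hσ
  have fin : ∀ x y : ℝ, 0 < x → 0 < y → 0 < a * x + b * y := by
    intro x y hx hy
    rcases ha.eq_or_lt with h | h
    · have hb1 : b = 1 := by linarith
      rw [← h, hb1]
      linarith
    · have h1 : 0 < a * x := mul_pos h hx
      have h2 : 0 ≤ b * y := mul_nonneg hb hy.le
      linarith
  by_cases h : ∃ j, σ j = Fin.last K
  · obtain ⟨j, hj⟩ := h
    have e : ∀ u : Fin n → ℝ, (app C u).submatrix id σ =
        ((app C 0).submatrix id σ).updateCol j u := by
      intro u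
      ext i k
      by_cases hk : k = j
      · subst hk
        simp [hj]
      · have hne : σ k ≠ Fin.last K := by
          intro h
          exact hk (hσ.injective (h.trans hj.symm))
        have e1 : (σ k) = ((σ k).castPred hne).castSucc := by simp
        rw [Matrix.updateCol_ne hk, Matrix.submatrix_apply, Matrix.submatrix_apply]
        rw [e1, app_castSucc, app_castSucc]
    rw [e, Matrix.det_updateCol_add, Matrix.det_updateCol_smul, Matrix.det_updateCol_smul,
      ← e, ← e]
    exact fin _ _ hv hw
  · push Not at h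
    have e : ∀ u : Fin n → ℝ, (app C u).submatrix id σ = (app C v).submatrix id σ := by
      intro u
      ext i k
      have e1 : (σ k) = ((σ k).castPred (h k)).castSucc := by simp
      rw [Matrix.submatrix_apply, Matrix.submatrix_apply]
      rw [e1, app_castSucc, app_castSucc]
    rw [e]
    exact hv

private lemma isOpen_TP {n K : ℕ} : IsOpen {C : Matrix (Fin n) (Fin K) ℝ | TP C} := by
  have e : {C : Matrix (Fin n) (Fin K) ℝ | TP C} =
      ⋂ σ : {σ : Fin n → Fin K // StrictMono σ}, {C | 0 < (C.submatrix id σ.1).det} := by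
    ext C
    simp only [Set.mem_iInter, Set.mem_ofPred_eq, Subtype.forall]
    rfl
  rw [e]
  refine isOpen_iInter_of_finite fun σ => ?_
  exact isOpen_lt continuous_const (Continuous.matrix_det (continuous_id.matrix_submatrix _ _))

private lemma continuous_app {X : Type*} [TopologicalSpace X] {n K : ℕ}
    (P : X → Matrix (Fin n) (Fin K) ℝ) (f : X → Fin n → ℝ) (hP : Continuous P)
    (hf : Continuous f) : Continuous fun s => app (P s) (f s) := by
  refine continuous_matrix fun i j => ?_
  refine Fin.lastCases ?_ (fun j => ?_) j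
  · simp only [app_last]
    exact (continuous_apply i).comp hf
  · simp only [app_castSucc]
    exact hP.matrix_elem i j

private lemma mul_app {n K : ℕ} (g : Matrix (Fin n) (Fin n) ℝ) (C : Matrix (Fin n) (Fin K) ℝ)
    (v : Fin n → ℝ) : g * app C v = app (g * C) (g.mulVec v) := by
  ext i j
  refine Fin.lastCases ?_ (fun j => ?_) j
  · simp [Matrix.mul_apply, Matrix.mulVec, dotProduct]
  · simp [Matrix.mul_apply]

private lemma tp_mul {n K : ℕ} (g : Matrix (Fin n) (Fin n) ℝ) (A : Matrix (Fin n) (Fin K) ℝ)
    (hg : 0 < g.det) (hA : TP A) : TP (g * A) := by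
  intro σ hσ
  have e : (g * A).submatrix id σ = g * A.submatrix id σ := by
    ext i j
    simp [Matrix.mul_apply]
  rw [e, Matrix.det_mul]
  exact mul_pos hg (hA σ hσ)

private lemma joined_line {n K : ℕ} (C : Matrix (Fin n) (Fin K) ℝ) (v w : Fin n → ℝ)
    (hv : TP (app C v)) (hw : TP (app C w)) :
    JoinedIn {C : Matrix (Fin n) (Fin (K + 1)) ℝ | TP C} (app C v) (app C w) := by
  refine JoinedIn.ofLine (f := fun t : ℝ => app C ((1 - t) • v + t • w)) ?_ ?_ ?_ ?_
  · exact (continuous_app _ _ continuous_const (by fun_prop)).continuousOn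
  · simp
  · simp
  · rintro _ ⟨t, ht, rfl⟩
    exact convex_V C hv hw (by linarith [ht.2]) ht.1 (by ring)

private lemma joined_step {n K : ℕ} (hn : n ≤ K)
    (ih : ∀ (A B : Matrix (Fin n) (Fin K) ℝ), TP A → TP B →
      ∃ g h : Matrix (Fin n) (Fin n) ℝ, 0 < g.det ∧ 0 < h.det ∧
        JoinedIn {C : Matrix (Fin n) (Fin K) ℝ | TP C} (g * A) (h * B))
    (A B : Matrix (Fin n) (Fin (K + 1)) ℝ) (hA : TP A) (hB : TP B) :
    ∃ g h : Matrix (Fin n) (Fin n) ℝ, 0 < g.det ∧ 0 < h.det ∧
      JoinedIn {C : Matrix (Fin n) (Fin (K + 1)) ℝ | TP C} (g * A) (h * B) := by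
  have hsub : ∀ A : Matrix (Fin n) (Fin (K + 1)) ℝ, TP A →
      TP (A.submatrix id Fin.castSucc) := by
    intro A hA σ hσ
    exact hA (Fin.castSucc ∘ σ) (Fin.strictMono_castSucc.comp hσ)
  have happ : ∀ A : Matrix (Fin n) (Fin (K + 1)) ℝ,
      app (A.submatrix id Fin.castSucc) (fun a => A a (Fin.last K)) = A := by
    intro A
    ext i j
    refine Fin.lastCases ?_ (fun j => ?_) j
    · simp
    · simp
  obtain ⟨g, h, hg, hh, P, hP⟩ := ih _ _ (hsub A hA) (hsub B hB)
  refine ⟨g, h, hg, hh, ?_⟩
  have hPT : ∀ s, TP (P.extend s) := fun s => hP _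
  obtain ⟨f, hf⟩ := exists_continuous_forall_mem_convex_of_local_const
    (X := ℝ) (E := Fin n → ℝ) (t := fun s => {v | TP (app (P.extend s) v)})
    (fun s => convex_V _) (by
      intro s
      obtain ⟨v, hv⟩ := exists_last (P.extend s) hn (hPT s)
      refine ⟨v, ?_⟩
      have hc : Continuous fun s => app (P.extend s) v :=
        continuous_app _ _ P.continuous_extend continuous_const
      exact hc.continuousAt.eventually (isOpen_TP.mem_nhds hv))
  have hA' : TP (g * A) := tp_mul g A hg hA
  have hB' : TP (h * B) := tp_mul h B hh hB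
  have eA : g * A = app (g * A.submatrix id Fin.castSucc)
      (g.mulVec fun a => A a (Fin.last K)) := by
    rw [← mul_app, happ]
  have eB : h * B = app (h * B.submatrix id Fin.castSucc)
      (h.mulVec fun a => B a (Fin.last K)) := by
    rw [← mul_app, happ]
  have f0 : TP (app (P.extend 0) (f 0)) := hf 0
  have f1 : TP (app (P.extend 1) (f 1)) := hf 1
  rw [Path.extend_zero] at f0
  rw [Path.extend_one] at f1
  rw [eA] at hA' ⊢
  rw [eB] at hB' ⊢
  refine (joined_line _ _ _ hA' f0).trans (JoinedIn.trans ?_ (joined_line _ _ _ f1 hB'))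
  refine JoinedIn.ofLine (f := fun s : ℝ => app (P.extend s) (f s)) ?_ ?_ ?_ ?_
  · exact (continuous_app _ _ P.continuous_extend f.continuous).continuousOn
  · simp
  · simp
  · rintro _ ⟨t, ht, rfl⟩
    exact hf t

private theorem joined {n : ℕ} (r : ℕ) : ∀ (A B : Matrix (Fin n) (Fin (n + r)) ℝ), TP A → TP B →
    ∃ g h : Matrix (Fin n) (Fin n) ℝ, 0 < g.det ∧ 0 < h.det ∧
      JoinedIn {C : Matrix (Fin n) (Fin (n + r)) ℝ | TP C} (g * A) (h * B) := by
  induction r with
  | zero =>
    intro A B hA hB
    have h1 : ∀ A : Matrix (Fin n) (Fin n) ℝ, TP A → 0 < A.det := by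
      intro A hA
      exact hA id strictMono_id
    have h2 : ∀ A : Matrix (Fin n) (Fin n) ℝ, TP A → A⁻¹ * A = 1 := by
      intro A hA
      exact Matrix.nonsing_inv_mul A (isUnit_iff_ne_zero.2 (h1 A hA).ne')
    have h3 : ∀ A : Matrix (Fin n) (Fin n) ℝ, TP A → 0 < (A⁻¹).det := by
      intro A hA
      rw [Matrix.det_nonsing_inv, Ring.inverse_eq_inv']
      exact inv_pos.2 (h1 A hA)
    refine ⟨A⁻¹, B⁻¹, h3 A hA, h3 B hB, ?_⟩
    have e1 : A⁻¹ * A = 1 := h2 A hA
    have e2 : B⁻¹ * B = 1 := h2 B hB
    have h4 : TP (A⁻¹ * A) := tp_mul _ _ (h3 A hA) hA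
    have e3 : A⁻¹ * A = B⁻¹ * B := e1.trans e2.symm
    rw [← e3]
    exact JoinedIn.refl h4
  | succ r ih => exact joined_step (Nat.le_add_right n r) ih

theorem tp_path {n K : ℕ} (hn : n ≤ K) (A B : Matrix (Fin n) (Fin K) ℝ) (hA : TP A) (hB : TP B) :
    ∃ (g h : Matrix (Fin n) (Fin n) ℝ) (P : ℝ → Matrix (Fin n) (Fin K) ℝ), 0 < g.det ∧
      0 < h.det ∧ Continuous P ∧ (∀ s, TP (P s)) ∧ P 0 = g * A ∧ P 1 = h * B := by
  obtain ⟨r, rfl⟩ := Nat.exists_eq_add_of_le hn
  obtain ⟨g, h, hg, hh, P, hP⟩ := joined r A B hA hB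
  exact ⟨g, h, P.extend, hg, hh, P.continuous_extend, fun s => hP _, P.extend_zero,
    P.extend_one⟩

end GTR
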