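import Pool.Agent.GTR.HTrig

/-!
# GTR HDet : the Wronskian determinant of the curves `sc` (8.1)

`cb_all`: Cauchy-Binet over all functions: expand `det (X * Y) = ∑_σ (∏_b Y (σ b) b) det X_σ`
(multilinearity in the columns; this is `Pool.Agent.PBK.cb`, 20 lines in Pool/Agent/PBK/Cb.lean, copy
the proof), replace `σ` by `σ ∘ π` (bijection of the functions, `det X_(σ∘π) = sign π det X_σ`) and sum
over the permutations `π`.

`jet_sc`: `jet (sc m φ A) x = A * F` with `F j b = iteratedDeriv b (sin (· - φ j)^m) x`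
(`deriv_sc`); by `trig_coef`, `F_σ = V * Cᵀ`, `V i q = sin^(m-q)(y_i) cos^q(y_i)`,
`y_i = x - φ (σ i)`, `C` lower triangular with diagonal `co b b > 0` (`Matrix.det_of_lowerTriangular`),
`q, b < n ≤ m + 1`. `V i q = sin^(m+1-n)(y_i) * (sin^(n-1-q)(y_i) cos^q(y_i))`
(`Matrix.det_mul_column`), and `Matrix.det_projVandermonde` with `v = cos y`, `w = sin y` gives
`∏_(i<j) (cos y_j sin y_i - cos y_i sin y_j) = ∏_(i<j) sin (y_i - y_j)`, `y_i - y_j = φ (σ j) - φ (σ i)`.
So the constant is `C = n! / ∏_(b<n) co b b`.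
-/

set_option autoImplicit false

open Matrix

namespace GTR

theorem cb_all {n : ℕ} {ι : Type*} [Fintype ι] (X : Matrix (Fin n) ι ℝ) (Y : Matrix ι (Fin n) ℝ) :
    (n.factorial : ℝ) * (X * Y).det =
      ∑ σ : Fin n → ι, (X.submatrix id σ).det * (Y.submatrix σ id).det := by
  have h1 : ∀ π : Equiv.Perm (Fin n), ∏ b, ((X * Y) (π b) b) =
      ∑ g : Fin n → ι, (∏ b, X (π b) (g b)) * ∏ b, Y (g b) b := by
    intro π
    simp only [Matrix.mul_apply]
    rw [Finset.prod_univ_sum, Fintype.piFinset_univ]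
    exact Finset.sum_congr rfl fun g _ => Finset.prod_mul_distrib
  have h2 : (X * Y).det = ∑ g : Fin n → ι, (∏ b, Y (g b) b) * (X.submatrix id g).det := by
    rw [Matrix.det_apply']
    simp only [h1, Finset.mul_sum]
    rw [Finset.sum_comm]
    refine Finset.sum_congr rfl fun g _ => ?_
    rw [Matrix.det_apply', Finset.mul_sum]
    refine Finset.sum_congr rfl fun π _ => ?_
    simp only [Matrix.submatrix_apply, id_eq]
    ring
  have h3 : ∀ π : Equiv.Perm (Fin n), (X * Y).det = ∑ g : Fin n → ι,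
      (X.submatrix id g).det * ((Equiv.Perm.sign π : ℤ) * ∏ b, Y (g (π b)) b) := by
    intro π
    rw [h2, ← (Equiv.arrowCongr π (Equiv.refl ι)).symm.sum_comp]
    refine Finset.sum_congr rfl fun g _ => ?_
    have e1 : (Equiv.arrowCongr π (Equiv.refl ι)).symm g = g ∘ π := by
      funext b
      simp [Equiv.arrowCongr]
    rw [e1]
    have e2 : X.submatrix id (g ∘ π) = (X.submatrix id g).submatrix id π := by
      rw [Matrix.submatrix_submatrix]
      rfl
    rw [e2, Matrix.det_permute']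
    simp only [Function.comp_apply]
    ring
  have h4 : (n.factorial : ℝ) * (X * Y).det = ∑ _π : Equiv.Perm (Fin n), (X * Y).det := by
    rw [Finset.sum_const, Finset.card_univ, Fintype.card_perm, Fintype.card_fin, nsmul_eq_mul]
  rw [h4, Finset.sum_congr rfl fun π _ => h3 π, Finset.sum_comm]
  refine Finset.sum_congr rfl fun g _ => ?_
  rw [← Finset.mul_sum, Matrix.det_apply' (Y.submatrix g id)]
  rfl

theorem jet_sc (n m : ℕ) (hm : n ≤ m + 1) : ∃ C : ℝ, 0 < C ∧ ∀ (ι : Type) [Fintype ι] (φ : ι → ℝ)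
    (A : Matrix (Fin n) ι ℝ) (x : ℝ), C * (jet (sc m φ A) x).det =
      ∑ σ : Fin n → ι, (A.submatrix id σ).det *
        ((∏ j, Real.sin (x - φ (σ j)) ^ (m + 1 - n)) *
          ∏ i : Fin n, ∏ j ∈ Finset.Ioi i, Real.sin (φ (σ j) - φ (σ i))) := by
  obtain ⟨co, hco0, hcop, hco⟩ := trig_coef m
  obtain ⟨P, hP⟩ : ∃ P, P = ∏ b : Fin n, co b b := ⟨_, rfl⟩
  have hPpos : 0 < P := by
    rw [hP]
    exact Finset.prod_pos fun b _ => hcop b (by omega)
  refine ⟨n.factorial / P, div_pos (by exact_mod_cast n.factorial_pos) hPpos, ?_⟩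
  intro ι _ φ A x
  obtain ⟨F, hF⟩ : ∃ F : Matrix ι (Fin n) ℝ, ∀ j b,
      F j b = iteratedDeriv (b : ℕ) (fun y => Real.sin (y - φ j) ^ m) x := ⟨fun j b => _, fun _ _ => rfl⟩
  have hjet : jet (sc m φ A) x = A * F := by
    ext a b
    unfold jet
    rw [deriv_sc, Matrix.mul_apply]
    refine Finset.sum_congr rfl fun j _ => ?_
    rw [hF, mul_comm]
  have hdet : ∀ σ : Fin n → ι, (F.submatrix σ id).det =
      P * ((∏ j, Real.sin (x - φ (σ j)) ^ (m + 1 - n)) *
          ∏ i : Fin n, ∏ j ∈ Finset.Ioi i, Real.sin (φ (σ j) - φ (σ i))) := by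
    intro σ
    obtain ⟨V, hV⟩ : ∃ V : Matrix (Fin n) (Fin n) ℝ, V = Matrix.of fun i q =>
        Real.sin (x - φ (σ i)) ^ (m + 1 - n) *
          projVandermonde (fun i => Real.cos (x - φ (σ i))) (fun i => Real.sin (x - φ (σ i))) i q :=
      ⟨_, rfl⟩
    obtain ⟨T, hT⟩ : ∃ T : Matrix (Fin n) (Fin n) ℝ, T = Matrix.of fun q b : Fin n => co b q := ⟨_, rfl⟩
    have h1 : F.submatrix σ id = V * T := by
      ext i b
      rw [Matrix.submatrix_apply, hF, hco _ (by simp only [id_eq]; omega), Matrix.mul_apply]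
      have hb : ((id b : Fin n) : ℕ) + 1 ≤ n := by simp only [id_eq]; omega
      rw [Finset.sum_fin_eq_sum_range]
      rw [← Finset.sum_range_add_sum_Ico _ hb]
      have hz : ∑ q ∈ Finset.Ico (((id b : Fin n) : ℕ) + 1) n,
          (if h : q < n then V i ⟨q, h⟩ * T ⟨q, h⟩ b else 0) = 0 := by
        refine Finset.sum_eq_zero fun q hq => ?_
        rw [Finset.mem_Ico] at hq
        rw [dif_pos hq.2, hT, Matrix.of_apply, hco0 _ _ (by simpa using hq.1), mul_zero]
      rw [hz, add_zero]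
      refine Finset.sum_congr rfl fun q hq => ?_
      rw [Finset.mem_range] at hq
      have hqn : q < n := by omega
      rw [dif_pos hqn, hT, hV, Matrix.of_apply, Matrix.of_apply, projVandermonde_apply]
      have e : m - q = (m + 1 - n) + (n - 1 - q) := by omega
      have e2 : ((Fin.rev (⟨q, hqn⟩ : Fin n) : Fin n) : ℕ) = n - 1 - q := by
        rw [Fin.val_rev]; simp only; omega
      rw [e2, e, pow_add]
      simp only [id_eq]
      ring
    have h2 : T.det = P := by
      rw [Matrix.det_of_isUpperTriangular, hP, hT]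
      · rfl
      · intro i j hij
        rw [hT, Matrix.of_apply]
        exact hco0 _ _ hij
    have h3 : V.det = (∏ j, Real.sin (x - φ (σ j)) ^ (m + 1 - n)) *
          ∏ i : Fin n, ∏ j ∈ Finset.Ioi i, Real.sin (φ (σ j) - φ (σ i)) := by
      rw [hV, Matrix.det_mul_column, det_projVandermonde]
      congr 1
      refine Finset.prod_congr rfl fun i _ => Finset.prod_congr rfl fun j _ => ?_
      have e : φ (σ j) - φ (σ i) = (x - φ (σ i)) - (x - φ (σ j)) := by ring
      rw [e, Real.sin_sub (x - φ (σ i)) (x - φ (σ j))]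
      ring
    rw [h1, Matrix.det_mul, h2, h3, mul_comm]
  have h5 := cb_all A F
  rw [← hjet] at h5
  rw [div_mul_eq_mul_div, h5, Finset.sum_div]
  refine Finset.sum_congr rfl fun σ _ => ?_
  rw [hdet]
  field_simp

end GTR
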