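import Pool.Agent.GTR.HPos

/-!
# GTR HEq : equally spaced nodes (8.2)

`shift_sum`: let `h : ℝ → ℝ` be of the form `h φ = Re or complex value of e^(-2iDφ) P(e^(2iφ))`, i.e.
`(h φ : ℂ) = ∑_(q ≤ 2D) c_q e^(2i(q-D)φ)`, `D < K`. Then `∑_(j<K) h (π j / K + θ)` does not depend on
`θ`: `∑_j e^(2i(q-D)(πj/K+θ)) = e^(2i(q-D)θ) ∑_j ζ^(j(q-D))`, `ζ = e^(2πi/K)`, and the last sum vanishes
unless `q = D` (`0 < |q - D| < K`; geometric sum, `IsPrimitiveRoot.geom_sum_eq_zero`-like or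
`Complex.exp` of `2πi (q-D)` equals 1 and `geom_sum_eq`).

`prod_form`: a product of `2D` factors, each `cos φ`, `sin φ` or `sin (x - φ)`, is of this form:
`cos φ = e^(-iφ)(e^(2iφ)+1)/2`, `sin φ = e^(-iφ)(e^(2iφ)-1)/(2i)`,
`sin (x-φ) = e^(-iφ)(e^(ix) - e^(-ix) e^(2iφ))/(2i)`; the product of the brackets is a polynomial of
degree `≤ 2D` in `e^(2iφ)`.

`eq_nodes`: for fixed `x`, `a` the function `h φ = sin^m (x - φ) bn n φ a` is such a product with
`2D = m + n - 1 = 2 (n - 1 + p)`, `D < K`. Shifting by `θ = x`: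
`∑_j h (φ_j) = ∑_j h (φ_j + x) = ∑_j sin^m (-φ_j) bn n (φ_j + x) a`, and `bn n (φ + x) a =
(cos x cos φ - sin x sin φ)^(n-1-a) (sin x cos φ + cos x sin φ)^a` is a linear combination of the
components of `bn n x` (form of degree `n-1` in `cos x, sin x`): this gives `T`. `det T ≠ 0`: the left
side has `det (jet ..) > 0` by `pos_w` (weights 1, `S = univ`, `n + 1 ≤ K`,
`sin (π (i - j) / K) ≠ 0`), while `jet (T b) = T * jet b`.
-/

set_option autoImplicit false

open Matrix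

namespace GTR

/-- `h` is `e^(-i d φ)` times a polynomial of degree at most `d` in `e^(2 i φ)`. -/
private def TF (d : ℕ) (h : ℝ → ℂ) : Prop :=
  ∃ P : Polynomial ℂ, P.natDegree ≤ d ∧ ∀ φ : ℝ,
    h φ * Complex.exp (φ * Complex.I) ^ d = P.eval (Complex.exp (φ * Complex.I) ^ 2)

private theorem TF.one : TF 0 (fun _ => 1) := ⟨1, by simp, fun φ => by simp⟩

private theorem TF.mul {d e : ℕ} {h g : ℝ → ℂ} (hh : TF d h) (hg : TF e g) :
    TF (d + e) (fun φ => h φ * g φ) := by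
  obtain ⟨P, hP, hP'⟩ := hh
  obtain ⟨Q, hQ, hQ'⟩ := hg
  refine ⟨P * Q, Polynomial.natDegree_mul_le.trans (add_le_add hP hQ), fun φ => ?_⟩
  rw [Polynomial.eval_mul, ← hP', ← hQ', pow_add]
  ring

private theorem TF.pow {h : ℝ → ℂ} (hh : TF 1 h) (k : ℕ) : TF k (fun φ => h φ ^ k) := by
  induction k with
  | zero => simpa using TF.one
  | succ k ih =>
    have h1 := ih.mul hh
    simpa only [pow_succ] using h1

private theorem TF.lin (A B : ℝ) :
    TF 1 (fun φ : ℝ => ((A * Real.cos φ + B * Real.sin φ : ℝ) : ℂ)) := by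
  refine ⟨Polynomial.C (A / 2 - B * Complex.I / 2) * Polynomial.X +
    Polynomial.C (A / 2 + B * Complex.I / 2), Polynomial.natDegree_linear_le, fun φ => ?_⟩
  have h1 : Complex.exp (-(φ : ℂ) * Complex.I) * Complex.exp (φ * Complex.I) = 1 := by
    rw [← Complex.exp_add]
    simp
  simp only [Polynomial.eval_add, Polynomial.eval_mul, Polynomial.eval_C, Polynomial.eval_X]
  push_cast
  rw [Complex.cos, Complex.sin, pow_one]
  linear_combination (A / 2 + B * Complex.I / 2) * h1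

private theorem TF.shift {D K : ℕ} (hDK : D < K) {h : ℝ → ℂ} (hh : TF (2 * D) h) :
    ∃ s : ℂ, ∀ θ : ℝ, ∑ j : Fin K, h (Real.pi * (j : ℕ) / K + θ) = s := by
  obtain ⟨P, hP, hP'⟩ := hh
  refine ⟨P.coeff D * K, fun θ => ?_⟩
  have hK0 : K ≠ 0 := by omega
  have hK0' : (K : ℂ) ≠ 0 := by exact_mod_cast hK0
  have hprim := Complex.isPrimitiveRoot_exp K hK0
  obtain ⟨ζ, hζ⟩ : ∃ ζ, ζ = Complex.exp (2 * Real.pi * Complex.I / K) := ⟨_, rfl⟩
  rw [← hζ] at hprim
  have hζ0 : ζ ≠ 0 := by rw [hζ]; exact Complex.exp_ne_zero _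
  obtain ⟨E, hE⟩ : ∃ E, E = Complex.exp (θ * Complex.I) ^ 2 := ⟨_, rfl⟩
  have hE0 : E ≠ 0 := by rw [hE]; exact pow_ne_zero _ (Complex.exp_ne_zero _)
  have hz : ∀ j : ℕ, Complex.exp (((Real.pi * j / K + θ : ℝ) : ℂ) * Complex.I) ^ 2 = ζ ^ j * E := by
    intro j
    rw [hζ, hE, ← Complex.exp_nat_mul, ← Complex.exp_nat_mul, ← Complex.exp_nat_mul,
      ← Complex.exp_add]
    congr 1
    push_cast
    field_simp
  have hval : ∀ j : ℕ, h (Real.pi * j / K + θ) =
      ∑ q ∈ Finset.range (2 * D + 1), P.coeff q * E ^ ((q : ℤ) - D) * (ζ ^ ((q : ℤ) - D)) ^ j := by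
    intro j
    have h1 := hP' (Real.pi * j / K + θ)
    rw [pow_mul, hz j, Polynomial.eval_eq_sum_range' (Nat.lt_succ_of_le hP)] at h1
    have hz0 : ζ ^ j * E ≠ 0 := mul_ne_zero (pow_ne_zero _ hζ0) hE0
    have h2 : h (Real.pi * j / K + θ) =
        (∑ q ∈ Finset.range (2 * D).succ, P.coeff q * (ζ ^ j * E) ^ q) / (ζ ^ j * E) ^ D := by
      rw [eq_div_iff (pow_ne_zero _ hz0)]
      exact h1
    rw [h2, Finset.sum_div]
    refine Finset.sum_congr rfl fun q _ => ?_
    have h3 : (ζ ^ ((q : ℤ) - D)) ^ j = (ζ ^ j) ^ ((q : ℤ) - D) := by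
      rw [← zpow_natCast, ← zpow_natCast, ← _root_.zpow_mul, ← _root_.zpow_mul, mul_comm]
    rw [h3, mul_assoc, ← mul_zpow, mul_comm E, zpow_sub₀ hz0, zpow_natCast, zpow_natCast, mul_div_assoc]
  rw [Fin.sum_univ_eq_sum_range (fun j : ℕ => h (Real.pi * j / K + θ)) K,
    Finset.sum_congr rfl (fun j _ => hval j), Finset.sum_comm]
  rw [Finset.sum_eq_single D]
  · simp [mul_comm]
  · intro q hq hqD
    rw [← Finset.mul_sum]
    have hr1 : ζ ^ ((q : ℤ) - D) ≠ 1 := by
      intro h1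
      rw [hprim.zpow_eq_one_iff_dvd] at h1
      have h2 := Finset.mem_range.1 hq
      have h3 : (q : ℤ) - D = 0 := Int.eq_zero_of_abs_lt_dvd h1 (by rw [abs_lt]; omega)
      omega
    have hrK : (ζ ^ ((q : ℤ) - D)) ^ K = 1 := by
      rw [← zpow_natCast, ← _root_.zpow_mul, mul_comm, _root_.zpow_mul, zpow_natCast, hprim.pow_eq_one, _root_.one_zpow]
    rw [geom_sum_eq hr1, hrK, sub_self, zero_div, mul_zero]
  · intro hD
    exact absurd (Finset.mem_range.2 (by omega)) hD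

/-- Forms of degree `d` in `cos x`, `sin x`. -/
private def HF (d : ℕ) (g : ℝ → ℝ) : Prop :=
  ∃ c : ℕ → ℝ, ∀ x, g x = ∑ q ∈ Finset.range (d + 1), c q *
    (Real.cos x ^ (d - q) * Real.sin x ^ q)

private theorem HF.one : HF 0 (fun _ => 1) := ⟨fun _ => 1, by simp⟩

private theorem HF.lin {d : ℕ} {g : ℝ → ℝ} (hg : HF d g) (A B : ℝ) :
    HF (d + 1) (fun x => (A * Real.cos x + B * Real.sin x) * g x) := by
  obtain ⟨c, hc⟩ := hg
  refine ⟨fun q => A * (if q ≤ d then c q else 0) + B * (if q = 0 then 0 else c (q - 1)),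
    fun x => ?_⟩
  simp only []
  rw [hc x]
  have e1 : ∑ q ∈ Finset.range (d + 1 + 1), A * (if q ≤ d then c q else 0) *
      (Real.cos x ^ (d + 1 - q) * Real.sin x ^ q) =
      ∑ q ∈ Finset.range (d + 1), A * Real.cos x * (c q * (Real.cos x ^ (d - q) * Real.sin x ^ q)) := by
    rw [Finset.sum_range_succ, if_neg (by omega), mul_zero, zero_mul, add_zero]
    refine Finset.sum_congr rfl fun q hq => ?_
    have h1 := Finset.mem_range.1 hq
    rw [if_pos (by omega), show d + 1 - q = (d - q) + 1 by omega, pow_succ]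
    ring
  have e2 : ∑ q ∈ Finset.range (d + 1 + 1), B * (if q = 0 then 0 else c (q - 1)) *
      (Real.cos x ^ (d + 1 - q) * Real.sin x ^ q) =
      ∑ q ∈ Finset.range (d + 1), B * Real.sin x * (c q * (Real.cos x ^ (d - q) * Real.sin x ^ q)) := by
    rw [Finset.sum_range_succ', if_pos rfl, mul_zero, zero_mul, add_zero]
    refine Finset.sum_congr rfl fun q hq => ?_
    rw [if_neg (by omega), Nat.add_sub_cancel, show d + 1 - (q + 1) = d - q by omega, pow_succ]
    ring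
  simp only [add_mul, Finset.sum_add_distrib]
  rw [Finset.mul_sum, Finset.mul_sum]
  rw [e1, e2]

private theorem HF.linpow {d : ℕ} {g : ℝ → ℝ} (hg : HF d g) (A B : ℝ) (k : ℕ) :
    HF (d + k) (fun x => (A * Real.cos x + B * Real.sin x) ^ k * g x) := by
  induction k with
  | zero => simpa using hg
  | succ k ih =>
    have h1 := ih.lin A B
    have h2 : (fun x => (A * Real.cos x + B * Real.sin x) ^ (k + 1) * g x) =
        fun x => (A * Real.cos x + B * Real.sin x) *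
          ((A * Real.cos x + B * Real.sin x) ^ k * g x) := by
      funext x
      rw [pow_succ]
      ring
    rw [h2]
    exact h1

private theorem bn_form {n : ℕ} (hn : 1 ≤ n) (φ : ℝ) (a : Fin n) :
    ∃ c : Fin n → ℝ, ∀ x, bn n (φ + x) a = ∑ q, c q * bn n x q := by
  have h1 := (HF.one.linpow (Real.sin φ) (Real.cos φ) (a : ℕ)).linpow (Real.cos φ) (-Real.sin φ)
    (n - 1 - (a : ℕ))
  have h2 : 0 + (a : ℕ) + (n - 1 - (a : ℕ)) = n - 1 := by have := a.2; omega
  rw [h2] at h1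
  obtain ⟨c, hc⟩ := h1
  refine ⟨fun q => c q, fun x => ?_⟩
  have h3 := hc x
  rw [show n - 1 + 1 = n by omega, Finset.sum_range] at h3
  unfold bn
  rw [← h3, Real.cos_add, Real.sin_add]
  ring

private theorem nodes_shift {n p K : ℕ} (hn : 1 ≤ n) (hK : n + p + 1 ≤ K) (x : ℝ) (a : Fin n) :
    ∑ j : Fin K, Real.sin (x - Real.pi * (j : ℕ) / K) ^ (n - 1 + 2 * p) *
        bn n (Real.pi * (j : ℕ) / K) a =
      ∑ j : Fin K, Real.sin (-(Real.pi * (j : ℕ) / K)) ^ (n - 1 + 2 * p) *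
        bn n (Real.pi * (j : ℕ) / K + x) a := by
  have h1 : TF (2 * (n - 1 + p)) (fun φ : ℝ =>
      ((Real.sin (x - φ) ^ (n - 1 + 2 * p) * bn n φ a : ℝ) : ℂ)) := by
    have h2 := ((TF.lin (Real.sin x) (-Real.cos x)).pow (n - 1 + 2 * p)).mul
      (((TF.lin 1 0).pow (n - 1 - (a : ℕ))).mul ((TF.lin 0 1).pow (a : ℕ)))
    have h3 : n - 1 + 2 * p + (n - 1 - (a : ℕ) + (a : ℕ)) = 2 * (n - 1 + p) := by
      have := a.2
      omega
    rw [h3] at h2
    convert h2 using 1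
    funext φ
    unfold bn
    rw [Real.sin_sub]
    push_cast
    ring
  obtain ⟨s, hs⟩ := TF.shift (K := K) (by omega) h1
  have h4 := (hs 0).trans (hs x).symm
  rw [← Complex.ofReal_sum, ← Complex.ofReal_sum] at h4
  have h5 := Complex.ofReal_injective h4
  simp only [add_zero] at h5
  rw [h5]
  refine Finset.sum_congr rfl fun j _ => ?_
  rw [show x - (Real.pi * (j : ℕ) / K + x) = -(Real.pi * (j : ℕ) / K) by ring]

theorem eq_nodes {n p K : ℕ} (hn : 1 ≤ n) (hK : n + p + 1 ≤ K) :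
    ∃ T : Matrix (Fin n) (Fin n) ℝ, T.det ≠ 0 ∧ ∀ x,
      sc (n - 1 + 2 * p) (fun j : Fin K => Real.pi * j / K)
        (fun a j => bn n (Real.pi * (j : ℕ) / K) a) x = T.mulVec (bn n x) := by
  choose c hc using fun (φ : ℝ) (a : Fin n) => bn_form hn φ a
  obtain ⟨T, hT⟩ : ∃ T : Matrix (Fin n) (Fin n) ℝ, T = fun a q =>
      ∑ j : Fin K, Real.sin (-(Real.pi * (j : ℕ) / K)) ^ (n - 1 + 2 * p) *
        c (Real.pi * (j : ℕ) / K) a q := ⟨_, rfl⟩
  have hmain : ∀ x, sc (n - 1 + 2 * p) (fun j : Fin K => Real.pi * j / K)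
        (fun a j => bn n (Real.pi * (j : ℕ) / K) a) x = T.mulVec (bn n x) := by
    intro x
    funext a
    have h1 := nodes_shift hn hK x a
    unfold sc
    rw [h1]
    simp only [Matrix.mulVec, dotProduct, hT, Finset.sum_mul]
    rw [Finset.sum_comm]
    refine Finset.sum_congr rfl fun j _ => ?_
    rw [hc, Finset.mul_sum]
    refine Finset.sum_congr rfl fun q _ => ?_
    ring
  refine ⟨T, fun hdet => ?_, hmain⟩
  have hKpos : (0 : ℝ) < K := by exact_mod_cast (show 0 < K by omega)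
  have hpos := pos_w (p := p) hn (fun j : Fin K => Real.pi * (j : ℕ) / K) (fun _ => 1)
    (fun _ => zero_le_one) Finset.univ (by rw [Finset.card_univ, Fintype.card_fin]; omega)
    (fun _ _ => one_pos) (by
      intro i _ j _ hij h0
      rw [Real.sin_eq_zero_iff] at h0
      obtain ⟨l, hl⟩ := h0
      have h1 : (l : ℝ) * K = (i : ℕ) - (j : ℕ) := by
        have hpi := Real.pi_pos.ne'
        field_simp at hl
        exact hl
      have h2 : (l : ℤ) * K = (i : ℕ) - (j : ℕ) := by exact_mod_cast h1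
      have h3 : ((i : ℕ) : ℤ) - (j : ℕ) = 0 :=
        Int.eq_zero_of_abs_lt_dvd (m := (K : ℤ)) ⟨l, by rw [← h2]; ring⟩ (by
          rw [abs_lt]
          have := i.2
          have := j.2
          omega)
      exact hij (Fin.ext (by omega))) 0
  simp only [one_mul] at hpos
  obtain ⟨Am, hAm⟩ : ∃ Am : Matrix (Fin n) (Fin K) ℝ,
      Am = fun a (j : Fin K) => bn n (Real.pi * (j : ℕ) / K) a := ⟨_, rfl⟩
  rw [← hAm] at hpos hmain
  obtain ⟨v, hv, hvT⟩ := Matrix.exists_vecMul_eq_zero_iff.2 hdet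
  have hr := jet_mulVec (n - 1 + 2 * p) (fun j : Fin K => Real.pi * (j : ℕ) / K)
    Am (Matrix.of fun _ => v : Matrix (Fin n) (Fin n) ℝ) 0
  have h0 : sc (n - 1 + 2 * p) (fun j : Fin K => Real.pi * (j : ℕ) / K)
      ((Matrix.of fun _ => v : Matrix (Fin n) (Fin n) ℝ) * Am) = fun _ => 0 := by
    funext x
    funext a
    have h1 := congrArg (fun w => v ⬝ᵥ w) (hmain x)
    simp only [Matrix.dotProduct_mulVec, hvT, zero_dotProduct] at h1
    rw [Pi.zero_apply, ← h1]
    simp only [sc, Matrix.mul_apply, Matrix.of_apply, dotProduct, Finset.mul_sum]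
    rw [Finset.sum_comm]
    refine Finset.sum_congr rfl fun q _ => Finset.sum_congr rfl fun j _ => ?_
    ring
  rw [h0] at hr
  have hj0 : jet (fun _ : ℝ => (0 : Fin n → ℝ)) 0 = 0 := by
    funext a b
    unfold jet
    simp
  rw [hj0] at hr
  have h2 : v ᵥ* (jet (sc (n - 1 + 2 * p) (fun j : Fin K => Real.pi * (j : ℕ) / K) Am) 0) = 0 := by
    funext b
    have h3 := congrFun (congrFun hr ⟨0, hn⟩) b
    rw [Matrix.mul_apply] at h3
    simp only [Matrix.of_apply] at h3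
    exact h3.symm
  exact hpos.ne' (Matrix.exists_vecMul_eq_zero_iff.1 ⟨v, hv, h2⟩)

end GTR
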