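import Pool.Agent.GTR.HTrig

/-!
# GTR HOsc : osculating planes of `sc` in window coordinates (8.3)

Fix `x`, put `s_p = sin (x - φ p) > 0`, `c_p = cos (x - φ p)`, `t_p = c_p / s_p`.

Step 1: by `deriv_sc`, `trig_coef` (`b < k ≤ m + 1`), the vectors `iteratedDeriv b (sc m φ A) x`,
`b < k`, are the combinations with the lower triangular invertible matrix `co b q` of the vectors
`g_q = ∑_p s_p^(m-q) c_p^q A_p = ∑_p s_p^m t_p^q A_p`, `q < k`; so both families have the same span
(over ℝ and, after `cxv`, over ℂ).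

Step 2: the polynomials `L_a(t) = ∏_(b ∈ J, b ≠ a) (t - t_b) / (t_a - t_b)`, `a ∈ J`, have degree
`< k = |J|` and span the polynomials of degree `< k` (every such polynomial is `∑_a f(t_a) L_a`:
`Lagrange.eq_interpolate` or the like; `Lagrange.basis`). So the span of the `g_q` is the span of
`∑_p s_p^m L_a(t_p) A_p = s_a^m (A_a + ∑_(p ∉ J) (s_p / s_a)^m L_a(t_p) A_p)`, `a ∈ J`
(`L_a(t_b) = 0` for `b ∈ J`, `b ≠ a`, and `L_a(t_a) = 1`).
-/

set_option autoImplicit false

open Matrix Submodule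

namespace GTR

/-- the coefficient of `A_p` in the window vector with index `a`. -/
noncomputable def eta {K : ℕ} (m : ℕ) (φ : Fin K → ℝ) (x : ℝ) (J : Finset (Fin K)) (p a : Fin K) : ℝ :=
  (Real.sin (x - φ p) / Real.sin (x - φ a)) ^ m * ∏ b ∈ J.erase a,
    ((Real.cos (x - φ p) / Real.sin (x - φ p) - Real.cos (x - φ b) / Real.sin (x - φ b)) /
      (Real.cos (x - φ a) / Real.sin (x - φ a) - Real.cos (x - φ b) / Real.sin (x - φ b)))

private theorem comb {n : ℕ} {ι : Type*} (S : Submodule ℂ (Fin n → ℂ)) (s : Finset ι) (c : ι → ℝ)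
    (v : ι → Fin n → ℝ) (h : ∀ i ∈ s, cxv (v i) ∈ S) :
    cxv (fun r => ∑ i ∈ s, c i * v i r) ∈ S := by
  have he : cxv (fun r => ∑ i ∈ s, c i * v i r) = ∑ i ∈ s, ((c i : ℝ) : ℂ) • cxv (v i) := by
    funext r
    simp [cxv, Finset.sum_apply]
  rw [he]
  exact S.sum_mem fun i hi => S.smul_mem _ (h i hi)

/-- weighted evaluation of a polynomial at the `t_p` -/
private noncomputable def Gm {n K : ℕ} (m : ℕ) (φ : Fin K → ℝ) (A : Matrix (Fin n) (Fin K) ℝ)
    (x : ℝ) (f : Polynomial ℝ) : Fin n → ℝ :=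
  fun r => ∑ p, Real.sin (x - φ p) ^ m *
    f.eval (Real.cos (x - φ p) / Real.sin (x - φ p)) * A r p

private theorem pwq {m q : ℕ} (hq : q ≤ m) {s c : ℝ} (hs : 0 < s) :
    s ^ (m - q) * c ^ q = s ^ m * (c / s) ^ q := by
  have h1 : s ^ m = s ^ (m - q) * s ^ q := by rw [← pow_add, Nat.sub_add_cancel hq]
  rw [div_pow, h1]
  field_simp

private theorem Gm_sum {n K : ℕ} (m : ℕ) (φ : Fin K → ℝ) (A : Matrix (Fin n) (Fin K) ℝ)
    (x : ℝ) {ι : Type*} (s : Finset ι) (c : ι → ℝ) (f : ι → Polynomial ℝ) :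
    Gm m φ A x (∑ i ∈ s, Polynomial.C (c i) * f i) =
      fun r => ∑ i ∈ s, c i * Gm m φ A x (f i) r := by
  funext r
  simp only [Gm, Polynomial.eval_finsetSum, Polynomial.eval_mul, Polynomial.eval_C]
  simp only [Finset.mul_sum, Finset.sum_mul]
  rw [Finset.sum_comm]
  refine Finset.sum_congr rfl fun i _ => Finset.sum_congr rfl fun p _ => ?_
  ring

theorem osc_window {n k K m : ℕ} (hk : 1 ≤ k) (hkm : k ≤ m + 1) (φ : Fin K → ℝ)
    (A : Matrix (Fin n) (Fin K) ℝ) (x : ℝ) (J : Finset (Fin K)) (hJ : J.card = k)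
    (hs : ∀ p, 0 < Real.sin (x - φ p))
    (hc : Set.InjOn (fun p => Real.cos (x - φ p) / Real.sin (x - φ p)) J) :
    osc n k (sc m φ A) x = span ℂ (cxv '' {v | ∃ a ∈ J, v = fun r =>
      A r a + ∑ p ∈ Finset.univ \ J, eta m φ x J p a * A r p}) := by
  classical
  obtain ⟨co, hco0, hcop, hco⟩ := trig_coef m
  have hkJ : 0 < J.card := by omega
  -- the derivatives
  have hder : ∀ b ≤ m, iteratedDeriv b (sc m φ A) x =
      fun r => ∑ q ∈ Finset.range (b + 1), co b q * Gm m φ A x (Polynomial.X ^ q) r := by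
    intro b hb
    rw [deriv_sc]
    funext r
    simp only [hco b hb, Gm, Finset.mul_sum, Finset.sum_mul, Polynomial.eval_pow, Polynomial.eval_X]
    rw [Finset.sum_comm]
    refine Finset.sum_congr rfl fun q hq => Finset.sum_congr rfl fun p _ => ?_
    have hq' : q ≤ m := by
      have := Finset.mem_range.1 hq
      omega
    rw [pwq hq' (hs p)]
    ring
  -- the intermediate span
  obtain ⟨S2, hS2⟩ : ∃ S2 : Submodule ℂ (Fin n → ℂ),
      S2 = span ℂ {w | ∃ q < k, w = cxv (Gm m φ A x (Polynomial.X ^ q))} := ⟨_, rfl⟩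
  have hg2 : ∀ q < k, cxv (Gm m φ A x (Polynomial.X ^ q)) ∈ S2 := by
    intro q hq
    rw [hS2]
    exact subset_span ⟨q, hq, rfl⟩
  -- (1) osc ≤ S2
  have h1 : osc n k (sc m φ A) x ≤ S2 := by
    unfold osc
    rw [span_le]
    rintro _ ⟨b, rfl⟩
    have hb := b.2
    show cxv (iteratedDeriv (b : ℕ) (sc m φ A) x) ∈ S2
    rw [hder b (by omega)]
    refine comb S2 _ _ _ fun q hq => hg2 q ?_
    have := Finset.mem_range.1 hq
    omega
  -- (2) S2 ≤ osc
  have h2' : ∀ q, q < k → cxv (Gm m φ A x (Polynomial.X ^ q)) ∈ osc n k (sc m φ A) x := by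
    intro q
    induction q using Nat.strong_induction_on with
    | _ q ih =>
      intro hq
      have hmem : cxv (iteratedDeriv q (sc m φ A) x) ∈ osc n k (sc m φ A) x :=
        subset_span ⟨⟨q, hq⟩, rfl⟩
      rw [hder q (by omega)] at hmem
      have hc0 := hcop q (by omega)
      have hsum : cxv (fun r => ∑ q' ∈ Finset.range q, co q q' *
          Gm m φ A x (Polynomial.X ^ q') r) ∈ osc n k (sc m φ A) x :=
        comb _ _ _ _ fun q' hq' => ih q' (Finset.mem_range.1 hq') (by
          have := Finset.mem_range.1 hq'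
          omega)
      have hd := Submodule.sub_mem _ hmem hsum
      have he : cxv (fun r => ∑ q' ∈ Finset.range (q + 1), co q q' *
          Gm m φ A x (Polynomial.X ^ q') r) - cxv (fun r => ∑ q' ∈ Finset.range q, co q q' *
          Gm m φ A x (Polynomial.X ^ q') r) =
          ((co q q : ℝ) : ℂ) • cxv (Gm m φ A x (Polynomial.X ^ q)) := by
        funext r
        simp [cxv, Finset.sum_range_succ]
      rw [he] at hd
      exact (Submodule.smul_mem_iff _ (by exact_mod_cast hc0.ne')).1 hd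
  have h2 : S2 ≤ osc n k (sc m φ A) x := by
    rw [hS2, span_le]
    rintro _ ⟨q, hq, rfl⟩
    exact h2' q hq
  -- the Lagrange basis
  obtain ⟨t, ht⟩ : ∃ t : Fin K → ℝ,
      t = fun p => Real.cos (x - φ p) / Real.sin (x - φ p) := ⟨_, rfl⟩
  have hti : Set.InjOn t J := by rw [ht]; exact hc
  have hbas : ∀ a ∈ J, Gm m φ A x (Lagrange.basis J t a) =
      fun r => Real.sin (x - φ a) ^ m * (A r a + ∑ p ∈ Finset.univ \ J,
        eta m φ x J p a * A r p) := by
    intro a ha
    funext r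
    have hsplit : Gm m φ A x (Lagrange.basis J t a) r =
        ∑ p ∈ Finset.univ \ J, Real.sin (x - φ p) ^ m *
          (Lagrange.basis J t a).eval (t p) * A r p +
        ∑ p ∈ J, Real.sin (x - φ p) ^ m * (Lagrange.basis J t a).eval (t p) * A r p := by
      rw [Finset.sum_sdiff (Finset.subset_univ J)]
      simp only [Gm, ht]
    rw [hsplit]
    have hJs : ∑ p ∈ J, Real.sin (x - φ p) ^ m * (Lagrange.basis J t a).eval (t p) * A r p =
        Real.sin (x - φ a) ^ m * A r a := by
      rw [Finset.sum_eq_single a]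
      · rw [Lagrange.eval_basis_self hti ha, mul_one]
      · intro b hb hba
        rw [Lagrange.eval_basis_of_ne hba.symm hb]
        ring
      · intro h
        exact absurd ha h
    rw [hJs, mul_add, add_comm]
    congr 1
    rw [Finset.mul_sum]
    refine Finset.sum_congr rfl fun p _ => ?_
    have hev : (Lagrange.basis J t a).eval (t p) =
        ∏ b ∈ J.erase a, ((t p - t b) / (t a - t b)) := by
      unfold Lagrange.basis
      rw [Polynomial.eval_prod]
      refine Finset.prod_congr rfl fun b _ => ?_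
      unfold Lagrange.basisDivisor
      simp only [Polynomial.eval_mul, Polynomial.eval_C, Polynomial.eval_sub, Polynomial.eval_X]
      rw [div_eq_mul_inv, mul_comm]
    rw [hev]
    have heta : eta m φ x J p a = (Real.sin (x - φ p) / Real.sin (x - φ a)) ^ m *
        ∏ b ∈ J.erase a, ((t p - t b) / (t a - t b)) := by
      unfold eta
      rw [ht]
    rw [heta, div_pow]
    have hsa : Real.sin (x - φ a) ^ m ≠ 0 := pow_ne_zero _ (hs a).ne'
    field_simp
  obtain ⟨S3, hS3⟩ : ∃ S3 : Submodule ℂ (Fin n → ℂ), S3 = span ℂ (cxv '' {v | ∃ a ∈ J, v =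
      fun r => A r a + ∑ p ∈ Finset.univ \ J, eta m φ x J p a * A r p}) := ⟨_, rfl⟩
  have hcx : ∀ a ∈ J, cxv (Gm m φ A x (Lagrange.basis J t a)) =
      (((Real.sin (x - φ a) ^ m : ℝ)) : ℂ) • cxv (fun r => A r a + ∑ p ∈ Finset.univ \ J,
        eta m φ x J p a * A r p) := by
    intro a ha
    rw [hbas a ha]
    funext r
    simp [cxv]
  -- (3) S2 ≤ S3
  have h3 : S2 ≤ S3 := by
    rw [hS2, span_le]
    rintro _ ⟨q, hq, rfl⟩
    have hdeg : (Polynomial.X ^ q : Polynomial ℝ).degree < J.card := by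
      rw [Polynomial.degree_X_pow, hJ]
      exact_mod_cast hq
    have hint := Lagrange.eq_interpolate (F := ℝ) hti hdeg
    rw [Lagrange.interpolate_apply] at hint
    show cxv (Gm m φ A x (Polynomial.X ^ q)) ∈ S3
    rw [hint, Gm_sum]
    refine comb S3 _ _ _ fun a ha => ?_
    rw [hcx a ha, hS3]
    exact Submodule.smul_mem _ _ (subset_span ⟨_, ⟨a, ha, rfl⟩, rfl⟩)
  -- (4) S3 ≤ S2
  have h4 : S3 ≤ S2 := by
    rw [hS3, span_le]
    rintro _ ⟨_, ⟨a, ha, rfl⟩, rfl⟩
    have hsa : (((Real.sin (x - φ a) ^ m : ℝ)) : ℂ) ≠ 0 := by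
      exact_mod_cast (pow_pos (hs a) m).ne'
    refine (Submodule.smul_mem_iff S2 hsa).1 ?_
    rw [← hcx a ha]
    have hnd : (Lagrange.basis J t a).natDegree < k := by
      rw [Lagrange.natDegree_basis hti ha, hJ]
      omega
    have has := (Lagrange.basis J t a).as_sum_range' k hnd
    have has' : Lagrange.basis J t a = ∑ i ∈ Finset.range k,
        Polynomial.C ((Lagrange.basis J t a).coeff i) * Polynomial.X ^ i := by
      conv_lhs => rw [has]
      refine Finset.sum_congr rfl fun i _ => ?_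
      rw [Polynomial.C_mul_X_pow_eq_monomial]
    rw [has', Gm_sum]
    exact comb S2 _ _ _ fun i hi => hg2 i (Finset.mem_range.1 hi)
  rw [← hS3]
  exact le_antisymm (h1.trans h3) (h4.trans h2)

end GTR
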