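import Pool.Agent.GTR.HEq
import Pool.Agent.GTR.HConn

/-!
# GTR HPath : the path from `T b` to `r γ_A` (8.2)

`weight_path`: index set `Fin (n + p + 1) ⊕ Fin K`, nodes `Sum.elim (π j / (n+p+1)) φ`, weights
`Sum.elim (1 - s') s'` with `s' = clamp of s to [0, 1]`, `G s = A_s * sS m M nodes`,
`A_s a j = w_j(s) bn n (node j) a`. `cv (G s) = sc m nodes A_s` (`sc_cv`); `det > 0` by `pos_w` with
`S =` the left nodes for `s < 1`, the right nodes for `s = 1`. At `s = 0`: `eq_nodes`. At `s = 1` the sum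
over the left nodes vanishes: `G 1 = B * sS m M φ`.

`main_path`: `B a j = bn n (φ j) a` is `TP` (projective Vandermonde with `v = sin φ`, `w = cos φ`:
`∏_(i<j) sin (φ_(σ j) - φ_(σ i)) > 0`). Let `P` be the path of `tp_path` (applied to `B`, `A`):
`P 0 = h B`, `P 1 = g A`, and `G^w` the path of `weight_path`. Put
`G s = h * G^w (min (2 s) 1) + (P (max (2 s - 1) 0) - P 0) * sS m M φ`: continuous, equal to
`h * G^w (2 s)` for `s ≤ 1/2` and to `P (2 s - 1) * sS m M φ` for `s ≥ 1/2`; `det` by the first part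
(`jet (h γ) = h * jet γ`) and by `pos_tp`. `r = g`.
-/

set_option autoImplicit false

open Matrix

namespace GTR

private theorem HPath_cv_mul {n M : ℕ} (r : Matrix (Fin n) (Fin n) ℝ) (G : Matrix (Fin n) (Fin M) ℝ)
    (x : ℝ) : cv (r * G) x = r.mulVec (cv G x) := by
  simp only [cv, Matrix.mulVec_mulVec]

private theorem HPath_bn_smooth (M : ℕ) : ContDiff ℝ ⊤ (bn M) := by
  rw [contDiff_pi]
  intro j
  unfold bn
  exact (Real.contDiff_cos.pow _).mul (Real.contDiff_sin.pow _)

private theorem HPath_cv_smooth {n M : ℕ} (G : Matrix (Fin n) (Fin M) ℝ) : ContDiff ℝ ⊤ (cv G) := by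
  have h : cv G = fun x => (Matrix.mulVecLin G).toContinuousLinearMap (bn M x) := by
    funext x
    simp [cv]
  rw [h]
  exact (ContinuousLinearMap.contDiff _).comp (HPath_bn_smooth M)

private theorem HPath_iter {n : ℕ} (L : (Fin n → ℝ) →L[ℝ] (Fin n → ℝ)) (f : ℝ → Fin n → ℝ)
    (hf : ContDiff ℝ ⊤ f) (b : ℕ) (x : ℝ) :
    iteratedDeriv b (fun y => L (f y)) x = L (iteratedDeriv b f x) := by
  have h := L.iteratedFDeriv_comp_left (f := f) (x := x) (i := b)
    ((hf.of_le le_top).contDiffAt) (le_refl _)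
  unfold iteratedDeriv
  have h2 : (fun y => L (f y)) = L ∘ f := rfl
  rw [h2, h]
  rfl

private theorem HPath_jet {n M : ℕ} (r : Matrix (Fin n) (Fin n) ℝ) (G : Matrix (Fin n) (Fin M) ℝ)
    (x : ℝ) : jet (cv (r * G)) x = r * jet (cv G) x := by
  have h : cv (r * G) = fun x => (Matrix.mulVecLin r).toContinuousLinearMap (cv G x) := by
    funext x
    rw [HPath_cv_mul]
    simp
  ext a b
  unfold jet
  rw [h, HPath_iter _ _ (HPath_cv_smooth G)]
  simp [Matrix.mul_apply, Matrix.mulVec, dotProduct]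

private theorem HPath_sc_cv {n p : ℕ} (hn : 1 ≤ n) {ι : Type*} [Fintype ι] (φ : ι → ℝ)
    (A : Matrix (Fin n) ι ℝ) :
    cv (A * sS (n - 1 + 2 * p) (n + 2 * p) φ) = sc (n - 1 + 2 * p) φ A := by
  funext x
  rw [sc_cv (M := n + 2 * p) (by omega)]

private noncomputable def HPath_A (n : ℕ) {ι : Type*} (w node : ι → ℝ) : Matrix (Fin n) ι ℝ :=
  fun a j => w j * bn n (node j) a

theorem weight_path {n p K : ℕ} (hn : 1 ≤ n) (hK : n + 1 ≤ K) (φ : Fin K → ℝ)
    (hφ : ∀ i j, i ≠ j → Real.sin (φ i - φ j) ≠ 0) :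
    ∃ G : ℝ → Matrix (Fin n) (Fin (n + 2 * p)) ℝ, Fam n (n + 2 * p) G ∧
      G 1 = Matrix.of (fun a j => bn n (φ j) a) * sS (n - 1 + 2 * p) (n + 2 * p) φ := by
  classical
  let ψ : Fin (n + p + 1) → ℝ := fun j => Real.pi * (j : ℕ) / ((n + p + 1 : ℕ) : ℝ)
  let node : Fin (n + p + 1) ⊕ Fin K → ℝ := Sum.elim ψ φ
  let w : ℝ → Fin (n + p + 1) ⊕ Fin K → ℝ := fun s =>
    Sum.elim (fun _ => 1 - max 0 (min s 1)) (fun _ => max 0 (min s 1))
  let G : ℝ → Matrix (Fin n) (Fin (n + 2 * p)) ℝ := fun s =>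
    HPath_A n (w s) node * sS (n - 1 + 2 * p) (n + 2 * p) node
  have hpi := Real.pi_pos
  have hNpos : (0 : ℝ) < ((n + p + 1 : ℕ) : ℝ) := by positivity
  refine ⟨G, ⟨⟨p, rfl⟩, ?_, ?_, ?_⟩, ?_⟩
  · refine Continuous.matrix_mul ?_ continuous_const
    refine continuous_matrix ?_
    intro a j
    unfold HPath_A
    refine Continuous.mul ?_ continuous_const
    rcases j with j | j
    · simp only [w, Sum.elim_inl]
      exact continuous_const.sub (continuous_const.max (continuous_id.min continuous_const))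
    · simp only [w, Sum.elim_inr]
      exact continuous_const.max (continuous_id.min continuous_const)
  · intro s hs x
    have hcv : cv (G s) = sc (n - 1 + 2 * p) node (HPath_A n (w s) node) := HPath_sc_cv hn _ _
    rw [hcv]
    apply ne_of_gt
    have hcl : max 0 (min s 1) = s := by
      rw [min_eq_left hs.2, max_eq_right hs.1]
    have hw : ∀ j, 0 ≤ w s j := by
      intro j
      rcases j with j | j
      · simp only [w, Sum.elim_inl, hcl]
        linarith [hs.2]
      · simp only [w, Sum.elim_inr, hcl]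
        exact hs.1
    rcases lt_or_eq_of_le hs.2 with h1 | h1
    · refine pos_w hn node (w s) hw (Finset.univ.map Function.Embedding.inl) ?_ ?_ ?_ x
      · rw [Finset.card_map, Finset.card_univ, Fintype.card_fin]
        omega
      · intro j hj
        rw [Finset.mem_map] at hj
        obtain ⟨i, _, rfl⟩ := hj
        simp only [w, Function.Embedding.inl_apply, Sum.elim_inl, hcl]
        linarith
      · intro i hi j hj hij
        rw [Finset.mem_map] at hi hj
        obtain ⟨i, _, rfl⟩ := hi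
        obtain ⟨j, _, rfl⟩ := hj
        simp only [node, Function.Embedding.inl_apply, Sum.elim_inl, ψ]
        have hne : (i : ℕ) ≠ (j : ℕ) := by
          intro h
          apply hij
          rw [Fin.ext h]
        have hi1 : ((i : ℕ) : ℝ) < ((n + p + 1 : ℕ) : ℝ) := by exact_mod_cast i.2
        have hj1 : ((j : ℕ) : ℝ) < ((n + p + 1 : ℕ) : ℝ) := by exact_mod_cast j.2
        have hi0 : (0 : ℝ) ≤ ((i : ℕ) : ℝ) := Nat.cast_nonneg _
        have hj0 : (0 : ℝ) ≤ ((j : ℕ) : ℝ) := Nat.cast_nonneg _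
        have key : ∀ u v : ℝ, 0 ≤ u → v < ((n + p + 1 : ℕ) : ℝ) → u < v →
            0 < Real.sin (Real.pi * v / ((n + p + 1 : ℕ) : ℝ) -
              Real.pi * u / ((n + p + 1 : ℕ) : ℝ)) := by
          intro u v hu hv huv
          have e : Real.pi * v / ((n + p + 1 : ℕ) : ℝ) - Real.pi * u / ((n + p + 1 : ℕ) : ℝ) =
            Real.pi * ((v - u) / ((n + p + 1 : ℕ) : ℝ)) := by ring
          rw [e]
          have h2 : 0 < (v - u) / ((n + p + 1 : ℕ) : ℝ) := div_pos (by linarith) hNpos
          have h3 : (v - u) / ((n + p + 1 : ℕ) : ℝ) < 1 := by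
            rw [div_lt_one hNpos]
            linarith
          apply Real.sin_pos_of_pos_of_lt_pi
          · positivity
          · calc Real.pi * ((v - u) / ((n + p + 1 : ℕ) : ℝ)) < Real.pi * 1 :=
                  mul_lt_mul_of_pos_left h3 hpi
              _ = Real.pi := mul_one _
        rcases lt_or_gt_of_ne hne with h | h
        · have hk := key (i : ℕ) (j : ℕ) hi0 hj1 (by exact_mod_cast h)
          rw [← neg_sub, Real.sin_neg]
          exact ne_of_lt (by linarith)
        · have hk := key (j : ℕ) (i : ℕ) hj0 hi1 (by exact_mod_cast h)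
          exact ne_of_gt hk
    · refine pos_w hn node (w s) hw (Finset.univ.map Function.Embedding.inr) ?_ ?_ ?_ x
      · rw [Finset.card_map, Finset.card_univ, Fintype.card_fin]
        omega
      · intro j hj
        rw [Finset.mem_map] at hj
        obtain ⟨i, _, rfl⟩ := hj
        simp only [w, Function.Embedding.inr_apply, Sum.elim_inr, hcl]
        linarith
      · intro i hi j hj hij
        rw [Finset.mem_map] at hi hj
        obtain ⟨i, _, rfl⟩ := hi
        obtain ⟨j, _, rfl⟩ := hj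
        simp only [node, Function.Embedding.inr_apply, Sum.elim_inr]
        exact hφ i j (fun h => hij (by rw [h]))
  · obtain ⟨T, hT, hT2⟩ := eq_nodes (n := n) (p := p) (K := n + p + 1) hn le_rfl
    refine ⟨T, hT, ?_⟩
    intro x
    have hcv : cv (G 0) = sc (n - 1 + 2 * p) node (HPath_A n (w 0) node) := HPath_sc_cv hn _ _
    rw [hcv, ← hT2]
    have h0 : max (0 : ℝ) (min 0 1) = 0 := by norm_num
    funext a
    unfold sc
    rw [Fintype.sum_sum_type]
    simp only [HPath_A, w, node, ψ, Sum.elim_inl, Sum.elim_inr, h0, sub_zero, one_mul, zero_mul,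
      mul_zero, Finset.sum_const_zero, add_zero]
  · have h1 : max (0 : ℝ) (min 1 1) = 1 := by norm_num
    ext a q
    simp only [G]
    rw [Matrix.mul_apply, Matrix.mul_apply, Fintype.sum_sum_type]
    simp only [HPath_A, w, node, ψ, sS, Sum.elim_inl, Sum.elim_inr, h1, sub_self, one_mul,
      zero_mul, Finset.sum_const_zero, zero_add, Matrix.of_apply]

theorem main_path {n p K : ℕ} (hn : 1 ≤ n) (hK : n + 1 ≤ K) {φ : Fin K → ℝ} (hφ : StrictMono φ)
    (hπ : ∀ i j, φ j - φ i < Real.pi) {A : Matrix (Fin n) (Fin K) ℝ} (hA : TP A) :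
    ∃ G : ℝ → Matrix (Fin n) (Fin (n + 2 * p)) ℝ, Fam n (n + 2 * p) G ∧
      ∃ r : Matrix (Fin n) (Fin n) ℝ, r.det ≠ 0 ∧
        ∀ x, cv (G 1) x = r.mulVec (sc (n - 1 + 2 * p) φ A x) := by
  have hsin : ∀ i j, i < j → 0 < Real.sin (φ j - φ i) := by
    intro i j hij
    exact Real.sin_pos_of_pos_of_lt_pi (by linarith [hφ hij]) (hπ i j)
  have hB : TP (Matrix.of (fun (a : Fin n) (j : Fin K) => bn n (φ j) a)) := by
    intro σ hσ
    have e : ((Matrix.of (fun (a : Fin n) (j : Fin K) => bn n (φ j) a)).submatrix id σ) =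
        (Matrix.projVandermonde (fun i => Real.sin (φ (σ i))) (fun i => Real.cos (φ (σ i))))ᵀ := by
      ext a i
      rw [Matrix.submatrix_apply, Matrix.of_apply, Matrix.transpose_apply,
        Matrix.projVandermonde_apply]
      unfold bn
      have hr : (Fin.rev a : Fin n).1 = n - 1 - (a : ℕ) := by
        rw [Fin.val_rev]
        omega
      rw [hr]
      simp only [id_eq]
      ring
    rw [e, Matrix.det_transpose, Matrix.det_projVandermonde]
    refine Finset.prod_pos ?_
    intro i _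
    refine Finset.prod_pos ?_
    intro j hj
    rw [Finset.mem_Ioi] at hj
    have h := hsin (σ i) (σ j) (hσ hj)
    rw [Real.sin_sub] at h
    linarith
  obtain ⟨gB, hA', P, hg, hh, hPc, hPTP, hP0, hP1⟩ :=
    tp_path (n := n) (K := K) (by omega) (Matrix.of (fun (a : Fin n) (j : Fin K) => bn n (φ j) a))
      A hB hA
  have hsn : ∀ i j, i ≠ j → Real.sin (φ i - φ j) ≠ 0 := by
    intro i j hij
    rcases lt_or_gt_of_ne hij with h | h
    · have := hsin i j h
      rw [← neg_sub, Real.sin_neg]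
      exact ne_of_lt (by linarith)
    · exact ne_of_gt (hsin j i h)
  obtain ⟨G, hG, hG1⟩ := weight_path (n := n) (p := p) (K := K) hn hK φ hsn
  let H : ℝ → Matrix (Fin n) (Fin (n + 2 * p)) ℝ := fun s =>
    gB * G (min (2 * s) 1) + (P (max (2 * s - 1) 0) - P 0) * sS (n - 1 + 2 * p) (n + 2 * p) φ
  have hH1 : ∀ s, s ≤ 1 / 2 → H s = gB * G (2 * s) := by
    intro s hs
    simp only [H]
    rw [min_eq_left (by linarith), max_eq_right (by linarith), sub_self, Matrix.zero_mul, add_zero]
  have hH2 : ∀ s, 1 / 2 ≤ s → H s = P (2 * s - 1) * sS (n - 1 + 2 * p) (n + 2 * p) φ := by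
    intro s hs
    simp only [H]
    rw [min_eq_right (by linarith), max_eq_left (by linarith), hG1, hP0, Matrix.sub_mul,
      ← Matrix.mul_assoc]
    abel
  refine ⟨H, ⟨⟨p, rfl⟩, ?_, ?_, ?_⟩, hA', ne_of_gt hh, ?_⟩
  · refine Continuous.add ?_ ?_
    · refine Continuous.matrix_mul continuous_const ?_
      exact hG.cont.comp ((continuous_const.mul continuous_id).min continuous_const)
    · refine Continuous.matrix_mul ?_ continuous_const
      refine Continuous.sub ?_ continuous_const
      exact hPc.comp (((continuous_const.mul continuous_id).sub continuous_const).max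
        continuous_const)
  · intro s hs x
    rcases le_total s (1 / 2) with h | h
    · rw [hH1 s h, HPath_jet, Matrix.det_mul]
      refine mul_ne_zero (ne_of_gt hg) (hG.det _ ⟨by linarith [hs.1], by linarith⟩ x)
    · rw [hH2 s h, HPath_sc_cv hn]
      exact ne_of_gt (pos_tp hn hK hφ hπ (hPTP _) x)
  · obtain ⟨T, hT, hT2⟩ := hG.start
    refine ⟨gB * T, ?_, ?_⟩
    · rw [Matrix.det_mul]
      exact mul_ne_zero (ne_of_gt hg) hT
    · intro x
      rw [hH1 0 (by norm_num), mul_zero, HPath_cv_mul, hT2, Matrix.mulVec_mulVec]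
  · intro x
    rw [hH2 1 (by norm_num)]
    have e : (2 * 1 - 1 : ℝ) = 1 := by norm_num
    rw [e, hP1, Matrix.mul_assoc, HPath_cv_mul, HPath_sc_cv hn]

end GTR
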