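import Pool.Agent.GTR.HDet

/-!
# GTR HPos : the curves `sc` are nice (8.1), (8.2)

`pos_tp`: in `jet_sc` (`m + 1 - n = 2 p`) every term is `≥ 0`: if `σ` is not injective both
determinants vanish (`∏ sin (φ (σ j) - φ (σ i)) = 0`); otherwise sort: `σ = σ' ∘ π` with `σ'` strictly
increasing and `π` a permutation (`Tuple.sort`), `det A_σ = sign π det A_σ'`,
`∏_(i<j) sin (φ (σ j) - φ (σ i)) = sign π ∏_(i<j) sin (φ (σ' j) - φ (σ' i))` (this product is the
determinant of a projective Vandermonde matrix `cos^(n-1-q) sin^q (φ (σ i))`,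
`Matrix.det_projVandermonde`, `Matrix.det_permute`), and for `σ'` all factors are positive, the even
power is `≥ 0`. At least one term is positive: among the `K ≥ n + 1` indices at most one has
`sin (x - φ_j) = 0` (`φ` injective mod `π`), choose `n` other ones in increasing order
(`Finset.orderEmbOfFin`).

`pos_w`: for `A a j = w_j bn n (φ_j) a` the determinant `det A_σ` is
`∏ w_(σ j) ∏_(i<j) sin (φ (σ j) - φ (σ i))` (projective Vandermonde with `v = sin`, `w = cos`), so the
term is a square times `∏ w * even power ≥ 0`; positive for injective `σ : Fin n → S` which avoids the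
at most one `j ∈ S` with `sin (x - φ_j) = 0` (two such `j` would give `sin (φ_i - φ_j) = 0`).
-/

set_option autoImplicit false

open Matrix

namespace GTR

/-- the product of sines -/
noncomputable def DD99 {n : ℕ} (θ : Fin n → ℝ) : ℝ :=
  ∏ i : Fin n, ∏ j ∈ Finset.Ioi i, Real.sin (θ j - θ i)

theorem DD99_det {n : ℕ} (θ : Fin n → ℝ) : DD99 θ =
    (Matrix.projVandermonde (fun i => Real.sin (θ i)) (fun i => Real.cos (θ i))).det := by
  rw [Matrix.det_projVandermonde]
  unfold DD99
  refine Finset.prod_congr rfl fun i _ => Finset.prod_congr rfl fun j _ => ?_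
  rw [Real.sin_sub]
  ring

theorem DD99_perm {n : ℕ} (θ : Fin n → ℝ) (π : Equiv.Perm (Fin n)) :
    DD99 (θ ∘ π) = ((Equiv.Perm.sign π : ℤ) : ℝ) * DD99 θ := by
  rw [DD99_det, DD99_det, ← Matrix.det_permute]
  rfl

theorem DD99_zero {n : ℕ} (θ : Fin n → ℝ) {i j : Fin n} (hij : i ≠ j) (h : θ i = θ j) :
    DD99 θ = 0 := by
  rw [DD99_det]
  refine Matrix.det_zero_of_row_eq hij ?_
  funext q
  simp [Matrix.projVandermonde_apply, h]

theorem DD99_pos {n : ℕ} (θ : Fin n → ℝ) (h : ∀ i j, i < j → 0 < Real.sin (θ j - θ i)) :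
    0 < DD99 θ := by
  unfold DD99
  refine Finset.prod_pos fun i _ => Finset.prod_pos fun j hj => h i j (Finset.mem_Ioi.1 hj)

theorem DD99_ne {n : ℕ} (θ : Fin n → ℝ) (h : ∀ i j, i ≠ j → Real.sin (θ j - θ i) ≠ 0) :
    DD99 θ ≠ 0 := by
  unfold DD99
  refine Finset.prod_ne_zero_iff.2 fun i _ => Finset.prod_ne_zero_iff.2 fun j hj =>
    h i j (ne_of_lt (Finset.mem_Ioi.1 hj))

theorem sin99_sub {x a b : ℝ} (ha : Real.sin (x - a) = 0) (hb : Real.sin (x - b) = 0) :
    Real.sin (b - a) = 0 := by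
  have : b - a = (x - a) - (x - b) := by ring
  rw [this, Real.sin_sub, ha, hb]
  ring

theorem card99 {ι : Type*} [DecidableEq ι] (S : Finset ι) {n : ℕ} (hS : n + 1 ≤ S.card)
    (P : ι → Prop) [DecidablePred P] (h : ∀ i ∈ S, ∀ j ∈ S, i ≠ j → P i ∨ P j) :
    n ≤ (S.filter P).card := by
  have h1 : (S.filter (fun i => ¬ P i)).card ≤ 1 := by
    rw [Finset.card_le_one]
    intro a ha b hb
    by_contra hne
    rw [Finset.mem_filter] at ha hb
    rcases h a ha.1 b hb.1 hne with h2 | h2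
    · exact ha.2 h2
    · exact hb.2 h2
  have h2 := Finset.card_filter_add_card_filter_not (s := S) P
  omega

theorem pos_tp {n K p : ℕ} (hn : 1 ≤ n) (hK : n + 1 ≤ K) {φ : Fin K → ℝ} (hφ : StrictMono φ)
    (hπ : ∀ i j, φ j - φ i < Real.pi) {A : Matrix (Fin n) (Fin K) ℝ} (hA : TP A) (x : ℝ) :
    0 < (jet (sc (n - 1 + 2 * p) φ A) x).det := by
  obtain ⟨C, hC, hh⟩ := jet_sc n (n - 1 + 2 * p) (by omega)
  have key := hh (Fin K) φ A x
  have hexp : n - 1 + 2 * p + 1 - n = 2 * p := by omega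
  rw [hexp] at key
  have hsin : ∀ i j : Fin K, i < j → 0 < Real.sin (φ j - φ i) := fun i j hij =>
    Real.sin_pos_of_pos_of_lt_pi (by linarith [hφ hij]) (hπ i j)
  have hstrict : ∀ σ : Fin n → Fin K, StrictMono σ → 0 < (A.submatrix id σ).det * DD99 (φ ∘ σ) := by
    intro σ hσ
    exact mul_pos (hA σ hσ) (DD99_pos _ fun i j hij => hsin _ _ (hσ hij))
  have hnn : ∀ σ : Fin n → Fin K, 0 ≤ (A.submatrix id σ).det * DD99 (φ ∘ σ) := by
    intro σ
    by_cases hinj : Function.Injective σ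
    · have hmono : StrictMono (σ ∘ Tuple.sort σ) :=
        (Tuple.monotone_sort σ).strictMono_of_injective (hinj.comp (Tuple.sort σ).injective)
      have h1 := hstrict _ hmono
      have h2 : (A.submatrix id (σ ∘ Tuple.sort σ)).det =
          ((Equiv.Perm.sign (Tuple.sort σ) : ℤ) : ℝ) * (A.submatrix id σ).det := by
        rw [← Matrix.det_permute']
        rfl
      have h3 : DD99 (φ ∘ (σ ∘ Tuple.sort σ)) =
          ((Equiv.Perm.sign (Tuple.sort σ) : ℤ) : ℝ) * DD99 (φ ∘ σ) := DD99_perm (φ ∘ σ) _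
      rw [h2, h3] at h1
      have h4 : (((Equiv.Perm.sign (Tuple.sort σ) : ℤ) : ℝ)) *
          (((Equiv.Perm.sign (Tuple.sort σ) : ℤ) : ℝ)) = 1 := by
        rcases Int.units_eq_one_or (Equiv.Perm.sign (Tuple.sort σ)) with h | h <;> rw [h] <;> simp
      have h5 : ((Equiv.Perm.sign (Tuple.sort σ) : ℤ) : ℝ) * (A.submatrix id σ).det *
          (((Equiv.Perm.sign (Tuple.sort σ) : ℤ) : ℝ) * DD99 (φ ∘ σ)) =
          (A.submatrix id σ).det * DD99 (φ ∘ σ) := by
        calc _ = (((Equiv.Perm.sign (Tuple.sort σ) : ℤ) : ℝ) *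
            ((Equiv.Perm.sign (Tuple.sort σ) : ℤ) : ℝ)) *
              ((A.submatrix id σ).det * DD99 (φ ∘ σ)) := by ring
          _ = _ := by rw [h4, one_mul]
      rw [h5] at h1
      exact h1.le
    · have : ∃ i j, σ i = σ j ∧ i ≠ j := by
        by_contra hcon
        push Not at hcon
        exact hinj fun i j hij => hcon i j hij
      obtain ⟨i, j, hij, hne⟩ := this
      rw [DD99_zero (φ ∘ σ) hne (by simp [hij]), mul_zero]
  have hsum : 0 < ∑ σ : Fin n → Fin K, (A.submatrix id σ).det *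
        ((∏ j, Real.sin (x - φ (σ j)) ^ (2 * p)) *
          ∏ i : Fin n, ∏ j ∈ Finset.Ioi i, Real.sin (φ (σ j) - φ (σ i))) := by
    have hrw : ∀ σ : Fin n → Fin K, (A.submatrix id σ).det *
        ((∏ j, Real.sin (x - φ (σ j)) ^ (2 * p)) *
          ∏ i : Fin n, ∏ j ∈ Finset.Ioi i, Real.sin (φ (σ j) - φ (σ i))) =
        ((A.submatrix id σ).det * DD99 (φ ∘ σ)) * ∏ j, Real.sin (x - φ (σ j)) ^ (2 * p) := by
      intro σ
      unfold DD99
      simp only [Function.comp_apply]
      ring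
    refine Finset.sum_pos' (fun σ _ => ?_) ?_
    · rw [hrw]
      exact mul_nonneg (hnn σ) (Finset.prod_nonneg fun j _ => (even_two_mul p).pow_nonneg _)
    · classical
      have hc := card99 (Finset.univ : Finset (Fin K)) (n := n) (by simpa using hK)
        (fun j => Real.sin (x - φ j) ≠ 0) (by
          intro i _ j _ hij
          by_contra hcon
          push Not at hcon
          rcases lt_or_gt_of_ne hij with h | h
          · have := sin99_sub hcon.1 hcon.2
            exact absurd this (hsin _ _ h).ne'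
          · have := sin99_sub hcon.2 hcon.1
            exact absurd this (hsin _ _ h).ne')
      obtain ⟨t, ht, htc⟩ := Finset.exists_subset_card_eq hc
      refine ⟨t.orderEmbOfFin htc, Finset.mem_univ _, ?_⟩
      rw [hrw]
      refine mul_pos (hstrict _ (t.orderEmbOfFin htc).strictMono) (Finset.prod_pos fun j _ => ?_)
      have hj := Finset.orderEmbOfFin_mem t htc j
      have hj2 := (Finset.mem_filter.1 (ht hj)).2
      exact (even_two_mul p).pow_pos hj2
  rw [← key] at hsum
  exact (mul_pos_iff_of_pos_left hC).1 hsum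

theorem pos_w {n p : ℕ} (hn : 1 ≤ n) {ι : Type} [Fintype ι] (φ w : ι → ℝ) (hw : ∀ j, 0 ≤ w j)
    (S : Finset ι) (hS : n + 1 ≤ S.card) (hS1 : ∀ j ∈ S, 0 < w j)
    (hS2 : ∀ i ∈ S, ∀ j ∈ S, i ≠ j → Real.sin (φ i - φ j) ≠ 0) (x : ℝ) :
    0 < (jet (sc (n - 1 + 2 * p) φ (fun a j => w j * bn n (φ j) a)) x).det := by
  obtain ⟨C, hC, hh⟩ := jet_sc n (n - 1 + 2 * p) (by omega)
  have key := hh ι φ (fun a j => w j * bn n (φ j) a) x
  have hexp : n - 1 + 2 * p + 1 - n = 2 * p := by omega
  rw [hexp] at key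
  have hdet : ∀ σ : Fin n → ι,
      (Matrix.submatrix (fun (a : Fin n) (j : ι) => w j * bn n (φ j) a) id σ).det =
        (∏ j, w (σ j)) * DD99 (φ ∘ σ) := by
    intro σ
    rw [DD99_det, ← Matrix.det_transpose (Matrix.projVandermonde _ _), ← Matrix.det_mul_row]
    congr 1
    ext a j
    simp only [Matrix.submatrix_apply, Matrix.of_apply, Matrix.transpose_apply,
      Matrix.projVandermonde_apply, bn, id_eq, Function.comp_apply, Fin.val_rev]
    have : n - 1 - (a : ℕ) = n - ((a : ℕ) + 1) := by omega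
    rw [this]
    ring
  have hrw : ∀ σ : Fin n → ι,
      (Matrix.submatrix (fun (a : Fin n) (j : ι) => w j * bn n (φ j) a) id σ).det *
        ((∏ j, Real.sin (x - φ (σ j)) ^ (2 * p)) *
          ∏ i : Fin n, ∏ j ∈ Finset.Ioi i, Real.sin (φ (σ j) - φ (σ i))) =
        (∏ j, w (σ j)) * (DD99 (φ ∘ σ) * DD99 (φ ∘ σ)) *
          ∏ j, Real.sin (x - φ (σ j)) ^ (2 * p) := by
    intro σ
    rw [hdet]
    have : DD99 (φ ∘ σ) = ∏ i : Fin n, ∏ j ∈ Finset.Ioi i, Real.sin (φ (σ j) - φ (σ i)) := rfl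
    rw [← this]
    ring
  have hsum : 0 < ∑ σ : Fin n → ι,
      (Matrix.submatrix (fun (a : Fin n) (j : ι) => w j * bn n (φ j) a) id σ).det *
        ((∏ j, Real.sin (x - φ (σ j)) ^ (2 * p)) *
          ∏ i : Fin n, ∏ j ∈ Finset.Ioi i, Real.sin (φ (σ j) - φ (σ i))) := by
    refine Finset.sum_pos' (fun σ _ => ?_) ?_
    · rw [hrw]
      exact mul_nonneg (mul_nonneg (Finset.prod_nonneg fun j _ => hw _) (mul_self_nonneg _))
        (Finset.prod_nonneg fun j _ => (even_two_mul p).pow_nonneg _)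
    · classical
      have hc := card99 S (n := n) hS
        (fun j => Real.sin (x - φ j) ≠ 0) (by
          intro i hi j hj hij
          by_contra hcon
          push Not at hcon
          exact hS2 j hj i hi hij.symm (sin99_sub hcon.1 hcon.2))
      obtain ⟨t, ht, htc⟩ := Finset.exists_subset_card_eq hc
      let e := t.equivFinOfCardEq htc
      have hmem : ∀ j : Fin n, ((e.symm j : t) : ι) ∈ S ∧
          Real.sin (x - φ ((e.symm j : t) : ι)) ≠ 0 := fun j =>
        Finset.mem_filter.1 (ht (e.symm j).2)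
      refine ⟨fun j => ((e.symm j : t) : ι), Finset.mem_univ _, ?_⟩
      rw [hrw]
      refine mul_pos (mul_pos (Finset.prod_pos fun j _ => hS1 _ (hmem j).1) ?_)
        (Finset.prod_pos fun j _ => (even_two_mul p).pow_pos (hmem j).2)
      refine mul_self_pos.2 (DD99_ne _ fun i j hij => ?_)
      refine hS2 _ (hmem j).1 _ (hmem i).1 ?_
      intro heq
      exact hij (e.symm.injective (Subtype.ext heq)).symm
  rw [← key] at hsum
  exact (mul_pos_iff_of_pos_left hC).1 hsum

end GTR
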