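import Pool.Agent.GTR.HDefs

/-!
# GTR HTrig : derivatives of `sin^m (x - φ)` and of the curves `sc`, `cv`

`trig_coef`: recursion `d/dx (s^(m-q) c^q) = (m-q) s^(m-q-1) c^(q+1) - q s^(m-q+1) c^(q-1)`
(`s = sin (x - φ)`, `c = cos (x - φ)`, `q ≤ m`), so one can take
`co (b+1) q = (m - (q - 1)) * co b (q - 1) [q ≥ 1] - (q + 1) * co b (q + 1)`, `co 0 0 = 1`;
`co b b = m (m-1) ... (m-b+1) > 0` for `b ≤ m` and `co b q = 0` for `q > b`. (The coefficient `m - q`
of a real number vanishes for `q = m`, where `s^(m-q-1)` would be wrong.) Induct on `b` with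
`iteratedDeriv_succ`, the statement for all `x`.

`deriv_sc`: the iterated derivative of a finite sum of vectors times smooth functions; componentwise
(`iteratedDeriv` of a function into `Fin n → ℝ`: e.g. write `sc m φ A = ∑ j, (fun x => sin(x-φ j)^m •
A_j)` and use `iteratedDeriv_fun_sum`, `iteratedDeriv_smul_const`-like lemmas or
`ContinuousLinearMap.iteratedFDeriv_comp_left`; or induct on `b` with `HasDerivAt`).

`sc_cv`: binomial theorem: `sin (x - φ) = sin x cos φ - cos x sin φ`. `jet_mulVec`: by `deriv_sc` both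
sides are linear in `A`.
-/

set_option autoImplicit false

open Matrix

namespace GTR

/-- The coefficients. -/
private noncomputable def co (m : ℕ) (b : ℕ) : ℕ → ℝ :=
  Nat.rec (motive := fun _ => ℕ → ℝ) (fun q => if q = 0 then 1 else 0)
    (fun _ f q => (if q = 0 then 0 else ((m : ℝ) - ((q - 1 : ℕ) : ℝ)) * f (q - 1)) -
      ((q : ℝ) + 1) * f (q + 1)) b

private theorem co_zero (m q : ℕ) : co m 0 q = if q = 0 then 1 else 0 := rfl

private theorem co_succ (m b q : ℕ) : co m (b + 1) q =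
    (if q = 0 then 0 else ((m : ℝ) - ((q - 1 : ℕ) : ℝ)) * co m b (q - 1)) -
      ((q : ℝ) + 1) * co m b (q + 1) := rfl

private theorem co_gt (m : ℕ) : ∀ b q, b < q → co m b q = 0 := by
  intro b
  induction b with
  | zero =>
    intro q hq
    rw [co_zero, if_neg (by omega)]
  | succ b ih =>
    intro q hq
    rw [co_succ, if_neg (by omega), ih (q - 1) (by omega), ih (q + 1) (by omega), mul_zero,
      mul_zero, sub_zero]

private theorem co_pos (m : ℕ) : ∀ b, b ≤ m → 0 < co m b b := by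
  intro b
  induction b with
  | zero =>
    intro _
    rw [co_zero, if_pos rfl]
    exact one_pos
  | succ b ih =>
    intro hb
    rw [co_succ, if_neg (by omega), co_gt m b (b + 1 + 1) (by omega), mul_zero, sub_zero,
      Nat.add_sub_cancel]
    refine mul_pos ?_ (ih (by omega))
    have h : (b : ℝ) + 1 ≤ (m : ℝ) := by exact_mod_cast hb
    linarith

private theorem co_sum (m b : ℕ) (T : ℕ → ℝ) :
    ∑ q ∈ Finset.range (b + 1), co m b q * (((m : ℝ) - q) * T (q + 1) - q * T (q - 1)) =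
      ∑ q ∈ Finset.range (b + 1 + 1), co m (b + 1) q * T q := by
  have h1 : ∑ q ∈ Finset.range (b + 1 + 1), co m (b + 1) q * T q =
      (∑ q ∈ Finset.range (b + 1 + 1),
        (if q = 0 then 0 else ((m : ℝ) - ((q - 1 : ℕ) : ℝ)) * co m b (q - 1)) * T q) -
      ∑ q ∈ Finset.range (b + 1 + 1), (((q + 1 : ℕ) : ℝ) * co m b (q + 1)) * T (q + 1 - 1) := by
    rw [← Finset.sum_sub_distrib]
    refine Finset.sum_congr rfl fun q _ => ?_
    rw [co_succ, Nat.add_sub_cancel]
    push_cast
    ring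
  have h2 : ∑ q ∈ Finset.range (b + 1 + 1),
      (if q = 0 then 0 else ((m : ℝ) - ((q - 1 : ℕ) : ℝ)) * co m b (q - 1)) * T q =
      ∑ q ∈ Finset.range (b + 1), ((m : ℝ) - q) * co m b q * T (q + 1) := by
    rw [Finset.sum_range_succ', if_pos rfl, zero_mul, add_zero]
    refine Finset.sum_congr rfl fun q _ => ?_
    rw [if_neg (by omega), Nat.add_sub_cancel]
  have h3 : ∑ q ∈ Finset.range (b + 1 + 1), (((q + 1 : ℕ) : ℝ) * co m b (q + 1)) *
      T (q + 1 - 1) = ∑ q ∈ Finset.range (b + 1), ((q : ℝ) * co m b q) * T (q - 1) := by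
    have e1 := Finset.sum_range_succ' (fun q : ℕ => ((q : ℝ) * co m b q) * T (q - 1)) (b + 1 + 1)
    have e2 := Finset.sum_range_succ (fun q : ℕ => ((q : ℝ) * co m b q) * T (q - 1)) (b + 1 + 1)
    have e3 := Finset.sum_range_succ (fun q : ℕ => ((q : ℝ) * co m b q) * T (q - 1)) (b + 1)
    simp only [co_gt m b (b + 1) (by omega), co_gt m b (b + 1 + 1) (by omega), mul_zero,
      zero_mul, add_zero, Nat.cast_zero] at e1 e2 e3
    rw [← e1, e2, e3]
  rw [h1, h2, h3, ← Finset.sum_sub_distrib]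
  refine Finset.sum_congr rfl fun q _ => ?_
  ring

private theorem hasDeriv_T (m q : ℕ) (hq : q < m) (φ x : ℝ) :
    HasDerivAt (fun y => Real.sin (y - φ) ^ (m - q) * Real.cos (y - φ) ^ q)
      (((m : ℝ) - q) * (Real.sin (x - φ) ^ (m - (q + 1)) * Real.cos (x - φ) ^ (q + 1)) -
        q * (Real.sin (x - φ) ^ (m - (q - 1)) * Real.cos (x - φ) ^ (q - 1))) x := by
  have h0 : HasDerivAt (fun y : ℝ => y - φ) 1 x := (hasDerivAt_id x).sub_const φ
  have h1 := ((h0.sin).pow (m - q)).mul ((h0.cos).pow q)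
  refine h1.congr_deriv ?_
  have e1 : ((m - q : ℕ) : ℝ) = (m : ℝ) - q := Nat.cast_sub hq.le
  have e2 : m - (q + 1) = m - q - 1 := by omega
  rw [e1, e2, mul_one]
  rcases Nat.eq_zero_or_pos q with h | h
  · subst h
    simp
    ring
  · have e3 : m - (q - 1) = m - q + 1 := by omega
    rw [e3]
    simp only [Pi.pow_apply]
    ring

theorem trig_coef (m : ℕ) : ∃ co : ℕ → ℕ → ℝ, (∀ b q, b < q → co b q = 0) ∧
    (∀ b ≤ m, 0 < co b b) ∧ ∀ b ≤ m, ∀ φ x : ℝ,
      iteratedDeriv b (fun y => Real.sin (y - φ) ^ m) x =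
        ∑ q ∈ Finset.range (b + 1), co b q *
          (Real.sin (x - φ) ^ (m - q) * Real.cos (x - φ) ^ q) := by
  refine ⟨co m, co_gt m, co_pos m, fun b => ?_⟩
  induction b with
  | zero =>
    intro _ φ x
    rw [iteratedDeriv_zero, Finset.sum_range_one, co_zero, if_pos rfl, one_mul, Nat.sub_zero,
      pow_zero, mul_one]
  | succ b ih =>
    intro hb φ x
    have h1 : iteratedDeriv b (fun y => Real.sin (y - φ) ^ m) = fun x =>
        ∑ q ∈ Finset.range (b + 1), co m b q *
          (Real.sin (x - φ) ^ (m - q) * Real.cos (x - φ) ^ q) :=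
      funext fun x => ih (by omega) φ x
    rw [iteratedDeriv_succ, h1, ← co_sum m b
      (fun q => Real.sin (x - φ) ^ (m - q) * Real.cos (x - φ) ^ q)]
    have h2 : HasDerivAt (fun x => ∑ q ∈ Finset.range (b + 1), co m b q *
          (Real.sin (x - φ) ^ (m - q) * Real.cos (x - φ) ^ q))
        (∑ q ∈ Finset.range (b + 1), co m b q *
          (((m : ℝ) - q) * (Real.sin (x - φ) ^ (m - (q + 1)) * Real.cos (x - φ) ^ (q + 1)) -
        q * (Real.sin (x - φ) ^ (m - (q - 1)) * Real.cos (x - φ) ^ (q - 1)))) x := by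
      refine HasDerivAt.fun_sum fun q hq => ?_
      exact (hasDeriv_T m q (by have := Finset.mem_range.1 hq; omega) φ x).const_mul _
    exact h2.deriv

theorem deriv_sc {n : ℕ} {ι : Type*} [Fintype ι] (m b : ℕ) (φ : ι → ℝ) (A : Matrix (Fin n) ι ℝ)
    (x : ℝ) : iteratedDeriv b (sc m φ A) x =
      fun a => ∑ j, iteratedDeriv b (fun y => Real.sin (y - φ j) ^ m) x * A a j := by
  induction b generalizing x with
  | zero =>
    simp only [iteratedDeriv_zero]
    rfl
  | succ b ih =>
    have h1 : iteratedDeriv b (sc m φ A) = fun x => fun a =>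
        ∑ j, iteratedDeriv b (fun y => Real.sin (y - φ j) ^ m) x * A a j := funext fun x => ih x
    have hd : ∀ j, DifferentiableAt ℝ (iteratedDeriv b (fun y => Real.sin (y - φ j) ^ m)) x := by
      intro j
      have hc : ContDiff ℝ ⊤ (fun y => Real.sin (y - φ j) ^ m) :=
        (Real.contDiff_sin.comp (contDiff_id.sub contDiff_const)).pow m
      exact (hc.differentiable_iteratedDeriv b (WithTop.coe_lt_top _)).differentiableAt
    rw [iteratedDeriv_succ, h1]
    have h2 : HasDerivAt (fun x => fun a =>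
        ∑ j, iteratedDeriv b (fun y => Real.sin (y - φ j) ^ m) x * A a j)
        (fun a => ∑ j, iteratedDeriv (b + 1) (fun y => Real.sin (y - φ j) ^ m) x * A a j) x := by
      rw [hasDerivAt_pi]
      intro a
      refine HasDerivAt.fun_sum fun j _ => ?_
      rw [iteratedDeriv_succ]
      exact (hd j).hasDerivAt.mul_const _
    exact h2.deriv

/-- the coefficients of the form `sin^m (x - φ_j)`. -/
noncomputable def sS {ι : Type*} (m M : ℕ) (φ : ι → ℝ) : Matrix ι (Fin M) ℝ :=
  fun j q => (m.choose q : ℝ) * Real.cos (φ j) ^ (q : ℕ) * (-Real.sin (φ j)) ^ (m - (q : ℕ))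

/-- the curves `sc` are curves `cv` of degree `m`, with a matrix which depends linearly on `A`. -/
theorem sc_cv {n m M : ℕ} (hM : M = m + 1) {ι : Type*} [Fintype ι] (φ : ι → ℝ)
    (A : Matrix (Fin n) ι ℝ) (x : ℝ) : sc m φ A x = cv (A * sS m M φ) x := by
  subst hM
  unfold cv
  rw [← Matrix.mulVec_mulVec]
  funext a
  show ∑ j, Real.sin (x - φ j) ^ m * A a j = ∑ j, A a j * ((sS m (m + 1) φ).mulVec (bn (m + 1) x)) j
  refine Finset.sum_congr rfl fun j _ => ?_
  rw [mul_comm]
  congr 1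
  show Real.sin (x - φ j) ^ m = ∑ q : Fin (m + 1), sS m (m + 1) φ j q * bn (m + 1) x q
  have h1 : Real.sin (x - φ j) = Real.sin x * Real.cos (φ j) + Real.cos x * (-Real.sin (φ j)) := by
    rw [Real.sin_sub]
    ring
  rw [h1, add_pow, Finset.sum_range]
  refine Finset.sum_congr rfl fun q _ => ?_
  unfold sS bn
  rw [Nat.add_sub_cancel, mul_pow, mul_pow]
  ring

/-- the jets of `r γ`. -/
theorem jet_mulVec {n : ℕ} {ι : Type*} [Fintype ι] (m : ℕ) (φ : ι → ℝ) (A : Matrix (Fin n) ι ℝ)
    (r : Matrix (Fin n) (Fin n) ℝ) (x : ℝ) : jet (sc m φ (r * A)) x = r * jet (sc m φ A) x := by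
  ext a b
  unfold jet
  rw [deriv_sc, Matrix.mul_apply]
  simp only [deriv_sc, Matrix.mul_apply, Finset.mul_sum]
  rw [Finset.sum_comm]
  refine Finset.sum_congr rfl fun c _ => Finset.sum_congr rfl fun j _ => ?_
  ring

end GTR
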