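import Mathlib

/-!
# GTR HomFin : a cone meeting a hyperplane only in 0 has finitely many points at level 1

PROOF.  `A = MvPolynomial σ ℂ`.  The polynomials of `I` together with `ℓ` have the origin as their only
common zero (or no common zero; `0` is allowed).  Nullstellensatz
(`MvPolynomial.vanishingIdeal_zeroLocus_eq_radical` or the corresponding lemma of the installed
Mathlib): for every variable `X s` some power `X s ^ m_s` is in the ideal generated by `I ∪ {ℓ}`
(if there is no common zero at all, `1` is in it).  Hence every monomial of degree `≥ L = ∑ m_s` is in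
the ideal: `μ = ∑_f a_f f + b ℓ` (finite sum over `f ∈ I`).  Take the homogeneous component of degree
`deg μ = D`: since `f` and `ℓ` are homogeneous, `μ = ∑_f (a_f)_(D - deg f) f + b_(D-1) ℓ`.  On
`X1 = {p | f p = 0 for f ∈ I, ℓ p = 1}` we get `μ = b_(D-1)`, a homogeneous polynomial of degree
`D - 1`.  By induction every polynomial coincides on `X1` with a polynomial of total degree `< L`
(strong induction on the total degree; treat monomials).  The polynomials of total degree `< L` form
a finite dimensional space (dimension `d`), so the space of polynomial functions on `X1` has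
dimension at most `d`; if `X1` had more than `d` points `p_0, …, p_d`, there are polynomials with
`P_i (p_j) = δ_ij` (products of linear polynomials), which are linearly independent functions on
`X1`: contradiction.
(An element of `I` which is the zero polynomial is homogeneous of every degree; no problem.)
-/

set_option autoImplicit false

open MvPolynomial

namespace GTC

private theorem HomFin_ae {σ : Type*} (x : σ → ℂ) (f : MvPolynomial σ ℂ) :
    aeval x f = eval x f := DFunLike.congr_fun (coe_aeval_eq_eval x) f

private theorem HomFin_deg {σ : Type*} (f : MvPolynomial σ ℂ) (n : ℕ) (hf : f.IsHomogeneous n)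
    (d : σ →₀ ℕ) (hd : d ∈ f.support) : d.degree = n := by
  by_contra h
  exact mem_support_iff.1 hd (hf.coeff_eq_zero h)

attribute [local instance] MvPolynomial.gradedAlgebra in
private theorem HomFin_comp {σ : Type*} (I : Set (MvPolynomial σ ℂ))
    (hI : ∀ f ∈ I, ∃ d, f.IsHomogeneous d) (u : MvPolynomial σ ℂ) (hu : u ∈ Ideal.span I) (n : ℕ) :
    homogeneousComponent n u ∈ Ideal.span I := by
  refine homogeneousComponent_mem_of_mem ?_ hu n
  refine Ideal.homogeneous_span _ _ ?_
  intro f hf
  obtain ⟨d, hd⟩ := hI f hf
  exact ⟨d, hd⟩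

private theorem HomFin_mul {σ : Type*} (b ℓ : MvPolynomial σ ℂ) (hℓ : ℓ.IsHomogeneous 1) (n : ℕ) :
    homogeneousComponent (n + 1) (b * ℓ) = homogeneousComponent n b * ℓ := by
  have hb : b * ℓ = ∑ i ∈ Finset.range (b.totalDegree + 1), homogeneousComponent i b * ℓ := by
    rw [← Finset.sum_mul, sum_homogeneousComponent]
  rw [hb, map_sum]
  have hterm : ∀ i, homogeneousComponent (n + 1) (homogeneousComponent i b * ℓ) =
      if n + 1 = i + 1 then homogeneousComponent i b * ℓ else 0 := by
    intro i
    exact homogeneousComponent_of_mem ((homogeneousComponent_isHomogeneous i b).mul hℓ)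
  by_cases hn : n < b.totalDegree + 1
  · rw [Finset.sum_eq_single n]
    · rw [hterm, if_pos rfl]
    · intro i _ hi
      rw [hterm, if_neg (by omega)]
    · intro h
      exact absurd (Finset.mem_range.2 hn) h
  · rw [homogeneousComponent_eq_zero _ _ (by omega : b.totalDegree < n), zero_mul]
    apply Finset.sum_eq_zero
    intro i hi
    rw [Finset.mem_range] at hi
    rw [hterm, if_neg (by omega)]

theorem hom_finite {σ : Type*} [Fintype σ] (I : Set (MvPolynomial σ ℂ))
    (hI : ∀ f ∈ I, ∃ d, f.IsHomogeneous d) (ℓ : MvPolynomial σ ℂ) (hℓ : ℓ.IsHomogeneous 1)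
    (h : ∀ p : σ → ℂ, (∀ f ∈ I, eval p f = 0) → eval p ℓ = 0 → p = 0) :
    {p : σ → ℂ | (∀ f ∈ I, eval p f = 0) ∧ eval p ℓ = 1}.Finite := by
  classical
  set X1 : Set (σ → ℂ) := {p : σ → ℂ | (∀ f ∈ I, eval p f = 0) ∧ eval p ℓ = 1} with hX1
  have hrad : idealOfVars σ ℂ ≤ (Ideal.span (I ∪ {ℓ})).radical := by
    rw [← vanishingIdeal_zeroLocus_eq_radical (K := ℂ) (Ideal.span (I ∪ {ℓ}))]
    refine Ideal.span_le.2 ?_
    rintro _ ⟨s, rfl⟩
    rw [SetLike.mem_coe, mem_vanishingIdeal_iff]
    intro x hx
    rw [zeroLocus_span] at hx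
    have hx0 : x = 0 := by
      refine h x ?_ ?_
      · intro f hf
        have := hx f (Set.mem_union_left _ hf)
        rwa [HomFin_ae] at this
      · have := hx ℓ (Set.mem_union_right _ rfl)
        rwa [HomFin_ae] at this
    rw [hx0]
    simp
  obtain ⟨L, hL⟩ := Ideal.exists_pow_le_of_le_radical_of_fg hrad (idealOfVars_fg σ ℂ)
  let S : Set (σ →₀ ℕ) := {d | d.degree ≤ L}
  have hS : S.Finite := Finsupp.finite_of_degree_le L
  let V : Submodule ℂ (MvPolynomial σ ℂ) :=
    Submodule.span ℂ ((fun d => monomial d (1 : ℂ)) '' S)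
  have hVfin : Module.Finite ℂ V := by
    have : FiniteDimensional ℂ V := FiniteDimensional.span_of_finite ℂ (hS.image _)
    exact this
  have hVmem : ∀ f : MvPolynomial σ ℂ, (∀ d ∈ f.support, d.degree ≤ L) → f ∈ V := by
    intro f hf
    rw [f.as_sum]
    refine Submodule.sum_mem _ ?_
    intro d hd
    have e : monomial d (coeff d f) = (coeff d f) • monomial d (1 : ℂ) := by
      rw [smul_monomial, smul_eq_mul, mul_one]
    rw [e]
    exact Submodule.smul_mem _ _ (Submodule.subset_span ⟨d, hf d hd, rfl⟩)
  have claim : ∀ D : ℕ, ∀ f : MvPolynomial σ ℂ, f.IsHomogeneous D →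
      ∃ g ∈ V, ∀ p ∈ X1, eval p f = eval p g := by
    intro D
    induction D with
    | zero =>
      intro f hf
      refine ⟨f, hVmem f ?_, fun p _ => rfl⟩
      intro d hd
      have := HomFin_deg f _ hf d hd
      omega
    | succ D ih =>
      intro f hf
      by_cases hD : D + 1 ≤ L
      · refine ⟨f, hVmem f ?_, fun p _ => rfl⟩
        intro d hd
        have := HomFin_deg f _ hf d hd
        omega
      · have hmem : f ∈ Ideal.span (I ∪ {ℓ}) := by
          apply hL
          rw [mem_pow_idealOfVars_iff]
          intro d hd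
          have := HomFin_deg f _ hf d hd
          omega
        rw [Ideal.span_union, Submodule.mem_sup] at hmem
        obtain ⟨u, hu, v, hv, huv⟩ := hmem
        rw [Ideal.mem_span_singleton'] at hv
        obtain ⟨b, rfl⟩ := hv
        have hf2 : f = homogeneousComponent (D + 1) u + homogeneousComponent D b * ℓ := by
          rw [← HomFin_mul b ℓ hℓ D, ← map_add, huv]
          exact (homogeneousComponent_eq_self hf).symm
        have hu2 := HomFin_comp I hI u hu (D + 1)
        obtain ⟨g, hg, hg2⟩ := ih _ (homogeneousComponent_isHomogeneous D b)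
        refine ⟨g, hg, ?_⟩
        intro p hp
        rw [← hg2 p hp, hf2, map_add, map_mul]
        have h0 : eval p (homogeneousComponent (D + 1) u) = 0 := by
          have hle : Ideal.span I ≤ RingHom.ker (eval p) := by
            refine Ideal.span_le.2 ?_
            intro f hf
            exact hp.1 f hf
          exact hle hu2
        rw [h0, hp.2, mul_one, zero_add]
  have claim2 : ∀ f : MvPolynomial σ ℂ, ∃ g ∈ V, ∀ p ∈ X1, eval p f = eval p g := by
    intro f
    choose g hg hg2 using fun i : ℕ => claim i _ (homogeneousComponent_isHomogeneous i f)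
    refine ⟨∑ i ∈ Finset.range (f.totalDegree + 1), g i, Submodule.sum_mem _ fun i _ => hg i, ?_⟩
    intro p hp
    conv_lhs => rw [← sum_homogeneousComponent f]
    rw [map_sum, map_sum]
    exact Finset.sum_congr rfl fun i _ => hg2 i p hp
  -- evaluations as functionals on V
  let ev : (σ → ℂ) → (MvPolynomial σ ℂ →ₗ[ℂ] ℂ) := fun p => (aeval p : MvPolynomial σ ℂ →ₐ[ℂ] ℂ).toLinearMap
  have hev : ∀ p f, ev p f = eval p f := by
    intro p f
    simp only [ev, AlgHom.toLinearMap_apply]
    rw [HomFin_ae]
  let Φ : X1 → Module.Dual ℂ V := fun p => (ev p.1).comp V.subtype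
  have hΦ : LinearIndependent ℂ Φ := by
    have h1 := linearIndependent_monoidHom (MvPolynomial σ ℂ) ℂ
    have h2 : LinearIndependent ℂ (fun p : X1 => (fun f : MvPolynomial σ ℂ => eval p.1 f)) := by
      have h3 := h1.comp (fun p : X1 => ((eval p.1 : MvPolynomial σ ℂ →+* ℂ) : MvPolynomial σ ℂ →* ℂ)) (by
        intro p q hpq
        apply Subtype.ext
        funext s
        have := DFunLike.congr_fun hpq (X s)
        simpa using this)
      exact h3
    rw [linearIndependent_iff'] at h2 ⊢
    intro s c hc
    apply h2 s c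
    funext f
    obtain ⟨g, hg, hg2⟩ := claim2 f
    have h4 := LinearMap.congr_fun hc ⟨g, hg⟩
    simp only [Finset.sum_apply, Pi.smul_apply, smul_eq_mul, Pi.zero_apply]
    simp only [LinearMap.sum_apply, LinearMap.smul_apply, smul_eq_mul, LinearMap.zero_apply, Φ,
      LinearMap.comp_apply, Submodule.subtype_apply, hev] at h4
    rw [← h4]
    refine Finset.sum_congr rfl ?_
    intro p _
    rw [hg2 p.1 p.2]
  have hfin : Finite X1 := hΦ.finite
  exact Set.toFinite X1

end GTC
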