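import Pool.Agent.GTR.Frk

/-!
# GTR Jac : the Jacobian `JW`, `JJ`

NOTATION.  For `u, w` let `Φ_w` be the linear map `δ ↦ ((dlf (h i) u δ)_i, δ * w)` from
`Matrix (Fin k) (Fin (k+l)) R` to `(Fin (k*l) → R) × Matrix (Fin k) (Fin k) R`.  `JW h u w` is its
determinant in the standard bases (the bases on the left being numbered by `idx k l`).

PROOFS.
* `JW_change`: (over a field; `lf (h i) u = 0` for all `i`).  If `det (u * w) = 0` and
  `det (u * w') = 0` nothing is to be shown unless `k = 0` (then everything is trivial: `k l = 0`, both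
  determinants are of empty matrices).  By symmetry let `det (u * w) ≠ 0`.  For matrices `C` the
  vectors `X * u` satisfy `Φ_w (X * u) = (0, X * (u * w))` (`dlf_self`).  Let
  `K = {δ | δ * w = 0}`; since `det (u w) ≠ 0` the space of all `δ` is the direct sum of `K` and
  `{X * u}`, `δ = (δ - δ w (u w)⁻¹ u) + δ w (u w)⁻¹ u`.  Hence for every `δ`:
  `Φ_{w'} δ = Ψ (Φ_w δ) + (0, (δ - δ w (u w)⁻¹ u) w')` with `Ψ (a, b) = (a, b (u w)⁻¹ (u w'))`.
  In matrix form: `M_{w'} = L * M_w` does not hold in general, so argue by column operations: choose the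
  basis `(E_q)` replaced by a basis adapted to `K ⊕ {X u}`; then the matrix of `Φ_w` is block
  triangular `[A 0; * (u w)-block]`.  Concretely: let `B` be the square matrix of a basis
  `(κ_1, …, κ_{kl})` of `K` and `(E_ab * u)_(a,b)`.  Then
  `det M_w * det B = det (dlf (h i) u κ_j) * det (X ↦ X (u w)) = det (dlf (h i) u κ_j) * det (u w)^k`
  and `det M_{w'} * det B = det (dlf (h i) u κ_j) * det (u w')^k`, because the upper right block
  (`dlf (h i) u (E_ab u) = 0`) vanishes in both cases.  `det B ≠ 0`.  Now multiply crosswise.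
  (`Matrix.det_fromBlocks_zero₁₂`, `Matrix.det_kronecker` or `LinearMap.det` of right
  multiplication for `det (X ↦ X c) = det c ^ k`.)
* `JW_mul`: `Φ` for `g * u` and `w * gᵀ`... we only need it for `JJ`: the map for `(g u, (g u)ᵀ)`
  composed with `δ ↦ g δ` (determinant `det g ^ (k+l)`) is `δ ↦ (det g • dlf (h i) u δ, g (δ uᵀ) gᵀ)`
  (`dlf_mul`), of determinant `det g ^ (k l) * det g ^ (2 k) * JJ h u`.  So
  `JJ h (g u) * det g ^ (k + l) = det g ^ (k l + 2 k) * JJ h u`, and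
  `k l + 2 k = (k + l) + (k + (k - 1) l)` for `k ≥ 1`.
* `JW_comb`: left multiplication of the matrix by `fromBlocks A 0 0 1`.
* `JJ_perm`: special case of `JW_comb` (or `det_permute`).
* `JW_map`: determinants commute with ring homomorphisms.
* `JJ_continuous`: everything is polynomial.
* `JJ_T`: let `lf (h' i) v = lf (h i) (v * T)` for all `v` (as an identity of forms with the
  coefficients given in the statement).  Then `dlf (h' i) u δ = dlf (h i) (u T) (δ T)`, and
  `Φ'_{uᵀ} δ = ((dlf (h i) (u T) (δ T))_i, δ T * (T⁻¹ uᵀ)) = Φ_{T⁻¹ uᵀ} (δ T)`: so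
  `JJ h' u = det T ^ k * JW h (u T) (T⁻¹ * uᵀ)` (the map `δ ↦ δ T` has determinant `det T ^ k`), and
  `JW_change` for `w = (u T)ᵀ`, `w' = T⁻¹ uᵀ` gives
  `JJ h (u T) * det (u T T⁻¹ uᵀ)^k = JW h (u T) (T⁻¹ uᵀ) * det (u T (u T)ᵀ)^k`.
-/

set_option autoImplicit false

open Matrix

namespace GTC

section setup

variable {R : Type*} [CommRing R] {k l : ℕ}

private noncomputable def bD (R : Type*) [CommRing R] (k l : ℕ) :
    Module.Basis (Fin (k * l) ⊕ (Fin k × Fin k)) R (Matrix (Fin k) (Fin (k + l)) R) :=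
  (Matrix.stdBasis R (Fin k) (Fin (k + l))).reindex (idx k l).symm

private noncomputable def bC (R : Type*) [CommRing R] (k l : ℕ) :
    Module.Basis (Fin (k * l) ⊕ (Fin k × Fin k)) R ((Fin (k * l) → R) × Matrix (Fin k) (Fin k) R) :=
  (Pi.basisFun R (Fin (k * l))).prod (Matrix.stdBasis R (Fin k) (Fin k))

private lemma bD_apply (q : Fin (k * l) ⊕ (Fin k × Fin k)) : bD R k l q = eb R (idx k l q) := by
  unfold bD eb
  rw [Module.Basis.reindex_apply, Equiv.symm_symm]
  rw [← Matrix.stdBasis_eq_single]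

private lemma std_repr {m n : ℕ} (A : Matrix (Fin m) (Fin n) R) (p : Fin m × Fin n) :
    (Matrix.stdBasis R (Fin m) (Fin n)).repr A p = A p.1 p.2 := by
  obtain ⟨i, j⟩ := p
  simp [Matrix.stdBasis]

private noncomputable def Phi (h : Fin (k * l) → Cf R k (k + l))
    (u : Matrix (Fin k) (Fin (k + l)) R) (w : Matrix (Fin (k + l)) (Fin k) R) :
    Matrix (Fin k) (Fin (k + l)) R →ₗ[R] (Fin (k * l) → R) × Matrix (Fin k) (Fin k) R where
  toFun δ := (fun i => dlf (h i) u δ, δ * w)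
  map_add' δ δ' := by
    ext1
    · funext i
      exact dlf_add _ _ _ _
    · exact Matrix.add_mul _ _ _
  map_smul' r δ := by
    ext1
    · funext i
      exact dlf_smul _ _ _ _
    · exact Matrix.smul_mul _ _ _

private lemma JW_eq (h : Fin (k * l) → Cf R k (k + l))
    (u : Matrix (Fin k) (Fin (k + l)) R) (w : Matrix (Fin (k + l)) (Fin k) R) :
    JW h u w = (LinearMap.toMatrix (bD R k l) (bC R k l) (Phi h u w)).det := by
  unfold JW
  congr 1
  ext p q
  rw [LinearMap.toMatrix_apply, bD_apply]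
  rcases p with i | ab
  · rfl
  · unfold bC
    rw [Module.Basis.prod_repr_inr, std_repr]
    rfl

private lemma det_left {m n : ℕ} (g : Matrix (Fin m) (Fin m) R)
    (L : Matrix (Fin m) (Fin n) R →ₗ[R] Matrix (Fin m) (Fin n) R) (hL : ∀ X, L X = g * X) :
    LinearMap.det L = g.det ^ n := by
  rw [← LinearMap.det_toMatrix (Matrix.stdBasis R (Fin m) (Fin n))]
  have : LinearMap.toMatrix (Matrix.stdBasis R (Fin m) (Fin n)) (Matrix.stdBasis R (Fin m) (Fin n))
      L = Matrix.kroneckerMap (fun x y => x * y) g (1 : Matrix (Fin n) (Fin n) R) := by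
    ext ⟨i, j⟩ ⟨i', j'⟩
    rw [LinearMap.toMatrix_apply, Matrix.stdBasis_eq_single, hL, std_repr]
    simp only [Matrix.kroneckerMap_apply]
    rw [Matrix.mul_apply]
    by_cases hj : j = j'
    · subst hj
      rw [Finset.sum_eq_single i']
      · simp
      · intro b _ hb
        rw [Matrix.single_apply_of_row_ne (Ne.symm hb)]
        simp
      · simp
    · rw [Matrix.one_apply_ne hj, mul_zero]
      apply Finset.sum_eq_zero
      intro b _
      rw [Matrix.single_apply_of_col_ne _ _ (Ne.symm hj)]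
      simp
  rw [this]
  have h2 := Matrix.det_kronecker g (1 : Matrix (Fin n) (Fin n) R)
  rw [Matrix.det_one, one_pow, mul_one, Fintype.card_fin] at h2
  exact h2

private lemma det_right {m n : ℕ} (c : Matrix (Fin n) (Fin n) R)
    (L : Matrix (Fin m) (Fin n) R →ₗ[R] Matrix (Fin m) (Fin n) R) (hL : ∀ X, L X = X * c) :
    LinearMap.det L = c.det ^ m := by
  rw [← LinearMap.det_toMatrix (Matrix.stdBasis R (Fin m) (Fin n))]
  have : LinearMap.toMatrix (Matrix.stdBasis R (Fin m) (Fin n)) (Matrix.stdBasis R (Fin m) (Fin n))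
      L = Matrix.kroneckerMap (fun x y => x * y) (1 : Matrix (Fin m) (Fin m) R) cᵀ := by
    ext ⟨i, j⟩ ⟨i', j'⟩
    rw [LinearMap.toMatrix_apply, Matrix.stdBasis_eq_single, hL, std_repr]
    simp only [Matrix.kroneckerMap_apply, Matrix.transpose_apply]
    rw [Matrix.mul_apply]
    by_cases hi : i = i'
    · subst hi
      rw [Finset.sum_eq_single j']
      · simp
      · intro b _ hb
        rw [Matrix.single_apply_of_col_ne _ _ (Ne.symm hb)]
        simp
      · simp
    · rw [Matrix.one_apply_ne hi, zero_mul]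
      apply Finset.sum_eq_zero
      intro b _
      rw [Matrix.single_apply_of_row_ne (Ne.symm hi)]
      simp
  rw [this]
  have h2 := Matrix.det_kronecker (1 : Matrix (Fin m) (Fin m) R) cᵀ
  rw [Matrix.det_one, one_pow, one_mul, Fintype.card_fin, Matrix.det_transpose] at h2
  exact h2

private lemma rel_comp {E F : Type*} [AddCommGroup E] [Module R E] [AddCommGroup F] [Module R F]
    {ι : Type*} [Fintype ι] [DecidableEq ι] (b : Module.Basis ι R E) (c : Module.Basis ι R F)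
    (Φ Φ' : E →ₗ[R] F) (Θ : E →ₗ[R] E) (Ψ : F →ₗ[R] F)
    (h : Φ' ∘ₗ Θ = Ψ ∘ₗ Φ) :
    (LinearMap.toMatrix b c Φ').det * LinearMap.det Θ =
      LinearMap.det Ψ * (LinearMap.toMatrix b c Φ).det := by
  rw [← LinearMap.det_toMatrix b Θ, ← LinearMap.det_toMatrix c Ψ, ← Matrix.det_mul, ← Matrix.det_mul,
    ← LinearMap.toMatrix_comp b b c, ← LinearMap.toMatrix_comp b c c, h]

end setup

private lemma JW_zero_iff {K : Type*} [Field K] {k l : ℕ} (h : Fin (k * l) → Cf K k (k + l))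
    (u : Matrix (Fin k) (Fin (k + l)) K) (w : Matrix (Fin (k + l)) (Fin k) K) :
    JW h u w = 0 ↔ ∃ δ : Matrix (Fin k) (Fin (k + l)) K, δ ≠ 0 ∧ (∀ i, dlf (h i) u δ = 0) ∧
      δ * w = 0 := by
  rw [JW_eq, ← Matrix.exists_mulVec_eq_zero_iff]
  constructor
  · rintro ⟨v, hv, hv0⟩
    obtain ⟨δ, hδ⟩ : ∃ δ, δ = (bD K k l).equivFun.symm v := ⟨_, rfl⟩
    have h1 : (bD K k l).repr δ = Finsupp.equivFunOnFinite.symm v := by
      ext q
      rw [hδ]
      have := congrFun ((bD K k l).equivFun.apply_symm_apply v) q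
      rw [Module.Basis.equivFun_apply] at this
      rw [this]
      rfl
    have h2 : ⇑((bD K k l).repr δ) = v := by
      rw [h1]; rfl
    refine ⟨δ, ?_, ?_⟩
    · rintro rfl
      apply hv
      rw [← h2, map_zero]
      rfl
    · rw [← h2, LinearMap.toMatrix_mulVec_repr] at hv0
      have h3 : Phi h u w δ = 0 := by
        apply (bC K k l).repr.injective
        rw [map_zero]
        exact DFunLike.coe_injective hv0
      have h4 := congrArg Prod.fst h3
      have h5 := congrArg Prod.snd h3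
      exact ⟨fun i => congrFun h4 i, h5⟩
  · rintro ⟨δ, hδ, h1, h2⟩
    refine ⟨(bD K k l).repr δ, ?_, ?_⟩
    · intro h3
      apply hδ
      apply (bD K k l).repr.injective
      rw [map_zero]
      exact DFunLike.coe_injective h3
    · rw [LinearMap.toMatrix_mulVec_repr]
      have h3 : Phi h u w δ = 0 := by
        ext1
        · funext i
          exact h1 i
        · exact h2
      rw [h3, map_zero]
      rfl

/-- the case of invertible `u * w`, `u * w'` -/
private lemma JW_change_inv {K : Type*} [Field K] {k l : ℕ} (h : Fin (k * l) → Cf K k (k + l))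
    (u : Matrix (Fin k) (Fin (k + l)) K) (hu : ∀ i, lf (h i) u = 0)
    (w w' : Matrix (Fin (k + l)) (Fin k) K) (hw : (u * w).det ≠ 0) (hw' : (u * w').det ≠ 0) :
    JW h u w * (u * w').det ^ k = JW h u w' * (u * w).det ^ k := by
  obtain ⟨c, hc⟩ : ∃ c, c = u * w := ⟨_, rfl⟩
  obtain ⟨c', hc'⟩ : ∃ c', c' = u * w' := ⟨_, rfl⟩
  rw [← hc] at hw
  rw [← hc'] at hw'
  have ic : c * c⁻¹ = 1 := Matrix.mul_nonsing_inv c (isUnit_iff_ne_zero.2 hw)
  have ic' : c' * c'⁻¹ = 1 := Matrix.mul_nonsing_inv c' (isUnit_iff_ne_zero.2 hw')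
  have ic2 : c'⁻¹ * c' = 1 := Matrix.nonsing_inv_mul c' (isUnit_iff_ne_zero.2 hw')
  have ic3 : c⁻¹ * c = 1 := Matrix.nonsing_inv_mul c (isUnit_iff_ne_zero.2 hw)
  -- A δ = (δ - δ w c⁻¹ u) w' c'⁻¹
  let A : Matrix (Fin k) (Fin (k + l)) K →ₗ[K] Matrix (Fin k) (Fin k) K :=
    { toFun := fun δ => (δ - δ * w * c⁻¹ * u) * (w' * c'⁻¹)
      map_add' := by
        intro x y
        simp only [Matrix.add_mul, Matrix.sub_mul]
        abel
      map_smul' := by
        intro r x
        simp only [Matrix.smul_mul, Matrix.sub_mul, smul_sub, RingHom.id_apply] }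
  let B : Matrix (Fin k) (Fin k) K →ₗ[K] Matrix (Fin k) (Fin (k + l)) K :=
    { toFun := fun Y => Y * u
      map_add' := fun x y => Matrix.add_mul _ _ _
      map_smul' := fun r x => Matrix.smul_mul _ _ _ }
  have hA : ∀ δ, A δ = (δ - δ * w * c⁻¹ * u) * (w' * c'⁻¹) := fun _ => rfl
  have hB : ∀ Y, B Y = Y * u := fun _ => rfl
  have hAB : A ∘ₗ B = 0 := by
    ext1 Y
    rw [LinearMap.comp_apply, hB, hA, LinearMap.zero_apply]
    have e : Y * u * w * c⁻¹ * u = Y * u := by
      rw [Matrix.mul_assoc Y u w, ← hc, Matrix.mul_assoc Y c c⁻¹, ic, Matrix.mul_one]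
    rw [e, sub_self, Matrix.zero_mul]
  have hdetΘ : LinearMap.det (LinearMap.id - B ∘ₗ A) = 1 := by
    rw [← LinearMap.det_toMatrix (bD K k l), map_sub, LinearMap.toMatrix_id,
      LinearMap.toMatrix_comp (bD K k l) (Matrix.stdBasis K (Fin k) (Fin k)) (bD K k l),
      Matrix.det_one_sub_mul_comm, ← LinearMap.toMatrix_comp, hAB, map_zero, sub_zero,
      Matrix.det_one]
  let P : Matrix (Fin k) (Fin k) K →ₗ[K] Matrix (Fin k) (Fin k) K :=
    { toFun := fun Y => Y * (c⁻¹ * c')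
      map_add' := fun x y => Matrix.add_mul _ _ _
      map_smul' := fun r x => Matrix.smul_mul _ _ _ }
  have hdetP : LinearMap.det P = (c⁻¹ * c').det ^ k := det_right (c⁻¹ * c') P (fun _ => rfl)
  have hrel : (Phi h u w') ∘ₗ (LinearMap.id - B ∘ₗ A) =
      (LinearMap.prodMap LinearMap.id P) ∘ₗ (Phi h u w) := by
    ext1 δ
    rw [LinearMap.comp_apply, LinearMap.comp_apply, LinearMap.sub_apply, LinearMap.comp_apply,
      LinearMap.id_apply, map_sub, hB]
    have e1 : ∀ Y : Matrix (Fin k) (Fin k) K, Phi h u w' (Y * u) = (0, Y * c') := by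
      intro Y
      ext1
      · funext i
        show dlf (h i) u (Y * u) = 0
        rw [dlf_self, hu, mul_zero]
      · show Y * u * w' = Y * c'
        rw [Matrix.mul_assoc, hc']
    rw [e1, hA]
    ext1
    · funext i
      show dlf (h i) u δ - 0 = dlf (h i) u δ
      rw [sub_zero]
    · show δ * w' - (δ - δ * w * c⁻¹ * u) * (w' * c'⁻¹) * c' = δ * w * (c⁻¹ * c')
      rw [Matrix.mul_assoc (δ - δ * w * c⁻¹ * u), Matrix.mul_assoc w' c'⁻¹ c', ic2, Matrix.mul_one,
        Matrix.sub_mul, sub_sub_cancel, Matrix.mul_assoc (δ * w * c⁻¹) u w', ← hc',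
        Matrix.mul_assoc (δ * w)]
  have hfin := rel_comp (bD K k l) (bC K k l) (Phi h u w) (Phi h u w') _ _ hrel
  rw [hdetΘ, mul_one, LinearMap.det_prodMap, LinearMap.det_id, one_mul, hdetP, ← JW_eq, ← JW_eq] at hfin
  rw [hfin, ← hc, ← hc', Matrix.det_mul, mul_pow]
  have e2 : c⁻¹.det * c.det = 1 := by
    rw [← Matrix.det_mul, ic3, Matrix.det_one]
  have e3 : c⁻¹.det ^ k * c.det ^ k = 1 := by
    rw [← mul_pow, e2, one_pow]
  calc JW h u w * c'.det ^ k = JW h u w * c'.det ^ k * (c⁻¹.det ^ k * c.det ^ k) := by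
        rw [e3, mul_one]
    _ = _ := by ring

/-- one of the two is singular -/
private lemma JW_change_sing {K : Type*} [Field K] {k l : ℕ} (h : Fin (k * l) → Cf K k (k + l))
    (u : Matrix (Fin k) (Fin (k + l)) K) (hu : ∀ i, lf (h i) u = 0)
    (w w' : Matrix (Fin (k + l)) (Fin k) K) (hw : (u * w).det ≠ 0) (hw' : (u * w').det = 0) :
    JW h u w' = 0 ∧ k ≠ 0 := by
  refine ⟨?_, ?_⟩
  · rw [JW_zero_iff]
    obtain ⟨x, hx, hx0⟩ := Matrix.exists_vecMul_eq_zero_iff.2 hw'
    have hk : Nonempty (Fin k) := by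
      by_contra hne
      rw [not_nonempty_iff] at hne
      rw [Matrix.det_isEmpty] at hw'
      exact one_ne_zero hw'
    obtain ⟨a⟩ := hk
    obtain ⟨X, hX⟩ : ∃ X : Matrix (Fin k) (Fin k) K, X = Matrix.of (fun _ => x) := ⟨_, rfl⟩
    have hXm : ∀ {n : ℕ} (Y : Matrix (Fin k) (Fin n) K) (b : Fin k), (X * Y) b = x ᵥ* Y := by
      intro n Y b
      funext j
      rw [hX, Matrix.mul_apply, Matrix.vecMul, dotProduct]
      rfl
    refine ⟨X * u, ?_, ?_, ?_⟩
    · intro h0
      apply hx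
      have h1 : X * (u * w) = 0 := by
        rw [← Matrix.mul_assoc, h0, Matrix.zero_mul]
      have h2 : X = 0 := by
        have h3 : X * (u * w) * (u * w)⁻¹ = 0 := by rw [h1, Matrix.zero_mul]
        rw [Matrix.mul_assoc, Matrix.mul_nonsing_inv _ (isUnit_iff_ne_zero.2 hw),
          Matrix.mul_one] at h3
        exact h3
      have h4 := congrFun h2 a
      rw [hX] at h4
      exact h4
    · intro i
      rw [dlf_self, hu, mul_zero]
    · rw [Matrix.mul_assoc]
      funext b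
      rw [hXm, hx0]
      rfl
  · rintro rfl
    rw [Matrix.det_isEmpty] at hw'
    exact one_ne_zero hw'

theorem JW_change {K : Type*} [Field K] {k l : ℕ} (h : Fin (k * l) → Cf K k (k + l))
    (u : Matrix (Fin k) (Fin (k + l)) K) (hu : ∀ i, lf (h i) u = 0)
    (w w' : Matrix (Fin (k + l)) (Fin k) K) :
    JW h u w * (u * w').det ^ k = JW h u w' * (u * w).det ^ k := by
  by_cases h1 : (u * w).det = 0
  · by_cases h2 : (u * w').det = 0
    · rcases Nat.eq_zero_or_pos k with hk | hk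
      · subst hk
        rw [Matrix.det_isEmpty] at h1
        exact absurd h1 one_ne_zero
      · rw [h1, h2, zero_pow (by omega), mul_zero, mul_zero]
    · obtain ⟨h3, h4⟩ := JW_change_sing h u hu w' w h2 h1
      rw [h3, h1, zero_pow h4, zero_mul, mul_zero]
  · by_cases h2 : (u * w').det = 0
    · obtain ⟨h3, h4⟩ := JW_change_sing h u hu w w' h1 h2
      rw [h3, h2, zero_pow h4, zero_mul, mul_zero]
    · exact JW_change_inv h u hu w w' h1 h2

theorem JJ_mul {k l : ℕ} (hk : 1 ≤ k) (h : Fin (k * l) → Cf ℝ k (k + l))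
    (u : Matrix (Fin k) (Fin (k + l)) ℝ) (g : Matrix (Fin k) (Fin k) ℝ) (hg : g.det ≠ 0) :
    JJ h (g * u) = g.det ^ (k + (k - 1) * l) * JJ h u := by
  let Θ : Matrix (Fin k) (Fin (k + l)) ℝ →ₗ[ℝ] Matrix (Fin k) (Fin (k + l)) ℝ :=
    { toFun := fun X => g * X
      map_add' := fun x y => Matrix.mul_add _ _ _
      map_smul' := fun r x => Matrix.mul_smul _ _ _ }
  let P : Matrix (Fin k) (Fin k) ℝ →ₗ[ℝ] Matrix (Fin k) (Fin k) ℝ :=
    { toFun := fun X => g * X
      map_add' := fun x y => Matrix.mul_add _ _ _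
      map_smul' := fun r x => Matrix.mul_smul _ _ _ }
  let Q : Matrix (Fin k) (Fin k) ℝ →ₗ[ℝ] Matrix (Fin k) (Fin k) ℝ :=
    { toFun := fun X => X * gᵀ
      map_add' := fun x y => Matrix.add_mul _ _ _
      map_smul' := fun r x => Matrix.smul_mul _ _ _ }
  have dΘ : LinearMap.det Θ = g.det ^ (k + l) := det_left g Θ (fun _ => rfl)
  have dP : LinearMap.det P = g.det ^ k := det_left g P (fun _ => rfl)
  have dQ : LinearMap.det Q = g.det ^ k := by
    rw [det_right gᵀ Q (fun _ => rfl), Matrix.det_transpose]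
  have hrel : (Phi h (g * u) (g * u)ᵀ) ∘ₗ Θ =
      (LinearMap.prodMap (g.det • (LinearMap.id : (Fin (k * l) → ℝ) →ₗ[ℝ] (Fin (k * l) → ℝ)))
        (P ∘ₗ Q)) ∘ₗ (Phi h u uᵀ) := by
    ext1 δ
    rw [LinearMap.comp_apply, LinearMap.comp_apply]
    ext1
    · funext i
      show dlf (h i) (g * u) (g * δ) = g.det * dlf (h i) u δ
      exact dlf_mul _ _ _ _
    · show g * δ * (g * u)ᵀ = g * (δ * uᵀ * gᵀ)
      rw [Matrix.transpose_mul, Matrix.mul_assoc, Matrix.mul_assoc]
  have hfin := rel_comp (bD ℝ k l) (bC ℝ k l) _ _ _ _ hrel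
  rw [dΘ, LinearMap.det_prodMap, LinearMap.det_smul, LinearMap.det_id, mul_one,
    LinearMap.det_comp, dP, dQ, ← JW_eq, ← JW_eq, Module.finrank_fin_fun] at hfin
  unfold JJ
  have e : g.det ^ (k * l) * (g.det ^ k * g.det ^ k) =
      g.det ^ (k + (k - 1) * l) * g.det ^ (k + l) := by
    rw [← pow_add, ← pow_add, ← pow_add]
    congr 1
    obtain ⟨m, rfl⟩ : ∃ m, k = m + 1 := ⟨k - 1, by omega⟩
    rw [Nat.add_sub_cancel]
    ring
  rw [e] at hfin
  have hne : g.det ^ (k + l) ≠ 0 := pow_ne_zero _ hg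
  apply mul_right_cancel₀ hne
  rw [hfin]
  ring

theorem JW_comb {R : Type*} [CommRing R] {k l : ℕ} (h : Fin (k * l) → Cf R k (k + l))
    (A : Matrix (Fin (k * l)) (Fin (k * l)) R)
    (u : Matrix (Fin k) (Fin (k + l)) R) (w : Matrix (Fin (k + l)) (Fin k) R) :
    JW (fun i t => ∑ j, A i j * h j t) u w = A.det * JW h u w := by
  let P : (Fin (k * l) → R) →ₗ[R] (Fin (k * l) → R) := Matrix.toLin' A
  have dP : LinearMap.det P = A.det := LinearMap.det_toLin' A
  have hrel : (Phi (fun i t => ∑ j, A i j * h j t) u w) ∘ₗ LinearMap.id =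
      (LinearMap.prodMap P LinearMap.id) ∘ₗ (Phi h u w) := by
    ext1 δ
    rw [LinearMap.comp_apply, LinearMap.comp_apply]
    ext1
    · funext i
      show dlf (fun t => ∑ j, A i j * h j t) u δ = (Matrix.toLin' A (fun j => dlf (h j) u δ)) i
      rw [Matrix.toLin'_apply, Matrix.mulVec, dotProduct]
      exact dlf_comb Finset.univ (A i) h u δ
    · rfl
  have hfin := rel_comp (bD R k l) (bC R k l) _ _ _ _ hrel
  rw [LinearMap.det_id, mul_one, LinearMap.det_prodMap, LinearMap.det_id, mul_one, dP, ← JW_eq,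
    ← JW_eq] at hfin
  exact hfin

theorem JJ_perm {k l : ℕ} (h : Fin (k * l) → Cf ℝ k (k + l)) (σ : Equiv.Perm (Fin (k * l)))
    (u : Matrix (Fin k) (Fin (k + l)) ℝ) :
    JJ (fun i => h (σ i)) u = ((Equiv.Perm.sign σ : ℤ) : ℝ) * JJ h u := by
  unfold JJ JW
  rw [← mul_one ((Equiv.Perm.sign σ : ℤ)), ← Units.val_one (α := ℤ),
    ← Equiv.Perm.sign_refl (α := Fin k × Fin k), ← Units.val_mul, ← Equiv.Perm.sign_sumCongr,
    ← Matrix.det_permute]
  congr 1
  ext p q
  rcases p with i | ab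
  · rfl
  · rfl

theorem JW_map {R S : Type*} [CommRing R] [CommRing S] (f : R →+* S) {k l : ℕ}
    (h : Fin (k * l) → Cf R k (k + l))
    (u : Matrix (Fin k) (Fin (k + l)) R) (w : Matrix (Fin (k + l)) (Fin k) R) :
    f (JW h u w) = JW (fun i t => f (h i t)) (u.map f) (w.map f) := by
  have heb : ∀ q : Fin k × Fin (k + l), (eb R q).map f = eb S q := by
    intro q
    unfold eb
    rw [Matrix.map_single, map_one]
  unfold JW
  rw [RingHom.map_det]
  congr 1
  ext p q
  rcases p with i | ab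
  · show f (dlf (h i) u (eb R (idx k l q))) = _
    rw [dlf_map, heb]
    rfl
  · show f ((eb R (idx k l q) * w) ab.1 ab.2) = ((eb S (idx k l q)) * w.map f) ab.1 ab.2
    rw [← heb, ← Matrix.map_mul]
    rfl

theorem JJ_continuous (k l : ℕ) :
    Continuous fun p : (Fin (k * l) → Cf ℝ k (k + l)) × Matrix (Fin k) (Fin (k + l)) ℝ =>
      JJ p.1 p.2 := by
  unfold JJ JW
  apply Continuous.matrix_det
  refine continuous_pi fun p => continuous_pi fun q => ?_
  rcases p with i | ab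
  · show Continuous fun p : (Fin (k * l) → Cf ℝ k (k + l)) × Matrix (Fin k) (Fin (k + l)) ℝ =>
      dlf (p.1 i) p.2 (eb ℝ (idx k l q))
    unfold dlf
    refine continuous_finsetSum _ fun a _ => ?_
    have h1 : Continuous fun p : (Fin (k * l) → Cf ℝ k (k + l)) × Matrix (Fin k) (Fin (k + l)) ℝ =>
        (p.1 i, p.2.updateRow a (eb ℝ (idx k l q) a)) := by
      apply Continuous.prodMk
      · exact (continuous_apply i).comp continuous_fst
      · exact continuous_snd.matrix_updateRow a continuous_const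
    exact (lf_continuous_real k (k + l)).comp h1
  · show Continuous fun p : (Fin (k * l) → Cf ℝ k (k + l)) × Matrix (Fin k) (Fin (k + l)) ℝ =>
      (eb ℝ (idx k l q) * p.2ᵀ) ab.1 ab.2
    have h1 : Continuous fun p : (Fin (k * l) → Cf ℝ k (k + l)) ×
        Matrix (Fin k) (Fin (k + l)) ℝ => eb ℝ (idx k l q) * p.2ᵀ :=
      continuous_const.matrix_mul continuous_snd.matrix_transpose
    exact h1.matrix_elem ab.1 ab.2

/-- `JJ h u ≠ 0` iff the only tangent vectors killed by all `dlf` are the trivial ones. -/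
theorem JJ_ne_iff {k l : ℕ} (h : Fin (k * l) → Cf ℝ k (k + l))
    (u : Matrix (Fin k) (Fin (k + l)) ℝ) (hu : IsSol h u) :
    JJ h u ≠ 0 ↔ ∀ δ : Matrix (Fin k) (Fin (k + l)) ℝ, (∀ i, dlf (h i) u δ = 0) →
      ∃ X : Matrix (Fin k) (Fin k) ℝ, δ = X * u := by
  have hc : (u * uᵀ).det ≠ 0 := (det_uut_pos u hu.1).ne'
  have hc1 := Matrix.nonsing_inv_mul _ (isUnit_iff_ne_zero.2 hc)
  have hc2 := Matrix.mul_nonsing_inv _ (isUnit_iff_ne_zero.2 hc)
  unfold JJ
  rw [Ne, JW_zero_iff]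
  push Not
  constructor
  · intro H δ hδ
    refine ⟨δ * uᵀ * (u * uᵀ)⁻¹, ?_⟩
    obtain ⟨ε, hε⟩ : ∃ ε, ε = δ - δ * uᵀ * (u * uᵀ)⁻¹ * u := ⟨_, rfl⟩
    by_contra hne
    have hε0 : ε ≠ 0 := by
      rw [hε]
      intro h0
      exact hne (sub_eq_zero.1 h0)
    apply H ε hε0
    · intro i
      have h1 : δ = ε + δ * uᵀ * (u * uᵀ)⁻¹ * u := by rw [hε]; abel
      have h2 := hδ i
      rw [h1, dlf_add, dlf_self, hu.2 i, mul_zero, add_zero] at h2
      exact h2
    · rw [hε, Matrix.sub_mul, Matrix.mul_assoc (δ * uᵀ * (u * uᵀ)⁻¹), Matrix.mul_assoc (δ * uᵀ),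
        hc1, Matrix.mul_one, sub_self]
  · intro H δ hδ h1 h2
    obtain ⟨X, rfl⟩ := H δ h1
    apply hδ
    rw [Matrix.mul_assoc] at h2
    have h3 : X * (u * uᵀ) * (u * uᵀ)⁻¹ = 0 := by rw [h2, Matrix.zero_mul]
    rw [Matrix.mul_assoc X, hc2, Matrix.mul_one] at h3
    rw [h3, Matrix.zero_mul]

theorem lf_T {R : Type*} [CommRing R] {k n : ℕ} (c : Cf R k n)
    (T : Matrix (Fin n) (Fin n) R) (u : Matrix (Fin k) (Fin n) R) :
    lf (fun t => ∑ t' : Fin k → Fin n, c t' * ∏ a, T (t a) (t' a)) u = lf c (u * T) := by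
  rw [lf_comb Finset.univ c (fun t' t => ∏ a, T (t a) (t' a)) u]
  unfold lf
  apply Finset.sum_congr rfl
  intro t' _
  congr 1
  have h1 := lf_prod (T.submatrix id t') u
  unfold lf at h1
  rw [show (u * T).submatrix id t' = u * T.submatrix id t' from rfl, ← h1]
  rfl

private lemma dlf_T {R : Type*} [CommRing R] {k n : ℕ} (c : Cf R k n)
    (T : Matrix (Fin n) (Fin n) R) (u δ : Matrix (Fin k) (Fin n) R) :
    dlf (fun t => ∑ t' : Fin k → Fin n, c t' * ∏ a, T (t a) (t' a)) u δ =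
      dlf c (u * T) (δ * T) := by
  unfold dlf
  apply Finset.sum_congr rfl
  intro a _
  rw [lf_T]
  congr 1
  ext b j
  by_cases hb : b = a
  · subst hb
    rw [Matrix.mul_apply]
    simp only [Matrix.updateRow_self]
    rfl
  · rw [Matrix.mul_apply]
    simp only [Matrix.updateRow_ne hb]
    rfl

theorem JJ_T {k l : ℕ} (h : Fin (k * l) → Cf ℝ k (k + l))
    (T : Matrix (Fin (k + l)) (Fin (k + l)) ℝ) (hT : T.det ≠ 0)
    (u : Matrix (Fin k) (Fin (k + l)) ℝ) (hu : ∀ i, lf (h i) (u * T) = 0) :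
    JJ (fun i t => ∑ t' : Fin k → Fin (k + l), h i t' * ∏ a, T (t a) (t' a)) u
        * (u * T * (u * T)ᵀ).det ^ k
      = T.det ^ k * (u * uᵀ).det ^ k * JJ h (u * T) := by
  have hT1 := Matrix.mul_nonsing_inv _ (isUnit_iff_ne_zero.2 hT)
  let Θ : Matrix (Fin k) (Fin (k + l)) ℝ →ₗ[ℝ] Matrix (Fin k) (Fin (k + l)) ℝ :=
    { toFun := fun X => X * T
      map_add' := fun x y => Matrix.add_mul _ _ _
      map_smul' := fun r x => Matrix.smul_mul _ _ _ }
  have dΘ : LinearMap.det Θ = T.det ^ k := det_right T Θ (fun _ => rfl)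
  have hrel : (Phi h (u * T) (T⁻¹ * uᵀ)) ∘ₗ Θ =
      LinearMap.id ∘ₗ (Phi (fun i t => ∑ t' : Fin k → Fin (k + l), h i t' * ∏ a, T (t a) (t' a))
        u uᵀ) := by
    ext1 δ
    rw [LinearMap.comp_apply, LinearMap.comp_apply]
    ext1
    · funext i
      show dlf (h i) (u * T) (δ * T) = dlf _ u δ
      exact (dlf_T (h i) T u δ).symm
    · show δ * T * (T⁻¹ * uᵀ) = δ * uᵀ
      rw [Matrix.mul_assoc, ← Matrix.mul_assoc T, hT1, Matrix.one_mul]
  have hfin := rel_comp (bD ℝ k l) (bC ℝ k l) _ _ _ _ hrel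
  rw [dΘ, LinearMap.det_id, one_mul, ← JW_eq, ← JW_eq] at hfin
  have hch := JW_change h (u * T) hu (u * T)ᵀ (T⁻¹ * uᵀ)
  have e : u * T * (T⁻¹ * uᵀ) = u * uᵀ := by
    rw [Matrix.mul_assoc, ← Matrix.mul_assoc T, hT1, Matrix.one_mul]
  rw [e] at hch
  unfold JJ
  rw [← hfin]
  calc JW h (u * T) (T⁻¹ * uᵀ) * T.det ^ k * (u * T * (u * T)ᵀ).det ^ k
      = T.det ^ k * (JW h (u * T) (T⁻¹ * uᵀ) * (u * T * (u * T)ᵀ).det ^ k) := by ring
    _ = _ := by rw [← hch]; ring

end GTC
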