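import Pool.Agent.GTR.Defs

/-!
# GTR Lin : algebra of linear forms

PROOFS (all are multilinear algebra, `R` a commutative ring).
* `lf_map`: `det` commutes with ring homomorphisms (`RingHom.map_det`), `map_sum`.
* `lf_mul`: `(g * u).submatrix id t = g * u.submatrix id t`, `det_mul`.
* `lf_prod`: expand `det (u * P)` by multilinearity in the columns (for instance
  `Matrix.det_mul'`-like expansions: column `a` of `u * P` is `∑ j, P j a • (column j of u)`, use
  `MultilinearMap.map_sum` for `Matrix.detRowAlternating` of the transposes): the coefficient of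
  `t : Fin k → Fin n` is `∏ a, P (t a) a`.
* `dlf_add, dlf_smul`: `det_updateRow_add/smul`; note
  `(u.updateRow a v).submatrix id t = (u.submatrix id t).updateRow a (v ∘ t)`.
* `dlf_self`: row `a` of `X * u` is `∑ b, X a b • u b`; `lf c (u.updateRow a (u b)) = 0` for `b ≠ a`
  (two equal rows) and `= lf c u` for `b = a`.
* `dlf_mul`: `δ ↦ dlf c (g * u) (g * δ)` and `δ ↦ det g * dlf c u δ`.  Easiest: dual numbers or the
  polynomial identity: in `R[s]`, `lf c (g * u + s g δ) = det g * lf c (u + s δ)`, and the coefficient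
  of `s` in `lf c (u + s δ)` is `dlf c u δ` (`dlf_coeff` below; expand the determinant along rows
  `u a + s δ a`: multilinear expansion `MultilinearMap.map_add_univ`-style, the terms with exactly one
  `δ`-row).
* `dlf_coeff`: the coefficient statement just described.
* `lf_comb`: linearity in the coefficients.
-/

set_option autoImplicit false

open Matrix

namespace GTC

variable {R : Type*} [CommRing R] {k n : ℕ}

theorem lf_map {S : Type*} [CommRing S] (f : R →+* S) (c : Cf R k n)
    (u : Matrix (Fin k) (Fin n) R) :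
    f (lf c u) = lf (fun t => f (c t)) (u.map f) := by
  unfold lf
  rw [map_sum]
  refine Finset.sum_congr rfl fun t _ => ?_
  rw [map_mul, RingHom.map_det]
  rfl

theorem dlf_map {S : Type*} [CommRing S] (f : R →+* S) (c : Cf R k n)
    (u δ : Matrix (Fin k) (Fin n) R) :
    f (dlf c u δ) = dlf (fun t => f (c t)) (u.map f) (δ.map f) := by
  unfold dlf
  rw [map_sum]
  refine Finset.sum_congr rfl fun a _ => ?_
  rw [lf_map, Matrix.map_updateRow]
  rfl

theorem lf_mul (c : Cf R k n) (g : Matrix (Fin k) (Fin k) R) (u : Matrix (Fin k) (Fin n) R) :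
    lf c (g * u) = g.det * lf c u := by
  unfold lf
  rw [Finset.mul_sum]
  refine Finset.sum_congr rfl fun t _ => ?_
  have h : (g * u).submatrix id t = g * u.submatrix id t := rfl
  rw [h, Matrix.det_mul]
  ring

theorem lf_prod (P : Matrix (Fin n) (Fin k) R) (u : Matrix (Fin k) (Fin n) R) :
    lf (fun t => ∏ a, P (t a) a) u = (u * P).det := by
  have h1 : (u * P)ᵀ = fun a => ∑ j : Fin n, P j a • fun i => u i j := by
    funext a i
    rw [Matrix.transpose_apply, Matrix.mul_apply, Finset.sum_apply]
    refine Finset.sum_congr rfl fun j _ => ?_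
    rw [Pi.smul_apply, smul_eq_mul, mul_comm]
  have h2 := (Matrix.detRowAlternating (n := Fin k) (R := R)).toMultilinearMap.map_sum
    (fun (a : Fin k) (j : Fin n) => P j a • fun i => u i j)
  rw [← Matrix.det_transpose, h1]
  refine Eq.trans ?_ h2.symm
  unfold lf
  refine Finset.sum_congr rfl fun t _ => ?_
  have h3 := (Matrix.detRowAlternating (n := Fin k) (R := R)).toMultilinearMap.map_smul_univ
    (fun a => P (t a) a) (fun a i => u i (t a))
  refine Eq.trans ?_ h3.symm
  rw [smul_eq_mul, ← Matrix.det_transpose]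
  rfl

theorem lf_comb {ι : Type*} (s : Finset ι) (r : ι → R) (c : ι → Cf R k n)
    (u : Matrix (Fin k) (Fin n) R) :
    lf (fun t => ∑ i ∈ s, r i * c i t) u = ∑ i ∈ s, r i * lf (c i) u := by
  unfold lf
  simp only [Finset.sum_mul, Finset.mul_sum]
  rw [Finset.sum_comm]
  refine Finset.sum_congr rfl fun i _ => Finset.sum_congr rfl fun t _ => ?_
  rw [mul_assoc]

theorem dlf_comb {ι : Type*} (s : Finset ι) (r : ι → R) (c : ι → Cf R k n)
    (u δ : Matrix (Fin k) (Fin n) R) :
    dlf (fun t => ∑ i ∈ s, r i * c i t) u δ = ∑ i ∈ s, r i * dlf (c i) u δ := by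
  unfold dlf
  simp only [lf_comb, Finset.mul_sum]
  rw [Finset.sum_comm]

private theorem upd_sub (u : Matrix (Fin k) (Fin n) R) (a : Fin k) (v : Fin n → R)
    (t : Fin k → Fin n) :
    (u.updateRow a v).submatrix id t = (u.submatrix id t).updateRow a (fun j => v (t j)) := by
  ext i j
  by_cases h : i = a
  · subst h
    simp
  · simp [h]

private theorem lf_upd_add (c : Cf R k n) (u : Matrix (Fin k) (Fin n) R) (a : Fin k)
    (v w : Fin n → R) :
    lf c (u.updateRow a (v + w)) = lf c (u.updateRow a v) + lf c (u.updateRow a w) := by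
  unfold lf
  rw [← Finset.sum_add_distrib]
  refine Finset.sum_congr rfl fun t _ => ?_
  rw [upd_sub, upd_sub, upd_sub, ← mul_add, ← Matrix.det_updateRow_add]
  rfl

private theorem lf_upd_smul (c : Cf R k n) (u : Matrix (Fin k) (Fin n) R) (a : Fin k)
    (r : R) (v : Fin n → R) :
    lf c (u.updateRow a (r • v)) = r * lf c (u.updateRow a v) := by
  unfold lf
  rw [Finset.mul_sum]
  refine Finset.sum_congr rfl fun t _ => ?_
  have h := Matrix.det_updateRow_smul (u.submatrix id t) a r (fun j => v (t j))
  have e : (fun j => (r • v) (t j)) = r • (fun j => v (t j)) := rfl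
  rw [upd_sub, upd_sub, e, h]
  ring

private theorem lf_upd_sum (c : Cf R k n) (u : Matrix (Fin k) (Fin n) R) (a : Fin k)
    {ι : Type*} (s : Finset ι) (r : ι → R) (v : ι → Fin n → R) :
    lf c (u.updateRow a (∑ i ∈ s, r i • v i)) = ∑ i ∈ s, r i * lf c (u.updateRow a (v i)) := by
  classical
  induction s using Finset.induction_on with
  | empty =>
    rw [Finset.sum_empty, Finset.sum_empty]
    have h := lf_upd_smul c u a 0 0
    rwa [zero_smul, zero_mul] at h
  | insert i s hi ih =>
    rw [Finset.sum_insert hi, Finset.sum_insert hi, lf_upd_add, lf_upd_smul, ih]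

private theorem lf_upd_ne (c : Cf R k n) (u : Matrix (Fin k) (Fin n) R) {a b : Fin k}
    (h : b ≠ a) : lf c (u.updateRow a (u b)) = 0 := by
  unfold lf
  refine Finset.sum_eq_zero fun t _ => ?_
  rw [upd_sub, Matrix.det_zero_of_row_eq h, mul_zero]
  funext j
  rw [Matrix.updateRow_self, Matrix.updateRow_ne h]
  rfl

theorem dlf_add (c : Cf R k n) (u δ δ' : Matrix (Fin k) (Fin n) R) :
    dlf c u (δ + δ') = dlf c u δ + dlf c u δ' := by
  unfold dlf
  rw [← Finset.sum_add_distrib]
  exact Finset.sum_congr rfl fun a _ => lf_upd_add c u a (δ a) (δ' a)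

theorem dlf_smul (c : Cf R k n) (u δ : Matrix (Fin k) (Fin n) R) (r : R) :
    dlf c u (r • δ) = r * dlf c u δ := by
  unfold dlf
  rw [Finset.mul_sum]
  exact Finset.sum_congr rfl fun a _ => lf_upd_smul c u a r (δ a)

theorem dlf_self (c : Cf R k n) (u : Matrix (Fin k) (Fin n) R) (X : Matrix (Fin k) (Fin k) R) :
    dlf c u (X * u) = X.trace * lf c u := by
  unfold dlf
  rw [Matrix.trace, Finset.sum_mul]
  refine Finset.sum_congr rfl fun a _ => ?_
  have h1 : (X * u) a = ∑ b : Fin k, X a b • u b := by
    funext j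
    rw [Matrix.mul_apply, Finset.sum_apply]
    rfl
  rw [h1]
  refine (lf_upd_sum c u a Finset.univ (fun b => X a b) (fun b => u b)).trans ?_
  rw [Finset.sum_eq_single a]
  · rw [Matrix.updateRow_eq_self]
    rfl
  · intro b _ hb
    rw [lf_upd_ne c u hb, mul_zero]
  · intro h
    exact absurd (Finset.mem_univ a) h

private theorem det_coeff (A B : Matrix (Fin k) (Fin k) R) :
    (A.map Polynomial.C + (Polynomial.X : Polynomial R) • B.map Polynomial.C).det.coeff 1 =
      ∑ a : Fin k, (A.updateRow a (B a)).det := by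
  classical
  obtain ⟨A', hA⟩ : ∃ A' : Fin k → Fin k → Polynomial R,
    A' = fun a i => Polynomial.C (A a i) := ⟨_, rfl⟩
  obtain ⟨B', hB⟩ : ∃ B' : Fin k → Fin k → Polynomial R,
    B' = fun a i => Polynomial.C (B a i) := ⟨_, rfl⟩
  have h1 : (A.map Polynomial.C + (Polynomial.X : Polynomial R) • B.map Polynomial.C).det =
      ∑ s : Finset (Fin k), (Polynomial.X : Polynomial R) ^ s.card *
        Polynomial.C (Matrix.det (Matrix.of fun a i => if a ∈ s then B a i else A a i)) := by
    have h2 := (Matrix.detRowAlternating (n := Fin k) (R := Polynomial R)).toMultilinearMap.map_add_univ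
      (fun a => (Polynomial.X : Polynomial R) • B' a) A'
    have h3 : (A.map Polynomial.C + (Polynomial.X : Polynomial R) • B.map Polynomial.C) =
      Matrix.of (fun a i => (Polynomial.X : Polynomial R) * B' a i + A' a i) := by
      rw [add_comm, hA, hB]
      rfl
    rw [h3]
    refine Eq.trans h2 (Finset.sum_congr rfl fun s _ => ?_)
    have h4 := (Matrix.detRowAlternating (n := Fin k) (R := Polynomial R)).toMultilinearMap.map_piecewise_smul
      (fun _ => (Polynomial.X : Polynomial R)) (s.piecewise B' A') s
    have h5 : s.piecewise (fun a => (Polynomial.X : Polynomial R) • s.piecewise B' A' a)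
        (s.piecewise B' A') =
        s.piecewise (fun a => (Polynomial.X : Polynomial R) • B' a) A' := by
      funext a
      by_cases ha : a ∈ s
      · simp [Finset.piecewise, ha]
      · simp [Finset.piecewise, ha]
    rw [h5] at h4
    refine Eq.trans h4 ?_
    rw [Finset.prod_const, smul_eq_mul]
    congr 1
    have h6 : (Matrix.detRowAlternating (n := Fin k) (R := Polynomial R)).toMultilinearMap
        (s.piecewise B' A') = Matrix.det (Matrix.of (s.piecewise B' A')) := rfl
    rw [h6, RingHom.map_det]
    refine congrArg Matrix.det ?_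
    ext a j : 2
    rw [hA, hB]
    by_cases ha : a ∈ s
    · simp [ha, Finset.piecewise]
    · simp [ha, Finset.piecewise]
  rw [h1, Polynomial.finsetSum_coeff]
  have h6 : ∀ s : Finset (Fin k), ((Polynomial.X : Polynomial R) ^ s.card *
      Polynomial.C (Matrix.det (Matrix.of fun a i => if a ∈ s then B a i else A a i))).coeff 1 =
      if s.card = 1 then Matrix.det (Matrix.of fun a i => if a ∈ s then B a i else A a i)
        else 0 := by
    intro s
    rw [Polynomial.coeff_mul_C, Polynomial.coeff_X_pow]
    by_cases hs : s.card = 1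
    · rw [if_pos hs.symm, if_pos hs, one_mul]
    · rw [if_neg (Ne.symm hs), if_neg hs, zero_mul]
  rw [Finset.sum_congr rfl fun s _ => h6 s, ← Finset.sum_filter]
  symm
  refine Finset.sum_bij (fun a _ => ({a} : Finset (Fin k))) ?_ ?_ ?_ ?_
  · intro a _
    simp
  · intro a _ b _ h
    exact Finset.singleton_injective h
  · intro s hs
    obtain ⟨a, ha⟩ := Finset.card_eq_one.1 (Finset.mem_filter.1 hs).2
    exact ⟨a, Finset.mem_univ a, ha.symm⟩
  · intro a _
    refine congrArg Matrix.det ?_
    ext i j
    by_cases hi : i = a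
    · subst hi
      simp
    · simp [hi]

theorem dlf_coeff (c : Cf R k n) (u δ : Matrix (Fin k) (Fin n) R) :
    (lf (fun t => Polynomial.C (c t))
      (u.map Polynomial.C + (Polynomial.X : Polynomial R) • δ.map Polynomial.C)).coeff 1
      = dlf c u δ := by
  unfold lf dlf
  rw [Polynomial.finsetSum_coeff]
  unfold lf
  rw [Finset.sum_comm]
  refine Finset.sum_congr rfl fun t _ => ?_
  have h1 : (u.map Polynomial.C + (Polynomial.X : Polynomial R) • δ.map Polynomial.C).submatrix id t =
    (u.submatrix id t).map Polynomial.C +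
      (Polynomial.X : Polynomial R) • (δ.submatrix id t).map Polynomial.C := rfl
  rw [h1, Polynomial.coeff_C_mul, det_coeff, Finset.mul_sum]
  refine Finset.sum_congr rfl fun a _ => ?_
  rw [upd_sub]
  rfl

theorem dlf_mul (c : Cf R k n) (g : Matrix (Fin k) (Fin k) R) (u δ : Matrix (Fin k) (Fin n) R) :
    dlf c (g * u) (g * δ) = g.det * dlf c u δ := by
  rw [← dlf_coeff, ← dlf_coeff]
  have h1 : (g * u).map Polynomial.C + (Polynomial.X : Polynomial R) • (g * δ).map Polynomial.C =
      g.map Polynomial.C * (u.map Polynomial.C + (Polynomial.X : Polynomial R) • δ.map Polynomial.C) := by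
    rw [Matrix.map_mul, Matrix.map_mul, Matrix.mul_add, Matrix.mul_smul]
  have h2 : (g.map Polynomial.C).det = Polynomial.C g.det := (RingHom.map_det Polynomial.C g).symm
  rw [h1, lf_mul, h2, Polynomial.coeff_C_mul]

end GTC
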