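import Pool.Agent.GTR.Frk

/-!
# GTR OAn : annihilators of osculating spaces, adapted bases (linear algebra of section 2)
-/

set_option autoImplicit false

open Matrix Module

namespace GTC

/-- the functional `v ↦ ∑ j, v j * γ^(b)(x)_j`. -/
noncomputable def dv {n : ℕ} (γ : ℝ → Fin n → ℝ) (x : ℝ) (b : ℕ) : (Fin n → ℂ) →ₗ[ℂ] ℂ :=
  ∑ j, ((iteratedDeriv b γ x j : ℝ) : ℂ) • LinearMap.proj j

theorem dv_apply {n : ℕ} (γ : ℝ → Fin n → ℝ) (x : ℝ) (b : ℕ) (v : Fin n → ℂ) :
    dv γ x b v = ∑ j, v j * ((iteratedDeriv b γ x j : ℝ) : ℂ) := by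
  simp [dv, mul_comm]

/-- the annihilator of the osculating space `F_i(x)`: the vectors `v` such that `v · γ` vanishes at
`x` to order at least `i`. -/
def An {n : ℕ} (γ : ℝ → Fin n → ℝ) (i : ℕ) (x : ℝ) : Submodule ℂ (Fin n → ℂ) where
  carrier := {v | ∀ b < i, dv γ x b v = 0}
  add_mem' := by
    intro v w hv hw b hb
    rw [map_add, hv b hb, hw b hb, add_zero]
  zero_mem' := by
    intro b _
    exact map_zero _
  smul_mem' := by
    intro c v hv b hb
    rw [map_smul, hv b hb, smul_zero]

theorem mem_An {n : ℕ} {γ : ℝ → Fin n → ℝ} {i : ℕ} {x : ℝ} {v : Fin n → ℂ} :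
    v ∈ An γ i x ↔ ∀ b < i, dv γ x b v = 0 := Iff.rfl

section Jumps

variable {K V : Type*} [Field K] [AddCommGroup V] [Module K V] [FiniteDimensional K V] {n : ℕ}

/-- the filtration by functionals. -/
def Fl (e : Fin n → V →ₗ[K] K) (i : ℕ) : Submodule K V where
  carrier := {v | ∀ b : Fin n, (b : ℕ) < i → e b v = 0}
  add_mem' := by
    intro v w hv hw b hb
    rw [map_add, hv b hb, hw b hb, add_zero]
  zero_mem' := by
    intro b _
    exact map_zero _
  smul_mem' := by
    intro c v hv b hb
    rw [map_smul, hv b hb, smul_zero]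

theorem mem_Fl {e : Fin n → V →ₗ[K] K} {i : ℕ} {v : V} :
    v ∈ Fl e i ↔ ∀ b : Fin n, (b : ℕ) < i → e b v = 0 := Iff.rfl

theorem jumps (e : Fin n → V →ₗ[K] K) (hinj : ∀ v, (∀ b, e b v = 0) → v = 0)
    (R : Submodule K V) (D : Finset (Fin n))
    (hD : ∀ i, i ∈ D ↔ ∃ v ∈ R, v ∈ Fl e i ∧ e i v ≠ 0) (i : ℕ) (hi : i ≤ n) :
    finrank K (R ⊓ Fl e i : Submodule K V) = (D.filter (fun j : Fin n => i ≤ (j : ℕ))).card := by
  induction hj : n - i generalizing i with
  | zero =>
    have hin : i = n := by omega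
    subst hin
    have h1 : R ⊓ Fl e i = ⊥ := by
      rw [eq_bot_iff]
      intro v hv
      rw [Submodule.mem_bot]
      exact hinj v (fun b => hv.2 b b.2)
    have h2 : D.filter (fun j : Fin i => i ≤ (j : ℕ)) = ∅ := by
      rw [Finset.filter_eq_empty_iff]
      intro j _
      have := j.2
      omega
    rw [h1, h2]
    simp
  | succ m ih =>
    have hin : i < n := by omega
    have ih' := ih (i + 1) hin (by omega)
    -- the functional `e i` on `R ⊓ Fl e i`
    set S : Submodule K V := R ⊓ Fl e i with hS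
    let φ : S →ₗ[K] K := (e ⟨i, hin⟩).comp S.subtype
    have hker : (LinearMap.ker φ).map S.subtype = R ⊓ Fl e (i + 1) := by
      ext v
      simp only [Submodule.mem_map, LinearMap.mem_ker]
      constructor
      · rintro ⟨w, hw, rfl⟩
        refine ⟨w.2.1, ?_⟩
        intro b hb
        rcases Nat.lt_succ_iff_lt_or_eq.1 hb with h | h
        · exact w.2.2 b h
        · have : b = ⟨i, hin⟩ := Fin.ext h
          subst this
          exact hw
      · intro hv
        refine ⟨⟨v, hv.1, fun b hb => hv.2 b (by omega)⟩, ?_, rfl⟩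
        exact hv.2 ⟨i, hin⟩ (by simp)
    have hk : finrank K (LinearMap.ker φ) = finrank K (R ⊓ Fl e (i + 1) : Submodule K V) := by
      rw [← hker]
      exact (LinearEquiv.finrank_eq (Submodule.equivMapOfInjective S.subtype
        (Submodule.injective_subtype S) (LinearMap.ker φ)))
    have hrn := LinearMap.finrank_range_add_finrank_ker φ
    rw [hk, ih'] at hrn
    have hfil : D.filter (fun j : Fin n => i ≤ (j : ℕ)) =
        (D.filter (fun j : Fin n => i + 1 ≤ (j : ℕ))) ∪ D.filter (fun j : Fin n => j = ⟨i, hin⟩) := by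
      ext j
      simp only [Finset.mem_filter, Finset.mem_union, Fin.ext_iff]
      constructor
      · rintro ⟨h1, h2⟩
        by_cases h : (j : ℕ) = i
        · exact Or.inr ⟨h1, h⟩
        · exact Or.inl ⟨h1, by omega⟩
      · rintro (⟨h1, h2⟩ | ⟨h1, h2⟩)
        · exact ⟨h1, by omega⟩
        · exact ⟨h1, by omega⟩
    have hdisj : Disjoint (D.filter (fun j : Fin n => i + 1 ≤ (j : ℕ)))
        (D.filter (fun j : Fin n => j = ⟨i, hin⟩)) := by
      rw [Finset.disjoint_filter]
      intro j _ h1 h2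
      rw [h2] at h1
      simp at h1
    rw [hfil, Finset.card_union_of_disjoint hdisj]
    by_cases hmem : (⟨i, hin⟩ : Fin n) ∈ D
    · have h1 : D.filter (fun j : Fin n => j = ⟨i, hin⟩) = {⟨i, hin⟩} := by
        ext j
        simp only [Finset.mem_filter, Finset.mem_singleton]
        constructor
        · exact fun h => h.2
        · rintro rfl
          exact ⟨hmem, rfl⟩
      have h2 : finrank K (LinearMap.range φ) = 1 := by
        obtain ⟨v, hvR, hvF, hv⟩ := (hD _).1 hmem
        have h3 : LinearMap.range φ = ⊤ := by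
          rw [LinearMap.range_eq_top]
          intro c
          refine ⟨(c / e ⟨i, hin⟩ v) • ⟨v, hvR, hvF⟩, ?_⟩
          rw [map_smul]
          change (c / e ⟨i, hin⟩ v) • (e ⟨i, hin⟩ v) = c
          rw [smul_eq_mul, div_mul_cancel₀ _ hv]
        rw [h3, finrank_top, finrank_self]
      rw [h1, Finset.card_singleton, ← hrn, h2]
      ring
    · have h1 : D.filter (fun j : Fin n => j = ⟨i, hin⟩) = ∅ := by
        rw [Finset.filter_eq_empty_iff]
        rintro j hj rfl
        exact hmem hj
      have h2 : finrank K (LinearMap.range φ) = 0 := by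
        have h3 : φ = 0 := by
          ext w
          by_contra hne
          exact hmem ((hD _).2 ⟨w, w.2.1, w.2.2, hne⟩)
        rw [h3, LinearMap.range_zero, finrank_bot]
      rw [h1, Finset.card_empty, ← hrn, h2]
      ring

/-- adapted basis of a subspace of dimension `k`. -/
theorem adapted_basis (e : Fin n → V →ₗ[K] K) (hinj : ∀ v, (∀ b, e b v = 0) → v = 0)
    (R : Submodule K V) {k : ℕ} (hR : finrank K R = k) :
    ∃ (d : Fin k → Fin n) (w : Fin k → V), StrictMono d ∧ (∀ a, w a ∈ Fl e (d a)) ∧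
      (∀ a, e (d a) (w a) ≠ 0) ∧ LinearIndependent K w ∧ Submodule.span K (Set.range w) = R ∧
      ∀ i ≤ n, finrank K (R ⊓ Fl e i : Submodule K V) =
        (Finset.univ.filter (fun a : Fin k => i ≤ (d a : ℕ))).card := by
  classical
  set D : Finset (Fin n) := Finset.univ.filter (fun i => ∃ v ∈ R, v ∈ Fl e i ∧ e i v ≠ 0) with hDdef
  have hD : ∀ i, i ∈ D ↔ ∃ v ∈ R, v ∈ Fl e i ∧ e i v ≠ 0 := by
    intro i
    simp [hDdef]
  have hj := jumps e hinj R D hD
  have hcard : D.card = k := by
    have h0 := hj 0 (Nat.zero_le _)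
    have h1 : Fl e 0 = ⊤ := by
      rw [eq_top_iff]
      intro v _ b hb
      omega
    rw [h1, inf_top_eq, hR] at h0
    rw [h0]
    simp
  let d : Fin k → Fin n := fun a => D.orderEmbOfFin hcard a
  have hdD : ∀ a, d a ∈ D := fun a => D.orderEmbOfFin_mem hcard a
  choose w hwR hwF hwe using fun a => (hD (d a)).1 (hdD a)
  have hd : StrictMono d := (D.orderEmbOfFin hcard).strictMono
  have hli : LinearIndependent K w := by
    rw [Fintype.linearIndependent_iff]
    intro c hc
    by_contra hne
    push Not at hne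
    have hex : (Finset.univ.filter (fun a => c a ≠ 0)).Nonempty := by
      obtain ⟨a, ha⟩ := hne
      exact ⟨a, by simp [ha]⟩
    set a := (Finset.univ.filter (fun a => c a ≠ 0)).min' hex with ha
    have hca : c a ≠ 0 := by
      have := Finset.min'_mem _ hex
      rw [← ha, Finset.mem_filter] at this
      exact this.2
    have hmin : ∀ b, b < a → c b = 0 := by
      intro b hb
      by_contra hcb
      have := Finset.min'_le (Finset.univ.filter (fun a => c a ≠ 0)) b (by simp [hcb])
      exact absurd hb (not_lt.2 this)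
    have h1 := congrArg (e (d a)) hc
    rw [map_sum, map_zero, Finset.sum_eq_single a] at h1
    · rw [map_smul, smul_eq_mul] at h1
      exact (mul_ne_zero hca (hwe a)) h1
    · intro b _ hb
      rcases lt_or_gt_of_ne hb with h | h
      · rw [hmin b h, zero_smul, map_zero]
      · rw [map_smul, hwF b (d a) (hd h), smul_zero]
    · intro h
      exact absurd (Finset.mem_univ a) h
  refine ⟨d, w, hd, hwF, hwe, hli, ?_, ?_⟩
  · apply Submodule.eq_of_le_of_finrank_eq
    · rw [Submodule.span_le]
      rintro _ ⟨a, rfl⟩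
      exact hwR a
    · rw [finrank_span_eq_card hli, hR, Fintype.card_fin]
  · intro i hi
    rw [hj i hi]
    symm
    apply Finset.card_bij (fun a _ => d a)
    · intro a ha
      rw [Finset.mem_filter] at ha ⊢
      exact ⟨hdD a, ha.2⟩
    · intro a _ b _ h
      exact hd.injective h
    · intro j hj
      rw [Finset.mem_filter] at hj
      have : j ∈ Set.range (D.orderEmbOfFin hcard) := by
        rw [D.range_orderEmbOfFin hcard]
        exact hj.1
      obtain ⟨a, ha⟩ := this
      refine ⟨a, ?_, ha⟩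
      rw [Finset.mem_filter]
      refine ⟨Finset.mem_univ _, ?_⟩
      change i ≤ ((D.orderEmbOfFin hcard a : Fin n) : ℕ)
      rw [ha]
      exact hj.2

end Jumps

/-- the functionals `dv γ x b`, `b < n`, separate points. -/
theorem dv_inj {n : ℕ} {γ : ℝ → Fin n → ℝ} {x : ℝ} (h : (jet γ n x).det ≠ 0) (v : Fin n → ℂ)
    (hv : ∀ b : Fin n, dv γ x b v = 0) : v = 0 := by
  have h1 : ((jet γ n x).map (fun y : ℝ => (y : ℂ))).det ≠ 0 := by
    have h2 : ((jet γ n x).map (fun y : ℝ => (y : ℂ))).det = (((jet γ n x).det : ℝ) : ℂ) := by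
      exact (RingHom.map_det Complex.ofRealHom (jet γ n x)).symm
    rw [h2]
    exact_mod_cast h
  have h3 : v ᵥ* ((jet γ n x).map (fun y : ℝ => (y : ℂ))) = 0 := by
    ext b
    have := hv b
    rw [dv_apply] at this
    simpa [Matrix.vecMul, dotProduct, jet] using this
  exact Matrix.eq_zero_of_vecMul_eq_zero h1 h3

theorem An_eq_Fl {n : ℕ} (γ : ℝ → Fin n → ℝ) {i : ℕ} (hi : i ≤ n) (x : ℝ) :
    An γ i x = Fl (fun b : Fin n => dv γ x b) i := by
  ext v
  constructor
  · intro h b hb
    exact h b hb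
  · intro h b hb
    exact h ⟨b, lt_of_lt_of_le hb hi⟩ hb

/-- adapted representative of a point of the Grassmannian. -/
theorem adapted {k n : ℕ} {γ : ℝ → Fin n → ℝ} {x : ℝ} (hx : (jet γ n x).det ≠ 0)
    (u : Matrix (Fin k) (Fin n) ℂ) (hu : FR u) :
    ∃ (d : Fin k → Fin n) (g : Matrix (Fin k) (Fin k) ℂ), StrictMono d ∧ g.det ≠ 0 ∧
      (∀ a, ∀ b < (d a : ℕ), dv γ x b ((g * u) a) = 0) ∧ (∀ a, dv γ x (d a) ((g * u) a) ≠ 0) ∧
      ∀ i ≤ n, finrank ℂ (rs u ⊓ An γ i x : Submodule ℂ (Fin n → ℂ)) =
        (Finset.univ.filter (fun a : Fin k => i ≤ (d a : ℕ))).card := by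
  obtain ⟨d, w, hd, h1, h2, h3, h4, h5⟩ := adapted_basis (fun b : Fin n => dv γ x b)
    (fun v hv => dv_inj hx v hv) (rs u) (finrank_rs u hu)
  obtain ⟨g, hg, hgw⟩ := rs_eq u (Matrix.of w) hu h3 (by
    rw [← h4]
    rfl)
  refine ⟨d, g, hd, hg, ?_, ?_, ?_⟩
  · intro a b hb
    rw [← hgw]
    exact h1 a ⟨b, lt_trans hb (d a).2⟩ hb
  · intro a
    rw [← hgw]
    exact h2 a
  · intro i hi
    rw [An_eq_Fl γ hi]
    exact h5 i hi

theorem finrank_An {n : ℕ} {γ : ℝ → Fin n → ℝ} {x : ℝ} (hx : (jet γ n x).det ≠ 0) {i : ℕ}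
    (hi : i ≤ n) : finrank ℂ (An γ i x) = n - i := by
  classical
  have h := jumps (fun b : Fin n => dv γ x b) (fun v hv => dv_inj hx v hv) ⊤
  have hsurj : Function.Surjective (LinearMap.pi (fun b : Fin n => dv γ x b)) := by
    apply LinearMap.surjective_of_injective
    rw [← LinearMap.ker_eq_bot, LinearMap.ker_eq_bot']
    intro v hv
    exact dv_inj hx v (fun b => congrFun hv b)
  have h1 := h Finset.univ (fun j => by
    simp only [Finset.mem_univ, Submodule.mem_top, true_and, true_iff]
    obtain ⟨v, hv⟩ := hsurj (Pi.single j 1)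
    refine ⟨v, ?_, ?_⟩
    · intro b hb
      have := congrFun hv b
      rw [LinearMap.pi_apply, Pi.single_eq_of_ne (by
        intro h
        rw [h] at hb
        exact lt_irrefl _ hb)] at this
      exact this
    · have := congrFun hv j
      rw [LinearMap.pi_apply, Pi.single_eq_same] at this
      rw [this]
      exact one_ne_zero) i hi
  rw [top_inf_eq, ← An_eq_Fl γ hi] at h1
  rw [h1]
  have h2 : (Finset.univ.filter (fun j : Fin n => i ≤ (j : ℕ))).card = n - i := by
    have h3 : (Finset.univ.filter (fun j : Fin n => (j : ℕ) < i)).card = i := by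
      rw [Fin.card_filter_val_lt, min_eq_right hi]
    have h4 := Finset.card_filter_add_card_filter_not (s := (Finset.univ : Finset (Fin n)))
      (fun j : Fin n => (j : ℕ) < i)
    rw [h3, Finset.card_univ, Fintype.card_fin] at h4
    have h5 : (Finset.univ.filter (fun j : Fin n => ¬ (j : ℕ) < i)) =
        Finset.univ.filter (fun j : Fin n => i ≤ (j : ℕ)) := by
      ext j
      simp
    rw [h5] at h4
    omega
  exact h2

end GTC
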