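import Pool.Agent.GTR.OWr

/-!
# GTR OS : consequences of (S1); (S2); (S3)
-/

set_option autoImplicit false

open Matrix Module Filter Topology

namespace GTC

/-! ### real representatives of annihilators -/

theorem An_real {k n i : ℕ} (hn : i + k = n) {γ : ℝ → Fin n → ℝ} {x : ℝ}
    (hx : (jet γ n x).det ≠ 0) :
    ∃ v : Matrix (Fin k) (Fin n) ℝ, FR v ∧ rs (cm v) = An γ i x ∧
      ∀ a, ∀ b < i, ∑ j, v a j * iteratedDeriv b γ x j = 0 := by
  have hunit : IsUnit (jet γ n x).det := isUnit_iff_ne_zero.2 hx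
  set v : Matrix (Fin k) (Fin n) ℝ := fun a => (jet γ n x)⁻¹ ⟨i + a, by omega⟩ with hv
  have hmul := Matrix.nonsing_inv_mul (jet γ n x) hunit
  have hentry : ∀ a : Fin k, ∀ b : Fin n, ∑ j, v a j * iteratedDeriv (b : ℕ) γ x j =
      if i + (a : ℕ) = b then 1 else 0 := by
    intro a b
    have h1 := congrFun (congrFun hmul ⟨i + a, by omega⟩) b
    rw [Matrix.mul_apply, Matrix.one_apply] at h1
    simp only [Fin.ext_iff] at h1
    exact h1
  have hann : ∀ a, ∀ b < i, ∑ j, v a j * iteratedDeriv b γ x j = 0 := by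
    intro a b hb
    have h1 := hentry a ⟨b, by omega⟩
    rw [if_neg (by simp only; omega)] at h1
    exact h1
  have hFR : FR v := by
    have h1 : LinearIndependent ℝ (fun b : Fin n => (jet γ n x)⁻¹ b) := by
      have h2 : IsUnit (jet γ n x)⁻¹ := (Matrix.isUnit_nonsing_inv_iff).2
        ((Matrix.isUnit_iff_isUnit_det _).2 hunit)
      exact Matrix.linearIndependent_rows_iff_isUnit.2 h2
    exact h1.comp (fun a : Fin k => (⟨i + a, by omega⟩ : Fin n)) (by
      intro a b hab
      simp only [Fin.mk.injEq] at hab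
      exact Fin.ext (by omega))
  refine ⟨v, hFR, ?_, hann⟩
  apply Submodule.eq_of_le_of_finrank_eq
  · unfold rs
    rw [Submodule.span_le]
    rintro _ ⟨a, rfl⟩
    intro b hb
    rw [dv_apply]
    have h1 := hann a b hb
    have h2 : ((∑ j, v a j * iteratedDeriv b γ x j : ℝ) : ℂ) = 0 := by
      rw [h1]
      exact Complex.ofReal_zero
    rw [← h2]
    push_cast
    rfl
  · rw [finrank_rs _ ((fr_cm v).2 hFR), finrank_An hx (by omega : i ≤ n)]
    omega

/-! ### bounds for the order -/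

theorem strictMono_le {k l : ℕ} (d : Fin k → Fin (k + l)) (hd : StrictMono d) (a : Fin k) :
    (a : ℕ) ≤ d a ∧ (d a : ℕ) ≤ l + a := by
  constructor
  · have : ∀ m : ℕ, ∀ hm : m < k, m ≤ (d ⟨m, hm⟩ : ℕ) := by
      intro m
      induction m with
      | zero => intro _; exact Nat.zero_le _
      | succ m ih =>
        intro hm
        have h2 := ih (by omega)
        have h3 : d ⟨m, by omega⟩ < d ⟨m + 1, hm⟩ := hd (by
          rw [Fin.lt_def]
          exact Nat.lt_succ_self m)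
        rw [Fin.lt_def] at h3
        omega
    exact this a a.2
  · have : ∀ m : ℕ, ∀ hm : m < k, (d ⟨k - 1 - m, by omega⟩ : ℕ) + m < k + l := by
      intro m
      induction m with
      | zero => intro hm; exact (d ⟨k - 1 - 0, by omega⟩).2
      | succ m ih =>
        intro hm
        have h2 := ih (by omega)
        have h3 : d ⟨k - 1 - (m + 1), by omega⟩ < d ⟨k - 1 - m, by omega⟩ := hd (by
          rw [Fin.lt_def]
          simp only
          omega)
        rw [Fin.lt_def] at h3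
        omega
    have h1 := this (k - 1 - a) (by omega)
    have h2 : (⟨k - 1 - (k - 1 - (a : ℕ)), by omega⟩ : Fin k) = a := by
      apply Fin.ext
      simp only
      omega
    rw [h2] at h1
    omega

theorem ord_exists {k l : ℕ} {γ : ℝ → Fin (k + l) → ℝ} (hγ : Nice γ)
    (u : Matrix (Fin k) (Fin (k + l)) ℂ) (hu : FR u) (x : ℝ) :
    ∃ m ≤ k * l, IsOrd k γ u x m := by
  obtain ⟨d, hd, m, hm, hsum, _⟩ := S1 hγ u hu x
  refine ⟨m, ?_, hm⟩
  have h1 : ∑ a, (d a : ℕ) ≤ ∑ a : Fin k, (l + (a : ℕ)) :=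
    Finset.sum_le_sum fun a _ => (strictMono_le d hd a).2
  rw [Finset.sum_add_distrib] at h1
  simp only [Finset.sum_const, Finset.card_univ, Fintype.card_fin, smul_eq_mul] at h1
  omega

theorem ord_le {k l : ℕ} {γ : ℝ → Fin (k + l) → ℝ} (hγ : Nice γ)
    {u : Matrix (Fin k) (Fin (k + l)) ℂ} (hu : FR u) {x : ℝ} {m : ℕ} (h : IsOrd k γ u x m) :
    m ≤ k * l := by
  obtain ⟨m', hm', h'⟩ := ord_exists hγ u hu x
  rw [isOrd_unique h h']
  exact hm'

/-- the number of conditions at one point is at most `k l`. -/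
theorem cond_le {k l : ℕ} {γ : ℝ → Fin (k + l) → ℝ} (hγ : Nice γ)
    {u : Matrix (Fin k) (Fin (k + l)) ℂ} (hu : FR u) {x : ℝ} {c : ℕ}
    (h : ∀ j < c, lf (cc (pf k γ x j)) u = 0) : c ≤ k * l := by
  obtain ⟨m, hm, h'⟩ := ord_exists hγ u hu x
  exact (isOrd_le h' h).trans hm

/-- maximal order: the row space is the annihilator of `F_l(x)`. -/
theorem ord_top {k l : ℕ} {γ : ℝ → Fin (k + l) → ℝ} (hγ : Nice γ)
    {u : Matrix (Fin k) (Fin (k + l)) ℂ} (hu : FR u) {x : ℝ}
    (h : ∀ j < k * l, lf (cc (pf k γ x j)) u = 0) : rs u = An γ l x := by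
  obtain ⟨d, hd, m, hm, hsum, hdim⟩ := S1 hγ u hu x
  have h1 : k * l ≤ m := isOrd_le hm h
  have h2 : ∀ a, (d a : ℕ) ≤ l + a := fun a => (strictMono_le d hd a).2
  have h3 : ∑ a : Fin k, (l + (a : ℕ)) ≤ ∑ a, (d a : ℕ) := by
    rw [Finset.sum_add_distrib]
    simp only [Finset.sum_const, Finset.card_univ, Fintype.card_fin, smul_eq_mul]
    omega
  have h4 : ∀ a, (d a : ℕ) = l + a := by
    intro a
    have h5 := (Finset.sum_eq_sum_iff_of_le (s := Finset.univ) (fun a _ => h2 a)).1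
      (le_antisymm (Finset.sum_le_sum fun a _ => h2 a) h3)
    exact h5 a (Finset.mem_univ a)
  have h5 := hdim l (by omega)
  have h6 : (Finset.univ.filter (fun a : Fin k => l ≤ (d a : ℕ))).card = k := by
    rw [Finset.filter_true_of_mem (fun a _ => by rw [h4 a]; omega)]
    simp
  rw [h6] at h5
  have h7 : rs u ⊓ An γ l x = rs u :=
    Submodule.eq_of_le_of_finrank_eq inf_le_left (by rw [h5, finrank_rs u hu])
  have h8 : rs u ⊓ An γ l x = An γ l x :=
    Submodule.eq_of_le_of_finrank_eq inf_le_right (by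
      rw [h5, finrank_An (hγ.indep x) (by omega)]
      omega)
  exact h7.symm.trans h8

/-- solutions with a zero of maximal order are real. -/
theorem ord_top_real {k l : ℕ} {γ : ℝ → Fin (k + l) → ℝ} (hγ : Nice γ)
    {u : Matrix (Fin k) (Fin (k + l)) ℂ} (hu : FR u) {x : ℝ}
    (h : ∀ j < k * l, lf (cc (pf k γ x j)) u = 0) :
    ∃ v : Matrix (Fin k) (Fin (k + l)) ℝ, FR v ∧ rs (cm v) = rs u := by
  obtain ⟨v, hv, h1, _⟩ := An_real (k := k) (i := l) (by omega) (hγ.indep x)
  exact ⟨v, hv, h1.trans (ord_top hγ hu h).symm⟩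

/-- if `u J_(k-1)(x)` has rank less than `k - 1` then `W_u` vanishes at `x` to order at least two;
in contrapositive form. -/
theorem rank_of_ord_le_one {k l : ℕ} {γ : ℝ → Fin (k + l) → ℝ} (hγ : Nice γ)
    {u : Matrix (Fin k) (Fin (k + l)) ℂ} (hu : FR u) {x : ℝ} {m : ℕ} (hm : IsOrd k γ u x m)
    (hm1 : m ≤ 1) : finrank ℂ (rs u ⊓ An γ (k - 1) x : Submodule ℂ (Fin (k + l) → ℂ)) ≤ 1 := by
  obtain ⟨d, hd, m', hm', hsum, hdim⟩ := S1 hγ u hu x
  have := isOrd_unique hm hm'
  subst this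
  rw [hdim (k - 1) (by omega), Finset.card_le_one]
  have key : ∀ a b : Fin k, k - 1 ≤ (d a : ℕ) → k - 1 ≤ (d b : ℕ) → a < b → False := by
    intro a b ha hb hab
    have h1 : ∀ c : Fin k, (c : ℕ) ≤ d c := fun c => (strictMono_le d hd c).1
    have h2 : ∑ c : Fin k, (c : ℕ) + 2 ≤ ∑ c, (d c : ℕ) := by
      have h3 : (a : ℕ) + 1 ≤ d a := by
        rw [Fin.lt_def] at hab
        omega
      have h4 : (b : ℕ) + 1 ≤ d b := by
        have := hd hab
        rw [Fin.lt_def] at this
        omega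
      have h5 : ∑ c : Fin k, ((c : ℕ) + ((if c = a then 1 else 0) + (if c = b then 1 else 0)))
          ≤ ∑ c, (d c : ℕ) := by
        refine Finset.sum_le_sum fun c _ => ?_
        have hne : a ≠ b := ne_of_lt hab
        by_cases hca : c = a
        · subst hca
          simp [hne]
          omega
        · by_cases hcb : c = b
          · subst hcb
            simp [hca]
            omega
          · simp [hca, hcb]
            exact h1 c
      rw [Finset.sum_add_distrib, Finset.sum_add_distrib] at h5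
      simpa using h5
    omega
  intro a ha b hb
  rw [Finset.mem_filter] at ha hb
  rcases lt_trichotomy a b with h | h | h
  · exact (key a b ha.2 hb.2 h).elim
  · exact h
  · exact (key b a hb.2 ha.2 h).elim

/-! ### (S2) -/

theorem finrank_FF {n : ℕ} {γ : ℝ → Fin n → ℝ} {x : ℝ} (hx : (jet γ n x).det ≠ 0) {i : ℕ}
    (hi : i ≤ n) : finrank ℝ (FF γ i x) = i := by
  have h1 : LinearIndependent ℝ (fun b : Fin n => iteratedDeriv (b : ℕ) γ x) := by
    have h2 : IsUnit (jet γ n x)ᵀ := by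
      rw [Matrix.isUnit_transpose]
      exact (Matrix.isUnit_iff_isUnit_det _).2 (isUnit_iff_ne_zero.2 hx)
    exact Matrix.linearIndependent_rows_iff_isUnit.2 h2
  have h3 : LinearIndependent ℝ (fun b : Fin i => iteratedDeriv (b : ℕ) γ x) :=
    h1.comp (Fin.castLE hi) (Fin.castLE_injective hi)
  unfold FF
  rw [finrank_span_eq_card h3, Fintype.card_fin]

/-- transversality in terms of annihilators. -/
theorem transv_An {n : ℕ} {γ : ℝ → Fin n → ℝ} (hγ : Nice γ) {x y : ℝ} (h : Transv γ x y) {i : ℕ}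
    (hi : i ≤ n) : An γ i x ⊓ An γ (n - i) y = ⊥ := by
  have h1 := h i hi
  have h2 : FF γ i x ⊔ FF γ (n - i) y = ⊤ := by
    apply Submodule.eq_top_of_finrank_eq
    have h3 := Submodule.finrank_sup_add_finrank_inf_eq (FF γ i x) (FF γ (n - i) y)
    rw [h1, finrank_bot, finrank_FF (hγ.indep x) hi, finrank_FF (hγ.indep y) (Nat.sub_le n i)] at h3
    rw [finrank_fintype_fun_eq_card, Fintype.card_fin]
    omega
  rw [eq_bot_iff]
  intro v hv
  rw [Submodule.mem_bot]
  -- the functional `w ↦ ∑ v_j w_j` on real vectors vanishes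
  let φ : (Fin n → ℝ) →ₗ[ℝ] ℂ :=
    { toFun := fun w => ∑ j, v j * ((w j : ℝ) : ℂ)
      map_add' := by
        intro w w'
        simp only [Pi.add_apply, Complex.ofReal_add, mul_add, Finset.sum_add_distrib]
      map_smul' := by
        intro r w
        simp only [Pi.smul_apply, smul_eq_mul, Complex.ofReal_mul, RingHom.id_apply,
          Complex.real_smul, Finset.mul_sum]
        refine Finset.sum_congr rfl fun i _ => by ring }
  have h4 : FF γ i x ⊔ FF γ (n - i) y ≤ LinearMap.ker φ := by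
    rw [sup_le_iff]
    constructor
    · unfold FF
      rw [Submodule.span_le]
      rintro _ ⟨b, rfl⟩
      have := hv.1 b b.2
      rw [dv_apply] at this
      exact this
    · unfold FF
      rw [Submodule.span_le]
      rintro _ ⟨b, rfl⟩
      have := hv.2 b b.2
      rw [dv_apply] at this
      exact this
  rw [h2] at h4
  funext j
  have h5 : φ (Pi.single j 1) = 0 := h4 Submodule.mem_top
  change ∑ i, v i * (((Pi.single j (1 : ℝ) : Fin n → ℝ) i : ℝ) : ℂ) = 0 at h5
  rw [Finset.sum_eq_single j] at h5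
  · simpa using h5
  · intro b _ hb
    rw [Pi.single_eq_of_ne hb]
    simp
  · intro h
    exact absurd (Finset.mem_univ j) h

theorem sum_card_filter {k n : ℕ} (d : Fin k → Fin n) :
    ∑ i ∈ Finset.Icc 1 (n - 1), (Finset.univ.filter (fun a : Fin k => i ≤ (d a : ℕ))).card =
      ∑ a, (d a : ℕ) := by
  simp only [Finset.card_filter]
  rw [Finset.sum_comm]
  refine Finset.sum_congr rfl fun a _ => ?_
  rw [← Finset.card_filter]
  have h1 : (Finset.Icc 1 (n - 1)).filter (fun i => i ≤ (d a : ℕ)) = Finset.Icc 1 (d a : ℕ) := by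
    ext i
    simp only [Finset.mem_filter, Finset.mem_Icc]
    have := (d a).2
    omega
  rw [h1, Nat.card_Icc]
  omega

theorem S2 {k l : ℕ} {γ : ℝ → Fin (k + l) → ℝ} (hγ : Nice γ) {x y : ℝ} (h : Transv γ x y)
    {u : Matrix (Fin k) (Fin (k + l)) ℂ} (hu : FR u) {m m' : ℕ} (hm : IsOrd k γ u x m)
    (hm' : IsOrd k γ u y m') : m + m' ≤ k * l := by
  obtain ⟨d, hd, m1, hm1, hsum, hdim⟩ := S1 hγ u hu x
  obtain ⟨d', hd', m1', hm1', hsum', hdim'⟩ := S1 hγ u hu y
  have e1 := isOrd_unique hm hm1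
  have e2 := isOrd_unique hm' hm1'
  subst e1 e2
  rcases Nat.eq_zero_or_pos k with hk | hk
  · subst hk
    simp at hsum hsum'
    omega
  have key : ∀ i ∈ Finset.Icc 1 (k + l - 1), (Finset.univ.filter (fun a : Fin k => i ≤ (d a : ℕ))).card +
      (Finset.univ.filter (fun a : Fin k => k + l - i ≤ (d' a : ℕ))).card ≤ k := by
    intro i hi
    rw [Finset.mem_Icc] at hi
    rw [← hdim i (by omega), ← hdim' (k + l - i) (by omega)]
    have h1 : (rs u ⊓ An γ i x) ⊓ (rs u ⊓ An γ (k + l - i) y) = ⊥ := by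
      have := transv_An hγ h (i := i) (by omega)
      rw [eq_bot_iff, ← this]
      intro v hv
      exact ⟨hv.1.2, hv.2.2⟩
    have h2 := Submodule.finrank_sup_add_finrank_inf_eq (rs u ⊓ An γ i x) (rs u ⊓ An γ (k + l - i) y)
    rw [h1, finrank_bot, add_zero] at h2
    rw [← h2]
    exact (Submodule.finrank_mono (sup_le inf_le_left inf_le_left)).trans (finrank_rs u hu).le
  have h1 := Finset.sum_le_sum key
  rw [Finset.sum_add_distrib, sum_card_filter d] at h1
  have h2 : ∑ i ∈ Finset.Icc 1 (k + l - 1),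
      (Finset.univ.filter (fun a : Fin k => k + l - i ≤ (d' a : ℕ))).card = ∑ a, (d' a : ℕ) := by
    rw [← sum_card_filter d']
    apply Finset.sum_bij' (fun i _ => k + l - i) (fun i _ => k + l - i)
    · intro i hi
      rw [Finset.mem_Icc] at hi ⊢
      omega
    · intro i hi
      rw [Finset.mem_Icc] at hi ⊢
      omega
    · intro i hi
      rw [Finset.mem_Icc] at hi
      omega
    · intro i hi
      rw [Finset.mem_Icc] at hi
      omega
    · intro i hi
      rfl
  rw [h2, Finset.sum_const, Nat.card_Icc, smul_eq_mul] at h1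
  have h3 : (∑ a : Fin k, (a : ℕ)) * 2 = k * (k - 1) := by
    rw [Fin.sum_univ_eq_sum_range (fun i => i) k]
    exact Finset.sum_range_id_mul_two k
  have h4 : (k + l - 1 + 1 - 1) * k = k * l + k * (k - 1) := by
    have : k + l - 1 + 1 - 1 = l + (k - 1) := by omega
    rw [this]
    ring
  omega

/-! ### (S3) -/

/-- zeros of finite order are isolated. -/
theorem isolated {k n : ℕ} {γ : ℝ → Fin n → ℝ} (hγ : ContDiff ℝ (⊤ : ℕ∞) γ)
    {u : Matrix (Fin k) (Fin n) ℂ} {x : ℝ} {m : ℕ} (h : IsOrd k γ u x m) :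
    ∀ᶠ y in 𝓝[≠] x, Wr k γ u y ≠ 0 := by
  obtain ⟨c, hc, hlim⟩ := isOrd_tendsto hγ h
  have h1 := hlim.eventually_ne hc
  filter_upwards [h1] with y hy h0
  rw [h0, smul_zero] at hy
  exact hy rfl

/-- `W_u` has finitely many zeros in a compact set. -/
theorem zeros_finite {k n : ℕ} {γ : ℝ → Fin n → ℝ} (hγ : Nice γ)
    {u : Matrix (Fin k) (Fin n) ℂ} (hu : FR u) {K : Set ℝ} (hK : IsCompact K) :
    {y ∈ K | Wr k γ u y = 0}.Finite := by
  by_contra hinf
  obtain ⟨x, _, hx⟩ := Set.Infinite.exists_accPt_of_subset_isCompact (Set.not_finite.1 hinf) hK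
    (fun y hy => hy.1)
  obtain ⟨d, _, m, hm, _⟩ := S1 hγ u hu x
  have h1 := isolated hγ.smooth hm
  rw [accPt_iff_frequently_nhdsNE] at hx
  obtain ⟨y, hy1, hy2⟩ := (hx.and_eventually h1).exists
  exact hy2 hy1.2

theorem S3 {n : ℕ} {γ : ℝ → Fin n → ℝ} (hγ : Nice γ) (x : ℝ) :
    {y ∈ Set.Icc 0 Real.pi | ¬ Transv γ x y}.Finite := by
  -- for every `i` a real matrix with row space `Ann F_i(x)`
  have h1 : ∀ i : Fin (n + 1), ∃ v : Matrix (Fin (n - i)) (Fin n) ℝ, FR v ∧
      rs (cm v) = An γ i x ∧ ∀ a, ∀ b < (i : ℕ), ∑ j, v a j * iteratedDeriv b γ x j = 0 :=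
    fun i => An_real (by omega) (hγ.indep x)
  choose v hv1 hv2 hv3 using h1
  have h2 : (⋃ i : Fin (n + 1), {y ∈ Set.Icc 0 Real.pi | Wr (n - i) γ (cm (v i)) y = 0}).Finite :=
    Set.finite_iUnion fun i => zeros_finite hγ ((fr_cm (v i)).2 (hv1 i)) isCompact_Icc
  refine h2.subset ?_
  rintro y ⟨hy, hty⟩
  unfold Transv at hty
  push Not at hty
  obtain ⟨i, hi, hne⟩ := hty
  rw [Set.mem_iUnion]
  refine ⟨⟨i, by omega⟩, hy, ?_⟩
  by_contra hW
  apply hne
  rw [eq_bot_iff]
  intro w hw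
  rw [Submodule.mem_bot]
  set V := v ⟨i, by omega⟩ with hV
  -- the rows of `V` kill `w`
  have h3 : ∀ a, ∑ j, V a j * w j = 0 := by
    intro a
    have h4 : FF γ i x ≤ LinearMap.ker (∑ j, V a j • (LinearMap.proj j : (Fin n → ℝ) →ₗ[ℝ] ℝ)) := by
      unfold FF
      rw [Submodule.span_le]
      rintro _ ⟨b, rfl⟩
      have := hv3 ⟨i, by omega⟩ a b b.2
      simpa using this
    have h5 := h4 hw.1
    simpa using h5
  -- `w` is a combination of the derivatives at `y`
  obtain ⟨c, hc⟩ : ∃ c : Fin (n - i) → ℝ, ∑ b, c b • iteratedDeriv (b : ℕ) γ y = w := by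
    have h4 := hw.2
    unfold FF at h4
    exact (Submodule.mem_span_range_iff_exists_fun ℝ).1 h4
  have h6 : (V * jet γ (n - i) y).det ≠ 0 := by
    intro h0
    apply hW
    have h7 := lf_cm (wf (n - i) γ y) V
    have h8 := lf_prod (jet γ (n - i) y) V
    rw [Wr, h7]
    have h9 : lf (wf (n - i) γ y) V = (V * jet γ (n - i) y).det := by
      rw [← h8]
      rfl
    rw [h9, h0]
    exact Complex.ofReal_zero
  have h7 : (V * jet γ (n - i) y).mulVec c = 0 := by
    funext a
    rw [Pi.zero_apply, ← h3 a, ← hc]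
    simp only [Matrix.mulVec, dotProduct, Matrix.mul_apply, jet, Matrix.of_apply, Finset.sum_apply,
      Pi.smul_apply, smul_eq_mul, Finset.sum_mul, Finset.mul_sum]
    rw [Finset.sum_comm]
    refine Finset.sum_congr rfl fun j _ => Finset.sum_congr rfl fun b _ => by ring
  have h8 : c = 0 := Matrix.eq_zero_of_mulVec_eq_zero h6 h7
  rw [← hc, h8]
  simp

/-- a common transversal point in an open interval. -/
theorem exists_transv {n : ℕ} {γ : ℝ → Fin n → ℝ} (hγ : Nice γ) (X : Set ℝ) (hX : X.Finite)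
    (S : Set ℝ) (hS : S.Finite) {a b : ℝ} (ha : 0 ≤ a) (hb : b ≤ Real.pi) (hab : a < b) :
    ∃ y ∈ Set.Ioo a b, y ∉ S ∧ ∀ x ∈ X, Transv γ x y := by
  have h1 : (S ∪ ⋃ x ∈ X, {y ∈ Set.Icc 0 Real.pi | ¬ Transv γ x y}).Finite :=
    hS.union (hX.biUnion fun x _ => S3 hγ x)
  obtain ⟨y, hy1, hy2⟩ := (Set.Ioo_infinite hab).exists_notMem_finite h1
  refine ⟨y, hy1, fun h => hy2 (Or.inl h), fun x hx => ?_⟩
  by_contra hT
  apply hy2
  right
  rw [Set.mem_iUnion₂]
  exact ⟨x, hx, ⟨ha.trans hy1.1.le, hy1.2.le.trans hb⟩, hT⟩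

end GTC
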