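import Pool.Agent.GTR.OAn

/-!
# GTR OWr : the Wronskian function, its derivatives, and (S1)
-/

set_option autoImplicit false

open Matrix Module Filter Topology

namespace GTC

/-! ### smooth functions of one real variable -/

theorem iteratedDeriv_clm {E F : Type*} [NormedAddCommGroup E] [NormedSpace ℝ E]
    [NormedAddCommGroup F] [NormedSpace ℝ F] (L : E →L[ℝ] F) {f : ℝ → E}
    (hf : ContDiff ℝ (⊤ : ℕ∞) f) (j : ℕ) (x : ℝ) :
    iteratedDeriv j (fun y => L (f y)) x = L (iteratedDeriv j f x) := by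
  induction j generalizing x with
  | zero => simp [iteratedDeriv_zero]
  | succ j ih =>
    rw [iteratedDeriv_succ, iteratedDeriv_succ, funext ih]
    have h1 : DifferentiableAt ℝ (iteratedDeriv j f) x :=
      (hf.differentiable_iteratedDeriv j (by exact_mod_cast ENat.coe_lt_top j)).differentiableAt
    exact (L.hasFDerivAt.comp_hasDerivAt x h1.hasDerivAt).deriv

theorem contDiff_iter {E : Type*} [NormedAddCommGroup E] [NormedSpace ℝ E] {f : ℝ → E}
    (hf : ContDiff ℝ (⊤ : ℕ∞) f) (j : ℕ) : ContDiff ℝ (⊤ : ℕ∞) (iteratedDeriv j f) := by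
  rw [contDiff_infty]
  intro m
  exact (contDiff_infty.1 hf (m + j)).iterate_deriv' m j |> fun h => by
    rwa [← iteratedDeriv_eq_iterate] at h

/-- Taylor's theorem at a zero of order at least `m`. -/
theorem peano {f : ℝ → ℂ} (hf : ContDiff ℝ (⊤ : ℕ∞) f) (x : ℝ) (m : ℕ)
    (h : ∀ j < m, iteratedDeriv j f x = 0) :
    Tendsto (fun y => ((y - x) ^ m)⁻¹ • f y) (𝓝[≠] x)
      (𝓝 (((m.factorial : ℝ))⁻¹ • iteratedDeriv m f x)) := by
  have h1 := taylor_tendsto (n := m) convex_univ (Set.mem_univ x)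
    ((contDiff_infty.1 hf m).contDiffOn)
  rw [nhdsWithin_univ] at h1
  have h2 := h1.mono_left (nhdsWithin_le_nhds (s := {x}ᶜ))
  have h3 : ∀ y, taylorWithinEval f m Set.univ x y =
      ((m.factorial : ℝ)⁻¹ * (y - x) ^ m) • iteratedDeriv m f x := by
    intro y
    rw [taylor_within_apply, Finset.sum_range_succ, Finset.sum_eq_zero, zero_add,
      iteratedDerivWithin_univ]
    intro j hj
    rw [iteratedDerivWithin_univ, h j (Finset.mem_range.1 hj), smul_zero]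
  have h4 : Tendsto (fun y => ((y - x) ^ m)⁻¹ • (f y - taylorWithinEval f m Set.univ x y) +
      ((m.factorial : ℝ))⁻¹ • iteratedDeriv m f x) (𝓝[≠] x)
      (𝓝 (0 + ((m.factorial : ℝ))⁻¹ • iteratedDeriv m f x)) := h2.add tendsto_const_nhds
  rw [zero_add] at h4
  refine h4.congr' ?_
  filter_upwards [self_mem_nhdsWithin] with y hy
  have hy' : (y - x) ^ m ≠ 0 := pow_ne_zero _ (sub_ne_zero.2 hy)
  rw [h3 y, smul_sub, smul_smul, mul_comm ((m.factorial : ℝ)⁻¹) ((y - x) ^ m), ← mul_assoc,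
    inv_mul_cancel₀ hy', one_mul]
  abel

theorem order_of_tendsto {f : ℝ → ℂ} (hf : ContDiff ℝ (⊤ : ℕ∞) f) (x : ℝ) (m : ℕ) (c : ℂ)
    (hc : c ≠ 0) (h : Tendsto (fun y => ((y - x) ^ m)⁻¹ • f y) (𝓝[≠] x) (𝓝 c)) :
    (∀ j < m, iteratedDeriv j f x = 0) ∧ iteratedDeriv m f x ≠ 0 := by
  have h1 : ∀ j < m, iteratedDeriv j f x = 0 := by
    intro j
    induction j using Nat.strong_induction_on with
    | _ j ih =>
      intro hj
      have h2 := peano hf x j (fun i hi => ih i hi (hi.trans hj))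
      have h3 : Tendsto (fun y => (y - x) ^ (m - j) • (((y - x) ^ m)⁻¹ • f y)) (𝓝[≠] x)
          (𝓝 ((0 : ℝ) • c)) := by
        refine Tendsto.smul ?_ h
        have h4 : Tendsto (fun y : ℝ => (y - x) ^ (m - j)) (𝓝 x) (𝓝 ((x - x) ^ (m - j))) :=
          (Continuous.tendsto (by fun_prop) x)
        rw [sub_self, zero_pow (by omega)] at h4
        exact h4.mono_left nhdsWithin_le_nhds
      rw [zero_smul] at h3
      have h5 : Tendsto (fun y => ((y - x) ^ j)⁻¹ • f y) (𝓝[≠] x) (𝓝 0) := by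
        refine h3.congr' ?_
        filter_upwards [self_mem_nhdsWithin] with y hy
        have hy' : (y - x) ≠ 0 := sub_ne_zero.2 hy
        rw [smul_smul]
        congr 1
        have : (y - x) ^ m = (y - x) ^ (m - j) * (y - x) ^ j := by
          rw [← pow_add]
          congr 1
          omega
        rw [this]
        field_simp
      have h6 := tendsto_nhds_unique h2 h5
      rcases smul_eq_zero.1 h6 with h7 | h7
      · exact absurd h7 (inv_ne_zero (by exact_mod_cast j.factorial_ne_zero))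
      · exact h7
  refine ⟨h1, ?_⟩
  intro h0
  have h2 := peano hf x m h1
  rw [h0, smul_zero] at h2
  exact hc (tendsto_nhds_unique h h2)

/-! ### the Wronskian -/

/-- `W_u(y)`. -/
noncomputable def Wr {n : ℕ} (k : ℕ) (γ : ℝ → Fin n → ℝ) (u : Matrix (Fin k) (Fin n) ℂ) (y : ℝ) :
    ℂ := lf (cc (wf k γ y)) u

theorem Wr_det {k n : ℕ} (γ : ℝ → Fin n → ℝ) (u : Matrix (Fin k) (Fin n) ℂ) (y : ℝ) :
    Wr k γ u y = (Matrix.of fun a b : Fin k => dv γ y b (u a)).det := by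
  have h := lf_prod (Matrix.of fun (j : Fin n) (b : Fin k) =>
    ((iteratedDeriv (b : ℕ) γ y j : ℝ) : ℂ)) u
  have h1 : (u * (Matrix.of fun (j : Fin n) (b : Fin k) =>
      ((iteratedDeriv (b : ℕ) γ y j : ℝ) : ℂ))) = (Matrix.of fun a b : Fin k => dv γ y b (u a)) := by
    ext a b
    rw [Matrix.mul_apply]
    simp only [Matrix.of_apply, dv_apply]
  rw [h1] at h
  rw [← h, Wr]
  congr 1
  funext t
  simp [cc, wf]

/-- the continuous linear map `c ↦ lf (cc c) u`. -/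
noncomputable def lfL {k n : ℕ} (u : Matrix (Fin k) (Fin n) ℂ) : Cf ℝ k n →L[ℝ] ℂ :=
  LinearMap.toContinuousLinearMap
    { toFun := fun c => lf (cc c) u
      map_add' := by
        intro c c'
        simp only [lf, cc, Pi.add_apply, Complex.ofReal_add, add_mul, Finset.sum_add_distrib]
      map_smul' := by
        intro r c
        simp only [lf, cc, Pi.smul_apply, smul_eq_mul, Complex.ofReal_mul, RingHom.id_apply,
          Complex.real_smul, Finset.mul_sum, mul_assoc] }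

theorem lfL_apply {k n : ℕ} (u : Matrix (Fin k) (Fin n) ℂ) (c : Cf ℝ k n) :
    lfL u c = lf (cc c) u := rfl

theorem wf_smooth {k n : ℕ} {γ : ℝ → Fin n → ℝ} (hγ : ContDiff ℝ (⊤ : ℕ∞) γ) :
    ContDiff ℝ (⊤ : ℕ∞) (wf k γ) := by
  rw [contDiff_pi]
  intro t
  change ContDiff ℝ (⊤ : ℕ∞) (fun y => ∏ a : Fin k, iteratedDeriv (a : ℕ) γ y (t a))
  apply contDiff_prod
  intro a _
  exact (contDiff_pi.1 (contDiff_iter hγ a)) (t a)

theorem Wr_smooth {k n : ℕ} {γ : ℝ → Fin n → ℝ} (hγ : ContDiff ℝ (⊤ : ℕ∞) γ)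
    (u : Matrix (Fin k) (Fin n) ℂ) : ContDiff ℝ (⊤ : ℕ∞) (Wr k γ u) :=
  (lfL u).contDiff.comp (wf_smooth hγ)

theorem Wr_iter {k n : ℕ} {γ : ℝ → Fin n → ℝ} (hγ : ContDiff ℝ (⊤ : ℕ∞) γ)
    (u : Matrix (Fin k) (Fin n) ℂ) (j : ℕ) (x : ℝ) :
    iteratedDeriv j (Wr k γ u) x = lf (cc (pf k γ x j)) u :=
  iteratedDeriv_clm (lfL u) (wf_smooth hγ) j x

/-- `IsOrd` in terms of the derivatives of the Wronskian. -/
theorem isOrd_iff {k n : ℕ} {γ : ℝ → Fin n → ℝ} (hγ : ContDiff ℝ (⊤ : ℕ∞) γ)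
    (u : Matrix (Fin k) (Fin n) ℂ) (x : ℝ) (m : ℕ) :
    IsOrd k γ u x m ↔ (∀ j < m, iteratedDeriv j (Wr k γ u) x = 0) ∧
      iteratedDeriv m (Wr k γ u) x ≠ 0 := by
  unfold IsOrd
  simp only [Wr_iter hγ]

theorem isOrd_tendsto {k n : ℕ} {γ : ℝ → Fin n → ℝ} (hγ : ContDiff ℝ (⊤ : ℕ∞) γ)
    {u : Matrix (Fin k) (Fin n) ℂ} {x : ℝ} {m : ℕ} (h : IsOrd k γ u x m) :
    ∃ c : ℂ, c ≠ 0 ∧ Tendsto (fun y => ((y - x) ^ m)⁻¹ • Wr k γ u y) (𝓝[≠] x) (𝓝 c) := by
  obtain ⟨h1, h2⟩ := (isOrd_iff hγ u x m).1 h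
  exact ⟨_, smul_ne_zero (inv_ne_zero (by exact_mod_cast m.factorial_ne_zero)) h2,
    peano (Wr_smooth hγ u) x m h1⟩

theorem isOrd_unique {k n : ℕ} {γ : ℝ → Fin n → ℝ} {u : Matrix (Fin k) (Fin n) ℂ} {x : ℝ}
    {m m' : ℕ} (h : IsOrd k γ u x m) (h' : IsOrd k γ u x m') : m = m' := by
  rcases lt_trichotomy m m' with hlt | heq | hgt
  · exact absurd (h'.1 m hlt) h.2
  · exact heq
  · exact absurd (h.1 m' hgt) h'.2

theorem isOrd_le {k n : ℕ} {γ : ℝ → Fin n → ℝ} {u : Matrix (Fin k) (Fin n) ℂ} {x : ℝ}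
    {m c : ℕ} (h : IsOrd k γ u x m) (hc : ∀ j < c, lf (cc (pf k γ x j)) u = 0) : c ≤ m := by
  by_contra hlt
  exact h.2 (hc m (not_le.1 hlt))

theorem isOrd_mul {k n : ℕ} {γ : ℝ → Fin n → ℝ} (g : Matrix (Fin k) (Fin k) ℂ) (hg : g.det ≠ 0)
    {u : Matrix (Fin k) (Fin n) ℂ} {x : ℝ} {m : ℕ} :
    IsOrd k γ (g * u) x m ↔ IsOrd k γ u x m := by
  unfold IsOrd
  simp only [lf_mul, mul_eq_zero, hg, false_or, ne_eq]

/-! ### (S1) -/

theorem dv_iter {n : ℕ} {γ : ℝ → Fin n → ℝ} (hγ : ContDiff ℝ (⊤ : ℕ∞) γ) (v : Fin n → ℂ)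
    (b j : ℕ) (x : ℝ) : iteratedDeriv j (fun y => dv γ y b v) x = dv γ x (b + j) v := by
  let L : (Fin n → ℝ) →L[ℝ] ℂ := LinearMap.toContinuousLinearMap
    { toFun := fun w => ∑ i, v i * ((w i : ℝ) : ℂ)
      map_add' := by
        intro w w'
        simp only [Pi.add_apply, Complex.ofReal_add, mul_add, Finset.sum_add_distrib]
      map_smul' := by
        intro r w
        simp only [Pi.smul_apply, smul_eq_mul, Complex.ofReal_mul, RingHom.id_apply,
          Complex.real_smul, Finset.mul_sum]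
        refine Finset.sum_congr rfl fun i _ => by ring }
  have h1 : (fun y => dv γ y b v) = fun y => L (iteratedDeriv b γ y) := by
    funext y
    exact dv_apply γ y b v
  rw [h1, iteratedDeriv_clm L (contDiff_iter hγ b)]
  have h2 : iteratedDeriv j (iteratedDeriv b γ) x = iteratedDeriv (b + j) γ x := by
    rw [iteratedDeriv_eq_iterate, iteratedDeriv_eq_iterate, iteratedDeriv_eq_iterate,
      add_comm b j, Function.iterate_add_apply]
  rw [h2, dv_apply]
  rfl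

theorem dv_smooth {n : ℕ} {γ : ℝ → Fin n → ℝ} (hγ : ContDiff ℝ (⊤ : ℕ∞) γ) (v : Fin n → ℂ)
    (b : ℕ) : ContDiff ℝ (⊤ : ℕ∞) (fun y => dv γ y b v) := by
  have h1 : (fun y => dv γ y b v) = fun y => ∑ j, v j * ((iteratedDeriv b γ y j : ℝ) : ℂ) := by
    funext y
    exact dv_apply γ y b v
  rw [h1]
  apply ContDiff.sum
  intro j _
  apply ContDiff.mul contDiff_const
  exact Complex.ofRealCLM.contDiff.comp ((contDiff_pi.1 (contDiff_iter hγ b)) j)

/-- asymptotics of the entries. -/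
theorem entry_tendsto {n : ℕ} {γ : ℝ → Fin n → ℝ} (hγ : ContDiff ℝ (⊤ : ℕ∞) γ) (v : Fin n → ℂ)
    (x : ℝ) (d : ℕ) (h : ∀ b < d, dv γ x b v = 0) (b : ℕ) :
    Tendsto (fun y => ((y - x) ^ ((b : ℤ) - d)) • dv γ y b v) (𝓝[≠] x)
      (𝓝 (((d.factorial : ℝ)⁻¹ • dv γ x d v) * (d.descFactorial b : ℂ))) := by
  rcases le_or_gt b d with hb | hb
  · have h1 := peano (dv_smooth hγ v b) x (d - b) (fun j hj => by
      rw [dv_iter hγ]
      exact h _ (by omega))
    rw [dv_iter hγ, show b + (d - b) = d by omega] at h1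
    have h2 : (((d - b).factorial : ℝ)⁻¹ • dv γ x d v) =
        (((d.factorial : ℝ)⁻¹ • dv γ x d v) * (d.descFactorial b : ℂ)) := by
      have h3 : (d - b).factorial * d.descFactorial b = d.factorial :=
        Nat.factorial_mul_descFactorial hb
      have h4 : (((d - b).factorial : ℕ) : ℂ) ≠ 0 := by exact_mod_cast (d - b).factorial_ne_zero
      have h5 : ((d.descFactorial b : ℕ) : ℂ) ≠ 0 := by
        intro h0
        have h0' : d.descFactorial b = 0 := by exact_mod_cast h0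
        rw [h0', mul_zero] at h3
        exact d.factorial_ne_zero h3.symm
      rw [← h3]
      simp only [Complex.real_smul]
      push_cast
      field_simp
    rw [← h2]
    refine h1.congr' ?_
    filter_upwards [self_mem_nhdsWithin] with y _
    congr 1
    rw [show (b : ℤ) - d = -((d - b : ℕ) : ℤ) by push_cast [hb]; ring, _root_.zpow_neg, zpow_natCast]
  · have h1 : d.descFactorial b = 0 := Nat.descFactorial_eq_zero_iff_lt.2 hb
    rw [h1]
    have h2 : Tendsto (fun y => ((y - x) ^ (b - d)) • dv γ y b v) (𝓝 x)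
        (𝓝 (((x - x) ^ (b - d)) • dv γ x b v)) := by
      exact Continuous.tendsto ((((continuous_id.sub continuous_const).pow (b - d))).smul
        (dv_smooth hγ v b).continuous) x
    rw [sub_self, zero_pow (by omega), zero_smul] at h2
    have h3 := h2.mono_left (nhdsWithin_le_nhds (s := {x}ᶜ))
    simp only [Nat.cast_zero, mul_zero]
    refine h3.congr' ?_
    filter_upwards [self_mem_nhdsWithin] with y _
    congr 1
    rw [show (b : ℤ) - d = ((b - d : ℕ) : ℤ) by push_cast [hb.le]; ring, zpow_natCast]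

theorem det_desc_ne {k : ℕ} (d : Fin k → ℕ) (hd : StrictMono d) :
    (Matrix.of fun a b : Fin k => (((d a).descFactorial (b : ℕ) : ℕ) : ℂ)).det ≠ 0 := by
  have h1 := Matrix.det_eval_matrixOfPolynomials_eq_det_vandermonde
    (fun a : Fin k => ((d a : ℕ) : ℂ)) (fun b : Fin k => descPochhammer ℂ (b : ℕ))
    (fun b => descPochhammer_natDegree ℂ (b : ℕ)) (fun b => monic_descPochhammer ℂ (b : ℕ))
  have h2 : (Matrix.of fun a b : Fin k => (((d a).descFactorial (b : ℕ) : ℕ) : ℂ)) =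
      Matrix.of (fun a b : Fin k => (descPochhammer ℂ (b : ℕ)).eval ((d a : ℕ) : ℂ)) := by
    ext a b
    simp only [Matrix.of_apply]
    rw [descPochhammer_eval_eq_descFactorial]
  rw [h2, ← h1, Matrix.det_vandermonde_ne_zero_iff]
  intro a b hab
  exact hd.injective (Nat.cast_injective (R := ℂ) hab)

theorem wr_tendsto {k n : ℕ} {γ : ℝ → Fin n → ℝ} (hγ : ContDiff ℝ (⊤ : ℕ∞) γ)
    (u : Matrix (Fin k) (Fin n) ℂ) (x : ℝ) (d : Fin k → ℕ) (hd : StrictMono d)
    (h0 : ∀ a, ∀ b < d a, dv γ x b (u a) = 0) (h1 : ∀ a, dv γ x (d a) (u a) ≠ 0) :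
    ∃ m : ℕ, m + ∑ a : Fin k, (a : ℕ) = ∑ a, d a ∧ ∃ c : ℂ, c ≠ 0 ∧
      Tendsto (fun y => ((y - x) ^ m)⁻¹ • Wr k γ u y) (𝓝[≠] x) (𝓝 c) := by
  have hle : ∑ a : Fin k, (a : ℕ) ≤ ∑ a, d a := by
    refine Finset.sum_le_sum fun a _ => ?_
    have : ∀ m : ℕ, ∀ hm : m < k, m ≤ d ⟨m, hm⟩ := by
      intro m
      induction m with
      | zero => intro _; exact Nat.zero_le _
      | succ m ih =>
        intro hm
        have h2 := ih (by omega)
        have h3 : d ⟨m, by omega⟩ < d ⟨m + 1, hm⟩ := hd (by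
          rw [Fin.lt_def]
          exact Nat.lt_succ_self m)
        omega
    exact this a a.2
  obtain ⟨m, hm⟩ : ∃ m, m + ∑ a : Fin k, (a : ℕ) = ∑ a, d a :=
    ⟨∑ a, d a - ∑ a : Fin k, (a : ℕ), Nat.sub_add_cancel hle⟩
  refine ⟨m, hm, ?_⟩
  -- the limit matrix
  set C : Fin k → ℂ := fun a => (((d a).factorial : ℝ)⁻¹ • dv γ x (d a) (u a)) with hC
  have hC0 : ∀ a, C a ≠ 0 := fun a =>
    smul_ne_zero (inv_ne_zero (by exact_mod_cast (d a).factorial_ne_zero)) (h1 a)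
  refine ⟨(Matrix.of fun a b : Fin k => C a * (((d a).descFactorial (b : ℕ) : ℕ) : ℂ)).det, ?_, ?_⟩
  · have h2 : (Matrix.of fun a b : Fin k => C a * (((d a).descFactorial (b : ℕ) : ℕ) : ℂ)) =
        Matrix.of fun a b : Fin k => C a * (Matrix.of fun a b : Fin k =>
          (((d a).descFactorial (b : ℕ) : ℕ) : ℂ)) a b := rfl
    rw [h2, Matrix.det_mul_column]
    exact mul_ne_zero (Finset.prod_ne_zero_iff.2 fun a _ => hC0 a) (det_desc_ne d hd)
  · have h2 : Tendsto (fun y => (Matrix.of fun a b : Fin k =>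
        ((y - x) ^ (((b : ℕ) : ℤ) - d a)) • dv γ y b (u a)).det) (𝓝[≠] x)
        (𝓝 (Matrix.of fun a b : Fin k => C a * (((d a).descFactorial (b : ℕ) : ℕ) : ℂ)).det) := by
      have h3 : Tendsto (fun y => (Matrix.of fun a b : Fin k =>
          ((y - x) ^ (((b : ℕ) : ℤ) - d a)) • dv γ y b (u a))) (𝓝[≠] x)
          (𝓝 (Matrix.of fun a b : Fin k => C a * (((d a).descFactorial (b : ℕ) : ℕ) : ℂ))) := by
        exact tendsto_pi_nhds.2 fun a => tendsto_pi_nhds.2 fun b =>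
          entry_tendsto hγ (u a) x (d a) (h0 a) b
      exact (Continuous.tendsto (Continuous.matrix_det continuous_id) _).comp h3
    refine h2.congr' ?_
    filter_upwards [self_mem_nhdsWithin] with y hy
    have hy' : (y - x) ≠ 0 := sub_ne_zero.2 hy
    have hyc : ((y - x : ℝ) : ℂ) ≠ 0 := by exact_mod_cast hy'
    rw [Wr_det]
    have h3 : (Matrix.of fun a b : Fin k =>
        ((y - x) ^ (((b : ℕ) : ℤ) - d a)) • dv γ y b (u a)) =
        Matrix.of fun a b : Fin k => ((y - x : ℝ) : ℂ) ^ (-(d a : ℤ)) *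
          (Matrix.of fun a b : Fin k => ((y - x : ℝ) : ℂ) ^ (b : ℕ) *
            (Matrix.of fun a b : Fin k => dv γ y b (u a)) a b) a b := by
      ext a b
      simp only [Matrix.of_apply]
      rw [Complex.real_smul, show (((b : ℕ) : ℤ) - d a) = -(d a : ℤ) + ((b : ℕ) : ℤ) by ring,
        zpow_add₀ hy', zpow_natCast]
      push_cast
      ring
    rw [h3, Matrix.det_mul_column, Matrix.det_mul_row, Complex.real_smul, ← mul_assoc]
    congr 1
    rw [Finset.prod_pow_eq_pow_sum]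
    have h4 : ∏ a : Fin k, ((y - x : ℝ) : ℂ) ^ (-(d a : ℤ)) =
        (((y - x : ℝ) : ℂ) ^ (∑ a, d a))⁻¹ := by
      rw [← Finset.prod_pow_eq_pow_sum, ← Finset.prod_inv_distrib]
      refine Finset.prod_congr rfl fun a _ => ?_
      rw [_root_.zpow_neg, zpow_natCast]
    rw [h4, ← hm, pow_add]
    have hyc2 : ((y : ℝ) : ℂ) - ((x : ℝ) : ℂ) ≠ 0 := by
      rw [← Complex.ofReal_sub]
      exact hyc
    push_cast
    field_simp

theorem S1 {k n : ℕ} {γ : ℝ → Fin n → ℝ} (hγ : Nice γ) (u : Matrix (Fin k) (Fin n) ℂ) (hu : FR u)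
    (x : ℝ) : ∃ d : Fin k → Fin n, StrictMono d ∧ ∃ m, IsOrd k γ u x m ∧
      m + ∑ a : Fin k, (a : ℕ) = ∑ a, (d a : ℕ) ∧
      ∀ i ≤ n, finrank ℂ (rs u ⊓ An γ i x : Submodule ℂ (Fin n → ℂ)) =
        (Finset.univ.filter (fun a : Fin k => i ≤ (d a : ℕ))).card := by
  obtain ⟨d, g, hd, hg, h0, h1, h2⟩ := adapted (hγ.indep x) u hu
  obtain ⟨m, hm, c, hc, hlim⟩ := wr_tendsto hγ.smooth (g * u) x (fun a => (d a : ℕ))
    (fun a b hab => hd hab) h0 h1
  refine ⟨d, hd, m, ?_, hm, h2⟩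
  rw [← isOrd_mul g hg, isOrd_iff hγ.smooth]
  exact order_of_tendsto (Wr_smooth hγ.smooth (g * u)) x m c hc hlim

end GTC
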