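import Pool.Agent.GTR.Ordf

/-!
# GTR OrdCor : bounds for the order; the point of maximal order

PROOFS.  Put `r_i = rank (u * cm (jet γ i x))`, `D_i = k - r_i = dim (L ∩ Ann F_i)`, `L` the row space.
* `rank_ge`: `cm (jet γ i x)` has rank `i` (`i ≤ n`, columns of an invertible matrix), its left kernel has
  dimension `n - i`, so `D_i ≤ n - i`; that is `k ≤ r_i + (n - i)`; also `D_i ≤ k`.
* `ord_le`: `∑ i ∈ Ico 1 n, D_i ≤ ∑ i ∈ Ico 1 n, min k (n - i) = ∑ i ∈ Ico 1 n, min k i
  = k(k-1)/2 + k (n - k)` for `n = k + l`, `k ≥ 1`, `l ≥ 0`.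
* `ord_top`: if all conditions of order `< k l` hold then the order `m` (`ord_exists`) is `≥ k l`, so
  `= k l` and equality holds in all the inequalities; for `i = l` (`1 ≤ l ≤ n - 1`): `D_l = k`, so
  `u * cm (jet γ l x) = 0` (rank `0`): all rows of `u` are in the (complexified) annihilator of `F_l(x)`, which
  has dimension `n - l = k`; so `rs u` is this annihilator, which has a real basis `v` (the left kernel of
  the real matrix `jet γ l x` of rank `l`).
-/

set_option autoImplicit false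

open Matrix Real Set

namespace GTC

theorem rank_ge {k n : ℕ} {γ : ℝ → Fin n → ℝ} (x : ℝ)
    (hx : (jet γ n x).det ≠ 0) (u : Matrix (Fin k) (Fin n) ℂ) (hu : FR u) (i : ℕ) (hi : i ≤ n) :
    k ≤ (u * cm (jet γ i x)).rank + (n - i) := by
  have hdet : (cm (jet γ n x)).det = ((jet γ n x).det : ℂ) := by
    have h := RingHom.map_det Complex.ofRealHom (jet γ n x)
    exact h.symm
  have hJ : (cm (jet γ n x)).det ≠ 0 := by
    rw [hdet]
    exact_mod_cast hx
  have hA : FR (u * cm (jet γ n x)) := (fr_mul_right _ hJ u).2 hu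
  obtain ⟨g, d, hg, hd, h0, hne, hrank⟩ := echelon (u * cm (jet γ n x)) hA
  have h1 : u * cm (jet γ i x) = (u * cm (jet γ n x)).submatrix id (Fin.castLE hi) := by
    ext a b
    rfl
  rw [h1, hrank i hi]
  have h2 := Finset.card_filter_add_card_filter_not (s := (Finset.univ : Finset (Fin k)))
    (fun a => (d a : ℕ) < i)
  rw [Finset.card_univ, Fintype.card_fin] at h2
  have h3 : (Finset.univ.filter fun a : Fin k => ¬ (d a : ℕ) < i).card ≤ (Finset.Ico i n).card := by
    apply Finset.card_le_card_of_injOn (fun a => (d a : ℕ))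
    · intro a ha
      have ha2 : ¬ (d a : ℕ) < i := (Finset.mem_filter.1 ha).2
      rw [Finset.mem_coe, Finset.mem_Ico]
      exact ⟨not_lt.1 ha2, (d a).2⟩
    · intro a _ b _ hab
      exact hd.injective (Fin.ext hab)
  rw [Nat.card_Ico] at h3
  omega

private theorem tri_sum (k l : ℕ) (hk : 1 ≤ k) :
    ∑ i ∈ Finset.Ico (l + 1) (k + l), (k + l - i) = k * (k - 1) / 2 := by
  have h1 : ∑ i ∈ Finset.Ico (l + 1) (k + l), (k + l - i) = ∑ j ∈ Finset.range k, j := by
    obtain ⟨k', rfl⟩ : ∃ k', k = k' + 1 := ⟨k - 1, by omega⟩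
    rw [Finset.sum_Ico_eq_sum_range, Finset.sum_range_succ']
    rw [← Finset.sum_range_reflect (fun j => j + 1) k', add_zero]
    have h2 : k' + 1 + l - (l + 1) = k' := by omega
    rw [h2]
    refine Finset.sum_congr rfl fun j hj => ?_
    have := Finset.mem_range.1 hj
    omega
  rw [h1, Finset.sum_range_id]

private theorem sum_bd {k l : ℕ} (hk : 1 ≤ k) (D : ℕ → ℕ) (h1 : ∀ i ∈ Finset.Ico 1 (k + l), D i ≤ k)
    (h2 : ∀ i ∈ Finset.Ico 1 (k + l), D i ≤ k + l - i) :
    ∑ i ∈ Finset.Ico 1 (k + l), D i ≤ k * l + k * (k - 1) / 2 := by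
  rw [← Finset.sum_Ico_consecutive D (show 1 ≤ l + 1 by omega) (show l + 1 ≤ k + l by omega)]
  have h3 : ∑ i ∈ Finset.Ico 1 (l + 1), D i ≤ k * l := by
    have h4 : ∑ i ∈ Finset.Ico 1 (l + 1), D i ≤ ∑ _i ∈ Finset.Ico 1 (l + 1), k :=
      Finset.sum_le_sum fun i hi => h1 i (by
        rw [Finset.mem_Ico] at hi ⊢
        omega)
    rw [Finset.sum_const, Nat.card_Ico, smul_eq_mul] at h4
    have h5 : l + 1 - 1 = l := by omega
    rw [h5, mul_comm] at h4
    exact h4
  have h4 : ∑ i ∈ Finset.Ico (l + 1) (k + l), D i ≤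
      ∑ i ∈ Finset.Ico (l + 1) (k + l), (k + l - i) :=
    Finset.sum_le_sum fun i hi => h2 i (by
      rw [Finset.mem_Ico] at hi ⊢
      omega)
  rw [tri_sum k l hk] at h4
  omega

theorem ord_le {k l : ℕ} (hk : 1 ≤ k) {γ : ℝ → Fin (k + l) → ℝ} (hγ : ContDiff ℝ (⊤ : ℕ∞) γ)
    (x : ℝ) (hx : (jet γ (k + l) x).det ≠ 0) (u : Matrix (Fin k) (Fin (k + l)) ℂ) (hu : FR u)
    (m : ℕ) (hm : ∀ j < m, lf (cc (pf k γ x j)) u = 0) : m ≤ k * l := by
  obtain ⟨m', hm', hsum⟩ := ord_formula hγ x hx u hu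
  have h1 : m ≤ m' := by
    by_contra h
    exact hm'.2 (hm m' (not_le.1 h))
  have h2 := sum_bd (l := l) hk (fun i => k - (u * cm (jet γ i x)).rank)
    (fun i _ => Nat.sub_le _ _) (fun i hi => by
      have h3 := rank_ge x hx u hu i (Finset.mem_Ico.1 hi).2.le
      show k - (u * cm (jet γ i x)).rank ≤ k + l - i
      omega)
  rw [← hsum] at h2
  omega

private theorem rank_zero99 {k n : ℕ} (A : Matrix (Fin k) (Fin n) ℂ) (h : A.rank = 0) : A = 0 := by
  have h1 : LinearMap.range A.mulVecLin = ⊥ := Submodule.finrank_eq_zero.1 h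
  have h2 : A.mulVecLin = 0 := LinearMap.range_eq_bot.1 h1
  ext i j
  have h3 := congrFun (LinearMap.congr_fun h2 (Pi.single j 1)) i
  rw [Matrix.mulVecLin_apply, Matrix.mulVec_single_one] at h3
  exact h3

theorem ord_top {k l : ℕ} (hk : 1 ≤ k) (hl : 1 ≤ l) {γ : ℝ → Fin (k + l) → ℝ}
    (hγ : ContDiff ℝ (⊤ : ℕ∞) γ) (x : ℝ) (hx : (jet γ (k + l) x).det ≠ 0) :
    ∃ v : Matrix (Fin k) (Fin (k + l)) ℝ, FR v ∧ ∀ u : Matrix (Fin k) (Fin (k + l)) ℂ, FR u →
      (∀ j < k * l, lf (cc (pf k γ x j)) u = 0) → rs u = rs (cm v) := by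
  set J := jet γ (k + l) x with hJdef
  have hJu : IsUnit J.det := isUnit_iff_ne_zero.2 hx
  have hJJ : J * J⁻¹ = 1 := Matrix.mul_nonsing_inv J hJu
  have hinvdet : (J⁻¹).det ≠ 0 := by
    intro h
    have h2 := congrArg Matrix.det hJJ
    rw [Matrix.det_mul, h, mul_zero, Matrix.det_one] at h2
    exact zero_ne_one h2
  let e : Fin k → Fin (k + l) := fun a => ⟨l + a, by omega⟩
  have he : Function.Injective e := by
    intro a b hab
    have h1 : l + (a : ℕ) = l + (b : ℕ) := congrArg Fin.val hab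
    exact Fin.ext (by omega)
  let v : Matrix (Fin k) (Fin (k + l)) ℝ := (J⁻¹).submatrix e id
  have hv : FR v := by
    have h1 : LinearIndependent ℝ (fun a : Fin (k + l) => (J⁻¹) a) := by
      have h2 := Matrix.linearIndependent_rows_iff_isUnit (A := J⁻¹)
      exact h2.2 ((Matrix.isUnit_iff_isUnit_det _).2 (isUnit_iff_ne_zero.2 hinvdet))
    exact h1.comp e he
  refine ⟨v, hv, ?_⟩
  intro u hu hvan
  have hcv : FR (cm v) := (fr_cm v).2 hv
  -- the rank at `l` is zero
  obtain ⟨m', hm', hsum⟩ := ord_formula hγ x hx u hu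
  have h1 : k * l ≤ m' := by
    by_contra h
    exact hm'.2 (hvan m' (not_le.1 h))
  have hrk : (u * cm (jet γ l x)).rank = 0 := by
    by_contra hne
    have hlt : ∑ i ∈ Finset.Ico 1 (k + l), (k - (u * cm (jet γ i x)).rank) <
        ∑ i ∈ Finset.Ico 1 (k + l), (if i = l then k else k - (u * cm (jet γ i x)).rank) := by
      apply Finset.sum_lt_sum
      · intro i _
        split_ifs
        · exact Nat.sub_le _ _
        · exact le_refl _
      · refine ⟨l, ?_, ?_⟩
        · rw [Finset.mem_Ico]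
          omega
        · rw [if_pos rfl]
          omega
    have h2 := sum_bd (l := l) hk (fun i => if i = l then k else k - (u * cm (jet γ i x)).rank)
      (fun i _ => by
        show (if i = l then k else k - (u * cm (jet γ i x)).rank) ≤ k
        split_ifs
        · exact le_refl _
        · exact Nat.sub_le _ _)
      (fun i hi => by
        have h3 := rank_ge x hx u hu i (Finset.mem_Ico.1 hi).2.le
        show (if i = l then k else k - (u * cm (jet γ i x)).rank) ≤ k + l - i
        split_ifs with hil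
        · omega
        · omega)
    omega
  have hz : u * cm (jet γ l x) = 0 := rank_zero99 _ hrk
  have hle : rs u ≤ rs (cm v) := by
    unfold rs
    rw [Submodule.span_le]
    rintro _ ⟨a, rfl⟩
    have hJC : cm J * cm (J⁻¹) = 1 := by
      have h2 : cm J * cm (J⁻¹) = cm (J * J⁻¹) := by
        ext i j
        simp only [cm, Matrix.mul_apply, Matrix.map_apply]
        push_cast
        rfl
      rw [h2, hJJ]
      ext i j
      by_cases hij : i = j
      · subst hij
        simp [cm]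
      · simp [cm, hij]
    have h2 : u a = ∑ c : Fin (k + l), (u * cm J) a c • (cm (J⁻¹)) c := by
      have h3 : u = (u * cm J) * cm (J⁻¹) := by
        rw [Matrix.mul_assoc, hJC, Matrix.mul_one]
      funext j
      conv_lhs => rw [h3]
      rw [Matrix.mul_apply, Finset.sum_apply]
      rfl
    show u a ∈ Submodule.span ℂ (Set.range fun b : Fin k => (cm v) b)
    rw [h2]
    refine Submodule.sum_mem _ fun c _ => ?_
    rcases lt_or_ge (c : ℕ) l with hc | hc
    · have h3 : (u * cm J) a c = (u * cm (jet γ l x)) a ⟨c, hc⟩ := rfl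
      rw [h3, hz, Matrix.zero_apply, zero_smul]
      exact Submodule.zero_mem _
    · refine Submodule.smul_mem _ _ (Submodule.subset_span ⟨⟨(c : ℕ) - l, by omega⟩, ?_⟩)
      have h4 : e ⟨(c : ℕ) - l, by omega⟩ = c := by
        apply Fin.ext
        show l + ((c : ℕ) - l) = c
        omega
      show (cm v) ⟨(c : ℕ) - l, by omega⟩ = (cm (J⁻¹)) c
      funext j
      show (((J⁻¹) (e ⟨(c : ℕ) - l, by omega⟩) j : ℝ) : ℂ) = (((J⁻¹) c j : ℝ) : ℂ)
      rw [h4]
  apply Submodule.eq_of_le_of_finrank_eq hle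
  unfold rs
  rw [finrank_span_eq_card hu, finrank_span_eq_card hcv]

end GTC
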