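import Mathlib

/-!
# GTR Wro : the order of a Wronskian

`EO f x d`: the smooth function `f : ℝ → ℂ` vanishes at `x` exactly to order `d`.

PROOFS.
* `eo_tendsto`: Taylor's formula for `iteratedDeriv b f` at `x` (Peano or Lagrange/integral form; `f` is
  smooth, complex valued): all derivatives of order `< d` vanish at `x`.  If `b ≤ d`:
  `iteratedDeriv b f (x + y) = y^(d-b) / (d-b)! * iteratedDeriv d f x + o (y^(d-b))`, and
  `d.descFactorial b / d! = 1 / (d-b)!`.  If `b > d`: `y^b / y^d → 0`, `iteratedDeriv b f` is bounded near `x`, and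
  `d.descFactorial b = 0`.
* `eo_of_tendsto`: let `j` be minimal with `iteratedDeriv j f x ≠ 0`, `j ≤ d` (if all derivatives of order
  `≤ d` vanish then `f (x+y) / y^d → 0` by `eo_tendsto` with `b = 0`, contradiction to `c ≠ 0`); by
  `eo_tendsto` (`b = 0`, `d := j`) `f (x+y) / y^j → nonzero`; if `j < d` then
  `f(x+y)/y^j = (f(x+y)/y^d) y^(d-j) → 0`: contradiction.  So `j = d`.
* `wr_order`: for `y ≠ 0`
  `det (iteratedDeriv b (f a) (x+y)) * ∏ b, y^b / ∏ a, y^(d a) = det (y^b iteratedDeriv b (f a) (x+y) / y^(d a))`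
  which tends to `det ((d a).descFactorial b * iteratedDeriv (d a) (f a) x / (d a)!)
  = ∏ a, (iteratedDeriv (d a) (f a) x / (d a)!) * det ((d a).descFactorial b)`, and the last determinant is
  the Vandermonde determinant of `d` (`descFactorial b` is a monic polynomial of degree `b` in `d`:
  `Matrix.det_eval_matrixOfPolynomials_eq_det_vandermonde` / `descPochhammer`; or
  `Matrix.det_vandermonde`), nonzero since `d` is injective.  `∏ b : Fin k, y^b = y^(k(k-1)/2)`.
  `k (k-1) / 2 ≤ ∑ a, d a` because the `d a` are distinct.  So `W (x+y) / y^D → c ≠ 0`,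
  `D = ∑ d a - k(k-1)/2`, and `eo_of_tendsto` applies (`W` is smooth).
-/

set_option autoImplicit false

open Topology Filter

namespace GTC

/-- exact order of vanishing. -/
def EO (f : ℝ → ℂ) (x : ℝ) (d : ℕ) : Prop :=
  (∀ j < d, iteratedDeriv j f x = 0) ∧ iteratedDeriv d f x ≠ 0

/-! ### Auxiliary lemmas -/

private theorem tend_add (x : ℝ) : Tendsto (fun y : ℝ => x + y) (𝓝[≠] 0) (𝓝 x) := by
  have h : Tendsto (fun y : ℝ => x + y) (𝓝 0) (𝓝 (x + 0)) := tendsto_const_nhds.add tendsto_id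
  rw [add_zero] at h
  exact h.mono_left nhdsWithin_le_nhds

private theorem ne_ev : ∀ᶠ y : ℝ in 𝓝[≠] 0, (y : ℂ) ≠ 0 := by
  filter_upwards [self_mem_nhdsWithin] with y hy
  exact Complex.ofReal_ne_zero.2 hy

private theorem pow_tend {m : ℕ} (hm : 0 < m) :
    Tendsto (fun y : ℝ => (y : ℂ) ^ m) (𝓝[≠] 0) (𝓝 0) := by
  have h : Continuous fun y : ℝ => (y : ℂ) ^ m := Complex.continuous_ofReal.pow m
  have h1 := (h.tendsto 0).mono_left (nhdsWithin_le_nhds (s := {(0 : ℝ)}ᶜ))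
  rwa [Complex.ofReal_zero, zero_pow hm.ne'] at h1

private theorem taylor_lim (f : ℝ → ℂ) (hf : ContDiff ℝ (⊤ : ℕ∞) f) (x : ℝ) (n : ℕ)
    (h : ∀ j < n, iteratedDeriv j f x = 0) :
    Tendsto (fun y : ℝ => f (x + y) / (y : ℂ) ^ n) (𝓝[≠] 0)
      (𝓝 (iteratedDeriv n f x / (n.factorial : ℂ))) := by
  have h1 := taylor_tendsto (f := f) (x₀ := x) (n := n) convex_univ (Set.mem_univ x)
    (hf.of_le (by exact_mod_cast le_top)).contDiffOn
  rw [nhdsWithin_univ] at h1
  have h2 := (h1.comp (tend_add x)).add_const (iteratedDeriv n f x / (n.factorial : ℂ))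
  rw [zero_add] at h2
  refine h2.congr' ?_
  filter_upwards [ne_ev] with y hy
  have h3 : taylorWithinEval f n Set.univ x (x + y) =
      (y : ℂ) ^ n * (iteratedDeriv n f x / (n.factorial : ℂ)) := by
    rw [taylor_within_apply, Finset.sum_range_succ, Finset.sum_eq_zero, zero_add,
      iteratedDerivWithin_univ, add_sub_cancel_left, Complex.real_smul]
    · push_cast
      ring
    · intro j hj
      rw [iteratedDerivWithin_univ, h j (Finset.mem_range.1 hj), smul_zero]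
  show ((x + y - x) ^ n)⁻¹ • (f (x + y) - taylorWithinEval f n Set.univ x (x + y)) + _ = _
  rw [h3, add_sub_cancel_left, Complex.real_smul]
  push_cast
  have hyn : (y : ℂ) ^ n ≠ 0 := pow_ne_zero n hy
  rw [mul_sub, inv_mul_cancel_left₀ hyn, sub_add_cancel, div_eq_inv_mul]

private theorem smooth_it (f : ℝ → ℂ) (hf : ContDiff ℝ (⊤ : ℕ∞) f) (b : ℕ) :
    ContDiff ℝ (⊤ : ℕ∞) (iteratedDeriv b f) := by
  rw [iteratedDeriv_eq_iterate]
  exact hf.iterate_deriv b

private theorem it_it (f : ℝ → ℂ) (a b : ℕ) :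
    iteratedDeriv a (iteratedDeriv b f) = iteratedDeriv (a + b) f := by
  rw [iteratedDeriv_eq_iterate, iteratedDeriv_eq_iterate, iteratedDeriv_eq_iterate,
    Function.iterate_add_apply]

private theorem van_ne {k : ℕ} (d : Fin k → ℕ) (hd : Function.Injective d) :
    (Matrix.of fun a b : Fin k => ((d a).descFactorial (b : ℕ) : ℂ)).det ≠ 0 := by
  have h := Matrix.det_eval_matrixOfPolynomials_eq_det_vandermonde (fun a => ((d a : ℕ) : ℂ))
    (fun i : Fin k => descPochhammer ℂ i) (fun i => descPochhammer_natDegree ℂ i)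
    (fun i => monic_descPochhammer ℂ i)
  simp only [descPochhammer_eval_eq_descFactorial] at h
  rw [← h, Matrix.det_vandermonde_ne_zero_iff]
  exact fun a b hab => hd (Nat.cast_injective (R := ℂ) hab)

private theorem smooth_det {k : ℕ} (g : Fin k → Fin k → ℝ → ℂ)
    (hg : ∀ a b, ContDiff ℝ (⊤ : ℕ∞) (g a b)) :
    ContDiff ℝ (⊤ : ℕ∞) fun y => (Matrix.of fun a b : Fin k => g a b y).det := by
  simp only [Matrix.det_apply]
  refine ContDiff.sum fun σ _ => ?_
  refine ContDiff.const_smul _ ?_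
  exact contDiff_prod fun i _ => hg _ _

theorem eo_tendsto (f : ℝ → ℂ) (hf : ContDiff ℝ (⊤ : ℕ∞) f) (x : ℝ) (d : ℕ)
    (h : ∀ j < d, iteratedDeriv j f x = 0) (b : ℕ) :
    Tendsto (fun y : ℝ => (y : ℂ) ^ b * iteratedDeriv b f (x + y) / (y : ℂ) ^ d) (𝓝[≠] 0)
      (𝓝 ((d.descFactorial b : ℂ) * iteratedDeriv d f x / (d.factorial : ℂ))) := by
  rcases Nat.lt_or_ge d b with hb | hb
  · rw [Nat.descFactorial_of_lt hb, Nat.cast_zero, zero_mul, zero_div]
    have h1 : Tendsto (fun y : ℝ => iteratedDeriv b f (x + y)) (𝓝[≠] 0)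
        (𝓝 (iteratedDeriv b f x)) :=
      ((smooth_it f hf b).continuous.tendsto x).comp (tend_add x)
    have h2 := (pow_tend (show 0 < b - d by omega)).mul h1
    rw [zero_mul] at h2
    refine h2.congr' ?_
    filter_upwards [ne_ev] with y hy
    have h3 : (y : ℂ) ^ b = (y : ℂ) ^ (b - d) * (y : ℂ) ^ d := by
      rw [← pow_add]
      congr 1
      omega
    rw [h3]
    have h4 : (y : ℂ) ^ d ≠ 0 := pow_ne_zero d hy
    field_simp
  · have h1 := taylor_lim (iteratedDeriv b f) (smooth_it f hf b) x (d - b) (fun j hj => by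
      rw [it_it]
      exact h _ (by omega))
    rw [it_it, Nat.sub_add_cancel hb] at h1
    have h0 : (((d - b).factorial : ℕ) : ℂ) * (d.descFactorial b : ℂ) = (d.factorial : ℂ) := by
      exact_mod_cast Nat.factorial_mul_descFactorial hb
    have e1 : (d.descFactorial b : ℂ) * iteratedDeriv d f x / (d.factorial : ℂ) =
        iteratedDeriv d f x / ((d - b).factorial : ℂ) := by
      have n1 : ((d - b).factorial : ℂ) ≠ 0 := Nat.cast_ne_zero.2 (Nat.factorial_ne_zero _)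
      have n2 : (d.factorial : ℂ) ≠ 0 := Nat.cast_ne_zero.2 (Nat.factorial_ne_zero _)
      rw [div_eq_div_iff n2 n1, ← h0]
      ring
    rw [e1]
    refine h1.congr' ?_
    filter_upwards [ne_ev] with y hy
    have h3 : (y : ℂ) ^ d = (y : ℂ) ^ b * (y : ℂ) ^ (d - b) := by
      rw [← pow_add]
      congr 1
      omega
    rw [h3, mul_div_mul_left _ _ (pow_ne_zero b hy)]

theorem eo_of_tendsto (f : ℝ → ℂ) (hf : ContDiff ℝ (⊤ : ℕ∞) f) (x : ℝ) (d : ℕ) (c : ℂ) (hc : c ≠ 0)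
    (h : Tendsto (fun y : ℝ => f (x + y) / (y : ℂ) ^ d) (𝓝[≠] 0) (𝓝 c)) : EO f x d := by
  by_cases hex : ∃ j, j ≤ d ∧ iteratedDeriv j f x ≠ 0
  · classical
    obtain ⟨hj1, hj2⟩ := Nat.find_spec hex
    obtain ⟨j, hj⟩ : ∃ j, j = Nat.find hex := ⟨_, rfl⟩
    rw [← hj] at hj1 hj2
    have hmin : ∀ i < j, iteratedDeriv i f x = 0 := by
      intro i hi
      by_contra hne
      have := Nat.find_min hex (m := i) (by rw [← hj]; exact hi)
      exact this ⟨by omega, hne⟩
    rcases Nat.lt_or_ge j d with hjd | hjd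
    · exfalso
      have h1 := taylor_lim f hf x j hmin
      have h2 := h.mul (pow_tend (show 0 < d - j by omega))
      rw [mul_zero] at h2
      have h3 : Tendsto (fun y : ℝ => f (x + y) / (y : ℂ) ^ j) (𝓝[≠] 0) (𝓝 0) := by
        refine h2.congr' ?_
        filter_upwards [ne_ev] with y hy
        have h4 : (y : ℂ) ^ d = (y : ℂ) ^ j * (y : ℂ) ^ (d - j) := by
          rw [← pow_add]
          congr 1
          omega
        have h5 : (y : ℂ) ^ j ≠ 0 := pow_ne_zero _ hy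
        have h6 : (y : ℂ) ^ (d - j) ≠ 0 := pow_ne_zero _ hy
        rw [h4]
        field_simp
      have h4 := tendsto_nhds_unique h1 h3
      rcases div_eq_zero_iff.1 h4 with h5 | h5
      · exact hj2 h5
      · exact Nat.factorial_ne_zero j (Nat.cast_eq_zero.1 h5)
    · have h1 : j = d := le_antisymm hj1 hjd
      rw [h1] at hmin hj2
      exact ⟨hmin, hj2⟩
  · push Not at hex
    exfalso
    have h1 := taylor_lim f hf x d (fun j hj => hex j hj.le)
    rw [hex d le_rfl, zero_div] at h1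
    exact hc (tendsto_nhds_unique h h1)

/-- zeros of finite order are isolated. -/
theorem eo_isolated (f : ℝ → ℂ) (hf : ContDiff ℝ (⊤ : ℕ∞) f) (x : ℝ) (d : ℕ) (h : EO f x d) :
    ∀ᶠ y in 𝓝[≠] x, f y ≠ 0 := by
  have h1 := taylor_lim f hf x d h.1
  have h2 : iteratedDeriv d f x / (d.factorial : ℂ) ≠ 0 :=
    div_ne_zero h.2 (Nat.cast_ne_zero.2 (Nat.factorial_ne_zero d))
  have h3 : ∀ᶠ y : ℝ in 𝓝[≠] 0, f (x + y) ≠ 0 := by
    filter_upwards [h1.eventually_ne h2] with y hy hy0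
    rw [hy0, zero_div] at hy
    exact hy rfl
  have h4 : Tendsto (fun y : ℝ => y - x) (𝓝[≠] x) (𝓝[≠] 0) := by
    refine tendsto_nhdsWithin_iff.2 ⟨?_, ?_⟩
    · have h5 : Tendsto (fun y : ℝ => y - x) (𝓝 x) (𝓝 (x - x)) :=
        tendsto_id.sub tendsto_const_nhds
      rw [sub_self] at h5
      exact h5.mono_left nhdsWithin_le_nhds
    · filter_upwards [self_mem_nhdsWithin] with y hy
      exact sub_ne_zero.2 hy
  filter_upwards [h4.eventually h3] with y hy
  rwa [add_sub_cancel] at hy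

theorem wr_order {k : ℕ} (f : Fin k → ℝ → ℂ) (hf : ∀ a, ContDiff ℝ (⊤ : ℕ∞) (f a)) (x : ℝ)
    (d : Fin k → ℕ) (hd : Function.Injective d) (h : ∀ a, EO (f a) x (d a)) :
    k * (k - 1) / 2 ≤ ∑ a, d a ∧
    EO (fun y => (Matrix.of fun a b : Fin k => iteratedDeriv (b : ℕ) (f a) y).det) x
      (∑ a, d a - k * (k - 1) / 2) := by
  obtain ⟨W, hW⟩ : ∃ W : ℝ → ℂ, W = fun y =>
    (Matrix.of fun a b : Fin k => iteratedDeriv (b : ℕ) (f a) y).det := ⟨_, rfl⟩
  rw [← hW]
  have hWs : ContDiff ℝ (⊤ : ℕ∞) W := by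
    rw [hW]
    exact smooth_det (fun a b => iteratedDeriv (b : ℕ) (f a)) fun a b => smooth_it _ (hf a) _
  obtain ⟨A, hA⟩ : ∃ A : Fin k → ℂ, A = fun a =>
    iteratedDeriv (d a) (f a) x / ((d a).factorial : ℂ) := ⟨_, rfl⟩
  have hA0 : ∀ a, A a ≠ 0 := by
    intro a
    rw [hA]
    exact div_ne_zero (h a).2 (Nat.cast_ne_zero.2 (Nat.factorial_ne_zero _))
  obtain ⟨c, hc⟩ : ∃ c : ℂ, c = (∏ a, A a) *
    (Matrix.of fun a b : Fin k => ((d a).descFactorial (b : ℕ) : ℂ)).det := ⟨_, rfl⟩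
  have hc0 : c ≠ 0 := by
    rw [hc]
    exact mul_ne_zero (Finset.prod_ne_zero_iff.2 fun a _ => hA0 a) (van_ne d hd)
  obtain ⟨S, hS⟩ : ∃ S : ℕ, S = ∑ a, d a := ⟨_, rfl⟩
  obtain ⟨T, hT⟩ : ∃ T : ℕ, T = k * (k - 1) / 2 := ⟨_, rfl⟩
  rw [← hS, ← hT]
  have hlim : Tendsto (fun y : ℝ => W (x + y) * (y : ℂ) ^ T / (y : ℂ) ^ S) (𝓝[≠] 0) (𝓝 c) := by
    have h1 : Tendsto (fun y : ℝ => Matrix.of fun a b : Fin k =>
        (y : ℂ) ^ (b : ℕ) * iteratedDeriv (b : ℕ) (f a) (x + y) / (y : ℂ) ^ (d a)) (𝓝[≠] 0)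
        (𝓝 (Matrix.of fun a b : Fin k => A a * ((d a).descFactorial (b : ℕ) : ℂ))) := by
      refine tendsto_pi_nhds.2 fun a => tendsto_pi_nhds.2 fun b => ?_
      have h2 := eo_tendsto (f a) (hf a) x (d a) (h a).1 b
      have e2 : ((d a).descFactorial (b : ℕ) : ℂ) * iteratedDeriv (d a) (f a) x /
          ((d a).factorial : ℂ) = A a * ((d a).descFactorial (b : ℕ) : ℂ) := by
        rw [hA]
        ring
      rw [e2] at h2
      exact h2
    have h2 := (((continuous_id.matrix_det (A := fun M : Matrix (Fin k) (Fin k) ℂ => M)).tendsto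
      _).comp h1)
    have e3 : (Matrix.of fun a b : Fin k => A a * ((d a).descFactorial (b : ℕ) : ℂ)).det = c := by
      rw [hc, ← Matrix.det_mul_column]
      rfl
    have h3 : Tendsto (fun y : ℝ => (Matrix.of fun a b : Fin k =>
        (y : ℂ) ^ (b : ℕ) * iteratedDeriv (b : ℕ) (f a) (x + y) / (y : ℂ) ^ (d a)).det)
        (𝓝[≠] 0) (𝓝 c) := by
      rw [← e3]
      exact h2
    refine h3.congr' ?_
    filter_upwards [ne_ev] with y hy
    have e4 : (Matrix.of fun a b : Fin k =>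
        (y : ℂ) ^ (b : ℕ) * iteratedDeriv (b : ℕ) (f a) (x + y) / (y : ℂ) ^ (d a)) =
        Matrix.of fun a b : Fin k => ((y : ℂ) ^ (d a))⁻¹ * (Matrix.of fun a b : Fin k =>
          (y : ℂ) ^ (b : ℕ) * (Matrix.of fun a b : Fin k =>
            iteratedDeriv (b : ℕ) (f a) (x + y)) a b) a b := by
      ext a b
      simp only [Matrix.of_apply]
      rw [div_eq_inv_mul]
    rw [e4, Matrix.det_mul_column, Matrix.det_mul_row, Finset.prod_inv_distrib,
      Finset.prod_pow_eq_pow_sum, Finset.prod_pow_eq_pow_sum, Fin.sum_univ_eq_sum_range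
      (fun i => i) k, Finset.sum_range_id, ← hS, ← hT, hW]
    ring
  have hTS : T ≤ S := by
    by_contra hlt
    push Not at hlt
    have h1 : Tendsto (fun y : ℝ => W (x + y)) (𝓝[≠] 0) (𝓝 (W x)) :=
      (hWs.continuous.tendsto x).comp (tend_add x)
    have h2 := h1.mul (pow_tend (show 0 < T - S by omega))
    rw [mul_zero] at h2
    have h3 : Tendsto (fun y : ℝ => W (x + y) * (y : ℂ) ^ T / (y : ℂ) ^ S) (𝓝[≠] 0) (𝓝 0) := by
      refine h2.congr' ?_
      filter_upwards [ne_ev] with y hy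
      have h4 : (y : ℂ) ^ T = (y : ℂ) ^ (T - S) * (y : ℂ) ^ S := by
        rw [← pow_add]
        congr 1
        omega
      have h5 : (y : ℂ) ^ S ≠ 0 := pow_ne_zero _ hy
      rw [h4]
      field_simp
    exact hc0 (tendsto_nhds_unique hlim h3)
  refine ⟨hTS, eo_of_tendsto W hWs x (S - T) c hc0 ?_⟩
  refine hlim.congr' ?_
  filter_upwards [ne_ev] with y hy
  have h4 : (y : ℂ) ^ S = (y : ℂ) ^ T * (y : ℂ) ^ (S - T) := by
    rw [← pow_add]
    congr 1
    omega
  have h5 : (y : ℂ) ^ T ≠ 0 := pow_ne_zero _ hy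
  have h6 : (y : ℂ) ^ (S - T) ≠ 0 := pow_ne_zero _ hy
  rw [h4]
  field_simp

end GTC
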