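import Pool.Agent.GTR.Der
import Pool.Agent.GTR.Wro
import Pool.Agent.GTR.Ech

/-!
# GTR Ordf : the order formula

PROOF of `ord_formula`.  `A = u * cm (jet γ n x)` has full row rank (`cm (jet γ n x)` is invertible:
`fr_mul_right`).  `echelon`: `g, d`.  Let `f a y = ∑ j, (g * u) a j * (γ y j : ℂ)`; then
`iteratedDeriv b (f a) x = (g * A) a b` for `b < n`, so `EO (f a) x (d a)`.  `wr_order`: the function
`y ↦ det (iteratedDeriv b (f a) y) = det (g * u * cm (jet γ k y)) = det g * lf (cc (wf k γ y)) u` has exact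
order `m = ∑ d a - k(k-1)/2` at `x`, hence (divide by `det g ≠ 0`; `lf_cc_pf`) `IsOrd k γ u x m`.
The first `i` columns of `A` are `u * cm (jet γ i x)`, so
`∑ i ∈ Ico 1 n, (k - rank) = ∑ i ∈ Ico 1 n, #{a | d a ≥ i} = ∑ a, d a` (`d a ≤ n - 1`).

PROOF of `zeros_finite`: by `ord_exists`, `eo_isolated` every point of `Icc a b` has a neighbourhood
with at most one zero; compactness.
-/

set_option autoImplicit false

open Matrix Real Set

namespace GTC

theorem isOrd_iff {k n : ℕ} {γ : ℝ → Fin n → ℝ} (hγ : ContDiff ℝ (⊤ : ℕ∞) γ)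
    (u : Matrix (Fin k) (Fin n) ℂ) (x : ℝ) (m : ℕ) :
    IsOrd k γ u x m ↔ EO (fun y => lf (cc (wf k γ y)) u) x m := by
  unfold IsOrd EO
  simp only [lf_cc_pf hγ]

private theorem iter_clm99 {E F : Type*} [NormedAddCommGroup E] [NormedSpace ℝ E]
    [NormedAddCommGroup F] [NormedSpace ℝ F] (L : E →L[ℝ] F) {g : ℝ → E}
    (hg : ContDiff ℝ (⊤ : ℕ∞) g) (b : ℕ) (x : ℝ) :
    iteratedDeriv b (fun y => L (g y)) x = L (iteratedDeriv b g x) := by
  rw [iteratedDeriv_eq_iteratedFDeriv, iteratedDeriv_eq_iteratedFDeriv]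
  have h := L.iteratedFDeriv_comp_left (x := x) (i := b) hg.contDiffAt
    (by exact_mod_cast le_top)
  have h2 : (fun y => L (g y)) = L ∘ g := rfl
  rw [h2, h]
  rfl

/-- the linear form `v ↦ ∑ j, c j * v j` -/
private noncomputable def LL99 {n : ℕ} (c : Fin n → ℂ) : (Fin n → ℝ) →L[ℝ] ℂ :=
  ∑ j, (c j) • (Complex.ofRealCLM.comp (ContinuousLinearMap.proj (R := ℝ) (φ := fun _ => ℝ) j))

private theorem LL99_apply {n : ℕ} (c : Fin n → ℂ) (v : Fin n → ℝ) :
    LL99 c v = ∑ j, c j * (v j : ℂ) := by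
  unfold LL99
  rw [ContinuousLinearMap.sum_apply]
  rfl

private theorem det_cm99 {n : ℕ} (J : Matrix (Fin n) (Fin n) ℝ) :
    (cm J).det = ((J.det : ℝ) : ℂ) := by
  have h := RingHom.map_det Complex.ofRealHom J
  exact h.symm

theorem ord_formula {k n : ℕ} {γ : ℝ → Fin n → ℝ} (hγ : ContDiff ℝ (⊤ : ℕ∞) γ) (x : ℝ)
    (hx : (jet γ n x).det ≠ 0) (u : Matrix (Fin k) (Fin n) ℂ) (hu : FR u) :
    ∃ m, IsOrd k γ u x m ∧
      m + k * (k - 1) / 2 = ∑ i ∈ Finset.Ico 1 n, (k - (u * cm (jet γ i x)).rank) := by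
  have hJ : (cm (jet γ n x)).det ≠ 0 := by
    rw [det_cm99]
    exact_mod_cast hx
  have hA : FR (u * cm (jet γ n x)) := (fr_mul_right _ hJ u).2 hu
  obtain ⟨g, d, hg, hd, h0, hne, hrank⟩ := echelon (u * cm (jet γ n x)) hA
  have hfa : ∀ a, ContDiff ℝ (⊤ : ℕ∞) (fun y => LL99 ((g * u) a) (γ y)) := fun a =>
    (LL99 ((g * u) a)).contDiff.comp hγ
  have hit : ∀ (a : Fin k) (b : Fin n), iteratedDeriv (b : ℕ) (fun y => LL99 ((g * u) a) (γ y)) x =
      (g * (u * cm (jet γ n x))) a b := by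
    intro a b
    rw [iter_clm99 _ hγ, LL99_apply, ← Matrix.mul_assoc, Matrix.mul_apply]
    rfl
  have hEO : ∀ a, EO (fun y => LL99 ((g * u) a) (γ y)) x (d a : ℕ) := by
    intro a
    refine ⟨fun j hj => ?_, ?_⟩
    · have h1 := hit a ⟨j, hj.trans (d a).2⟩
      rw [h0 a _ (Fin.lt_def.2 hj)] at h1
      exact h1
    · rw [hit a (d a)]
      exact hne a
  obtain ⟨hle, hE⟩ := wr_order (fun a y => LL99 ((g * u) a) (γ y)) hfa x (fun a => (d a : ℕ))
    (fun a b hab => hd.injective (Fin.ext hab)) hEO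
  have hfun : (fun y => (Matrix.of fun a b : Fin k =>
      iteratedDeriv (b : ℕ) (fun y => LL99 ((g * u) a) (γ y)) y).det) =
      fun y => g.det • lf (cc (wf k γ y)) u := by
    funext y
    rw [lf_cc_wf, smul_eq_mul, ← Matrix.det_mul, ← Matrix.mul_assoc]
    congr 1
    ext a b
    rw [Matrix.of_apply, iter_clm99 _ hγ, LL99_apply, Matrix.mul_apply]
    rfl
  rw [hfun] at hE
  have hE2 : EO (fun y => lf (cc (wf k γ y)) u) x (∑ a, (d a : ℕ) - k * (k - 1) / 2) := by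
    refine ⟨fun j hj => ?_, fun hzero => hE.2 ?_⟩
    · have h1 := hE.1 j hj
      rw [iteratedDeriv_fun_const_smul_field] at h1
      exact (smul_eq_zero.1 h1).resolve_left hg
    · rw [iteratedDeriv_fun_const_smul_field, hzero, smul_zero]
  refine ⟨∑ a, (d a : ℕ) - k * (k - 1) / 2, (isOrd_iff hγ u x _).2 hE2, ?_⟩
  rw [Nat.sub_add_cancel hle]
  have hr : ∀ i ∈ Finset.Ico 1 n, (k - (u * cm (jet γ i x)).rank) =
      ∑ a : Fin k, if i ≤ (d a : ℕ) then 1 else 0 := by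
    intro i hi
    have hin : i ≤ n := (Finset.mem_Ico.1 hi).2.le
    have h1 : u * cm (jet γ i x) = (u * cm (jet γ n x)).submatrix id (Fin.castLE hin) := by
      ext a b
      rfl
    rw [h1, hrank i hin, Finset.sum_ite, Finset.sum_const_zero, add_zero, Finset.sum_const,
      smul_eq_mul, mul_one]
    have h2 := Finset.card_filter_add_card_filter_not (s := (Finset.univ : Finset (Fin k)))
      (fun a => (d a : ℕ) < i)
    rw [Finset.card_univ, Fintype.card_fin] at h2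
    have h3 : (Finset.univ.filter fun a : Fin k => ¬ (d a : ℕ) < i) =
        Finset.univ.filter fun a : Fin k => i ≤ (d a : ℕ) :=
      Finset.filter_congr fun a _ => not_lt
    rw [h3] at h2
    omega
  rw [Finset.sum_congr rfl hr, Finset.sum_comm]
  refine Finset.sum_congr rfl fun a _ => ?_
  rw [Finset.sum_ite, Finset.sum_const_zero, add_zero, Finset.sum_const, smul_eq_mul, mul_one]
  have h4 : (Finset.Ico 1 n).filter (fun i => i ≤ (d a : ℕ)) = Finset.Icc 1 (d a : ℕ) := by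
    ext i
    rw [Finset.mem_filter, Finset.mem_Ico, Finset.mem_Icc]
    have := (d a).2
    omega
  rw [h4, Nat.card_Icc]
  omega

theorem ord_unique {k n : ℕ} {γ : ℝ → Fin n → ℝ} {u : Matrix (Fin k) (Fin n) ℂ} {x : ℝ}
    {m m' : ℕ} (h : IsOrd k γ u x m) (h' : IsOrd k γ u x m') : m = m' := by
  rcases lt_trichotomy m m' with h1 | h1 | h1
  · exact absurd (h'.1 m h1) h.2
  · exact h1
  · exact absurd (h.1 m' h1) h'.2

theorem ord_exists {k n : ℕ} {γ : ℝ → Fin n → ℝ} (hγ : ContDiff ℝ (⊤ : ℕ∞) γ) (x : ℝ)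
    (hx : (jet γ n x).det ≠ 0) (u : Matrix (Fin k) (Fin n) ℂ) (hu : FR u) :
    ∃ m, IsOrd k γ u x m := by
  obtain ⟨m, hm, -⟩ := ord_formula hγ x hx u hu
  exact ⟨m, hm⟩

theorem zeros_finite {k n : ℕ} {γ : ℝ → Fin n → ℝ} (hγ : ContDiff ℝ (⊤ : ℕ∞) γ)
    (hx : ∀ x, (jet γ n x).det ≠ 0) (u : Matrix (Fin k) (Fin n) ℂ) (hu : FR u) (a b : ℝ) :
    {x | x ∈ Icc a b ∧ lf (cc (wf k γ x)) u = 0}.Finite := by
  by_contra hinf
  obtain ⟨x, hxK, hacc⟩ := Set.Infinite.exists_accPt_of_subset_isCompact hinf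
    (isCompact_Icc (a := a) (b := b)) (fun y hy => hy.1)
  obtain ⟨m, hm⟩ := ord_exists hγ x (hx x) u hu
  have h1 := eo_isolated _ (Wc_contDiff hγ u) x m ((isOrd_iff hγ u x m).1 hm)
  rw [accPt_iff_frequently_nhdsNE] at hacc
  exact hacc (h1.mono fun y hy hy2 => hy hy2.2)

/-- the order is the same for all bases of the row space. -/
theorem isOrd_rs {k n : ℕ} {γ : ℝ → Fin n → ℝ} (u v : Matrix (Fin k) (Fin n) ℂ) (hu : FR u)
    (hv : FR v) (h : rs u = rs v) (x : ℝ) (m : ℕ) : IsOrd k γ u x m ↔ IsOrd k γ v x m := by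
  obtain ⟨g, hg, rfl⟩ := rs_eq u v hu hv h
  unfold IsOrd
  simp only [lf_mul, mul_eq_zero, hg, false_or, ne_eq]

end GTC
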