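import Pool.Agent.GTR.Frk

/-!
# GTR Pl : the cone over the Grassmannian

PROOF of `pl_rel`.  Let `A = u.submatrix id t0`, `B = u.submatrix id t`.  Cramer: for a column
`y` of `u`, `(adjugate A *ᵥ y) a = det (A with column a replaced by y)` (`Matrix.cramer`,
`Matrix.adjugate`), and `u.submatrix id (Function.update t0 a (t b))` is `A` with column `a` replaced
by column `t b` of `u`.  So the matrix on the right is `adjugate A * B`, of determinant
`det A ^ (k-1) * det B` (`Matrix.det_adjugate`).

PROOF of `pl_surj`.  Choose `t0` with `p t0 ≠ 0`.  Put `v a j = p (update t0 a j) / p t0` (a `k × n`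
matrix).  For every `t`: `det (v.submatrix id t) = det (p (update t0 a (t b)))_(a,b) / p t0 ^ k
= p t0 ^ (k-1) * p t / p t0 ^ k = p t / p t0`.  For `t = t0` the minor is `1`, so `v` has full rank.
Multiply the first row of `v` by `p t0`.
-/

set_option autoImplicit false

open Matrix

namespace GTC

theorem pl_rel {R : Type*} [CommRing R] {k n : ℕ} (hk : 1 ≤ k) (u : Matrix (Fin k) (Fin n) R)
    (t0 t : Fin k → Fin n) :
    (u.submatrix id t0).det ^ (k - 1) * (u.submatrix id t).det =
      (Matrix.of fun a b : Fin k => (u.submatrix id (Function.update t0 a (t b))).det).det := by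
  have h1 : (Matrix.of fun a b : Fin k => (u.submatrix id (Function.update t0 a (t b))).det) =
      (u.submatrix id t0).adjugate * (u.submatrix id t) := by
    ext a b
    have h2 : ((u.submatrix id t0).adjugate * (u.submatrix id t)) a b =
        ((u.submatrix id t0).adjugate *ᵥ (fun i => u i (t b))) a := by
      rw [Matrix.mul_apply, Matrix.mulVec, dotProduct]
      rfl
    rw [h2, ← Matrix.cramer_eq_adjugate_mulVec, Matrix.cramer_apply, Matrix.of_apply]
    congr 1
    ext i j
    by_cases hj : j = a
    · subst hj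
      simp [Matrix.updateCol_self]
    · simp [Matrix.updateCol_ne hj, Function.update_of_ne hj]
  rw [h1, Matrix.det_mul, Matrix.det_adjugate, Fintype.card_fin]

theorem pl_surj {K : Type*} [Field K] {k n : ℕ} (hk : 1 ≤ k) (p : (Fin k → Fin n) → K)
    (hp : p ≠ 0)
    (hrel : ∀ t0 t : Fin k → Fin n, p t0 ^ (k - 1) * p t =
      (Matrix.of fun a b : Fin k => p (Function.update t0 a (t b))).det) :
    ∃ u : Matrix (Fin k) (Fin n) K, FR u ∧ ∀ t, (u.submatrix id t).det = p t := by
  obtain ⟨t0, ht0⟩ := Function.ne_iff.1 hp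
  simp only [Pi.zero_apply] at ht0
  obtain ⟨m, rfl⟩ : ∃ m, k = m + 1 := ⟨k - 1, by omega⟩
  let d : Fin (m + 1) → K := Fin.cons 1 (fun _ => (p t0)⁻¹)
  have hd : ∏ a, d a = ((p t0)⁻¹) ^ m := by
    rw [Fin.prod_univ_succ]
    simp [d]
  let u : Matrix (Fin (m + 1)) (Fin n) K := Matrix.of fun a j => d a * p (Function.update t0 a j)
  have hu : ∀ t, (u.submatrix id t).det = p t := by
    intro t
    have h1 : u.submatrix id t = Matrix.of fun a b => d a *
        (Matrix.of fun a b : Fin (m + 1) => p (Function.update t0 a (t b))) a b := by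
      ext a b
      simp [u]
    rw [h1, Matrix.det_mul_column, hd, ← hrel t0 t]
    simp only [Nat.add_sub_cancel]
    rw [← mul_assoc, ← mul_pow, inv_mul_cancel₀ ht0, one_pow, one_mul]
  refine ⟨u, (fr_iff_minor u).2 ⟨t0, ?_⟩, hu⟩
  rw [hu]
  exact ht0

end GTC
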