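import Pool.Agent.GTR.HomFin
import Pool.Agent.GTR.Pl

/-!
# GTR P1 : an infinite linear section of the Grassmannian meets every further hyperplane section

PROOF of `P1`.  Suppose no solution `u` of `h` has `lf c u = 0`.  Apply `hom_finite` with
`σ = (Fin k → Fin n)`, `I` = the polynomials `X t0 ^ (k-1) * X t - det (X (update t0 a (t b)))_(a,b)`
(homogeneous of degree `k`) and the linear forms `∑ t, h i t • X t`, and `ℓ = ∑ t, c t • X t`.  If `p` is
a common zero of `I` and `ℓ` with `p ≠ 0` then by `pl_surj` `p t = det (u_t)` for a full rank `u`, which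
is a solution of `h` with `lf c u = 0`: contradiction.  So `X1 = {p | I, ℓ = 1}` is finite.  For every
`L ∈ Sol h`, `L = rs u` with `lf c u ≠ 0`; multiply the first row by `(lf c u)⁻¹`: we may take
`lf c u = 1`; then `p = (det u_t)_t ∈ X1` (`pl_rel`).  And `p` determines `L`: choose a section: if
`(det u_t) = (det u'_t)` for all `t` with `u, u'` of full rank, then by the proof of `pl_surj` the matrix
`v a j = p (update t0 a j) / p t0 = (A⁻¹ u) a j` (`A = u_(t0)`, `p t0 = det A`) has row space
`rs u` and `rs u'`.  So `Sol h` is finite: contradiction.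
-/

set_option autoImplicit false

open Matrix

namespace GTC

/-- Cramer -/
theorem inv_minor {K : Type*} [Field K] {k n : ℕ} (u : Matrix (Fin k) (Fin n) K)
    (t0 : Fin k → Fin n) (a : Fin k) (j : Fin n) :
    ((u.submatrix id t0)⁻¹ * u) a j =
      ((u.submatrix id t0).det)⁻¹ * (u.submatrix id (Function.update t0 a j)).det := by
  have h1 : (u.submatrix id t0).updateCol a (fun i => u i j) =
      u.submatrix id (Function.update t0 a j) := by
    ext i b
    by_cases hb : b = a
    · subst hb
      simp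
    · simp [Matrix.updateCol_ne hb, Function.update_of_ne hb]
  have h2 : ((u.submatrix id t0)⁻¹ * u) a j = ((u.submatrix id t0)⁻¹ *ᵥ (fun i => u i j)) a := rfl
  rw [h2, Matrix.inv_def, Matrix.smul_mulVec, Pi.smul_apply, ← Matrix.cramer_eq_adjugate_mulVec,
    Matrix.cramer_apply, h1, Ring.inverse_eq_inv', smul_eq_mul]

theorem rs_eq_of_minors {k n : ℕ} (hk : 1 ≤ k) (u v : Matrix (Fin k) (Fin n) ℂ) (hu : FR u)
    (h : ∀ t, (u.submatrix id t).det = (v.submatrix id t).det) : rs u = rs v := by
  obtain ⟨t0, ht0⟩ := (fr_iff_minor u).1 hu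
  set A := u.submatrix id t0 with hA
  set A' := v.submatrix id t0 with hA'
  have hdet : A.det = A'.det := h t0
  have ht0' : A'.det ≠ 0 := hdet ▸ ht0
  have h1 : A⁻¹ * u = A'⁻¹ * v := by
    ext a j
    rw [inv_minor, inv_minor, ← hA, ← hA', hdet, h]
  have h2 : v = (A' * A⁻¹) * u := by
    rw [Matrix.mul_assoc, h1, ← Matrix.mul_assoc,
      Matrix.mul_nonsing_inv _ (isUnit_iff_ne_zero.2 ht0'), Matrix.one_mul]
  have h3 : (A' * A⁻¹).det ≠ 0 := by
    rw [Matrix.det_mul, Matrix.det_nonsing_inv, Ring.inverse_eq_inv']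
    exact mul_ne_zero ht0' (inv_ne_zero ht0)
  rw [h2, rs_mul _ h3]

theorem P1 {k n : ℕ} (hk : 1 ≤ k) {ι : Type*} [Finite ι] (h : ι → Cf ℂ k n)
    (hinf : (Sol h).Infinite) (c : Cf ℂ k n) : ∃ u, IsSol h u ∧ lf c u = 0 := by
  classical
  by_contra hno
  push Not at hno
  apply hinf
  -- the ideal
  set rel : (Fin k → Fin n) → (Fin k → Fin n) → MvPolynomial (Fin k → Fin n) ℂ := fun t0 t =>
    MvPolynomial.X t0 ^ (k - 1) * MvPolynomial.X t -
      (Matrix.of fun a b : Fin k => (MvPolynomial.X (Function.update t0 a (t b)) :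
        MvPolynomial (Fin k → Fin n) ℂ)).det with hrel
  set lin : Cf ℂ k n → MvPolynomial (Fin k → Fin n) ℂ := fun c' =>
    ∑ t, MvPolynomial.C (c' t) * MvPolynomial.X t with hlin
  have hlinh : ∀ c', (lin c').IsHomogeneous 1 := by
    intro c'
    refine MvPolynomial.IsHomogeneous.sum _ _ _ fun t _ => ?_
    have := (MvPolynomial.isHomogeneous_C (Fin k → Fin n) (c' t)).mul
      (MvPolynomial.isHomogeneous_X ℂ t)
    simpa using this
  have hrelh : ∀ t0 t, (rel t0 t).IsHomogeneous k := by
    intro t0 t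
    have h1 : (MvPolynomial.X t0 ^ (k - 1) * MvPolynomial.X t :
        MvPolynomial (Fin k → Fin n) ℂ).IsHomogeneous k := by
      have := ((MvPolynomial.isHomogeneous_X ℂ t0).pow (k - 1)).mul
        (MvPolynomial.isHomogeneous_X ℂ t)
      have e : 1 * (k - 1) + 1 = k := by omega
      rwa [e] at this
    have h2 : ((Matrix.of fun a b : Fin k => (MvPolynomial.X (Function.update t0 a (t b)) :
        MvPolynomial (Fin k → Fin n) ℂ)).det).IsHomogeneous k := by
      rw [Matrix.det_apply]
      refine MvPolynomial.IsHomogeneous.sum _ _ _ fun s _ => ?_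
      have h3 : (∏ i : Fin k, (Matrix.of fun a b : Fin k =>
          (MvPolynomial.X (Function.update t0 a (t b)) :
            MvPolynomial (Fin k → Fin n) ℂ)) (s i) i).IsHomogeneous (∑ _i : Fin k, 1) :=
        MvPolynomial.IsHomogeneous.prod _ _ _ fun i _ => MvPolynomial.isHomogeneous_X ℂ _
      have h4 : ∑ _i : Fin k, 1 = k := by simp
      rw [h4] at h3
      rcases Int.units_eq_one_or (Equiv.Perm.sign s) with h5 | h5
      · rw [h5, one_smul]
        exact h3
      · rw [h5, Units.neg_smul, one_smul]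
        exact h3.neg
    exact h1.sub h2
  have elin : ∀ (c' : Cf ℂ k n) (p : (Fin k → Fin n) → ℂ),
      MvPolynomial.eval p (lin c') = ∑ t, c' t * p t := by
    intro c' p
    simp only [hlin, map_sum, map_mul, MvPolynomial.eval_C, MvPolynomial.eval_X]
  have erel : ∀ t0 t (p : (Fin k → Fin n) → ℂ), MvPolynomial.eval p (rel t0 t) =
      p t0 ^ (k - 1) * p t -
        (Matrix.of fun a b : Fin k => p (Function.update t0 a (t b))).det := by
    intro t0 t p
    simp only [hrel, map_sub, map_mul, map_pow, MvPolynomial.eval_X]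
    rw [RingHom.map_det]
    congr 2
    ext a b
    simp
  set I : Set (MvPolynomial (Fin k → Fin n) ℂ) :=
    Set.range (fun q : (Fin k → Fin n) × (Fin k → Fin n) => rel q.1 q.2) ∪
      Set.range (fun i => lin (h i)) with hI
  have hfin := hom_finite I (by
      rintro f (⟨q, rfl⟩ | ⟨i, rfl⟩)
      · exact ⟨k, hrelh _ _⟩
      · exact ⟨1, hlinh _⟩) (lin c) (hlinh c) (by
      intro p hp hp0
      by_contra hne
      obtain ⟨u, hu, hup⟩ := pl_surj hk p hne fun t0 t => by
        have := hp (rel t0 t) (Or.inl ⟨(t0, t), rfl⟩)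
        rw [erel] at this
        exact sub_eq_zero.1 this
      refine hno u ⟨hu, fun i => ?_⟩ ?_
      · have := hp (lin (h i)) (Or.inr ⟨i, rfl⟩)
        rw [elin] at this
        unfold lf
        simpa only [hup] using this
      · rw [elin] at hp0
        unfold lf
        simpa only [hup] using hp0)
  -- the solutions
  set F : ((Fin k → Fin n) → ℂ) → Submodule ℂ (Fin n → ℂ) := fun p =>
    if hp : ∃ u : Matrix (Fin k) (Fin n) ℂ, FR u ∧ ∀ t, (u.submatrix id t).det = p t then
      rs hp.choose else ⊥ with hF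
  refine (hfin.image F).subset ?_
  rintro L ⟨u, hu, rfl⟩
  have hcu : lf c u ≠ 0 := hno u hu
  set g : Matrix (Fin k) (Fin k) ℂ :=
    Matrix.diagonal (Function.update 1 (⟨0, hk⟩ : Fin k) (lf c u)⁻¹) with hg
  have hgd : g.det = (lf c u)⁻¹ := by
    rw [hg, Matrix.det_diagonal, Finset.prod_update_of_mem (Finset.mem_univ _)]
    simp
  have hg0 : g.det ≠ 0 := by
    rw [hgd]
    exact inv_ne_zero hcu
  have hgu : IsSol h (g * u) := (issol_mul h g hg0 u).2 hu
  have hlg : lf c (g * u) = 1 := by
    rw [lf_mul, hgd, inv_mul_cancel₀ hcu]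
  refine ⟨fun t => ((g * u).submatrix id t).det, ⟨?_, ?_⟩, ?_⟩
  · rintro f (⟨q, rfl⟩ | ⟨i, rfl⟩)
    · simp only
      rw [erel, sub_eq_zero]
      exact pl_rel hk _ _ _
    · simp only
      rw [elin]
      exact hgu.2 i
  · rw [elin]
    exact hlg
  · have hex : ∃ v : Matrix (Fin k) (Fin n) ℂ, FR v ∧
        ∀ t, (v.submatrix id t).det = ((g * u).submatrix id t).det := ⟨g * u, hgu.1, fun _ => rfl⟩
    simp only [hF]
    rw [dif_pos hex]
    have h1 := hex.choose_spec
    rw [rs_eq_of_minors hk _ _ h1.1 h1.2, rs_mul g hg0]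

end GTC
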