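import Pool.Agent.GTR.Wro

/-!
# GTR Parl : parity of the order of a limit function

PROOF of `sign_count`.  `f` differentiable on `ℝ`, nonzero at the end points of `[a, b]`, with exactly the
zeros `Z` in `[a, b]`, all simple: `f a * f b` has the sign `(-1)^(card Z)`.  Induction on `card Z`: no
zero: intermediate value theorem.  Let `z` be the smallest zero; on `[a, z)` `f` has the sign of `f a`;
since `f' z ≠ 0` the function changes sign at `z`: for small `η > 0` `f (z + η)` has the opposite sign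
of `f (z - η)`, hence of `f a`, and the interval `[z + η, b]` contains the zeros `Z \ {z}`.

PROOF of `parity_lim`.  `f` has order exactly `m` at `x`: `f (x + y) / y^m → c ≠ 0` (real version of
`eo_tendsto`, `b = 0`; or apply it to `(f · : ℂ)`), so for small `δ > 0`: `f (x - δ)`, `f (x + δ)` are
nonzero and `f (x-δ) f (x+δ)` has the sign `(-1)^m`.  Take such a `δ < δ0`.  For large `ν` the values
`g ν (x ± δ)` have the signs of `f (x ± δ)`, and by `sign_count` `g ν (x-δ) * g ν (x+δ)` has the sign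
`(-1)^q`.
-/

set_option autoImplicit false

open Topology Filter Set

namespace GTC

private theorem no_zero_sign {f : ℝ → ℝ} (hf : Continuous f) {a b : ℝ} (hab : a ≤ b)
    (h : ∀ y ∈ Icc a b, f y ≠ 0) : 0 < f a * f b := by
  have ha := h a ⟨le_rfl, hab⟩
  have hb := h b ⟨hab, le_rfl⟩
  rcases lt_or_gt_of_ne ha with h1 | h1 <;> rcases lt_or_gt_of_ne hb with h2 | h2
  · exact mul_pos_of_neg_of_neg h1 h2
  · exfalso
    obtain ⟨y, hy, hy0⟩ := intermediate_value_Icc hab hf.continuousOn ⟨h1.le, h2.le⟩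
    exact h y hy hy0
  · exfalso
    obtain ⟨y, hy, hy0⟩ := intermediate_value_Icc' hab hf.continuousOn ⟨h2.le, h1.le⟩
    exact h y hy hy0
  · exact mul_pos h1 h2

/-- sign near a simple zero -/
private theorem simple_zero {f : ℝ → ℝ} {z : ℝ} (hf : DifferentiableAt ℝ f z) (h0 : f z = 0)
    (hd : deriv f z ≠ 0) : ∃ ε > 0, ∀ h, h ≠ 0 → |h| < ε → 0 < f (z + h) * h * deriv f z := by
  have h1 := hf.hasDerivAt
  rw [hasDerivAt_iff_tendsto_slope_zero] at h1
  have h2 : ∀ᶠ t in 𝓝[≠] (0 : ℝ), 0 < t⁻¹ • (f (z + t) - f z) * deriv f z := by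
    have h3 : Tendsto (fun t => t⁻¹ • (f (z + t) - f z) * deriv f z) (𝓝[≠] 0)
        (𝓝 (deriv f z * deriv f z)) := h1.mul_const _
    exact h3.eventually (lt_mem_nhds (mul_self_pos.2 hd))
  rw [eventually_nhdsWithin_iff, Metric.eventually_nhds_iff] at h2
  obtain ⟨ε, hε, h3⟩ := h2
  refine ⟨ε, hε, fun t ht htε => ?_⟩
  have h4 := h3 (y := t) (by rwa [Real.dist_eq, sub_zero]) ht
  rw [h0, sub_zero, smul_eq_mul] at h4
  have h5 : 0 < t ^ 2 := by positivity
  have h6 := mul_pos h4 h5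
  have h7 : t⁻¹ * f (z + t) * deriv f z * t ^ 2 = f (z + t) * t * deriv f z := by
    field_simp
  rwa [h7] at h6

theorem sign_count (f : ℝ → ℝ) (hf : Differentiable ℝ f) (a b : ℝ) (hab : a < b) (ha : f a ≠ 0)
    (hb : f b ≠ 0) (Z : Finset ℝ) (hZ : ∀ y ∈ Icc a b, f y = 0 ↔ y ∈ Z)
    (hZ' : ∀ y ∈ Z, y ∈ Icc a b ∧ deriv f y ≠ 0) : 0 < (-1 : ℝ) ^ Z.card * (f a * f b) := by
  have key : ∀ n : ℕ, ∀ a : ℝ, a < b → f a ≠ 0 → ∀ Z : Finset ℝ, Z.card = n →
      (∀ y ∈ Icc a b, f y = 0 ↔ y ∈ Z) → (∀ y ∈ Z, y ∈ Icc a b ∧ deriv f y ≠ 0) →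
      0 < (-1 : ℝ) ^ n * (f a * f b) := by
    intro n
    induction n with
    | zero =>
      intro a hab _ Z hZn hZ _
      rw [pow_zero, one_mul]
      refine no_zero_sign hf.continuous hab.le fun y hy h0 => ?_
      rw [Finset.card_eq_zero] at hZn
      have := (hZ y hy).1 h0
      rw [hZn] at this
      exact absurd this (Finset.notMem_empty y)
    | succ n ih =>
      intro a hab ha Z hZn hZ hZ'
      have hne : Z.Nonempty := by
        rw [← Finset.card_pos, hZn]
        exact Nat.succ_pos n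
      set z := Z.min' hne with hz
      have hzZ : z ∈ Z := Z.min'_mem hne
      obtain ⟨hzab, hdz⟩ := hZ' z hzZ
      have hfz : f z = 0 := (hZ z hzab).2 hzZ
      have haz : a < z := lt_of_le_of_ne hzab.1 (fun h => ha (h ▸ hfz))
      have hzb : z < b := lt_of_le_of_ne hzab.2 (fun h => hb (h ▸ hfz))
      obtain ⟨ε, hε, hsig⟩ := simple_zero (hf z) hfz hdz
      obtain ⟨η, hη0, hηε, hηa, hηb⟩ : ∃ η > 0, η < ε ∧ η < z - a ∧ η < b - z := by
        refine ⟨min ε (min (z - a) (b - z)) / 2, ?_, ?_, ?_, ?_⟩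
        · have : 0 < min ε (min (z - a) (b - z)) :=
            lt_min hε (lt_min (by linarith) (by linarith))
          linarith
        · have h1 : min ε (min (z - a) (b - z)) ≤ ε := min_le_left _ _
          linarith
        · have h1 : min ε (min (z - a) (b - z)) ≤ z - a :=
            (min_le_right _ _).trans (min_le_left _ _)
          linarith
        · have h1 : min ε (min (z - a) (b - z)) ≤ b - z :=
            (min_le_right _ _).trans (min_le_right _ _)
          linarith
      have h1 := hsig η hη0.ne' (by rwa [abs_of_pos hη0])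
      have h2 := hsig (-η) (neg_ne_zero.2 hη0.ne')
        (by rwa [abs_neg, abs_of_pos hη0])
      have e1 : z + -η = z - η := by ring
      rw [e1] at h2
      -- on the left of `z`
      have h3 : 0 < f a * f (z - η) := by
        refine no_zero_sign hf.continuous (by linarith) fun y hy h0 => ?_
        have h4 := (hZ y ⟨hy.1, by linarith [hy.2]⟩).1 h0
        have h5 := Z.min'_le y h4
        rw [← hz] at h5
        linarith [hy.2]
      -- on the right of `z`
      have hfp : f (z + η) ≠ 0 := by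
        intro h0
        rw [h0] at h1
        simp at h1
      have h4 := ih (z + η) (by linarith) hfp (Z.erase z)
        (by rw [Finset.card_erase_of_mem hzZ, hZn]; rfl) (by
          intro y hy
          rw [hZ y ⟨by linarith [hy.1], hy.2⟩, Finset.mem_erase]
          constructor
          · intro h5
            exact ⟨ne_of_gt (by linarith [hy.1]), h5⟩
          · exact fun h5 => h5.2) (by
          intro y hy
          rw [Finset.mem_erase] at hy
          obtain ⟨h5, h6⟩ := hZ' y hy.2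
          refine ⟨⟨?_, h5.2⟩, h6⟩
          by_contra hlt
          push Not at hlt
          have h7 := Z.min'_le y hy.2
          rw [← hz] at h7
          have h8 := hsig (y - z) (sub_ne_zero.2 hy.1) (by
            rw [abs_of_nonneg (by linarith)]
            linarith)
          have e2 : z + (y - z) = y := by ring
          rw [e2, (hZ y h5).2 hy.2] at h8
          simp at h8)
      -- signs
      have h5 : f (z - η) * f (z + η) < 0 := by
        have h6 := mul_pos h1 h2
        have e3 : f (z + η) * η * deriv f z * (f (z - η) * -η * deriv f z) =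
            (-(f (z - η) * f (z + η))) * (η * deriv f z) ^ 2 := by ring
        rw [e3] at h6
        have h7 : 0 < (η * deriv f z) ^ 2 := by positivity
        have h8 := (mul_pos_iff_of_pos_right h7).1 h6
        linarith
      have h6 : f a * f (z + η) < 0 := by
        have h7 : (f a * f (z + η)) * (f (z - η)) ^ 2 =
            (f a * f (z - η)) * (f (z - η) * f (z + η)) := by ring
        have h8 : (f a * f (z + η)) * (f (z - η)) ^ 2 < 0 := by
          rw [h7]
          exact mul_neg_of_pos_of_neg h3 h5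
        have h9 : 0 ≤ (f (z - η)) ^ 2 := sq_nonneg _
        by_contra h10
        push Not at h10
        have := mul_nonneg h10 h9
        linarith
      have h7 : ((-1 : ℝ) ^ (n + 1) * (f a * f b)) * (f (z + η)) ^ 2 =
          -((f a * f (z + η)) * ((-1 : ℝ) ^ n * (f (z + η) * f b))) := by ring
      have h8 : 0 < ((-1 : ℝ) ^ (n + 1) * (f a * f b)) * (f (z + η)) ^ 2 := by
        rw [h7]
        have := mul_neg_of_neg_of_pos h6 h4
        linarith
      have h9 : 0 < (f (z + η)) ^ 2 := by positivity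
      exact (mul_pos_iff_of_pos_right h9).1 h8
  exact key Z.card a hab ha Z rfl hZ hZ'

private theorem iteratedDeriv_ofReal {f : ℝ → ℝ} (hf : ContDiff ℝ (⊤ : ℕ∞) f) (j : ℕ) :
    iteratedDeriv j (fun y => ((f y : ℝ) : ℂ)) = fun y => ((iteratedDeriv j f y : ℝ) : ℂ) := by
  induction j with
  | zero => simp [iteratedDeriv_zero]
  | succ j ih =>
    rw [iteratedDeriv_succ, ih, iteratedDeriv_succ]
    funext y
    have h1 : Differentiable ℝ (iteratedDeriv j f) :=
      hf.differentiable_iteratedDeriv j (by exact_mod_cast WithTop.coe_lt_top j)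
    exact (h1 y).hasDerivAt.ofReal_comp.deriv

theorem parity_lim (f : ℝ → ℝ) (hf : ContDiff ℝ (⊤ : ℕ∞) f) (x : ℝ) (m : ℕ)
    (hm : ∀ j < m, iteratedDeriv j f x = 0) (hm' : iteratedDeriv m f x ≠ 0)
    (g : ℕ → ℝ → ℝ) (hg : ∀ ν, Differentiable ℝ (g ν))
    (hlim : ∀ y, Tendsto (fun ν => g ν y) atTop (𝓝 (f y))) (q : ℕ) (δ0 : ℝ) (hδ0 : 0 < δ0)
    (hz : ∀ δ ∈ Ioo 0 δ0, ∀ᶠ ν in atTop, ∃ Z : Finset ℝ, Z.card = q ∧
      (∀ y ∈ Icc (x - δ) (x + δ), g ν y = 0 ↔ y ∈ Z) ∧
      ∀ y ∈ Z, y ∈ Icc (x - δ) (x + δ) ∧ deriv (g ν) y ≠ 0) : m % 2 = q % 2 := by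
  -- the leading coefficient
  have hF : ContDiff ℝ (⊤ : ℕ∞) (fun y => ((f y : ℝ) : ℂ)) :=
    Complex.ofRealCLM.contDiff.comp hf
  have h1 := eo_tendsto (fun y => ((f y : ℝ) : ℂ)) hF x m (by
    intro j hj
    rw [iteratedDeriv_ofReal hf]
    simp [hm j hj]) 0
  have h2 : Tendsto (fun y : ℝ => f (x + y) / y ^ m) (𝓝[≠] 0)
      (𝓝 (iteratedDeriv m f x / m.factorial)) := by
    have h3 := (Complex.continuous_re.tendsto _).comp h1
    have hit : iteratedDeriv m (fun y => ((f y : ℝ) : ℂ)) x = ((iteratedDeriv m f x : ℝ) : ℂ) :=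
      congrFun (iteratedDeriv_ofReal hf m) x
    rw [hit] at h3
    have e1 : ((m.descFactorial 0 : ℂ) * ((iteratedDeriv m f x : ℝ) : ℂ) /
        (m.factorial : ℂ)).re = iteratedDeriv m f x / m.factorial := by
      rw [Nat.descFactorial_zero, Nat.cast_one, one_mul]
      have : ((iteratedDeriv m f x : ℝ) : ℂ) / (m.factorial : ℂ) =
          ((iteratedDeriv m f x / m.factorial : ℝ) : ℂ) := by
        push_cast
        rfl
      rw [this, Complex.ofReal_re]
    rw [e1] at h3
    refine h3.congr fun y => ?_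
    simp only [Function.comp_apply, pow_zero, one_mul, iteratedDeriv_zero]
    have : ((f (x + y) : ℝ) : ℂ) / (y : ℂ) ^ m = ((f (x + y) / y ^ m : ℝ) : ℂ) := by
      push_cast
      rfl
    rw [this, Complex.ofReal_re]
  set c := iteratedDeriv m f x / m.factorial with hc
  have hc0 : c ≠ 0 := div_ne_zero hm' (by exact_mod_cast Nat.factorial_ne_zero m)
  have h3 : ∀ᶠ y in 𝓝[≠] (0 : ℝ), 0 < f (x + y) / y ^ m * c := by
    have h4 : Tendsto (fun y : ℝ => f (x + y) / y ^ m * c) (𝓝[≠] 0) (𝓝 (c * c)) :=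
      h2.mul_const _
    exact h4.eventually (lt_mem_nhds (mul_self_pos.2 hc0))
  rw [eventually_nhdsWithin_iff, Metric.eventually_nhds_iff] at h3
  obtain ⟨ε, hε, h4⟩ := h3
  obtain ⟨δ, hδ, hδε, hδδ⟩ : ∃ δ > 0, δ < ε ∧ δ < δ0 := by
    refine ⟨min ε δ0 / 2, ?_, ?_, ?_⟩
    · have : 0 < min ε δ0 := lt_min hε hδ0
      linarith
    · have : min ε δ0 ≤ ε := min_le_left _ _
      linarith
    · have : min ε δ0 ≤ δ0 := min_le_right _ _
      linarith
  have h5 := h4 (y := δ) (by rwa [Real.dist_eq, sub_zero, abs_of_pos hδ]) hδ.ne'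
  have h6 := h4 (y := -δ) (by rwa [Real.dist_eq, sub_zero, abs_neg, abs_of_pos hδ])
    (neg_ne_zero.2 hδ.ne')
  have hpos : 0 < (-1 : ℝ) ^ m * (f (x - δ) * f (x + δ)) := by
    have e1 : x + -δ = x - δ := by ring
    rw [e1] at h6
    have h7 := mul_pos h5 h6
    have hδm : (δ ^ m) ≠ 0 := pow_ne_zero _ hδ.ne'
    have e2 : (-δ) ^ m = (-1) ^ m * δ ^ m := by
      rw [← mul_pow]
      congr 1
      ring
    have e3 : ((-1 : ℝ) ^ m) * (-1 : ℝ) ^ m = 1 := by
      rw [← mul_pow]
      norm_num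
    have hs : ((-1 : ℝ) ^ m) ≠ 0 := pow_ne_zero _ (by norm_num)
    have e4 : f (x + δ) / δ ^ m * c * (f (x - δ) / (-δ) ^ m * c) =
        ((-1 : ℝ) ^ m * (f (x - δ) * f (x + δ))) * (c / δ ^ m) ^ 2 := by
      rw [e2]
      have e5 : f (x - δ) / ((-1) ^ m * δ ^ m) = (-1) ^ m * (f (x - δ) / δ ^ m) := by
        rw [div_eq_iff (mul_ne_zero hs hδm)]
        calc f (x - δ) = ((-1) ^ m * (-1) ^ m) * (f (x - δ) / δ ^ m * δ ^ m) := by
              rw [e3, one_mul, div_mul_cancel₀ _ hδm]
          _ = _ := by ring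
      rw [e5]
      ring
    rw [e4] at h7
    have h8 : 0 < (c / δ ^ m) ^ 2 := by positivity
    exact (mul_pos_iff_of_pos_right h8).1 h7
  have hlim2 : Tendsto (fun ν => (-1 : ℝ) ^ m * (g ν (x - δ) * g ν (x + δ))) atTop
      (𝓝 ((-1 : ℝ) ^ m * (f (x - δ) * f (x + δ)))) :=
    ((hlim _).mul (hlim _)).const_mul _
  have hev := hlim2.eventually (lt_mem_nhds hpos)
  obtain ⟨ν, hν1, Z, hZq, hZ1, hZ2⟩ := (hev.and (hz δ ⟨hδ, hδδ⟩)).exists
  have hne : g ν (x - δ) * g ν (x + δ) ≠ 0 := right_ne_zero_of_mul hν1.ne'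
  have h7 := sign_count (g ν) (hg ν) (x - δ) (x + δ) (by linarith) (left_ne_zero_of_mul hne)
    (right_ne_zero_of_mul hne) Z hZ1 hZ2
  rw [hZq] at h7
  have h8 := mul_pos hν1 h7
  have e1 : (-1 : ℝ) ^ m * (g ν (x - δ) * g ν (x + δ)) *
      ((-1 : ℝ) ^ q * (g ν (x - δ) * g ν (x + δ))) =
      (-1 : ℝ) ^ (m + q) * (g ν (x - δ) * g ν (x + δ)) ^ 2 := by
    rw [pow_add]
    ring
  rw [e1] at h8
  have h9 : 0 < (g ν (x - δ) * g ν (x + δ)) ^ 2 := by positivity
  have h10 := (mul_pos_iff_of_pos_right h9).1 h8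
  have h11 : Even (m + q) := by
    by_contra hodd
    rw [Nat.not_even_iff_odd] at hodd
    rw [hodd.neg_one_pow] at h10
    linarith
  have := Nat.even_iff.1 h11
  omega

end GTC
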