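import Pool.Agent.GTR.GoodUse
import Pool.Agent.GTR.Ddf
import Pool.Agent.GTR.Parl
import Pool.Agent.GTR.LimOpn

/-!
# GTR ParClosed : (3.3), the parity statement at a limit of good curves

PROOF.  Let `Prob (k l) c`, `SolM k (Γ s0) c` finite, `FR u`, `Van k (Γ s0) c u`.  `approx` gives
`τ, t, H, h`.  `Sol (ch h) = SolM k (Γ s0) c` is finite, `ch (H ν) → ch h`, and eventually
`Sol (ch (H ν)) = Sol (ch (sp k (Γ (s ν)) (t ν)))` consists of real points (`RR.real`).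
`lim_real`: `rs u = rs (cm v)` with `v` real, `FR v`; `v` is a solution of `h` (`issol_cm`, and `Van` depends only on
the row space).
Parity at `x ∈ Ico 0 π`: let `IsOrd k (Γ s0) u x m`; by `isOrd_rs` the same for `cm v`, and for
`f y = lf (wf k (Γ s0) y) v` this means `iteratedDeriv j f x = 0` for `j < m`, `≠ 0` for `j = m`
(`lf_pf`, `lf_cm`).  By `pers_real` (applied to shrinking neighbourhoods of `v`; choose a sequence) there
are real `v ν → v` with `IsSol (H ν) (v ν)` for large `ν` (put `v ν = v` for the others), so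
`lf (wf k (Γ (s ν)) (t ν i)) (v ν) = 0` for all `i`.  Let `g ν y = lf (wf k (Γ (s ν)) y) (v ν)`;
`g ν y → f y`.  `good_zeros`: for large `ν` the zeros of `g ν` in `Ico 0 π` are exactly the `t ν i`,
all simple; by `pf_twist` the zeros in `ℝ` are the `t ν i + π ℤ`, all simple.
Choose `δ0 > 0` with: `δ0 < |x - τ i|` whenever `τ i ≠ x`; `x + δ0 < π`; `δ0 < π - τ i` for all `i`, and
if `x > 0` also `δ0 < x`.  For `0 < δ < δ0` and large `ν` the zeros of `g ν` in `[x - δ, x + δ]` are exactly the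
`t ν i` with `τ i = x` (different, so `c x` of them): a zero `t ν i + π a`, `a ≠ 0`, in this
interval: `a ≥ 1` impossible since `x + δ < π ≤ t ν i + π`; `a ≤ -1`: `t ν i - π < x - δ` for large `ν` because
if `x > 0` `t ν i - π < 0 < x - δ`, and if `x = 0` `t ν i - π → τ i - π < - δ0`.
`parity_lim` with `q = c x`.
-/

set_option autoImplicit false

open Matrix Real Set Topology Filter

namespace GTC

private theorem seq_choose {X : Type*} [PseudoMetricSpace X] (v : X) (P : ℕ → X → Prop)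
    (h : ∀ ε > 0, ∀ᶠ ν in atTop, ∃ u, dist u v < ε ∧ P ν u) :
    ∃ w : ℕ → X, Tendsto w atTop (𝓝 v) ∧ ∀ᶠ ν in atTop, P ν (w ν) := by
  classical
  have h1 : ∀ ν, (∃ u, P ν u) → ∃ u, P ν u ∧ ∀ u', P ν u' →
      dist u v < dist u' v + 1 / ((ν : ℝ) + 1) := by
    intro ν hν
    set A : Set ℝ := (fun u => dist u v) '' {u | P ν u} with hA
    have hAne : A.Nonempty := by
      obtain ⟨u, hu⟩ := hν
      exact ⟨_, u, hu, rfl⟩
    have hAb : BddBelow A := ⟨0, by
      rintro _ ⟨u, -, rfl⟩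
      exact dist_nonneg⟩
    obtain ⟨_, ⟨u, hu, rfl⟩, hlt⟩ := exists_lt_of_csInf_lt hAne
      (show sInf A < sInf A + 1 / ((ν : ℝ) + 1) by
        have : (0 : ℝ) < 1 / ((ν : ℝ) + 1) := by positivity
        linarith)
    refine ⟨u, hu, fun u' hu' => ?_⟩
    have h2 : sInf A ≤ dist u' v := csInf_le hAb ⟨u', hu', rfl⟩
    have h3 : dist u v < sInf A + 1 / ((ν : ℝ) + 1) := hlt
    linarith
  have : Nonempty X := ⟨v⟩
  choose! w hw using h1
  refine ⟨w, ?_, ?_⟩
  · rw [Metric.tendsto_atTop']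
    intro ε hε
    have h2 := h (ε / 2) (by positivity)
    have h3 : ∀ᶠ ν : ℕ in atTop, 1 / ((ν : ℝ) + 1) < ε / 2 :=
      tendsto_one_div_add_atTop_nhds_zero_nat.eventually_lt_const (by positivity)
    obtain ⟨N, hN⟩ := eventually_atTop.1 (h2.and h3)
    refine ⟨N, fun ν hν => ?_⟩
    obtain ⟨⟨u, hu, hPu⟩, h4⟩ := hN ν hν.le
    have h5 := (hw ν ⟨u, hPu⟩).2 u hPu
    linarith
  · filter_upwards [h 1 one_pos] with ν hν
    obtain ⟨u, -, hPu⟩ := hν
    exact (hw ν ⟨u, hPu⟩).1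

private theorem van_sol {k n N : ℕ} {γ : ℝ → Fin n → ℝ} {c : ℝ →₀ ℕ} {h : Fin N → Cf ℝ k n}
    (hh : ∀ u : Matrix (Fin k) (Fin n) ℂ, (∀ i, lf (cc (h i)) u = 0) ↔ Van k γ c u) :
    Sol (ch h) = SolM k γ c := by
  ext L
  constructor
  · rintro ⟨u, hu, rfl⟩
    exact ⟨u, hu.1, (hh u).1 hu.2, rfl⟩
  · rintro ⟨u, hu1, hu2, rfl⟩
    exact ⟨u, ⟨hu1, (hh u).2 hu2⟩, rfl⟩

private theorem sol_congr {k n N : ℕ} {h h' : Fin N → Cf ℝ k n}
    (hh : ∀ u : Matrix (Fin k) (Fin n) ℂ, (∀ i, lf (cc (h i)) u = 0) ↔ ∀ i, lf (cc (h' i)) u = 0) :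
    Sol (ch h) = Sol (ch h') := by
  ext L
  constructor
  · rintro ⟨u, hu, rfl⟩
    exact ⟨u, ⟨hu.1, (hh u).1 hu.2⟩, rfl⟩
  · rintro ⟨u, hu, rfl⟩
    exact ⟨u, ⟨hu.1, (hh u).2 hu.2⟩, rfl⟩

private theorem issol_congr {k n N : ℕ} {h h' : Fin N → Cf ℝ k n}
    (hh : ∀ u : Matrix (Fin k) (Fin n) ℂ, (∀ i, lf (cc (h i)) u = 0) ↔ ∀ i, lf (cc (h' i)) u = 0)
    {u : Matrix (Fin k) (Fin n) ℝ} (hu : IsSol h u) : IsSol h' u := by
  rw [← issol_cm] at hu ⊢
  exact ⟨hu.1, (hh _).1 hu.2⟩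

/-- the small number `δ0` -/
private theorem delta {N : ℕ} (τ : Fin N → ℝ) (hτ : ∀ i, τ i ∈ Ico 0 π) {x : ℝ}
    (hx : x ∈ Ico 0 π) : ∃ δ0 : ℝ, 0 < δ0 ∧ (∀ i, τ i ≠ x → δ0 < |x - τ i|) ∧
      x + δ0 < π ∧ (∀ i, δ0 < π - τ i) ∧ (0 < x → δ0 < x) := by
  have hs : ∀ a : ℝ, 0 < a → ∀ᶠ δ in 𝓝[>] (0 : ℝ), δ < a := fun a ha =>
    nhdsWithin_le_nhds (eventually_lt_nhds ha)
  have h1 : ∀ᶠ δ in 𝓝[>] (0 : ℝ), ∀ i, τ i ≠ x → δ < |x - τ i| := by
    rw [eventually_all]
    intro i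
    by_cases h : τ i = x
    · exact Eventually.of_forall fun δ hne => absurd h hne
    · filter_upwards [hs _ (abs_pos.2 (sub_ne_zero.2 (Ne.symm h)))] with δ hδ _
      exact hδ
  have h2 : ∀ᶠ δ in 𝓝[>] (0 : ℝ), x + δ < π := by
    filter_upwards [hs (π - x) (by linarith [hx.2])] with δ hδ
    linarith
  have h3 : ∀ᶠ δ in 𝓝[>] (0 : ℝ), ∀ i, δ < π - τ i := by
    rw [eventually_all]
    intro i
    exact hs _ (by linarith [(hτ i).2])
  have h4 : ∀ᶠ δ in 𝓝[>] (0 : ℝ), 0 < x → δ < x := by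
    by_cases h : 0 < x
    · filter_upwards [hs x h] with δ hδ _
      exact hδ
    · exact Eventually.of_forall fun δ h' => absurd h' h
  obtain ⟨δ, ⟨⟨⟨h5, h6⟩, h7⟩, h8⟩, h9⟩ :=
    ((((h1.and h2).and h3).and h4).and self_mem_nhdsWithin).exists
  exact ⟨δ, h9, h5, h6, h7, h8⟩

theorem par_closed {k l : ℕ} (hk : 1 ≤ k) (hl : 1 ≤ l) (Γ : ℝ → ℝ → Fin (k + l) → ℝ)
    (hΓ : Family Γ) (s : ℕ → ℝ) (s0 : ℝ) (hs : Tendsto s atTop (𝓝 s0))
    (hG : ∀ ν, GOOD k l (Γ (s ν))) (F : ℕ)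
    (hR : ∀ ν, ∀ t, Simple t → RR (sp k (Γ (s ν)) t) F) : PAR k l (Γ s0) := by
  classical
  intro c hc hSfin u hu hVu
  obtain ⟨τ, t, H, h, hτ, hτc, ht, hsimple, hH, heq, hh⟩ :=
    approx (k := k) (N := k * l) Γ hΓ s s0 hs c hc
  have hSol : Sol (ch h) = SolM k (Γ s0) c := van_sol hh
  have hfin : (Sol (ch h)).Finite := by rw [hSol]; exact hSfin
  have hreal : ∀ᶠ ν in atTop, ∀ K ∈ Sol (ch (H ν)),
      ∃ u : Matrix (Fin k) (Fin (k + l)) ℝ, FR u ∧ K = rs (cm u) := by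
    filter_upwards [heq, hsimple] with ν h1 h2 K hK
    rw [sol_congr h1] at hK
    exact (hR ν (t ν) h2).real K hK
  have husol : IsSol (ch h) u := ⟨hu, (hh u).2 hVu⟩
  obtain ⟨v, hv, huv⟩ := lim_real hk h hfin atTop H hH hreal (rs u) ⟨u, husol, rfl⟩
  refine ⟨⟨v, hv, huv.symm⟩, ?_⟩
  have hvsol : IsSol h v := by
    obtain ⟨g, hg, hgu⟩ := rs_eq u (cm v) hu ((fr_cm v).2 hv) huv
    rw [← issol_cm, hgu, issol_mul (ch h) g hg]
    exact husol
  intro x hx m hm
  rw [isOrd_rs u (cm v) hu ((fr_cm v).2 hv) huv] at hm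
  have hsm : ∀ a, ContDiff ℝ (⊤ : ℕ∞) (Γ a) := fun a => (hΓ.nice a).smooth
  -- the sequence of real solutions
  obtain ⟨w, hw, hwsol⟩ : ∃ w : ℕ → (Fin k → Fin (k + l) → ℝ), Tendsto w atTop (𝓝 v) ∧
      ∀ᶠ ν in atTop, IsSol (H ν) (w ν : Matrix (Fin k) (Fin (k + l)) ℝ) := by
    apply seq_choose (X := Fin k → Fin (k + l) → ℝ) v
      (fun ν u => IsSol (H ν) (u : Matrix (Fin k) (Fin (k + l)) ℝ))
    intro ε hε
    have h1 : @Metric.ball (Fin k → Fin (k + l) → ℝ) _ v ε ∈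
        @nhds (Fin k → Fin (k + l) → ℝ) _ v :=
      Metric.ball_mem_nhds _ hε
    filter_upwards [hH.eventually (pers_real hk h hfin v hvsol
      (@Metric.ball (Fin k → Fin (k + l) → ℝ) _ v ε) h1), hreal] with ν h2 h3
    obtain ⟨u', hu', hu''⟩ := h2 h3
    exact ⟨u', hu', hu''⟩
  obtain ⟨W, hW, hWsol⟩ : ∃ W : ℕ → Matrix (Fin k) (Fin (k + l)) ℝ, Tendsto W atTop (𝓝 v) ∧
      ∀ᶠ ν in atTop, IsSol (H ν) (W ν) := ⟨w, hw, hwsol⟩
  have hwsp : ∀ᶠ ν in atTop, IsSol (sp k (Γ (s ν)) (t ν)) (W ν) := by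
    filter_upwards [heq, hWsol] with ν h1 h2
    exact issol_congr h1 h2
  obtain ⟨δ0, hδ0, hd1, hd2, hd3, hd4⟩ := delta τ hτ hx
  set f : ℝ → ℝ := fun y => lf (wf k (Γ s0) y) v with hf
  set g : ℕ → ℝ → ℝ := fun ν y => lf (wf k (Γ (s ν)) y) (W ν) with hg
  have hord : ∀ j, lf (cc (pf k (Γ s0) x j)) (cm v) = ((iteratedDeriv j f x : ℝ) : ℂ) := by
    intro j
    rw [lf_cm, lf_pf (hsm s0)]
  apply parity_lim f (W_contDiff (hsm s0) v) x m ?_ ?_ g
    (fun ν => (W_contDiff (hsm (s ν)) (W ν)).differentiable (by simp)) ?_ (c x) δ0 hδ0 ?_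
  · intro j hj
    have h1 := hm.1 j hj
    rw [hord] at h1
    exact Complex.ofReal_eq_zero.1 h1
  · intro h0
    apply hm.2
    rw [hord, h0]
    rfl
  · intro y
    have h1 : Tendsto (fun ν => wf k (Γ (s ν)) y) atTop (𝓝 (wf k (Γ s0) y)) := by
      have h3 : Tendsto (fun ν => ((s ν, y) : ℝ × ℝ)) atTop (𝓝 (s0, y)) :=
        hs.prodMk_nhds tendsto_const_nhds
      have h2' := ((pf_continuous (k := k) hΓ 0).tendsto (s0, y)).comp h3
      have h5 : ((fun p : ℝ × ℝ => pf k (Γ p.1) p.2 0) ∘ fun ν => ((s ν, y) : ℝ × ℝ)) =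
          fun ν => wf k (Γ (s ν)) y := by
        funext ν
        rw [Function.comp_apply, pf_zero]
      rw [h5, pf_zero] at h2'
      exact h2'
    have h6 : Tendsto (fun ν => ((wf k (Γ (s ν)) y, W ν) :
        Cf ℝ k (k + l) × Matrix (Fin k) (Fin (k + l)) ℝ)) atTop (𝓝 (wf k (Γ s0) y, v)) :=
      h1.prodMk_nhds hW
    have h7 := ((lf_continuous_real k (k + l)).tendsto (wf k (Γ s0) y, v)).comp h6
    have h8 : ((fun p : Cf ℝ k (k + l) × Matrix (Fin k) (Fin (k + l)) ℝ => lf p.1 p.2) ∘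
        fun ν => ((wf k (Γ (s ν)) y, W ν) :
          Cf ℝ k (k + l) × Matrix (Fin k) (Fin (k + l)) ℝ)) = fun ν => g ν y := by
      funext ν
      rfl
    rw [h8] at h7
    exact h7
  · intro δ hδ
    have hnear : ∀ᶠ ν in atTop, ∀ i, |t ν i - τ i| < min δ (δ0 - δ) := by
      rw [eventually_all]
      intro i
      have h1 := (Metric.tendsto_nhds.1 (ht i)) (min δ (δ0 - δ))
        (lt_min hδ.1 (by linarith [hδ.2]))
      exact h1
    filter_upwards [hnear, hsimple, hwsp] with ν h1 h2 h3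
    have h1a : ∀ i, |t ν i - τ i| < δ := fun i => (h1 i).trans_le (min_le_left _ _)
    have h1b : ∀ i, |t ν i - τ i| < δ0 - δ := fun i => (h1 i).trans_le (min_le_right _ _)
    obtain ⟨h4, h5⟩ := good_zeros (hΓ.nice (s ν)) (hG ν) (t ν) h2 _ h3
    refine ⟨(Finset.univ.filter fun i => τ i = x).image (t ν), ?_, ?_, ?_⟩
    · rw [Finset.card_image_of_injective _ h2.1, hτc]
    · intro y hy
      constructor
      · intro hgy
        -- `y` is one of the `t ν i`
        have h6 : ∃ i, t ν i = y := by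
          rcases lt_or_ge y 0 with hy0 | hy0
          · exfalso
            have hx0 : x = 0 := by
              by_contra hne
              have h7 : 0 < x := lt_of_le_of_ne hx.1 (Ne.symm hne)
              have h8 := hd4 h7
              linarith [hy.1, hδ.2]
            have h9 : lf (wf k (Γ (s ν)) (y + π)) (W ν) = 0 := by
              have h10 := pf_twist (k := k) (hΓ.nice (s ν)) y 0
              rw [pf_zero, pf_zero] at h10
              have h11 : lf (wf k (Γ (s ν)) (y + π)) (W ν) =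
                  (((-1 : ℝ) ^ (k + l - 1)) ^ k) *
                    lf (wf k (Γ (s ν)) y) (W ν) := by
                rw [h10]
                unfold lf
                rw [Finset.mul_sum]
                refine Finset.sum_congr rfl fun q _ => ?_
                rw [Pi.smul_apply, smul_eq_mul, mul_assoc]
              have h12 : lf (wf k (Γ (s ν)) y) (W ν) = 0 := hgy
              rw [h11, h12, mul_zero]
            have h13 : y + π ∈ Ico 0 π := by
              refine ⟨?_, by linarith⟩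
              linarith [hy.1, hδ.2]
            obtain ⟨i, hi⟩ := h4 (y + π) h13 h9
            have h14 := abs_lt.1 (h1b i)
            have h15 := hd3 i
            rw [hi] at h14
            linarith [hy.1, h14.2]
          · exact h4 y ⟨hy0, by linarith [hy.2, hδ.2]⟩ hgy
        obtain ⟨i, rfl⟩ := h6
        refine Finset.mem_image.2 ⟨i, Finset.mem_filter.2 ⟨Finset.mem_univ _, ?_⟩, rfl⟩
        by_contra hne
        have h7 := hd1 i hne
        have h8 := h1b i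
        have h9 : |x - τ i| ≤ |x - t ν i| + |t ν i - τ i| := abs_sub_le _ _ _
        have h10 : |x - t ν i| ≤ δ := by
          rw [abs_le]
          constructor <;> linarith [hy.1, hy.2]
        linarith
      · intro hyZ
        obtain ⟨i, -, rfl⟩ := Finset.mem_image.1 hyZ
        exact h3.2 i
    · intro y hyZ
      obtain ⟨i, hi, rfl⟩ := Finset.mem_image.1 hyZ
      have hix : τ i = x := (Finset.mem_filter.1 hi).2
      refine ⟨?_, h5 i⟩
      have h7 := abs_lt.1 (h1a i)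
      rw [hix] at h7
      constructor <;> linarith [h7.1, h7.2]

end GTC
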