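import Pool.Agent.GTR.Trans
import Pool.Agent.GTR.P1

/-!
# GTR ParGood : (3.1), (3.2): the parity statement implies GOOD

PROOF of `par_fin` (`N = k l`).  `SolM k γ c` is `Sol` of the finite family of forms `cc (pf k γ x j)`,
`x ∈ c.support`, `j < c x`, so `P1` applies to it.  Suppose `SolM k γ c` is infinite.  Choose `y ∈ Ioo 0 π`
transversal to all points of `c` (`transv_exists`); `y` is not in the support of `c`, because `Transv γ y y`
is false: `FF γ 1 y ≤ FF γ (n-1) y` and `γ y ≠ 0` (`n = k + l ≥ 2`).  For `I ≤ c` let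
`c_I = I + single y (N - |I|)`, `|I| = ∑ I`; `Prob N c_I`.  `c_c = c`.  Let `I ≤ c` be of minimal `|I|` with
`SolM k γ c_I` infinite.
(i) `I` has at least two points in its support: suppose `I = single x a` (`a ≤ N`, `x` in the support
of `c`; if `I = 0` then `P1` with the form `pf k γ y N` gives order `≥ N + 1` at `y`, contradiction to
`ord_le`).  By `P1` there is `u` with `Van k γ c_I u` and `lf (cc (pf k γ y (N - a))) u = 0`: so `u` has all
conditions of order `< a` at `x` and of order `< N - a + 1` at `y`, contradiction to `ord_add_le`.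
(`Transv γ x y`.)
(ii) Let `i ≠ j` be in the support of `I`.  By `P1` there is `u` with `Van k γ c_I u` and
`lf (cc (pf k γ y (N - |I|))) u = 0`.  Then `Van k γ (c_(I - single i 1)) u` and
`Van k γ (c_(I - single j 1)) u`; both problems are finite by minimality.  Let `m` be the order of `W_u` at `i`
(`ord_exists`).  `PAR` for the first: `m = I i - 1` mod 2 (`y ≠ i`), for the second: `m = I i` mod 2.
Contradiction.

PROOF of `par_good`.  Let `u` be real, `FR u`, `c` supported in `Ico 0 π`, all conditions of `c` hold, and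
suppose `∑ c ≥ N + 1`.  Let `μ x` = the order of `W_u` at `x` for `x` in the support of `c`, `0`
elsewhere (`ord_exists` for `cm u`); `c ≤ μ`, so `∑ μ ≥ N + 1`, and `μ x ≤ N` (`ord_le`).  Let `x1` be in the
support of `c`; `μ x1 ≥ 1`.  Choose `c' ≤ μ` with `c' x1 = μ x1 - 1` and `∑ c' = N`: possible since
`μ x1 - 1 ≤ N` and `∑ μ - μ x1 + (μ x1 - 1) = ∑ μ - 1 ≥ N` (decrease the values at the points
different from `x1`).  `Prob N c'`, `Van k γ c' (cm u)`; `par_fin`: finite; `PAR`: the order `μ x1` at `x1` is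
`c' x1 = μ x1 - 1` mod 2: contradiction.
-/

set_option autoImplicit false

open Matrix Real Set

namespace GTC

/-- `P1` for problems with multiplicities. -/
private theorem p1M {k n : ℕ} (hk : 1 ≤ k) {γ : ℝ → Fin n → ℝ} (c : ℝ →₀ ℕ)
    (hinf : (SolM k γ c).Infinite) (f : Cf ℂ k n) : ∃ u, FR u ∧ Van k γ c u ∧ lf f u = 0 := by
  classical
  have key : ∀ u : Matrix (Fin k) (Fin n) ℂ,
      IsSol (fun i : (Σ x : c.support, Fin (c x)) => cc (pf k γ i.1 i.2)) u ↔
        FR u ∧ Van k γ c u := by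
    intro u
    constructor
    · rintro ⟨h1, h2⟩
      refine ⟨h1, fun x j hj => ?_⟩
      have hx : x ∈ c.support := Finsupp.mem_support_iff.2 (by omega)
      exact h2 ⟨⟨x, hx⟩, ⟨j, hj⟩⟩
    · rintro ⟨h1, h2⟩
      exact ⟨h1, fun i => h2 i.1 i.2 i.2.2⟩
  have hset : Sol (fun i : (Σ x : c.support, Fin (c x)) => cc (pf k γ i.1 i.2)) =
      SolM k γ c := by
    ext L
    constructor
    · rintro ⟨u, hu, rfl⟩
      exact ⟨u, ((key u).1 hu).1, ((key u).1 hu).2, rfl⟩
    · rintro ⟨u, h1, h2, rfl⟩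
      exact ⟨u, (key u).2 ⟨h1, h2⟩, rfl⟩
  obtain ⟨u, hu, hf⟩ := P1 hk (fun i : (Σ x : c.support, Fin (c x)) => cc (pf k γ i.1 i.2))
    (by rw [hset]; exact hinf) f
  exact ⟨u, ((key u).1 hu).1, ((key u).1 hu).2, hf⟩

private theorem not_transv_self {n : ℕ} (hn : 2 ≤ n) {γ : ℝ → Fin n → ℝ} {y : ℝ}
    (hy : (jet γ n y).det ≠ 0) : ¬ Transv γ y y := by
  intro h
  have h1 := h 1 (by omega)
  have h2 : γ y ∈ FF γ 1 y :=
    Submodule.subset_span ⟨(⟨0, by omega⟩ : Fin 1), by simp [iteratedDeriv_zero]⟩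
  have h3 : γ y ∈ FF γ (n - 1) y :=
    Submodule.subset_span ⟨(⟨0, by omega⟩ : Fin (n - 1)), by simp [iteratedDeriv_zero]⟩
  have h4 : γ y ∈ FF γ 1 y ⊓ FF γ (n - 1) y := ⟨h2, h3⟩
  rw [h1, Submodule.mem_bot] at h4
  apply hy
  apply Matrix.det_eq_zero_of_column_eq_zero (⟨0, by omega⟩ : Fin n)
  intro j
  simp only [jet, Matrix.of_apply, iteratedDeriv_zero, h4, Pi.zero_apply]

theorem par_fin {k l : ℕ} (hk : 1 ≤ k) (hl : 1 ≤ l) {γ : ℝ → Fin (k + l) → ℝ} (hγ : Nice γ)
    (hP : PAR k l γ) (c : ℝ →₀ ℕ) (hc : Prob (k * l) c) : (SolM k γ c).Finite := by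
  classical
  by_contra hinf
  obtain ⟨y, hy, hT⟩ := transv_exists hγ.smooth hγ.indep c.support 0 π pi_pos
  have hyc : y ∉ c.support := fun h => not_transv_self (by omega) (hγ.indep y) (hT y h)
  have hcdeg : c.degree = k * l := hc.2
  obtain ⟨cI, hcI⟩ : ∃ cI : (ℝ →₀ ℕ) → (ℝ →₀ ℕ), ∀ I, cI I = I + Finsupp.single y (k * l - I.degree) :=
    ⟨_, fun _ => rfl⟩
  have hcc : cI c = c := by rw [hcI, hcdeg, Nat.sub_self, Finsupp.single_zero, add_zero]
  have hdeg : ∀ I ≤ c, I.degree ≤ k * l := fun I hI => hcdeg ▸ Finsupp.degree_mono hI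
  have hIy : ∀ I ≤ c, I y = 0 := by
    intro I hI
    have h1 := hI y
    rw [Finsupp.notMem_support_iff.1 hyc] at h1
    omega
  have hcIy : ∀ I ≤ c, cI I y = k * l - I.degree := by
    intro I hI
    rw [hcI, Finsupp.add_apply, hIy I hI, Finsupp.single_eq_same, zero_add]
  have hcIx : ∀ I x, x ≠ y → cI I x = I x := by
    intro I x hx
    rw [hcI, Finsupp.add_apply, Finsupp.single_eq_of_ne hx, add_zero]
  have hprob : ∀ I ≤ c, Prob (k * l) (cI I) := by
    intro I hI
    refine ⟨fun x hx => ?_, ?_⟩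
    · by_cases hxy : x = y
      · rw [hxy]
        exact ⟨hy.1.le, hy.2⟩
      · apply hc.1
        rw [Finsupp.mem_support_iff] at hx ⊢
        rw [hcIx I x hxy] at hx
        have := hI x
        omega
    · change (cI I).degree = k * l
      rw [hcI, map_add, Finsupp.degree_single]
      have := hdeg I hI
      omega
  have hex : ∃ n, ∃ I ≤ c, I.degree = n ∧ (SolM k γ (cI I)).Infinite :=
    ⟨_, c, le_rfl, rfl, by rw [hcc]; exact hinf⟩
  obtain ⟨I, hI, hIn, hIinf⟩ := Nat.find_spec hex
  have hmin : ∀ I' ≤ c, I'.degree < I.degree → (SolM k γ (cI I')).Finite := by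
    intro I' hI' hlt
    by_contra hf
    rw [hIn] at hlt
    exact Nat.find_min hex hlt ⟨I', hI', rfl, hf⟩
  obtain ⟨u, hu, hvan, hlast⟩ := p1M hk (cI I) hIinf (cc (pf k γ y (k * l - I.degree)))
  have hcy : ∀ j < k * l - I.degree + 1, lf (cc (pf k γ y j)) u = 0 := by
    intro j hj
    rcases Nat.lt_or_ge j (k * l - I.degree) with h1 | h1
    · exact hvan y j (by rw [hcIy I hI]; exact h1)
    · have h2 : j = k * l - I.degree := by omega
      rw [h2]
      exact hlast
  have htwo : ∃ i ∈ I.support, ∃ j ∈ I.support, i ≠ j := by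
    by_contra hno
    push Not at hno
    have h1 : I.support.card ≤ 1 := Finset.card_le_one.2 fun a ha b hb => hno a ha b hb
    obtain ⟨x, a, hxa⟩ := Finsupp.card_support_le_one'.1 h1
    have hda : I.degree = a := by rw [hxa, Finsupp.degree_single]
    rcases Nat.eq_zero_or_pos a with h0 | h0
    · rw [hda, h0] at hcy
      have h2 := ord_le hk hγ.smooth y (hγ.indep y) u hu _ hcy
      omega
    · have hIx : I x = a := by rw [hxa, Finsupp.single_eq_same]
      have hx : x ∈ c.support := by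
        rw [Finsupp.mem_support_iff]
        have := hI x
        omega
      have hxy : x ≠ y := fun h => hyc (h ▸ hx)
      have h2 := ord_add_le hk hγ.smooth x y (hγ.indep x) (hγ.indep y) (hT x hx) u hu a _
        (fun j hj => hvan x j (by rw [hcIx I x hxy, hIx]; exact hj)) hcy
      have h3 := hdeg I hI
      omega
  obtain ⟨i, hi, j, hj, hij⟩ := htwo
  have hsupp : ∀ t ∈ I.support, t ∈ c.support := by
    intro t ht
    rw [Finsupp.mem_support_iff] at ht ⊢
    have := hI t
    omega
  have hiy : i ≠ y := fun h => hyc (h ▸ hsupp i hi)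
  obtain ⟨m, hm⟩ := ord_exists hγ.smooth i (hγ.indep i) u hu
  have hstep : ∀ t ∈ I.support, m % 2 = (I - Finsupp.single t 1 : ℝ →₀ ℕ) i % 2 := by
    intro t ht
    have hle : I - Finsupp.single t 1 ≤ c := tsub_le_self.trans hI
    have h1 : I = (I - Finsupp.single t 1) + Finsupp.single t 1 := by
      refine (tsub_add_cancel_of_le ?_).symm
      rw [Finsupp.single_le_iff]
      have := Finsupp.mem_support_iff.1 ht
      omega
    have h2 : I.degree = (I - Finsupp.single t 1).degree + 1 := by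
      conv_lhs => rw [h1]
      rw [map_add, Finsupp.degree_single]
    have hd := hdeg I hI
    have hv : Van k γ (cI (I - Finsupp.single t 1)) u := by
      intro x q hq
      by_cases hxy : x = y
      · rw [hxy, hcIy _ hle] at hq
        rw [hxy]
        exact hcy q (by omega)
      · rw [hcIx _ x hxy] at hq
        apply hvan x q
        rw [hcIx _ x hxy]
        have h3 : (I - Finsupp.single t 1 : ℝ →₀ ℕ) x ≤ I x :=
          (tsub_le_self : I - Finsupp.single t 1 ≤ I) x
        omega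
    have h3 := (hP _ (hprob _ hle) (hmin _ hle (by omega)) u hu hv).2 i (hc.1 i (hsupp i hi)) m hm
    rw [hcIx _ i hiy] at h3
    exact h3
  have h1 := hstep i hi
  have h2 := hstep j hj
  rw [Finsupp.tsub_apply, Finsupp.single_eq_same] at h1
  rw [Finsupp.tsub_apply, Finsupp.single_eq_of_ne hij] at h2
  have h3 := Finsupp.mem_support_iff.1 hi
  omega

theorem par_good {k l : ℕ} (hk : 1 ≤ k) (hl : 1 ≤ l) {γ : ℝ → Fin (k + l) → ℝ} (hγ : Nice γ)
    (hP : PAR k l γ) : GOOD k l γ := by
  classical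
  intro u hu c hc hcond
  by_contra hlt
  change ¬ c.degree ≤ k * l at hlt
  have hu' : FR (cm u) := (fr_cm u).2 hu
  have hcond' : ∀ x, ∀ j < c x, lf (cc (pf k γ x j)) (cm u) = 0 := by
    intro x j hj
    rw [lf_cm, hcond x j hj, Complex.ofReal_zero]
  choose o ho using fun x => ord_exists hγ.smooth x (hγ.indep x) (cm u) hu'
  have hco : ∀ x, c x ≤ o x := by
    intro x
    by_contra h
    exact (ho x).2 (hcond' x (o x) (by omega))
  have hoN : ∀ x, o x ≤ k * l := fun x =>
    ord_le hk hγ.smooth x (hγ.indep x) (cm u) hu' (o x) (ho x).1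
  obtain ⟨μ, hμ⟩ : ∃ μ : ℝ →₀ ℕ, ∀ x, μ x = if x ∈ c.support then o x else 0 :=
    ⟨Finsupp.onFinset c.support (fun x => if x ∈ c.support then o x else 0)
      (fun x hx => by by_contra h; exact hx (if_neg h)), fun x => rfl⟩
  have hcμ : c ≤ μ := by
    intro x
    rw [hμ]
    split_ifs with h
    · exact hco x
    · rw [Finsupp.notMem_support_iff.1 h]
  have hμo : ∀ x, μ x ≤ o x := by
    intro x
    rw [hμ]
    split_ifs
    · exact le_rfl
    · exact Nat.zero_le _
  have hdμ : c.degree ≤ μ.degree := Finsupp.degree_mono hcμ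
  obtain ⟨x1, hx1⟩ : c.support.Nonempty := by
    rw [Finset.nonempty_iff_ne_empty]
    intro h
    apply hlt
    rw [Finsupp.support_eq_empty.1 h, map_zero]
    exact Nat.zero_le _
  have hμ1 : μ x1 = o x1 := by rw [hμ, if_pos hx1]
  have ho1 : 1 ≤ o x1 := by
    have := Finsupp.mem_support_iff.1 hx1
    have := hco x1
    omega
  -- the rest of `μ`
  have hsplit : μ.erase x1 + Finsupp.single x1 (μ x1) = μ := Finsupp.erase_add_single x1 μ
  have hdsplit : (μ.erase x1).degree + μ x1 = μ.degree := by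
    conv_rhs => rw [← hsplit]
    rw [map_add, Finsupp.degree_single]
  have hN1 := hoN x1
  obtain ⟨g, hg, hgd⟩ := Finsupp.exists_le_degree_eq (μ.erase x1) (k * l - (o x1 - 1)) (by omega)
  have hgx1 : g x1 = 0 := by
    have := hg x1
    rw [Finsupp.erase_same] at this
    omega
  have hgle : ∀ x, g x ≤ μ x := by
    intro x
    have h1 := hg x
    by_cases hx : x = x1
    · rw [hx, hgx1]
      exact Nat.zero_le _
    · rwa [Finsupp.erase_ne hx] at h1
  obtain ⟨c', hc'⟩ : ∃ c' : ℝ →₀ ℕ, c' = g + Finsupp.single x1 (o x1 - 1) := ⟨_, rfl⟩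
  have hc'x1 : c' x1 = o x1 - 1 := by
    rw [hc', Finsupp.add_apply, hgx1, Finsupp.single_eq_same, zero_add]
  have hc'le : ∀ x, c' x ≤ μ x := by
    intro x
    by_cases hx : x = x1
    · rw [hx, hc'x1, hμ1]
      exact Nat.sub_le _ _
    · rw [hc', Finsupp.add_apply, Finsupp.single_eq_of_ne hx, add_zero]
      exact hgle x
  have hprob : Prob (k * l) c' := by
    refine ⟨fun x hx => ?_, ?_⟩
    · apply hc
      by_contra hxc
      have h1 := hc'le x
      rw [hμ, if_neg hxc] at h1
      have h2 := Finsupp.mem_support_iff.1 hx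
      omega
    · change c'.degree = k * l
      rw [hc', map_add, Finsupp.degree_single, hgd]
      omega
  have hvan : Van k γ c' (cm u) := by
    intro x j hj
    exact (ho x).1 j (lt_of_lt_of_le hj ((hc'le x).trans (hμo x)))
  have h1 := (hP c' hprob (par_fin hk hl hγ hP c' hprob) (cm u) hu' hvan).2 x1 (hc x1 hx1)
    (o x1) (ho x1)
  rw [hc'x1] at h1
  omega

end GTC
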