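import Pool.Agent.GTR.Cont
import Pool.Agent.GTR.Ddf
import Pool.Agent.GTR.OrdCor
import Pool.Agent.GTR.P1
import Pool.Agent.GTR.FO

/-!
# GTR PartA : section 5
-/

set_option autoImplicit false

open Matrix Topology Filter Set Real

namespace GTC

theorem cc_continuous45 (k n N : ℕ) : Continuous fun h : Fin N → Cf ℝ k n => ch h := by
  refine continuous_pi fun i => continuous_pi fun t => ?_
  exact Complex.continuous_ofReal.comp ((continuous_apply t).comp (continuous_apply i))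

theorem lf_ch_comb45 {k n M : ℕ} (c : Fin M → Cf ℝ k n) (r : Fin M → ℝ)
    (u : Matrix (Fin k) (Fin n) ℂ) (h : ∀ j, lf (cc (c j)) u = 0) :
    lf (cc (∑ j, r j • c j)) u = 0 := by
  have h1 : cc (∑ j, r j • c j) = fun t => ∑ j ∈ Finset.univ, (r j : ℂ) * cc (c j) t := by
    funext t
    unfold cc
    rw [Finset.sum_apply, Complex.ofReal_sum]
    refine Finset.sum_congr rfl fun j _ => ?_
    rw [Pi.smul_apply, smul_eq_mul, Complex.ofReal_mul]
  rw [h1, lf_comb]
  refine Finset.sum_eq_zero fun j _ => ?_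
  rw [h j, mul_zero]

section main

variable {m l F : ℕ} {Γ : ℝ → ℝ → Fin (m + 1 + l) → ℝ}

/-- the problem `(N y)` is finite. -/
theorem fin_top {γ : ℝ → Fin (m + 1 + l) → ℝ} (hl : 1 ≤ l) (hγ : Nice γ) (y : ℝ) :
    (Sol (ch fun r : Fin ((m + 1) * l) =>
      ((Nat.factorial (r : ℕ) : ℝ)⁻¹ • pf (m + 1) γ y (r : ℕ)))).Finite := by
  obtain ⟨v, -, hv⟩ := ord_top (k := m + 1) (by omega) hl hγ.smooth y (hγ.indep y)
  refine (Set.finite_singleton (rs (cm v))).subset ?_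
  rintro L ⟨u, hu, rfl⟩
  refine hv u hu.1 fun j hj => ?_
  have h1 := hu.2 ⟨j, hj⟩
  have h2 : ch (fun r : Fin ((m + 1) * l) =>
      ((Nat.factorial (r : ℕ) : ℝ)⁻¹ • pf (m + 1) γ y (r : ℕ))) ⟨j, hj⟩ =
      fun t => ∑ i ∈ (Finset.univ : Finset (Fin 1)), (((Nat.factorial j : ℝ)⁻¹ : ℝ) : ℂ) *
        cc (pf (m + 1) γ y j) t := by
    funext t
    rw [Finset.sum_const, Finset.card_univ, Fintype.card_fin, one_smul]
    show (((Nat.factorial j : ℝ)⁻¹ • pf (m + 1) γ y j) t : ℂ) = _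
    rw [Pi.smul_apply, smul_eq_mul, Complex.ofReal_mul]
    rfl
  rw [h2, lf_comb, Finset.sum_const, Finset.card_univ, Fintype.card_fin, one_smul] at h1
  refine (mul_eq_zero.1 h1).resolve_left ?_
  exact Complex.ofReal_ne_zero.2 (inv_ne_zero (Nat.cast_ne_zero.2 (Nat.factorial_ne_zero j)))

/-- clusters near `y` give finite problems, uniformly in `s`. -/
theorem fin_near (hl : 1 ≤ l) (hΓ : Family Γ) (s1 y : ℝ) :
    ∀ᶠ ε in 𝓝[>] (0 : ℝ), ∀ s ∈ Icc 0 s1,
      (Sol (ch (sp (m + 1) (Γ s)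
        (fun j : Fin ((m + 1) * l) => y + ε * ((j : ℝ) + 1))))).Finite := by
  by_contra hcon
  have hfr := not_eventually.1 hcon
  obtain ⟨e, he, hbad⟩ := exists_seq_forall_of_frequently
    (hfr.and_eventually (self_mem_nhdsWithin : Ioi (0 : ℝ) ∈ 𝓝[>] (0 : ℝ)))
  have hs : ∀ ν, ∃ s ∈ Icc 0 s1, ¬ (Sol (ch (sp (m + 1) (Γ s)
        (fun j : Fin ((m + 1) * l) => y + e ν * ((j : ℝ) + 1))))).Finite := by
    intro ν
    have := (hbad ν).1
    push Not at this
    obtain ⟨s, h1, h2⟩ := this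
    exact ⟨s, h1, h2⟩
  choose s hsm hsb using hs
  obtain ⟨s0, -, φ, hφ, hlim⟩ := isCompact_Icc.tendsto_subseq hsm
  have he0 : Tendsto (fun ν => e (φ ν)) atTop (𝓝 0) :=
    (he.mono_right nhdsWithin_le_nhds).comp hφ.tendsto_atTop
  have hH : Tendsto (fun ν => ch (fun r : Fin ((m + 1) * l) => ∑ j : Fin ((r : ℕ) + 1),
        (∏ i ∈ Finset.univ.erase j, (e (φ ν) * ((j : ℝ) - (i : ℝ))))⁻¹ •
          wf (m + 1) (Γ (s (φ ν))) (y + e (φ ν) * ((j : ℝ) + 1)))) atTop
      (𝓝 (ch fun r : Fin ((m + 1) * l) =>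
        ((Nat.factorial (r : ℕ) : ℝ)⁻¹ • pf (m + 1) (Γ s0) y (r : ℕ)))) := by
    have h1 : Tendsto (fun ν => (fun r : Fin ((m + 1) * l) => ∑ j : Fin ((r : ℕ) + 1),
        (∏ i ∈ Finset.univ.erase j, (e (φ ν) * ((j : ℝ) - (i : ℝ))))⁻¹ •
          wf (m + 1) (Γ (s (φ ν))) (y + e (φ ν) * ((j : ℝ) + 1)))) atTop
      (𝓝 (fun r : Fin ((m + 1) * l) =>
        ((Nat.factorial (r : ℕ) : ℝ)⁻¹ • pf (m + 1) (Γ s0) y (r : ℕ)))) := by
      rw [tendsto_pi_nhds]
      intro r
      exact dd_limit Γ hΓ (fun ν => s (φ ν)) s0 hlim y (r : ℕ) (fun ν => e (φ ν))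
        (fun ν => (hbad (φ ν)).2) he0
    have h2 := ((cc_continuous45 (m + 1) (m + 1 + l) ((m + 1) * l)).tendsto
      (fun r : Fin ((m + 1) * l) =>
        ((Nat.factorial (r : ℕ) : ℝ)⁻¹ • pf (m + 1) (Γ s0) y (r : ℕ)))).comp h1
    exact h2
  obtain ⟨ν, hν⟩ := (hH.eventually (FO (k := m + 1) (by omega) _
    (fin_top hl (hΓ.nice s0) y))).exists
  refine hsb (φ ν) (hν.subset ?_)
  rintro L ⟨u, hu, rfl⟩
  refine ⟨u, ⟨hu.1, fun r => ?_⟩, rfl⟩
  refine lf_ch_comb45 (fun j : Fin ((r : ℕ) + 1) =>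
    wf (m + 1) (Γ (s (φ ν))) (y + e (φ ν) * ((j : ℝ) + 1))) _ u fun j => ?_
  exact hu.2 ⟨j, by have := j.2; have := r.2; omega⟩

/-- choice of the auxiliary points. -/
theorem exists_K (hl : 1 ≤ l) (hΓ : Family Γ) (s1 : ℝ) {N : ℕ} (t : Fin N → ℝ) :
    ∃ K : Fin ((m + 1) * l) → ℝ, Simple K ∧ (∀ i j, t i ≠ K j) ∧
      ∀ s ∈ Icc 0 s1, (Sol (ch (sp (m + 1) (Γ s) K))).Finite := by
  obtain ⟨y, hy1, hy2⟩ : ∃ y ∈ Ioo 0 π, y ∉ range t :=
    (Ioo_infinite pi_pos).exists_notMem_finite (finite_range t)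
  have hO : IsOpen (Ioo 0 π \ range t) := isOpen_Ioo.sdiff (finite_range t).isClosed
  have h1 : ∀ᶠ ε in 𝓝[>] (0 : ℝ), ∀ j : Fin ((m + 1) * l),
      y + ε * ((j : ℝ) + 1) ∈ Ioo 0 π \ range t := by
    rw [eventually_all]
    intro j
    have hc : Continuous fun ε : ℝ => y + ε * ((j : ℝ) + 1) := by fun_prop
    have h2 : y + 0 * ((j : ℝ) + 1) ∈ Ioo 0 π \ range t := by
      rw [zero_mul, add_zero]
      exact ⟨hy1, hy2⟩
    exact nhdsWithin_le_nhds (hc.continuousAt.preimage_mem_nhds (hO.mem_nhds h2))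
  have h3 : ∀ᶠ ε in 𝓝[>] (0 : ℝ), ε ∈ Ioi (0 : ℝ) := self_mem_nhdsWithin
  obtain ⟨ε, ⟨h4, h5⟩, h6⟩ := ((h1.and (fin_near (m := m) hl hΓ s1 y)).and h3).exists
  refine ⟨fun j => y + ε * ((j : ℝ) + 1), ⟨?_, fun j => (h4 j).1⟩, fun i j h => ?_, h5⟩
  · intro i j hij
    have h7 : y + ε * ((i : ℝ) + 1) = y + ε * ((j : ℝ) + 1) := hij
    have h8 : ε * ((i : ℝ) + 1) = ε * ((j : ℝ) + 1) := by linarith
    have h9 : ((i : ℝ) + 1) = ((j : ℝ) + 1) := mul_left_cancel₀ (ne_of_gt h6) h8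
    have h10 : ((i : ℕ) : ℝ) = ((j : ℕ) : ℝ) := by linarith
    exact Fin.ext (by exact_mod_cast h10)
  · exact (h4 j).2 ⟨i, h⟩

/-- SECTION 5 -/
theorem partA (hl : 1 ≤ l) (hΓ : Family Γ) {s1 : ℝ} (hs1 : 0 ≤ s1)
    (hG : ∀ s ∈ Icc 0 s1, GOOD (m + 1) l (Γ s))
    (base : ∀ t : Fin ((m + 1) * l) → ℝ, Simple t → PC F (Γ 0) t) :
    ∀ s ∈ Icc 0 s1, ∀ t : Fin ((m + 1) * l) → ℝ, Simple t → PC F (Γ s) t := by
  intro s hs t ht
  obtain ⟨K, hK, htK, hKfin⟩ := exists_K (m := m) hl hΓ s1 t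
  obtain ⟨T, hT⟩ : ∃ T : ℕ → Fin ((m + 1) * l) → ℝ,
    T = fun (r : ℕ) (j : Fin ((m + 1) * l)) => if (j : ℕ) < r then t j else K j := ⟨_, rfl⟩
  have hTS : ∀ r, Simple (T r) := by
    intro r
    refine ⟨fun i j hij => ?_, fun i => ?_⟩
    · have h1 : (if (i : ℕ) < r then t i else K i) = if (j : ℕ) < r then t j else K j := by
        rw [hT] at hij
        exact hij
      split_ifs at h1 with h2 h3 h3
      · exact ht.1 h1
      · exact absurd h1 (htK i j)
      · exact absurd h1.symm (htK j i)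
      · exact hK.1 h1
    · rw [hT]
      show (if (i : ℕ) < r then t i else K i) ∈ Ioo 0 π
      split_ifs
      · exact ht.2 i
      · exact hK.2 i
  have key := continuation (F := F) hΓ hs1 hG (ι := Fin ((m + 1) * l + 1))
    (fun r _ => T r) (fun _ => continuous_const) (fun r _ _ => hTS r)
    (fun r => base _ (hTS r)) ?_ s hs (Fin.last _)
  · have h1 : T ((Fin.last ((m + 1) * l) : Fin ((m + 1) * l + 1)) : ℕ) = t := by
      rw [hT]
      funext j
      show (if (j : ℕ) < (m + 1) * l then t j else K j) = t j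
      rw [if_pos j.2]
    rwa [h1] at key
  · intro s hs hbelow
    have hsI : s ∈ Icc 0 s1 := ⟨hs.1.le, hs.2⟩
    have hfin : ∀ r, r ≤ (m + 1) * l → (Sol (ch (sp (m + 1) (Γ s) (T r)))).Finite := by
      intro r
      induction r with
      | zero =>
        intro _
        have h0 : T 0 = K := by
          rw [hT]
          funext j
          show (if (j : ℕ) < 0 then t j else K j) = K j
          rw [if_neg (Nat.not_lt_zero _)]
        rw [h0]
        exact hKfin s hsI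
      | succ r ih =>
        intro hr
        have ih' := ih (by omega)
        by_contra hinf
        obtain ⟨j0, hj0⟩ : ∃ j0 : Fin ((m + 1) * l), (j0 : ℕ) = r := ⟨⟨r, by omega⟩, rfl⟩
        obtain ⟨u, hu, hcu⟩ := P1 (k := m + 1) (by omega) _ hinf (cc (wf (m + 1) (Γ s) (K j0)))
        have hur : IsSol (ch (sp (m + 1) (Γ s) (T r))) u := by
          refine ⟨hu.1, fun j => ?_⟩
          by_cases hj : j = j0
          · have h1 : T r j = K j0 := by
              rw [hT, hj]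
              show (if (j0 : ℕ) < r then t j0 else K j0) = K j0
              rw [if_neg (by omega)]
            show lf (cc (wf (m + 1) (Γ s) (T r j))) u = 0
            rw [h1]
            exact hcu
          · have h1 : T r j = T (r + 1) j := by
              rw [hT]
              show (if (j : ℕ) < r then t j else K j) = if (j : ℕ) < r + 1 then t j else K j
              have h2 : (j : ℕ) ≠ r := fun h => hj (Fin.ext (h.trans hj0.symm))
              by_cases h3 : (j : ℕ) < r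
              · rw [if_pos h3, if_pos (by omega)]
              · rw [if_neg h3, if_neg (by omega)]
            show lf (cc (wf (m + 1) (Γ s) (T r j))) u = 0
            rw [h1]
            exact hu.2 j
        -- reality
        have hne : (𝓝[<] s).NeBot := nhdsLT_neBot_of_exists_lt ⟨0, hs.1⟩
        have hid : Tendsto (fun s' : ℝ => s') (𝓝[<] s) (𝓝 s) := nhdsWithin_le_nhds
        have hmem : ∀ᶠ s' in 𝓝[<] s, s' ∈ Ico 0 s := Ico_mem_nhdsLT hs.1
        obtain ⟨v, hv, hrs⟩ := lim_real (k := m + 1) (by omega) (sp (m + 1) (Γ s) (T r)) ih'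
          (𝓝[<] s) (fun s' => sp (m + 1) (Γ s') (T r))
          (sp_tendsto hΓ (m + 1) ((m + 1) * l) hid tendsto_const_nhds)
          (hmem.mono fun s' hs' => (hbelow s' hs' ⟨r, by omega⟩).1.real) (rs u) ⟨u, hur, rfl⟩
        obtain ⟨g, hg, hgv⟩ := rs_eq u (cm v) hu.1 ((fr_cm v).2 hv) hrs
        have hvsol : IsSol (sp (m + 1) (Γ s) (T (r + 1))) v := by
          rw [← issol_cm, hgv, issol_mul _ g hg]
          exact hu
        have hvK : lf (wf (m + 1) (Γ s) (K j0)) v = 0 := by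
          have h1 : ((lf (wf (m + 1) (Γ s) (K j0)) v : ℝ) : ℂ) = 0 := by
            rw [← lf_cm, hgv, lf_mul, hcu, mul_zero]
          exact_mod_cast h1
        refine good_extra (hG s hsI) (hTS (r + 1)) hvsol (x := K j0)
          ⟨(hK.2 j0).1.le, (hK.2 j0).2⟩ hvK (Or.inr fun i => ?_)
        rw [hT]
        show (if (i : ℕ) < r + 1 then t i else K i) ≠ K j0
        split_ifs with h1
        · exact htK i j0
        · intro h2
          have := hK.1 h2
          rw [this] at h1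
          omega
    intro c
    exact hfin (c : ℕ) (by have := c.2; omega)

end main

end GTC
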