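import Pool.Agent.GTR.ChR

/-!
# GTR Pers : persistence of solutions (interface of section 1; helper85)

PROOF of `pers`.  `Sol h` is finite; `chart_exists`: a real `T` such that all points of `Sol h` are in the
chart `z ↦ rs (uz (cm T) z)`; `F = Fp h (cm T)` has finitely many zeros (`eval_Fp`, `uz_fr`, `uz_inj`), and
for `h'` near `h` also `F' = Fp h' (cm T)` has finitely many zeros (`FO`), `F' → F` uniformly on
compact sets (`Fp_tendsto`).  `u0 = g0 * uz z0`; the torus residue lemma PERS gives zeros `z'` of `F'` near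
`z0`, and `u = g0 * uz z'` is near `u0`.

PROOF of `pers_real`.  Take the complex solution `u'` of `h'` near `cm u0` given by `pers`; its row
space is real: `u' = g * cm v`.  Let `t` be a minor with `det (u0)_t ≠ 0`; then
`u'_t⁻¹ * u' = (cm v)_t⁻¹ * cm v = cm w` is real (`w = v_t⁻¹ v`), and `w → (u0)_t⁻¹ u0` as `h' → h`.  So
`(u0)_t * w` is a real solution near `u0`.

PROOF of `uniq`.  In the chart: the Jacobian of `F` at `z0` is nonzero (`JJ_chart`, or directly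
`JW_change`), so the map `F'` is injective near `z0`, uniformly in `F'` near `F`: mean value inequality,
`‖F'(z) - F'(w) - A (z - w)‖ ≤ ε ‖z - w‖` for `z, w` near `z0` with `A = DF(z0)` invertible (the
derivatives of `F'` are jointly continuous in `(h', z)`: `eval_pderiv_Fp`).  `uz_near` translates
back to matrices.
-/

set_option autoImplicit false

open Matrix Topology Filter Pool.GTR.Tr

namespace GTC

theorem pers {k l : ℕ} (hk : 1 ≤ k) (h : Fin (k * l) → Cf ℂ k (k + l)) (hfin : (Sol h).Finite)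
    (u0 : Matrix (Fin k) (Fin (k + l)) ℂ) (hu0 : IsSol h u0)
    (U : Set (Matrix (Fin k) (Fin (k + l)) ℂ)) (hU : U ∈ 𝓝 u0) :
    ∀ᶠ h' in 𝓝 h, ∃ u ∈ U, IsSol h' u := by
  obtain ⟨T, hT, hc⟩ := chart_ex hfin
  have hT' := det_cm T hT
  obtain ⟨z0, hz0⟩ := hc u0 hu0
  obtain ⟨hz0Z, g, hg, e⟩ := chart_rep hT' hu0 hz0
  have hW : {z | g * uz (cm T) z ∈ U} ∈ 𝓝 z0 := by
    have h1 : Continuous fun z => g * uz (k := k) (l := l) (cm T) z :=
      continuous_const.matrix_mul (uz_continuous (cm T))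
    have h2 : U ∈ 𝓝 (g * uz (cm T) z0) := by rw [← e]; exact hU
    exact h1.continuousAt.preimage_mem_nhds h2
  filter_upwards [FO hk h hfin, Pool.GTR.Tr.pers (m := mT (cm T)) (Zs_finite hT' hfin) hz0Z hW]
    with h' hf hp
  obtain ⟨z, hz, hzZ⟩ := hp (Zs_finite hT' hf)
  exact ⟨g * uz (cm T) z, hz, (issol_mul h' g hg _).2 ((issol_uz hT').2 hzZ)⟩

theorem pers_real {k l : ℕ} (hk : 1 ≤ k) (h : Fin (k * l) → Cf ℝ k (k + l))
    (hfin : (Sol (ch h)).Finite) (u0 : Matrix (Fin k) (Fin (k + l)) ℝ) (hu0 : IsSol h u0)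
    (U : Set (Matrix (Fin k) (Fin (k + l)) ℝ)) (hU : U ∈ 𝓝 u0) :
    ∀ᶠ h' in 𝓝 h, (∀ L ∈ Sol (ch h'), ∃ u : Matrix (Fin k) (Fin (k + l)) ℝ, FR u ∧ L = rs (cm u)) →
      ∃ u ∈ U, IsSol h' u := by
  obtain ⟨t, ht⟩ := (fr_iff_minor u0).1 hu0.1
  have ht' : ((cm u0).submatrix id t).det ≠ 0 := by
    have h1 : ((cm u0).submatrix id t).det = (((u0.submatrix id t).det : ℝ) : ℂ) :=
      (RingHom.map_det Complex.ofRealHom _).symm
    rw [h1]
    exact_mod_cast ht
  set Ψ : Matrix (Fin k) (Fin (k + l)) ℂ → Matrix (Fin k) (Fin (k + l)) ℝ :=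
    fun v => (cm (u0.submatrix id t) * nm t v).map Complex.re with hΨ
  have hΨc : ContinuousAt Ψ (cm u0) := by
    have h1 : Continuous fun v : Matrix (Fin k) (Fin (k + l)) ℂ =>
        (cm (u0.submatrix id t) * v).map Complex.re :=
      (continuous_const.matrix_mul continuous_id).matrix_map Complex.continuous_re
    exact h1.continuousAt.comp (nm_continuousAt t ht')
  have hΨ0 : ∀ w : Matrix (Fin k) (Fin (k + l)) ℝ,
      Ψ (cm w) = u0.submatrix id t * nm t w := by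
    intro w
    show (cm (u0.submatrix id t) * nm t (cm w)).map Complex.re = _
    rw [nm_cm, ← cm_mul, re_cm]
  have h1 : {v | (v.submatrix id t).det ≠ 0 ∧ Ψ v ∈ U} ∈ 𝓝 (cm u0) := by
    have h2 : ∀ᶠ v in 𝓝 (cm u0), (v.submatrix id t).det ≠ 0 := by
      have h3 : Continuous fun v : Matrix (Fin k) (Fin (k + l)) ℂ => (v.submatrix id t).det :=
        (continuous_id.matrix_submatrix id t).matrix_det
      exact h3.continuousAt.eventually_ne ht'
    have h4 : ∀ᶠ v in 𝓝 (cm u0), Ψ v ∈ U := by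
      refine hΨc.eventually ?_
      show U ∈ 𝓝 (Ψ (cm u0))
      rw [hΨ0, nm_self t ht]
      exact hU
    exact h2.and h4
  have h2 := (ch_continuous (ι := Fin (k * l)) (k := k) (n := k + l)).continuousAt.eventually
    (pers hk (ch h) hfin (cm u0) ((issol_cm h u0).2 hu0) _ h1)
  filter_upwards [h2] with h' hh hr
  obtain ⟨v, ⟨hv1, hv2⟩, hv⟩ := hh
  obtain ⟨w, hw, hvw⟩ := hr (rs v) ⟨v, hv, rfl⟩
  obtain ⟨g, hg, e⟩ := rs_eq (cm w) v ((fr_cm w).2 hw) hv.1 hvw.symm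
  have hws : IsSol h' w := by
    rw [← issol_cm, ← issol_mul (ch h') g hg, ← e]
    exact hv
  have hwt : (w.submatrix id t).det ≠ 0 := by
    intro h0
    apply hv1
    have h5 : ((cm w).submatrix id t).det = (((w.submatrix id t).det : ℝ) : ℂ) :=
      (RingHom.map_det Complex.ofRealHom _).symm
    rw [e, sub_mul_id, Matrix.det_mul, h5, h0, Complex.ofReal_zero, mul_zero]
  have h6 : Ψ v = u0.submatrix id t * nm t w := by
    rw [← hΨ0]
    show (cm (u0.submatrix id t) * nm t v).map Complex.re =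
      (cm (u0.submatrix id t) * nm t (cm w)).map Complex.re
    rw [e, nm_mul t g hg]
  refine ⟨Ψ v, hv2, ?_⟩
  rw [h6]
  unfold nm
  rw [← Matrix.mul_assoc]
  refine (issol_mul h' _ ?_ w).2 hws
  rw [Matrix.det_mul, Matrix.det_nonsing_inv, Ring.inverse_eq_inv']
  exact mul_ne_zero ht (inv_ne_zero hwt)

theorem uniq {k l : ℕ} (hk : 1 ≤ k) (h : Fin (k * l) → Cf ℝ k (k + l))
    (u0 : Matrix (Fin k) (Fin (k + l)) ℝ) (hu0 : IsSol h u0) (hnd : JJ h u0 ≠ 0) :
    ∃ U ∈ 𝓝 (cm u0), ∀ᶠ h' in 𝓝 h, ∀ u ∈ U, ∀ u' ∈ U, IsSol (ch h') u → IsSol (ch h') u' →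
      rs u = rs u' := by
  obtain ⟨T, hT, hc⟩ := chart_exists (k := k) (l := l) {rs (cm u0)} (Set.finite_singleton _)
    fun L hL => ⟨cm u0, (fr_cm u0).2 hu0.1, hL⟩
  obtain ⟨z, hz⟩ := hc _ rfl
  have hT' := det_cm T hT
  obtain ⟨x, rfl, hx, g, hg, e⟩ := real_rep hT hu0 hz
  have h1 : Jc (mT (cm T)) (ch h) (fun i => (x i : ℂ)) ≠ 0 := by
    rw [cj_real]
    have h2 : cj h T x ≠ 0 := by
      rw [cj_ne_iff hT hx, ← JJ_ne_mul hk h _ hg, ← e]
      exact hnd
    exact_mod_cast h2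
  obtain ⟨W, hW, hWu⟩ := Pool.GTR.Tr.uniq h1
  have hg' : (cm g).det ≠ 0 := by
    have h2 : (cm g).det = ((g.det : ℝ) : ℂ) := (RingHom.map_det Complex.ofRealHom _).symm
    rw [h2]
    exact_mod_cast hg
  have e' : cm u0 = cm g * uz (cm T) (fun i => (x i : ℂ)) := by
    rw [uz_cm, ← cm_mul, ← e]
  obtain ⟨U, hU, hUW⟩ := chart_nhds hT' hg' e' hW
  refine ⟨U, hU, ?_⟩
  filter_upwards [(ch_continuous (ι := Fin (k * l)) (k := k)
    (n := k + l)).continuousAt.eventually hWu] with h' hh u hu u' hu' hs hs'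
  obtain ⟨z, hz, e1⟩ := hUW u hu
  obtain ⟨z', hz', e2⟩ := hUW u' hu'
  have h3 := hh z hz z' hz' (chart_rep hT' hs e1).1 (chart_rep hT' hs' e2).1
  rw [e1, e2, h3]

end GTC
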