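import Pool.Agent.GTR.Der

/-!
# GTR RncTan : the rational normal curve in the coordinate `tan x`

PROOFS.
* `jet_comp`: `γ y = g y • β (φ y)` for `y` near `x` (`g, φ` smooth near `x`, `β` smooth).  Induction on `b`:
  there are functions `U j b` smooth near `x` with
  `iteratedDeriv b γ y = ∑ j ≤ b, U j b y • iteratedDeriv j β (φ y)` near `x`, `U b b = g * (φ')^b`
  (derive: `U j (b+1) = (U j b)' + U (j-1) b * φ'`).  So `jet γ k x = jet β k (φ x) * U` with `U` upper
  triangular, `det U = ∏ b, g x * (φ' x)^b = g x ^ k * φ' x ^ (k(k-1)/2)`.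
* `rnc_tan`: `g = cos^(n-1)`, `φ = tan` (`Real.hasDerivAt_tan`, derivative `1 / cos^2`),
  `cos^(n-1-j) sin^j = cos^(n-1) tan^j` where `cos ≠ 0`.  `g^k φ'^(k(k-1)/2) = cos^(k(n-1) - k(k-1))
  = cos^(k l)` for `n = k + l` (as a real number: `cos^(k(n-1)) / cos^(k(k-1))`).  `lf_wf`, `det_mul`.
* `det_jet_mono`: `jet (mono n) n X` is lower triangular with diagonal entries `b!`
  (`iteratedDeriv b (X^j) = j.descFactorial b * X^(j-b)`, zero for `b > j`).
-/

set_option autoImplicit false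

open Matrix Real Set Topology Filter

namespace GTC

/-- the moment curve. -/
def mono (n : ℕ) (X : ℝ) : Fin n → ℝ := fun j => X ^ (j : ℕ)

theorem mono_contDiff (n : ℕ) : ContDiff ℝ (⊤ : ℕ∞) (mono n) := by
  rw [contDiff_pi]
  intro j
  exact contDiff_id.pow _

theorem rnc_contDiff (n : ℕ) : ContDiff ℝ (⊤ : ℕ∞) (rnc n) := by
  rw [contDiff_pi]
  intro j
  exact (contDiff_cos.pow _).mul (contDiff_sin.pow _)

/-- coefficients of the chain rule. -/
private noncomputable def UU (g φ : ℝ → ℝ) : ℕ → ℕ → ℝ → ℝ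
  | 0, j => if j = 0 then g else 0
  | b + 1, j => fun y => deriv (UU g φ b j) y +
      (if j = 0 then 0 else UU g φ b (j - 1) y * deriv φ y)

private theorem UU_succ (g φ : ℝ → ℝ) (b j : ℕ) (y : ℝ) : UU g φ (b + 1) j y =
    deriv (UU g φ b j) y + (if j = 0 then 0 else UU g φ b (j - 1) y * deriv φ y) := rfl

private theorem cd_deriv {f : ℝ → ℝ} {x : ℝ} (h : ContDiffAt ℝ (⊤ : ℕ∞) f x) :
    ContDiffAt ℝ (⊤ : ℕ∞) (deriv f) x := h.derivWithin (by norm_cast)

private theorem UU_smooth {g φ : ℝ → ℝ} {x : ℝ} (hg : ∀ᶠ y in 𝓝 x, ContDiffAt ℝ (⊤ : ℕ∞) g y)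
    (hφ : ∀ᶠ y in 𝓝 x, ContDiffAt ℝ (⊤ : ℕ∞) φ y) (b : ℕ) :
    ∀ j, ∀ᶠ y in 𝓝 x, ContDiffAt ℝ (⊤ : ℕ∞) (UU g φ b j) y := by
  induction b with
  | zero =>
    intro j
    by_cases h : j = 0
    · simp only [UU, if_pos h]
      exact hg
    · simp only [UU, if_neg h]
      exact Eventually.of_forall fun y => contDiffAt_const
  | succ b ih =>
    intro j
    filter_upwards [ih j, ih (j - 1), hφ] with y h1 h2 h3
    by_cases h : j = 0
    · have : UU g φ (b + 1) j = fun y => deriv (UU g φ b j) y + 0 := by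
        funext z
        rw [UU_succ, if_pos h]
      rw [this]
      exact (cd_deriv h1).add contDiffAt_const
    · have : UU g φ (b + 1) j = fun y => deriv (UU g φ b j) y +
          UU g φ b (j - 1) y * deriv φ y := by
        funext z
        rw [UU_succ, if_neg h]
      rw [this]
      exact (cd_deriv h1).add (h2.mul (cd_deriv h3))

private theorem UU_zero (g φ : ℝ → ℝ) (b : ℕ) : ∀ j, b < j → UU g φ b j = 0 := by
  induction b with
  | zero =>
    intro j hj
    simp only [UU]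
    rw [if_neg (by omega)]
  | succ b ih =>
    intro j hj
    funext y
    rw [UU_succ, if_neg (by omega), ih j (by omega), ih (j - 1) (by omega)]
    simp

private theorem UU_diag (g φ : ℝ → ℝ) (b : ℕ) (y : ℝ) :
    UU g φ b b y = g y * deriv φ y ^ b := by
  induction b with
  | zero => simp [UU]
  | succ b ih =>
    rw [UU_succ, UU_zero g φ b (b + 1) (by omega), if_neg (by omega), Nat.add_sub_cancel, ih]
    simp
    ring

private theorem iter_comp {n : ℕ} (γ β : ℝ → Fin n → ℝ) (g φ : ℝ → ℝ) (x : ℝ)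
    (hβ : ContDiff ℝ (⊤ : ℕ∞) β) (hg : ∀ᶠ y in 𝓝 x, ContDiffAt ℝ (⊤ : ℕ∞) g y)
    (hφ : ∀ᶠ y in 𝓝 x, ContDiffAt ℝ (⊤ : ℕ∞) φ y) (h : ∀ᶠ y in 𝓝 x, γ y = g y • β (φ y))
    (b : ℕ) : ∀ᶠ y in 𝓝 x, iteratedDeriv b γ y =
      ∑ j ∈ Finset.range (b + 1), UU g φ b j y • iteratedDeriv j β (φ y) := by
  induction b with
  | zero =>
    filter_upwards [h] with y hy
    simp [UU, hy]
  | succ b ih =>
    have hs : ∀ᶠ y in 𝓝 x, ∀ j ∈ Finset.range (b + 1), ContDiffAt ℝ (⊤ : ℕ∞) (UU g φ b j) y := by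
      rw [Filter.eventually_all_finset]
      exact fun j _ => UU_smooth hg hφ b j
    filter_upwards [ih.eventually_nhds, hs, hφ] with y h1 h2 h3
    rw [iteratedDeriv_succ, EventuallyEq.deriv_eq h1]
    have hd : ∀ j ∈ Finset.range (b + 1), HasDerivAt
        (fun y => UU g φ b j y • iteratedDeriv j β (φ y))
        (UU g φ b j y • (deriv φ y • iteratedDeriv (j + 1) β (φ y)) +
          deriv (UU g φ b j) y • iteratedDeriv j β (φ y)) y := by
      intro j hj
      have d1 : HasDerivAt (UU g φ b j) (deriv (UU g φ b j) y) y :=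
        ((h2 j hj).differentiableAt (by simp)).hasDerivAt
      have d2 : HasDerivAt φ (deriv φ y) y := (h3.differentiableAt (by simp)).hasDerivAt
      have d3 : HasDerivAt (iteratedDeriv j β) (iteratedDeriv (j + 1) β (φ y)) (φ y) := by
        rw [iteratedDeriv_succ]
        refine (DifferentiableAt.hasDerivAt ?_)
        exact (hβ.differentiable_iteratedDeriv j (by exact_mod_cast ENat.natCast_lt_top j)) _
      exact d1.smul (HasDerivAt.scomp y d3 d2)
    rw [(HasDerivAt.fun_sum hd).deriv, Finset.sum_add_distrib]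
    have e1 : ∑ j ∈ Finset.range (b + 2), UU g φ (b + 1) j y • iteratedDeriv j β (φ y) =
        ∑ j ∈ Finset.range (b + 2), deriv (UU g φ b j) y • iteratedDeriv j β (φ y) +
        ∑ j ∈ Finset.range (b + 2), (if j = 0 then 0 else UU g φ b (j - 1) y * deriv φ y) •
          iteratedDeriv j β (φ y) := by
      rw [← Finset.sum_add_distrib]
      refine Finset.sum_congr rfl fun j _ => ?_
      rw [UU_succ, add_smul]
    rw [e1, add_comm]
    congr 1
    · rw [Finset.sum_range_succ _ (b + 1), UU_zero g φ b (b + 1) (by omega)]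
      simp
    · rw [Finset.sum_range_succ' _ (b + 1)]
      simp only [if_true, zero_smul, add_zero]
      refine Finset.sum_congr rfl fun j _ => ?_
      rw [if_neg (by omega), Nat.add_sub_cancel, mul_smul]

theorem jet_comp {k n : ℕ} (γ β : ℝ → Fin n → ℝ) (g φ : ℝ → ℝ) (x : ℝ)
    (hβ : ContDiff ℝ (⊤ : ℕ∞) β) (hg : ∀ᶠ y in 𝓝 x, ContDiffAt ℝ (⊤ : ℕ∞) g y)
    (hφ : ∀ᶠ y in 𝓝 x, ContDiffAt ℝ (⊤ : ℕ∞) φ y) (h : ∀ᶠ y in 𝓝 x, γ y = g y • β (φ y)) :
    ∃ U : Matrix (Fin k) (Fin k) ℝ, jet γ k x = jet β k (φ x) * U ∧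
      U.det = g x ^ k * deriv φ x ^ (k * (k - 1) / 2) := by
  refine ⟨Matrix.of fun j b => UU g φ b j x, ?_, ?_⟩
  · ext i b
    have h1 := (iter_comp γ β g φ x hβ hg hφ h b).self_of_nhds
    rw [Matrix.mul_apply]
    simp only [jet, Matrix.of_apply]
    rw [h1, Finset.sum_apply, Finset.sum_fin_eq_sum_range]
    have h2 : ∑ j ∈ Finset.range k, (if hj : j < k then
        iteratedDeriv ((⟨j, hj⟩ : Fin k) : ℕ) β (φ x) i * UU g φ b ((⟨j, hj⟩ : Fin k) : ℕ) x else 0) =
        ∑ j ∈ Finset.range k, iteratedDeriv j β (φ x) i * UU g φ b j x := by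
      refine Finset.sum_congr rfl fun j hj => ?_
      rw [dif_pos (Finset.mem_range.1 hj)]
    rw [h2]
    have h3 : Finset.range ((b : ℕ) + 1) ⊆ Finset.range k := by
      intro j hj
      rw [Finset.mem_range] at hj ⊢
      omega
    rw [← Finset.sum_subset h3]
    · refine Finset.sum_congr rfl fun j _ => ?_
      rw [Pi.smul_apply, smul_eq_mul, mul_comm]
    · intro j _ hj
      rw [Finset.mem_range, not_lt] at hj
      rw [UU_zero g φ b j (by omega)]
      simp
  · rw [Matrix.det_of_isUpperTriangular]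
    · simp only [Matrix.of_apply, UU_diag]
      rw [Finset.prod_mul_distrib, Finset.prod_const, Finset.card_univ, Fintype.card_fin,
        Finset.prod_pow_eq_pow_sum, Fin.sum_univ_eq_sum_range (fun i => i) k,
        Finset.sum_range_id]
    · intro j b hjb
      simp only [Matrix.of_apply]
      rw [UU_zero g φ b j hjb]
      rfl

private theorem iter_mono (n b : ℕ) : iteratedDeriv b (mono n) =
    fun (X : ℝ) (j : Fin n) => ((j : ℕ).descFactorial b : ℝ) * X ^ ((j : ℕ) - b) := by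
  induction b with
  | zero =>
    funext X j
    simp [mono]
  | succ b ih =>
    rw [iteratedDeriv_succ, ih]
    funext X
    refine HasDerivAt.deriv ?_
    rw [hasDerivAt_pi]
    intro j
    have h1 := (hasDerivAt_pow ((j : ℕ) - b) X).const_mul (((j : ℕ).descFactorial b : ℝ))
    have h2 : (((j : ℕ).descFactorial (b + 1) : ℕ) : ℝ) * X ^ ((j : ℕ) - (b + 1)) =
        (((j : ℕ).descFactorial b : ℕ) : ℝ) * ((((j : ℕ) - b : ℕ) : ℝ) * X ^ ((j : ℕ) - b - 1)) := by
      rw [Nat.descFactorial_succ, Nat.sub_sub]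
      push_cast
      ring
    rw [h2]
    exact h1

theorem det_jet_mono (n : ℕ) (X : ℝ) : 0 < (jet (mono n) n X).det := by
  rw [Matrix.det_of_isLowerTriangular]
  · refine Finset.prod_pos fun j _ => ?_
    simp only [jet, Matrix.of_apply, iter_mono]
    rw [Nat.sub_self, pow_zero, mul_one, Nat.descFactorial_self]
    exact_mod_cast Nat.factorial_pos _
  · intro i j hij
    simp only [jet, Matrix.of_apply, iter_mono]
    have h1 : (i : ℕ) < (j : ℕ) := hij
    rw [Nat.descFactorial_of_lt h1]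
    simp

private theorem rnc_eq (n : ℕ) (y : ℝ) (hy : cos y ≠ 0) :
    rnc n y = cos y ^ (n - 1) • mono n (tan y) := by
  funext j
  rw [Pi.smul_apply, smul_eq_mul]
  simp only [rnc, mono]
  rw [tan_eq_sin_div_cos, div_pow, mul_div_assoc', eq_div_iff (pow_ne_zero _ hy)]
  have h : n - 1 = (n - 1 - (j : ℕ)) + j := by omega
  rw [h, pow_add]
  have h2 : n - 1 - (j : ℕ) + j - j = n - 1 - j := by omega
  rw [h2]
  ring

private theorem rnc_jet (k n : ℕ) (x : ℝ) (hx : cos x ≠ 0) :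
    ∃ U : Matrix (Fin k) (Fin k) ℝ, jet (rnc n) k x = jet (mono n) k (tan x) * U ∧
      U.det = (cos x ^ (n - 1)) ^ k * (1 / cos x ^ 2) ^ (k * (k - 1) / 2) := by
  have hc : ∀ᶠ y in 𝓝 x, cos y ≠ 0 := continuous_cos.continuousAt.eventually_ne hx
  obtain ⟨U, h1, h2⟩ := jet_comp (k := k) (rnc n) (mono n) (fun y => cos y ^ (n - 1)) tan x
    (mono_contDiff n)
    (Eventually.of_forall fun y => (contDiff_cos.pow _).contDiffAt)
    (hc.mono fun y hy => contDiffAt_tan.2 hy)
    (hc.mono fun y hy => rnc_eq n y hy)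
  refine ⟨U, h1, ?_⟩
  rw [h2, (hasDerivAt_tan hx).deriv]

private theorem pow_aux (k l : ℕ) (c : ℝ) (hc : c ≠ 0) :
    (c ^ (k + l - 1)) ^ k * (1 / c ^ 2) ^ (k * (k - 1) / 2) = c ^ (k * l) := by
  rcases Nat.eq_zero_or_pos k with h | h
  · subst h
    simp
  · have h2 : 2 * (k * (k - 1) / 2) = k * (k - 1) :=
      Nat.mul_div_cancel' (Nat.even_mul_pred_self k).two_dvd
    rw [one_div, inv_pow, ← pow_mul, ← pow_mul, h2, ← div_eq_mul_inv,
      div_eq_iff (pow_ne_zero _ hc), ← pow_add]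
    congr 1
    obtain ⟨m, rfl⟩ : ∃ m, k = m + 1 := ⟨k - 1, by omega⟩
    have h3 : m + 1 + l - 1 = m + l := by omega
    have h4 : m + 1 - 1 = m := by omega
    rw [h3, h4]
    ring

theorem rnc_tan {k l : ℕ} (x : ℝ) (hx : cos x ≠ 0) (u : Matrix (Fin k) (Fin (k + l)) ℝ) :
    lf (wf k (rnc (k + l)) x) u = cos x ^ (k * l) * lf (wf k (mono (k + l)) (tan x)) u := by
  obtain ⟨U, h1, h2⟩ := rnc_jet k (k + l) x hx
  rw [lf_wf, lf_wf, h1, ← Matrix.mul_assoc, Matrix.det_mul, h2, pow_aux k l _ hx, mul_comm]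

theorem rnc_tan_cc {k l : ℕ} (x : ℝ) (hx : cos x ≠ 0) (u : Matrix (Fin k) (Fin (k + l)) ℂ) :
    lf (cc (wf k (rnc (k + l)) x)) u =
      (cos x : ℂ) ^ (k * l) * lf (cc (wf k (mono (k + l)) (tan x))) u := by
  obtain ⟨U, h1, h2⟩ := rnc_jet k (k + l) x hx
  have h3 : cm (jet (mono (k + l)) k (tan x) * U) =
      cm (jet (mono (k + l)) k (tan x)) * U.map (fun x : ℝ => (x : ℂ)) :=
    Matrix.map_mul (f := Complex.ofRealHom)
  have h4 : (U.map (fun x : ℝ => (x : ℂ))).det = ((U.det : ℝ) : ℂ) :=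
    (RingHom.map_det Complex.ofRealHom U).symm
  rw [lf_cc_wf, lf_cc_wf, h1, h3, ← Matrix.mul_assoc, Matrix.det_mul, h4, h2,
    pow_aux k l _ hx, mul_comm]
  push_cast
  rfl

/-- the jets of the rational normal curve are independent where `cos x ≠ 0`. -/
theorem det_jet_rnc_of_cos (n : ℕ) (x : ℝ) (hx : cos x ≠ 0) : (jet (rnc n) n x).det ≠ 0 := by
  obtain ⟨U, h1, h2⟩ := rnc_jet n n x hx
  rw [h1, Matrix.det_mul, h2]
  refine mul_ne_zero (det_jet_mono n _).ne' (mul_ne_zero (pow_ne_zero _ (pow_ne_zero _ hx))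
    (pow_ne_zero _ (one_div_ne_zero (pow_ne_zero _ hx))))

end GTC
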