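import Pool.Agent.GTR.HDefs

/-!
# GTR WDefs : definitions for section 6 (words, Wronskians of polynomials)

`N = k * l`, `n = k + l`. A point of the Grassmannian is a `k × n` matrix `u`; its rows are also read as
polynomials `rp u a = ∑_j u a j X^j` of degree `< n` (`X = tan x`).
A word `w : Fin (k * l) → Fin k` contains every letter `l` times and is ballot:
`#{s < m : w s = a} ≤ #{s < m : w s = b}` for `a ≤ b`, all `m`.
-/

set_option autoImplicit false

open Polynomial

namespace GTR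

/-- Wronskian of `k` polynomials -/
noncomputable def wr {R : Type*} [CommRing R] {k : ℕ} (p : Fin k → R[X]) : R[X] :=
  Matrix.det (Matrix.of fun a c : Fin k => derivative^[(c : ℕ)] (p a))

/-- the rows of `u` as polynomials -/
noncomputable def rp {R : Type*} [CommRing R] {k n : ℕ} (u : Matrix (Fin k) (Fin n) R)
    (a : Fin k) : R[X] := ∑ j : Fin n, C (u a j) * X ^ (j : ℕ)

/-- number of letters `a` among the first `m` letters -/
def cnt {k N : ℕ} (w : Fin N → Fin k) (m : ℕ) (a : Fin k) : ℕ :=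
  (Finset.univ.filter fun r : Fin N => (r : ℕ) < m ∧ w r = a).card

/-- the exponents `a + #{s < m : w s = a}` -/
def ex {k N : ℕ} (w : Fin N → Fin k) (m : ℕ) (a : Fin k) : ℕ := (a : ℕ) + cnt w m a

/-- ballot words with every letter `l` times -/
structure IsWord {k l : ℕ} (w : Fin (k * l) → Fin k) : Prop where
  bal : ∀ (m : ℕ) (a b : Fin k), a ≤ b → cnt w m a ≤ cnt w m b
  full : ∀ a, cnt w (k * l) a = l

/-- number of inversions of a word -/
def inv {k N : ℕ} (w : Fin N → Fin k) : ℕ :=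
  (Finset.univ.filter fun p : Fin N × Fin N => p.1 < p.2 ∧ w p.2 < w p.1).card

/-- `∏_(i < j) (x_j - x_i)` -/
def vd {k : ℕ} (x : Fin k → ℝ) : ℝ := ∏ i, ∏ j ∈ Finset.Ioi i, (x j - x i)

/-- the rows `X^a ∏_(r : w r = a) (z_r - X)` -/
noncomputable def qp {k N : ℕ} (w : Fin N → Fin k) (z : Fin N → ℝ) (a : Fin k) : ℝ[X] :=
  X ^ (a : ℕ) * ∏ r ∈ Finset.univ.filter (fun r => w r = a), (C (z r) - X)

/-- the matrix with the rows `qp w z a` -/
noncomputable def uw {k l : ℕ} (w : Fin (k * l) → Fin k) (z : Fin (k * l) → ℝ) :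
    Matrix (Fin k) (Fin (k + l)) ℝ := fun a j => (qp w z a).coeff j

/-- the leading term of `z_r / X_r` -/
noncomputable def y0 {k N : ℕ} (w : Fin N → Fin k) (r : Fin N) : ℝ :=
  vd (fun a => (ex w ((r : ℕ) + 1) a : ℝ)) / vd (fun a => (ex w (r : ℕ) a : ℝ))

/-- `z_r = d^(N - r) y_r` -/
noncomputable def zz {N : ℕ} (d : ℝ) (y : Fin N → ℝ) (r : Fin N) : ℝ := d ^ (N - (r : ℕ)) * y r

/-- the rescaled rows at the point `X_r = d^(N - r)` -/
noncomputable def Qp {k N : ℕ} (w : Fin N → Fin k) (y : Fin N → ℝ) (d : ℝ) (r : Fin N)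
    (a : Fin k) : ℝ[X] :=
  X ^ (a : ℕ) * ∏ s ∈ Finset.univ.filter (fun s => w s = a),
    (if s < r then C (d ^ ((r : ℕ) - (s : ℕ)) * y s) - X
      else if s = r then C (y s) - X
      else C (y s) - C (d ^ ((s : ℕ) - (r : ℕ))) * X)

/-- the rescaled equations -/
noncomputable def Gf {k N : ℕ} (w : Fin N → Fin k) (y : Fin N → ℝ) (d : ℝ) (r : Fin N) : ℝ :=
  (wr (Qp w y d r)).eval 1

/-- the Jacobian matrix of `y ↦ Gf w y d` -/
noncomputable def Gj {k N : ℕ} (w : Fin N → Fin k) (y : Fin N → ℝ) (d : ℝ) :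
    Matrix (Fin N) (Fin N) ℝ :=
  fun r s => deriv (fun v => Gf w (Function.update y s v) d r) (y s)

end GTR
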