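import Pool.Agent.GTR.ParClosed
import Pool.Agent.GTR.ParGood
import Pool.Agent.GTR.GoodOpen

/-!
# GTR Seven : the continuity argument for GOOD

PROOF.  Let `A = {s ∈ [0,1] | ∀ s' ∈ [0,s], GOOD k l (Γ s')}`; `0 ∈ A`.  `A` is relatively open
(`good_open`: if `s ∈ A`, GOOD holds near `s`, and on `[0, s]`).  `A` is closed under limits from below: let
`s0 ∈ (0,1]` with GOOD on `[0, s0)`.  Choose `s ν → s0`, `s ν < s0`, `s ν ≥ 0`; by `hA` (with `s1 = s ν`)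
all `RR (sp k (Γ (s ν)) t) F`; `par_closed`: `PAR k l (Γ s0)`; `par_good`: `GOOD k l (Γ s0)`.
So `A = [0,1]` (for instance `sSup A`, or `IsClosed.Icc_subset_of_forall_mem_nhdsWithin`).  The second part is
`hA` for `s1 = 1`.
-/

set_option autoImplicit false

open Matrix Real Set Topology Filter

namespace GTC

private lemma good_lim {k l : ℕ} (hk : 1 ≤ k) (hl : 1 ≤ l) (F : ℕ) (Γ : ℝ → ℝ → Fin (k + l) → ℝ)
    (hΓ : Family Γ) (h0 : GOOD k l (Γ 0))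
    (hA : ∀ s1 ∈ Icc (0 : ℝ) 1, (∀ s ∈ Icc 0 s1, GOOD k l (Γ s)) →
      ∀ s ∈ Icc 0 s1, ∀ t, Simple t → RR (sp k (Γ s) t) F) (s0 : ℝ) (hs0 : s0 ∈ Icc (0 : ℝ) 1)
    (hlt : ∀ s, 0 ≤ s → s < s0 → GOOD k l (Γ s)) : GOOD k l (Γ s0) := by
  rcases eq_or_lt_of_le hs0.1 with h | h
  · rw [← h]; exact h0
  obtain ⟨s, hs⟩ : ∃ s : ℕ → ℝ, s = fun ν : ℕ => s0 * (1 - 1 / ((ν : ℝ) + 1)) := ⟨_, rfl⟩
  have hpos : ∀ ν : ℕ, (0 : ℝ) < 1 / ((ν : ℝ) + 1) := fun ν => by positivity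
  have hle : ∀ ν : ℕ, 1 / ((ν : ℝ) + 1) ≤ 1 := fun ν => by
    rw [div_le_one (by positivity)]
    have : (0 : ℝ) ≤ ν := by positivity
    linarith
  have h1 : ∀ ν, 0 ≤ s ν := by
    intro ν
    rw [hs]
    exact mul_nonneg h.le (by linarith [hle ν])
  have h2 : ∀ ν, s ν < s0 := by
    intro ν
    rw [hs]
    have := hpos ν
    simp only
    nlinarith
  have h3 : Tendsto s atTop (𝓝 s0) := by
    have h4 : Tendsto (fun ν : ℕ => s0 * (1 - 1 / ((ν : ℝ) + 1))) atTop (𝓝 (s0 * (1 - 0))) :=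
      (tendsto_const_nhds.sub tendsto_one_div_add_atTop_nhds_zero_nat).const_mul s0
    rw [sub_zero, mul_one] at h4
    rw [hs]
    exact h4
  apply par_good hk hl (hΓ.nice s0)
  apply par_closed hk hl Γ hΓ s s0 h3 (fun ν => hlt _ (h1 ν) (h2 ν)) F
  intro ν t ht
  exact hA (s ν) ⟨h1 ν, by linarith [h2 ν, hs0.2]⟩
    (fun r hr => hlt r hr.1 (lt_of_le_of_lt hr.2 (h2 ν))) (s ν) ⟨h1 ν, le_rfl⟩ t ht

theorem main_core {k l : ℕ} (hk : 1 ≤ k) (hl : 1 ≤ l) (F : ℕ) (Γ : ℝ → ℝ → Fin (k + l) → ℝ)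
    (hΓ : Family Γ) (h0 : GOOD k l (Γ 0))
    (hA : ∀ s1 ∈ Icc (0 : ℝ) 1, (∀ s ∈ Icc 0 s1, GOOD k l (Γ s)) →
      ∀ s ∈ Icc 0 s1, ∀ t, Simple t → RR (sp k (Γ s) t) F) :
    ∀ s ∈ Icc (0 : ℝ) 1, GOOD k l (Γ s) ∧ ∀ t, Simple t → RR (sp k (Γ s) t) F := by
  obtain ⟨A, hAd⟩ : ∃ A : Set ℝ, A = {s | s ∈ Icc (0 : ℝ) 1 ∧ ∀ r ∈ Icc 0 s, GOOD k l (Γ r)} :=
    ⟨_, rfl⟩
  have hA0 : (0 : ℝ) ∈ A := by
    rw [hAd]
    refine ⟨⟨le_rfl, zero_le_one⟩, fun r hr => ?_⟩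
    have : r = 0 := le_antisymm hr.2 hr.1
    rw [this]; exact h0
  have hAb : BddAbove A := ⟨1, fun s hs => by rw [hAd] at hs; exact hs.1.2⟩
  obtain ⟨σ, hσ⟩ : ∃ σ, σ = sSup A := ⟨_, rfl⟩
  have hσ0 : 0 ≤ σ := by rw [hσ]; exact le_csSup hAb hA0
  have hσ1 : σ ≤ 1 := by
    rw [hσ]
    exact csSup_le ⟨0, hA0⟩ (fun s hs => by rw [hAd] at hs; exact hs.1.2)
  have hlt : ∀ s, 0 ≤ s → s < σ → GOOD k l (Γ s) := by
    intro s hs0 hs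
    rw [hσ] at hs
    obtain ⟨a, ha, hsa⟩ := exists_lt_of_lt_csSup ⟨0, hA0⟩ hs
    rw [hAd] at ha
    exact ha.2 s ⟨hs0, hsa.le⟩
  have hg : GOOD k l (Γ σ) := good_lim hk hl F Γ hΓ h0 hA σ ⟨hσ0, hσ1⟩ hlt
  have hσe : σ = 1 := by
    by_contra hne
    have hσ2 : σ < 1 := lt_of_le_of_ne hσ1 hne
    have hev := good_open Γ hΓ σ hg
    rw [Metric.eventually_nhds_iff] at hev
    obtain ⟨ε, hε, hev⟩ := hev
    obtain ⟨τ, hτ⟩ : ∃ τ, τ = min 1 (σ + ε / 2) := ⟨_, rfl⟩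
    have hτ1 : τ ≤ 1 := by rw [hτ]; exact min_le_left _ _
    have hτ2 : τ ≤ σ + ε / 2 := by rw [hτ]; exact min_le_right _ _
    have hτ3 : σ < τ := by rw [hτ]; exact lt_min hσ2 (by linarith)
    have : τ ∈ A := by
      rw [hAd]
      refine ⟨⟨by linarith, hτ1⟩, fun r hr => ?_⟩
      rcases lt_or_ge r σ with h | h
      · exact hlt r hr.1 h
      · apply hev
        rw [Real.dist_eq, abs_of_nonneg (by linarith)]
        linarith [hr.2]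
    have := le_csSup hAb this
    rw [← hσ] at this
    linarith
  have hall : ∀ s ∈ Icc (0 : ℝ) 1, GOOD k l (Γ s) := by
    intro s hs
    rcases eq_or_lt_of_le hs.2 with h | h
    · rw [h, ← hσe]; exact hg
    · exact hlt s hs.1 (by rw [hσe]; exact h)
  intro s hs
  exact ⟨hall s hs, hA 1 ⟨zero_le_one, le_rfl⟩ hall s hs⟩

end GTC
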