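import Pool.Agent.GTR.WBase
import Pool.Agent.GTR.S.EpsWord

/-!
# GTR WBase0 : total reality and coherence of one simple problem of the rational normal curve,
without hypotheses (section 6; from `base_of` and helper14's `eps_word`)
-/

set_option autoImplicit false

namespace GTR

open GTC
open Pool.GTR (eps)

theorem base0 {m l : ℕ} (hl : 1 ≤ l) : ∃ t : Fin ((m + 1) * l) → ℝ, GTC.Simple t ∧
    RR (sp (m + 1) (rnc (m + 1 + l)) t) (FN (m + 1) l) ∧
    ∀ u u' : Matrix (Fin (m + 1)) (Fin (m + 1 + l)) ℝ,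
      IsSol (sp (m + 1) (rnc (m + 1 + l)) t) u → IsSol (sp (m + 1) (rnc (m + 1 + l)) t) u' →
      u * GTC.jet (rnc (m + 1 + l)) (m + 1) 0 = 1 → u' * GTC.jet (rnc (m + 1 + l)) (m + 1) 0 = 1 →
      0 < (JJ (sp (m + 1) (rnc (m + 1 + l)) t) u * eps (pth (rnc (m + 1 + l)) u)) *
        (JJ (sp (m + 1) (rnc (m + 1 + l)) t) u' * eps (pth (rnc (m + 1 + l)) u')) :=
  base_of (Pool.GTR.S.eps_word m l hl)

end GTR
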