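import Pool.Agent.GTR.WBij

/-!
# GTR WFin : the number of words as written in the problem
-/

set_option autoImplicit false

namespace GTR


theorem prod_hook (k j : ℕ) :
    (∏ i ∈ Finset.range k, (i + j + 1)) * j.factorial = (k + j).factorial := by
  induction k with
  | zero => simp
  | succ k ih =>
    rw [Finset.prod_range_succ, mul_right_comm, ih, show k + 1 + j = (k + j) + 1 by ring,
      Nat.factorial_succ]
    ring

/-- the formula of the problem, `k = m - d`, `l = d`. -/
theorem FN_syt (k l : ℕ) : (GTC.FN k l : ℚ) = ((l * k).factorial : ℚ) *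
    ∏ i ∈ Finset.Icc 1 l, ((i - 1).factorial : ℚ) / ((k + i - 1).factorial : ℚ) := by
  have h := FN_mul k l
  rw [Finset.prod_comm] at h
  have h2 : (∏ j ∈ Finset.range l, ∏ i ∈ Finset.range k, (i + j + 1)) *
      ∏ j ∈ Finset.range l, j.factorial = ∏ j ∈ Finset.range l, (k + j).factorial := by
    rw [← Finset.prod_mul_distrib]
    exact Finset.prod_congr rfl fun j _ => prod_hook k j
  have h3 : ∏ i ∈ Finset.Icc 1 l, ((i - 1).factorial : ℚ) / ((k + i - 1).factorial : ℚ) =
      ∏ j ∈ Finset.range l, ((j.factorial : ℚ) / ((k + j).factorial : ℚ)) := by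
    rw [← Finset.Ico_add_one_right_eq_Icc, Finset.prod_Ico_eq_prod_range]
    simp only [Nat.add_sub_cancel]
    refine Finset.prod_congr rfl fun j _ => ?_
    rw [show 1 + j - 1 = j by omega, show k + (1 + j) - 1 = k + j by omega]
  rw [h3, Finset.prod_div_distrib]
  have h4 : (∏ j ∈ Finset.range l, ((k + j).factorial : ℚ)) ≠ 0 :=
    Finset.prod_ne_zero_iff.2 fun j _ => by positivity
  have h5 : (∏ j ∈ Finset.range l, (j.factorial : ℚ)) ≠ 0 :=
    Finset.prod_ne_zero_iff.2 fun j _ => by positivity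
  rw [← mul_div_assoc, eq_div_iff h4, mul_comm l k, ← h]
  have h2' : ((∏ j ∈ Finset.range l, ∏ i ∈ Finset.range k, (i + j + 1) : ℕ) : ℚ) *
      ∏ j ∈ Finset.range l, (j.factorial : ℚ) = ∏ j ∈ Finset.range l, ((k + j).factorial : ℚ) := by
    exact_mod_cast h2
  rw [← h2']
  push_cast
  ring

end GTR
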