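import Pool.Agent.GTR.WTan
import Pool.Agent.GTR.P1

/-!
# GTR WGood : the rational normal curve is GOOD and all its problems are finite

Let `u` be of full rank (real or complex), `W = wr (rp u) ≠ 0` of degree `≤ N = k l`, and
`F(x) = lf (cc (wf k rnc x)) u = ∑_j W_j cos^(N-j) x sin^j x` (`lf_rnc`). If `F` vanishes at `x0 ∈ [0, π)`
with all derivatives of order `< m` then: for `x0 ≠ π/2`, `F(x) = cos^N x W(tan x)`, and
`(X - tan x0)^m` divides `W` (the function `W (tan x)` has a zero of order `≥ m`; compose with the local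
inverse `arctan`, or compare orders by the chain rule); for `x0 = π/2` the reversed polynomial
`∑_j W_j Y^(N-j)`, `Y = cot x`, has a zero of order `≥ m` at `0`, i.e. `deg W ≤ N - m`. So if the
multiplicities of zeros at different points of `[0, π)` sum up to more than `N` then `W = 0`:
contradiction to `wr_ne_zero`. (Different `x` in `[0, π)`, `x ≠ π/2`, have different `tan x`.)

Simpler way to do both cases at once: homogeneous forms of degree `N` in `(c, s)` over `ℂ`: rotate: for
`x0` the form is divisible by `(s cos x0 - c sin x0)^m`; it suffices to treat `x0 = 0` after a rotation.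

* `good_rnc`: real `u`; `lf (pf k rnc x j) u` is the `j`-th derivative of `x ↦ lf (wf k rnc x) u` (`lf` is
  linear in the coefficients; the functions are smooth).
* `sp_finite`: if `Sol` is infinite then by `P1` there is a solution `u` with `lf c u = 0` for the further
  form `c = cc (wf k rnc y)` with `y ∈ (0, π)` not among the `t i`: `N + 1` different zeros of `F`.
-/

set_option autoImplicit false

namespace GTR

open GTC

open Polynomial

/-- The trigonometric form with coefficients `a`. -/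
private noncomputable def trg (a : ℕ → ℂ) (N : ℕ) (x : ℝ) : ℂ :=
  ∑ j ∈ Finset.range (N + 1), a j * ((Real.cos x : ℂ) ^ (N - j) * (Real.sin x : ℂ) ^ j)

/-- The corresponding polynomial in `exp (2 i x)`. -/
private noncomputable def pol (a : ℕ → ℂ) (N : ℕ) : ℂ[X] :=
  ∑ j ∈ Finset.range (N + 1), C (a j) *
    ((C (1 / 2) * (X + 1)) ^ (N - j) * (C (1 / (2 * Complex.I)) * (X - 1)) ^ j)

/-- The point `exp (2 i x)`. -/
private noncomputable def pt (x : ℝ) : ℂ := Complex.exp (2 * Complex.I * x)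

/-- The factor `exp (- i N x)`. -/
private noncomputable def fc (N : ℕ) (x : ℝ) : ℂ := Complex.exp (-(Complex.I * N) * x)

private theorem fc_ne (N : ℕ) (x : ℝ) : fc N x ≠ 0 := Complex.exp_ne_zero _

private theorem pt_ne (x : ℝ) : pt x ≠ 0 := Complex.exp_ne_zero _

private theorem cos_fc (x : ℝ) : (Real.cos x : ℂ) = fc 1 x * (1 / 2 * (pt x + 1)) := by
  unfold fc pt
  have h1 : Complex.exp (-(Complex.I * ((1 : ℕ) : ℂ)) * (x : ℂ)) *
      (1 / 2 * (Complex.exp (2 * Complex.I * x) + 1)) =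
      1 / 2 * (Complex.exp (-(Complex.I * ((1 : ℕ) : ℂ)) * (x : ℂ)) *
      Complex.exp (2 * Complex.I * x) + Complex.exp (-(Complex.I * ((1 : ℕ) : ℂ)) * (x : ℂ))) := by
    ring
  rw [h1, ← Complex.exp_add]
  have e1 : -(Complex.I * ((1 : ℕ) : ℂ)) * (x : ℂ) + 2 * Complex.I * x = x * Complex.I := by
    push_cast
    ring
  have e2 : -(Complex.I * ((1 : ℕ) : ℂ)) * (x : ℂ) = -x * Complex.I := by
    push_cast
    ring
  rw [e1, e2, Complex.ofReal_cos, Complex.cos]
  ring

private theorem sin_fc (x : ℝ) :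
    (Real.sin x : ℂ) = fc 1 x * (1 / (2 * Complex.I) * (pt x - 1)) := by
  unfold fc pt
  have h1 : Complex.exp (-(Complex.I * ((1 : ℕ) : ℂ)) * (x : ℂ)) *
      (1 / (2 * Complex.I) * (Complex.exp (2 * Complex.I * x) - 1)) =
      1 / (2 * Complex.I) * (Complex.exp (-(Complex.I * ((1 : ℕ) : ℂ)) * (x : ℂ)) *
      Complex.exp (2 * Complex.I * x) - Complex.exp (-(Complex.I * ((1 : ℕ) : ℂ)) * (x : ℂ))) := by
    ring
  rw [h1, ← Complex.exp_add]
  have e1 : -(Complex.I * ((1 : ℕ) : ℂ)) * (x : ℂ) + 2 * Complex.I * x = x * Complex.I := by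
    push_cast
    ring
  have e2 : -(Complex.I * ((1 : ℕ) : ℂ)) * (x : ℂ) = -x * Complex.I := by
    push_cast
    ring
  rw [e1, e2, Complex.ofReal_sin, Complex.sin]
  generalize Complex.exp (x * Complex.I) = A
  generalize Complex.exp (-x * Complex.I) = B
  have hI : Complex.I * Complex.I = -1 := Complex.I_mul_I
  field_simp
  linear_combination (B - A) * hI

private theorem fc_pow (N : ℕ) (x : ℝ) : fc 1 x ^ N = fc N x := by
  unfold fc
  rw [← Complex.exp_nat_mul]
  congr 1
  push_cast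
  ring

private theorem trg_eq (a : ℕ → ℂ) (N : ℕ) (x : ℝ) :
    trg a N x = fc N x * (pol a N).eval (pt x) := by
  unfold trg pol
  rw [eval_finsetSum, Finset.mul_sum]
  refine Finset.sum_congr rfl fun j hj => ?_
  have hjN : j ≤ N := Nat.lt_succ_iff.1 (Finset.mem_range.1 hj)
  rw [cos_fc, sin_fc, mul_pow, mul_pow (fc 1 x), ← fc_pow N x]
  have h1 : fc 1 x ^ N = fc 1 x ^ (N - j) * fc 1 x ^ j := by
    rw [← pow_add, Nat.sub_add_cancel hjN]
  rw [h1]
  simp only [eval_mul, eval_C, eval_pow, eval_add, eval_sub, eval_X, eval_one]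
  ring

private theorem pol_natDegree (a : ℕ → ℂ) (N : ℕ) : (pol a N).natDegree ≤ N := by
  unfold pol
  refine natDegree_sum_le_of_forall_le _ _ fun j hj => ?_
  have hjN : j ≤ N := Nat.lt_succ_iff.1 (Finset.mem_range.1 hj)
  refine (natDegree_C_mul_le _ _).trans ?_
  refine natDegree_mul_le.trans ?_
  have h1 : ((C (1 / 2 : ℂ) * (X + 1)) ^ (N - j)).natDegree ≤ (N - j) * 1 := by
    refine natDegree_pow_le.trans (Nat.mul_le_mul_left _ ?_)
    refine (natDegree_C_mul_le _ _).trans ?_
    rw [← C_1, natDegree_X_add_C]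
  have h2 : ((C (1 / (2 * Complex.I)) * (X - 1)) ^ j).natDegree ≤ j * 1 := by
    refine natDegree_pow_le.trans (Nat.mul_le_mul_left _ ?_)
    refine (natDegree_C_mul_le _ _).trans ?_
    rw [← C_1, natDegree_X_sub_C]
  omega

private theorem pol_ne_zero (W : ℂ[X]) (hW : W ≠ 0) (N : ℕ) (hN : W.natDegree ≤ N) :
    pol (fun j => W.coeff j) N ≠ 0 := by
  intro h0
  -- a real point where `W` does not vanish
  have hex : ∃ t : ℝ, W.eval (t : ℂ) ≠ 0 := by
    by_contra hcon
    push Not at hcon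
    apply hW
    apply Polynomial.eq_zero_of_infinite_isRoot
    refine Set.Infinite.mono (s := Set.range (fun t : ℝ => (t : ℂ))) ?_
      (Set.infinite_range_of_injective Complex.ofReal_injective)
    rintro _ ⟨t, rfl⟩
    exact hcon t
  obtain ⟨t, ht⟩ := hex
  have h1 := trg_eq (fun j => W.coeff j) N (Real.arctan t)
  rw [h0, eval_zero, mul_zero] at h1
  have hc : Real.cos (Real.arctan t) ≠ 0 := (Real.cos_arctan_pos t).ne'
  have hs : Real.sin (Real.arctan t) = Real.cos (Real.arctan t) * t := by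
    have := Real.tan_arctan t
    rw [Real.tan_eq_sin_div_cos, div_eq_iff hc] at this
    rw [this]
    ring
  have h2 : trg (fun j => W.coeff j) N (Real.arctan t) =
      (Real.cos (Real.arctan t) : ℂ) ^ N * W.eval (t : ℂ) := by
    unfold trg
    rw [W.eval_eq_sum_range' (Nat.lt_succ_of_le hN), Finset.mul_sum]
    refine Finset.sum_congr rfl fun j hj => ?_
    have hjN : j ≤ N := Nat.lt_succ_iff.1 (Finset.mem_range.1 hj)
    have h3 : (Real.cos (Real.arctan t) : ℂ) ^ N =
        (Real.cos (Real.arctan t) : ℂ) ^ (N - j) * (Real.cos (Real.arctan t) : ℂ) ^ j := by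
      rw [← pow_add, Nat.sub_add_cancel hjN]
    rw [hs, h3]
    push_cast
    ring
  rw [h2] at h1
  rcases mul_eq_zero.1 h1 with h3 | h3
  · exact hc (by exact_mod_cast eq_zero_of_pow_eq_zero h3)
  · exact ht h3

/-- The operator on polynomials corresponding to `d/dx`. -/
private noncomputable def dop (N : ℕ) (Q : ℂ[X]) : ℂ[X] :=
  C (-(Complex.I * N)) * Q + C (2 * Complex.I) * (X * derivative Q)

private theorem dop_deriv (N : ℕ) (Q : ℂ[X]) (x : ℝ) :
    HasDerivAt (fun y : ℝ => fc N y * Q.eval (pt y)) (fc N x * (dop N Q).eval (pt x)) x := by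
  have hf : HasDerivAt (fun y : ℝ => fc N y) (fc N x * (-(Complex.I * N))) x := by
    have h1 : HasDerivAt (fun y : ℝ => -(Complex.I * N) * (y : ℂ)) (-(Complex.I * N) * 1) x :=
      (Complex.ofRealCLM.hasDerivAt (x := x)).const_mul _
    have h2 := h1.cexp
    rw [mul_one] at h2
    exact h2
  have hp : HasDerivAt (fun y : ℝ => pt y) (pt x * (2 * Complex.I)) x := by
    have h1 : HasDerivAt (fun y : ℝ => 2 * Complex.I * (y : ℂ)) (2 * Complex.I * 1) x :=
      (Complex.ofRealCLM.hasDerivAt (x := x)).const_mul _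
    have h2 := h1.cexp
    rw [mul_one] at h2
    exact h2
  have hq : HasDerivAt (fun y : ℝ => Q.eval (pt y))
      ((derivative Q).eval (pt x) * (pt x * (2 * Complex.I))) x :=
    (Q.hasDerivAt (pt x)).comp x hp
  have h3 := hf.mul hq
  refine h3.congr_deriv ?_
  unfold dop
  simp only [eval_add, eval_mul, eval_C, eval_X]
  ring

private theorem iter_dop (N : ℕ) (j : ℕ) : ∀ Q : ℂ[X],
    iteratedDeriv j (fun y : ℝ => fc N y * Q.eval (pt y)) =
      fun y : ℝ => fc N y * (((dop N)^[j]) Q).eval (pt y) := by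
  induction j with
  | zero =>
    intro Q
    rw [iteratedDeriv_zero]
    rfl
  | succ j ih =>
    intro Q
    rw [iteratedDeriv_succ']
    have h1 : deriv (fun y : ℝ => fc N y * Q.eval (pt y)) =
        fun y : ℝ => fc N y * (dop N Q).eval (pt y) := funext fun x => (dop_deriv N Q x).deriv
    rw [h1, ih, Function.iterate_succ_apply]

private theorem dvd_of_dop (N : ℕ) (c : ℂ) (hc : c ≠ 0) (m : ℕ) : ∀ Q : ℂ[X],
    (∀ j < m, (((dop N)^[j]) Q).eval c = 0) → (X - C c) ^ m ∣ Q := by
  induction m with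
  | zero =>
    intro Q _
    rw [pow_zero]
    exact one_dvd Q
  | succ m ih =>
    intro Q hQ
    cases m with
    | zero =>
      rw [zero_add, pow_one, dvd_iff_isRoot]
      exact hQ 0 (Nat.succ_pos _)
    | succ m =>
      have h1 : (X - C c) ^ (m + 1) ∣ Q := ih Q fun j hj => hQ j (by omega)
      have h2 : (X - C c) ^ (m + 1) ∣ dop N Q := ih (dop N Q) fun j hj => by
        have := hQ (j + 1) (by omega)
        rw [Function.iterate_succ_apply] at this
        exact this
      have h3 : (X - C c) ^ (m + 1) ∣ C (2 * Complex.I) * (X * derivative Q) := by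
        have h4 := dvd_sub h2 (h1.mul_left (C (-(Complex.I * N))))
        have h5 : dop N Q - C (-(Complex.I * N)) * Q = C (2 * Complex.I) * (X * derivative Q) := by
          unfold dop
          ring
        rw [h5] at h4
        exact h4
      have hu : IsUnit (C (2 * Complex.I) : ℂ[X]) := by
        rw [isUnit_C]
        exact IsUnit.mk0 _ (mul_ne_zero two_ne_zero Complex.I_ne_zero)
      have h6 : (X - C c) ^ (m + 1) ∣ X * derivative Q := (hu.dvd_mul_left).1 h3
      have hcop : IsCoprime ((X - C c) ^ (m + 1)) (X : ℂ[X]) := by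
        refine IsCoprime.pow_left ?_
        have := isCoprime_X_sub_C_of_isUnit_sub (a := c) (b := 0)
          (by rw [sub_zero]; exact IsUnit.mk0 _ hc)
        rwa [C_0, sub_zero] at this
      have h7 : (X - C c) ^ (m + 1) ∣ derivative Q := hcop.dvd_of_dvd_mul_left h6
      obtain ⟨R, hR⟩ := h1
      have h8 : derivative Q = C ((m + 1 : ℕ) : ℂ) * (X - C c) ^ m * R +
          (X - C c) ^ (m + 1) * derivative R := by
        rw [hR, derivative_mul, derivative_X_sub_C_pow]
        simp
      rw [h8] at h7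
      have h9 : (X - C c) ^ (m + 1) ∣ C ((m + 1 : ℕ) : ℂ) * (X - C c) ^ m * R :=
        (dvd_add_left (dvd_mul_right _ _)).1 h7
      have hu2 : IsUnit (C ((m + 1 : ℕ) : ℂ) : ℂ[X]) := by
        rw [isUnit_C]
        exact IsUnit.mk0 _ (Nat.cast_ne_zero.2 (Nat.succ_ne_zero m))
      rw [mul_assoc, hu2.dvd_mul_left, pow_succ] at h9
      have h10 : (X - C c) ∣ R :=
        (mul_dvd_mul_iff_left (pow_ne_zero m (X_sub_C_ne_zero c))).1 h9
      rw [hR, pow_succ (X - C c) (m + 1)]
      exact mul_dvd_mul_left _ h10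

private theorem pt_inj {x y : ℝ} (hx : x ∈ Set.Ico 0 Real.pi) (hy : y ∈ Set.Ico 0 Real.pi)
    (h : pt x = pt y) : x = y := by
  unfold pt at h
  rw [Complex.exp_eq_exp_iff_exists_int] at h
  obtain ⟨n, hn⟩ := h
  have h1 : (x : ℂ) = y + n * Real.pi := by
    have h2 : 2 * Complex.I * ((x : ℂ) - (y + n * Real.pi)) = 0 := by
      linear_combination hn
    rcases mul_eq_zero.1 h2 with h3 | h3
    · exact absurd h3 (mul_ne_zero two_ne_zero Complex.I_ne_zero)
    · exact sub_eq_zero.1 h3
  have h4 : x = y + n * Real.pi := by exact_mod_cast h1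
  have hpi := Real.pi_pos
  have h5 : (n : ℝ) * Real.pi < 1 * Real.pi := by
    have := hx.2
    have := hy.1
    linarith
  have h6 : (-1 : ℝ) * Real.pi < n * Real.pi := by
    have := hx.1
    have := hy.2
    linarith
  have h7 : (n : ℝ) < 1 := lt_of_mul_lt_mul_right h5 hpi.le
  have h8 : (-1 : ℝ) < n := lt_of_mul_lt_mul_right h6 hpi.le
  have h9 : n = 0 := by
    have : n < 1 := by exact_mod_cast h7
    have : -1 < n := by exact_mod_cast h8
    omega
  rw [h4, h9]
  simp

/-- Counting the zeros. -/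
private theorem count_le {N : ℕ} {P : ℂ[X]} (hP : P ≠ 0) (hN : P.natDegree ≤ N) (S : Finset ℝ)
    (c : ℝ → ℕ) (hS : ∀ x ∈ S, x ∈ Set.Ico 0 Real.pi) (hd : ∀ x ∈ S, (X - C (pt x)) ^ c x ∣ P) :
    ∑ x ∈ S, c x ≤ N := by
  have h1 : ∏ x ∈ S, (X - C (pt x)) ^ c x ∣ P := by
    refine Finset.prod_dvd_of_coprime ?_ hd
    intro x hx y hy hxy
    refine IsCoprime.pow (isCoprime_X_sub_C_of_isUnit_sub ?_)
    refine IsUnit.mk0 _ (sub_ne_zero.2 fun h => hxy (pt_inj (hS x hx) (hS y hy) h))
  have h2 := natDegree_le_of_dvd h1 hP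
  rw [natDegree_prod _ _ (fun x _ => pow_ne_zero _ (X_sub_C_ne_zero _))] at h2
  simp only [natDegree_pow, natDegree_X_sub_C, mul_one] at h2
  exact h2.trans hN

/-- a complex `u` of full rank has at most `k l` different zeros. -/
theorem zeros_rnc {k l : ℕ} (u : Matrix (Fin k) (Fin (k + l)) ℂ) (hu : FR u) (S : Finset ℝ)
    (hS : ∀ x ∈ S, x ∈ Set.Ico 0 Real.pi ∧ lf (cc (wf k (rnc (k + l)) x)) u = 0) :
    S.card ≤ k * l := by
  have hP := pol_ne_zero (wr (rp u)) (wr_ne_zero u hu) (k * l) (wr_natDegree u)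
  have hN := pol_natDegree (fun j => (wr (rp u)).coeff j) (k * l)
  have h1 := count_le hP hN S (fun _ => 1) (fun x hx => (hS x hx).1) (fun x hx => by
    rw [pow_one, dvd_iff_isRoot]
    have h2 := (hS x hx).2
    rw [lf_rnc] at h2
    have h3 := trg_eq (fun j => (wr (rp u)).coeff j) (k * l) x
    unfold trg at h3
    rw [h2] at h3
    exact (mul_eq_zero.1 h3.symm).resolve_left (fc_ne _ _))
  rw [Finset.sum_const, smul_eq_mul, mul_one] at h1
  exact h1

private theorem wf_smooth (k n : ℕ) : ContDiff ℝ (⊤ : ℕ∞) (wf k (rnc n)) := by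
  have h1 : ContDiff ℝ (⊤ : ℕ∞) (rnc n) := by
    refine contDiff_pi.2 fun j => ?_
    exact (Real.contDiff_cos.pow _).mul (Real.contDiff_sin.pow _)
  have h2 : ∀ a : ℕ, ContDiff ℝ (⊤ : ℕ∞) (iteratedDeriv a (rnc n)) := by
    intro a
    rw [iteratedDeriv_eq_iterate]
    exact ContDiff.iterate_deriv a h1
  refine contDiff_pi.2 fun t => ?_
  unfold wf
  refine contDiff_prod fun a _ => ?_
  exact contDiff_pi.1 (h2 a) (t a)

/-- `lf` of the derivatives. -/
private theorem lf_pf {k n : ℕ} (u : Matrix (Fin k) (Fin n) ℝ) (x : ℝ) (j : ℕ) :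
    iteratedDeriv j (fun y : ℝ => ((lf (wf k (rnc n) y) u : ℝ) : ℂ)) x =
      ((lf (GTC.pf k (rnc n) x j) u : ℝ) : ℂ) := by
  let L : GTC.Cf ℝ k n →ₗ[ℝ] ℂ :=
    { toFun := fun c => ((lf c u : ℝ) : ℂ)
      map_add' := fun c c' => by
        unfold lf
        rw [← Complex.ofReal_add, ← Finset.sum_add_distrib]
        congr 1
        exact Finset.sum_congr rfl fun t _ => by rw [Pi.add_apply, add_mul]
      map_smul' := fun r c => by
        unfold lf
        rw [RingHom.id_apply, Complex.real_smul, ← Complex.ofReal_mul, Finset.mul_sum]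
        congr 1
        exact Finset.sum_congr rfl fun t _ => by rw [Pi.smul_apply, smul_eq_mul, mul_assoc] }
  have h1 : ContDiffAt ℝ (j : ℕ∞) (wf k (rnc n)) x :=
    ((wf_smooth k n).of_le (by exact_mod_cast le_top)).contDiffAt
  have h2 := (LinearMap.toContinuousLinearMap L).iteratedFDeriv_comp_left h1 (i := j) le_rfl
  have h3 : iteratedDeriv j (fun y : ℝ => ((lf (wf k (rnc n) y) u : ℝ) : ℂ)) x =
      (iteratedFDeriv ℝ j ((LinearMap.toContinuousLinearMap L) ∘ (wf k (rnc n))) x)
        (fun _ => 1) := rfl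
  rw [h3, h2]
  rfl

theorem good_rnc (k l : ℕ) : GOOD k l (rnc (k + l)) := by
  intro u hu c hc hz
  obtain ⟨W, hW⟩ : ∃ W : ℂ[X], W = (wr (rp u)).map (algebraMap ℝ ℂ) := ⟨_, rfl⟩
  have hW0 : W ≠ 0 := by
    rw [hW]
    exact (Polynomial.map_ne_zero_iff (algebraMap ℝ ℂ).injective).2 (wr_ne_zero u hu)
  have hWd : W.natDegree ≤ k * l := by
    rw [hW]
    exact natDegree_map_le.trans (wr_natDegree u)
  have hP := pol_ne_zero W hW0 (k * l) hWd
  have hN := pol_natDegree (fun j => W.coeff j) (k * l)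
  have hF : (fun y : ℝ => ((lf (wf k (rnc (k + l)) y) u : ℝ) : ℂ)) =
      fun y : ℝ => fc (k * l) y * (pol (fun j => W.coeff j) (k * l)).eval (pt y) := by
    funext y
    rw [← trg_eq, lf_rnc_real]
    unfold trg
    push_cast
    refine Finset.sum_congr rfl fun j _ => ?_
    rw [hW, coeff_map]
    rfl
  have h1 := count_le hP hN c.support c (fun x hx => hc x hx) (fun x _ => by
    refine dvd_of_dop (k * l) (pt x) (pt_ne x) (c x) _ fun j hj => ?_
    have h2 := hz x j hj
    have h3 := lf_pf u x j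
    rw [h2, hF, iter_dop] at h3
    exact (mul_eq_zero.1 (h3.trans Complex.ofReal_zero)).resolve_left (fc_ne _ _))
  exact h1

theorem sp_finite {k l : ℕ} (hk : 1 ≤ k) {t : Fin (k * l) → ℝ} (ht : GTC.Simple t) :
    (Sol (ch (sp k (rnc (k + l)) t))).Finite := by
  classical
  by_contra hinf
  have hinf' : (Sol (ch (sp k (rnc (k + l)) t))).Infinite := hinf
  obtain ⟨y, hy, hyt⟩ := (Set.Ioo_infinite Real.pi_pos).exists_notMem_finset
    (Finset.image t Finset.univ)
  obtain ⟨u, hu, hcu⟩ := P1 hk (ch (sp k (rnc (k + l)) t)) hinf' (cc (wf k (rnc (k + l)) y))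
  have h1 := zeros_rnc u hu.1 (insert y (Finset.image t Finset.univ)) (by
    intro x hx
    rcases Finset.mem_insert.1 hx with rfl | hx
    · exact ⟨⟨hy.1.le, hy.2⟩, hcu⟩
    · obtain ⟨i, _, rfl⟩ := Finset.mem_image.1 hx
      exact ⟨⟨(ht.2 i).1.le, (ht.2 i).2⟩, hu.2 i⟩)
  rw [Finset.card_insert_of_notMem hyt, Finset.card_image_of_injective _ ht.1, Finset.card_univ,
    Fintype.card_fin] at h1
  omega

end GTR
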