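import Pool.Agent.GTR.Seven
import Pool.Agent.GTR.GlueC
import Pool.Agent.GTR.Cont
import Pool.Agent.GTR.PartA
import Pool.Agent.GTR.WBase0
import Pool.Agent.GTR.WGood
import Pool.Agent.GTR.WFin

/-!
# GTR Top : the main theorem on families of nice curves
-/

set_option autoImplicit false

open Matrix Real Set

namespace GTC

theorem base_all {m l : ℕ} (hl : 1 ≤ l) : ∀ t : Fin ((m + 1) * l) → ℝ, Simple t →
    PC (FN (m + 1) l) (rnc (m + 1 + l)) t := by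
  obtain ⟨t0, ht0, hRR, hC⟩ := GTR.base0 (m := m) hl
  intro t ht
  exact spread (rnc_nice _ (by omega)) (GTR.good_rnc (m + 1) l)
    (fun t ht => GTR.sp_finite (by omega) ht) ht0 ⟨hRR, hC⟩ ht

theorem main_family {m l : ℕ} (hl : 1 ≤ l) (Γ : ℝ → ℝ → Fin (m + 1 + l) → ℝ) (hΓ : Family Γ)
    (h0 : ∀ x, Γ 0 x = rnc (m + 1 + l) x) :
    ∀ s ∈ Icc (0 : ℝ) 1, GOOD (m + 1) l (Γ s) ∧
      ∀ t, Simple t → RR (sp (m + 1) (Γ s) t) (FN (m + 1) l) := by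
  have e0 : Γ 0 = rnc (m + 1 + l) := funext h0
  refine main_core (by omega) hl (FN (m + 1) l) Γ hΓ (by rw [e0]; exact GTR.good_rnc (m + 1) l) ?_
  intro s1 hs1 hG s hs t ht
  refine (partA hl hΓ hs1.1 hG ?_ s hs t ht).1
  rw [e0]
  exact base_all hl

theorem mt (k l : ℕ) (hk : 1 ≤ k) (hl : 1 ≤ l) : GTR.MT k l (FN k l) := by
  obtain ⟨m, rfl⟩ : ∃ m, k = m + 1 := ⟨k - 1, by omega⟩
  exact mt_of hk hl fun Γ hΓ h0 t ht =>
    (main_family hl Γ hΓ h0 1 ⟨zero_le_one, le_refl 1⟩).2 t ht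

end GTC
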