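import Pool.Agent.GTR.OrdCor

/-!
# GTR Trans : transversal flags

PROOF of `ord_add_le`.  Let `m1 ≥ m`, `m2 ≥ m'` be the orders at `x` and `y` (`ord_exists`), `n = k + l`,
`D_i(x) = k - rank (u * cm (jet γ i x)) = dim {z ∈ ℂ^k | z ᵥ* u kills F_i(x)}`.  For `1 ≤ i ≤ n - 1` the
subspaces `{z | z u kills F_i(x)}` and `{z | z u kills F_(n-i)(y)}` of `ℂ^k` intersect in `0`: such a `z u`
kills `F_i(x) + F_(n-i)(y)`, which is everything since the real spaces `FF γ i x`, `FF γ (n-i) y` have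
dimensions `i`, `n - i` (columns of invertible matrices) and intersect in `0`; so `z u = 0`, `z = 0`.
Hence `D_i(x) + D_(n-i)(y) ≤ k`.  Sum over `i ∈ Ico 1 n` (reflect the second sum, `Finset.sum_Ico_reflect`):
`m1 + m2 + k (k-1) ≤ k (n-1)`, so `m1 + m2 ≤ k (n - k) = k l` (`k(k-1)/2 + k(k-1)/2 = k(k-1)`, even).

PROOF of `transv_exists`.  Fix `x ∈ X` and `1 ≤ i ≤ n - 1` (for `i = 0` and `i = n` one of the spaces is
`⊥`).  Let `v` be a real `(n - i) × n` matrix of full rank with `v * jet γ i x = 0` (left kernel).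
If `FF γ i x ⊓ FF γ (n-i) y ≠ ⊥` then a nonzero combination of the columns of `jet γ (n-i) y` lies in
`FF γ i x`, is killed by `v`, so `det (v * jet γ (n-i) y) = 0`, that is `lf (cc (wf (n-i) γ y)) (cm v) = 0`
(the columns of `jet γ (n-i) y` are independent, so the combination has nonzero coefficients).
By `zeros_finite` (with `k := n - i`) only finitely many `y ∈ Icc a b` are excluded; an open interval
is infinite.
-/

set_option autoImplicit false

open Matrix Real Set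

namespace GTC

private theorem li_jet {n : ℕ} {γ : ℝ → Fin n → ℝ} {x : ℝ} (hx : (jet γ n x).det ≠ 0) {i : ℕ}
    (hi : i ≤ n) : LinearIndependent ℝ (fun b : Fin i => iteratedDeriv (b : ℕ) γ x) := by
  have h1 : LinearIndependent ℝ (fun b : Fin n => iteratedDeriv (b : ℕ) γ x) :=
    Matrix.linearIndependent_cols_of_det_ne_zero hx
  exact h1.comp (Fin.castLE hi) (Fin.castLE_injective hi)

private theorem finrank_FF {n : ℕ} {γ : ℝ → Fin n → ℝ} {x : ℝ} (hx : (jet γ n x).det ≠ 0) {i : ℕ}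
    (hi : i ≤ n) : Module.finrank ℝ (FF γ i x) = i := by
  have h1 := finrank_span_eq_card (li_jet hx hi)
  rwa [Fintype.card_fin] at h1

private theorem sup_top {n : ℕ} {γ : ℝ → Fin n → ℝ} {x y : ℝ} (hx : (jet γ n x).det ≠ 0)
    (hy : (jet γ n y).det ≠ 0) {i : ℕ} (hi : i ≤ n) (h : FF γ i x ⊓ FF γ (n - i) y = ⊥) :
    FF γ i x ⊔ FF γ (n - i) y = ⊤ := by
  refine Submodule.eq_top_of_disjoint _ _ ?_ (disjoint_iff.2 h)
  rw [finrank_FF hx hi, finrank_FF hy (Nat.sub_le n i), Module.finrank_fintype_fun_eq_card,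
    Fintype.card_fin]
  omega

/-- a real vector orthogonal to both spaces -/
private theorem real_kill {n : ℕ} {γ : ℝ → Fin n → ℝ} {x y : ℝ} {i j : ℕ}
    (h : FF γ i x ⊔ FF γ j y = ⊤) (a : Fin n → ℝ)
    (h1 : ∀ b : Fin i, a ⬝ᵥ iteratedDeriv (b : ℕ) γ x = 0)
    (h2 : ∀ b : Fin j, a ⬝ᵥ iteratedDeriv (b : ℕ) γ y = 0) : a = 0 := by
  obtain ⟨K, hK⟩ : ∃ K : Submodule ℝ (Fin n → ℝ), ∀ w, w ∈ K ↔ a ⬝ᵥ w = 0 :=
    ⟨{ carrier := {w | a ⬝ᵥ w = 0}
       add_mem' := by
        intro v w hv hw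
        change a ⬝ᵥ (v + w) = 0
        change a ⬝ᵥ v = 0 at hv
        change a ⬝ᵥ w = 0 at hw
        rw [dotProduct_add, hv, hw, add_zero]
       zero_mem' := dotProduct_zero a
       smul_mem' := by
        intro c w hw
        change a ⬝ᵥ (c • w) = 0
        change a ⬝ᵥ w = 0 at hw
        rw [dotProduct_smul, hw, smul_zero] }, fun w => Iff.rfl⟩
  have h3 : FF γ i x ≤ K := by
    unfold FF
    rw [Submodule.span_le]
    rintro _ ⟨b, rfl⟩
    exact (hK _).2 (h1 b)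
  have h4 : FF γ j y ≤ K := by
    unfold FF
    rw [Submodule.span_le]
    rintro _ ⟨b, rfl⟩
    exact (hK _).2 (h2 b)
  have h5 : a ∈ K := by
    have h6 : (⊤ : Submodule ℝ (Fin n → ℝ)) ≤ K := by
      rw [← h]
      exact sup_le h3 h4
    exact h6 Submodule.mem_top
  exact dotProduct_self_eq_zero.1 ((hK a).1 h5)

private theorem complex_kill {n : ℕ} {γ : ℝ → Fin n → ℝ} {x y : ℝ} {i j : ℕ}
    (h : FF γ i x ⊔ FF γ j y = ⊤) (w : Fin n → ℂ) (h1 : w ᵥ* cm (jet γ i x) = 0)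
    (h2 : w ᵥ* cm (jet γ j y) = 0) : w = 0 := by
  have key : ∀ (m : ℕ) (z : ℝ), w ᵥ* cm (jet γ m z) = 0 → ∀ b : Fin m,
      (fun c => (w c).re) ⬝ᵥ iteratedDeriv (b : ℕ) γ z = 0 ∧
      (fun c => (w c).im) ⬝ᵥ iteratedDeriv (b : ℕ) γ z = 0 := by
    intro m z hz b
    have h3 : ∑ c, w c * ((iteratedDeriv (b : ℕ) γ z c : ℝ) : ℂ) = 0 := congrFun hz b
    constructor
    · have h4 := congrArg Complex.re h3
      rw [Complex.re_sum, Complex.zero_re] at h4
      rw [← h4]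
      refine Finset.sum_congr rfl fun c _ => ?_
      rw [Complex.re_mul_ofReal]
    · have h4 := congrArg Complex.im h3
      rw [Complex.im_sum, Complex.zero_im] at h4
      rw [← h4]
      refine Finset.sum_congr rfl fun c _ => ?_
      rw [Complex.im_mul_ofReal]
  have hre := real_kill h (fun c => (w c).re) (fun b => (key i x h1 b).1)
    (fun b => (key j y h2 b).1)
  have him := real_kill h (fun c => (w c).im) (fun b => (key i x h1 b).2)
    (fun b => (key j y h2 b).2)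
  funext c
  exact Complex.ext (congrFun hre c) (congrFun him c)

private theorem rank_add_ge {k n i j : ℕ} (u : Matrix (Fin k) (Fin n) ℂ) (hu : FR u)
    (A : Matrix (Fin n) (Fin i) ℂ) (B : Matrix (Fin n) (Fin j) ℂ)
    (h : ∀ w : Fin n → ℂ, w ᵥ* A = 0 → w ᵥ* B = 0 → w = 0) :
    k ≤ (u * A).rank + (u * B).rank := by
  have h1 : Module.finrank ℂ (LinearMap.range (u * A)ᵀ.mulVecLin) +
      Module.finrank ℂ (LinearMap.ker (u * A)ᵀ.mulVecLin) = k := by
    rw [LinearMap.finrank_range_add_finrank_ker, Module.finrank_fintype_fun_eq_card,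
      Fintype.card_fin]
  have h2 : Module.finrank ℂ (LinearMap.range (u * B)ᵀ.mulVecLin) +
      Module.finrank ℂ (LinearMap.ker (u * B)ᵀ.mulVecLin) = k := by
    rw [LinearMap.finrank_range_add_finrank_ker, Module.finrank_fintype_fun_eq_card,
      Fintype.card_fin]
  have h3 : (u * A).rank = Module.finrank ℂ (LinearMap.range (u * A)ᵀ.mulVecLin) := by
    rw [← Matrix.rank_transpose]
    rfl
  have h4 : (u * B).rank = Module.finrank ℂ (LinearMap.range (u * B)ᵀ.mulVecLin) := by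
    rw [← Matrix.rank_transpose]
    rfl
  have hd : Disjoint (LinearMap.ker (u * A)ᵀ.mulVecLin) (LinearMap.ker (u * B)ᵀ.mulVecLin) := by
    rw [Submodule.disjoint_def]
    intro z hz1 hz2
    rw [LinearMap.mem_ker, Matrix.mulVecLin_apply, Matrix.mulVec_transpose,
      ← Matrix.vecMul_vecMul] at hz1 hz2
    have h5 := h _ hz1 hz2
    have h6 : Function.Injective fun v => v ᵥ* u := Matrix.vecMul_injective_iff.2 hu
    exact h6 (h5.trans (Matrix.zero_vecMul u).symm)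
  have h7 := Submodule.finrank_add_finrank_le_of_disjoint hd
  rw [Module.finrank_fintype_fun_eq_card, Fintype.card_fin] at h7
  omega

private theorem arith1 (k l : ℕ) (hk : 1 ≤ k) : (k + l - 1) * k = k * (k - 1) + k * l := by
  obtain ⟨k, rfl⟩ : ∃ k', k = k' + 1 := ⟨k - 1, by omega⟩
  rw [show k + 1 + l - 1 = k + l by omega, Nat.add_sub_cancel]
  ring

theorem ord_add_le {k l : ℕ} (hk : 1 ≤ k) {γ : ℝ → Fin (k + l) → ℝ} (hγ : ContDiff ℝ (⊤ : ℕ∞) γ)
    (x y : ℝ) (hx : (jet γ (k + l) x).det ≠ 0) (hy : (jet γ (k + l) y).det ≠ 0)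
    (hT : Transv γ x y) (u : Matrix (Fin k) (Fin (k + l)) ℂ) (hu : FR u)
    (m m' : ℕ) (hm : ∀ j < m, lf (cc (pf k γ x j)) u = 0)
    (hm' : ∀ j < m', lf (cc (pf k γ y j)) u = 0) : m + m' ≤ k * l := by
  obtain ⟨m1, h1, e1⟩ := ord_formula hγ x hx u hu
  obtain ⟨m2, h2, e2⟩ := ord_formula hγ y hy u hu
  have hm1 : m ≤ m1 := by
    by_contra hc
    exact h1.2 (hm m1 (by omega))
  have hm2 : m' ≤ m2 := by
    by_contra hc
    exact h2.2 (hm' m2 (by omega))
  have e3 := Finset.sum_Ico_reflect (fun i => k - (u * cm (jet γ i y)).rank) 1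
    (m := k + l) (n := k + l) (by omega)
  rw [show k + l + 1 - (k + l) = 1 by omega, show k + l + 1 - 1 = k + l by omega] at e3
  have e4 : ∑ i ∈ Finset.Ico 1 (k + l), (k - (u * cm (jet γ i x)).rank) +
      ∑ i ∈ Finset.Ico 1 (k + l), (k - (u * cm (jet γ (k + l - i) y)).rank) ≤
      ∑ _i ∈ Finset.Ico 1 (k + l), k := by
    rw [← Finset.sum_add_distrib]
    refine Finset.sum_le_sum fun i hi => ?_
    have hi' := Finset.mem_Ico.1 hi
    have h5 := rank_add_ge u hu (cm (jet γ i x)) (cm (jet γ (k + l - i) y))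
      (fun w hw1 hw2 => complex_kill (sup_top hx hy hi'.2.le (hT i hi'.2.le)) w hw1 hw2)
    omega
  rw [e3, ← e1, ← e2, Finset.sum_const, Nat.card_Ico, smul_eq_mul, arith1 k l hk] at e4
  have h6 : 2 * (k * (k - 1) / 2) = k * (k - 1) :=
    Nat.mul_div_cancel' (Nat.even_mul_pred_self k).two_dvd
  omega

private theorem bad_finite {n : ℕ} {γ : ℝ → Fin n → ℝ} (hγ : ContDiff ℝ (⊤ : ℕ∞) γ)
    (hx : ∀ x, (jet γ n x).det ≠ 0) (x : ℝ) (i : ℕ) (hi : i ≤ n) (a b : ℝ) :
    {y | y ∈ Icc a b ∧ FF γ i x ⊓ FF γ (n - i) y ≠ ⊥}.Finite := by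
  obtain ⟨v, hv, hvk⟩ : ∃ v : Matrix (Fin (n - i)) (Fin n) ℝ, FR v ∧
      ∀ c : Fin i, v *ᵥ iteratedDeriv (c : ℕ) γ x = 0 := by
    have hu : IsUnit (jet γ n x).det := isUnit_iff_ne_zero.2 (hx x)
    have hJ : (jet γ n x)⁻¹ * jet γ n x = 1 := Matrix.nonsing_inv_mul _ hu
    have hdet : ((jet γ n x)⁻¹).det ≠ 0 := by
      intro h0
      have h1 := congrArg Matrix.det hJ
      rw [Matrix.det_mul, h0, zero_mul, Matrix.det_one] at h1
      exact zero_ne_one h1
    refine ⟨Matrix.of fun a : Fin (n - i) => (jet γ n x)⁻¹ ⟨i + a, by omega⟩, ?_, ?_⟩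
    · have h1 : LinearIndependent ℝ (fun r => (jet γ n x)⁻¹ r) :=
        Matrix.linearIndependent_rows_of_det_ne_zero hdet
      refine h1.comp (fun a : Fin (n - i) => (⟨i + a, by omega⟩ : Fin n)) ?_
      intro a b hab
      have := congrArg Fin.val hab
      dsimp only at this
      exact Fin.ext (by omega)
    · intro c
      funext a
      have h1 := congrFun (congrFun hJ ⟨i + a, by omega⟩) ⟨c, by omega⟩
      rw [Matrix.mul_apply, Matrix.one_apply_ne (fun h => by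
        have := congrArg Fin.val h
        dsimp only at this
        omega)] at h1
      exact h1
  have hf := zeros_finite hγ hx (cm v) ((fr_cm v).2 hv) a b
  refine hf.subset ?_
  rintro y ⟨hy, hne⟩
  refine ⟨hy, ?_⟩
  obtain ⟨w, hw, hw0⟩ := Submodule.exists_mem_ne_zero_of_ne_bot hne
  obtain ⟨hw1, hw2⟩ := Submodule.mem_inf.1 hw
  have h1 : v *ᵥ w = 0 := by
    obtain ⟨c, hc⟩ := (Submodule.mem_span_range_iff_exists_fun ℝ).1 hw1
    rw [← hc, Matrix.mulVec_sum]
    refine Finset.sum_eq_zero fun b _ => ?_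
    rw [Matrix.mulVec_smul, hvk, smul_zero]
  obtain ⟨c, hc⟩ := (Submodule.mem_span_range_iff_exists_fun ℝ).1 hw2
  have hcw : jet γ (n - i) y *ᵥ c = w := by
    rw [← hc]
    funext j
    rw [Finset.sum_apply, Matrix.mulVec, dotProduct]
    refine Finset.sum_congr rfl fun b _ => ?_
    rw [Pi.smul_apply, smul_eq_mul, mul_comm]
    rfl
  have hc0 : c ≠ 0 := by
    rintro rfl
    apply hw0
    rw [← hcw, Matrix.mulVec_zero]
  have hdet : (v * jet γ (n - i) y).det = 0 :=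
    Matrix.exists_mulVec_eq_zero_iff.1 ⟨c, hc0, by rw [← Matrix.mulVec_mulVec, hcw, h1]⟩
  change lf (cc (wf (n - i) γ y)) (cm v) = 0
  rw [lf_cm, lf_wf, hdet, Complex.ofReal_zero]

theorem transv_exists {n : ℕ} {γ : ℝ → Fin n → ℝ} (hγ : ContDiff ℝ (⊤ : ℕ∞) γ)
    (hx : ∀ x, (jet γ n x).det ≠ 0) (X : Finset ℝ) (a b : ℝ) (hab : a < b) :
    ∃ y ∈ Ioo a b, ∀ x ∈ X, Transv γ x y := by
  have hfin : (⋃ x ∈ X, ⋃ i ∈ Finset.range (n + 1),
      {y | y ∈ Icc a b ∧ FF γ i x ⊓ FF γ (n - i) y ≠ ⊥}).Finite := by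
    refine Set.Finite.biUnion X.finite_toSet fun x _ => ?_
    exact Set.Finite.biUnion (Finset.range (n + 1)).finite_toSet fun i hi =>
      bad_finite hγ hx x i (Nat.lt_succ_iff.1 (Finset.mem_range.1 (Finset.mem_coe.1 hi))) a b
  obtain ⟨y, hy, hy'⟩ := (Ioo_infinite hab).exists_notMem_finite hfin
  refine ⟨y, hy, fun x hxX i hi => ?_⟩
  by_contra hne
  apply hy'
  rw [Set.mem_iUnion₂]
  refine ⟨x, hxX, ?_⟩
  rw [Set.mem_iUnion₂]
  exact ⟨i, Finset.mem_range.2 (by omega), Ioo_subset_Icc_self hy, hne⟩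

end GTC
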