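import Pool.Agent.GTR.OS
import Pool.Agent.GTR.P1

/-!
# GTR VFin : multiproblems as families of linear forms; (3.1) and (3.2)
-/

set_option autoImplicit false

open Matrix Module Filter Topology

namespace GTC

/-- the index set of the conditions of a multiproblem. -/
abbrev CI (c : ℝ →₀ ℕ) : Type := {p : ℝ × ℕ // p.2 < c p.1}

theorem CI_finite_set (c : ℝ →₀ ℕ) : {p : ℝ × ℕ | p.2 < c p.1}.Finite := by
  refine (c.support.finite_toSet.prod (Set.finite_Iio (c.sum fun _ m => m))).subset ?_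
  rintro ⟨x, j⟩ hj
  simp only [Set.mem_setOf_eq] at hj
  have hx : x ∈ c.support := by
    rw [Finsupp.mem_support_iff]
    omega
  refine ⟨hx, ?_⟩
  have : c x ≤ c.sum fun _ m => m :=
    Finset.single_le_sum (f := fun a => c a) (fun _ _ => Nat.zero_le _) hx
  exact lt_of_lt_of_le hj this

instance (c : ℝ →₀ ℕ) : Finite (CI c) := (CI_finite_set c).to_subtype

theorem card_CI (c : ℝ →₀ ℕ) : Nat.card (CI c) = c.sum fun _ m => m := by
  classical
  have h1 : {p : ℝ × ℕ | p.2 < c p.1} = ((c.support.sigma fun x => Finset.range (c x)).image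
      (fun q : (_ : ℝ) × ℕ => (q.1, q.2)) : Finset (ℝ × ℕ)) := by
    ext ⟨x, j⟩
    simp only [Set.mem_setOf_eq, Finset.coe_image, Set.mem_image, Finset.mem_coe,
      Finset.mem_sigma, Finset.mem_range, Finsupp.mem_support_iff, Prod.mk.injEq, Sigma.exists]
    constructor
    · intro h
      exact ⟨x, j, ⟨by omega, h⟩, rfl, rfl⟩
    · rintro ⟨x', j', ⟨_, h2⟩, rfl, rfl⟩
      exact h2
  have h2 : Nat.card (CI c) = ({p : ℝ × ℕ | p.2 < c p.1}).ncard := rfl
  rw [h2, h1, Set.ncard_coe_finset, Finset.card_image_of_injective, Finset.card_sigma]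
  · simp only [Finset.card_range]
    rfl
  · rintro ⟨x, j⟩ ⟨x', j'⟩ h
    simp only [Prod.mk.injEq] at h
    rw [h.1, h.2]

/-- an enumeration of the conditions of a problem. -/
theorem exists_enum {N : ℕ} {c : ℝ →₀ ℕ} (hc : Prob N c) : Nonempty (Fin N ≃ CI c) := by
  have h := card_CI c
  rw [hc.2] at h
  exact ⟨(Finite.equivFinOfCardEq h).symm⟩

/-- the conditions of a multiproblem. -/
noncomputable def hM (k : ℕ) {n : ℕ} (γ : ℝ → Fin n → ℝ) (c : ℝ →₀ ℕ) (p : CI c) : Cf ℝ k n :=
  pf k γ p.1.1 p.1.2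

theorem van_iff {k n : ℕ} (γ : ℝ → Fin n → ℝ) (c : ℝ →₀ ℕ) (u : Matrix (Fin k) (Fin n) ℂ) :
    Van k γ c u ↔ ∀ p, lf (ch (hM k γ c) p) u = 0 := by
  constructor
  · intro h p
    exact h p.1.1 p.1.2 p.2
  · intro h x j hj
    exact h ⟨(x, j), hj⟩

theorem solM_eq {k n : ℕ} (γ : ℝ → Fin n → ℝ) (c : ℝ →₀ ℕ) :
    SolM k γ c = Sol (ch (hM k γ c)) := by
  ext L
  constructor
  · rintro ⟨u, h1, h2, h3⟩
    exact ⟨u, ⟨h1, (van_iff γ c u).1 h2⟩, h3⟩
  · rintro ⟨u, ⟨h1, h2⟩, h3⟩
    exact ⟨u, h1, (van_iff γ c u).2 h2, h3⟩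

theorem sol_reindex {k n : ℕ} {ι κ : Type*} (e : ι ≃ κ) (h : κ → Cf ℂ k n) :
    Sol (fun i => h (e i)) = Sol h := by
  ext L
  constructor
  · rintro ⟨u, ⟨h1, h2⟩, h3⟩
    refine ⟨u, ⟨h1, fun i => ?_⟩, h3⟩
    have := h2 (e.symm i)
    simpa only [e.apply_symm_apply] using this
  · rintro ⟨u, ⟨h1, h2⟩, h3⟩
    exact ⟨u, ⟨h1, fun i => h2 (e i)⟩, h3⟩

/-- P1 for multiproblems. -/
theorem P1_M {k n : ℕ} (hk : 1 ≤ k) (γ : ℝ → Fin n → ℝ) (c : ℝ →₀ ℕ)
    (hinf : (SolM k γ c).Infinite) (y : ℝ) (j : ℕ) :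
    ∃ u, FR u ∧ Van k γ c u ∧ lf (cc (pf k γ y j)) u = 0 := by
  rw [solM_eq] at hinf
  obtain ⟨u, hu, h0⟩ := P1 hk (ch (hM k γ c)) hinf (cc (pf k γ y j))
  exact ⟨u, hu.1, (van_iff γ c u).2 hu.2, h0⟩

theorem van_mono {k n : ℕ} {γ : ℝ → Fin n → ℝ} {c c' : ℝ →₀ ℕ} (h : ∀ x, c' x ≤ c x)
    {u : Matrix (Fin k) (Fin n) ℂ} (hu : Van k γ c u) : Van k γ c' u :=
  fun x j hj => hu x j (lt_of_lt_of_le hj (h x))

/-- the total number of conditions. -/
abbrev tot (c : ℝ →₀ ℕ) : ℕ := c.sum fun _ m => m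

theorem tot_add (c c' : ℝ →₀ ℕ) : tot (c + c') = tot c + tot c' :=
  Finsupp.sum_add_index' (fun _ => rfl) (fun _ _ _ => rfl)

theorem tot_single (x : ℝ) (m : ℕ) : tot (Finsupp.single x m) = m :=
  Finsupp.sum_single_index rfl

theorem le_tot (c : ℝ →₀ ℕ) (x : ℝ) : c x ≤ tot c := by
  by_cases hx : x ∈ c.support
  · exact Finset.single_le_sum (f := fun a => c a) (fun _ _ => Nat.zero_le _) hx
  · rw [Finsupp.notMem_support_iff] at hx
    omega

/-- (3.1) -/
theorem par_fin {k l : ℕ} (hk : 1 ≤ k) (hl : 1 ≤ l) {γ : ℝ → Fin (k + l) → ℝ} (hγ : Nice γ)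
    (hP : PAR k l γ) (c : ℝ →₀ ℕ) (hc : Prob (k * l) c) : (SolM k γ c).Finite := by
  by_contra hinf
  have hinf : (SolM k γ c).Infinite := hinf
  -- a point transversal to all points of `c`
  obtain ⟨y, hy, hyS, hyT⟩ := exists_transv hγ (c.support : Set ℝ) c.support.finite_toSet
    (c.support : Set ℝ) c.support.finite_toSet le_rfl le_rfl Real.pi_pos
  have hyI : y ∈ Set.Ico 0 Real.pi := ⟨hy.1.le, hy.2⟩
  -- the family `c_I`
  let cI : (ℝ →₀ ℕ) → (ℝ →₀ ℕ) := fun I => I + Finsupp.single y (k * l - tot I)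
  have hcI : ∀ I : ℝ →₀ ℕ, (∀ x, I x ≤ c x) → ∀ x, x ≠ y → cI I x = I x := by
    intro I _ x hx
    simp only [cI, Finsupp.add_apply, Finsupp.single_apply, if_neg (Ne.symm hx), add_zero]
  have hsupp : ∀ I : ℝ →₀ ℕ, (∀ x, I x ≤ c x) → ∀ x ∈ I.support, x ∈ c.support := by
    intro I hI x hx
    rw [Finsupp.mem_support_iff] at hx ⊢
    have := hI x
    omega
  have hIy : ∀ I : ℝ →₀ ℕ, (∀ x, I x ≤ c x) → I y = 0 := by
    intro I hI
    by_contra hne
    exact hyS (hsupp I hI y (Finsupp.mem_support_iff.2 hne))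
  have hcIy : ∀ I : ℝ →₀ ℕ, (∀ x, I x ≤ c x) → cI I y = k * l - tot I := by
    intro I hI
    simp only [cI, Finsupp.add_apply, Finsupp.single_eq_same, hIy I hI, zero_add]
  have htotle : ∀ I : ℝ →₀ ℕ, (∀ x, I x ≤ c x) → tot I ≤ k * l := by
    intro I hI
    rw [← hc.2]
    exact Finsupp.sum_le_sum_index (Finsupp.le_def.2 hI) (fun _ _ => monotone_id) (fun _ _ => rfl)
  have hprob : ∀ I : ℝ →₀ ℕ, (∀ x, I x ≤ c x) → Prob (k * l) (cI I) := by
    intro I hI
    constructor
    · intro x hx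
      by_cases hxy : x = y
      · rw [hxy]
        exact hyI
      · rw [Finsupp.mem_support_iff, hcI I hI x hxy, ← Finsupp.mem_support_iff] at hx
        exact hc.1 x (hsupp I hI x hx)
    · have h1 := tot_add I (Finsupp.single y (k * l - tot I))
      rw [tot_single] at h1
      have h2 := htotle I hI
      change tot (I + Finsupp.single y (k * l - tot I)) = k * l
      omega
  -- minimal `I`
  have hex : ∃ m, ∃ I : ℝ →₀ ℕ, (∀ x, I x ≤ c x) ∧ tot I = m ∧ (SolM k γ (cI I)).Infinite := by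
    refine ⟨tot c, c, fun x => le_rfl, rfl, ?_⟩
    have h1 : cI c = c := by
      simp only [cI]
      rw [show k * l - tot c = 0 by rw [show tot c = k * l from hc.2]; omega]
      simp
    rw [h1]
    exact hinf
  classical
  obtain ⟨I, hI, htI, hIinf⟩ := Nat.find_spec hex
  have hmin : ∀ J : ℝ →₀ ℕ, (∀ x, J x ≤ c x) → tot J < tot I → (SolM k γ (cI J)).Finite := by
    intro J hJ hlt
    by_contra hJinf
    rw [htI] at hlt
    exact Nat.find_min hex hlt ⟨J, hJ, rfl, hJinf⟩
  -- at most one point: contradiction with (S1), (S2)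
  have hone : ∀ x1, (∀ x, x ≠ x1 → I x = 0) → False := by
    intro x1 hx1
    by_cases hI0 : I x1 = 0
    · -- `I = 0`
      have hI0' : I = 0 := by
        ext x
        by_cases hx : x = x1
        · rw [hx, hI0]; rfl
        · rw [hx1 x hx]; rfl
      obtain ⟨u, hu, hvan, h0⟩ := P1_M hk γ (cI I) hIinf y (k * l)
      have h1 : ∀ j < k * l + 1, lf (cc (pf k γ y j)) u = 0 := by
        intro j hj
        rcases Nat.lt_succ_iff_lt_or_eq.1 hj with h | h
        · apply hvan y j
          rw [hcIy I hI, hI0']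
          simpa using h
        · rw [h]
          exact h0
      have := cond_le hγ hu h1
      omega
    · have hx1c : x1 ∈ c.support := hsupp I hI x1 (Finsupp.mem_support_iff.2 hI0)
      have hx1y : x1 ≠ y := fun h => hyS (h ▸ hx1c)
      have htot : tot I = I x1 := by
        have : I = Finsupp.single x1 (I x1) := by
          ext x
          by_cases hx : x = x1
          · rw [hx, Finsupp.single_eq_same]
          · rw [hx1 x hx, Finsupp.single_apply, if_neg (Ne.symm hx)]
        conv_lhs => rw [this]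
        exact tot_single _ _
      obtain ⟨u, hu, hvan, h0⟩ := P1_M hk γ (cI I) hIinf x1 (I x1)
      obtain ⟨m, _, hm⟩ := ord_exists hγ u hu x1
      obtain ⟨m', _, hm'⟩ := ord_exists hγ u hu y
      have h1 : I x1 + 1 ≤ m := by
        apply isOrd_le hm
        intro j hj
        rcases Nat.lt_succ_iff_lt_or_eq.1 hj with h | h
        · apply hvan x1 j
          rw [hcI I hI x1 hx1y]
          exact h
        · rw [h]
          exact h0
      have h2 : k * l - tot I ≤ m' := by
        apply isOrd_le hm'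
        intro j hj
        apply hvan y j
        rw [hcIy I hI]
        exact hj
      have h3 := S2 hγ (hyT x1 hx1c) hu hm hm'
      omega
  -- two different points
  obtain ⟨i, hi⟩ : ∃ i, I i ≠ 0 := by
    by_contra hne
    push Not at hne
    exact hone 0 (fun x _ => hne x)
  obtain ⟨j, hji, hj⟩ : ∃ j, j ≠ i ∧ I j ≠ 0 := by
    by_contra hne
    push Not at hne
    exact hone i hne
  obtain ⟨u, hu, hvan, h0⟩ := P1_M hk γ (cI I) hIinf y (k * l - tot I)
  -- `u` is a solution of `c_(I - x)` for every point `x` of `I`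
  have hsub : ∀ x0, I x0 ≠ 0 → ∃ A : ℝ →₀ ℕ, Prob (k * l) A ∧ (SolM k γ A).Finite ∧
      Van k γ A u ∧ A x0 = I x0 - 1 ∧ ∀ x, x ≠ x0 → x ≠ y → A x = I x := by
    intro x0 hx0
    set J : ℝ →₀ ℕ := I - Finsupp.single x0 1 with hJ
    have hJx : ∀ x, J x = if x = x0 then I x0 - 1 else I x := by
      intro x
      rw [hJ, Finsupp.tsub_apply, Finsupp.single_apply]
      by_cases hx : x = x0
      · simp [hx]
      · rw [if_neg (Ne.symm hx), if_neg hx]
        rfl
    have hJle : ∀ x, J x ≤ c x := by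
      intro x
      have h1 := hI x
      rw [hJx]
      split_ifs with hx
      · rw [← hx]
        omega
      · exact h1
    have hJI : J + Finsupp.single x0 1 = I := by
      ext x
      rw [Finsupp.add_apply, hJx, Finsupp.single_apply]
      by_cases hx : x = x0
      · rw [hx]
        simp
        omega
      · rw [if_neg hx, if_neg (Ne.symm hx)]
        rfl
    have htJ : tot J + 1 = tot I := by
      have h1 := tot_add J (Finsupp.single x0 1)
      rw [hJI, tot_single] at h1
      exact h1.symm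
    have hle := htotle I hI
    have hx0y : x0 ≠ y := fun h => hyS (hsupp I hI y (h ▸ Finsupp.mem_support_iff.2 hx0))
    refine ⟨cI J, hprob J hJle, hmin J hJle (by omega), ?_, ?_, ?_⟩
    · intro x j hj
      by_cases hxy : x = y
      · subst hxy
        rw [hcIy J hJle] at hj
        have h1 : j < k * l - tot I ∨ j = k * l - tot I := by omega
        rcases h1 with h1 | h1
        · apply hvan x j
          rw [hcIy I hI]
          exact h1
        · rw [h1]
          exact h0
      · rw [hcI J hJle x hxy] at hj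
        apply hvan x j
        rw [hcI I hI x hxy]
        rw [hJx] at hj
        split_ifs at hj with hx
        · rw [hx]
          omega
        · exact hj
    · rw [hcI J hJle x0 hx0y, hJx, if_pos rfl]
    · intro x hx hxy
      rw [hcI J hJle x hxy, hJx, if_neg hx]
  obtain ⟨A, hA1, hA2, hA3, hA4, _⟩ := hsub i hi
  obtain ⟨B, hB1, hB2, hB3, _, hB5⟩ := hsub j hj
  have hic : i ∈ c.support := hsupp I hI i (Finsupp.mem_support_iff.2 hi)
  have hiy : i ≠ y := fun h => hyS (h ▸ hic)
  obtain ⟨m, _, hm⟩ := ord_exists hγ u hu i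
  have e1 := (hP A hA1 hA2 u hu hA3).2 i (hc.1 i hic) m hm
  have e2 := (hP B hB1 hB2 u hu hB3).2 i (hc.1 i hic) m hm
  rw [hA4] at e1
  rw [hB5 i (Ne.symm hji) hiy] at e2
  omega

/-- sub-multisets of given size. -/
theorem exists_sub_tot (f : ℝ →₀ ℕ) (m : ℕ) (hm : m ≤ tot f) :
    ∃ g : ℝ →₀ ℕ, (∀ x, g x ≤ f x) ∧ tot g = m := by
  induction m with
  | zero => exact ⟨0, fun x => Nat.zero_le _, rfl⟩
  | succ m ih =>
    obtain ⟨g, hg, ht⟩ := ih (by omega)
    obtain ⟨x0, hx0⟩ : ∃ x0, g x0 < f x0 := by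
      by_contra hne
      push Not at hne
      have h1 : g = f := by
        ext x
        exact le_antisymm (hg x) (hne x)
      rw [h1] at ht
      omega
    refine ⟨g + Finsupp.single x0 1, ?_, ?_⟩
    · intro x
      rw [Finsupp.add_apply, Finsupp.single_apply]
      split_ifs with hx
      · rw [← hx]
        omega
      · exact hg x
    · rw [tot_add, tot_single, ht]

/-- (3.2) -/
theorem par_good {k l : ℕ} (hk : 1 ≤ k) (hl : 1 ≤ l) {γ : ℝ → Fin (k + l) → ℝ} (hγ : Nice γ)
    (hP : PAR k l γ) : GOOD k l γ := by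
  intro v hv c hcs hvan
  by_contra hgt
  have hgt : k * l < tot c := not_le.1 hgt
  set u := cm v with hu
  have hFR : FR u := (fr_cm v).2 hv
  have hVan : Van k γ c u := by
    intro x j hj
    rw [hu, lf_cm, hvan x j hj]
    exact Complex.ofReal_zero
  -- a point of `c`
  obtain ⟨x1, hx1⟩ : ∃ x1, c x1 ≠ 0 := by
    by_contra hne
    push Not at hne
    have : c = 0 := by
      ext x
      exact hne x
    rw [this] at hgt
    simp at hgt
  have hx1s : x1 ∈ c.support := Finsupp.mem_support_iff.2 hx1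
  obtain ⟨m, hmle, hm⟩ := ord_exists hγ u hFR x1
  have h1 : c x1 ≤ m := isOrd_le hm (fun j hj => hVan x1 j hj)
  have h2 : tot (c.erase x1) + c x1 = tot c := by
    have h3 := tot_add (Finsupp.single x1 (c x1)) (c.erase x1)
    rw [Finsupp.single_add_erase, tot_single] at h3
    omega
  obtain ⟨g, hg, htg⟩ := exists_sub_tot (c.erase x1) (k * l - (m - 1)) (by omega)
  have hgx1 : g x1 = 0 := by
    have := hg x1
    rw [Finsupp.erase_same] at this
    omega
  set c' : ℝ →₀ ℕ := g + Finsupp.single x1 (m - 1) with hc'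
  have hc'x : ∀ x, x ≠ x1 → c' x ≤ c x := by
    intro x hx
    have := hg x
    rw [Finsupp.erase_ne hx] at this
    rw [hc', Finsupp.add_apply, Finsupp.single_apply, if_neg (Ne.symm hx), add_zero]
    exact this
  have hc'1 : c' x1 = m - 1 := by
    rw [hc', Finsupp.add_apply, Finsupp.single_eq_same, hgx1, zero_add]
  have hprob : Prob (k * l) c' := by
    constructor
    · intro x hx
      by_cases hxx : x = x1
      · rw [hxx]
        exact hcs x1 hx1s
      · apply hcs
        rw [Finsupp.mem_support_iff] at hx ⊢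
        have := hc'x x hxx
        omega
    · have h3 := tot_add g (Finsupp.single x1 (m - 1))
      rw [tot_single, htg] at h3
      change tot c' = k * l
      rw [hc']
      omega
  have hV' : Van k γ c' u := by
    intro x j hj
    by_cases hxx : x = x1
    · subst hxx
      rw [hc'1] at hj
      exact hm.1 j (by omega)
    · exact hVan x j (lt_of_lt_of_le hj (hc'x x hxx))
  have hfin := par_fin hk hl hγ hP c' hprob
  have h3 := (hP c' hprob hfin u hFR hV').2 x1 (hcs x1 hx1s) m hm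
  rw [hc'1] at h3
  omega

end GTC
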