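import Pool.Agent.GTR.WStart
import Pool.Agent.GTR.EpsU
import Pool.Agent.GTR.S.Defs

/-!
# GTR WBase : total reality and coherence of one simple problem of the rational normal curve (6)
-/

set_option autoImplicit false

open Polynomial Filter Topology

namespace GTR

open GTC
open Pool.GTR (eps)

/-- the matrix `uw w z * jet 0` is triangular with positive diagonal. -/
theorem det_jet_pos {k l : ℕ} {w : Fin (k * l) → Fin k} (hw : IsWord w) {z : Fin (k * l) → ℝ}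
    (hz : ∀ r, 0 < z r) : 0 < (uw w z * GTC.jet (rnc (k + l)) k 0).det := by
  rw [← lf_wf, lf_rnc_tan _ (by rw [Real.cos_zero]; exact one_ne_zero), rp_uw hw, Real.cos_zero,
    one_pow, one_mul, Real.tan_zero]
  have h1 : (wr (qp w z)).eval 0 =
      (Matrix.of fun a c : Fin k => (derivative^[(c : ℕ)] (qp w z a)).eval 0).det := by
    unfold wr
    rw [← Polynomial.coe_evalRingHom, RingHom.map_det]
    rfl
  have h2 : ∀ a c : Fin k, (derivative^[(c : ℕ)] (qp w z a)).eval 0 =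
      ((c : ℕ).factorial : ℝ) * (qp w z a).coeff c := by
    intro a c
    rw [← coeff_zero_eq_eval_zero, coeff_iterate_derivative, zero_add, Nat.descFactorial_self,
      nsmul_eq_mul]
  have h3 : ∀ a : Fin k, (qp w z a).coeff a =
      ∏ r ∈ Finset.univ.filter (fun r => w r = a), z r := by
    intro a
    unfold qp
    rw [coeff_X_pow_mul', if_pos le_rfl, Nat.sub_self, coeff_zero_eq_eval_zero, eval_prod]
    simp
  rw [h1, Matrix.det_of_upperTriangular]
  · refine Finset.prod_pos fun a _ => ?_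
    rw [Matrix.of_apply, h2, h3]
    exact mul_pos (by positivity) (Finset.prod_pos fun r _ => hz r)
  · intro a c hac
    rw [Matrix.of_apply, h2]
    unfold qp
    have hac' : (c : ℕ) < a := hac
    rw [coeff_X_pow_mul', if_neg (by omega), mul_zero]

/-- the input from 6.3. -/
def EpsWord (m l : ℕ) : Prop := ∃ s0 : ℝ, (s0 = 1 ∨ s0 = -1) ∧
  ∀ w : Fin ((m + 1) * l) → Fin (m + 1), IsWord w →
    ∀ {ι : Type} (F : Filter ι) (z : ι → Fin ((m + 1) * l) → ℝ), Pool.GTR.S.Sepz F z →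
      ∀ᶠ i in F, ∀ g : Matrix (Fin (m + 1)) (Fin (m + 1)) ℝ,
        g * uw w (z i) * GTC.jet (rnc (m + 1 + l)) (m + 1) 0 = 1 →
          eps (pth (rnc (m + 1 + l)) (g * uw w (z i))) = s0 * (-1) ^ inv w

theorem base_of {m l : ℕ} (hE : EpsWord m l) : ∃ t : Fin ((m + 1) * l) → ℝ, GTC.Simple t ∧
    RR (sp (m + 1) (rnc (m + 1 + l)) t) (FN (m + 1) l) ∧
    ∀ u u' : Matrix (Fin (m + 1)) (Fin (m + 1 + l)) ℝ,
      IsSol (sp (m + 1) (rnc (m + 1 + l)) t) u → IsSol (sp (m + 1) (rnc (m + 1 + l)) t) u' →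
      u * GTC.jet (rnc (m + 1 + l)) (m + 1) 0 = 1 → u' * GTC.jet (rnc (m + 1 + l)) (m + 1) 0 = 1 →
      0 < (JJ (sp (m + 1) (rnc (m + 1 + l)) t) u * eps (pth (rnc (m + 1 + l)) u)) *
        (JJ (sp (m + 1) (rnc (m + 1 + l)) t) u' * eps (pth (rnc (m + 1 + l)) u')) := by
  classical
  obtain ⟨s, hs, C, hC, δ, hδ, h⟩ := rr_start (k := m + 1) (l := l) (by omega)
  obtain ⟨s0, hs0, hE⟩ := hE
  have hZ : ∀ d : ℝ, ∃ Z : (Fin ((m + 1) * l) → Fin (m + 1)) → Fin ((m + 1) * l) → ℝ,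
      0 < d → d < δ →
      (∀ w, IsWord w → (∀ r, 0 < Z w r ∧ Z w r < C * d ^ ((m + 1) * l - (r : ℕ))) ∧
        (∀ r s, r < s → Z w r ≤ C * d * Z w s) ∧ StrictMono (Z w) ∧
        IsSol (sp (m + 1) (rnc (m + 1 + l)) (t0 ((m + 1) * l) d)) (uw w (Z w)) ∧
        0 < s * (-1) ^ inv w *
          JJ (sp (m + 1) (rnc (m + 1 + l)) (t0 ((m + 1) * l) d)) (uw w (Z w))) ∧
      ∀ u : Matrix (Fin (m + 1)) (Fin (m + 1 + l)) ℝ,
        IsSol (sp (m + 1) (rnc (m + 1 + l)) (t0 ((m + 1) * l) d)) u →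
        ∃ w, IsWord w ∧ ∃ g : Matrix (Fin (m + 1)) (Fin (m + 1)) ℝ, g.det ≠ 0 ∧
          u = g * uw w (Z w) := by
    intro d
    by_cases hd : 0 < d ∧ d < δ
    · obtain ⟨_, _, _, Z, h1, h2⟩ := h d hd.1 hd.2
      exact ⟨Z, fun _ _ => ⟨h1, h2⟩⟩
    · exact ⟨0, fun h1 h2 => absurd ⟨h1, h2⟩ hd⟩
  choose Z hZ using hZ
  have hev : ∀ᶠ d : ℝ in 𝓝[>] 0, 0 < d ∧ d < δ := Ioo_mem_nhdsGT hδ
  have hlim0 : Tendsto (fun d : ℝ => d) (𝓝[>] 0) (𝓝 0) := nhdsWithin_le_nhds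
  have hsep : ∀ w, IsWord w → Pool.GTR.S.Sepz (𝓝[>] (0 : ℝ)) (fun d => Z d w) := by
    intro w hw
    refine ⟨?_, fun r => ?_, fun r s' hrs => ?_⟩
    · filter_upwards [hev] with d hd r
      exact (((hZ d hd.1 hd.2).1 w hw).1 r).1
    · have h1 : Tendsto (fun d : ℝ => C * d ^ ((m + 1) * l - (r : ℕ))) (𝓝[>] 0) (𝓝 0) := by
        have h2 := (hlim0.pow ((m + 1) * l - (r : ℕ))).const_mul C
        have h3 : (m + 1) * l - (r : ℕ) ≠ 0 := by have := r.2; omega
        rwa [zero_pow h3, mul_zero] at h2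
      refine tendsto_of_tendsto_of_tendsto_of_le_of_le' tendsto_const_nhds h1 ?_ ?_
      · filter_upwards [hev] with d hd
        exact (((hZ d hd.1 hd.2).1 w hw).1 r).1.le
      · filter_upwards [hev] with d hd
        exact (((hZ d hd.1 hd.2).1 w hw).1 r).2.le
    · have h1 : Tendsto (fun d : ℝ => C * d) (𝓝[>] 0) (𝓝 0) := by
        have h2 := hlim0.const_mul C
        rwa [mul_zero] at h2
      refine tendsto_of_tendsto_of_tendsto_of_le_of_le' tendsto_const_nhds h1 ?_ ?_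
      · filter_upwards [hev] with d hd
        have h2 := (hZ d hd.1 hd.2).1 w hw
        exact (div_pos (h2.1 r).1 (h2.1 s').1).le
      · filter_upwards [hev] with d hd
        have h2 := (hZ d hd.1 hd.2).1 w hw
        rw [div_le_iff₀ (h2.1 s').1]
        exact h2.2.1 r s' hrs
  have hall : ∀ᶠ d : ℝ in 𝓝[>] 0, ∀ w, IsWord w →
      ∀ g : Matrix (Fin (m + 1)) (Fin (m + 1)) ℝ,
        g * uw w (Z d w) * GTC.jet (rnc (m + 1 + l)) (m + 1) 0 = 1 →
          eps (pth (rnc (m + 1 + l)) (g * uw w (Z d w))) = s0 * (-1) ^ inv w := by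
    rw [Filter.eventually_all]
    intro w
    by_cases hw : IsWord w
    · filter_upwards [hE w hw _ _ (hsep w hw)] with d hd _
      exact hd
    · exact Filter.Eventually.of_forall fun d h => absurd h hw
  obtain ⟨d, hd, hd2⟩ := (hall.and hev).exists
  obtain ⟨hZ1, hZ2⟩ := hZ d hd2.1 hd2.2
  obtain ⟨hsim, _, hRR, _⟩ := h d hd2.1 hd2.2
  have key : ∀ u : Matrix (Fin (m + 1)) (Fin (m + 1 + l)) ℝ,
      IsSol (sp (m + 1) (rnc (m + 1 + l)) (t0 ((m + 1) * l) d)) u →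
      u * GTC.jet (rnc (m + 1 + l)) (m + 1) 0 = 1 →
      0 < s * s0 * (JJ (sp (m + 1) (rnc (m + 1 + l)) (t0 ((m + 1) * l) d)) u *
        eps (pth (rnc (m + 1 + l)) u)) := by
    intro u hu hu1
    obtain ⟨w, hw, g, hg, rfl⟩ := hZ2 u hu
    have h1 := hZ1 w hw
    rw [hd w hw g hu1, JJ_mul (by omega) _ _ _ hg]
    have hgpos : 0 < g.det := by
      have h2 := congrArg Matrix.det hu1
      rw [Matrix.mul_assoc, Matrix.det_mul, Matrix.det_one] at h2
      have h3 := det_jet_pos hw (fun r => (h1.1 r).1)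
      exact pos_of_mul_pos_left (by rw [h2]; exact one_pos) h3.le
    have h4 : 0 < g.det ^ (m + 1 + (m + 1 - 1) * l) := by positivity
    have h5 := mul_pos h4 h1.2.2.2.2
    have h6 : s0 * s0 = 1 := by rcases hs0 with rfl | rfl <;> norm_num
    calc (0 : ℝ) < g.det ^ (m + 1 + (m + 1 - 1) * l) * (s * (-1) ^ inv w *
          JJ (sp (m + 1) (rnc (m + 1 + l)) (t0 ((m + 1) * l) d)) (uw w (Z d w))) := h5
      _ = (s0 * s0) * (g.det ^ (m + 1 + (m + 1 - 1) * l) * (s * (-1) ^ inv w *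
          JJ (sp (m + 1) (rnc (m + 1 + l)) (t0 ((m + 1) * l) d)) (uw w (Z d w)))) := by
          rw [h6, one_mul]
      _ = _ := by ring
  refine ⟨t0 ((m + 1) * l) d, hsim, hRR, fun u u' hu hu' h1 h1' => ?_⟩
  have h2 := mul_pos (key u hu h1) (key u' hu' h1')
  have h6 : (s * s0) * (s * s0) = 1 := by
    rcases hs with rfl | rfl <;> rcases hs0 with rfl | rfl <;> norm_num
  have h7 : (s * s0 * (JJ (sp (m + 1) (rnc (m + 1 + l)) (t0 ((m + 1) * l) d)) u *
        eps (pth (rnc (m + 1 + l)) u))) *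
      (s * s0 * (JJ (sp (m + 1) (rnc (m + 1 + l)) (t0 ((m + 1) * l) d)) u' *
        eps (pth (rnc (m + 1 + l)) u'))) =
      ((s * s0) * (s * s0)) * ((JJ (sp (m + 1) (rnc (m + 1 + l)) (t0 ((m + 1) * l) d)) u *
        eps (pth (rnc (m + 1 + l)) u)) *
      (JJ (sp (m + 1) (rnc (m + 1 + l)) (t0 ((m + 1) * l) d)) u' *
        eps (pth (rnc (m + 1 + l)) u'))) := by ring
  rw [h7, h6, one_mul] at h2
  exact h2

end GTR
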