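import Pool.Agent.GTR.WFrob
import Pool.Agent.GTR.Defs

/-!
# GTR WBij : `FN k l ∏ hooks = (k l)!` (6.1)

Bijection between the words `w` (`GTR.IsWord`) and the equivalences `e` (`GTC.IsWord`): to `e` belongs
`w r = (e.symm r).1`; to `w` belongs `e (a, j)` = the position of the `j`-th letter `a` (for instance
`(Finset.orderEmbOfFin (filter (w · = a)) (card = l)) j`). Rows increasing in `j` = enumeration in
increasing order. For `e` with increasing rows: `e (a', j) < e (a, j)` for all `a < a'`, all `j`, iff every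
prefix contains at least as many letters `a'` as `a`: `cnt w m a > j` iff `e (a, j) < m`. Then use
`GTR.count` and `Nat.card_congr`.
-/

set_option autoImplicit false

namespace GTR

private theorem lt_card_iff {l : ℕ} (f : Fin l → ℕ) (hf : StrictMono f) (m : ℕ) (j : Fin l) :
    f j < m ↔ (j : ℕ) < (Finset.univ.filter fun j' : Fin l => f j' < m).card := by
  constructor
  · intro h
    have h1 : Finset.Iic j ⊆ Finset.univ.filter fun j' : Fin l => f j' < m := by
      intro j' hj'
      rw [Finset.mem_Iic] at hj'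
      rw [Finset.mem_filter]
      exact ⟨Finset.mem_univ _, lt_of_le_of_lt (hf.monotone hj') h⟩
    have h2 := Finset.card_le_card h1
    rw [Fin.card_Iic] at h2
    omega
  · intro h
    by_contra hcon
    have h1 : (Finset.univ.filter fun j' : Fin l => f j' < m) ⊆ Finset.Iio j := by
      intro j' hj'
      rw [Finset.mem_filter] at hj'
      rw [Finset.mem_Iio]
      by_contra hj
      exact hcon (lt_of_le_of_lt (hf.monotone (not_lt.1 hj)) hj'.2)
    have h2 := Finset.card_le_card h1
    rw [Fin.card_Iio] at h2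
    omega

private theorem cnt_eq {k l : ℕ} (e : Fin k × Fin l ≃ Fin (k * l)) (w : Fin (k * l) → Fin k)
    (hw : ∀ a j, w (e (a, j)) = a) (m : ℕ) (a : Fin k) :
    cnt w m a = (Finset.univ.filter fun j : Fin l => (e (a, j) : ℕ) < m).card := by
  unfold cnt
  refine Finset.card_nbij' (fun r => (e.symm r).2) (fun j => e (a, j)) ?_ ?_ ?_ ?_
  · intro r hr
    simp only [Finset.coe_filter, Finset.mem_univ, true_and, Set.mem_ofPred_eq] at hr ⊢
    have h1 : w r = (e.symm r).1 := by
      have := hw (e.symm r).1 (e.symm r).2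
      rwa [Prod.mk.eta, Equiv.apply_symm_apply] at this
    have h2 : (a, (e.symm r).2) = e.symm r := by
      rw [← hr.2, h1]
    rw [h2, Equiv.apply_symm_apply]
    exact hr.1
  · intro j hj
    simp only [Finset.coe_filter, Finset.mem_univ, true_and, Set.mem_ofPred_eq] at hj ⊢
    exact ⟨hj, hw a j⟩
  · intro r hr
    simp only [Finset.coe_filter, Finset.mem_univ, true_and, Set.mem_ofPred_eq] at hr
    have h1 : w r = (e.symm r).1 := by
      have := hw (e.symm r).1 (e.symm r).2
      rwa [Prod.mk.eta, Equiv.apply_symm_apply] at this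
    have h2 : (a, (e.symm r).2) = e.symm r := by
      rw [← hr.2, h1]
    change e (a, (e.symm r).2) = r
    rw [h2, Equiv.apply_symm_apply]
  · intro j _
    change (e.symm (e (a, j))).2 = j
    rw [Equiv.symm_apply_apply]

private theorem lt_iff {k l : ℕ} (e : Fin k × Fin l ≃ Fin (k * l)) (w : Fin (k * l) → Fin k)
    (hw : ∀ a j, w (e (a, j)) = a) (hrow : ∀ a j j', j < j' → e (a, j) < e (a, j'))
    (m : ℕ) (a : Fin k) (j : Fin l) : (e (a, j) : ℕ) < m ↔ (j : ℕ) < cnt w m a := by
  rw [cnt_eq e w hw m a]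
  exact lt_card_iff (fun j => (e (a, j) : ℕ)) (fun j j' h => hrow a j j' h) m j

private theorem hw_symm {k l : ℕ} (e : Fin k × Fin l ≃ Fin (k * l)) (a : Fin k) (j : Fin l) :
    (fun r => (e.symm r).1) (e (a, j)) = a := by
  simp

private theorem isWord_of {k l : ℕ} (e : Fin k × Fin l ≃ Fin (k * l)) (he : GTC.IsWord e) :
    IsWord fun r => (e.symm r).1 := by
  refine ⟨fun m a b hab => ?_, fun a => ?_⟩
  · rcases eq_or_lt_of_le hab with h | h
    · rw [h]
    · rw [cnt_eq e _ (hw_symm e) m a, cnt_eq e _ (hw_symm e) m b]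
      refine Finset.card_le_card fun j hj => ?_
      rw [Finset.mem_filter] at hj ⊢
      exact ⟨hj.1, lt_trans (he.2 a b j h) hj.2⟩
  · rw [cnt_eq e _ (hw_symm e) (k * l) a]
    rw [Finset.filter_true_of_mem (fun j _ => (e (a, j)).isLt), Finset.card_univ, Fintype.card_fin]

private theorem card_words (k l : ℕ) :
    Nat.card {e : Fin k × Fin l ≃ Fin (k * l) // GTC.IsWord e} =
      Nat.card {w : Fin (k * l) → Fin k // IsWord w} := by
  refine Nat.card_congr (Equiv.ofBijective
    (fun e => ⟨fun r => (e.1.symm r).1, isWord_of e.1 e.2⟩) ⟨?_, ?_⟩)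
  · rintro ⟨e, he⟩ ⟨e', he'⟩ h
    have hww : (fun r => (e.symm r).1) = fun r => (e'.symm r).1 := congrArg Subtype.val h
    refine Subtype.ext (Equiv.ext ?_)
    rintro ⟨a, j⟩
    have h1 : ∀ m : ℕ, (e (a, j) : ℕ) < m ↔ (e' (a, j) : ℕ) < m := by
      intro m
      rw [lt_iff e (fun r => (e.symm r).1) (hw_symm e) he.1 m a j,
        lt_iff e' (fun r => (e'.symm r).1) (hw_symm e') he'.1 m a j, hww]
    apply Fin.ext
    change (e (a, j) : ℕ) = (e' (a, j) : ℕ)
    have h2 := (h1 ((e (a, j) : ℕ) + 1)).1 (Nat.lt_succ_self _)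
    have h3 := (h1 ((e' (a, j) : ℕ) + 1)).2 (Nat.lt_succ_self _)
    omega
  · rintro ⟨w, hw⟩
    have hcard : ∀ a, (Finset.univ.filter fun r => w r = a).card = l := by
      intro a
      refine Eq.trans ?_ (hw.full a)
      unfold cnt
      congr 1
      ext r
      simp
    have hmem : ∀ a j, w ((Finset.univ.filter fun r => w r = a).orderEmbOfFin (hcard a) j) = a := by
      intro a j
      have := Finset.orderEmbOfFin_mem (Finset.univ.filter fun r => w r = a) (hcard a) j
      rw [Finset.mem_filter] at this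
      exact this.2
    have hinj : Function.Injective fun x : Fin k × Fin l =>
        (Finset.univ.filter fun r => w r = x.1).orderEmbOfFin (hcard x.1) x.2 := by
      rintro ⟨a, j⟩ ⟨a', j'⟩ h
      have h1 : a = a' := by
        have h2 := congrArg w h
        simp only [hmem] at h2
        exact h2
      subst h1
      have h2 := (Finset.orderEmbOfFin (Finset.univ.filter fun r => w r = a) (hcard a)).injective h
      exact Prod.ext rfl h2
    have hbij := (Fintype.bijective_iff_injective_and_card _).2 ⟨hinj, by simp⟩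
    obtain ⟨e, he⟩ : ∃ e : Fin k × Fin l ≃ Fin (k * l), ∀ a j, e (a, j) =
        (Finset.univ.filter fun r => w r = a).orderEmbOfFin (hcard a) j :=
      ⟨Equiv.ofBijective _ hbij, fun a j => rfl⟩
    have hwe : ∀ a j, w (e (a, j)) = a := fun a j => by rw [he, hmem]
    have hrow : ∀ a j j', j < j' → e (a, j) < e (a, j') := by
      intro a j j' h
      rw [he, he]
      exact (Finset.orderEmbOfFin _ (hcard a)).strictMono h
    have hcol : ∀ a a' j, a < a' → e (a', j) < e (a, j) := by
      intro a a' j h
      have h1 := (lt_iff e w hwe hrow ((e (a, j) : ℕ) + 1) a j).1 (Nat.lt_succ_self _)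
      have h2 := lt_of_lt_of_le h1 (hw.bal ((e (a, j) : ℕ) + 1) a a' h.le)
      have h3 := (lt_iff e w hwe hrow ((e (a, j) : ℕ) + 1) a' j).2 h2
      have h4 : e (a', j) ≠ e (a, j) := by
        intro h5
        have h6 := e.injective h5
        rw [Prod.mk.injEq] at h6
        exact h.ne' h6.1
      have h5 : (e (a', j) : ℕ) ≠ (e (a, j) : ℕ) := fun h6 => h4 (Fin.ext h6)
      rw [Fin.lt_def]
      omega
    refine ⟨⟨e, hrow, hcol⟩, Subtype.ext (funext fun r => ?_)⟩
    change (e.symm r).1 = w r
    have := hwe (e.symm r).1 (e.symm r).2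
    rw [Prod.mk.eta, Equiv.apply_symm_apply] at this
    exact this.symm

theorem FN_mul (k l : ℕ) : GTC.FN k l *
    ∏ i ∈ Finset.range k, ∏ j ∈ Finset.range l, (i + j + 1) = (k * l).factorial := by
  rw [← count k l]
  unfold GTC.FN
  rw [card_words]

end GTR
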