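import Pool.Agent.GTR.WDefs
import Pool.Agent.GTR.Defs

/-!
# GTR WBlk : the determinant of the tangent vectors at a word solution (6.2)

`Bm w z` has the rows (indexed by `Fin (k l) ⊕ Fin k × Fin k`)
`inl r`: the matrix `∂ uw w z / ∂ z_r`: only row `w r` is not zero, it is the polynomial
`X^a ∏_(s ≠ r, w s = a) (z_s - X)`, `a = w r`;
`inr (a, b)`: `E_ab * uw w z`: row `a` is the polynomial `qp w z b`, the other rows vanish.
The columns are indexed by `Fin k × Fin (k + l)` (entries of `k × n` matrices); `idx k l` numbers them.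

PROOF. Let `ρ r = (w r, #{s < r : w s = w r})`, a bijection `Fin (k l) → Fin k × Fin l`
(`w` contains every letter `l` times). Reordering the rows `inl r` by `ρ` turns the matrix into a block
diagonal matrix over `a : Fin k` with the blocks `D_a`: rows = coefficients (`j < k + l`) of the `l`
polynomials `X^a ∏_(j' ≠ j) (ζ (a,j') - X)`, `j < l`, and of the `k` polynomials
`Q_b = X^b ∏_(j') (ζ (b,j') - X)`, `b < k`, where `ζ = z ∘ ρ⁻¹`; `ζ (a, ·)` is strictly increasing and
positive. `det D_a ≠ 0`: let `X^a R + ∑_b e_b Q_b = 0`, `R = ∑_j c_j ∏_(j' ≠ j) (ζ (a,j') - X)` of degree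
`< l`. Degrees: `deg Q_b = b + l`; for `b ≥ a` this is `> deg (X^a R)`, so (largest `b` first) `e_b = 0`
for `b ≥ a`. Lowest terms: `Q_b` starts with `X^b ∏ ζ`, `b < a`, so (smallest `b` first) `e_b = 0`. Then
`R = 0`, and `c = 0` by evaluating at `ζ (a, j)` (different numbers). The set of all `ζ` which are
positive and strictly increasing in `j` is convex, `det D_a` is continuous in `ζ` and does not vanish on
it: constant sign, independent of `w`. The sign of the reordering: relative to the fixed numbering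
`finProdFinEquiv` the permutation `finProdFinEquiv ∘ ρ` of `Fin (k l)` has sign
`(-1)^(number of pairs r < s with ρ r > ρ s lexicographically) = (-1)^(inv w)`
(`Equiv.Perm.sign_eq_prod_prod_Iio` or similar; for `r < s` with `w r = w s` the second component
increases). All other reorderings (of `Fin k × Fin l ⊕ Fin k × Fin k` into blocks, and `idx k l`) do not
depend on `w`: they only contribute to the constant `s`.
-/

set_option autoImplicit false

open Polynomial

namespace GTR

/-- the derivative of the row `qp w z (w r)` with respect to `z_r`. -/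
noncomputable def dq {k N : ℕ} (w : Fin N → Fin k) (z : Fin N → ℝ) (r : Fin N) : ℝ[X] :=
  X ^ (w r : ℕ) * ∏ s ∈ (Finset.univ.filter (fun s => w s = w r)).erase r, (C (z s) - X)

/-- the tangent vectors. -/
noncomputable def tv {k l : ℕ} (w : Fin (k * l) → Fin k) (z : Fin (k * l) → ℝ) :
    Fin (k * l) ⊕ (Fin k × Fin k) → Matrix (Fin k) (Fin (k + l)) ℝ :=
  Sum.elim (fun r a j => if a = w r then (dq w z r).coeff j else 0)
    (fun ab a j => if a = ab.1 then (qp w z ab.2).coeff j else 0)

/-! ### the reference matrix -/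

/-- reference rows -/
noncomputable def bQ {k l : ℕ} (ζ : Fin k → Fin l → ℝ) (b : Fin k) : ℝ[X] :=
  X ^ (b : ℕ) * ∏ j : Fin l, (C (ζ b j) - X)

/-- reference rows -/
noncomputable def bD {k l : ℕ} (ζ : Fin k → Fin l → ℝ) (a : Fin k) (j : Fin l) : ℝ[X] :=
  X ^ (a : ℕ) * ∏ j' ∈ Finset.univ.erase j, (C (ζ a j') - X)

theorem natDegree_CX (x : ℝ) : (C x - X : ℝ[X]).natDegree ≤ 1 := by
  refine (natDegree_sub_le _ _).trans ?_
  simp

theorem natDegree_pr {ι : Type*} (s : Finset ι) (x : ι → ℝ) :
    (∏ j ∈ s, (C (x j) - X : ℝ[X])).natDegree ≤ s.card := by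
  refine (natDegree_prod_le _ _).trans ?_
  refine (Finset.sum_le_sum fun j _ => natDegree_CX (x j)).trans ?_
  simp

theorem coeff_pr {ι : Type*} (s : Finset ι) (x : ι → ℝ) :
    (∏ j ∈ s, (C (x j) - X : ℝ[X])).coeff s.card = (-1) ^ s.card := by
  have h := coeff_prod_of_natDegree_le s (fun j => (C (x j) - X : ℝ[X])) 1
    (fun j _ => natDegree_CX (x j))
  rw [mul_one] at h
  rw [h]
  simp

theorem bQ_deg {k l : ℕ} (ζ : Fin k → Fin l → ℝ) (b : Fin k) :
    (bQ ζ b).natDegree ≤ (b : ℕ) + l := by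
  refine natDegree_mul_le.trans ?_
  rw [natDegree_X_pow]
  refine Nat.add_le_add_left ?_ _
  refine (natDegree_pr _ _).trans ?_
  simp

theorem bD_deg {k l : ℕ} (ζ : Fin k → Fin l → ℝ) (a : Fin k) (j : Fin l) :
    (bD ζ a j).natDegree < (a : ℕ) + l := by
  refine lt_of_le_of_lt natDegree_mul_le ?_
  rw [natDegree_X_pow]
  refine Nat.add_lt_add_left ?_ _
  refine lt_of_le_of_lt (natDegree_pr _ _) ?_
  rw [Finset.card_erase_of_mem (Finset.mem_univ j), Finset.card_univ, Fintype.card_fin]
  have := j.2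
  omega

theorem bQ_top {k l : ℕ} (ζ : Fin k → Fin l → ℝ) (b : Fin k) :
    (bQ ζ b).coeff ((b : ℕ) + l) = (-1) ^ l := by
  unfold bQ
  rw [add_comm, coeff_X_pow_mul]
  have h := coeff_pr Finset.univ (ζ b)
  rwa [Finset.card_univ, Fintype.card_fin] at h

theorem bQ_low {k l : ℕ} (ζ : Fin k → Fin l → ℝ) (b : Fin k) :
    (bQ ζ b).coeff (b : ℕ) = ∏ j, ζ b j := by
  unfold bQ
  rw [coeff_X_pow_mul', if_pos le_rfl, Nat.sub_self, coeff_zero_eq_eval_zero, eval_prod]
  simp

theorem core {k l : ℕ} (ζ : Fin k → Fin l → ℝ) (hpos : ∀ b j, 0 < ζ b j)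
    (hinj : ∀ b, StrictMono (ζ b)) (a : Fin k) (c : Fin l → ℝ) (e : Fin k → ℝ)
    (h : ∑ j, C (c j) * bD ζ a j + ∑ b, C (e b) * bQ ζ b = 0) :
    (∀ j, c j = 0) ∧ ∀ b, e b = 0 := by
  have hco : ∀ m : ℕ, ∑ j, c j * (bD ζ a j).coeff m + ∑ b, e b * (bQ ζ b).coeff m = 0 := by
    intro m
    have h1 := congrArg (fun p => coeff p m) h
    simp only [coeff_add, finsetSum_coeff, coeff_C_mul, coeff_zero] at h1
    exact h1
  have hhi : ∀ n : ℕ, ∀ b : Fin k, k - 1 - (b : ℕ) = n → a ≤ b → e b = 0 := by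
    intro n
    induction n using Nat.strong_induction_on with
    | _ n ih =>
      intro b hb hab
      have h1 := hco ((b : ℕ) + l)
      rw [Finset.sum_eq_zero, zero_add, Finset.sum_eq_single b] at h1
      · rw [bQ_top] at h1
        rcases mul_eq_zero.1 h1 with h2 | h2
        · exact h2
        · exact absurd h2 (pow_ne_zero _ (by norm_num))
      · intro b' _ hne
        rcases lt_or_gt_of_ne hne with hlt | hgt
        · rw [coeff_eq_zero_of_natDegree_lt, mul_zero]
          refine lt_of_le_of_lt (bQ_deg ζ b') ?_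
          rw [Fin.lt_def] at hlt
          omega
        · rw [ih (k - 1 - (b' : ℕ)) ?_ b' rfl (hab.trans hgt.le), zero_mul]
          rw [Fin.lt_def] at hgt
          have := b'.2
          omega
      · intro h2
        exact absurd (Finset.mem_univ b) h2
      · intro j _
        rw [coeff_eq_zero_of_natDegree_lt, mul_zero]
        refine lt_of_lt_of_le (bD_deg ζ a j) ?_
        rw [Fin.le_def] at hab
        omega
  have hlo : ∀ n : ℕ, ∀ b : Fin k, (b : ℕ) = n → b < a → e b = 0 := by
    intro n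
    induction n using Nat.strong_induction_on with
    | _ n ih =>
      intro b hb hab
      have h1 := hco (b : ℕ)
      rw [Finset.sum_eq_zero, zero_add, Finset.sum_eq_single b] at h1
      · rw [bQ_low] at h1
        rcases mul_eq_zero.1 h1 with h2 | h2
        · exact h2
        · exact absurd h2 (Finset.prod_pos fun j _ => hpos b j).ne'
      · intro b' _ hne
        rcases lt_or_gt_of_ne hne with hlt | hgt
        · rw [ih (b' : ℕ) ?_ b' rfl (hlt.trans hab), zero_mul]
          rw [Fin.lt_def] at hlt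
          omega
        · unfold bQ
          rw [coeff_X_pow_mul', if_neg, mul_zero]
          rw [Fin.lt_def] at hgt
          omega
      · intro h2
        exact absurd (Finset.mem_univ b) h2
      · intro j _
        unfold bD
        rw [coeff_X_pow_mul', if_neg, mul_zero]
        rw [Fin.lt_def] at hab
        omega
  have he : ∀ b, e b = 0 := by
    intro b
    rcases lt_or_ge b a with h1 | h1
    · exact hlo _ b rfl h1
    · exact hhi _ b rfl h1
  refine ⟨fun j => ?_, he⟩
  have h1 := congrArg (fun p => eval (ζ a j) p) h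
  simp only [he, map_zero, zero_mul, Finset.sum_const_zero, add_zero, eval_finsetSum, eval_mul,
    eval_C, eval_zero] at h1
  rw [Finset.sum_eq_single j] at h1
  · unfold bD at h1
    rw [eval_mul, eval_pow, eval_X, eval_prod] at h1
    rcases mul_eq_zero.1 h1 with h2 | h2
    · exact h2
    · exfalso
      rcases mul_eq_zero.1 h2 with h3 | h3
      · exact pow_ne_zero _ (hpos a j).ne' h3
      · obtain ⟨i, hi, h4⟩ := Finset.prod_eq_zero_iff.1 h3
        rw [eval_sub, eval_C, eval_X, sub_eq_zero] at h4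
        exact (Finset.ne_of_mem_erase hi) ((hinj a).injective h4)
  · intro i _ hi
    unfold bD
    rw [eval_mul, eval_prod, Finset.prod_eq_zero (i := j), mul_zero, mul_zero]
    · exact Finset.mem_erase.2 ⟨hi.symm, Finset.mem_univ _⟩
    · rw [eval_sub, eval_C, eval_X, sub_self]
  · intro h2
    exact absurd (Finset.mem_univ j) h2

/-- reference tangent vectors -/
noncomputable def bT {k l : ℕ} (ζ : Fin k → Fin l → ℝ) :
    (Fin k × Fin l) ⊕ (Fin k × Fin k) → Matrix (Fin k) (Fin (k + l)) ℝ :=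
  Sum.elim (fun aj a c => if a = aj.1 then (bD ζ aj.1 aj.2).coeff c else 0)
    (fun ab a c => if a = ab.1 then (bQ ζ ab.2).coeff c else 0)

/-- reference matrix -/
noncomputable def bM {k l : ℕ} (ζ : Fin k → Fin l → ℝ) :
    Matrix (Fin (k * l) ⊕ (Fin k × Fin k)) (Fin (k * l) ⊕ (Fin k × Fin k)) ℝ :=
  Matrix.of fun p q => bT ζ (Sum.map finProdFinEquiv.symm id p) (GTC.idx k l q).1
    (GTC.idx k l q).2

theorem bM_ne {k l : ℕ} (ζ : Fin k → Fin l → ℝ) (hpos : ∀ b j, 0 < ζ b j)
    (hinj : ∀ b, StrictMono (ζ b)) : (bM ζ).det ≠ 0 := by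
  classical
  intro hdet
  obtain ⟨v, hv, hv0⟩ := Matrix.exists_vecMul_eq_zero_iff.2 hdet
  have h1 : ∀ (a : Fin k) (c : Fin (k + l)),
      ∑ j : Fin l, v (Sum.inl (finProdFinEquiv (a, j))) * (bD ζ a j).coeff c +
        ∑ b : Fin k, v (Sum.inr (a, b)) * (bQ ζ b).coeff c = 0 := by
    intro a c
    have h2 := congrFun hv0 ((GTC.idx k l).symm (a, c))
    rw [Matrix.vecMul, dotProduct, Fintype.sum_sum_type, Pi.zero_apply] at h2
    unfold bM bT at h2
    simp only [Matrix.of_apply, Equiv.apply_symm_apply, Sum.map_inl, Sum.map_inr, Sum.elim_inl,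
      Sum.elim_inr, id] at h2
    rw [← Equiv.sum_comp finProdFinEquiv, Fintype.sum_prod_type, Fintype.sum_prod_type] at h2
    simp only [Equiv.symm_apply_apply] at h2
    rw [Finset.sum_eq_single a, Finset.sum_eq_single a] at h2
    · simpa using h2
    · intro a' _ hne
      refine Finset.sum_eq_zero fun j _ => ?_
      rw [if_neg (Ne.symm hne), mul_zero]
    · intro h3
      exact absurd (Finset.mem_univ a) h3
    · intro a' _ hne
      refine Finset.sum_eq_zero fun j _ => ?_
      rw [if_neg (Ne.symm hne), mul_zero]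
    · intro h3
      exact absurd (Finset.mem_univ a) h3
  have h4 : ∀ a : Fin k, (∀ j : Fin l, v (Sum.inl (finProdFinEquiv (a, j))) = 0) ∧
      ∀ b : Fin k, v (Sum.inr (a, b)) = 0 := by
    intro a
    refine core ζ hpos hinj a _ _ ?_
    ext m
    rw [coeff_add, finsetSum_coeff, finsetSum_coeff, coeff_zero]
    simp only [coeff_C_mul]
    rcases lt_or_ge m (k + l) with hm | hm
    · exact h1 a ⟨m, hm⟩
    · rw [Finset.sum_eq_zero, Finset.sum_eq_zero, add_zero]
      · intro b _
        rw [coeff_eq_zero_of_natDegree_lt, mul_zero]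
        refine lt_of_le_of_lt (bQ_deg ζ b) ?_
        have := b.2
        omega
      · intro j _
        rw [coeff_eq_zero_of_natDegree_lt, mul_zero]
        refine lt_of_lt_of_le (bD_deg ζ a j) ?_
        have := a.2
        omega
  refine hv (funext fun p => ?_)
  rcases p with r | ⟨a, b⟩
  · have h5 := (h4 (finProdFinEquiv.symm r).1).1 (finProdFinEquiv.symm r).2
    rwa [Prod.mk.eta, Equiv.apply_symm_apply] at h5
  · exact (h4 a).2 b

/-! ### constant sign -/

theorem coeff_cont {E ι : Type*} [TopologicalSpace E] (s : Finset ι) (f : ι → E → ℝ)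
    (hf : ∀ i, Continuous (f i)) (m : ℕ) :
    Continuous fun x => (∏ i ∈ s, (C (f i x) - X : ℝ[X])).coeff m := by
  classical
  induction s using Finset.induction_on generalizing m with
  | empty => simpa using continuous_const
  | insert i s hi ih =>
    simp only [Finset.prod_insert hi, sub_mul, coeff_sub, coeff_C_mul]
    refine ((hf i).mul (ih m)).sub ?_
    cases m with
    | zero => simpa using continuous_const
    | succ m =>
      simp only [coeff_X_mul]
      exact ih m

theorem coeff_cont' {E ι : Type*} [TopologicalSpace E] (n : ℕ) (s : Finset ι) (f : ι → E → ℝ)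
    (hf : ∀ i, Continuous (f i)) (m : ℕ) :
    Continuous fun x => (X ^ n * ∏ i ∈ s, (C (f i x) - X : ℝ[X])).coeff m := by
  simp only [coeff_X_pow_mul']
  by_cases h : n ≤ m
  · simp only [if_pos h]
    exact coeff_cont s f hf _
  · simp only [if_neg h]
    exact continuous_const

theorem bM_cont (k l : ℕ) : Continuous fun ζ : Fin k → Fin l → ℝ => (bM ζ).det := by
  refine Continuous.matrix_det (continuous_matrix fun p q => ?_)
  unfold bM bT
  rcases p with r | ⟨a, b⟩
  · simp only [Matrix.of_apply, Sum.map_inl, Sum.elim_inl]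
    by_cases h : (GTC.idx k l q).1 = (finProdFinEquiv.symm r).1
    · simp only [if_pos h]
      exact coeff_cont' _ _ (fun j (ζ : Fin k → Fin l → ℝ) => ζ (finProdFinEquiv.symm r).1 j)
        (fun j => by fun_prop) _
    · simp only [if_neg h]
      exact continuous_const
  · simp only [Matrix.of_apply, Sum.map_inr, Sum.elim_inr, id]
    by_cases h : (GTC.idx k l q).1 = a
    · simp only [if_pos h]
      exact coeff_cont' _ _ (fun j (ζ : Fin k → Fin l → ℝ) => ζ b j) (fun j => by fun_prop) _
    · simp only [if_neg h]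
      exact continuous_const

/-- the domain -/
def bS (k l : ℕ) : Set (Fin k → Fin l → ℝ) := {ζ | (∀ b j, 0 < ζ b j) ∧ ∀ b, StrictMono (ζ b)}

theorem comb_pos {α β x y : ℝ} (hα : 0 ≤ α) (hβ : 0 ≤ β) (h : α + β = 1) (hx : 0 < x)
    (hy : 0 < y) : 0 < α * x + β * y := by
  rcases hα.eq_or_lt with h1 | h1
  · rw [← h1, zero_add] at h
    rw [← h1, h]
    linarith
  · have := mul_pos h1 hx
    have := mul_nonneg hβ hy.le
    linarith

theorem bS_convex (k l : ℕ) : Convex ℝ (bS k l) := by
  intro x hx y hy α β hα hβ h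
  refine ⟨fun b j => ?_, fun b i j hij => ?_⟩
  · simp only [Pi.add_apply, Pi.smul_apply, smul_eq_mul]
    exact comb_pos hα hβ h (hx.1 b j) (hy.1 b j)
  · simp only [Pi.add_apply, Pi.smul_apply, smul_eq_mul]
    have h1 := comb_pos hα hβ h (sub_pos.2 (hx.2 b hij)) (sub_pos.2 (hy.2 b hij))
    linarith

theorem bM_sign (k l : ℕ) : ∃ s : ℝ, (s = 1 ∨ s = -1) ∧ ∀ ζ ∈ bS k l, 0 < s * (bM ζ).det := by
  by_cases h : ∀ ζ ∈ bS k l, 0 < (bM ζ).det
  · exact ⟨1, Or.inl rfl, fun ζ hζ => by rw [one_mul]; exact h ζ hζ⟩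
  · push Not at h
    obtain ⟨ζ0, h0, h1⟩ := h
    refine ⟨-1, Or.inr rfl, fun ζ hζ => ?_⟩
    by_contra h2
    have h3 : 0 ≤ (bM ζ).det := by linarith
    have h4 := (bS_convex k l).isPreconnected.intermediate_value h0 hζ (bM_cont k l).continuousOn
    obtain ⟨ζ1, h5, h6⟩ := h4 (Set.mem_Icc.2 ⟨h1, h3⟩)
    exact bM_ne ζ1 h5.1 h5.2 h6

/-! ### the bijection -/

theorem cnt_mono' {k N : ℕ} (w : Fin N → Fin k) {m m' : ℕ} (h : m ≤ m') (a : Fin k) :
    cnt w m a ≤ cnt w m' a := by
  unfold cnt
  refine Finset.card_le_card fun r hr => ?_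
  rw [Finset.mem_filter] at hr ⊢
  exact ⟨hr.1, by omega, hr.2.2⟩

theorem cnt_lt' {k N : ℕ} (w : Fin N → Fin k) {r : Fin N} {m : ℕ} (h : (r : ℕ) < m) :
    cnt w (r : ℕ) (w r) < cnt w m (w r) := by
  unfold cnt
  refine Finset.card_lt_card ?_
  rw [Finset.ssubset_iff_of_subset]
  · refine ⟨r, ?_, ?_⟩
    · rw [Finset.mem_filter]
      exact ⟨Finset.mem_univ _, h, rfl⟩
    · rw [Finset.mem_filter]
      omega
  · intro s hs
    rw [Finset.mem_filter] at hs ⊢
    exact ⟨hs.1, by omega, hs.2.2⟩

/-- the bijection -/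
def rho {k l : ℕ} (w : Fin (k * l) → Fin k) (hw : IsWord w) (r : Fin (k * l)) :
    Fin k × Fin l :=
  (w r, ⟨cnt w (r : ℕ) (w r), by
    have h1 := cnt_lt' w (show (r : ℕ) < k * l from r.2)
    rwa [hw.full] at h1⟩)

theorem rho_lt {k l : ℕ} (w : Fin (k * l) → Fin k) (hw : IsWord w) {r s : Fin (k * l)}
    (h : w r = w s) : (rho w hw r).2 < (rho w hw s).2 ↔ r < s := by
  rw [Fin.lt_def, Fin.lt_def]
  simp only [rho]
  constructor
  · intro h1
    by_contra h2
    have h3 := cnt_mono' w (show (s : ℕ) ≤ r by omega) (w r)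
    rw [← h] at h1
    omega
  · intro h1
    rw [← h]
    exact cnt_lt' w h1

theorem rho_bij {k l : ℕ} (w : Fin (k * l) → Fin k) (hw : IsWord w) :
    Function.Bijective (rho w hw) := by
  refine (Fintype.bijective_iff_injective_and_card _).2 ⟨fun r s h => ?_, by simp⟩
  have h1 : w r = w s := congrArg Prod.fst h
  have h2 : (rho w hw r).2 = (rho w hw s).2 := congrArg Prod.snd h
  rcases lt_trichotomy r s with h3 | h3 | h3
  · exact absurd ((rho_lt w hw h1).2 h3) (by rw [h2]; exact lt_irrefl _)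
  · exact h3
  · exact absurd ((rho_lt w hw h1.symm).2 h3) (by rw [h2]; exact lt_irrefl _)

theorem sign_rho {k l : ℕ} (w : Fin (k * l) → Fin k) (hw : IsWord w) :
    Equiv.Perm.sign ((Equiv.ofBijective _ (rho_bij w hw)).trans finProdFinEquiv) =
      (-1) ^ inv w := by
  classical
  rw [Equiv.Perm.sign_eq_prod_prod_Ioi]
  unfold inv
  rw [← Finset.prod_const, Finset.prod_filter, ← Finset.univ_product_univ, Finset.prod_product]
  refine Finset.prod_congr rfl fun i _ => ?_
  rw [← Finset.prod_subset (Finset.subset_univ (Finset.Ioi i))]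
  · refine Finset.prod_congr rfl fun j hj => ?_
    have hij : i < j := Finset.mem_Ioi.1 hj
    rw [Equiv.trans_apply, Equiv.trans_apply, Equiv.ofBijective_apply, Equiv.ofBijective_apply]
    simp only [Fin.lt_def, finProdFinEquiv_apply_val]
    have h2 := (rho w hw i).2.2
    have h3 := (rho w hw j).2.2
    rcases lt_trichotomy (w i) (w j) with h | h | h
    · rw [if_pos, if_neg]
      · intro h4
        rw [Fin.lt_def] at h
        omega
      · have h4 : (w i : ℕ) + 1 ≤ w j := h
        have h5 := Nat.mul_le_mul_left l h4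
        have h6 : ((rho w hw i).1 : ℕ) = w i := rfl
        have h7 : ((rho w hw j).1 : ℕ) = w j := rfl
        rw [h6, h7]
        rw [mul_add, mul_one] at h5
        omega
    · rw [if_pos, if_neg]
      · intro h4
        rw [h] at h4
        omega
      · have h4 := (rho_lt w hw h).2 hij
        rw [Fin.lt_def] at h4
        have h6 : ((rho w hw i).1 : ℕ) = w i := rfl
        have h7 : ((rho w hw j).1 : ℕ) = w j := rfl
        rw [h6, h7, h]
        omega
    · rw [if_neg, if_pos ⟨hij, h⟩]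
      have h4 : (w j : ℕ) + 1 ≤ w i := h
      have h5 := Nat.mul_le_mul_left l h4
      have h6 : ((rho w hw i).1 : ℕ) = w i := rfl
      have h7 : ((rho w hw j).1 : ℕ) = w j := rfl
      rw [h6, h7]
      rw [mul_add, mul_one] at h5
      omega
  · intro j _ hj
    rw [if_neg]
    intro h
    exact hj (Finset.mem_Ioi.2 h.1)

theorem blk (k l : ℕ) : ∃ s : ℝ, (s = 1 ∨ s = -1) ∧ ∀ w : Fin (k * l) → Fin k, IsWord w →
    ∀ z : Fin (k * l) → ℝ, (∀ r, 0 < z r) → StrictMono z →
      0 < s * (-1) ^ inv w * (Matrix.of fun p q : Fin (k * l) ⊕ (Fin k × Fin k) =>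
        tv w z p (GTC.idx k l q).1 (GTC.idx k l q).2).det := by
  classical
  obtain ⟨s, hs, hsg⟩ := bM_sign k l
  refine ⟨s, hs, fun w hw z hz hmono => ?_⟩
  obtain ⟨ρ, hρ⟩ : ∃ ρ : Fin (k * l) ≃ Fin k × Fin l, ρ = Equiv.ofBijective _ (rho_bij w hw) :=
    ⟨_, rfl⟩
  have hρa : ∀ r, ρ r = rho w hw r := fun r => by rw [hρ, Equiv.ofBijective_apply]
  obtain ⟨ζ, hζ⟩ : ∃ ζ : Fin k → Fin l → ℝ, ∀ a j, ζ a j = z (ρ.symm (a, j)) :=
    ⟨_, fun _ _ => rfl⟩
  have hζS : ζ ∈ bS k l := by
    refine ⟨fun b j => ?_, fun b i j hij => ?_⟩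
    · rw [hζ]
      exact hz _
    · rw [hζ, hζ]
      refine hmono ?_
      have h1 : rho w hw (ρ.symm (b, i)) = (b, i) := by rw [← hρa, Equiv.apply_symm_apply]
      have h2 : rho w hw (ρ.symm (b, j)) = (b, j) := by rw [← hρa, Equiv.apply_symm_apply]
      have h3 : w (ρ.symm (b, i)) = b := congrArg Prod.fst h1
      have h4 : w (ρ.symm (b, j)) = b := congrArg Prod.fst h2
      rw [← rho_lt w hw (h3.trans h4.symm), h1, h2]
      exact hij
  have hw1 : ∀ r, (ρ r).1 = w r := fun r => by rw [hρa]; rfl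
  have hzr : ∀ r, z r = ζ (ρ r).1 (ρ r).2 := fun r => by
    rw [hζ, Prod.mk.eta, Equiv.symm_apply_apply]
  have hqp : ∀ b, qp w z b = bQ ζ b := by
    intro b
    unfold qp bQ
    congr 1
    rw [Finset.prod_filter]
    have h1 : ∀ r, (if w r = b then (C (z r) - X : ℝ[X]) else 1) =
        (fun x : Fin k × Fin l => if x.1 = b then (C (ζ x.1 x.2) - X : ℝ[X]) else 1) (ρ r) := by
      intro r
      simp only
      rw [hw1, hzr, hw1]
    rw [Finset.prod_congr rfl fun r _ => h1 r,
      Equiv.prod_comp ρ (fun x : Fin k × Fin l => if x.1 = b then (C (ζ x.1 x.2) - X : ℝ[X]) else 1),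
      Fintype.prod_prod_type, Finset.prod_eq_single b]
    · simp
    · intro b' _ hb
      simp [hb]
    · intro h2
      exact absurd (Finset.mem_univ b) h2
  have hdq : ∀ r, dq w z r = bD ζ (ρ r).1 (ρ r).2 := by
    intro r
    unfold dq bD
    rw [hw1]
    congr 1
    have h0 : (Finset.univ.filter (fun s => w s = w r)).erase r =
        Finset.univ.filter (fun s => s ≠ r ∧ w s = w r) := by
      ext s
      simp
    rw [h0, Finset.prod_filter]
    have h1 : ∀ s, (if s ≠ r ∧ w s = w r then (C (z s) - X : ℝ[X]) else 1) =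
        (fun x : Fin k × Fin l => if x ≠ ρ r ∧ x.1 = w r then (C (ζ x.1 x.2) - X : ℝ[X]) else 1)
          (ρ s) := by
      intro s
      simp only
      rw [hw1, hzr, hw1]
      simp only [ne_eq, EmbeddingLike.apply_eq_iff_eq]
    rw [Finset.prod_congr rfl fun s _ => h1 s,
      Equiv.prod_comp ρ (fun x : Fin k × Fin l =>
        if x ≠ ρ r ∧ x.1 = w r then (C (ζ x.1 x.2) - X : ℝ[X]) else 1),
      Fintype.prod_prod_type, Finset.prod_eq_single (w r)]
    · simp only [and_true]
      rw [← Finset.prod_filter]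
      refine Finset.prod_congr ?_ fun _ _ => rfl
      ext j
      simp only [Finset.mem_filter, Finset.mem_univ, true_and, Finset.mem_erase, and_true]
      rw [not_iff_not]
      constructor
      · intro h2
        rw [← h2]
      · intro h2
        rw [h2, ← hw1]
    · intro b' _ hb
      simp [hb]
    · intro h2
      exact absurd (Finset.mem_univ _) h2
  have hmat : (Matrix.of fun p q : Fin (k * l) ⊕ (Fin k × Fin k) =>
        tv w z p (GTC.idx k l q).1 (GTC.idx k l q).2) =
      (bM ζ).submatrix (Equiv.Perm.sumCongr (ρ.trans finProdFinEquiv) 1) id := by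
    ext p q
    rw [Matrix.submatrix_apply, Matrix.of_apply]
    unfold bM tv bT
    rw [Matrix.of_apply]
    rcases p with r | ⟨a, b⟩
    · simp only [Sum.elim_inl, Equiv.Perm.sumCongr_apply, Sum.map_inl, Equiv.trans_apply,
        Equiv.symm_apply_apply, id]
      rw [hdq, hw1]
    · simp only [Sum.elim_inr, Equiv.Perm.sumCongr_apply, Sum.map_inr, id, Equiv.Perm.coe_one]
      rw [hqp]
  rw [hmat, Matrix.det_permute, Equiv.Perm.sign_sumCongr, Equiv.Perm.sign_one, mul_one]
  have h1 := sign_rho w hw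
  rw [← hρ] at h1
  rw [h1]
  have h2 : (((((-1 : ℤˣ) ^ inv w : ℤˣ) : ℤ)) : ℝ) = (-1) ^ inv w := by
    push_cast
    rfl
  rw [h2]
  have h3 : ((-1 : ℝ) ^ inv w) * ((-1 : ℝ) ^ inv w) = 1 := by
    rw [← mul_pow]
    norm_num
  have h4 : s * (-1) ^ inv w * ((-1) ^ inv w * (bM ζ).det) = s * (bM ζ).det := by
    linear_combination (s * (bM ζ).det) * h3
  rw [h4]
  exact hsg ζ hζS

end GTR
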