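import Pool.Agent.GTR.WZero

/-!
# GTR WDist : different words give different solutions (6.1)

Let `0 < c0 ≤ y0 w r ≤ C0` for all words `w` and all `r` (finitely many, `y0_pos`) and let `d` be so
small that the intervals `d^(N-r) (c0/2, 2 C0)`, `r < N`, are disjoint (`d < 1` and
`d * 2 C0 ≤ c0 / 2`). Let `L` be the span of the rows `q_a = qp w (zz d y) a`; `q_a` has exact order `a` at
`0` (lowest coefficient `∏ z ≠ 0`) and exact degree `a + l` (`w` contains `a` exactly `l` times). Since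
`uw w' z' = g * uw w z`, each `q'_a = ∑_b g a b q_b` (compare all coefficients; both sides have degree
`< k + l`). `q'_a` has order `a`: the smallest `b` with `g a b ≠ 0` is `≥ a`; degree `a + l`: the
largest is `≤ a`. So `q'_a = g a a q_a`, `g a a ≠ 0`. If `w' r = a` then `z'_r` is a root of `q'_a`, hence
of `q_a`, and `z'_r ≠ 0`: `z'_r = z_s` with `w s = a`; by disjointness of the intervals `s = r`. So
`w r = a = w' r`.
-/

set_option autoImplicit false

open Polynomial

namespace GTR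

private theorem cz_ne (z : ℝ) : (C z - X : ℝ[X]) ≠ 0 := by
  intro h
  have h1 := congrArg (fun p : ℝ[X] => p.coeff 1) h
  simp only [coeff_sub, coeff_X_one, coeff_zero, coeff_C, if_neg one_ne_zero, zero_sub] at h1
  norm_num at h1

private theorem cz_deg (z : ℝ) : (C z - X : ℝ[X]).natDegree = 1 := by
  have h : (C z - X : ℝ[X]) = -(X - C z) := by ring
  rw [h, natDegree_neg, natDegree_X_sub_C]

private theorem qp_ne {k N : ℕ} (w : Fin N → Fin k) (z : Fin N → ℝ) (a : Fin k) :
    qp w z a ≠ 0 :=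
  mul_ne_zero (pow_ne_zero _ X_ne_zero) (Finset.prod_ne_zero_iff.2 fun _ _ => cz_ne _)

private theorem qp_deg {k l : ℕ} {w : Fin (k * l) → Fin k} (hw : IsWord w)
    (z : Fin (k * l) → ℝ) (a : Fin k) : (qp w z a).natDegree = (a : ℕ) + l := by
  unfold qp
  rw [natDegree_mul (pow_ne_zero _ X_ne_zero) (Finset.prod_ne_zero_iff.2 fun _ _ => cz_ne _),
    natDegree_X_pow, natDegree_prod _ _ (fun _ _ => cz_ne _)]
  simp only [cz_deg, Finset.sum_const, smul_eq_mul, mul_one]
  have h := hw.full a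
  unfold cnt at h
  have h2 : (Finset.univ.filter fun r : Fin (k * l) => w r = a) =
      Finset.univ.filter fun r : Fin (k * l) => (r : ℕ) < k * l ∧ w r = a := by
    refine Finset.filter_congr fun r _ => ?_
    exact ⟨fun h3 => ⟨r.2, h3⟩, fun h3 => h3.2⟩
  rw [h2, h]

private theorem qp_low {k N : ℕ} (w : Fin N → Fin k) (z : Fin N → ℝ) (a : Fin k) {j : ℕ}
    (hj : j < a) : (qp w z a).coeff j = 0 := by
  unfold qp
  rw [coeff_X_pow_mul', if_neg (not_le.2 hj)]

private theorem qp_low' {k N : ℕ} (w : Fin N → Fin k) {z : Fin N → ℝ} (hz : ∀ r, z r ≠ 0)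
    (a : Fin k) : (qp w z a).coeff a ≠ 0 := by
  unfold qp
  rw [coeff_X_pow_mul', if_pos le_rfl, Nat.sub_self, coeff_zero_eq_eval_zero, eval_prod]
  refine Finset.prod_ne_zero_iff.2 fun r _ => ?_
  rw [eval_sub, eval_C, eval_X, sub_zero]
  exact hz r

private theorem qp_high {k l : ℕ} {w : Fin (k * l) → Fin k} (hw : IsWord w)
    (z : Fin (k * l) → ℝ) (a : Fin k) {j : ℕ} (hj : (a : ℕ) + l < j) : (qp w z a).coeff j = 0 :=
  coeff_eq_zero_of_natDegree_lt (by rw [qp_deg hw]; exact hj)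

private theorem qp_high' {k l : ℕ} {w : Fin (k * l) → Fin k} (hw : IsWord w)
    (z : Fin (k * l) → ℝ) (a : Fin k) : (qp w z a).coeff ((a : ℕ) + l) ≠ 0 := by
  rw [← qp_deg hw z a]
  exact leadingCoeff_ne_zero.2 (qp_ne w z a)

private theorem qp_eq {k l : ℕ} {w w' : Fin (k * l) → Fin k} (hw : IsWord w) (hw' : IsWord w')
    {z z' : Fin (k * l) → ℝ} (hz : ∀ r, z r ≠ 0) (g : Matrix (Fin k) (Fin k) ℝ)
    (h : uw w' z' = g * uw w z) (a : Fin k) : qp w' z' a = C (g a a) * qp w z a := by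
  have hco : ∀ j, (qp w' z' a).coeff j = ∑ b, g a b * (qp w z b).coeff j := by
    intro j
    by_cases hj : j < k + l
    · have h1 := congrFun (congrFun h a) ⟨j, hj⟩
      rw [Matrix.mul_apply] at h1
      exact h1
    · have ha := a.2
      rw [qp_high hw' z' a (by omega)]
      refine (Finset.sum_eq_zero fun b _ => ?_).symm
      have hb := b.2
      rw [qp_high hw z b (by omega), mul_zero]
  have hlow : ∀ n : ℕ, ∀ b : Fin k, (b : ℕ) = n → b < a → g a b = 0 := by
    intro n
    induction n using Nat.strong_induction_on with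
    | _ n ih =>
      intro b hb hba
      have h1 := hco b
      rw [qp_low w' z' a hba, Finset.sum_eq_single b] at h1
      · exact (mul_eq_zero.1 h1.symm).resolve_right (qp_low' w hz b)
      · intro b' _ hb'
        rcases lt_or_gt_of_ne hb' with h2 | h2
        · have h3 : (b' : ℕ) < b := h2
          rw [ih b' (by omega) b' rfl (h2.trans hba), zero_mul]
        · rw [qp_low w z b' h2, mul_zero]
      · intro h2
        exact absurd (Finset.mem_univ b) h2
  have hhigh : ∀ n : ℕ, ∀ b : Fin k, k - (b : ℕ) = n → a < b → g a b = 0 := by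
    intro n
    induction n using Nat.strong_induction_on with
    | _ n ih =>
      intro b hb hba
      have h0 : (a : ℕ) < b := hba
      have h1 := hco (b + l)
      rw [qp_high hw' z' a (by omega), Finset.sum_eq_single b] at h1
      · exact (mul_eq_zero.1 h1.symm).resolve_right (qp_high' hw z b)
      · intro b' _ hb'
        rcases lt_or_gt_of_ne hb' with h2 | h2
        · have h3 : (b' : ℕ) < b := h2
          rw [qp_high hw z b' (by omega), mul_zero]
        · have h3 : (b : ℕ) < b' := h2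
          have h4 := b'.2
          rw [ih (k - b') (by omega) b' rfl (hba.trans h2), zero_mul]
      · intro h2
        exact absurd (Finset.mem_univ b) h2
  ext j
  rw [hco j, coeff_C_mul, Finset.sum_eq_single a]
  · intro b _ hb
    rcases lt_or_gt_of_ne hb with h2 | h2
    · rw [hlow _ b rfl h2, zero_mul]
    · rw [hhigh _ b rfl h2, zero_mul]
  · intro h2
    exact absurd (Finset.mem_univ a) h2

private theorem dis_lt {N : ℕ} {d c M : ℝ} (hd : 0 < d) (hd1 : d ≤ 1) (hc : 0 < c)
    (hdC : d * (2 * M) ≤ c / 2) {r s : Fin N} (hrs : r < s) {u v : ℝ} (hu : c / 2 < u)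
    (hu' : u < 2 * M) (hv : c / 2 < v) :
    d ^ (N - (r : ℕ)) * u < d ^ (N - (s : ℕ)) * v := by
  have h0 : (r : ℕ) < s := hrs
  have hs := s.2
  have h1 : N - (r : ℕ) = (N - (s : ℕ)) + ((s : ℕ) - r) := by omega
  have h2 : d ^ ((s : ℕ) - r) ≤ d := pow_le_of_le_one hd.le hd1 (by omega)
  have h3 : 0 < d ^ (N - (s : ℕ)) := pow_pos hd _
  rw [h1, pow_add, mul_assoc]
  refine mul_lt_mul_of_pos_left ?_ h3
  have hu0 : 0 < u := by linarith
  calc d ^ ((s : ℕ) - r) * u ≤ d * u := mul_le_mul_of_nonneg_right h2 hu0.le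
    _ ≤ d * (2 * M) := mul_le_mul_of_nonneg_left hu'.le hd.le
    _ ≤ c / 2 := hdC
    _ < v := hv

private theorem exists_lo {ι : Type} [Fintype ι] (P : ι → Prop) (f : ι → ℝ)
    (h : ∀ i, P i → 0 < f i) : ∃ c > 0, ∀ i, P i → c ≤ f i := by
  classical
  by_cases hne : ∃ i, P i
  · obtain ⟨i, hi⟩ := hne
    obtain ⟨i0, hi0, hmin⟩ := (Finset.univ.filter P).exists_min_image f
      ⟨i, Finset.mem_filter.2 ⟨Finset.mem_univ i, hi⟩⟩
    exact ⟨f i0, h i0 (Finset.mem_filter.1 hi0).2, fun j hj =>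
      hmin j (Finset.mem_filter.2 ⟨Finset.mem_univ j, hj⟩)⟩
  · exact ⟨1, one_pos, fun i hi => absurd ⟨i, hi⟩ hne⟩

theorem distinct (k l : ℕ) : ∃ δ > 0, ∀ d : ℝ, 0 < d → d < δ →
    ∀ w w' : Fin (k * l) → Fin k, IsWord w → IsWord w' → ∀ y y' : Fin (k * l) → ℝ,
      (∀ r, y0 w r / 2 < y r ∧ y r < 2 * y0 w r) →
      (∀ r, y0 w' r / 2 < y' r ∧ y' r < 2 * y0 w' r) →
      ∀ g : Matrix (Fin k) (Fin k) ℝ, uw w' (zz d y') = g * uw w (zz d y) → w = w' := by
  obtain ⟨c, hc, hcl⟩ := exists_lo (fun p : (Fin (k * l) → Fin k) × Fin (k * l) => IsWord p.1)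
    (fun p => y0 p.1 p.2) fun p hp => y0_pos hp p.2
  obtain ⟨M, hM⟩ := (Set.finite_range
    (fun p : (Fin (k * l) → Fin k) × Fin (k * l) => y0 p.1 p.2)).bddAbove
  have hM' : ∀ (w : Fin (k * l) → Fin k) (r : Fin (k * l)), y0 w r ≤ max M 1 := fun w r =>
    (hM ⟨(w, r), rfl⟩).trans (le_max_left _ _)
  have hM0 : 0 < max M 1 := lt_of_lt_of_le one_pos (le_max_right _ _)
  refine ⟨min 1 (c / (4 * max M 1)), lt_min one_pos (by positivity), ?_⟩
  intro d hd hdδ w w' hw hw' y y' hy hy' g hg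
  have hd1 : d ≤ 1 := hdδ.le.trans (min_le_left _ _)
  have hdC : d * (2 * max M 1) ≤ c / 2 := by
    have h1 : d ≤ c / (4 * max M 1) := hdδ.le.trans (min_le_right _ _)
    rw [le_div_iff₀ (by positivity)] at h1
    linarith
  have hb : ∀ r, c / 2 < y r ∧ y r < 2 * max M 1 := fun r => by
    have h1 := hcl (w, r) hw
    have h2 := hM' w r
    have h3 := hy r
    constructor
    · have : c / 2 ≤ y0 w r / 2 := by linarith
      linarith
    · linarith
  have hb' : ∀ r, c / 2 < y' r ∧ y' r < 2 * max M 1 := fun r => by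
    have h1 := hcl (w', r) hw'
    have h2 := hM' w' r
    have h3 := hy' r
    constructor
    · have : c / 2 ≤ y0 w' r / 2 := by linarith
      linarith
    · linarith
  have hz : ∀ r, zz d y r ≠ 0 := fun r =>
    (mul_pos (pow_pos hd _) ((half_pos hc).trans (hb r).1)).ne'
  have hz' : ∀ r, zz d y' r ≠ 0 := fun r =>
    (mul_pos (pow_pos hd _) ((half_pos hc).trans (hb' r).1)).ne'
  funext r
  have h1 := qp_eq hw hw' hz g hg (w' r)
  have hg0 : g (w' r) (w' r) ≠ 0 := by
    intro h2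
    rw [h2, C_0, zero_mul] at h1
    exact qp_ne w' _ _ h1
  have h2 := congrArg (eval (zz d y' r)) h1
  have h3 : eval (zz d y' r) (qp w' (zz d y') (w' r)) = 0 := by
    unfold qp
    rw [eval_mul, eval_prod]
    refine mul_eq_zero_of_right _ (Finset.prod_eq_zero
      (Finset.mem_filter.2 ⟨Finset.mem_univ r, rfl⟩) ?_)
    rw [eval_sub, eval_C, eval_X, sub_self]
  rw [h3, eval_mul, eval_C] at h2
  have h4 := (mul_eq_zero.1 h2.symm).resolve_left hg0
  unfold qp at h4
  rw [eval_mul, eval_pow, eval_X, eval_prod] at h4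
  have h5 := (mul_eq_zero.1 h4).resolve_left (pow_ne_zero _ (hz' r))
  obtain ⟨s, hs, hs0⟩ := Finset.prod_eq_zero_iff.1 h5
  rw [eval_sub, eval_C, eval_X, sub_eq_zero] at hs0
  have hws : w s = w' r := (Finset.mem_filter.1 hs).2
  have hsr : s = r := by
    rcases lt_trichotomy s r with h6 | h6 | h6
    · exact absurd hs0 (dis_lt hd hd1 hc hdC h6 (hb s).1 (hb s).2 (hb' r).1).ne
    · exact h6
    · exact absurd hs0.symm (dis_lt hd hd1 hc hdC h6 (hb' r).1 (hb' r).2 (hb s).1).ne
  rw [← hws, hsr]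

end GTR
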