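import Pool.Agent.GTR.WDefs

/-!
# GTR WFrob : the number of words is `N! / ∏ hooks` (6.1)

`vd_shift`: `∑_j x_j vd (x - e_j) = (∑_j x_j - k (k-1)/2) vd x`. Proof: `vd x = det (D_i (x_j))_(i, j)`
for the descending factorials `D_i (t) = t (t-1) ... (t-i+1)` (monic polynomials of degree `i`:
`Matrix.det_eval_matrixOfPolynomials_eq_det_vandermonde`, `Matrix.det_vandermonde`,
`descPochhammer`). Since `t D_i (t - 1) = D_(i+1) (t) = (t - i) D_i (t)`, the term
`x_j vd (x - e_j)` is the determinant of `M = (D_i (x_j))` with column `j` replaced by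
`((x_j - i) D_i (x_j))_i = x_j M_j - (Λ M)_j`, `Λ = diag (i)`. The sum of the first parts is
`(∑ x_j) det M`, of the second parts `∑_j det (M with column j replaced by (Λ M)_j) =
∑_j (cramer M (Λ M)_j)_j = trace (adj M Λ M) = trace (Λ M adj M) = (∑_i i) det M`.

`count`: for `λ : Fin k → ℕ` let `F m λ` be the number of words `w : Fin m → Fin k` with
`cnt w m = λ` and all prefixes monotone (`cnt w m' a ≤ cnt w m' b` for `a ≤ b`, `m' ≤ m`). Claim: if
`λ` is monotone and `m = ∑ λ` then `F m λ * ∏_j (j + λ_j)! = m! * vd (j + λ_j)` (as real numbers),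
by induction on `m`: remove the last letter `j` (`Fin.snoc`/`Fin.init`): `F (m+1) λ = ∑_j F m (λ - e_j)`
over the `j` with `λ_j > 0` and `λ - e_j` monotone; for the other `j` the term
`a_j vd (a - e_j)`, `a = j + λ_j`, vanishes (`a_j - 1 = a_(j-1)`, or `a_0 = 0`). Hence
`F (m+1) λ ∏ a_j! = ∑_j a_j m! vd (a - e_j) = m! (∑ a_j - k (k-1)/2) vd a = (m+1)! vd a`.
For `λ = (l, ..., l)`: `vd (j + l) = ∏_(i<j) (j - i) = ∏_j j!` and
`∏_j (j + l)! / j! = ∏_j ∏_(i < l) (i + j + 1)`.
-/

set_option autoImplicit false

open Polynomial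

namespace GTR

theorem vd_det {k : ℕ} (x : Fin k → ℝ) : vd x =
    (Matrix.of fun i j : Fin k => (descPochhammer ℝ (j : ℕ)).eval (x i)).det := by
  rw [← Matrix.det_eval_matrixOfPolynomials_eq_det_vandermonde x
    (fun j : Fin k => descPochhammer ℝ (j : ℕ)) (fun i => descPochhammer_natDegree ℝ _)
    (fun i => monic_descPochhammer ℝ _), Matrix.det_vandermonde]
  rfl

theorem sum_fin_real (k : ℕ) : ∑ j : Fin k, (j : ℝ) = (k : ℝ) * (k - 1) / 2 := by
  induction k with
  | zero => simp
  | succ n ih =>
    rw [Fin.sum_univ_castSucc]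
    simp only [Fin.val_castSucc, Fin.val_last]
    rw [ih]
    push_cast
    ring

theorem vd_shift {k : ℕ} (x : Fin k → ℝ) :
    ∑ j, x j * vd (Function.update x j (x j - 1)) =
      ((∑ j, x j) - (k : ℝ) * (k - 1) / 2) * vd x := by
  classical
  obtain ⟨M, hM⟩ : ∃ M : Matrix (Fin k) (Fin k) ℝ,
      M = Matrix.of fun i j : Fin k => (descPochhammer ℝ (j : ℕ)).eval (x i) := ⟨_, rfl⟩
  have hMa : ∀ i j, M i j = (descPochhammer ℝ (j : ℕ)).eval (x i) := fun i j => by rw [hM]; rfl
  have hvd : vd x = M.det := by rw [hM, vd_det]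
  have hterm : ∀ i, x i * vd (Function.update x i (x i - 1)) =
      x i * M.det - ∑ j : Fin k, (j : ℝ) * (M.adjugate j i * M i j) := by
    intro i
    rw [vd_det]
    have h1 : (Matrix.of fun a j : Fin k => (descPochhammer ℝ (j : ℕ)).eval
        (Function.update x i (x i - 1) a)) =
        M.updateRow i (fun j => (descPochhammer ℝ (j : ℕ)).eval (x i - 1)) := by
      ext a j
      rw [Matrix.of_apply, Matrix.updateRow_apply]
      by_cases ha : a = i
      · subst ha
        rw [if_pos rfl, Function.update_self]
      · rw [if_neg ha, Function.update_of_ne ha, hMa]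
    rw [h1, ← Matrix.det_updateRow_smul]
    have h2 : (x i • fun j : Fin k => (descPochhammer ℝ (j : ℕ)).eval (x i - 1)) =
        (x i • M i) + fun j : Fin k => -(((j : ℕ) : ℝ) * M i j) := by
      funext j
      simp only [Pi.smul_apply, Pi.add_apply, smul_eq_mul]
      have h3 : (descPochhammer ℝ ((j : ℕ) + 1)).eval (x i) =
          x i * (descPochhammer ℝ (j : ℕ)).eval (x i - 1) := by
        rw [descPochhammer_succ_left, eval_mul, eval_X, eval_comp, eval_sub, eval_X, eval_one]
      rw [← h3, descPochhammer_succ_eval, hMa]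
      ring
    rw [h2, Matrix.det_updateRow_add, Matrix.det_updateRow_smul, Matrix.updateRow_eq_self,
      ← Matrix.cramer_transpose_apply, Matrix.cramer_eq_adjugate_mulVec, sub_eq_add_neg]
    congr 1
    rw [Matrix.mulVec, dotProduct, ← Finset.sum_neg_distrib]
    refine Finset.sum_congr rfl fun j _ => ?_
    rw [← Matrix.adjugate_transpose, Matrix.transpose_apply]
    ring
  rw [Finset.sum_congr rfl fun i _ => hterm i, Finset.sum_sub_distrib, ← Finset.sum_mul,
    Finset.sum_comm]
  have h4 : ∀ j : Fin k, ∑ i, (j : ℝ) * (M.adjugate j i * M i j) = (j : ℝ) * M.det := by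
    intro j
    rw [← Finset.mul_sum]
    congr 1
    have h5 := congrFun (congrFun (Matrix.adjugate_mul M) j) j
    rw [Matrix.mul_apply] at h5
    rw [h5, Matrix.smul_apply, Matrix.one_apply_eq, smul_eq_mul, mul_one]
  rw [Finset.sum_congr rfl fun j _ => h4 j, ← Finset.sum_mul, sum_fin_real, hvd]
  ring

/-! ### words -/

theorem cnt_sum {k N : ℕ} (w : Fin N → Fin k) (m : ℕ) (a : Fin k) :
    cnt w m a = ∑ r : Fin N, if (r : ℕ) < m ∧ w r = a then 1 else 0 := by
  unfold cnt
  rw [Finset.card_filter]

theorem cnt_snoc_le {k m : ℕ} (w : Fin m → Fin k) (j : Fin k) {m' : ℕ} (h : m' ≤ m)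
    (a : Fin k) : cnt (Fin.snoc w j : Fin (m + 1) → Fin k) m' a = cnt w m' a := by
  rw [cnt_sum, cnt_sum, Fin.sum_univ_castSucc]
  simp only [Fin.val_castSucc, Fin.snoc_castSucc, Fin.val_last, Fin.snoc_last]
  rw [if_neg (by omega), add_zero]

theorem cnt_snoc_last {k m : ℕ} (w : Fin m → Fin k) (j : Fin k) (a : Fin k) :
    cnt (Fin.snoc w j : Fin (m + 1) → Fin k) (m + 1) a = cnt w m a + if j = a then 1 else 0 := by
  rw [cnt_sum, cnt_sum, Fin.sum_univ_castSucc]
  simp only [Fin.val_castSucc, Fin.snoc_castSucc, Fin.val_last, Fin.snoc_last]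
  congr 1
  · refine Finset.sum_congr rfl fun r _ => ?_
    have h1 := r.2
    by_cases h : w r = a
    · rw [if_pos ⟨by omega, h⟩, if_pos ⟨by omega, h⟩]
    · rw [if_neg fun h2 => h h2.2, if_neg fun h2 => h h2.2]
  · by_cases h : j = a
    · rw [if_pos ⟨by omega, h⟩, if_pos h]
    · rw [if_neg fun h2 => h h2.2, if_neg h]

theorem cnt_sat {k N : ℕ} (w : Fin N → Fin k) {m : ℕ} (h : N ≤ m) (a : Fin k) :
    cnt w m a = cnt w N a := by
  rw [cnt_sum, cnt_sum]
  refine Finset.sum_congr rfl fun r _ => ?_
  have h1 := r.2
  by_cases hr : w r = a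
  · rw [if_pos ⟨by omega, hr⟩, if_pos ⟨by omega, hr⟩]
  · rw [if_neg fun h2 => hr h2.2, if_neg fun h2 => hr h2.2]

/-- ballot condition -/
def Bl {k N : ℕ} (w : Fin N → Fin k) : Prop :=
  ∀ (m : ℕ) (a b : Fin k), a ≤ b → cnt w m a ≤ cnt w m b

open Classical in
/-- number of ballot words with content `mu` -/
noncomputable def Gw {k : ℕ} (m : ℕ) (mu : Fin k → ℕ) : ℕ :=
  (Finset.univ.filter fun w : Fin m → Fin k => Bl w ∧ ∀ a, cnt w m a = mu a).card

open Classical in
/-- words with the last letter `j` removed -/
noncomputable def Gj' {k : ℕ} (m : ℕ) (mu : Fin k → ℕ) (j : Fin k) : ℕ :=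
  (Finset.univ.filter fun w : Fin m → Fin k => Bl w ∧
    ∀ a, cnt w m a + (if j = a then 1 else 0) = mu a).card

theorem bl_snoc {k m : ℕ} {mu : Fin k → ℕ} (hmu : Monotone mu) (w : Fin m → Fin k) (j : Fin k)
    (h : ∀ a, cnt w m a + (if j = a then 1 else 0) = mu a) :
    Bl (Fin.snoc w j : Fin (m + 1) → Fin k) ↔ Bl w := by
  constructor
  · intro hb m' a b hab
    rcases le_or_gt m' m with hm | hm
    · have h1 := hb m' a b hab
      rwa [cnt_snoc_le w j hm, cnt_snoc_le w j hm] at h1
    · rw [cnt_sat w hm.le, cnt_sat w hm.le]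
      have h1 := hb m a b hab
      rwa [cnt_snoc_le w j le_rfl, cnt_snoc_le w j le_rfl] at h1
  · intro hb m' a b hab
    rcases le_or_gt m' m with hm | hm
    · rw [cnt_snoc_le w j hm, cnt_snoc_le w j hm]
      exact hb m' a b hab
    · rw [cnt_sat _ (show m + 1 ≤ m' by omega), cnt_sat _ (show m + 1 ≤ m' by omega),
        cnt_snoc_last, cnt_snoc_last, h, h]
      exact hmu hab

theorem Gw_succ {k m : ℕ} {mu : Fin k → ℕ} (hmu : Monotone mu) :
    Gw (m + 1) mu = ∑ j, Gj' m mu j := by
  classical
  unfold Gw Gj'
  simp only [Finset.card_filter]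
  rw [← Equiv.sum_comp (Fin.snocEquiv fun _ : Fin (m + 1) => Fin k), Fintype.sum_prod_type]
  refine Finset.sum_congr rfl fun j _ => Finset.sum_congr rfl fun w _ => ?_
  have h1 : (Fin.snocEquiv fun _ : Fin (m + 1) => Fin k) (j, w) =
      (Fin.snoc w j : Fin (m + 1) → Fin k) := rfl
  simp only [h1, cnt_snoc_last]
  by_cases h : ∀ a, cnt w m a + (if j = a then 1 else 0) = mu a
  · have h2 := bl_snoc hmu w j h
    by_cases hb : Bl w
    · rw [if_pos ⟨h2.2 hb, h⟩, if_pos ⟨hb, h⟩]
    · rw [if_neg fun h3 => hb (h2.1 h3.1), if_neg fun h3 => hb h3.1]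
  · rw [if_neg fun h3 => h h3.2, if_neg fun h3 => h h3.2]

theorem vd_zero_of_eq {k : ℕ} {x : Fin k → ℝ} {i j : Fin k} (hij : i < j) (h : x j = x i) :
    vd x = 0 := by
  unfold vd
  exact Finset.prod_eq_zero (Finset.mem_univ i)
    (Finset.prod_eq_zero (Finset.mem_Ioi.2 hij) (by rw [h, sub_self]))

/-- removing a letter -/
theorem Gj_eq {k m : ℕ} {mu : Fin k → ℕ} {j : Fin k} (hj : 0 < mu j) :
    Gj' m mu j = Gw m (Function.update mu j (mu j - 1)) := by
  classical
  unfold Gj' Gw
  congr 1
  ext w
  simp only [Finset.mem_filter, Finset.mem_univ, true_and]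
  refine and_congr_right fun _ => forall_congr' fun a => ?_
  by_cases ha : j = a
  · subst ha
    rw [if_pos rfl, Function.update_self]
    omega
  · rw [if_neg ha, Function.update_of_ne (Ne.symm ha), add_zero]

theorem Gj_zero {k m : ℕ} {mu : Fin k → ℕ} {j : Fin k} (hj : mu j = 0) : Gj' m mu j = 0 := by
  classical
  unfold Gj'
  rw [Finset.card_eq_zero, Finset.filter_eq_empty_iff]
  rintro w _ ⟨_, h⟩
  have h1 := h j
  rw [if_pos rfl] at h1
  omega

theorem Gj_zero' {k m : ℕ} {mu : Fin k → ℕ} {i j : Fin k} (hij : i < j) (h : mu i = mu j) :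
    Gj' m mu j = 0 := by
  classical
  unfold Gj'
  rw [Finset.card_eq_zero, Finset.filter_eq_empty_iff]
  rintro w _ ⟨hb, hc⟩
  have h1 := hc j
  have h2 := hc i
  have h3 := hb m i j hij.le
  rw [if_pos rfl] at h1
  rw [if_neg hij.ne'] at h2
  omega

/-- the main count -/
theorem Gw_count {k : ℕ} (m : ℕ) : ∀ mu : Fin k → ℕ, Monotone mu → ∑ j, mu j = m →
    (Gw m mu : ℝ) * ∏ j : Fin k, (((j : ℕ) + mu j).factorial : ℝ) =
      (m.factorial : ℝ) * vd (fun j : Fin k => ((j : ℕ) : ℝ) + mu j) := by
  classical
  induction m with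
  | zero =>
    intro mu _ hsum
    have h0 : ∀ j, mu j = 0 := by
      intro j
      have := Finset.single_le_sum (f := mu) (fun i _ => Nat.zero_le _) (Finset.mem_univ j)
      omega
    have h1 : Gw 0 mu = 1 := by
      unfold Gw
      rw [Finset.card_eq_one]
      refine ⟨fun r => r.elim0, ?_⟩
      ext w
      simp only [Finset.mem_filter, Finset.mem_univ, true_and, Finset.mem_singleton]
      have h2 : ∀ m' a, cnt w m' a = 0 := by
        intro m' a
        rw [cnt_sum]
        simp
      constructor
      · intro _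
        funext r
        exact r.elim0
      · intro _
        refine ⟨fun m' a b _ => ?_, fun a => ?_⟩
        · rw [h2, h2]
        · rw [h2, h0]
    rw [h1]
    simp only [h0, add_zero, Nat.cast_one, one_mul, Nat.factorial_zero, Nat.cast_zero]
    -- `∏ j! = vd (j)`
    have h3 : ∀ n : ℕ, ∏ j : Fin n, ((j : ℕ).factorial : ℝ) = vd (fun j : Fin n => ((j : ℕ) : ℝ)) := by
      intro n
      cases n with
      | zero => simp [vd]
      | succ n =>
        have h4 := Matrix.det_vandermonde_id_eq_superFactorial (R := ℝ) n
        rw [Matrix.det_vandermonde] at h4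
        have h5 : ∏ j : Fin (n + 1), ((j : ℕ).factorial : ℝ) = (n.superFactorial : ℝ) := by
          clear h4
          induction n with
          | zero => simp
          | succ n ih =>
            rw [Fin.prod_univ_castSucc]
            simp only [Fin.val_castSucc, Fin.val_last]
            rw [ih, Nat.superFactorial]
            push_cast
            ring
        rw [h5, ← h4]
        rfl
    exact h3 k
  | succ m ih =>
    intro mu hmu hsum
    obtain ⟨a, ha⟩ : ∃ a : Fin k → ℝ, ∀ j, a j = ((j : ℕ) : ℝ) + mu j := ⟨_, fun _ => rfl⟩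
    have hterm : ∀ j, (Gj' m mu j : ℝ) * ∏ i : Fin k, (((i : ℕ) + mu i).factorial : ℝ) =
        (m.factorial : ℝ) * (a j * vd (Function.update a j (a j - 1))) := by
      intro j
      by_cases hprev : ∃ i : Fin k, (i : ℕ) + 1 = j ∧ mu i = mu j
      · obtain ⟨i, hi, hmi⟩ := hprev
        have hij : i < j := by
          rw [Fin.lt_def]
          omega
        rw [Gj_zero' hij hmi]
        have h1 : vd (Function.update a j (a j - 1)) = 0 := by
          refine vd_zero_of_eq hij ?_
          rw [Function.update_self, Function.update_of_ne hij.ne, ha, ha, hmi, ← hi]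
          push_cast
          ring
        rw [h1]
        simp
      · push Not at hprev
        rcases Nat.eq_zero_or_pos (mu j) with hj0 | hj0
        · -- then `j = 0`
          have hj : (j : ℕ) = 0 := by
            by_contra hne
            have hlt : (j : ℕ) - 1 < k := by
              have := j.2
              omega
            have h1 := hprev ⟨(j : ℕ) - 1, hlt⟩ (by simp only; omega)
            have h2 : mu ⟨(j : ℕ) - 1, hlt⟩ ≤ mu j := hmu (by
              rw [Fin.le_def]
              simp only
              omega)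
            omega
          rw [Gj_zero hj0, ha, hj, hj0]
          simp
        · have hmono : Monotone (Function.update mu j (mu j - 1)) := by
            intro i i' hii
            by_cases h1 : i = j
            · subst h1
              rw [Function.update_self]
              by_cases h2 : i' = i
              · subst h2
                rw [Function.update_self]
              · rw [Function.update_of_ne h2]
                have := hmu hii
                omega
            · rw [Function.update_of_ne h1]
              by_cases h2 : i' = j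
              · subst h2
                rw [Function.update_self]
                have hlt : i < i' := lt_of_le_of_ne hii h1
                have hlt' : (i' : ℕ) - 1 < k := by
                  have := i'.2
                  omega
                rw [Fin.lt_def] at hlt
                have h3 := hprev ⟨(i' : ℕ) - 1, hlt'⟩ (by simp only; omega)
                have h4 : mu ⟨(i' : ℕ) - 1, hlt'⟩ ≤ mu i' := hmu (by
                  rw [Fin.le_def]
                  simp only
                  omega)
                have h5 : mu i ≤ mu ⟨(i' : ℕ) - 1, hlt'⟩ := hmu (by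
                  rw [Fin.le_def]
                  simp only
                  omega)
                omega
              · rw [Function.update_of_ne h2]
                exact hmu hii
          have hs : ∑ i, Function.update mu j (mu j - 1) i = m := by
            rw [Finset.sum_update_of_mem (Finset.mem_univ j)]
            have h1 := Finset.add_sum_erase Finset.univ mu (Finset.mem_univ j)
            rw [Finset.erase_eq] at h1
            omega
          have h1 := ih _ hmono hs
          rw [Gj_eq hj0]
          have h2 : ∏ i : Fin k, (((i : ℕ) + mu i).factorial : ℝ) =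
              a j * ∏ i : Fin k,
                (((i : ℕ) + Function.update mu j (mu j - 1) i).factorial : ℝ) := by
            rw [← Finset.mul_prod_erase Finset.univ _ (Finset.mem_univ j),
              ← Finset.mul_prod_erase Finset.univ
                (fun i : Fin k => (((i : ℕ) + Function.update mu j (mu j - 1) i).factorial : ℝ))
                (Finset.mem_univ j)]
            rw [Function.update_self, ← mul_assoc]
            congr 1
            · have h3 : (j : ℕ) + mu j = ((j : ℕ) + (mu j - 1)) + 1 := by omega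
              rw [h3, Nat.factorial_succ, ha]
              push_cast
              have h4 : ((mu j - 1 : ℕ) : ℝ) + 1 = mu j := by
                have : mu j - 1 + 1 = mu j := by omega
                exact_mod_cast this
              rw [← h4]
              ring
            · refine Finset.prod_congr rfl fun i hi => ?_
              rw [Function.update_of_ne (Finset.ne_of_mem_erase hi)]
          have h3 : (fun i : Fin k => ((i : ℕ) : ℝ) + (Function.update mu j (mu j - 1) i : ℕ)) =
              Function.update a j (a j - 1) := by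
            funext i
            by_cases hi : i = j
            · subst hi
              rw [Function.update_self, Function.update_self, ha]
              have : mu i - 1 + 1 = mu i := by omega
              have h4 : ((mu i - 1 : ℕ) : ℝ) + 1 = mu i := by exact_mod_cast this
              linarith
            · rw [Function.update_of_ne hi, Function.update_of_ne hi, ha]
          rw [h3] at h1
          rw [h2]
          linear_combination (a j) * h1
    rw [Gw_succ hmu]
    push_cast
    rw [Finset.sum_mul, Finset.sum_congr rfl fun j _ => hterm j, ← Finset.mul_sum, vd_shift]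
    have h1 : ∑ j, a j - (k : ℝ) * (k - 1) / 2 = (m : ℝ) + 1 := by
      simp only [ha]
      rw [Finset.sum_add_distrib, sum_fin_real]
      have h2 : ∑ j, (mu j : ℝ) = (m : ℝ) + 1 := by exact_mod_cast hsum
      rw [h2]
      ring
    have h2 : (fun j : Fin k => ((j : ℕ) : ℝ) + mu j) = a := funext fun j => (ha j).symm
    rw [h1, h2, Nat.factorial_succ]
    push_cast
    ring

theorem fac_add (n l : ℕ) : ((n + l).factorial : ℝ) =
    (n.factorial : ℝ) * ∏ i ∈ Finset.range l, ((n : ℝ) + i + 1) := by
  induction l with
  | zero => simp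
  | succ l ih =>
    rw [Finset.prod_range_succ, ← mul_assoc, ← ih, ← add_assoc, Nat.factorial_succ]
    push_cast
    ring

theorem count (k l : ℕ) : Nat.card {w : Fin (k * l) → Fin k // IsWord w} *
    ∏ i ∈ Finset.range k, ∏ j ∈ Finset.range l, (i + j + 1) = (k * l).factorial := by
  classical
  have h1 : Nat.card {w : Fin (k * l) → Fin k // IsWord w} = Gw (k * l) (fun _ : Fin k => l) := by
    unfold Gw
    rw [Nat.card_eq_fintype_card, Fintype.card_subtype]
    congr 1
    ext w
    simp only [Finset.mem_filter, Finset.mem_univ, true_and]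
    exact ⟨fun h => ⟨h.bal, h.full⟩, fun h => ⟨h.1, h.2⟩⟩
  have h2 := Gw_count (k := k) (k * l) (fun _ => l) (fun _ _ _ => le_rfl) (by simp)
  have h3 := Gw_count (k := k) 0 (fun _ => 0) (fun _ _ _ => le_rfl) (by simp)
  have h4 : vd (fun j : Fin k => ((j : ℕ) : ℝ) + (l : ℕ)) =
      vd (fun j : Fin k => ((j : ℕ) : ℝ) + (0 : ℕ)) := by
    unfold vd
    refine Finset.prod_congr rfl fun i _ => Finset.prod_congr rfl fun j _ => ?_
    push_cast
    ring
  have h5 : (Gw 0 (fun _ : Fin k => 0) : ℝ) = 1 := by
    have h6 : Gw 0 (fun _ : Fin k => 0) = 1 := by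
      unfold Gw
      rw [Finset.card_eq_one]
      refine ⟨fun r => r.elim0, ?_⟩
      ext w
      simp only [Finset.mem_filter, Finset.mem_univ, true_and, Finset.mem_singleton]
      have h2 : ∀ m' a, cnt w m' a = 0 := by
        intro m' a
        rw [cnt_sum]
        simp
      constructor
      · intro _
        funext r
        exact r.elim0
      · intro _
        refine ⟨fun m' a b _ => ?_, fun a => ?_⟩
        · rw [h2, h2]
        · rw [h2]
    exact_mod_cast h6
  rw [h4] at h2
  rw [h5, Nat.factorial_zero, Nat.cast_one, one_mul, one_mul] at h3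
  rw [← h3] at h2
  -- hooks
  have h6 : ∏ j : Fin k, (((j : ℕ) + l).factorial : ℝ) =
      (∏ j : Fin k, (((j : ℕ) + 0).factorial : ℝ)) *
        ∏ j : Fin k, ∏ i ∈ Finset.range l, (((j : ℕ) : ℝ) + i + 1) := by
    rw [← Finset.prod_mul_distrib]
    refine Finset.prod_congr rfl fun j _ => ?_
    rw [add_zero]
    exact fac_add j l
  have hpos : (∏ j : Fin k, (((j : ℕ) + 0).factorial : ℝ)) ≠ 0 := by
    refine Finset.prod_ne_zero_iff.2 fun j _ => ?_
    exact_mod_cast (Nat.factorial_pos _).ne'
  rw [h6] at h2
  have h7 : (Gw (k * l) (fun _ : Fin k => l) : ℝ) *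
      ∏ j : Fin k, ∏ i ∈ Finset.range l, (((j : ℕ) : ℝ) + i + 1) = ((k * l).factorial : ℝ) := by
    refine mul_left_cancel₀ hpos ?_
    linear_combination h2
  rw [h1]
  have h8 : ∏ j : Fin k, ∏ i ∈ Finset.range l, (((j : ℕ) : ℝ) + i + 1) =
      ((∏ i ∈ Finset.range k, ∏ j ∈ Finset.range l, (i + j + 1) : ℕ) : ℝ) := by
    push_cast
    rw [Finset.prod_range]
  rw [h8] at h7
  exact_mod_cast h7

end GTR
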