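import Mathlib

/-!
# GTR WHook : weighted Bezout bound for fibres (6.1)

`Φ_r` polynomials in `N` variables of weighted degree `≤ d_r`, weights `h_j > 0`; `p_1, ..., p_D`
different points such that near every `p_j` all values near `w0` are taken by `Φ`. Then
`D ∏ h ≤ ∏ d`.

Proof. (1) There are polynomials `E_i` (`i < D`) with `E_i (p_j) = δ_ij` (products of linear
polynomials in one coordinate in which `p_i`, `p_j` differ). Let all of them have weighted degree
`≤ C0`. (2) The polynomials `E_i ∏ Φ_r^(α_r)`, `i < D`, `α : Fin N → ℕ`, are linearly independent: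
if `∑_i E_i g_i(Φ) = 0` with polynomials `g_i` (collect the terms; `MvPolynomial.aeval Φ g_i`), take
neighbourhoods `U_j` of `p_j` with `|E_i (c) - δ_ij| < 1/(2 D)` for `c ∈ U_j`; for all `w` near `w0` there
are `c_j ∈ U_j` with `Φ (c_j) = w`, so `∑_i E_i (c_j) g_i (w) = 0` for all `j`; the matrix
`(E_i (c_j))` is diagonally dominant (`det_ne_zero_of_sum_row_lt_diag`), so `g_i (w) = 0` for all `w`
near `w0`, hence `g_i = 0` (a polynomial which vanishes on a nonempty open set of `ℂ^N` is zero, e.g.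
`MvPolynomial.funext_set` on a product of infinite sets). (3) Those with `∑ d_r α_r ≤ L` lie in the
space of polynomials of weighted degree `≤ L + C0`, whose dimension is at most the number of
exponents `β` with `∑ h_j β_j ≤ L + C0`. So `D #A(L) ≤ #B(L + C0)`, `A(L) = {α : ∑ d α ≤ L}`,
`B(L') = {β : ∑ h β ≤ L'}`. (4) With `S(L) = #{γ : Fin N → ℕ | ∑ γ ≤ L}`:
`S(L) ≤ (∏ d) #A(L)` (`γ ↦ (γ_r / d_r)`, fibres have at most `∏ d` elements) and
`(∏ h) #B(L') ≤ S(L' + ∑ h)` (`(β, ρ) ↦ h_j β_j + ρ_j`, `0 ≤ ρ_j < h_j`, is injective). So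
`D ∏ h S(L) ≤ ∏ d S(L + C1)` for all `L`. (5) If `D ∏ h ≥ ∏ d + 1` then
`S(L + C1) ≥ (1 + 1/∏ d) S(L)` for all `L`, so `S(m C1) ≥ (1 + 1/∏ d)^m`, while
`S(m C1) ≤ (m C1 + 1)^N`: contradiction for large `m`.
-/

set_option autoImplicit false

open Topology Filter

namespace GTR

namespace WHook

/-- the exponents of weighted degree at most `L` -/
def cnt {N : ℕ} (w : Fin N → ℕ) (L : ℕ) : Finset (Fin N → ℕ) :=
  (Fintype.piFinset fun _ => Finset.range (L + 1)).filter fun α => ∑ r, w r * α r ≤ L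

lemma mem_cnt {N : ℕ} {w : Fin N → ℕ} (hw : ∀ r, 0 < w r) {L : ℕ} {α : Fin N → ℕ} :
    α ∈ cnt w L ↔ ∑ r, w r * α r ≤ L := by
  unfold cnt
  rw [Finset.mem_filter, Fintype.mem_piFinset]
  refine ⟨fun h => h.2, fun h => ⟨fun r => ?_, h⟩⟩
  rw [Finset.mem_range]
  have h1 : w r * α r ≤ ∑ r, w r * α r :=
    Finset.single_le_sum (f := fun r => w r * α r) (fun _ _ => Nat.zero_le _) (Finset.mem_univ r)
  have h2 : α r ≤ w r * α r := Nat.le_mul_of_pos_left _ (hw r)
  omega

lemma card_le_div {N : ℕ} {d : Fin N → ℕ} (hd : ∀ r, 0 < d r) (L : ℕ) :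
    (cnt (fun _ : Fin N => 1) L).card ≤ (∏ r, d r) * (cnt d L).card := by
  classical
  have h1 : (cnt (fun _ : Fin N => 1) L).card ≤
      ((cnt d L) ×ˢ (Fintype.piFinset fun r => Finset.range (d r))).card := by
    refine Finset.card_le_card_of_injOn (fun γ => (fun r => γ r / d r, fun r => γ r % d r)) ?_ ?_
    · intro γ hγ
      rw [Finset.mem_coe, mem_cnt fun _ => one_pos] at hγ
      rw [Finset.mem_coe, Finset.mem_product, mem_cnt hd, Fintype.mem_piFinset]
      constructor
      · refine le_trans (Finset.sum_le_sum fun r _ => ?_) hγ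
        rw [one_mul]
        exact Nat.mul_div_le _ _
      · intro r
        rw [Finset.mem_range]
        exact Nat.mod_lt _ (hd r)
    · intro γ _ γ' _ h
      funext r
      have h2 := congrFun (congrArg Prod.fst h) r
      have h3 := congrFun (congrArg Prod.snd h) r
      simp only at h2 h3
      rw [← Nat.div_add_mod (γ r) (d r), h2, h3, Nat.div_add_mod]
  refine h1.trans (le_of_eq ?_)
  rw [Finset.card_product, Fintype.card_piFinset, mul_comm]
  simp

lemma card_mul_le {N : ℕ} {h : Fin N → ℕ} (hh : ∀ r, 0 < h r) (L : ℕ) :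
    (∏ r, h r) * (cnt h L).card ≤ (cnt (fun _ : Fin N => 1) (L + ∑ r, h r)).card := by
  classical
  have h1 : ((cnt h L) ×ˢ (Fintype.piFinset fun r => Finset.range (h r))).card ≤
      (cnt (fun _ : Fin N => 1) (L + ∑ r, h r)).card := by
    refine Finset.card_le_card_of_injOn (fun q => fun r => h r * q.1 r + q.2 r) ?_ ?_
    · intro q hq
      rw [Finset.mem_coe, Finset.mem_product, mem_cnt hh, Fintype.mem_piFinset] at hq
      rw [Finset.mem_coe, mem_cnt fun _ => one_pos]
      simp only [one_mul]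
      rw [Finset.sum_add_distrib]
      refine add_le_add hq.1 (Finset.sum_le_sum fun r _ => ?_)
      exact (Finset.mem_range.1 (hq.2 r)).le
    · intro q hq q' hq' hqq
      rw [Finset.mem_coe, Finset.mem_product, Fintype.mem_piFinset] at hq hq'
      have h2 : ∀ r, q.1 r = q'.1 r ∧ q.2 r = q'.2 r := by
        intro r
        have h3 := congrFun hqq r
        simp only at h3
        have h4 := Finset.mem_range.1 (hq.2 r)
        have h5 := Finset.mem_range.1 (hq'.2 r)
        have h6 : (h r * q.1 r + q.2 r) / h r = q.1 r := by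
          rw [Nat.mul_add_div (hh r), Nat.div_eq_of_lt h4, add_zero]
        have h7 : (h r * q'.1 r + q'.2 r) / h r = q'.1 r := by
          rw [Nat.mul_add_div (hh r), Nat.div_eq_of_lt h5, add_zero]
        have h8 : q.1 r = q'.1 r := by rw [← h6, ← h7, h3]
        refine ⟨h8, ?_⟩
        rw [h8] at h3
        exact Nat.add_left_cancel h3
      exact Prod.ext (funext fun r => (h2 r).1) (funext fun r => (h2 r).2)
  refine le_trans (le_of_eq ?_) h1
  rw [Finset.card_product, Fintype.card_piFinset, mul_comm]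
  simp

/-- the asymptotic comparison -/
lemma le_of_growth {N A P C : ℕ} (hP : 0 < P)
    (h : ∀ L, A * (cnt (fun _ : Fin N => 1) L).card ≤ P * (cnt (fun _ : Fin N => 1) (L + C)).card) :
    A ≤ P := by
  by_contra hcon
  push Not at hcon
  have h1 : ∀ m : ℕ, (P + 1) ^ m ≤ P ^ m * (cnt (fun _ : Fin N => 1) (m * C)).card := by
    intro m
    induction m with
    | zero =>
      rw [pow_zero, pow_zero, one_mul, zero_mul]
      refine Finset.card_pos.2 ⟨fun _ => 0, ?_⟩
      rw [mem_cnt fun _ => one_pos]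
      simp
    | succ m ih =>
      calc (P + 1) ^ (m + 1) = (P + 1) ^ m * (P + 1) := pow_succ _ _
        _ ≤ (P ^ m * (cnt (fun _ : Fin N => 1) (m * C)).card) * A :=
          Nat.mul_le_mul ih hcon
        _ = P ^ m * (A * (cnt (fun _ : Fin N => 1) (m * C)).card) := by ring
        _ ≤ P ^ m * (P * (cnt (fun _ : Fin N => 1) (m * C + C)).card) :=
          Nat.mul_le_mul le_rfl (h _)
        _ = P ^ (m + 1) * (cnt (fun _ : Fin N => 1) ((m + 1) * C)).card := by
          rw [show m * C + C = (m + 1) * C by ring]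
          ring
  have h2 : ∀ m : ℕ, 0 < m → (cnt (fun _ : Fin N => 1) (m * C)).card ≤ (m * (C + 1)) ^ N := by
    intro m hm
    unfold cnt
    refine (Finset.card_filter_le _ _).trans ?_
    rw [Fintype.card_piFinset]
    simp only [Finset.card_range, Finset.prod_const, Finset.card_univ, Fintype.card_fin]
    refine Nat.pow_le_pow_left ?_ N
    nlinarith
  have hP' : (0 : ℝ) < P := by exact_mod_cast hP
  obtain ⟨r, hr⟩ : ∃ r : ℝ, r = ((P : ℝ) + 1) / P := ⟨_, rfl⟩
  have hr1 : 1 < r := by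
    rw [hr, lt_div_iff₀ hP']
    linarith
  have h3 : ∀ m : ℕ, 0 < m → r ^ m ≤ (m : ℝ) ^ N * ((C : ℝ) + 1) ^ N := by
    intro m hm
    have h4 : ((P : ℝ) + 1) ^ m ≤ (P : ℝ) ^ m * ((m : ℝ) * (C + 1)) ^ N := by
      have h5 := (h1 m).trans (Nat.mul_le_mul le_rfl (h2 m hm))
      exact_mod_cast h5
    rw [hr, div_pow, div_le_iff₀ (by positivity), ← mul_pow]
    linarith
  have h4 := tendsto_pow_const_div_const_pow_of_one_lt N hr1
  have hC : (0 : ℝ) < ((C : ℝ) + 1) ^ N := by positivity
  have h5 := (h4.eventually (gt_mem_nhds (inv_pos.2 hC))).and (eventually_gt_atTop 0)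
  obtain ⟨m, hm1, hm⟩ := h5.exists
  have h6 := h3 m hm
  have hrm : 0 < r ^ m := by positivity
  rw [div_lt_iff₀ hrm, inv_mul_eq_div, lt_div_iff₀ hC] at hm1
  linarith

/-- weighted degree at most `L` -/
def WD {N : ℕ} (h : Fin N → ℕ) (L : ℕ) (p : MvPolynomial (Fin N) ℂ) : Prop :=
  ∀ β ∈ p.support, ∑ j, h j * β j ≤ L

lemma wd_of_deg {N : ℕ} {h : Fin N → ℕ} {L : ℕ} {p : MvPolynomial (Fin N) ℂ}
    (hp : MvPolynomial.weightedTotalDegree h p ≤ L) : WD h L p := by
  intro β hβ
  have h1 := (MvPolynomial.le_weightedTotalDegree h hβ).trans hp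
  rw [Finsupp.weight_apply, Finsupp.sum_fintype _ _ (fun i => by simp)] at h1
  refine le_trans (le_of_eq (Finset.sum_congr rfl fun j _ => ?_)) h1
  rw [smul_eq_mul, mul_comm]

lemma wd_mul {N : ℕ} {h : Fin N → ℕ} {a b : ℕ} {p q : MvPolynomial (Fin N) ℂ}
    (hp : WD h a p) (hq : WD h b q) : WD h (a + b) (p * q) := by
  classical
  intro β hβ
  obtain ⟨β1, h1, β2, h2, rfl⟩ := Finset.mem_add.1 (MvPolynomial.support_mul p q hβ)
  have h3 := add_le_add (hp β1 h1) (hq β2 h2)
  rw [← Finset.sum_add_distrib] at h3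
  refine le_trans (le_of_eq (Finset.sum_congr rfl fun j _ => ?_)) h3
  rw [Finsupp.add_apply, mul_add]

lemma wd_one {N : ℕ} (h : Fin N → ℕ) : WD h 0 (1 : MvPolynomial (Fin N) ℂ) := by
  intro β hβ
  rw [MvPolynomial.support_one, Finset.mem_singleton] at hβ
  rw [hβ]
  simp

lemma wd_pow {N : ℕ} {h : Fin N → ℕ} {a : ℕ} {p : MvPolynomial (Fin N) ℂ}
    (hp : WD h a p) (n : ℕ) : WD h (a * n) (p ^ n) := by
  induction n with
  | zero => rw [pow_zero, mul_zero]; exact wd_one h
  | succ n ih =>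
    rw [pow_succ, mul_add, mul_one]
    exact wd_mul ih hp

lemma wd_prod {N : ℕ} {ι : Type*} {h : Fin N → ℕ} (s : Finset ι) {a : ι → ℕ}
    {p : ι → MvPolynomial (Fin N) ℂ} (hp : ∀ i ∈ s, WD h (a i) (p i)) :
    WD h (∑ i ∈ s, a i) (∏ i ∈ s, p i) := by
  classical
  induction s using Finset.induction_on with
  | empty => rw [Finset.sum_empty, Finset.prod_empty]; exact wd_one h
  | insert i s hi ih =>
    rw [Finset.sum_insert hi, Finset.prod_insert hi]
    exact wd_mul (hp i (Finset.mem_insert_self i s))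
      (ih fun j hj => hp j (Finset.mem_insert_of_mem hj))

lemma wd_mono {N : ℕ} {h : Fin N → ℕ} {a b : ℕ} {p : MvPolynomial (Fin N) ℂ}
    (hp : WD h a p) (hab : a ≤ b) : WD h b p := fun β hβ => (hp β hβ).trans hab

/-- interpolation -/
lemma exists_interp {N D : ℕ} (p : Fin D → Fin N → ℂ) (hp : Function.Injective p) :
    ∃ E : Fin D → MvPolynomial (Fin N) ℂ,
      ∀ i j, MvPolynomial.eval (p j) (E i) = if i = j then 1 else 0 := by
  classical
  have h1 : ∀ i j : Fin D, ∃ f : MvPolynomial (Fin N) ℂ, MvPolynomial.eval (p i) f = 1 ∧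
      (i ≠ j → MvPolynomial.eval (p j) f = 0) := by
    intro i j
    by_cases hij : i = j
    · exact ⟨1, by simp, fun h => absurd hij h⟩
    · have h2 : p i ≠ p j := fun h => hij (hp h)
      obtain ⟨k, hk⟩ := Function.ne_iff.1 h2
      refine ⟨MvPolynomial.C ((p i k - p j k)⁻¹) *
        (MvPolynomial.X k - MvPolynomial.C (p j k)), ?_, fun _ => ?_⟩
      · simp only [map_mul, map_sub, MvPolynomial.eval_C, MvPolynomial.eval_X]
        exact inv_mul_cancel₀ (sub_ne_zero.2 hk)
      · simp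
  choose f hf1 hf2 using h1
  refine ⟨fun i => ∏ j, f i j, fun i j => ?_⟩
  rw [map_prod]
  split_ifs with hij
  · subst hij
    exact Finset.prod_eq_one fun k _ => hf1 i k
  · exact Finset.prod_eq_zero (Finset.mem_univ j) (hf2 i j hij)

/-- a polynomial that vanishes near a point is zero -/
lemma eq_zero_of_eventually {N : ℕ} {g : MvPolynomial (Fin N) ℂ} {w0 : Fin N → ℂ}
    (h : ∀ᶠ w in 𝓝 w0, MvPolynomial.eval w g = 0) : g = 0 := by
  obtain ⟨ε, hε, hb⟩ := Metric.eventually_nhds_iff_ball.1 h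
  refine MvPolynomial.funext_set (fun i => Metric.ball (w0 i) ε) (fun i => ?_) ?_
  · exact infinite_of_mem_nhds (w0 i) (Metric.ball_mem_nhds _ hε)
  · intro x hx
    rw [map_zero]
    refine hb x ?_
    rw [Metric.mem_ball, dist_pi_lt_iff hε]
    exact fun i => hx i trivial

/-- independence -/
lemma indep {N D : ℕ} (Φ : Fin N → MvPolynomial (Fin N) ℂ) (p : Fin D → Fin N → ℂ)
    (w0 : Fin N → ℂ)
    (hopen : ∀ j, ∀ U ∈ 𝓝 (p j), ∀ᶠ w in 𝓝 w0, ∃ c ∈ U, ∀ r, MvPolynomial.eval c (Φ r) = w r)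
    (E : Fin D → MvPolynomial (Fin N) ℂ)
    (hE : ∀ i j, MvPolynomial.eval (p j) (E i) = if i = j then 1 else 0)
    (g : Fin D → MvPolynomial (Fin N) ℂ)
    (h0 : ∑ i, E i * MvPolynomial.aeval Φ (g i) = 0) : ∀ i, g i = 0 := by
  classical
  have hdet : Continuous fun c : Fin D → Fin N → ℂ =>
      (Matrix.of fun j i => MvPolynomial.eval (c j) (E i) : Matrix (Fin D) (Fin D) ℂ).det := by
    refine Continuous.matrix_det ?_
    refine continuous_matrix fun j i => ?_
    exact (MvPolynomial.continuous_eval (E i)).comp (continuous_apply j)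
  have h1 : (Matrix.of fun j i => MvPolynomial.eval (p j) (E i) :
      Matrix (Fin D) (Fin D) ℂ).det ≠ 0 := by
    have h2 : (Matrix.of fun j i => MvPolynomial.eval (p j) (E i) :
        Matrix (Fin D) (Fin D) ℂ) = 1 := by
      ext j i
      rw [Matrix.of_apply, hE, Matrix.one_apply]
      by_cases hij : i = j
      · rw [if_pos hij, if_pos hij.symm]
      · rw [if_neg hij, if_neg (Ne.symm hij)]
    rw [h2, Matrix.det_one]
    exact one_ne_zero
  have h2 : {c : Fin D → Fin N → ℂ | (Matrix.of fun j i => MvPolynomial.eval (c j) (E i) :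
      Matrix (Fin D) (Fin D) ℂ).det ≠ 0} ∈ 𝓝 p :=
    (hdet.continuousAt.eventually_ne h1)
  rw [nhds_pi, Filter.mem_pi'] at h2
  obtain ⟨I, U, hU, hsub⟩ := h2
  have h3 : ∀ᶠ w in 𝓝 w0, ∀ i, MvPolynomial.eval w (g i) = 0 := by
    have h4 : ∀ᶠ w in 𝓝 w0, ∀ j, ∃ c ∈ U j, ∀ r, MvPolynomial.eval c (Φ r) = w r :=
      Filter.eventually_all.2 fun j => hopen j (U j) (hU j)
    filter_upwards [h4] with w hw
    choose c hc hcw using hw
    have h5 : (Matrix.of fun j i => MvPolynomial.eval (c j) (E i) :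
        Matrix (Fin D) (Fin D) ℂ).det ≠ 0 := hsub fun j _ => hc j
    have h6 : (Matrix.of fun j i => MvPolynomial.eval (c j) (E i) :
        Matrix (Fin D) (Fin D) ℂ).mulVec (fun i => MvPolynomial.eval w (g i)) = 0 := by
      funext j
      have h7 := congrArg (MvPolynomial.eval (c j)) h0
      rw [map_sum, map_zero] at h7
      rw [Pi.zero_apply, ← h7]
      unfold Matrix.mulVec dotProduct
      refine Finset.sum_congr rfl fun i _ => ?_
      have h8 : ∀ q : MvPolynomial (Fin N) ℂ, MvPolynomial.eval w q =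
          MvPolynomial.eval (c j) (MvPolynomial.aeval Φ q) := by
        intro q
        induction q using MvPolynomial.induction_on with
        | C a => simp
        | add p q hp hq => rw [map_add, map_add, map_add, hp, hq]
        | mul_X p n hp =>
          rw [map_mul, map_mul, map_mul, hp, MvPolynomial.eval_X, MvPolynomial.aeval_X, hcw]
      change MvPolynomial.eval (c j) (E i) * MvPolynomial.eval w (g i) = _
      rw [map_mul, h8]
    have h7 := Matrix.eq_zero_of_mulVec_eq_zero h5 h6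
    exact fun i => congrFun h7 i
  intro i
  exact eq_zero_of_eventually (h3.mono fun w hw => hw i)

end WHook

open WHook in
theorem fib_bound {N D : ℕ} (Φ : Fin N → MvPolynomial (Fin N) ℂ) (h d : Fin N → ℕ)
    (hh : ∀ j, 0 < h j) (hd : ∀ r, 0 < d r)
    (hdeg : ∀ r, MvPolynomial.weightedTotalDegree h (Φ r) ≤ d r)
    (p : Fin D → Fin N → ℂ) (hp : Function.Injective p) (w0 : Fin N → ℂ)
    (hopen : ∀ j, ∀ U ∈ 𝓝 (p j), ∀ᶠ w in 𝓝 w0, ∃ c ∈ U, ∀ r, MvPolynomial.eval c (Φ r) = w r) :
    D * ∏ j, h j ≤ ∏ r, d r := by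
  classical
  obtain ⟨E, hE⟩ := exists_interp p hp
  obtain ⟨C0, hC0⟩ : ∃ C0 : ℕ, ∀ i, WD h C0 (E i) := by
    refine ⟨∑ i, MvPolynomial.weightedTotalDegree h (E i), fun i => ?_⟩
    refine wd_mono (wd_of_deg le_rfl) ?_
    exact Finset.single_le_sum (f := fun i => MvPolynomial.weightedTotalDegree h (E i))
      (fun _ _ => Nat.zero_le _) (Finset.mem_univ i)
  have key : ∀ L, D * (cnt d L).card ≤ (cnt h (L + C0)).card := by
    intro L
    by_contra hcon
    push Not at hcon
    set v : Fin D × {α // α ∈ cnt d L} → MvPolynomial (Fin N) ℂ :=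
      fun q => E q.1 * ∏ r, Φ r ^ (q.2 : Fin N → ℕ) r with hv
    have hvWD : ∀ q, WD h (L + C0) (v q) := by
      intro q
      have h1 : WD h (∑ r, d r * (q.2 : Fin N → ℕ) r) (∏ r, Φ r ^ (q.2 : Fin N → ℕ) r) :=
        wd_prod Finset.univ fun r _ => wd_pow (wd_of_deg (hdeg r)) _
      have h2 := wd_mul (hC0 q.1) h1
      refine wd_mono h2 ?_
      have h3 := (mem_cnt hd).1 q.2.2
      omega
    set T : (Fin D × {α // α ∈ cnt d L} → ℂ) →ₗ[ℂ] ({β // β ∈ cnt h (L + C0)} → ℂ) :=
      (LinearMap.pi fun β => MvPolynomial.lcoeff (R := ℂ)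
        (Finsupp.equivFunOnFinite.symm (β : Fin N → ℕ))) ∘ₗ (Fintype.linearCombination ℂ v) with hT
    have hker : LinearMap.ker T ≠ ⊥ := by
      refine LinearMap.ker_ne_bot_of_finrank_lt ?_
      rw [Module.finrank_fintype_fun_eq_card, Module.finrank_fintype_fun_eq_card,
        Fintype.card_prod, Fintype.card_fin, Fintype.card_coe, Fintype.card_coe]
      exact hcon
    obtain ⟨c, hc, hc0⟩ := (Submodule.ne_bot_iff _).1 hker
    rw [LinearMap.mem_ker] at hc
    have hsum : ∑ q, c q • v q = 0 := by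
      ext β
      rw [MvPolynomial.coeff_zero]
      by_cases hβ : (β : Fin N → ℕ) ∈ cnt h (L + C0)
      · have h1 := congrFun hc ⟨_, hβ⟩
        have h2 : Finsupp.equivFunOnFinite.symm (β : Fin N → ℕ) = β := by
          ext i; simp
        rw [hT] at h1
        simp only [LinearMap.comp_apply, LinearMap.pi_apply, Fintype.linearCombination_apply,
          Pi.zero_apply] at h1
        rw [h2] at h1
        exact h1
      · rw [MvPolynomial.coeff_sum]
        refine Finset.sum_eq_zero fun q _ => ?_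
        rw [MvPolynomial.coeff_smul]
        have h1 : MvPolynomial.coeff β (v q) = 0 := by
          by_contra h2
          exact hβ ((mem_cnt hh).2 (hvWD q β (MvPolynomial.mem_support_iff.2 h2)))
        rw [h1, smul_zero]
    set g : Fin D → MvPolynomial (Fin N) ℂ := fun i => ∑ α : {α // α ∈ cnt d L},
      MvPolynomial.monomial (Finsupp.equivFunOnFinite.symm (α : Fin N → ℕ)) (c (i, α)) with hg
    have hg0 : ∀ i, g i = 0 := by
      refine indep Φ p w0 hopen E hE g ?_
      rw [← hsum, Fintype.sum_prod_type]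
      refine Finset.sum_congr rfl fun i _ => ?_
      rw [hg, map_sum, Finset.mul_sum]
      refine Finset.sum_congr rfl fun α _ => ?_
      rw [MvPolynomial.aeval_monomial, hv, Finsupp.prod_fintype _ _ (fun i => pow_zero _),
        MvPolynomial.algebraMap_eq, MvPolynomial.smul_eq_C_mul]
      simp only [Finsupp.coe_equivFunOnFinite_symm]
      ring
    apply hc0
    funext q
    have h1 := congrArg (MvPolynomial.coeff (Finsupp.equivFunOnFinite.symm
      (q.2 : Fin N → ℕ))) (hg0 q.1)
    rw [hg, MvPolynomial.coeff_zero, MvPolynomial.coeff_sum,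
      Finset.sum_eq_single q.2] at h1
    · rw [MvPolynomial.coeff_monomial, if_pos rfl] at h1
      exact h1
    · intro α _ hα
      rw [MvPolynomial.coeff_monomial, if_neg]
      intro h2
      exact hα (Subtype.ext (Finsupp.equivFunOnFinite.symm.injective h2))
    · intro h2
      exact absurd (Finset.mem_univ _) h2
  refine le_of_growth (N := N) (C := C0 + ∑ j, h j) (Finset.prod_pos fun r _ => hd r) fun L => ?_
  calc D * (∏ j, h j) * (cnt (fun _ : Fin N => 1) L).card
      ≤ D * (∏ j, h j) * ((∏ r, d r) * (cnt d L).card) :=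
        Nat.mul_le_mul le_rfl (card_le_div hd L)
    _ = (∏ r, d r) * ((∏ j, h j) * (D * (cnt d L).card)) := by ring
    _ ≤ (∏ r, d r) * ((∏ j, h j) * (cnt h (L + C0)).card) :=
        Nat.mul_le_mul le_rfl (Nat.mul_le_mul le_rfl (key L))
    _ ≤ (∏ r, d r) * (cnt (fun _ : Fin N => 1) (L + C0 + ∑ r, h r)).card :=
        Nat.mul_le_mul le_rfl (card_mul_le hh _)
    _ = (∏ r, d r) * (cnt (fun _ : Fin N => 1) (L + (C0 + ∑ j, h j))).card := by
        rw [add_assoc]

end GTR
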