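import Pool.Agent.GTR.WZero

/-!
# GTR WIft : the word solutions exist for small `d` (6.1)

Consider `H (y, d) = ((Gf w y d r)_r, d)` on `(Fin N → ℝ) × ℝ` near `(y0 w, 0)`. It is smooth
(`Gf_contDiff`), `H (y0 w, 0) = 0` (`Gf_zero`; `y0 w r vd (ex r) = vd (ex (r+1))`). The partial
derivatives at `d = 0`: by `Gf_zero` the matrix `Gj w (y0 w) 0` is diagonal (the bracket vanishes at
`y0 w r`, so the derivatives with respect to `y_s`, `s > r`, vanish; nothing depends on `y_s`, `s < r`)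
with the entries `(-1)^r (∏_(s>r) y0_s) vd (ex w r)`, of sign `(-1)^r`. So the strict derivative of `H`
is invertible (block triangular), the inverse function theorem
(`HasStrictFDerivAt.to_localInverse`, or `ContDiffAt.toOpenPartialHomeomorph`) gives for every small
`d > 0` a `y` near `y0 w` with `H (y, d) = (0, d)`. `Gj` is continuous in `(y, d)` (partial derivatives of
a smooth function), so `(∏ (-1)^r) det Gj > 0` persists near `(y0 w, 0)`.
-/

set_option autoImplicit false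

open Polynomial

namespace GTR

/-- the equation number `r` as a function of `(y, d)` -/
private noncomputable def GG {k N : ℕ} (w : Fin N → Fin k) (r : Fin N)
    (p : (Fin N → ℝ) × ℝ) : ℝ := Gf w p.1 p.2 r

private theorem GG_smooth {k N : ℕ} (w : Fin N → Fin k) (r : Fin N) :
    ContDiff ℝ ⊤ (GG w r) := Gf_contDiff w r

private theorem top_ne : (⊤ : WithTop ℕ∞) ≠ 0 := by simp

private theorem Gj_eq {k N : ℕ} (w : Fin N → Fin k) (r s : Fin N) (p : (Fin N → ℝ) × ℝ) :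
    Gj w p.1 p.2 r s = fderiv ℝ (GG w r) p (Pi.single s 1, 0) := by
  have h1 : HasDerivAt (fun v => ((Function.update p.1 s v, p.2) : (Fin N → ℝ) × ℝ))
      (Pi.single s 1, 0) (p.1 s) :=
    (hasDerivAt_update p.1 s (p.1 s)).prodMk (hasDerivAt_const _ _)
  have h2 : ((Function.update p.1 s (p.1 s), p.2) : (Fin N → ℝ) × ℝ) = p := by
    rw [Function.update_eq_self]
  have h3 : HasFDerivAt (GG w r) (fderiv ℝ (GG w r) p)
      (Function.update p.1 s (p.1 s), p.2) := by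
    rw [h2]
    exact ((GG_smooth w r).differentiable top_ne p).hasFDerivAt
  exact (h3.comp_hasDerivAt (p.1 s) h1).deriv

private theorem Gj_cont {k N : ℕ} (w : Fin N → Fin k) :
    Continuous (fun p : (Fin N → ℝ) × ℝ => (Gj w p.1 p.2).det) := by
  refine Continuous.matrix_det (continuous_matrix fun r s => ?_)
  simp only [Gj_eq]
  exact ((GG_smooth w r).continuous_fderiv top_ne).clm_apply continuous_const

private theorem Gf_y0 {k N : ℕ} (w : Fin N → Fin k)
    (hV : ∀ m : ℕ, 0 < vd (fun a => (ex w m a : ℝ))) (r : Fin N) : Gf w (y0 w) 0 r = 0 := by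
  rw [Gf_zero, y0, div_mul_cancel₀ _ (hV _).ne', sub_self, mul_zero]

private theorem Gj_y0 {k N : ℕ} (w : Fin N → Fin k)
    (hV : ∀ m : ℕ, 0 < vd (fun a => (ex w m a : ℝ))) (r s : Fin N) : Gj w (y0 w) 0 r s =
      if r = s then (-1) ^ (r : ℕ) * (∏ t ∈ Finset.Ioi r, y0 w t) *
        vd (fun a => (ex w (r : ℕ) a : ℝ)) else 0 := by
  rw [Gj]
  simp only [Gf_zero]
  by_cases h : r = s
  · subst h
    rw [if_pos rfl]
    have h1 : (fun v => (-1) ^ (r : ℕ) * (∏ t ∈ Finset.Ioi r, Function.update (y0 w) r v t) *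
        (Function.update (y0 w) r v r * vd (fun a => (ex w (r : ℕ) a : ℝ)) -
          vd (fun a => (ex w ((r : ℕ) + 1) a : ℝ)))) =
        fun v => (-1) ^ (r : ℕ) * (∏ t ∈ Finset.Ioi r, y0 w t) *
        (v * vd (fun a => (ex w (r : ℕ) a : ℝ)) - vd (fun a => (ex w ((r : ℕ) + 1) a : ℝ))) := by
      funext v
      rw [Function.update_self, Finset.prod_congr rfl fun t ht =>
        Function.update_of_ne (Finset.mem_Ioi.1 ht).ne' v (y0 w)]
    rw [h1]
    have h2 := (((hasDerivAt_id (y0 w r)).mul_const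
      (vd (fun a => (ex w (r : ℕ) a : ℝ)))).sub_const
      (vd (fun a => (ex w ((r : ℕ) + 1) a : ℝ)))).const_mul
      ((-1) ^ (r : ℕ) * (∏ t ∈ Finset.Ioi r, y0 w t))
    rw [one_mul] at h2
    exact h2.deriv
  · rw [if_neg h]
    have h1 : (fun v => (-1) ^ (r : ℕ) * (∏ t ∈ Finset.Ioi r, Function.update (y0 w) s v t) *
        (Function.update (y0 w) s v r * vd (fun a => (ex w (r : ℕ) a : ℝ)) -
          vd (fun a => (ex w ((r : ℕ) + 1) a : ℝ)))) = fun _ => 0 := by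
      funext v
      rw [Function.update_of_ne h, y0, div_mul_cancel₀ _ (hV _).ne', sub_self, mul_zero]
    rw [h1, deriv_const]

private theorem word_sol' {k N : ℕ} (w : Fin N → Fin k)
    (hV : ∀ m : ℕ, 0 < vd (fun a => (ex w m a : ℝ))) :
    ∃ δ > 0, ∀ d : ℝ, 0 < d → d < δ → ∃ y : Fin N → ℝ,
      (∀ r, y0 w r / 2 < y r ∧ y r < 2 * y0 w r) ∧ (∀ r, Gf w y d r = 0) ∧
      0 < (∏ r : Fin N, (-1 : ℝ) ^ (r : ℕ)) * (Gj w y d).det := by
  have hy0 : ∀ r, 0 < y0 w r := fun r => div_pos (hV _) (hV _)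
  obtain ⟨p0, hp0⟩ : ∃ p0 : (Fin N → ℝ) × ℝ, p0 = (y0 w, 0) := ⟨_, rfl⟩
  -- the map `H`
  let H : (Fin N → ℝ) × ℝ → (Fin N → ℝ) × ℝ := fun p => ((fun r => GG w r p), p.2)
  have hH0 : H p0 = 0 := by
    rw [hp0]
    refine Prod.ext (funext fun r => ?_) rfl
    exact Gf_y0 w hV r
  let H' : (Fin N → ℝ) × ℝ →L[ℝ] (Fin N → ℝ) × ℝ :=
    (ContinuousLinearMap.pi fun r => fderiv ℝ (GG w r) p0).prod
      (ContinuousLinearMap.snd ℝ (Fin N → ℝ) ℝ)
  have hH : HasStrictFDerivAt H H' p0 := by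
    refine HasStrictFDerivAt.prodMk (hasStrictFDerivAt_pi.2 fun r => ?_) hasStrictFDerivAt_snd
    exact (GG_smooth w r).contDiffAt.hasStrictFDerivAt top_ne
  have hdiag : ∀ (r : Fin N) (η : Fin N → ℝ), fderiv ℝ (GG w r) p0 (η, 0) =
      η r * Gj w (y0 w) 0 r r := by
    intro r η
    have h1 : ((η, 0) : (Fin N → ℝ) × ℝ) = ∑ s, η s • ((Pi.single s 1, 0) : (Fin N → ℝ) × ℝ) := by
      refine Prod.ext ?_ ?_
      · rw [Prod.fst_sum]
        funext t
        rw [Finset.sum_apply]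
        simp [Pi.single_apply]
      · rw [Prod.snd_sum]
        simp
    have h2 : ∀ s, fderiv ℝ (GG w r) p0 (Pi.single s 1, 0) = Gj w (y0 w) 0 r s := by
      intro s
      have h3 := Gj_eq w r s p0
      rw [hp0] at h3 ⊢
      exact h3.symm
    rw [h1, map_sum, Finset.sum_eq_single r]
    · rw [map_smul, h2, smul_eq_mul]
    · intro s _ hs
      rw [map_smul, h2, Gj_y0 w hV, if_neg (Ne.symm hs), smul_zero]
    · intro h
      exact absurd (Finset.mem_univ r) h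
  have hne : ∀ r, Gj w (y0 w) 0 r r ≠ 0 := by
    intro r
    rw [Gj_y0 w hV, if_pos rfl]
    exact mul_ne_zero (mul_ne_zero (pow_ne_zero _ (by norm_num))
      (Finset.prod_pos fun t _ => hy0 t).ne') (hV _).ne'
  have hsurj : H'.range = ⊤ := by
    refine LinearMap.range_eq_top.2 fun q => ?_
    obtain ⟨g, δ⟩ := q
    refine ⟨((fun r => (g r - fderiv ℝ (GG w r) p0 (0, δ)) / Gj w (y0 w) 0 r r), δ), ?_⟩
    refine Prod.ext (funext fun r => ?_) rfl
    change fderiv ℝ (GG w r) p0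
      ((fun r => (g r - fderiv ℝ (GG w r) p0 (0, δ)) / Gj w (y0 w) 0 r r), δ) = g r
    have h1 : (((fun r => (g r - fderiv ℝ (GG w r) p0 (0, δ)) / Gj w (y0 w) 0 r r), δ) :
        (Fin N → ℝ) × ℝ) =
        ((fun r => (g r - fderiv ℝ (GG w r) p0 (0, δ)) / Gj w (y0 w) 0 r r), 0) + (0, δ) := by
      rw [Prod.mk_add_mk, add_zero, zero_add]
    rw [h1, map_add, hdiag, div_mul_cancel₀ _ (hne r)]
    ring
  have hmap := hH.map_nhds_eq_of_surj hsurj
  -- the neighbourhood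
  have hpos0 : 0 < (∏ r : Fin N, (-1 : ℝ) ^ (r : ℕ)) * (Gj w (y0 w) 0).det := by
    have h1 : Gj w (y0 w) 0 = Matrix.diagonal fun r : Fin N => (-1) ^ (r : ℕ) *
        (∏ t ∈ Finset.Ioi r, y0 w t) * vd (fun a => (ex w (r : ℕ) a : ℝ)) := by
      ext r s
      rw [Gj_y0 w hV, Matrix.diagonal_apply]
    rw [h1, Matrix.det_diagonal, ← Finset.prod_mul_distrib]
    refine Finset.prod_pos fun r _ => ?_
    have h2 : (-1 : ℝ) ^ (r : ℕ) * (-1) ^ (r : ℕ) = 1 := by
      rw [← mul_pow]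
      norm_num
    rw [← mul_assoc, ← mul_assoc, h2, one_mul]
    exact mul_pos (Finset.prod_pos fun t _ => hy0 t) (hV _)
  obtain ⟨U, hU⟩ : ∃ U : Set ((Fin N → ℝ) × ℝ), U = {p | (∀ r, y0 w r / 2 < p.1 r ∧
    p.1 r < 2 * y0 w r) ∧ 0 < (∏ r : Fin N, (-1 : ℝ) ^ (r : ℕ)) * (Gj w p.1 p.2).det} :=
    ⟨_, rfl⟩
  have hUo : IsOpen U := by
    have h1 : U = (⋂ r, {p | y0 w r / 2 < p.1 r ∧ p.1 r < 2 * y0 w r}) ∩
        {p | 0 < (∏ r : Fin N, (-1 : ℝ) ^ (r : ℕ)) * (Gj w p.1 p.2).det} := by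
      rw [hU]
      ext p
      rw [Set.mem_inter_iff, Set.mem_iInter]
      rfl
    rw [h1]
    refine IsOpen.inter (isOpen_iInter_of_finite fun r => ?_) ?_
    · have h2 : Continuous fun p : (Fin N → ℝ) × ℝ => p.1 r :=
        (continuous_apply r).comp continuous_fst
      exact (isOpen_lt continuous_const h2).inter (isOpen_lt h2 continuous_const)
    · exact isOpen_lt continuous_const (continuous_const.mul (Gj_cont w))
  have hpU : p0 ∈ U := by
    rw [hU, hp0]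
    refine ⟨fun r => ⟨?_, ?_⟩, hpos0⟩
    · have := hy0 r
      change y0 w r / 2 < y0 w r
      linarith
    · have := hy0 r
      change y0 w r < 2 * y0 w r
      linarith
  have hHU : H '' U ∈ nhds (0 : (Fin N → ℝ) × ℝ) := by
    rw [← hH0, ← hmap]
    exact Filter.image_mem_map (hUo.mem_nhds hpU)
  obtain ⟨δ, hδ, hball⟩ := Metric.mem_nhds_iff.1 hHU
  refine ⟨δ, hδ, fun d hd0 hdδ => ?_⟩
  have h1 : ((0, d) : (Fin N → ℝ) × ℝ) ∈ Metric.ball (0 : (Fin N → ℝ) × ℝ) δ := by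
    rw [Metric.mem_ball, Prod.dist_eq]
    change max (dist (0 : Fin N → ℝ) 0) (dist d 0) < δ
    rw [dist_self, dist_zero_right, Real.norm_of_nonneg hd0.le]
    exact max_lt hδ hdδ
  obtain ⟨p, hp, hHp⟩ := hball h1
  have h2 : p.2 = d := congrArg Prod.snd hHp
  have h3 : ∀ r, GG w r p = 0 := fun r => congrFun (congrArg Prod.fst hHp) r
  rw [hU] at hp
  refine ⟨p.1, hp.1, fun r => ?_, ?_⟩
  · rw [← h2]
    exact h3 r
  · rw [← h2]
    exact hp.2

theorem word_sol {k l : ℕ} {w : Fin (k * l) → Fin k} (hw : IsWord w) :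
    ∃ δ > 0, ∀ d : ℝ, 0 < d → d < δ → ∃ y : Fin (k * l) → ℝ,
      (∀ r, y0 w r / 2 < y r ∧ y r < 2 * y0 w r) ∧ (∀ r, Gf w y d r = 0) ∧
      0 < (∏ r : Fin (k * l), (-1 : ℝ) ^ (r : ℕ)) * (Gj w y d).det :=
  word_sol' w (vd_ex_pos hw)

end GTR
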