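import Pool.Agent.GTR.WBlk
import Pool.Agent.GTR.Jac

/-!
# GTR WJac : the sign of the Jacobian at a word solution (6.2)

Let `h` be a problem with `lf (h i) (uw w z) = 0` for all `i`; `B p q` the matrix of `blk`
(`δ_p = tv w z p`, coordinates with respect to the matrix units `eb (idx q)`), and `M` the matrix in
`JJ h u = JW h u uᵀ = det M`, `M p q = (dlf (h i) u (E_q))` resp. `(E_q * uᵀ) a b`. Then
`(M * Bᵀ) p p' = ` the same expression for `δ_(p')` (linearity of `dlf` in `δ`: `dlf_add`, `dlf_smul`).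
`δ_(inr (a,b)) = E_ab * u`: `dlf (h i) u (E_ab * u) = trace * lf (h i) u = 0` (`dlf_self`), and
`δ uᵀ = E_ab (u uᵀ)`. So `M * Bᵀ` is block triangular:
`det (M * Bᵀ) = det (dlf (h i) u δ_(inl r))_(i,r) * det (X ↦ X (u uᵀ)) `, the last factor is
`det (u uᵀ)^k > 0` (`det_uut_pos`; `FR u` because the rows have different degrees).
`dlf (h i) u δ_(inl r)` is the derivative of `v ↦ lf (h i) (uw w (update z r v))` at `v = z r`: the rows
`≠ w r` do not depend on `v`, the row `w r` is affine linear in `v`: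
`uw w (update z r v) = uw w z + (v - z r) • δ_(inl r)` and `lf` is linear in each row.
-/

set_option autoImplicit false

open Polynomial

namespace GTR

open GTC

private theorem fac_ne99 (c : ℝ) : (C c - X : ℝ[X]) ≠ 0 := by
  intro h
  have h1 := congrArg (fun q : ℝ[X] => q.coeff 1) h
  simp at h1

private theorem fac_deg99 (c : ℝ) : (C c - X : ℝ[X]).natDegree = 1 := by
  have h : (C c - X : ℝ[X]) = -(X - C c) := by ring
  rw [h, natDegree_neg, natDegree_X_sub_C]

private theorem fac_lc99 (c : ℝ) : (C c - X : ℝ[X]).leadingCoeff = -1 := by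
  have h : (C c - X : ℝ[X]) = -(X - C c) := by ring
  rw [h, leadingCoeff_neg, leadingCoeff_X_sub_C]

private theorem card99 {k l : ℕ} {w : Fin (k * l) → Fin k} (hw : IsWord w) (a : Fin k) :
    (Finset.univ.filter (fun r => w r = a)).card = l := by
  have h := hw.full a
  unfold cnt at h
  refine Eq.trans ?_ h
  congr 1
  ext r
  simp

private theorem qp_deg99 {k l : ℕ} {w : Fin (k * l) → Fin k} (hw : IsWord w)
    (z : Fin (k * l) → ℝ) (a : Fin k) : (qp w z a).natDegree = (a : ℕ) + l := by
  unfold qp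
  rw [natDegree_mul (pow_ne_zero _ X_ne_zero) (Finset.prod_ne_zero_iff.2 fun r _ => fac_ne99 _),
    natDegree_X_pow, natDegree_prod _ _ (fun r _ => fac_ne99 _)]
  simp only [fac_deg99, Finset.sum_const, smul_eq_mul, mul_one]
  rw [card99 hw a]

private theorem qp_lc99 {k l : ℕ} {w : Fin (k * l) → Fin k}
    (z : Fin (k * l) → ℝ) (a : Fin k) : (qp w z a).leadingCoeff ≠ 0 := by
  rw [Ne, leadingCoeff_eq_zero]
  unfold qp
  exact mul_ne_zero (pow_ne_zero _ X_ne_zero) (Finset.prod_ne_zero_iff.2 fun r _ => fac_ne99 _)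

theorem uw_fr {k l : ℕ} {w : Fin (k * l) → Fin k} (hw : IsWord w) {z : Fin (k * l) → ℝ} :
    FR (uw w z) := by
  refine (fr_iff_minor _).2 ⟨fun b => ⟨(b : ℕ) + l, by have := b.2; omega⟩, ?_⟩
  rw [Matrix.det_of_isLowerTriangular]
  · refine Finset.prod_ne_zero_iff.2 fun a _ => ?_
    have h := qp_lc99 (w := w) z a
    unfold leadingCoeff at h
    rw [qp_deg99 hw] at h
    exact h
  · intro a b hab
    have hab' : a < b := hab
    change (qp w z a).coeff ((b : ℕ) + l) = 0
    refine coeff_eq_zero_of_natDegree_lt ?_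
    rw [qp_deg99 hw]
    have : (a : ℕ) < b := hab'
    omega

/-! ### linearity of `lf` in a row -/

private theorem upd_sub99 {k n : ℕ} (u : Matrix (Fin k) (Fin n) ℝ) (a : Fin k) (v : Fin n → ℝ)
    (t : Fin k → Fin n) :
    (u.updateRow a v).submatrix id t = (u.submatrix id t).updateRow a (fun j => v (t j)) := by
  ext i j
  by_cases h : i = a
  · subst h
    simp
  · simp [h]

private theorem lf_upd_add99 {k n : ℕ} (c : Cf ℝ k n) (u : Matrix (Fin k) (Fin n) ℝ) (a : Fin k)
    (v w : Fin n → ℝ) :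
    lf c (u.updateRow a (v + w)) = lf c (u.updateRow a v) + lf c (u.updateRow a w) := by
  unfold lf
  rw [← Finset.sum_add_distrib]
  refine Finset.sum_congr rfl fun t _ => ?_
  rw [upd_sub99, upd_sub99, upd_sub99, ← mul_add, ← Matrix.det_updateRow_add]
  rfl

private theorem lf_upd_smul99 {k n : ℕ} (c : Cf ℝ k n) (u : Matrix (Fin k) (Fin n) ℝ) (a : Fin k)
    (r : ℝ) (v : Fin n → ℝ) :
    lf c (u.updateRow a (r • v)) = r * lf c (u.updateRow a v) := by
  unfold lf
  rw [Finset.mul_sum]
  refine Finset.sum_congr rfl fun t _ => ?_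
  have h := Matrix.det_updateRow_smul (u.submatrix id t) a r (fun j => v (t j))
  have e : (fun j => (r • v) (t j)) = r • (fun j => v (t j)) := rfl
  rw [upd_sub99, upd_sub99, e, h]
  ring

private theorem lf_upd_zero99 {k n : ℕ} (c : Cf ℝ k n) (u : Matrix (Fin k) (Fin n) ℝ)
    (a : Fin k) : lf c (u.updateRow a 0) = 0 := by
  have h := lf_upd_smul99 c u a 0 0
  rwa [zero_smul, zero_mul] at h

/-- expansion in the matrix units -/
private theorem sum_eb99 {k l : ℕ} (L : Matrix (Fin k) (Fin (k + l)) ℝ →ₗ[ℝ] ℝ)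
    (δ : Matrix (Fin k) (Fin (k + l)) ℝ) :
    ∑ q, L (eb ℝ (idx k l q)) * δ (idx k l q).1 (idx k l q).2 = L δ := by
  rw [Equiv.sum_comp (idx k l) (fun q' => L (eb ℝ q') * δ q'.1 q'.2), Fintype.sum_prod_type]
  conv_rhs => rw [Matrix.matrix_eq_sum_single δ]
  rw [map_sum]
  refine Finset.sum_congr rfl fun i _ => ?_
  rw [map_sum]
  refine Finset.sum_congr rfl fun j _ => ?_
  have h : Matrix.single i j (δ i j) = δ i j • (eb ℝ (i, j) : Matrix (Fin k) (Fin (k + l)) ℝ) := by
    unfold eb
    rw [Matrix.smul_single, smul_eq_mul, mul_one]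
  rw [h, map_smul, smul_eq_mul, mul_comm]

/-- the row `w r` of `uw` depends affinely on `z r`. -/
private theorem uw_upd99 {k l : ℕ} (w : Fin (k * l) → Fin k) (z : Fin (k * l) → ℝ)
    (r : Fin (k * l)) (v : ℝ) : uw w (Function.update z r v) =
      (uw w z).updateRow (w r) (uw w z (w r) + (v - z r) • tv w z (Sum.inl r) (w r)) := by
  have hne : ∀ a, a ≠ w r → qp w (Function.update z r v) a = qp w z a := by
    intro a ha
    unfold qp
    congr 1
    refine Finset.prod_congr rfl fun s hs => ?_
    have hsr : s ≠ r := by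
      rintro rfl
      exact ha (Finset.mem_filter.1 hs).2.symm
    rw [Function.update_of_ne hsr]
  have hself : ∀ v' : ℝ, qp w (Function.update z r v') (w r) = (C v' - X) * dq w z r := by
    intro v'
    unfold qp dq
    rw [← Finset.mul_prod_erase (Finset.univ.filter fun s => w s = w r) _
      (Finset.mem_filter.2 ⟨Finset.mem_univ r, rfl⟩), Function.update_self]
    have : ∏ x ∈ (Finset.univ.filter fun s => w s = w r).erase r,
        (C (Function.update z r v' x) - X) =
        ∏ x ∈ (Finset.univ.filter fun s => w s = w r).erase r, (C (z x) - X) :=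
      Finset.prod_congr rfl fun s hs => by
        rw [Function.update_of_ne (Finset.ne_of_mem_erase hs)]
    rw [this]
    ring
  ext a j
  by_cases ha : a = w r
  · subst ha
    rw [Matrix.updateRow_self]
    change (qp w (Function.update z r v) (w r)).coeff j = (qp w z (w r)).coeff j +
      (v - z r) * (if w r = w r then (dq w z r).coeff j else 0)
    rw [if_pos rfl, hself]
    have h2 := hself (z r)
    rw [Function.update_eq_self] at h2
    rw [h2]
    have h3 : (C v - X) * dq w z r = (C (z r) - X) * dq w z r + C (v - z r) * dq w z r := by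
      rw [C_sub]
      ring
    rw [h3, coeff_add, coeff_C_mul]
  · rw [Matrix.updateRow_ne ha]
    change (qp w (Function.update z r v) a).coeff j = (qp w z a).coeff j
    rw [hne a ha]

/-- the matrix of derivatives with respect to `z`. -/
noncomputable def Dz {k l : ℕ} (h : Fin (k * l) → Cf ℝ k (k + l)) (w : Fin (k * l) → Fin k)
    (z : Fin (k * l) → ℝ) : Matrix (Fin (k * l)) (Fin (k * l)) ℝ :=
  fun i r => deriv (fun v => lf (h i) (uw w (Function.update z r v))) (z r)

private theorem Dz_eq99 {k l : ℕ} (h : Fin (k * l) → Cf ℝ k (k + l)) (w : Fin (k * l) → Fin k)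
    (z : Fin (k * l) → ℝ) (i r : Fin (k * l)) :
    Dz h w z i r = dlf (h i) (uw w z) (tv w z (Sum.inl r)) := by
  have h1 : (fun v => lf (h i) (uw w (Function.update z r v))) = fun v =>
      lf (h i) (uw w z) + (v - z r) * lf (h i) ((uw w z).updateRow (w r)
        (tv w z (Sum.inl r) (w r))) := by
    funext v
    rw [uw_upd99, lf_upd_add99, lf_upd_smul99, Matrix.updateRow_eq_self]
  have h2 : dlf (h i) (uw w z) (tv w z (Sum.inl r)) = lf (h i) ((uw w z).updateRow (w r)
        (tv w z (Sum.inl r) (w r))) := by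
    unfold dlf
    refine Finset.sum_eq_single (w r) (fun a _ ha => ?_) (fun hh => absurd (Finset.mem_univ _) hh)
    have h3 : tv w z (Sum.inl r) a = 0 := by
      funext j
      change (if a = w r then (dq w z r).coeff j else 0) = 0
      rw [if_neg ha]
    rw [h3, lf_upd_zero99]
  rw [h2]
  unfold Dz
  rw [h1]
  have h4 : HasDerivAt (fun v : ℝ => lf (h i) (uw w z) + (v - z r) * lf (h i)
      ((uw w z).updateRow (w r) (tv w z (Sum.inl r) (w r))))
      (1 * lf (h i) ((uw w z).updateRow (w r) (tv w z (Sum.inl r) (w r)))) (z r) :=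
    (((hasDerivAt_id (z r)).sub_const (z r)).mul_const _).const_add _
  rw [h4.deriv, one_mul]

private theorem key99 {k l : ℕ} (h : Fin (k * l) → Cf ℝ k (k + l)) (w : Fin (k * l) → Fin k)
    (z : Fin (k * l) → ℝ) (hz : ∀ i, lf (h i) (uw w z) = 0) :
    JJ h (uw w z) * (Matrix.of fun p q : Fin (k * l) ⊕ (Fin k × Fin k) =>
        tv w z p (GTC.idx k l q).1 (GTC.idx k l q).2).det =
      (Dz h w z).det * (uw w z * (uw w z).transpose).det ^ k := by
  have hK : (Matrix.kroneckerMap (fun x y => x * y) (1 : Matrix (Fin k) (Fin k) ℝ)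
      (uw w z * (uw w z).transpose).transpose).det =
        (uw w z * (uw w z).transpose).det ^ k := by
    have h2 := Matrix.det_kronecker (1 : Matrix (Fin k) (Fin k) ℝ)
      (uw w z * (uw w z).transpose).transpose
    rw [Matrix.det_one, one_pow, one_mul, Fintype.card_fin, Matrix.det_transpose] at h2
    exact h2
  rw [← hK, ← Matrix.det_fromBlocks_zero₁₂ (Dz h w z)
    (Matrix.of fun (ab : Fin k × Fin k) (r : Fin (k * l)) =>
      (tv w z (Sum.inl r) * (uw w z).transpose) ab.1 ab.2)]
  unfold JJ JW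
  rw [← Matrix.det_transpose (Matrix.of fun p q : Fin (k * l) ⊕ (Fin k × Fin k) =>
        tv w z p (GTC.idx k l q).1 (GTC.idx k l q).2), ← Matrix.det_mul]
  congr 1
  have hL : ∀ (i : Fin (k * l)) (δ : Matrix (Fin k) (Fin (k + l)) ℝ),
      ∑ q, dlf (h i) (uw w z) (eb ℝ (idx k l q)) * δ (idx k l q).1 (idx k l q).2 =
        dlf (h i) (uw w z) δ := fun i δ =>
    sum_eb99 { toFun := fun δ => dlf (h i) (uw w z) δ
               map_add' := fun x y => dlf_add _ _ _ _
               map_smul' := fun r x => dlf_smul _ _ _ _ } δ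
  have hR : ∀ (a b : Fin k) (δ : Matrix (Fin k) (Fin (k + l)) ℝ),
      ∑ q, (eb ℝ (idx k l q) * (uw w z).transpose) a b * δ (idx k l q).1 (idx k l q).2 =
        (δ * (uw w z).transpose) a b := fun a b δ =>
    sum_eb99 { toFun := fun δ => (δ * (uw w z).transpose) a b
               map_add' := fun x y => by rw [Matrix.add_mul, Matrix.add_apply]
               map_smul' := fun r x => by rw [Matrix.smul_mul, Matrix.smul_apply]; rfl } δ
  have hinr : ∀ c d : Fin k, tv w z (Sum.inr (c, d)) =
      (Matrix.single c d (1 : ℝ)) * uw w z := by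
    intro c d
    ext a j
    rw [Matrix.mul_apply]
    change (if a = c then (qp w z d).coeff j else 0) = _
    split_ifs with ha
    · subst ha
      rw [Finset.sum_eq_single d]
      · rw [Matrix.single_apply_same, one_mul]
        rfl
      · intro b _ hb
        rw [Matrix.single_apply_of_col_ne _ _ (Ne.symm hb), zero_mul]
      · intro hh
        exact absurd (Finset.mem_univ _) hh
    · refine (Finset.sum_eq_zero fun b _ => ?_).symm
      rw [Matrix.single_apply_of_row_ne (Ne.symm ha), zero_mul]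
  ext p p'
  rw [Matrix.mul_apply]
  rcases p with i | ⟨a, b⟩ <;> rcases p' with r | ⟨c, d⟩
  · rw [Matrix.fromBlocks_apply₁₁, Dz_eq99, ← hL]
    rfl
  · rw [Matrix.fromBlocks_apply₁₂, Matrix.zero_apply]
    refine (hL i (tv w z (Sum.inr (c, d)))).trans ?_
    rw [hinr, dlf_self, hz, mul_zero]
  · rw [Matrix.fromBlocks_apply₂₁, Matrix.of_apply, ← hR]
    rfl
  · rw [Matrix.fromBlocks_apply₂₂]
    refine (hR a b (tv w z (Sum.inr (c, d)))).trans ?_
    rw [hinr, Matrix.mul_assoc, Matrix.mul_apply, Matrix.kroneckerMap_apply,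
      Matrix.transpose_apply]
    by_cases hac : a = c
    · subst hac
      rw [Finset.sum_eq_single d]
      · rw [Matrix.single_apply_same, Matrix.one_apply_eq]
      · intro b' _ hb
        rw [Matrix.single_apply_of_col_ne _ _ (Ne.symm hb), zero_mul]
      · intro hh
        exact absurd (Finset.mem_univ _) hh
    · rw [Matrix.one_apply_ne hac, zero_mul]
      refine Finset.sum_eq_zero fun b' _ => ?_
      rw [Matrix.single_apply_of_row_ne (Ne.symm hac), zero_mul]

theorem jac_sign (k l : ℕ) : ∃ s : ℝ, (s = 1 ∨ s = -1) ∧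
    ∀ (h : Fin (k * l) → Cf ℝ k (k + l)) (w : Fin (k * l) → Fin k), IsWord w →
    ∀ z : Fin (k * l) → ℝ, (∀ r, 0 < z r) → StrictMono z → (∀ i, lf (h i) (uw w z) = 0) →
      (Dz h w z).det ≠ 0 → 0 < s * (-1) ^ inv w * (Dz h w z).det * JJ h (uw w z) := by
  obtain ⟨s, hs, hb⟩ := blk k l
  refine ⟨s, hs, fun h w hw z hz hz2 hz3 hD => ?_⟩
  have h1 := hb w hw z hz hz2
  have h2 := key99 h w z hz3
  have h3 : 0 < (uw w z * (uw w z).transpose).det ^ k := pow_pos (det_uut_pos _ (uw_fr hw)) k
  have h4 : JJ h (uw w z) ≠ 0 := by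
    intro h0
    rw [h0, zero_mul] at h2
    rcases mul_eq_zero.1 h2.symm with h5 | h5
    · exact hD h5
    · exact h3.ne' h5
  have h5 : 0 < (s * (-1) ^ inv w * (Matrix.of fun p q : Fin (k * l) ⊕ (Fin k × Fin k) =>
        tv w z p (GTC.idx k l q).1 (GTC.idx k l q).2).det) * (JJ h (uw w z) * JJ h (uw w z)) :=
    mul_pos h1 (mul_self_pos.2 h4)
  have h6 : (s * (-1) ^ inv w * (Matrix.of fun p q : Fin (k * l) ⊕ (Fin k × Fin k) =>
        tv w z p (GTC.idx k l q).1 (GTC.idx k l q).2).det) * (JJ h (uw w z) * JJ h (uw w z)) =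
      (s * (-1) ^ inv w * (Dz h w z).det * JJ h (uw w z)) *
        (uw w z * (uw w z).transpose).det ^ k := by
    linear_combination (s * (-1) ^ inv w * JJ h (uw w z)) * h2
  rw [h6] at h5
  exact (mul_pos_iff_of_pos_right h3).1 h5

end GTR
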