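import Pool.Agent.GTR.WDefs
import Pool.Agent.GTR.Lin

/-!
# GTR WTan : the Wronskian of the rational normal curve in polynomial form (6)

`rnc n x j = cos^(n-1-j) x sin^j x`, `n = k + l`, `N = k l`; `rp u a = ∑_j u a j X^j`.

* `wr_rp`: `derivative^[c] (rp u a) = ∑_j C (u a j) * derivative^[c] (X^j)`, so `wr (rp u)` is
  `det (u.map C * P)`, `P j c = derivative^[c] (X^j)`, and `lf_prod`.
* `wr_natDegree`: by `wr_rp` it is enough that for every `t` with `det (u.submatrix id t) ≠ 0` (so `t` is
  injective) the polynomial `∏_c derivative^[c] (X^(t c))` has degree `∑ t c - k(k-1)/2 ≤ k l` or is 0: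
  `k` different numbers `< k + l` have the sum `≤ l + (l+1) + ... + (l+k-1)`.
* `wr_ne_zero`: over a field of characteristic 0, independent polynomials have nonzero Wronskian: there
  is an invertible `g` such that the rows of `g * u` have different degrees `d_a` (row echelon form;
  or: induction on the span; or choose a basis of the row space adapted to the degree filtration),
  `wr (rp (g u)) = det g wr (rp u)`, and the coefficient of `X^(∑ d_a - k(k-1)/2)` of `wr` is
  `∏ leading coefficients * ∏_(a<b) (d_b - d_a) ≠ 0`.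
* `lf_rnc`: let `p_a = rp u a`. If `cos x ≠ 0`: `(u γ)_a (x) = cos^(n-1) x p_a (tan x)` and by induction
  `(d/dx)^c` of it is `∑_(e ≤ c) U_(e c)(x) p_a^(e) (tan x)` with `U_(c c) = cos^(n-1-2c) x` (real
  exponent; derivative of `tan` is `1/cos^2`), `U` independent of `a` and `p`. So
  `det (u * jet) = wr(tan x) ∏_(c<k) cos^(n-1-2c) x = cos^(k l) x wr (tan x)`; the degree of `wr` is
  `≤ k l`. (Alternatively: all is a polynomial identity in `c = cos`, `s = sin`.) For `cos x = 0` use that
  both sides are continuous in `x` and `cos ≠ 0` is dense. `lf` of `wf` is the determinant by `lf_prod`.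
  Do it for complex `u` (`lf (cc (wf ..)) u`); the real case is a special case (or the same proof).
-/

set_option autoImplicit false

open Polynomial

namespace GTR

open GTC (lf wf cc rnc FR)

/-- the coefficient of `X^j` in the Wronskian as a linear form. -/
noncomputable def wcf (R : Type*) [CommRing R] (k n : ℕ) (j : ℕ) : GTC.Cf R k n :=
  fun t => (∏ c : Fin k, derivative^[(c : ℕ)] ((X : R[X]) ^ (t c : ℕ))).coeff j

private theorem iter_rp {R : Type*} [CommRing R] {k n : ℕ} (u : Matrix (Fin k) (Fin n) R)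
    (a : Fin k) (c : ℕ) : derivative^[c] (rp u a) =
      ∑ i : Fin n, C (u a i) * derivative^[c] ((X : R[X]) ^ (i : ℕ)) := by
  unfold rp
  rw [iterate_derivative_sum]
  refine Finset.sum_congr rfl fun i _ => ?_
  rw [iterate_derivative_C_mul]

private theorem wr_mul {R : Type*} [CommRing R] {k n : ℕ} (u : Matrix (Fin k) (Fin n) R) :
    wr (rp u) = (u.map C * Matrix.of fun (i : Fin n) (c : Fin k) =>
      derivative^[(c : ℕ)] ((X : R[X]) ^ (i : ℕ))).det := by
  unfold wr
  congr 1
  ext1 a c
  rw [Matrix.mul_apply]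
  exact iter_rp u a c

theorem wr_rp {R : Type*} [CommRing R] {k n : ℕ} (u : Matrix (Fin k) (Fin n) R) (j : ℕ) :
    (wr (rp u)).coeff j = lf (wcf R k n j) u := by
  rw [wr_mul, ← GTC.lf_prod]
  unfold lf wcf
  rw [finsetSum_coeff]
  refine Finset.sum_congr rfl fun t _ => ?_
  have h : ((u.map C).submatrix id t).det = C (u.submatrix id t).det :=
    (RingHom.map_det C _).symm
  rw [h, coeff_mul_C]
  rfl

private theorem sum_distinct (S : Finset ℕ) : ∀ M : ℕ, (∀ x ∈ S, x < M) →
    ∑ x ∈ S, x + ∑ i ∈ Finset.range S.card, (i + 1) ≤ S.card * M := by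
  induction S using Finset.induction_on_max with
  | empty => intro M _; simp
  | insert a s hs ih =>
    intro M hM
    have hn : a ∉ s := fun h => lt_irrefl _ (hs a h)
    rw [Finset.sum_insert hn, Finset.card_insert_of_notMem hn, Finset.sum_range_succ]
    have h1 := ih a hs
    have h2 : a + 1 ≤ M := hM a (Finset.mem_insert_self a s)
    have h3 : (s.card + 1) * (a + 1) ≤ (s.card + 1) * M := Nat.mul_le_mul_left _ h2
    nlinarith

private theorem sum_odd (k : ℕ) :
    ∑ i ∈ Finset.range k, (i + 1) + ∑ i ∈ Finset.range k, i = k * k := by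
  induction k with
  | zero => simp
  | succ k ih =>
    rw [Finset.sum_range_succ, Finset.sum_range_succ]
    nlinarith

private theorem sum_inj {k l : ℕ} (t : Fin k → Fin (k + l)) (ht : Function.Injective t) :
    ∑ c, (t c : ℕ) ≤ k * l + ∑ c : Fin k, (c : ℕ) := by
  have hinj : Function.Injective fun c => (t c : ℕ) := fun a b h => ht (Fin.ext h)
  have h1 := sum_distinct (Finset.univ.image fun c => (t c : ℕ)) (k + l) (by
    intro x hx
    obtain ⟨c, -, rfl⟩ := Finset.mem_image.1 hx
    exact (t c).2)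
  rw [Finset.sum_image (fun a _ b _ h => hinj h), Finset.card_image_of_injective _ hinj,
    Finset.card_univ, Fintype.card_fin] at h1
  have h2 := sum_odd k
  rw [Fin.sum_univ_eq_sum_range (fun i => i) k]
  nlinarith

theorem wr_natDegree {R : Type*} [CommRing R] {k l : ℕ} (u : Matrix (Fin k) (Fin (k + l)) R) :
    (wr (rp u)).natDegree ≤ k * l := by
  rw [natDegree_le_iff_coeff_eq_zero]
  intro N hN
  rw [wr_rp]
  unfold lf
  refine Finset.sum_eq_zero fun t _ => ?_
  by_cases ht : Function.Injective t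
  · have h0 : wcf R k (k + l) N t = 0 := by
      unfold wcf
      by_cases hc : ∀ c : Fin k, (c : ℕ) ≤ (t c : ℕ)
      · refine coeff_eq_zero_of_natDegree_lt (lt_of_le_of_lt (natDegree_prod_le _ _) ?_)
        have h1 : ∀ c : Fin k, (derivative^[(c : ℕ)] ((X : R[X]) ^ (t c : ℕ))).natDegree + (c : ℕ) ≤
            (t c : ℕ) := by
          intro c
          have h2 := natDegree_iterate_derivative ((X : R[X]) ^ (t c : ℕ)) (c : ℕ)
          have h3 : ((X : R[X]) ^ (t c : ℕ)).natDegree ≤ (t c : ℕ) := natDegree_X_pow_le _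
          have h4 := hc c
          omega
        have h5 : ∑ c : Fin k, ((derivative^[(c : ℕ)] ((X : R[X]) ^ (t c : ℕ))).natDegree + (c : ℕ)) ≤
            ∑ c, (t c : ℕ) := Finset.sum_le_sum fun c _ => h1 c
        rw [Finset.sum_add_distrib] at h5
        have h6 := sum_inj t ht
        omega
      · push Not at hc
        obtain ⟨c, hc⟩ := hc
        have h1 : derivative^[(c : ℕ)] ((X : R[X]) ^ (t c : ℕ)) = 0 :=
          iterate_derivative_eq_zero (lt_of_le_of_lt (natDegree_X_pow_le _) hc)
        rw [Finset.prod_eq_zero (Finset.mem_univ c) h1, coeff_zero]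
    rw [h0, zero_mul]
  · have h1 : ∃ a b, t a = t b ∧ a ≠ b := by
      by_contra hne
      apply ht
      intro a b hab
      by_contra h2
      exact hne ⟨a, b, hab, h2⟩
    obtain ⟨a, b, hab, hne⟩ := h1
    rw [Matrix.det_zero_of_column_eq hne (fun i => by rw [Matrix.submatrix_apply,
      Matrix.submatrix_apply, hab]), mul_zero]

private theorem prod_deg {ι R : Type*} [CommRing R] (s : Finset ι) (f : ι → R[X]) (d : ι → ℕ)
    (h : ∀ i ∈ s, (f i).natDegree ≤ d i) :
    (∏ i ∈ s, f i).natDegree ≤ ∑ i ∈ s, d i ∧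
      (∏ i ∈ s, f i).coeff (∑ i ∈ s, d i) = ∏ i ∈ s, (f i).coeff (d i) := by
  classical
  induction s using Finset.induction_on with
  | empty => simp
  | insert a s ha ih =>
    obtain ⟨h1, h2⟩ := ih fun i hi => h i (Finset.mem_insert_of_mem hi)
    have h3 := h a (Finset.mem_insert_self a s)
    rw [Finset.prod_insert ha, Finset.sum_insert ha, Finset.prod_insert ha]
    refine ⟨natDegree_mul_le.trans (add_le_add h3 h1), ?_⟩
    rw [coeff_mul_add_eq_of_natDegree_le h3 h1, h2]

private theorem det_deg {R : Type*} [CommRing R] {k : ℕ} (M : Matrix (Fin k) (Fin k) R[X])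
    (d : Fin k → ℕ) (h : ∀ a c, (M a c).natDegree ≤ d a) :
    M.det.coeff (∑ a, d a) = (Matrix.of fun a c => (M a c).coeff (d a)).det := by
  rw [Matrix.det_apply', Matrix.det_apply', finsetSum_coeff]
  refine Finset.sum_congr rfl fun σ _ => ?_
  rw [coeff_intCast_mul]
  congr 1
  have h1 := (prod_deg Finset.univ (fun i => M (σ i) i) (fun i => d (σ i))
    (fun i _ => h (σ i) i)).2
  rw [Equiv.sum_comp σ d] at h1
  exact h1

private theorem entry {R : Type*} [CommRing R] (p : R[X]) (c : ℕ) :
    ((X : R[X]) ^ c * derivative^[c] p).natDegree ≤ p.natDegree ∧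
      ((X : R[X]) ^ c * derivative^[c] p).coeff p.natDegree =
        p.leadingCoeff * (p.natDegree.descFactorial c : R) := by
  by_cases hc : c ≤ p.natDegree
  · constructor
    · have h1 := natDegree_iterate_derivative p c
      have h2 : ((X : R[X]) ^ c).natDegree ≤ c := natDegree_X_pow_le c
      have h3 := natDegree_mul_le (p := (X : R[X]) ^ c) (q := derivative^[c] p)
      omega
    · rw [coeff_X_pow_mul', if_pos hc, coeff_iterate_derivative, Nat.sub_add_cancel hc,
        nsmul_eq_mul, mul_comm]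
      rfl
  · have h1 : derivative^[c] p = 0 := iterate_derivative_eq_zero (by omega)
    rw [h1, mul_zero]
    refine ⟨by simp, ?_⟩
    rw [Nat.descFactorial_eq_zero_iff_lt.2 (by omega)]
    simp

private theorem wr_ne_zero_inj {K : Type*} [Field K] [CharZero K] {k : ℕ} (p : Fin k → K[X])
    (h0 : ∀ a, p a ≠ 0) (hinj : Function.Injective fun a => (p a).natDegree) : wr p ≠ 0 := by
  intro hw
  obtain ⟨M, hM⟩ : ∃ M : Matrix (Fin k) (Fin k) K[X],
    M = Matrix.of fun a c : Fin k => (X : K[X]) ^ (c : ℕ) * derivative^[(c : ℕ)] (p a) := ⟨_, rfl⟩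
  have h1 : M.det = (∏ c : Fin k, (X : K[X]) ^ (c : ℕ)) * wr p := by
    rw [hM]
    exact Matrix.det_mul_row (fun c : Fin k => (X : K[X]) ^ (c : ℕ))
      (Matrix.of fun a c : Fin k => derivative^[(c : ℕ)] (p a))
  rw [hw, mul_zero] at h1
  have h2 := det_deg M (fun a => (p a).natDegree) (fun a c => by
    rw [hM]
    exact (entry (p a) c).1)
  rw [h1, coeff_zero] at h2
  have h3 : (Matrix.of fun a c => (M a c).coeff (p a).natDegree) =
      Matrix.of fun a c : Fin k => (p a).leadingCoeff *
        (Matrix.of fun a c : Fin k => (((p a).natDegree.descFactorial c : ℕ) : K)) a c := by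
    ext a c
    rw [hM]
    exact (entry (p a) c).2
  rw [h3, Matrix.det_mul_column] at h2
  have h4 : (∏ a, (p a).leadingCoeff) ≠ 0 :=
    Finset.prod_ne_zero_iff.2 fun a _ => leadingCoeff_ne_zero.2 (h0 a)
  have h5 : (Matrix.of fun a c : Fin k => (((p a).natDegree.descFactorial c : ℕ) : K)) =
      Matrix.of fun a c : Fin k => (descPochhammer K (c : ℕ)).eval (((p a).natDegree : ℕ) : K) := by
    ext a c
    exact (descPochhammer_eval_eq_descFactorial K (p a).natDegree c).symm
  have h6 := Matrix.det_eval_matrixOfPolynomials_eq_det_vandermonde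
    (fun a => (((p a).natDegree : ℕ) : K)) (fun c : Fin k => descPochhammer K (c : ℕ))
    (fun c => descPochhammer_natDegree K c) (fun c => monic_descPochhammer K c)
  rw [h5, ← h6] at h2
  have h7 : (Matrix.vandermonde fun a => (((p a).natDegree : ℕ) : K)).det ≠ 0 := by
    rw [Matrix.det_vandermonde_ne_zero_iff]
    intro a b hab
    exact hinj (Nat.cast_injective hab)
  exact mul_ne_zero h4 h7 h2.symm

private theorem wr_ne_zero_aux {K : Type*} [Field K] [CharZero K] {k : ℕ} :
    ∀ (N : ℕ) (p : Fin k → K[X]), LinearIndependent K p → ∑ a, (p a).natDegree < N →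
      wr p ≠ 0 := by
  intro N
  induction N with
  | zero => intro p _ h; omega
  | succ N ih =>
    intro p hp hN
    by_cases hinj : Function.Injective fun a => (p a).natDegree
    · exact wr_ne_zero_inj p hp.ne_zero hinj
    · obtain ⟨a, b, hab, hne⟩ : ∃ a b, (p a).natDegree = (p b).natDegree ∧ a ≠ b := by
        by_contra hn
        apply hinj
        intro a b hab
        by_contra h2
        exact hn ⟨a, b, hab, h2⟩
      obtain ⟨r, hr⟩ : ∃ r : K, r = (p a).leadingCoeff / (p b).leadingCoeff := ⟨_, rfl⟩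
      have hb0 : (p b).leadingCoeff ≠ 0 := leadingCoeff_ne_zero.2 (hp.ne_zero b)
      have ha0 : (p a).leadingCoeff ≠ 0 := leadingCoeff_ne_zero.2 (hp.ne_zero a)
      have hr0 : r ≠ 0 := by
        rw [hr]
        exact div_ne_zero ha0 hb0
      obtain ⟨q, hq⟩ : ∃ q : Fin k → K[X], q = Function.update p a (p a - C r * p b) := ⟨_, rfl⟩
      have hqa : q a = p a - C r * p b := by rw [hq, Function.update_self]
      have hqn : ∀ c, c ≠ a → q c = p c := fun c hc => by rw [hq, Function.update_of_ne hc]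
      -- linear independence
      have hqi : LinearIndependent K q := by
        rw [Fintype.linearIndependent_iff] at hp ⊢
        intro g hg
        have h1 : ∑ i, (g i - if i = b then g a * r else 0) • p i = 0 := by
          rw [← hg]
          have h2 : ∀ i, (g i - if i = b then g a * r else 0) • p i =
              g i • p i - if i = b then (g a * r) • p b else 0 := by
            intro i
            rw [sub_smul]
            congr 1
            split_ifs with h
            · rw [h]
            · exact zero_smul _ _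
          have h3 : ∀ i, g i • q i = g i • p i - if i = a then (g a * r) • p b else 0 := by
            intro i
            by_cases h : i = a
            · rw [h, hqa, if_pos rfl, smul_sub, mul_smul, smul_eq_C_mul r]
            · rw [hqn i h, if_neg h, sub_zero]
          rw [Finset.sum_congr rfl fun i _ => h2 i, Finset.sum_congr rfl fun i _ => h3 i,
            Finset.sum_sub_distrib, Finset.sum_sub_distrib, Finset.sum_ite_eq', Finset.sum_ite_eq',
            if_pos (Finset.mem_univ _), if_pos (Finset.mem_univ _)]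
        have h4 := hp _ h1
        have h5 : g a = 0 := by
          have h6 := h4 a
          rwa [if_neg hne, sub_zero] at h6
        intro i
        have h6 := h4 i
        rw [h5, zero_mul, ite_self, sub_zero] at h6
        exact h6
      -- degrees
      have hdeg : (q a).natDegree < (p a).natDegree := by
        have h1 : degree (p a) = degree (C r * p b) := by
          rw [degree_C_mul hr0, degree_eq_natDegree (hp.ne_zero a),
            degree_eq_natDegree (hp.ne_zero b), hab]
        have h2 : leadingCoeff (p a) = leadingCoeff (C r * p b) := by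
          rw [leadingCoeff_mul, leadingCoeff_C, hr, div_mul_cancel₀ _ hb0]
        have h3 := degree_sub_lt_left h1 (hp.ne_zero a) h2
        rw [← hqa] at h3
        exact natDegree_lt_natDegree (hqi.ne_zero a) h3
      have hsum : ∑ c, (q c).natDegree < ∑ c, (p c).natDegree := by
        refine Finset.sum_lt_sum (fun c _ => ?_) ⟨a, Finset.mem_univ a, hdeg⟩
        by_cases h : c = a
        · rw [h]
          exact hdeg.le
        · rw [hqn c h]
      have hwr : wr q = wr p := by
        unfold wr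
        rw [← Matrix.det_updateRow_add_smul_self (Matrix.of fun a c : Fin k =>
          derivative^[(c : ℕ)] (p a)) hne (-C r)]
        congr 1
        ext1 i c
        by_cases h : i = a
        · subst h
          rw [Matrix.updateRow_self, Matrix.of_apply, hqa]
          simp only [Pi.add_apply, Pi.smul_apply, Matrix.of_apply, smul_eq_mul]
          rw [iterate_derivative_sub, iterate_derivative_C_mul]
          ring
        · rw [Matrix.updateRow_ne h, Matrix.of_apply, Matrix.of_apply, hqn i h]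
      rw [← hwr]
      exact ih q hqi (by omega)

theorem wr_ne_zero {K : Type*} [Field K] [CharZero K] {k n : ℕ} (u : Matrix (Fin k) (Fin n) K)
    (hu : FR u) : wr (rp u) ≠ 0 := by
  refine wr_ne_zero_aux (∑ a, (rp u a).natDegree + 1) (rp u) ?_ (by omega)
  rw [FR, Fintype.linearIndependent_iff] at hu
  rw [Fintype.linearIndependent_iff]
  intro g hg
  refine hu g ?_
  funext j
  have h1 := congrArg (fun p : K[X] => p.coeff (j : ℕ)) hg
  simp only [finsetSum_coeff, coeff_smul, coeff_zero] at h1
  rw [Finset.sum_apply]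
  refine Eq.trans (Finset.sum_congr rfl fun a _ => ?_) h1
  rw [Pi.smul_apply]
  congr 1
  unfold rp
  rw [finsetSum_coeff, Finset.sum_eq_single j]
  · rw [coeff_C_mul, coeff_X_pow, if_pos rfl, mul_one]
  · intro i _ hi
    rw [coeff_C_mul, coeff_X_pow, if_neg (fun h => hi (Fin.ext h.symm)), mul_zero]
  · intro h
    exact absurd (Finset.mem_univ j) h

/-! ### the operator `g ↦ (1 + X^2) g' - m X g` -/

private noncomputable def Lo (R : Type*) [CommRing R] (m : ℕ) : R[X] →ₗ[R] R[X] where
  toFun := fun g => (1 + X ^ 2) * derivative g - (m : R[X]) * X * g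
  map_add' := fun a b => by rw [derivative_add]; ring
  map_smul' := fun r a => by
    rw [derivative_smul, RingHom.id_apply, mul_smul_comm, mul_smul_comm, smul_sub]

private theorem Lo_apply {R : Type*} [CommRing R] (m : ℕ) (g : R[X]) :
    Lo R m g = (1 + X ^ 2) * derivative g - (m : R[X]) * X * g := rfl

private theorem Lo_mul {R : Type*} [CommRing R] (m : ℕ) (A q : R[X]) :
    Lo R m (A * q) = Lo R m A * q + (1 + X ^ 2) * A * derivative q := by
  rw [Lo_apply, Lo_apply, derivative_mul]
  ring

private noncomputable def Ac (R : Type*) [CommRing R] (m : ℕ) : ℕ → ℕ → R[X]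
  | 0, 0 => 1
  | 0, _ + 1 => 0
  | c + 1, 0 => Lo R m (Ac R m c 0)
  | c + 1, e + 1 => Lo R m (Ac R m c (e + 1)) + (1 + X ^ 2) * Ac R m c e

private theorem Ac_zero {R : Type*} [CommRing R] (m : ℕ) : ∀ c e : ℕ, c < e → Ac R m c e = 0 := by
  intro c
  induction c with
  | zero =>
    intro e he
    obtain ⟨e, rfl⟩ : ∃ e', e = e' + 1 := ⟨e - 1, by omega⟩
    rw [Ac]
  | succ c ih =>
    intro e he
    obtain ⟨e, rfl⟩ : ∃ e', e = e' + 1 := ⟨e - 1, by omega⟩
    rw [Ac, ih _ (by omega), ih _ (by omega), map_zero, mul_zero, add_zero]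

private theorem Ac_diag {R : Type*} [CommRing R] (m : ℕ) :
    ∀ c : ℕ, Ac R m c c = (1 + X ^ 2) ^ c := by
  intro c
  induction c with
  | zero => rw [Ac, pow_zero]
  | succ c ih =>
    rw [Ac, Ac_zero m c (c + 1) (by omega), ih, map_zero, zero_add]
    exact (pow_succ' (1 + X ^ 2 : R[X]) c).symm

private theorem Lo_pow {R : Type*} [CommRing R] (m : ℕ) (p : R[X]) : ∀ c N : ℕ, c < N →
    (Lo R m ^ c) p = ∑ e ∈ Finset.range N, Ac R m c e * derivative^[e] p := by
  intro c
  induction c with
  | zero =>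
    intro N hN
    obtain ⟨N, rfl⟩ : ∃ N', N = N' + 1 := ⟨N - 1, by omega⟩
    rw [Finset.sum_range_succ', Finset.sum_eq_zero (fun e _ => by rw [Ac, zero_mul]), Ac]
    simp
  | succ c ih =>
    intro N hN
    obtain ⟨N, rfl⟩ : ∃ N', N = N' + 1 := ⟨N - 1, by omega⟩
    have h1 : (Lo R m ^ (c + 1)) p = Lo R m ((Lo R m ^ c) p) := by
      rw [pow_succ']
      rfl
    rw [h1, ih N (by omega), map_sum, Finset.sum_range_succ']
    have h2 : ∀ e, Lo R m (Ac R m c e * derivative^[e] p) =
        Lo R m (Ac R m c e) * derivative^[e] p +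
          (1 + X ^ 2) * Ac R m c e * derivative^[e + 1] p := by
      intro e
      rw [Lo_mul, Function.iterate_succ_apply']
    have h3 : ∀ e, Ac R m (c + 1) (e + 1) * derivative^[e + 1] p =
        Lo R m (Ac R m c (e + 1)) * derivative^[e + 1] p +
          (1 + X ^ 2) * Ac R m c e * derivative^[e + 1] p := by
      intro e
      rw [Ac]
      ring
    rw [Finset.sum_congr rfl fun e _ => h2 e, Finset.sum_congr rfl fun e _ => h3 e,
      Finset.sum_add_distrib, Finset.sum_add_distrib]
    have h4 : ∑ e ∈ Finset.range N, Lo R m (Ac R m c e) * derivative^[e] p =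
        ∑ e ∈ Finset.range (N + 1), Lo R m (Ac R m c e) * derivative^[e] p := by
      rw [Finset.sum_range_succ, Ac_zero m c N (by omega), map_zero, zero_mul, add_zero]
    rw [h4, Finset.sum_range_succ']
    have h5 : Ac R m (c + 1) 0 = Lo R m (Ac R m c 0) := by rw [Ac]
    rw [h5]
    ring

private theorem det_Lo {R : Type*} [CommRing R] {k : ℕ} (m : ℕ) (p : Fin k → R[X]) :
    (Matrix.of fun a c : Fin k => (Lo R m ^ (c : ℕ)) (p a)).det =
      wr p * ∏ c : Fin k, (1 + X ^ 2) ^ (c : ℕ) := by
  have h1 : (Matrix.of fun a c : Fin k => (Lo R m ^ (c : ℕ)) (p a)) =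
      (Matrix.of fun a e : Fin k => derivative^[(e : ℕ)] (p a)) *
        Matrix.of fun e c : Fin k => Ac R m c e := by
    ext1 a c
    rw [Matrix.mul_apply, Matrix.of_apply, Lo_pow m (p a) c k c.2]
    rw [← Fin.sum_univ_eq_sum_range (fun e => Ac R m c e * derivative^[e] (p a)) k]
    refine Finset.sum_congr rfl fun e _ => ?_
    rw [mul_comm]
    rfl
  have h2 : (Matrix.of fun e c : Fin k => Ac R m c e).det =
      ∏ c : Fin k, (1 + X ^ 2 : R[X]) ^ (c : ℕ) := by
    rw [Matrix.det_of_isUpperTriangular]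
    · refine Finset.prod_congr rfl fun c _ => ?_
      exact Ac_diag m c
    · intro e c hec
      exact Ac_zero m c e hec
  rw [h1, Matrix.det_mul, h2]
  rfl

private theorem Lo_map {R S : Type*} [CommRing R] [CommRing S] (f : R →+* S) (m : ℕ) (p : R[X]) :
    ∀ c : ℕ, ((Lo R m ^ c) p).map f = (Lo S m ^ c) (p.map f) := by
  intro c
  induction c with
  | zero => simp
  | succ c ih =>
    rw [pow_succ', pow_succ']
    change (Lo R m ((Lo R m ^ c) p)).map f = Lo S m ((Lo S m ^ c) (p.map f))
    rw [← ih, Lo_apply, Lo_apply]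
    simp [derivative_map]

/-! ### derivatives of the rational normal curve -/

private theorem has_tan {x : ℝ} (hx : Real.cos x ≠ 0) (m : ℕ) (g : ℝ[X]) :
    HasDerivAt (fun y => Real.cos y ^ m * g.eval (Real.tan y))
      (Real.cos x ^ m * (Lo ℝ m g).eval (Real.tan x)) x := by
  have h1 := (Real.hasDerivAt_cos x).pow m
  have h2 := (g.hasDerivAt (Real.tan x)).comp x (Real.hasDerivAt_tan hx)
  have h3 := h1.mul h2
  refine h3.congr_deriv ?_
  rw [Lo_apply]
  simp only [eval_sub, eval_mul, eval_add, eval_one, eval_pow, eval_X, eval_natCast,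
    Function.comp_apply, Pi.pow_apply]
  have ht : Real.tan x * Real.cos x = Real.sin x := Real.tan_mul_cos hx
  have hs : 1 / Real.cos x ^ 2 = 1 + Real.tan x ^ 2 := by
    rw [Real.tan_eq_sin_div_cos]
    field_simp
    linarith [Real.sin_sq_add_cos_sq x]
  rw [hs, ← ht]
  rcases m with _ | m
  · simp
    ring
  · rw [Nat.add_sub_cancel, pow_succ]
    ring

private theorem iter_rnc (n : ℕ) (c : ℕ) : ∀ x : ℝ, Real.cos x ≠ 0 →
    iteratedDeriv c (rnc n) x = fun j : Fin n =>
      Real.cos x ^ (n - 1) * ((Lo ℝ (n - 1) ^ c) (X ^ (j : ℕ))).eval (Real.tan x) := by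
  induction c with
  | zero =>
    intro x hx
    rw [iteratedDeriv_zero]
    funext j
    have h1 : n - 1 = (n - 1 - (j : ℕ)) + (j : ℕ) := by omega
    have h2 : Real.sin x = Real.tan x * Real.cos x := (Real.tan_mul_cos hx).symm
    unfold rnc
    simp only [pow_zero, Module.End.one_apply, eval_pow, eval_X]
    rw [h2, mul_pow]
    conv_rhs => rw [h1, pow_add]
    ring
  | succ c ih =>
    intro x hx
    rw [iteratedDeriv_succ]
    have hev : iteratedDeriv c (rnc n) =ᶠ[nhds x] fun y => fun j : Fin n =>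
        Real.cos y ^ (n - 1) * ((Lo ℝ (n - 1) ^ c) (X ^ (j : ℕ))).eval (Real.tan y) := by
      have h1 : ∀ᶠ y in nhds x, Real.cos y ≠ 0 :=
        Real.continuous_cos.continuousAt.eventually_ne hx
      exact h1.mono fun y hy => ih y hy
    rw [hev.deriv_eq]
    refine HasDerivAt.deriv (hasDerivAt_pi.2 fun j => ?_)
    have h2 := has_tan hx (n - 1) ((Lo ℝ (n - 1) ^ c) (X ^ (j : ℕ)))
    have h3 : (Lo ℝ (n - 1) ^ (c + 1)) (X ^ (j : ℕ)) =
        Lo ℝ (n - 1) ((Lo ℝ (n - 1) ^ c) (X ^ (j : ℕ))) := by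
      rw [pow_succ']
      rfl
    rw [h3]
    exact h2

private theorem smooth_rnc (n : ℕ) : ContDiff ℝ (⊤ : ℕ∞) (rnc n) := by
  refine contDiff_pi.2 fun j => ?_
  exact (Real.contDiff_cos.pow _).mul (Real.contDiff_sin.pow _)

private theorem lf_cos {k l : ℕ} (u : Matrix (Fin k) (Fin (k + l)) ℂ) {x : ℝ}
    (hx : Real.cos x ≠ 0) : lf (cc (wf k (rnc (k + l)) x)) u =
      (Real.cos x : ℂ) ^ (k * l) * (wr (rp u)).eval (Real.tan x : ℂ) := by
  obtain ⟨m, hm⟩ : ∃ m, m = k + l - 1 := ⟨_, rfl⟩
  have h1 : cc (wf k (rnc (k + l)) x) = fun t => ∏ a : Fin k,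
      (Matrix.of fun (j : Fin (k + l)) (c : Fin k) =>
        ((iteratedDeriv (c : ℕ) (rnc (k + l)) x j : ℝ) : ℂ)) (t a) a := by
    funext t
    unfold cc wf
    push_cast
    rfl
  have h2 : ∀ (j : Fin (k + l)) (c : Fin k),
      ((iteratedDeriv (c : ℕ) (rnc (k + l)) x j : ℝ) : ℂ) =
        (Real.cos x : ℂ) ^ m * ((Lo ℂ m ^ (c : ℕ)) (X ^ (j : ℕ))).eval (Real.tan x : ℂ) := by
    intro j c
    rw [iter_rnc (k + l) c x hx, ← hm]
    have h3 := Lo_map Complex.ofRealHom m (X ^ (j : ℕ) : ℝ[X]) (c : ℕ)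
    rw [Polynomial.map_pow, map_X] at h3
    rw [← h3, eval_map]
    have h4 : eval₂ Complex.ofRealHom (Real.tan x : ℂ) ((Lo ℝ m ^ (c : ℕ)) (X ^ (j : ℕ))) =
        ((eval (Real.tan x) ((Lo ℝ m ^ (c : ℕ)) (X ^ (j : ℕ))) : ℝ) : ℂ) :=
      (eval₂_at_apply Complex.ofRealHom (Real.tan x))
    rw [h4]
    push_cast
    rfl
  rw [h1, GTC.lf_prod]
  have h5 : (u * Matrix.of fun (j : Fin (k + l)) (c : Fin k) =>
        ((iteratedDeriv (c : ℕ) (rnc (k + l)) x j : ℝ) : ℂ)) =
      (Real.cos x : ℂ) ^ m • (Matrix.of fun a c : Fin k =>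
        ((Lo ℂ m ^ (c : ℕ)) (rp u a)).eval (Real.tan x : ℂ)) := by
    ext1 a c
    rw [Matrix.mul_apply, Matrix.smul_apply, Matrix.of_apply]
    have h6 : (Lo ℂ m ^ (c : ℕ)) (rp u a) =
        ∑ j : Fin (k + l), u a j • (Lo ℂ m ^ (c : ℕ)) (X ^ (j : ℕ)) := by
      unfold rp
      rw [map_sum]
      refine Finset.sum_congr rfl fun j _ => ?_
      rw [← smul_eq_C_mul, map_smul]
    rw [h6, eval_finsetSum, smul_eq_mul, Finset.mul_sum]
    refine Finset.sum_congr rfl fun j _ => ?_
    rw [Matrix.of_apply, h2 j c, eval_smul, smul_eq_mul]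
    ring
  have h7 : (Matrix.of fun a c : Fin k =>
        ((Lo ℂ m ^ (c : ℕ)) (rp u a)).eval (Real.tan x : ℂ)).det =
      (wr (rp u)).eval (Real.tan x : ℂ) * ∏ c : Fin k, (1 + (Real.tan x : ℂ) ^ 2) ^ (c : ℕ) := by
    have h8 := congrArg (eval (Real.tan x : ℂ)) (det_Lo m (rp u))
    rw [eval_mul, eval_prod] at h8
    simp only [eval_pow, eval_add, eval_one, eval_X] at h8
    rw [← h8]
    exact ((evalRingHom (Real.tan x : ℂ)).map_det _).symm
  rw [h5, Matrix.det_smul, h7, Fintype.card_fin]
  have hc : (Real.cos x : ℂ) ≠ 0 := by exact_mod_cast hx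
  have h9 : (1 + (Real.tan x : ℂ) ^ 2) * (Real.cos x : ℂ) ^ 2 = 1 := by
    have h10 : (1 + Real.tan x ^ 2) * Real.cos x ^ 2 = 1 := by
      have ht : Real.tan x * Real.cos x = Real.sin x := Real.tan_mul_cos hx
      calc (1 + Real.tan x ^ 2) * Real.cos x ^ 2 =
          Real.cos x ^ 2 + (Real.tan x * Real.cos x) ^ 2 := by ring
        _ = 1 := by rw [ht]; linarith [Real.sin_sq_add_cos_sq x]
    exact_mod_cast h10
  have h11 : ((Real.cos x : ℂ) ^ m) ^ k =
      (Real.cos x : ℂ) ^ (k * l) * ∏ c : Fin k, ((Real.cos x : ℂ) ^ 2) ^ (c : ℕ) := by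
    rw [Finset.prod_pow_eq_pow_sum, ← pow_mul, ← pow_mul, ← pow_add,
      Fin.sum_univ_eq_sum_range (fun i => i) k]
    congr 1
    have h12 := sum_odd k
    have h13 : ∑ i ∈ Finset.range k, (i + 1) = ∑ i ∈ Finset.range k, i + k := by
      rw [Finset.sum_add_distrib, Finset.sum_const, Finset.card_range, smul_eq_mul, mul_one]
    rcases k with _ | k
    · simp
    · rw [hm]
      rw [h13] at h12
      have h14 : k + 1 + l - 1 = k + l := by omega
      rw [h14]
      nlinarith
  rw [h11]
  have h15 : (∏ c : Fin k, ((Real.cos x : ℂ) ^ 2) ^ (c : ℕ)) *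
      ∏ c : Fin k, (1 + (Real.tan x : ℂ) ^ 2) ^ (c : ℕ) = 1 := by
    rw [← Finset.prod_mul_distrib]
    refine Finset.prod_eq_one fun c _ => ?_
    rw [← mul_pow, mul_comm, h9, one_pow]
  calc (Real.cos x : ℂ) ^ (k * l) * (∏ c : Fin k, ((Real.cos x : ℂ) ^ 2) ^ (c : ℕ)) *
        ((wr (rp u)).eval (Real.tan x : ℂ) * ∏ c : Fin k, (1 + (Real.tan x : ℂ) ^ 2) ^ (c : ℕ)) =
      (Real.cos x : ℂ) ^ (k * l) * (wr (rp u)).eval (Real.tan x : ℂ) *
        ((∏ c : Fin k, ((Real.cos x : ℂ) ^ 2) ^ (c : ℕ)) *
          ∏ c : Fin k, (1 + (Real.tan x : ℂ) ^ 2) ^ (c : ℕ)) := by ring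
    _ = _ := by rw [h15, mul_one]

private theorem sum_cos {K : Type*} [Field K] (p : K[X]) (N : ℕ) (hp : p.natDegree ≤ N)
    (c s t : K) (hs : s = t * c) :
    ∑ j ∈ Finset.range (N + 1), p.coeff j * (c ^ (N - j) * s ^ j) = c ^ N * p.eval t := by
  rw [eval_eq_sum_range' (lt_of_le_of_lt hp (Nat.lt_succ_self N)), Finset.mul_sum]
  refine Finset.sum_congr rfl fun j hj => ?_
  have h1 : N = (N - j) + j := by
    have := Finset.mem_range.1 hj
    omega
  rw [hs, mul_pow]
  conv_rhs => rw [h1, pow_add]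
  have h2 : N - j + j - j = N - j := by omega
  ring

theorem lf_rnc {k l : ℕ} (u : Matrix (Fin k) (Fin (k + l)) ℂ) (x : ℝ) :
    lf (cc (wf k (rnc (k + l)) x)) u = ∑ j ∈ Finset.range (k * l + 1),
      (wr (rp u)).coeff j * ((Real.cos x : ℂ) ^ (k * l - j) * (Real.sin x : ℂ) ^ j) := by
  have hL : Continuous fun x : ℝ => lf (cc (wf k (rnc (k + l)) x)) u := by
    unfold lf cc wf
    refine continuous_finsetSum _ fun t _ => ?_
    refine Continuous.mul ?_ continuous_const
    refine Complex.continuous_ofReal.comp ?_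
    refine continuous_finsetProd _ fun a _ => ?_
    have h1 : Continuous (iteratedDeriv (a : ℕ) (rnc (k + l))) :=
      (smooth_rnc (k + l)).continuous_iteratedDeriv (a : ℕ) (by exact_mod_cast le_top)
    exact (continuous_apply (t a)).comp h1
  have hR : Continuous fun x : ℝ => ∑ j ∈ Finset.range (k * l + 1),
      (wr (rp u)).coeff j * ((Real.cos x : ℂ) ^ (k * l - j) * (Real.sin x : ℂ) ^ j) := by
    refine continuous_finsetSum _ fun j _ => ?_
    refine Continuous.mul continuous_const (Continuous.mul ?_ ?_)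
    · exact (Complex.continuous_ofReal.comp Real.continuous_cos).pow _
    · exact (Complex.continuous_ofReal.comp Real.continuous_sin).pow _
  have hD : Dense {x : ℝ | Real.cos x ≠ 0} := by
    have h1 : {x : ℝ | Real.cos x = 0} ⊆ Set.range fun n : ℤ => (2 * (n : ℝ) + 1) * Real.pi / 2 := by
      intro x hx
      obtain ⟨n, hn⟩ := Real.cos_eq_zero_iff.1 hx
      exact ⟨n, hn.symm⟩
    exact ((Set.countable_range _).mono h1).dense_compl ℝ
  have h2 := Continuous.ext_on hD hL hR (fun x hx => by
    rw [lf_cos u hx]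
    refine (sum_cos (wr (rp u)) (k * l) (wr_natDegree u) (Real.cos x : ℂ) (Real.sin x : ℂ)
      (Real.tan x : ℂ) ?_).symm
    have h3 : Real.sin x = Real.tan x * Real.cos x := (Real.tan_mul_cos hx).symm
    exact_mod_cast h3)
  exact congrFun h2 x

theorem lf_rnc_real {k l : ℕ} (u : Matrix (Fin k) (Fin (k + l)) ℝ) (x : ℝ) :
    lf (wf k (rnc (k + l)) x) u = ∑ j ∈ Finset.range (k * l + 1),
      (wr (rp u)).coeff j * (Real.cos x ^ (k * l - j) * Real.sin x ^ j) := by
  have h1 := lf_rnc (u.map Complex.ofRealHom) x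
  have h2 : lf (cc (wf k (rnc (k + l)) x)) (u.map Complex.ofRealHom) =
      ((lf (wf k (rnc (k + l)) x) u : ℝ) : ℂ) :=
    (GTC.lf_map Complex.ofRealHom (wf k (rnc (k + l)) x) u).symm
  have h3 : ∀ j, (wr (rp (u.map Complex.ofRealHom))).coeff j = (((wr (rp u)).coeff j : ℝ) : ℂ) := by
    intro j
    have h4 : wr (rp (u.map Complex.ofRealHom)) = (wr (rp u)).map Complex.ofRealHom := by
      have h5 : ∀ a, rp (u.map Complex.ofRealHom) a = (rp u a).map Complex.ofRealHom := by
        intro a
        unfold rp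
        rw [Polynomial.map_sum]
        refine Finset.sum_congr rfl fun j _ => ?_
        simp
      unfold wr
      rw [← coe_mapRingHom, RingHom.map_det]
      congr 1
      ext1 a c
      rw [Matrix.of_apply, h5, iterate_derivative_map]
      rfl
    rw [h4, coeff_map]
    rfl
  rw [h2] at h1
  simp only [h3] at h1
  exact_mod_cast h1

/-- for `cos x ≠ 0` -/
theorem lf_rnc_tan {k l : ℕ} (u : Matrix (Fin k) (Fin (k + l)) ℝ) {x : ℝ} (hx : Real.cos x ≠ 0) :
    lf (wf k (rnc (k + l)) x) u = Real.cos x ^ (k * l) * (wr (rp u)).eval (Real.tan x) := by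
  rw [lf_rnc_real]
  exact sum_cos (wr (rp u)) (k * l) (wr_natDegree u) (Real.cos x) (Real.sin x) (Real.tan x)
    (Real.tan_mul_cos hx).symm

/-- the rows of `uw w z` are the polynomials `qp w z`. -/
theorem rp_uw {k l : ℕ} {w : Fin (k * l) → Fin k} (hw : IsWord w) (z : Fin (k * l) → ℝ) :
    rp (uw w z) = qp w z := by
  funext a
  have hcard : (Finset.univ.filter fun r : Fin (k * l) => w r = a).card = l := by
    refine Eq.trans ?_ (hw.full a)
    unfold cnt
    congr 1
    ext r
    simp
  have hdeg : (qp w z a).natDegree < k + l := by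
    unfold qp
    have h1 := natDegree_mul_le (p := (X : ℝ[X]) ^ (a : ℕ))
      (q := ∏ r ∈ Finset.univ.filter (fun r => w r = a), (C (z r) - X))
    have h2 : ((X : ℝ[X]) ^ (a : ℕ)).natDegree ≤ (a : ℕ) := natDegree_X_pow_le _
    have h3 := natDegree_prod_le (Finset.univ.filter (fun r => w r = a))
      (fun r => (C (z r) - X : ℝ[X]))
    have h4 : ∑ r ∈ Finset.univ.filter (fun r => w r = a), (C (z r) - X : ℝ[X]).natDegree ≤ l := by
      refine le_trans ?_ hcard.le
      rw [Finset.card_eq_sum_ones]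
      refine Finset.sum_le_sum fun r _ => ?_
      refine (natDegree_sub_le _ _).trans ?_
      rw [natDegree_C, natDegree_X]
      exact le_of_eq (by norm_num)
    have h5 := a.2
    omega
  conv_rhs => rw [as_sum_range_C_mul_X_pow' (qp w z a) hdeg]
  rw [← Fin.sum_univ_eq_sum_range (fun j => C ((qp w z a).coeff j) * X ^ j) (k + l)]
  rfl

end GTR
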