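import Pool.Agent.GTR.WIft
import Pool.Agent.GTR.WDist
import Pool.Agent.GTR.WTan
import Pool.Agent.GTR.WJac

/-!
# GTR WSol : the word solutions of the problem `t_r = arctan (d^(N - r))` (6.1, 6.2)

Take `δ` smaller than the `δ` of `word_sol` for all words (finitely many) and than the one of
`distinct`, `δ ≤ 1`, and so small that `z = zz d y` is strictly increasing for `y` in the boxes
(`z_r = d^(N-r) y_r`, `d * 2 C0 < c0 / 2`, with `0 < c0 ≤ y0 w r ≤ C0` for all words). `t r ∈ (0, π/2)`,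
`tan (t r) = d^(N-r)`, `cos (t r) > 0`; `t` is injective. `lf (wf k rnc (t r)) (uw w z) =
cos^(kl) (t r) (wr (qp w z)).eval (d^(N-r)) = cos^(kl) (t r) c_r Gf w y d r` (`lf_rnc_tan`, `rp_uw`,
`scale`; `c_r > 0` does not depend on `y`). So it is a solution and
`Dz (sp k rnc t) w z r s = cos^(kl) (t r) c_r (Gj w y d) r s / d^(N-s)`, because
`zz d (update y s v) = update (zz d y) s (d^(N-s) v)`; `det Dz` is a positive multiple of `det Gj`, of
sign `∏ (-1)^r`. `jac_sign` gives the sign of `JJ`.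
-/

set_option autoImplicit false

open Polynomial

namespace GTR

open GTC

/-- the start problem. -/
noncomputable def t0 (N : ℕ) (d : ℝ) (r : Fin N) : ℝ := Real.arctan (d ^ (N - (r : ℕ)))

private theorem t0_pos {N : ℕ} {d : ℝ} (hd : 0 < d) (r : Fin N) : 0 < t0 N d r := by
  unfold t0
  rw [← Real.arctan_zero]
  exact Real.arctan_strictMono (by positivity)

private theorem t0_lt {N : ℕ} {d : ℝ} (r : Fin N) : t0 N d r < Real.pi / 2 :=
  Real.arctan_lt_pi_div_two _

private theorem t0_mono {N : ℕ} {d : ℝ} (hd : 0 < d) (hd1 : d < 1) : StrictMono (t0 N d) := by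
  intro r s hrs
  unfold t0
  apply Real.arctan_strictMono
  apply pow_lt_pow_right_of_lt_one₀ hd hd1
  have h1 := r.2
  have h2 := s.2
  have h3 : (r : ℕ) < s := hrs
  omega

/-- the value of the equations. -/
private theorem lf_uw {k l : ℕ} {w : Fin (k * l) → Fin k} (hw : IsWord w) {d : ℝ} (hd : 0 < d)
    (r : Fin (k * l)) : ∃ K : ℝ, 0 < K ∧ ∀ y : Fin (k * l) → ℝ,
      lf (wf k (rnc (k + l)) (t0 (k * l) d r)) (uw w (zz d y)) = K * Gf w y d r := by
  obtain ⟨c, hc, h⟩ := scale w hd r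
  have hcos : 0 < Real.cos (t0 (k * l) d r) :=
    Real.cos_pos_of_mem_Ioo ⟨by have := t0_pos (N := k * l) hd r; linarith [Real.pi_pos], t0_lt r⟩
  refine ⟨Real.cos (t0 (k * l) d r) ^ (k * l) * c, by positivity, fun y => ?_⟩
  rw [lf_rnc_tan _ hcos.ne', rp_uw hw]
  unfold t0
  rw [Real.tan_arctan, h y]
  ring

private theorem Dz_det {k l : ℕ} {w : Fin (k * l) → Fin k} (hw : IsWord w) {d : ℝ} (hd : 0 < d)
    (y : Fin (k * l) → ℝ) : ∃ K : ℝ, 0 < K ∧
      (Dz (sp k (rnc (k + l)) (t0 (k * l) d)) w (zz d y)).det = K * (Gj w y d).det := by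
  choose K hK h using fun r => lf_uw hw hd r
  refine ⟨(∏ r, K r) * ∏ s : Fin (k * l), (d ^ (k * l - (s : ℕ)))⁻¹,
    mul_pos (Finset.prod_pos fun r _ => hK r) (Finset.prod_pos fun s _ => by positivity), ?_⟩
  have hM : Dz (sp k (rnc (k + l)) (t0 (k * l) d)) w (zz d y) =
      Matrix.diagonal K * Gj w y d *
        Matrix.diagonal (fun s : Fin (k * l) => (d ^ (k * l - (s : ℕ)))⁻¹) := by
    ext r s
    rw [Matrix.mul_diagonal, Matrix.diagonal_mul]
    unfold Dz Gj sp
    have hds : d ^ (k * l - (s : ℕ)) ≠ 0 := by positivity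
    have e : (fun v => lf (wf k (rnc (k + l)) (t0 (k * l) d r))
        (uw w (Function.update (zz d y) s v))) =
        fun v => K r * (fun v' => Gf w (Function.update y s v') d r)
          ((d ^ (k * l - (s : ℕ)))⁻¹ * v) := by
      funext v
      simp only
      rw [← h r]
      congr 2
      funext i
      by_cases hi : i = s
      · subst hi
        simp only [Function.update_self, zz]
        rw [mul_inv_cancel_left₀ hds]
      · simp only [Function.update_of_ne hi, zz]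
    have e3 := deriv_comp_mul_left ((d ^ (k * l - (s : ℕ)))⁻¹)
      (fun v' => Gf w (Function.update y s v') d r) (zz d y s)
    rw [e, deriv_const_mul_field, e3]
    have e2 : (d ^ (k * l - (s : ℕ)))⁻¹ * zz d y s = y s := by
      unfold zz
      rw [inv_mul_cancel_left₀ hds]
    rw [e2, smul_eq_mul]
    ring
  rw [hM, Matrix.det_mul, Matrix.det_mul, Matrix.det_diagonal, Matrix.det_diagonal]
  ring

/-- uniform bounds of `y0`. -/
private theorem y0_bounds (k l : ℕ) : ∃ c0 C0 : ℝ, 0 < c0 ∧ 0 < C0 ∧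
    ∀ w : Fin (k * l) → Fin k, IsWord w → ∀ r, c0 ≤ y0 w r ∧ y0 w r ≤ C0 := by
  classical
  obtain ⟨B, hB⟩ := (Set.finite_range (fun p : {w : Fin (k * l) → Fin k // IsWord w} ×
    Fin (k * l) => y0 p.1.1 p.2)).bddAbove
  obtain ⟨B', hB'⟩ := (Set.finite_range (fun p : {w : Fin (k * l) → Fin k // IsWord w} ×
    Fin (k * l) => (y0 p.1.1 p.2)⁻¹)).bddAbove
  refine ⟨(max B' 1)⁻¹, max B 1, by positivity, by positivity, fun w hw r => ⟨?_, ?_⟩⟩
  · have h1 : (y0 w r)⁻¹ ≤ max B' 1 := (hB' ⟨(⟨w, hw⟩, r), rfl⟩).trans (le_max_left _ _)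
    exact inv_le_of_inv_le₀ (y0_pos hw r) h1
  · exact (hB ⟨(⟨w, hw⟩, r), rfl⟩).trans (le_max_left _ _)

theorem word_solutions (k l : ℕ) : ∃ s : ℝ, (s = 1 ∨ s = -1) ∧ ∃ C > 0, ∃ δ > 0, ∀ d : ℝ,
    0 < d → d < δ → GTC.Simple (t0 (k * l) d) ∧ StrictMono (t0 (k * l) d) ∧
    (∀ r, t0 (k * l) d r < Real.pi / 2) ∧
    ∃ Z : (Fin (k * l) → Fin k) → Fin (k * l) → ℝ,
      (∀ w, IsWord w → (∀ r, 0 < Z w r ∧ Z w r < C * d ^ (k * l - (r : ℕ))) ∧
        (∀ r s, r < s → Z w r ≤ C * d * Z w s) ∧ StrictMono (Z w) ∧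
        IsSol (sp k (rnc (k + l)) (t0 (k * l) d)) (uw w (Z w)) ∧
        0 < s * (-1) ^ inv w * JJ (sp k (rnc (k + l)) (t0 (k * l) d)) (uw w (Z w))) ∧
      (∀ w w', IsWord w → IsWord w' → rs (cm (uw w (Z w))) = rs (cm (uw w' (Z w'))) → w = w') := by
  classical
  obtain ⟨c0, C0, hc0, hC0, hcC⟩ := y0_bounds k l
  obtain ⟨δ1, hδ1, hdist⟩ := distinct k l
  obtain ⟨s1, hs1, hjac⟩ := jac_sign k l
  -- the sign of `∏ (-1)^r`
  obtain ⟨e0, he0⟩ : ∃ e0 : ℝ, e0 = ∏ r : Fin (k * l), (-1 : ℝ) ^ (r : ℕ) := ⟨_, rfl⟩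
  have he1 : e0 = 1 ∨ e0 = -1 := by
    rw [he0, Finset.prod_pow_eq_pow_sum]
    exact neg_one_pow_eq_or ℝ _
  have hall : ∀ᶠ d : ℝ in nhdsWithin 0 (Set.Ioi 0), ∀ w : Fin (k * l) → Fin k, IsWord w →
      ∃ y : Fin (k * l) → ℝ, (∀ r, y0 w r / 2 < y r ∧ y r < 2 * y0 w r) ∧
        (∀ r, Gf w y d r = 0) ∧ 0 < (∏ r : Fin (k * l), (-1 : ℝ) ^ (r : ℕ)) * (Gj w y d).det := by
    rw [Filter.eventually_all]
    intro w
    by_cases hw : IsWord w
    · obtain ⟨δ, hδ, h⟩ := word_sol hw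
      filter_upwards [Ioo_mem_nhdsGT hδ] with d hd _
      exact h d hd.1 hd.2
    · exact Filter.Eventually.of_forall fun d h => absurd h hw
  obtain ⟨δ2, hδ2, hall'⟩ := mem_nhdsGT_iff_exists_Ioo_subset.1 hall
  have hδ2' : (0 : ℝ) < δ2 := hδ2
  have hCpos : 0 < 2 * C0 + 4 * C0 / c0 := by positivity
  refine ⟨s1 * e0, ?_, 2 * C0 + 4 * C0 / c0, hCpos,
    min (min δ1 δ2) (min 1 (c0 / (4 * C0))), by positivity, fun d hd hdδ => ?_⟩
  · rcases hs1 with rfl | rfl <;> rcases he1 with h | h <;> rw [h] <;> norm_num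
  have hd1 : d < δ1 := hdδ.trans_le ((min_le_left _ _).trans (min_le_left _ _))
  have hd2 : d < δ2 := hdδ.trans_le ((min_le_left _ _).trans (min_le_right _ _))
  have hd3 : d < 1 := hdδ.trans_le ((min_le_right _ _).trans (min_le_left _ _))
  have hd4 : d < c0 / (4 * C0) := hdδ.trans_le ((min_le_right _ _).trans (min_le_right _ _))
  have hd5 : d * (2 * C0) < c0 / 2 := by
    rw [lt_div_iff₀ (by positivity)] at hd4
    linarith
  have hmono := t0_mono (N := k * l) hd hd3
  refine ⟨⟨hmono.injective, fun r => ⟨t0_pos hd r, ?_⟩⟩, hmono, fun r => t0_lt r, ?_⟩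
  · have := t0_lt (N := k * l) (d := d) r
    linarith [Real.pi_pos]
  have hy : ∀ w : Fin (k * l) → Fin k, ∃ y : Fin (k * l) → ℝ, IsWord w →
      (∀ r, y0 w r / 2 < y r ∧ y r < 2 * y0 w r) ∧
        (∀ r, Gf w y d r = 0) ∧ 0 < e0 * (Gj w y d).det := by
    intro w
    by_cases hw : IsWord w
    · obtain ⟨y, h⟩ := hall' ⟨hd, hd2⟩ w hw
      exact ⟨y, fun _ => by rw [he0]; exact h⟩
    · exact ⟨0, fun h => absurd h hw⟩
  choose y hy using hy
  refine ⟨fun w => zz d (y w), fun w hw => ?_, fun w w' hw hw' h => ?_⟩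
  · obtain ⟨hb, hG, hJ⟩ := hy w hw
    have hlow : ∀ r, c0 / 2 < y w r := fun r => by
      have h1 := (hcC w hw r).1
      have h2 := (hb r).1
      linarith
    have hup : ∀ r, y w r < 2 * C0 := fun r => by
      have h1 := (hcC w hw r).2
      have h2 := (hb r).2
      linarith
    have hzpos : ∀ r, 0 < zz d (y w) r := fun r => by
      have := hlow r
      unfold zz
      have : 0 < y w r := by linarith
      positivity
    have hstep : ∀ r s, r < s → zz d (y w) r < d * (2 * C0) * d ^ (k * l - (s : ℕ)) := by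
      intro r s hrs
      have h1 : zz d (y w) r < d ^ (k * l - (r : ℕ)) * (2 * C0) := by
        unfold zz
        exact mul_lt_mul_of_pos_left (hup r) (by positivity)
      have h2 : d ^ (k * l - (r : ℕ)) ≤ d ^ (k * l - (s : ℕ) + 1) := by
        apply pow_le_pow_of_le_one hd.le hd3.le
        have h1 := r.2
        have h2 := s.2
        have h3 : (r : ℕ) < s := hrs
        omega
      calc zz d (y w) r < d ^ (k * l - (r : ℕ)) * (2 * C0) := h1
        _ ≤ d ^ (k * l - (s : ℕ) + 1) * (2 * C0) :=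
            mul_le_mul_of_nonneg_right h2 (by positivity)
        _ = d * (2 * C0) * d ^ (k * l - (s : ℕ)) := by ring
    have hlow' : ∀ s : Fin (k * l), c0 / 2 * d ^ (k * l - (s : ℕ)) < zz d (y w) s := fun s => by
      unfold zz
      rw [mul_comm]
      exact mul_lt_mul_of_pos_left (hlow s) (by positivity)
    have hzmono : StrictMono (zz d (y w)) := by
      intro r s hrs
      refine (hstep r s hrs).trans (lt_trans ?_ (hlow' s))
      exact mul_lt_mul_of_pos_right hd5 (by positivity)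
    have hsol : ∀ r, lf (wf k (rnc (k + l)) (t0 (k * l) d r)) (uw w (zz d (y w))) = 0 := by
      intro r
      obtain ⟨K, _, h⟩ := lf_uw hw hd r
      rw [h, hG r, mul_zero]
    refine ⟨fun r => ⟨hzpos r, ?_⟩, fun r s hrs => ?_, hzmono, ⟨uw_fr hw, hsol⟩, ?_⟩
    · have h1 : d ^ (k * l - (r : ℕ)) * y w r <
          d ^ (k * l - (r : ℕ)) * (2 * C0 + 4 * C0 / c0) := by
        refine mul_lt_mul_of_pos_left ((hup r).trans_le ?_) (by positivity)
        have : 0 ≤ 4 * C0 / c0 := by positivity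
        linarith
      have h2 := mul_comm (2 * C0 + 4 * C0 / c0) (d ^ (k * l - (r : ℕ)))
      rw [← h2] at h1
      exact h1
    · have h1 := hstep r s hrs
      have h2 := hlow' s
      have h3 : d * (2 * C0) * d ^ (k * l - (s : ℕ)) =
          4 * C0 / c0 * d * (c0 / 2 * d ^ (k * l - (s : ℕ))) := by
        field_simp
        ring
      have h4 : 4 * C0 / c0 * d * (c0 / 2 * d ^ (k * l - (s : ℕ))) ≤
          4 * C0 / c0 * d * zz d (y w) s := mul_le_mul_of_nonneg_left h2.le (by positivity)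
      have h5 : 4 * C0 / c0 * d * zz d (y w) s ≤ (2 * C0 + 4 * C0 / c0) * d * zz d (y w) s := by
        have := hzpos s
        refine mul_le_mul_of_nonneg_right (mul_le_mul_of_nonneg_right ?_ hd.le) this.le
        linarith
      linarith
    · obtain ⟨K, hK, hdet⟩ := Dz_det hw hd (y w)
      have hdne : (Dz (sp k (rnc (k + l)) (t0 (k * l) d)) w (zz d (y w))).det ≠ 0 := by
        rw [hdet]
        exact mul_ne_zero hK.ne' fun h => by rw [h, mul_zero] at hJ; exact lt_irrefl _ hJ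
      have h1 := hjac (sp k (rnc (k + l)) (t0 (k * l) d)) w hw _ hzpos hzmono hsol hdne
      rw [hdet] at h1
      have h2 : 0 < (s1 * (-1) ^ inv w * (K * (Gj w (y w) d).det) *
          JJ (sp k (rnc (k + l)) (t0 (k * l) d)) (uw w (zz d (y w)))) *
          (e0 * (Gj w (y w) d).det) := mul_pos h1 hJ
      have h3 : (s1 * (-1) ^ inv w * (K * (Gj w (y w) d).det) *
          JJ (sp k (rnc (k + l)) (t0 (k * l) d)) (uw w (zz d (y w)))) *
          (e0 * (Gj w (y w) d).det) = (s1 * e0 * (-1) ^ inv w *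
          JJ (sp k (rnc (k + l)) (t0 (k * l) d)) (uw w (zz d (y w)))) *
          (K * (Gj w (y w) d).det ^ 2) := by ring
      rw [h3] at h2
      have hG0 : (Gj w (y w) d).det ≠ 0 := fun h => by rw [h, mul_zero] at hJ; exact lt_irrefl _ hJ
      exact pos_of_mul_pos_left h2 (by positivity)
  · obtain ⟨g, _, hg⟩ := rs_eq_real _ _ (uw_fr hw) (uw_fr hw') h
    exact hdist d hd hd1 w w' hw hw' (y w) (y w') (hy w hw).1 (hy w' hw').1 g hg

end GTR
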