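import Pool.Agent.GTR.WHook
import Pool.Agent.GTR.WGood
import Pool.Agent.GTR.Pers

/-!
# GTR WUp : at most `N! / ∏ hooks` solutions (6.1)

`N = k l`. For `c : Fin (k l) → R` let `uc c` be the matrix whose row `a` is the polynomial
`X^(l+a) + ∑_(j<l) c (a,j) X^j` (coordinates numbered by `finProdFinEquiv`).

(1) `Φ r` (`r : Fin N`): the polynomial `(wr (rp (uc X))).coeff r / V` in the variables `c`, where
`V = (wr (rp (uc c))).coeff N = ∏_(a<b) (b - a) ≠ 0` (the top coefficient, independent of `c`).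
Weights: `h (a,j) = l + a - j > 0` for the variable `c (a,j)`, `d r = N - r > 0`.
`weightedTotalDegree h (Φ r) ≤ d r`: say that a polynomial `Q ∈ (MvPolynomial)[X]` has grade `e` if
every monomial `β` occurring in the coefficient of `X^m` satisfies `∑ h β + m = e`
(`MvPolynomial.IsWeightedHomogeneous` of degree `e - m`, and the coefficient is zero for `m > e`).
Grades add under products. Row `a` has grade `l + a`; its `c`-th derivative has grade `l + a - c`, or is
zero (when `c > l + a`). A product over a permutation has grade `∑_a (l + a) - k(k-1)/2 = k l = N`, so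
the coefficient of `X^r` is weighted homogeneous of degree `N - r`.

(2) Let `t` be simple with `cos (t r) ≠ 0` for all `r`, `g = ∏_r (X - tan (t r))`, `w0 r = g.coeff r`.
A solution `u` of the problem has `wr (rp u)` of degree `≤ N`, nonzero, with the `N` different roots
`tan (t r)`: `wr (rp u) = const * g`, const `≠ 0`. So the coefficient of `X^N`, which is a nonzero
multiple of the minor of `u` with the columns `l, ..., l+k-1` (all other minors contribute only to
lower coefficients: `k` different numbers `< k + l` with sum `≥ l + ... + (l+k-1)`), is nonzero, and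
`u = g' * uc c` for a unique `c`; `Φ r (c) = w0 r`. Different row spaces give different `c`.

(3) Openness: for `w : Fin N → ℂ` consider the linear forms
`h^w r = wcf r - w r • wcf N` (`r : Fin N`; `wr_rp`). `IsSol (h^w) (uc c)` iff `Φ r (c) = w r` for all
`r`. `Sol (h^w)` is finite: otherwise `P1` gives a solution `u` with `lf (wcf N) u = 0`, so all
coefficients of `wr (rp u)` vanish, contradiction to `wr_ne_zero`. `h^w` depends continuously on `w`.
By `pers` (at `u0 = uc p_j`) for `w` near `w0` there is a solution `u` of `h^w` near `uc p_j`; its last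
`k` columns are invertible and near `1`, `u = g' * uc c` with `c` near `p_j`. This is the hypothesis
`hopen` of `fib_bound`. `∏ h = ∏_(a<k) ∏_(j<l) (l + a - j) = ∏_(a<k) ∏_(j<l) (a + j + 1)`,
`∏_r (N - r) = N!`.
-/

set_option autoImplicit false

open Polynomial

namespace GTR

open GTC

namespace WUp

/-! ### the graded part -/

/-- the matrices with the last `k` columns equal to `1` -/
def uc {R : Type*} [CommRing R] {k l : ℕ} (c : Fin (k * l) → R) : Matrix (Fin k) (Fin (k + l)) R :=
  fun a j => if h : (j : ℕ) < l then c (finProdFinEquiv (a, ⟨j, h⟩))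
    else if (j : ℕ) = l + a then 1 else 0

/-- the weights -/
def wt (k l : ℕ) (q : Fin (k * l)) : ℕ :=
  l + (finProdFinEquiv.symm q).1 - (finProdFinEquiv.symm q).2

lemma wt_pos (k l : ℕ) (q : Fin (k * l)) : 0 < wt k l q := by
  unfold wt
  have := (finProdFinEquiv.symm q).2.2
  omega

/-- graded polynomials -/
def Gr {N : ℕ} (h : Fin N → ℕ) (e : ℤ) (Q : (MvPolynomial (Fin N) ℂ)[X]) : Prop :=
  ∀ m, ∀ β ∈ (Q.coeff m).support, (∑ j, (h j : ℤ) * β j) + m = e

lemma gr_zero {N : ℕ} (h : Fin N → ℕ) (e : ℤ) : Gr h e 0 := by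
  intro m β hβ
  simp at hβ

lemma gr_add {N : ℕ} {h : Fin N → ℕ} {e : ℤ} {P Q : (MvPolynomial (Fin N) ℂ)[X]}
    (hP : Gr h e P) (hQ : Gr h e Q) : Gr h e (P + Q) := by
  classical
  intro m β hβ
  rw [coeff_add] at hβ
  rcases Finset.mem_union.1 (MvPolynomial.support_add hβ) with h1 | h1
  · exact hP m β h1
  · exact hQ m β h1

lemma gr_sum {N : ℕ} {ι : Type*} {h : Fin N → ℕ} {e : ℤ} (s : Finset ι)
    {P : ι → (MvPolynomial (Fin N) ℂ)[X]} (hP : ∀ i ∈ s, Gr h e (P i)) :
    Gr h e (∑ i ∈ s, P i) := by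
  classical
  induction s using Finset.induction_on with
  | empty => rw [Finset.sum_empty]; exact gr_zero h e
  | insert i s hi ih =>
    rw [Finset.sum_insert hi]
    exact gr_add (hP i (Finset.mem_insert_self i s))
      (ih fun j hj => hP j (Finset.mem_insert_of_mem hj))

lemma gr_neg {N : ℕ} {h : Fin N → ℕ} {e : ℤ} {P : (MvPolynomial (Fin N) ℂ)[X]}
    (hP : Gr h e P) : Gr h e (-P) := by
  intro m β hβ
  rw [coeff_neg, MvPolynomial.support_neg] at hβ
  exact hP m β hβ

lemma gr_mul {N : ℕ} {h : Fin N → ℕ} {e f : ℤ} {P Q : (MvPolynomial (Fin N) ℂ)[X]}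
    (hP : Gr h e P) (hQ : Gr h f Q) : Gr h (e + f) (P * Q) := by
  classical
  intro m β hβ
  rw [coeff_mul] at hβ
  obtain ⟨x, hx, hβx⟩ := Finset.mem_biUnion.1 (MvPolynomial.support_sum hβ)
  obtain ⟨β1, h1, β2, h2, rfl⟩ := Finset.mem_add.1 (MvPolynomial.support_mul _ _ hβx)
  have h3 := hP _ β1 h1
  have h4 := hQ _ β2 h2
  have h5 : (m : ℤ) = x.1 + x.2 := by
    have h7 : x.1 + x.2 = m := by simpa using hx
    omega
  have h6 : (∑ j, (h j : ℤ) * ((β1 + β2) j : ℕ)) =
      (∑ j, (h j : ℤ) * β1 j) + ∑ j, (h j : ℤ) * β2 j := by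
    rw [← Finset.sum_add_distrib]
    refine Finset.sum_congr rfl fun j _ => ?_
    rw [Finsupp.add_apply]
    push_cast
    ring
  rw [h6, h5]
  linarith

lemma gr_one {N : ℕ} (h : Fin N → ℕ) : Gr h 0 1 := by
  intro m β hβ
  rw [coeff_one] at hβ
  split_ifs at hβ with hm
  · rw [MvPolynomial.support_one, Finset.mem_singleton] at hβ
    rw [hβ, hm]
    simp
  · simp at hβ

lemma gr_prod {N : ℕ} {ι : Type*} {h : Fin N → ℕ} (s : Finset ι) {e : ι → ℤ}
    {P : ι → (MvPolynomial (Fin N) ℂ)[X]} (hP : ∀ i ∈ s, Gr h (e i) (P i)) :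
    Gr h (∑ i ∈ s, e i) (∏ i ∈ s, P i) := by
  classical
  induction s using Finset.induction_on with
  | empty => rw [Finset.sum_empty, Finset.prod_empty]; exact gr_one h
  | insert i s hi ih =>
    rw [Finset.sum_insert hi, Finset.prod_insert hi]
    exact gr_mul (hP i (Finset.mem_insert_self i s))
      (ih fun j hj => hP j (Finset.mem_insert_of_mem hj))

lemma gr_der {N : ℕ} {h : Fin N → ℕ} {e : ℤ} {P : (MvPolynomial (Fin N) ℂ)[X]}
    (hP : Gr h e P) : Gr h (e - 1) (derivative P) := by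
  classical
  intro m β hβ
  rw [coeff_derivative] at hβ
  have h1 : β ∈ (P.coeff (m + 1)).support := by
    obtain ⟨β1, h1, β2, h2, rfl⟩ := Finset.mem_add.1 (MvPolynomial.support_mul _ _ hβ)
    have h3 : ((m : MvPolynomial (Fin N) ℂ) + 1) = MvPolynomial.C ((m : ℂ) + 1) := by
      rw [map_add, map_natCast, map_one]
    rw [h3, MvPolynomial.mem_support_iff, MvPolynomial.coeff_C] at h2
    have h4 : β2 = 0 := by
      by_contra h5
      rw [if_neg (Ne.symm h5)] at h2
      exact h2 rfl
    rw [h4, add_zero]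
    exact h1
  have h2 := hP (m + 1) β h1
  push_cast at h2
  linarith

lemma gr_iter {N : ℕ} {h : Fin N → ℕ} {e : ℤ} {P : (MvPolynomial (Fin N) ℂ)[X]}
    (hP : Gr h e P) (n : ℕ) : Gr h (e - n) (derivative^[n] P) := by
  induction n with
  | zero => simpa using hP
  | succ n ih =>
    rw [Function.iterate_succ_apply']
    have := gr_der ih
    rwa [sub_sub, ← Nat.cast_succ] at this

lemma gr_mono {N : ℕ} {h : Fin N → ℕ} {e : ℤ} (n : ℕ) (c : MvPolynomial (Fin N) ℂ)
    (hc : ∀ β ∈ c.support, (∑ j, (h j : ℤ) * β j) + n = e) : Gr h e (C c * X ^ n) := by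
  intro m β hβ
  rw [coeff_C_mul, coeff_X_pow] at hβ
  split_ifs at hβ with hm
  · rw [mul_one] at hβ
    rw [hm]
    exact hc β hβ
  · simp at hβ

lemma gr_row {k l : ℕ} (a : Fin k) :
    Gr (wt k l) (l + a) (rp (uc (fun q => (MvPolynomial.X q : MvPolynomial (Fin (k * l)) ℂ))) a) := by
  classical
  unfold rp
  refine gr_sum _ fun j _ => gr_mono _ _ fun β hβ => ?_
  unfold uc at hβ
  split_ifs at hβ with h1 h2
  · rw [MvPolynomial.support_X, Finset.mem_singleton] at hβ
    rw [hβ, Finset.sum_eq_single (finProdFinEquiv (a, ⟨j, h1⟩))]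
    · rw [Finsupp.single_eq_same]
      unfold wt
      rw [Equiv.symm_apply_apply]
      simp only [Nat.cast_one, mul_one]
      omega
    · intro q _ hq
      rw [Finsupp.single_eq_of_ne hq]
      simp
    · intro h
      exact absurd (Finset.mem_univ _) h
  · rw [MvPolynomial.support_one, Finset.mem_singleton] at hβ
    rw [hβ, h2]
    simp
  · simp at hβ

lemma gr_wr {k l : ℕ} :
    Gr (wt k l) ((k * l : ℕ) : ℤ)
      (wr (rp (uc (k := k) (l := l)
        (fun q => (MvPolynomial.X q : MvPolynomial (Fin (k * l)) ℂ))))) := by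
  classical
  unfold wr
  rw [Matrix.det_apply]
  refine gr_sum _ fun σ _ => ?_
  have h1 : Gr (wt k l) ((k * l : ℕ) : ℤ) (∏ i, (Matrix.of fun a c : Fin k =>
      derivative^[(c : ℕ)] (rp (uc (fun q => (MvPolynomial.X q :
        MvPolynomial (Fin (k * l)) ℂ))) a)) (σ i) i) := by
    have h2 := gr_prod (h := wt k l) Finset.univ (e := fun i : Fin k => ((l : ℤ) + (σ i : ℕ)) - (i : ℕ))
      (P := fun i => derivative^[(i : ℕ)] (rp (uc (fun q => (MvPolynomial.X q :
        MvPolynomial (Fin (k * l)) ℂ))) (σ i))) (fun i _ => gr_iter (gr_row (σ i)) i)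
    have h3 : ∑ i : Fin k, (((l : ℤ) + (σ i : ℕ)) - (i : ℕ)) = ((k * l : ℕ) : ℤ) := by
      rw [Finset.sum_sub_distrib, Finset.sum_add_distrib,
        Equiv.sum_comp σ (fun i : Fin k => ((i : ℕ) : ℤ)), add_sub_cancel_right]
      simp
    rw [h3] at h2
    exact h2
  rcases Int.units_eq_one_or (Equiv.Perm.sign σ) with hs | hs
  · rw [hs, one_smul]
    exact h1
  · rw [hs, Units.neg_smul, one_smul]
    exact gr_neg h1

/-! ### evaluation -/

lemma rp_map {R S : Type*} [CommRing R] [CommRing S] (f : R →+* S) {k n : ℕ}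
    (u : Matrix (Fin k) (Fin n) R) (a : Fin k) : rp (u.map f) a = (rp u a).map f := by
  unfold rp
  rw [Polynomial.map_sum]
  refine Finset.sum_congr rfl fun j _ => ?_
  rw [Polynomial.map_mul, Polynomial.map_pow, map_X, map_C]
  rfl

lemma wr_map {R S : Type*} [CommRing R] [CommRing S] (f : R →+* S) {k : ℕ}
    (p : Fin k → R[X]) : wr (fun a => (p a).map f) = (wr p).map f := by
  unfold wr
  have h := RingHom.map_det (Polynomial.mapRingHom f)
    (Matrix.of fun a c : Fin k => derivative^[(c : ℕ)] (p a))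
  rw [Polynomial.coe_mapRingHom] at h
  rw [h]
  congr 1
  ext a c : 2
  rw [Matrix.of_apply, RingHom.mapMatrix_apply, Matrix.map_apply, Matrix.of_apply,
    Polynomial.coe_mapRingHom, iterate_derivative_map]

lemma uc_map {R S : Type*} [CommRing R] [CommRing S] (f : R →+* S) {k l : ℕ}
    (c : Fin (k * l) → R) : uc (fun q => f (c q)) = (uc (k := k) (l := l) c).map f := by
  ext a j
  rw [Matrix.map_apply]
  unfold uc
  split_ifs
  · rfl
  · rw [map_one]
  · rw [map_zero]

/-- the Wronskian of `uc X` -/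
noncomputable def WX (k l : ℕ) : (MvPolynomial (Fin (k * l)) ℂ)[X] :=
  wr (rp (uc (k := k) (l := l) (fun q => (MvPolynomial.X q : MvPolynomial (Fin (k * l)) ℂ))))

lemma eval_WX {k l : ℕ} (c : Fin (k * l) → ℂ) (r : ℕ) :
    MvPolynomial.eval c ((WX k l).coeff r) = (wr (rp (uc (k := k) (l := l) c))).coeff r := by
  unfold WX
  rw [← Polynomial.coeff_map, ← wr_map]
  congr 2
  funext a
  rw [← rp_map, ← uc_map]
  simp only [MvPolynomial.eval_X]

/-- the top coefficient -/
noncomputable def VV (k l : ℕ) : ℂ := MvPolynomial.coeff 0 ((WX k l).coeff (k * l))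

lemma gr_WX (k l : ℕ) : Gr (wt k l) ((k * l : ℕ) : ℤ) (WX k l) := gr_wr

lemma WX_top (k l : ℕ) : (WX k l).coeff (k * l) = MvPolynomial.C (VV k l) := by
  classical
  ext β
  rw [MvPolynomial.coeff_C]
  split_ifs with h
  · rw [← h]
    rfl
  · by_contra hne
    have h1 := gr_WX k l (k * l) β (MvPolynomial.mem_support_iff.2 hne)
    have h2 : ∑ j, (wt k l j : ℤ) * β j = 0 := by linarith
    apply h
    ext j
    have h3 := (Finset.sum_eq_zero_iff_of_nonneg (fun j _ => by positivity)).1 h2 j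
      (Finset.mem_univ j)
    have h4 := wt_pos k l j
    rcases mul_eq_zero.1 h3 with h5 | h5
    · omega
    · have h6 : β j = 0 := by exact_mod_cast h5
      rw [h6]
      rfl

lemma coeff_top {k l : ℕ} (c : Fin (k * l) → ℂ) :
    (wr (rp (uc (k := k) (l := l) c))).coeff (k * l) = VV k l := by
  rw [← eval_WX, WX_top, MvPolynomial.eval_C]

/-- the last columns -/
def lst {k l : ℕ} (a : Fin k) : Fin (k + l) := ⟨l + a, by omega⟩

lemma uc_lst {R : Type*} [CommRing R] {k l : ℕ} (c : Fin (k * l) → R) :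
    (uc (k := k) (l := l) c).submatrix id lst = 1 := by
  ext a b
  rw [Matrix.submatrix_apply]
  unfold uc lst
  simp only [id]
  rw [dif_neg (by omega), Matrix.one_apply]
  by_cases h : a = b
  · rw [if_pos (by rw [h]), if_pos h]
  · rw [if_neg (fun h1 => h (Fin.ext (by omega))), if_neg h]

lemma fr_uc {k l : ℕ} (c : Fin (k * l) → ℂ) : FR (uc (k := k) (l := l) c) := by
  rw [fr_iff_minor]
  refine ⟨lst, ?_⟩
  rw [uc_lst, Matrix.det_one]
  exact one_ne_zero

lemma VV_ne (k l : ℕ) : VV k l ≠ 0 := by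
  classical
  intro h0
  apply wr_ne_zero (uc (k := k) (l := l) (fun _ => (0 : ℂ))) (fr_uc _)
  ext r
  rw [coeff_zero, ← eval_WX]
  by_cases hr : r = k * l
  · rw [hr, WX_top, h0, MvPolynomial.eval_C]
  · have h1 : MvPolynomial.eval (fun _ => (0 : ℂ)) ((WX k l).coeff r) =
        MvPolynomial.coeff 0 ((WX k l).coeff r) := by
      rw [← MvPolynomial.constantCoeff_eq]
      exact congrFun (congrArg DFunLike.coe MvPolynomial.eval_zero') _
    rw [h1]
    by_contra hne
    have h2 := gr_WX k l r 0 (MvPolynomial.mem_support_iff.2 hne)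
    simp only [Finsupp.coe_zero, Pi.zero_apply, Nat.cast_zero, mul_zero, Finset.sum_const_zero,
      zero_add, Nat.cast_inj] at h2
    exact hr h2

/-- the polynomial map -/
noncomputable def Phi (k l : ℕ) (r : Fin (k * l)) : MvPolynomial (Fin (k * l)) ℂ :=
  MvPolynomial.C (VV k l)⁻¹ * (WX k l).coeff r

lemma eval_Phi {k l : ℕ} (c : Fin (k * l) → ℂ) (r : Fin (k * l)) :
    MvPolynomial.eval c (Phi k l r) = (VV k l)⁻¹ * (wr (rp (uc (k := k) (l := l) c))).coeff r := by
  unfold Phi
  rw [map_mul, MvPolynomial.eval_C, eval_WX]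

lemma deg_Phi {k l : ℕ} (r : Fin (k * l)) :
    MvPolynomial.weightedTotalDegree (wt k l) (Phi k l r) ≤ k * l - r := by
  classical
  unfold MvPolynomial.weightedTotalDegree
  refine Finset.sup_le fun β hβ => ?_
  have h1 : β ∈ ((WX k l).coeff r).support := by
    unfold Phi at hβ
    rw [MvPolynomial.mem_support_iff, MvPolynomial.coeff_C_mul] at hβ
    exact MvPolynomial.mem_support_iff.2 (right_ne_zero_of_mul hβ)
  have h2 := gr_WX k l r β h1
  have h3 : Finsupp.weight (wt k l) β = ∑ j, wt k l j * β j := by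
    rw [Finsupp.weight_apply, Finsupp.sum_fintype _ _ (fun i => by simp)]
    refine Finset.sum_congr rfl fun j _ => ?_
    rw [smul_eq_mul, mul_comm]
  rw [h3]
  have h4 : (∑ j, (wt k l j : ℤ) * β j) = ((∑ j, wt k l j * β j : ℕ) : ℤ) := by
    push_cast
    rfl
  rw [h4] at h2
  omega

/-- the forms `coeff r - w r * coeff N` -/
noncomputable def hw {k l : ℕ} (w : Fin (k * l) → ℂ) : Fin (k * l) → Cf ℂ k (k + l) :=
  fun r t => wcf ℂ k (k + l) r t - w r * wcf ℂ k (k + l) (k * l) t

lemma lf_hw {k l : ℕ} (w : Fin (k * l) → ℂ) (r : Fin (k * l))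
    (u : Matrix (Fin k) (Fin (k + l)) ℂ) :
    lf (hw w r) u = (wr (rp u)).coeff r - w r * (wr (rp u)).coeff (k * l) := by
  rw [wr_rp, wr_rp]
  unfold lf hw
  rw [Finset.mul_sum, ← Finset.sum_sub_distrib]
  refine Finset.sum_congr rfl fun t _ => ?_
  ring

lemma continuous_hw {k l : ℕ} : Continuous (hw (k := k) (l := l)) := by
  unfold hw
  refine continuous_pi fun r => continuous_pi fun t => ?_
  exact continuous_const.sub ((continuous_apply r).mul continuous_const)

lemma sol_hw_finite {k l : ℕ} (hk : 1 ≤ k) (w : Fin (k * l) → ℂ) : (Sol (hw w)).Finite := by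
  by_contra hinf
  obtain ⟨u, hu, hc⟩ := P1 hk (hw w) hinf (wcf ℂ k (k + l) (k * l))
  apply wr_ne_zero u hu.1
  rw [← wr_rp] at hc
  ext r
  rw [coeff_zero]
  rcases lt_trichotomy r (k * l) with h | h | h
  · have h1 := hu.2 ⟨r, h⟩
    rw [lf_hw, hc, mul_zero, sub_zero] at h1
    exact h1
  · rw [h, hc]
  · exact coeff_eq_zero_of_natDegree_lt ((wr_natDegree u).trans_lt h)

lemma issol_uc {k l : ℕ} (w c : Fin (k * l) → ℂ) :
    IsSol (hw w) (uc (k := k) (l := l) c) ↔ ∀ r, MvPolynomial.eval c (Phi k l r) = w r := by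
  unfold IsSol
  constructor
  · rintro ⟨-, h⟩ r
    have h1 := h r
    rw [lf_hw, coeff_top, sub_eq_zero] at h1
    rw [eval_Phi, h1]
    have := VV_ne k l
    field_simp
  · intro h
    refine ⟨fr_uc c, fun r => ?_⟩
    have h1 := h r
    rw [eval_Phi] at h1
    rw [lf_hw, coeff_top, ← h1]
    have := VV_ne k l
    field_simp
    ring

/-- the coordinates of a matrix with invertible last columns -/
noncomputable def co {k l : ℕ} (u : Matrix (Fin k) (Fin (k + l)) ℂ) (q : Fin (k * l)) : ℂ :=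
  ((u.submatrix id lst)⁻¹ * u) (finProdFinEquiv.symm q).1
    ⟨(finProdFinEquiv.symm q).2, by have := (finProdFinEquiv.symm q).2.2; omega⟩

lemma uc_co {k l : ℕ} (u : Matrix (Fin k) (Fin (k + l)) ℂ) (hu : (u.submatrix id lst).det ≠ 0) :
    uc (co u) = (u.submatrix id lst)⁻¹ * u := by
  ext a j
  unfold uc co
  split_ifs with h1 h2
  · simp
  · have h3 : j = lst a := Fin.ext h2
    have h4 : ((u.submatrix id lst)⁻¹ * (u.submatrix id lst)) a a =
        ((u.submatrix id lst)⁻¹ * u) a (lst a) := rfl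
    rw [h3, ← h4, Matrix.nonsing_inv_mul _ (isUnit_iff_ne_zero.2 hu), Matrix.one_apply_eq]
  · have hj := j.2
    obtain ⟨b, hb⟩ : ∃ b : Fin k, j = lst b :=
      ⟨⟨(j : ℕ) - l, by omega⟩, Fin.ext (by simp only [lst]; omega)⟩
    have hab : a ≠ b := by
      rintro rfl
      apply h2
      rw [hb]
      rfl
    have h4 : ((u.submatrix id lst)⁻¹ * (u.submatrix id lst)) a b =
        ((u.submatrix id lst)⁻¹ * u) a (lst b) := rfl
    rw [hb, ← h4, Matrix.nonsing_inv_mul _ (isUnit_iff_ne_zero.2 hu), Matrix.one_apply_ne hab]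

lemma co_uc {k l : ℕ} (c : Fin (k * l) → ℂ) : co (uc (k := k) (l := l) c) = c := by
  funext q
  unfold co
  rw [uc_lst, inv_one, Matrix.one_mul]
  unfold uc
  rw [dif_pos (finProdFinEquiv.symm q).2.2]
  exact congrArg c (finProdFinEquiv.apply_symm_apply q)

lemma continuousAt_co {k l : ℕ} (c : Fin (k * l) → ℂ) :
    ContinuousAt (co (k := k) (l := l)) (uc c) := by
  have hA : Continuous fun u : Matrix (Fin k) (Fin (k + l)) ℂ => u.submatrix id (lst (l := l)) :=
    continuous_id.matrix_submatrix _ _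
  refine continuousAt_pi.2 fun q => ?_
  have h1 : (fun u : Matrix (Fin k) (Fin (k + l)) ℂ => co u q) = fun u =>
      (u.submatrix id (lst (l := l))).det⁻¹ * (((u.submatrix id (lst (l := l))).adjugate * u)
        (finProdFinEquiv.symm q).1
        ⟨(finProdFinEquiv.symm q).2, by have := (finProdFinEquiv.symm q).2.2; omega⟩) := by
    funext u
    unfold co
    rw [Matrix.inv_def, Matrix.smul_mul, Ring.inverse_eq_inv']
    rfl
  rw [h1]
  refine ContinuousAt.mul (ContinuousAt.inv₀ hA.matrix_det.continuousAt ?_) ?_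
  · rw [uc_lst, Matrix.det_one]
    exact one_ne_zero
  · have h2 : Continuous fun u : Matrix (Fin k) (Fin (k + l)) ℂ =>
        (u.submatrix id (lst (l := l))).adjugate * u := hA.matrix_adjugate.matrix_mul continuous_id
    exact (h2.matrix_elem _ _).continuousAt

open Topology in
lemma hopen {k l : ℕ} (hk : 1 ≤ k) {w0 c : Fin (k * l) → ℂ}
    (hc : ∀ r, MvPolynomial.eval c (Phi k l r) = w0 r) (U : Set (Fin (k * l) → ℂ)) (hU : U ∈ 𝓝 c) :
    ∀ᶠ w in 𝓝 w0, ∃ c ∈ U, ∀ r, MvPolynomial.eval c (Phi k l r) = w r := by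
  have hA : Continuous fun u : Matrix (Fin k) (Fin (k + l)) ℂ => u.submatrix id (lst (l := l)) :=
    continuous_id.matrix_submatrix _ _
  have h1 : {u : Matrix (Fin k) (Fin (k + l)) ℂ | (u.submatrix id (lst (l := l))).det ≠ 0} ∩
      co ⁻¹' U ∈ 𝓝 (uc (k := k) (l := l) c) := by
    refine Filter.inter_mem ?_ ?_
    · refine hA.matrix_det.continuousAt.eventually_ne ?_
      rw [uc_lst, Matrix.det_one]
      exact one_ne_zero
    · refine continuousAt_co c ?_
      rw [co_uc]
      exact hU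
  have h2 := pers hk (hw w0) (sol_hw_finite hk w0) (uc c) ((issol_uc w0 c).2 hc) _ h1
  have h3 := (continuous_hw (k := k) (l := l)).continuousAt (x := w0) h2
  filter_upwards [h3] with w hw'
  obtain ⟨u, ⟨hu1, hu2⟩, hu3⟩ := hw'
  have hu1' : (u.submatrix id (lst (l := l))).det ≠ 0 := hu1
  refine ⟨co u, hu2, ?_⟩
  rw [← issol_uc, uc_co u hu1']
  refine (issol_mul _ _ ?_ u).2 hu3
  rw [Matrix.det_nonsing_inv, Ring.inverse_eq_inv']
  exact inv_ne_zero hu1'

/-! ### the top coefficient -/

lemma sum_lt {k l : ℕ} {t : Fin k → Fin (k + l)} (ht : Function.Injective t)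
    (h : ¬ ∀ c, l ≤ (t c : ℕ)) : ∑ c, (t c : ℕ) < ∑ c : Fin k, (l + (c : ℕ)) := by
  classical
  push Not at h
  obtain ⟨c0, hc0⟩ := h
  have hinj : Function.Injective fun c => (t c : ℕ) := fun a b hab => ht (Fin.ext hab)
  have hinj2 : Function.Injective fun c : Fin k => l + (c : ℕ) := fun a b hab => by
    simp only at hab
    exact Fin.ext (by omega)
  have e1 : ∑ c, (t c : ℕ) = ∑ x ∈ Finset.univ.image (fun c => (t c : ℕ)), x :=
    (Finset.sum_image (f := fun x : ℕ => x) (g := fun c => (t c : ℕ)) (s := Finset.univ)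
      fun a _ b _ hab => hinj hab).symm
  have e2 : ∑ c : Fin k, (l + (c : ℕ)) = ∑ x ∈ Finset.univ.image (fun c : Fin k => l + (c : ℕ)), x :=
    (Finset.sum_image (f := fun x : ℕ => x) (g := fun c : Fin k => l + (c : ℕ))
      (s := Finset.univ) fun a _ b _ hab => hinj2 hab).symm
  obtain ⟨T, hT⟩ : ∃ T : Finset ℕ, T = Finset.univ.image (fun c => (t c : ℕ)) := ⟨_, rfl⟩
  obtain ⟨I, hI⟩ : ∃ I : Finset ℕ, I = Finset.univ.image (fun c : Fin k => l + (c : ℕ)) := ⟨_, rfl⟩
  have cT : T.card = k := by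
    rw [hT, Finset.card_image_of_injective _ hinj, Finset.card_univ, Fintype.card_fin]
  have cI : I.card = k := by
    rw [hI, Finset.card_image_of_injective _ hinj2, Finset.card_univ, Fintype.card_fin]
  rw [e1, e2, ← hT, ← hI]
  have hc : (T \ I).card = (I \ T).card := by
    have h1 := Finset.card_sdiff_add_card_inter T I
    have h2 := Finset.card_sdiff_add_card_inter I T
    rw [Finset.inter_comm] at h2
    omega
  have h1 : ∑ x ∈ T \ I, x < (T \ I).card * l := by
    rw [← smul_eq_mul, ← Finset.sum_const]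
    refine Finset.sum_lt_sum_of_nonempty ?_ fun x hx => ?_
    · refine ⟨(t c0 : ℕ), Finset.mem_sdiff.2 ⟨?_, fun hm => ?_⟩⟩
      · rw [hT]
        exact Finset.mem_image_of_mem _ (Finset.mem_univ c0)
      · rw [hI] at hm
        obtain ⟨b, -, hb⟩ := Finset.mem_image.1 hm
        omega
    · rw [Finset.mem_sdiff, hT, hI] at hx
      obtain ⟨c, -, hc⟩ := Finset.mem_image.1 hx.1
      by_contra hge
      push Not at hge
      apply hx.2
      have := (t c).2
      exact Finset.mem_image.2 ⟨⟨x - l, by omega⟩, Finset.mem_univ _, by simp only; omega⟩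
  have h2 : (I \ T).card * l ≤ ∑ x ∈ I \ T, x := by
    rw [← smul_eq_mul, ← Finset.sum_const]
    refine Finset.sum_le_sum fun x hx => ?_
    rw [Finset.mem_sdiff, hI] at hx
    obtain ⟨c, -, hc⟩ := Finset.mem_image.1 hx.1
    omega
  have h3 : ∑ x ∈ T, x = ∑ x ∈ T ∩ I, x + ∑ x ∈ T \ I, x :=
    (Finset.sum_inter_add_sum_sdiff T I _).symm
  have h4 : ∑ x ∈ I, x = ∑ x ∈ I ∩ T, x + ∑ x ∈ I \ T, x :=
    (Finset.sum_inter_add_sum_sdiff I T _).symm
  rw [Finset.inter_comm] at h4
  rw [hc] at h1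
  omega

lemma wcf_top_zero {k l : ℕ} {t : Fin k → Fin (k + l)} (ht : Function.Injective t)
    (h : ¬ ∀ c, l ≤ (t c : ℕ)) : wcf ℂ k (k + l) (k * l) t = 0 := by
  classical
  unfold wcf
  have h1 : (∏ c : Fin k, derivative^[(c : ℕ)] ((X : ℂ[X]) ^ (t c : ℕ))) =
      C (∏ c : Fin k, ((Nat.descFactorial (t c : ℕ) (c : ℕ) : ℕ) : ℂ)) *
        X ^ (∑ c : Fin k, ((t c : ℕ) - (c : ℕ))) := by
    rw [map_prod, ← Finset.prod_pow_eq_pow_sum, ← Finset.prod_mul_distrib]
    refine Finset.prod_congr rfl fun c _ => ?_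
    rw [iterate_derivative_X_pow_eq_C_mul]
  rw [h1, coeff_C_mul, coeff_X_pow]
  split_ifs with h2
  · rw [mul_one]
    by_cases h3 : ∀ c : Fin k, (c : ℕ) ≤ t c
    · exfalso
      have h4 := sum_lt ht h
      have h5 : ∑ c : Fin k, ((t c : ℕ) - (c : ℕ)) + ∑ c : Fin k, (c : ℕ) = ∑ c, (t c : ℕ) := by
        rw [← Finset.sum_add_distrib]
        refine Finset.sum_congr rfl fun c _ => ?_
        have := h3 c
        omega
      rw [Finset.sum_add_distrib, Finset.sum_const, Finset.card_univ, Fintype.card_fin,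
        smul_eq_mul] at h4
      omega
    · push Not at h3
      obtain ⟨c, hc⟩ := h3
      refine Finset.prod_eq_zero (Finset.mem_univ c) ?_
      rw [Nat.descFactorial_eq_zero_iff_lt.2 hc, Nat.cast_zero]
  · rw [mul_zero]

lemma top_zero {k l : ℕ} (u : Matrix (Fin k) (Fin (k + l)) ℂ)
    (hu : (u.submatrix id (lst (l := l))).det = 0) : (wr (rp u)).coeff (k * l) = 0 := by
  classical
  rw [wr_rp]
  unfold lf
  refine Finset.sum_eq_zero fun t _ => ?_
  by_cases hinj : Function.Injective t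
  · by_cases hl : ∀ c, l ≤ (t c : ℕ)
    · have h1 : ∀ c, ∃ b : Fin k, t c = lst b := fun c =>
        ⟨⟨(t c : ℕ) - l, by have := (t c).2; have := hl c; omega⟩,
          Fin.ext (by have := hl c; simp only [lst]; omega)⟩
      choose σ hσ using h1
      have hσi : Function.Injective σ := fun a b hab => hinj (by rw [hσ, hσ, hab])
      have h2 : t = lst ∘ (Equiv.ofBijective σ (Finite.injective_iff_bijective.1 hσi)) :=
        funext hσ
      have h3 : u.submatrix id t = (u.submatrix id (lst (l := l))).submatrix id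
          (Equiv.ofBijective σ (Finite.injective_iff_bijective.1 hσi)) := by
        rw [h2]
        rfl
      rw [h3, Matrix.det_permute', hu, mul_zero, mul_zero]
    · rw [wcf_top_zero hinj hl, zero_mul]
  · have h1 : ∃ a b, t a = t b ∧ a ≠ b := by
      by_contra hno
      push Not at hno
      exact hinj fun a b hab => hno a b hab
    obtain ⟨a, b, hab, hne⟩ := h1
    rw [Matrix.det_zero_of_column_eq hne, mul_zero]
    intro i
    rw [Matrix.submatrix_apply, Matrix.submatrix_apply, hab]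

/-- the polynomial with the roots `tan (t r)` -/
noncomputable def gt {N : ℕ} (t : Fin N → ℝ) : ℂ[X] := ∏ r, (X - C ((Real.tan (t r) : ℝ) : ℂ))

lemma tan_inj {N : ℕ} {t : Fin N → ℝ} (ht : GTC.Simple t) (hc : ∀ r, Real.cos (t r) ≠ 0) :
    Function.Injective fun r => ((Real.tan (t r) : ℝ) : ℂ) := by
  intro r s hrs
  have h1 : Real.tan (t r) = Real.tan (t s) := Complex.ofReal_injective hrs
  have h2 : Real.sin (t r - t s) = 0 := by
    rw [Real.tan_eq_sin_div_cos, Real.tan_eq_sin_div_cos, div_eq_div_iff (hc r) (hc s)] at h1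
    rw [Real.sin_sub]
    linarith
  have h3 := ht.2 r
  have h4 := ht.2 s
  have h5 : t r - t s = 0 :=
    (Real.sin_eq_zero_iff_of_lt_of_lt (by linarith [h3.1, h4.2]) (by linarith [h3.2, h4.1])).1 h2
  exact ht.1 (by linarith)

lemma gt_natDegree {N : ℕ} (t : Fin N → ℝ) : (gt t).natDegree = N := by
  unfold gt
  rw [natDegree_prod _ _ fun _ _ => X_sub_C_ne_zero _]
  simp

lemma gt_monic {N : ℕ} (t : Fin N → ℝ) : (gt t).Monic :=
  monic_prod_of_monic _ _ fun _ _ => monic_X_sub_C _

lemma wr_eq {k l : ℕ} {t : Fin (k * l) → ℝ} (ht : GTC.Simple t)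
    (hc : ∀ r, Real.cos (t r) ≠ 0) {u : Matrix (Fin k) (Fin (k + l)) ℂ}
    (hu : IsSol (ch (sp k (rnc (k + l)) t)) u) :
    wr (rp u) = C ((wr (rp u)).coeff (k * l)) * gt t := by
  classical
  rw [← sub_eq_zero]
  refine Polynomial.eq_zero_of_degree_lt_of_eval_index_eq_zero
    (s := Finset.univ) (v := fun r => ((Real.tan (t r) : ℝ) : ℂ)) (tan_inj ht hc).injOn ?_ ?_
  · rw [Finset.card_univ, Fintype.card_fin, degree_lt_iff_coeff_zero]
    intro m hm
    rw [coeff_sub, coeff_C_mul]
    rcases hm.eq_or_lt with h | h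
    · have h1 : (gt t).coeff (k * l) = 1 := by
        have h2 := gt_monic t
        unfold Monic leadingCoeff at h2
        rwa [gt_natDegree] at h2
      rw [← h, h1, mul_one, sub_self]
    · have h1 : (gt t).coeff m = 0 :=
        coeff_eq_zero_of_natDegree_lt (by rw [gt_natDegree]; exact h)
      rw [h1, coeff_eq_zero_of_natDegree_lt ((wr_natDegree u).trans_lt h), mul_zero, sub_zero]
  · intro r _
    have h1 : (gt t).eval ((Real.tan (t r) : ℝ) : ℂ) = 0 := by
      unfold gt
      rw [eval_prod]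
      refine Finset.prod_eq_zero (Finset.mem_univ r) ?_
      rw [eval_sub, eval_X, eval_C, sub_self]
    have h2 : (wr (rp u)).eval ((Real.tan (t r) : ℝ) : ℂ) = 0 := by
      have h3 := hu.2 r
      have h4 : lf (cc (wf k (rnc (k + l)) (t r))) u = 0 := h3
      rw [lf_rnc] at h4
      have h5 : ((Real.cos (t r) : ℝ) : ℂ) ≠ 0 := by exact_mod_cast hc r
      have h6 : ((Real.sin (t r) : ℝ) : ℂ) =
          ((Real.cos (t r) : ℝ) : ℂ) * ((Real.tan (t r) : ℝ) : ℂ) := by
        rw [← Complex.ofReal_mul, Real.tan_eq_sin_div_cos]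
        congr 1
        have := hc r
        field_simp
      have h7 : ∑ j ∈ Finset.range (k * l + 1), (wr (rp u)).coeff j *
          ((Real.cos (t r) : ℂ) ^ (k * l - j) * (Real.sin (t r) : ℂ) ^ j) =
          ((Real.cos (t r) : ℝ) : ℂ) ^ (k * l) * (wr (rp u)).eval ((Real.tan (t r) : ℝ) : ℂ) := by
        rw [eval_eq_sum_range' (Nat.lt_succ_of_le (wr_natDegree u)), Finset.mul_sum]
        refine Finset.sum_congr rfl fun j hj => ?_
        have hj' : j ≤ k * l := Nat.lt_succ_iff.1 (Finset.mem_range.1 hj)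
        rw [h6, mul_pow]
        have h8 : ((Real.cos (t r) : ℝ) : ℂ) ^ (k * l) =
            ((Real.cos (t r) : ℝ) : ℂ) ^ (k * l - j) * ((Real.cos (t r) : ℝ) : ℂ) ^ j := by
          rw [← pow_add, Nat.sub_add_cancel hj']
        rw [h8]
        ring
      rw [h7] at h4
      exact (mul_eq_zero.1 h4).resolve_left (pow_ne_zero _ h5)
    rw [eval_sub, eval_mul, h1, h2, mul_zero, sub_zero]

lemma prod_wt (k l : ℕ) : ∏ q, wt k l q =
    ∏ i ∈ Finset.range k, ∏ j ∈ Finset.range l, (i + j + 1) := by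
  unfold wt
  rw [Equiv.prod_comp finProdFinEquiv.symm (fun p : Fin k × Fin l => l + (p.1 : ℕ) - (p.2 : ℕ)),
    Fintype.prod_prod_type, Fin.prod_univ_eq_prod_range
      (fun i => ∏ j : Fin l, (l + i - (j : ℕ))) k]
  refine Finset.prod_congr rfl fun i _ => ?_
  rw [Fin.prod_univ_eq_prod_range (fun j => l + i - j) l,
    ← Finset.prod_range_reflect (fun j => i + j + 1) l]
  refine Finset.prod_congr rfl fun j hj => ?_
  rw [Finset.mem_range] at hj
  omega

end WUp

open WUp in
theorem up_bound {k l D : ℕ} (hk : 1 ≤ k) {t : Fin (k * l) → ℝ} (ht : GTC.Simple t)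
    (hc : ∀ r, Real.cos (t r) ≠ 0) (L : Fin D → Submodule ℂ (Fin (k + l) → ℂ))
    (hinj : Function.Injective L) (hL : ∀ i, L i ∈ Sol (ch (sp k (rnc (k + l)) t))) :
    D * ∏ i ∈ Finset.range k, ∏ j ∈ Finset.range l, (i + j + 1) ≤ (k * l).factorial := by
  classical
  choose u hu hLu using hL
  have hdet : ∀ i, ((u i).submatrix id (lst (l := l))).det ≠ 0 := by
    intro i h0
    have h1 := wr_eq ht hc (hu i)
    rw [top_zero (u i) h0, map_zero, zero_mul] at h1
    exact wr_ne_zero (u i) (hu i).1 h1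
  have hinv : ∀ i, ((u i).submatrix id (lst (l := l)))⁻¹.det ≠ 0 := by
    intro i
    rw [Matrix.det_nonsing_inv, Ring.inverse_eq_inv']
    exact inv_ne_zero (hdet i)
  have hsol : ∀ i, IsSol (ch (sp k (rnc (k + l)) t)) (uc (co (u i))) := by
    intro i
    rw [uc_co _ (hdet i)]
    exact (issol_mul _ _ (hinv i) (u i)).2 (hu i)
  have hrs : ∀ i, rs (uc (co (u i))) = L i := by
    intro i
    rw [uc_co _ (hdet i), rs_mul _ (hinv i), hLu i]
  have hp : Function.Injective fun i => co (u i) := by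
    intro i j hij
    apply hinj
    rw [← hrs i, ← hrs j]
    exact congrArg (fun c => rs (uc c)) hij
  have hval : ∀ i r, MvPolynomial.eval (co (u i)) (Phi k l r) = (gt t).coeff r := by
    intro i r
    rw [eval_Phi, wr_eq ht hc (hsol i), coeff_C_mul, coeff_top]
    have := VV_ne k l
    field_simp
  have key := fib_bound (Phi k l) (wt k l) (fun r => k * l - r) (wt_pos k l)
    (fun r => by have := r.2; omega) (fun r => deg_Phi r) (fun i => co (u i)) hp
    (fun r => (gt t).coeff r) (fun i U hU => hopen hk (fun r => hval i r) U hU)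
  rw [prod_wt, Fin.prod_univ_eq_prod_range (fun r => k * l - r) (k * l),
    ← Nat.descFactorial_eq_prod_range, Nat.descFactorial_self] at key
  exact key

end GTR
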