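import Pool.Agent.GTR.WSol
import Pool.Agent.GTR.WUp
import Pool.Agent.GTR.WBij

/-!
# GTR WStart : total reality of the start problem (6.1)
-/

set_option autoImplicit false

namespace GTR

open GTC

theorem hooks_pos (k l : ℕ) :
    0 < ∏ i ∈ Finset.range k, ∏ j ∈ Finset.range l, (i + j + 1) :=
  Finset.prod_pos fun i _ => Finset.prod_pos fun j _ => by omega

theorem card_words (k l : ℕ) : Nat.card {w : Fin (k * l) → Fin k // IsWord w} = FN k l :=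
  Nat.eq_of_mul_eq_mul_right (hooks_pos k l) ((count k l).trans (FN_mul k l).symm)

theorem rr_start {k l : ℕ} (hk : 1 ≤ k) : ∃ s : ℝ, (s = 1 ∨ s = -1) ∧ ∃ C > 0, ∃ δ > 0, ∀ d : ℝ,
    0 < d → d < δ → GTC.Simple (t0 (k * l) d) ∧ StrictMono (t0 (k * l) d) ∧
    RR (sp k (rnc (k + l)) (t0 (k * l) d)) (FN k l) ∧
    ∃ Z : (Fin (k * l) → Fin k) → Fin (k * l) → ℝ,
      (∀ w, IsWord w → (∀ r, 0 < Z w r ∧ Z w r < C * d ^ (k * l - (r : ℕ))) ∧
        (∀ r s, r < s → Z w r ≤ C * d * Z w s) ∧ StrictMono (Z w) ∧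
        IsSol (sp k (rnc (k + l)) (t0 (k * l) d)) (uw w (Z w)) ∧
        0 < s * (-1) ^ inv w * JJ (sp k (rnc (k + l)) (t0 (k * l) d)) (uw w (Z w))) ∧
      ∀ u : Matrix (Fin k) (Fin (k + l)) ℝ, IsSol (sp k (rnc (k + l)) (t0 (k * l) d)) u →
        ∃ w, IsWord w ∧ ∃ g : Matrix (Fin k) (Fin k) ℝ, g.det ≠ 0 ∧ u = g * uw w (Z w) := by
  classical
  obtain ⟨s, hs, C, hC, δ, hδ, h⟩ := word_solutions k l
  refine ⟨s, hs, C, hC, δ, hδ, fun d hd hdδ => ?_⟩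
  obtain ⟨hsimple, hmono, hlt, Z, hZ, hZinj⟩ := h d hd hdδ
  set P := sp k (rnc (k + l)) (t0 (k * l) d) with hP
  have hfin : (Sol (ch P)).Finite := sp_finite hk hsimple
  -- the row spaces of the word solutions
  let R : {w : Fin (k * l) → Fin k // IsWord w} → Submodule ℂ (Fin (k + l) → ℂ) :=
    fun w => rs (cm (uw w.1 (Z w.1)))
  have hRinj : Function.Injective R := fun w w' hww =>
    Subtype.ext (hZinj w.1 w'.1 w.2 w'.2 hww)
  have hRsub : Set.range R ⊆ Sol (ch P) := by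
    rintro _ ⟨w, rfl⟩
    exact ⟨cm (uw w.1 (Z w.1)), (issol_cm _ _).2 (hZ w.1 w.2).2.2.2.1, rfl⟩
  have hRcard : (Set.range R).ncard = FN k l := by
    rw [← card_words, ← Set.ncard_univ, ← Set.image_univ,
      Set.ncard_image_of_injective _ hRinj]
  have hle : (Sol (ch P)).ncard ≤ FN k l := by
    have h1 : ∃ L : Fin (Sol (ch P)).ncard → Submodule ℂ (Fin (k + l) → ℂ),
        Function.Injective L ∧ ∀ i, L i ∈ Sol (ch P) := by
      haveI := hfin.fintype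
      have e : Fin (Sol (ch P)).ncard ≃ Sol (ch P) := by
        refine (Fintype.equivFinOfCardEq ?_).symm
        rw [← Nat.card_eq_fintype_card]
        rfl
      exact ⟨fun i => (e i).1, fun i j hij => e.injective (Subtype.ext hij), fun i => (e i).2⟩
    obtain ⟨L, hL, hLs⟩ := h1
    have hcos : ∀ r, Real.cos (t0 (k * l) d r) ≠ 0 := fun r =>
      (Real.cos_pos_of_mem_Ioo ⟨by linarith [(hsimple.2 r).1, Real.pi_pos], hlt r⟩).ne'
    have h2 := up_bound hk hsimple hcos L hL hLs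
    rw [← FN_mul k l] at h2
    exact Nat.le_of_mul_le_mul_right h2 (hooks_pos k l)
  have heq : Set.range R = Sol (ch P) :=
    Set.eq_of_subset_of_ncard_le hRsub (by rw [hRcard]; exact hle) hfin
  have hreal : ∀ L ∈ Sol (ch P), ∃ w, IsWord w ∧ L = rs (cm (uw w (Z w))) := by
    intro L hL
    rw [← heq] at hL
    obtain ⟨w, rfl⟩ := hL
    exact ⟨w.1, w.2, rfl⟩
  have hrep : ∀ u : Matrix (Fin k) (Fin (k + l)) ℝ, IsSol P u →
      ∃ w, IsWord w ∧ ∃ g : Matrix (Fin k) (Fin k) ℝ, g.det ≠ 0 ∧ u = g * uw w (Z w) := by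
    intro u hu
    obtain ⟨w, hw, h1⟩ := hreal (rs (cm u)) ⟨cm u, (issol_cm _ _).2 hu, rfl⟩
    obtain ⟨g, hg, h2⟩ := rs_eq_real _ _ (hZ w hw).2.2.2.1.1 hu.1 h1.symm
    exact ⟨w, hw, g, hg, h2⟩
  refine ⟨hsimple, hmono, ⟨hfin, ?_, ?_, ?_⟩, Z, hZ, hrep⟩
  · rw [← heq, hRcard]
  · intro L hL
    obtain ⟨w, hw, rfl⟩ := hreal L hL
    exact ⟨_, (hZ w hw).2.2.2.1.1, rfl⟩
  · intro u hu
    obtain ⟨w, hw, g, hg, rfl⟩ := hrep u hu
    rw [JJ_mul hk _ _ _ hg]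
    have h1 := (hZ w hw).2.2.2.2
    exact mul_ne_zero (pow_ne_zero _ hg) fun h0 => by rw [h0, mul_zero] at h1; exact lt_irrefl _ h1

end GTR
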