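import Pool.Agent.GTR.WDefs

/-!
# GTR WZero : scaling of the word equations, value at `d = 0` (6.1)

`scale`: with `z_s = d^(N-s) y_s`, `X_r = d^(N-r)`, `x = X_r ξ`: for `s < r`
`z_s - x = d^(N-r) (d^(r-s) y_s - ξ)`, for `s = r` `z_r - x = d^(N-r) (y_r - ξ)`, for `s > r`
`z_s - x = d^(N-s) (y_s - d^(s-r) ξ)`. So `qp w (zz d y) a` composed with `X_r ξ` is a positive constant
(independent of `y`) times `Qp w y d r a`; the `c`-th derivative of `q (X_r ξ)` is
`X_r^c q^(c) (X_r ξ)`, so the Wronskian at `ξ = 1` is `X_r^(k(k-1)/2)` times the Wronskian of the `qp` at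
`X_r`.

`Gf_zero`: at `d = 0` the row `a` is `(-1)^(cnt w r a) ξ^(ex w r a) ∏_(s > r, w s = a) y_s`, times
`(y_r - ξ)` if `a = w r`. The Wronskian of the monomials `ξ^(a_j)` at `1` is
`det (a_j (a_j - 1) ... (a_j - c + 1)) = vd a` (descending factorials,
`Matrix.det_eval_matrixOfPolynomials_eq_det_vandermonde`); `wr` is linear in the row `w r`, and
`ex w (r+1)` is `ex w r` plus one at `w r`. `∑_a cnt w r a = r`.

`ex_strict`, `y0_pos`: ballot gives `ex w m a < ex w m b` for `a < b`, so both `vd` are positive.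
-/

set_option autoImplicit false

open Polynomial

namespace GTR

/-! ### Wronskians at a point -/

private theorem wr_eval {k : ℕ} (p : Fin k → ℝ[X]) (x : ℝ) :
    (wr p).eval x = (Matrix.of fun a c : Fin k => (derivative^[(c : ℕ)] (p a)).eval x).det := by
  rw [wr, ← Polynomial.coe_evalRingHom, RingHom.map_det]
  rfl

private theorem iter_comp (q : ℝ[X]) (t : ℝ) (c : ℕ) : derivative^[c] (q.comp (C t * X)) =
    C (t ^ c) * (derivative^[c] q).comp (C t * X) := by
  induction c generalizing q with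
  | zero => rw [Function.iterate_zero, id, id, pow_zero, C_1, one_mul]
  | succ c ih =>
    rw [Function.iterate_succ_apply, Function.iterate_succ_apply, derivative_comp]
    have h1 : derivative (C t * X : ℝ[X]) = C t := by
      rw [derivative_C_mul, derivative_X, mul_one]
    rw [h1, iterate_derivative_C_mul, ih, pow_succ', C_mul, mul_assoc]

private theorem wr_smul_eval {k : ℕ} (κ : Fin k → ℝ) (p : Fin k → ℝ[X]) (x : ℝ) :
    (wr fun a => C (κ a) * p a).eval x = (∏ a, κ a) * (wr p).eval x := by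
  rw [wr_eval, wr_eval, ← Matrix.det_mul_column]
  congr 1
  ext a c
  rw [Matrix.of_apply, Matrix.of_apply, Matrix.of_apply, iterate_derivative_C_mul, eval_mul,
    eval_C]

/-- the scaling factor of the `s`-th factor -/
private noncomputable def kf {N : ℕ} (d : ℝ) (r s : Fin N) : ℝ :=
  if s < r then d ^ (N - (r : ℕ)) else d ^ (N - (s : ℕ))

private theorem fac_scale {N : ℕ} (d : ℝ) (y : Fin N → ℝ) (r s : Fin N) :
    C (zz d y s) - C (d ^ (N - (r : ℕ))) * X = C (kf d r s) *
      (if s < r then C (d ^ ((r : ℕ) - (s : ℕ)) * y s) - X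
      else if s = r then C (y s) - X
      else C (y s) - C (d ^ ((s : ℕ) - (r : ℕ))) * X) := by
  have hr := r.2
  have hs := s.2
  rw [zz, kf]
  by_cases h1 : s < r
  · have h2 : (s : ℕ) < (r : ℕ) := h1
    have h3 : N - (s : ℕ) = (N - (r : ℕ)) + ((r : ℕ) - (s : ℕ)) := by omega
    rw [if_pos h1, if_pos h1, h3, pow_add, mul_sub, mul_assoc, C_mul]
  · by_cases h2 : s = r
    · rw [if_neg h1, if_neg h1, if_pos h2, h2, C_mul, mul_sub]
    · have h3 : (r : ℕ) < (s : ℕ) := by
        have h4 : (s : ℕ) ≠ (r : ℕ) := fun h => h2 (Fin.ext h)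
        have h5 : ¬ (s : ℕ) < (r : ℕ) := h1
        omega
      have h4 : N - (r : ℕ) = (N - (s : ℕ)) + ((s : ℕ) - (r : ℕ)) := by omega
      rw [if_neg h1, if_neg h1, if_neg h2, h4, pow_add, mul_sub, C_mul, C_mul, mul_assoc]

private theorem qp_comp {k N : ℕ} (w : Fin N → Fin k) (d : ℝ) (y : Fin N → ℝ) (r : Fin N) (a : Fin k) :
    (qp w (zz d y) a).comp (C (d ^ (N - (r : ℕ))) * X) =
      C ((d ^ (N - (r : ℕ))) ^ (a : ℕ) *
        ∏ s ∈ Finset.univ.filter (fun s => w s = a), kf d r s) * Qp w y d r a := by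
  rw [qp, Qp, mul_comp, X_pow_comp, prod_comp]
  have h1 : ∏ s ∈ Finset.univ.filter (fun s => w s = a),
      (C (zz d y s) - X).comp (C (d ^ (N - (r : ℕ))) * X) =
      (∏ s ∈ Finset.univ.filter (fun s => w s = a), C (kf d r s)) *
      ∏ s ∈ Finset.univ.filter (fun s => w s = a),
        (if s < r then C (d ^ ((r : ℕ) - (s : ℕ)) * y s) - X
        else if s = r then C (y s) - X
        else C (y s) - C (d ^ ((s : ℕ) - (r : ℕ))) * X) := by
    rw [← Finset.prod_mul_distrib]
    refine Finset.prod_congr rfl fun s _ => ?_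
    rw [sub_comp, C_comp, X_comp, fac_scale]
  rw [h1, C_mul, map_prod, mul_pow, ← C_pow]
  ring

/-! ### the equations at `d = 0` -/

private theorem det_desc {k : ℕ} (e : Fin k → ℕ) :
    (Matrix.of fun a c : Fin k => ((e a).descFactorial (c : ℕ) : ℝ)).det =
      vd (fun a => (e a : ℝ)) := by
  rw [vd, ← Matrix.det_vandermonde, Matrix.det_eval_matrixOfPolynomials_eq_det_vandermonde
    (fun a => (e a : ℝ)) (fun i => descPochhammer ℝ i) (fun i => descPochhammer_natDegree ℝ i)
    (fun i => monic_descPochhammer ℝ i)]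
  congr 1
  ext a c
  rw [Matrix.of_apply, Matrix.of_apply, descPochhammer_eval_eq_descFactorial]

private theorem wr_mono {k : ℕ} (e : Fin k → ℕ) (b : Fin k) (y : ℝ) :
    (wr fun a => X ^ e a * (if b = a then (C y - X) else 1) : ℝ[X]).eval 1 =
      y * vd (fun a => (e a : ℝ)) - vd (fun a => ((e a + if b = a then 1 else 0 : ℕ) : ℝ)) := by
  have hX : ∀ n c : ℕ, (derivative^[c] (X ^ n : ℝ[X])).eval 1 = (n.descFactorial c : ℝ) := by
    intro n c
    rw [iterate_derivative_X_pow_eq_C_mul, eval_mul, eval_C, eval_pow, eval_X, one_pow, mul_one]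
  have hE : ∀ (a : Fin k) (c : ℕ),
      (derivative^[c] (X ^ e a * (if b = a then (C y - X) else 1) : ℝ[X])).eval 1 =
      if b = a then y * ((e a).descFactorial c : ℝ) - ((e a + 1).descFactorial c : ℝ)
      else ((e a).descFactorial c : ℝ) := by
    intro a c
    by_cases h : b = a
    · rw [if_pos h, if_pos h]
      have h1 : (X ^ e a * (C y - X) : ℝ[X]) = C y * X ^ e a - X ^ (e a + 1) := by ring
      rw [h1, iterate_derivative_sub, iterate_derivative_C_mul, eval_sub, eval_mul, eval_C, hX,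
        hX]
    · rw [if_neg h, if_neg h, mul_one, hX]
  rw [wr_eval]
  obtain ⟨M, hM⟩ : ∃ M : Matrix (Fin k) (Fin k) ℝ,
    M = Matrix.of fun a c : Fin k => ((e a).descFactorial (c : ℕ) : ℝ) := ⟨_, rfl⟩
  have h1 : (Matrix.of fun a c : Fin k =>
      (derivative^[(c : ℕ)] (X ^ e a * (if b = a then (C y - X) else 1) : ℝ[X])).eval 1) =
      M.updateRow b (y • (fun c : Fin k => ((e b).descFactorial (c : ℕ) : ℝ)) +
        (-1 : ℝ) • (fun c : Fin k => ((e b + 1).descFactorial (c : ℕ) : ℝ))) := by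
    ext a c
    rw [Matrix.of_apply, hE]
    by_cases h : b = a
    · subst h
      rw [if_pos rfl, Matrix.updateRow_self, Pi.add_apply, Pi.smul_apply, Pi.smul_apply,
        smul_eq_mul, smul_eq_mul]
      ring
    · rw [if_neg h, Matrix.updateRow_ne (fun h2 => h h2.symm), hM, Matrix.of_apply]
  have h2 : M.updateRow b (fun c : Fin k => ((e b).descFactorial (c : ℕ) : ℝ)) = M := by
    rw [hM]
    ext a c
    by_cases h : a = b
    · subst h
      rw [Matrix.updateRow_self, Matrix.of_apply]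
    · rw [Matrix.updateRow_ne h]
  have h3 : M.updateRow b (fun c : Fin k => ((e b + 1).descFactorial (c : ℕ) : ℝ)) =
      Matrix.of fun a c : Fin k =>
        ((e a + if b = a then 1 else 0 : ℕ).descFactorial (c : ℕ) : ℝ) := by
    rw [hM]
    ext a c
    by_cases h : a = b
    · subst h
      rw [Matrix.updateRow_self, Matrix.of_apply, if_pos rfl]
    · rw [Matrix.updateRow_ne h, Matrix.of_apply, Matrix.of_apply,
        if_neg (fun h2 => h h2.symm), add_zero]
  rw [h1, Matrix.det_updateRow_add, Matrix.det_updateRow_smul, Matrix.det_updateRow_smul, h2,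
    h3, det_desc, hM, det_desc]
  ring

private theorem cnt_succ {k N : ℕ} (w : Fin N → Fin k) (r : Fin N) (a : Fin k) :
    cnt w ((r : ℕ) + 1) a = cnt w (r : ℕ) a + if w r = a then 1 else 0 := by
  rw [cnt, cnt]
  have h1 : (Finset.univ.filter fun s : Fin N => (s : ℕ) < (r : ℕ) + 1 ∧ w s = a) =
      (Finset.univ.filter fun s : Fin N => (s : ℕ) < (r : ℕ) ∧ w s = a) ∪
        (if w r = a then {r} else ∅) := by
    ext s
    rw [Finset.mem_union, Finset.mem_filter, Finset.mem_filter]
    by_cases h : w r = a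
    · rw [if_pos h, Finset.mem_singleton]
      constructor
      · rintro ⟨-, h2, h3⟩
        rcases Nat.lt_succ_iff_lt_or_eq.1 h2 with h4 | h4
        · exact Or.inl ⟨Finset.mem_univ _, h4, h3⟩
        · exact Or.inr (Fin.ext h4)
      · rintro (⟨-, h2, h3⟩ | rfl)
        · exact ⟨Finset.mem_univ _, by omega, h3⟩
        · exact ⟨Finset.mem_univ _, by omega, h⟩
    · rw [if_neg h]
      constructor
      · rintro ⟨-, h2, h3⟩
        rcases Nat.lt_succ_iff_lt_or_eq.1 h2 with h4 | h4
        · exact Or.inl ⟨Finset.mem_univ _, h4, h3⟩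
        · have h5 : s = r := Fin.ext h4
          exact absurd (h5 ▸ h3) h
      · rintro (⟨-, h2, h3⟩ | h2)
        · exact ⟨Finset.mem_univ _, by omega, h3⟩
        · exact absurd h2 (Finset.notMem_empty _)
  rw [h1, Finset.card_union_of_disjoint]
  · congr 1
    split_ifs <;> rfl
  · rw [Finset.disjoint_left]
    intro s hs hs'
    rw [Finset.mem_filter] at hs
    split_ifs at hs'
    · rw [Finset.mem_singleton] at hs'
      subst hs'
      omega
    · exact absurd hs' (Finset.notMem_empty _)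

private theorem sum_cnt {k N : ℕ} (w : Fin N → Fin k) (r : Fin N) : ∑ a, cnt w (r : ℕ) a = (r : ℕ) := by
  have h1 : ∀ a, cnt w (r : ℕ) a =
      ((Finset.Iio r).filter fun s => w s = a).card := by
    intro a
    rw [cnt]
    congr 1
    ext s
    rw [Finset.mem_filter, Finset.mem_filter, Finset.mem_Iio, Fin.lt_def]
    exact ⟨fun h => h.2, fun h => ⟨Finset.mem_univ _, h⟩⟩
  rw [Finset.sum_congr rfl fun a _ => h1 a,
    ← Finset.card_eq_sum_card_fiberwise (s := Finset.Iio r) (t := Finset.univ)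
      (fun s _ => Finset.mem_coe.2 (Finset.mem_univ (w s))), Fin.card_Iio]

private theorem Qp_zero {k N : ℕ} (w : Fin N → Fin k) (y : Fin N → ℝ) (r : Fin N) (a : Fin k) :
    Qp w y 0 r a = C ((-1) ^ cnt w (r : ℕ) a *
      ∏ s ∈ Finset.univ.filter (fun s => w s = a), if r < s then y s else 1) *
      (X ^ ex w (r : ℕ) a * (if w r = a then (C (y r) - X) else 1)) := by
  have h1 : ∀ s : Fin N, (if s < r then C ((0 : ℝ) ^ ((r : ℕ) - (s : ℕ)) * y s) - X
      else if s = r then C (y s) - X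
      else C (y s) - C ((0 : ℝ) ^ ((s : ℕ) - (r : ℕ))) * X) =
      (if s < r then (-X : ℝ[X]) else 1) * (if r = s then (C (y r) - X) else 1) *
        C (if r < s then y s else 1) := by
    intro s
    rcases lt_trichotomy s r with h | h | h
    · have h2 : (s : ℕ) < (r : ℕ) := h
      rw [if_pos h, if_pos h, if_neg h.ne', if_neg (not_lt.2 h.le), zero_pow (by omega),
        zero_mul, C_0, C_1, zero_sub, mul_one, mul_one]
    · subst h
      rw [if_neg (lt_irrefl _), if_neg (lt_irrefl _), if_pos rfl, if_pos rfl,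
        if_neg (lt_irrefl _), C_1, one_mul, mul_one]
    · have h2 : (r : ℕ) < (s : ℕ) := h
      rw [if_neg (not_lt.2 h.le), if_neg (not_lt.2 h.le), if_neg h.ne', if_neg h.ne, if_pos h,
        zero_pow (by omega), C_0, zero_mul, sub_zero, one_mul, one_mul]
  have h2 : ∏ s ∈ Finset.univ.filter (fun s => w s = a), (if s < r then (-X : ℝ[X]) else 1) =
      C ((-1) ^ cnt w (r : ℕ) a) * X ^ cnt w (r : ℕ) a := by
    rw [Finset.prod_ite, Finset.prod_const, Finset.prod_const_one, mul_one,
      Finset.filter_filter]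
    have h3 : (Finset.univ.filter fun s : Fin N => w s = a ∧ s < r).card = cnt w (r : ℕ) a := by
      rw [cnt]
      congr 1
      ext s
      rw [Finset.mem_filter, Finset.mem_filter, Fin.lt_def, and_comm (a := w s = a)]
    rw [h3, neg_pow, C_pow, C_neg, C_1]
  have h3 : ∏ s ∈ Finset.univ.filter (fun s => w s = a),
      (if r = s then (C (y r) - X) else 1 : ℝ[X]) = if w r = a then (C (y r) - X) else 1 := by
    have hmem : r ∈ Finset.univ.filter (fun s => w s = a) ↔ w r = a := by
      rw [Finset.mem_filter]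
      exact ⟨fun h => h.2, fun h => ⟨Finset.mem_univ _, h⟩⟩
    rw [Finset.prod_ite_eq]
    simp only [hmem]
  rw [Qp, Finset.prod_congr rfl fun s _ => h1 s, Finset.prod_mul_distrib,
    Finset.prod_mul_distrib, h2, h3, ← map_prod, ex, pow_add, C_mul]
  ring

theorem scale {k N : ℕ} (w : Fin N → Fin k) {d : ℝ} (hd : 0 < d) (r : Fin N) :
    ∃ c : ℝ, 0 < c ∧ ∀ y : Fin N → ℝ,
      (wr (qp w (zz d y))).eval (d ^ (N - (r : ℕ))) = c * Gf w y d r := by
  obtain ⟨t, ht⟩ : ∃ t, t = d ^ (N - (r : ℕ)) := ⟨_, rfl⟩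
  have ht0 : 0 < t := ht ▸ pow_pos hd _
  have hkf : ∀ s, 0 < kf d r s := fun s => by
    rw [kf]
    split_ifs <;> exact pow_pos hd _
  refine ⟨(∏ a : Fin k, (t ^ (a : ℕ) *
    ∏ s ∈ Finset.univ.filter (fun s => w s = a), kf d r s)) * ∏ c : Fin k, (t ^ (c : ℕ))⁻¹,
    mul_pos (Finset.prod_pos fun a _ => mul_pos (pow_pos ht0 _)
      (Finset.prod_pos fun s _ => hkf s)) (Finset.prod_pos fun c _ => inv_pos.2
      (pow_pos ht0 _)), fun y => ?_⟩
  rw [Gf, wr_eval, wr_eval, mul_assoc, ← Matrix.det_mul_row, ← Matrix.det_mul_column, ← ht]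
  congr 1
  ext a c
  rw [Matrix.of_apply, Matrix.of_apply, Matrix.of_apply, Matrix.of_apply]
  have h1 := congrArg (fun q : ℝ[X] => (derivative^[(c : ℕ)] q).eval 1) (qp_comp w d y r a)
  rw [← ht] at h1
  change (derivative^[(c : ℕ)] ((qp w (zz d y) a).comp (C t * X))).eval 1 =
    (derivative^[(c : ℕ)] (C (t ^ (a : ℕ) *
      ∏ s ∈ Finset.univ.filter (fun s => w s = a), kf d r s) * Qp w y d r a)).eval 1 at h1
  rw [iter_comp, iterate_derivative_C_mul, eval_mul, eval_mul, eval_C, eval_C, eval_comp,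
    eval_mul, eval_C, eval_X, mul_one] at h1
  have h2 : t ^ (c : ℕ) ≠ 0 := (pow_pos ht0 _).ne'
  rw [mul_left_comm, ← h1, inv_mul_cancel_left₀ h2]

theorem Gf_zero {k N : ℕ} (w : Fin N → Fin k) (y : Fin N → ℝ) (r : Fin N) :
    Gf w y 0 r = (-1) ^ (r : ℕ) * (∏ s ∈ Finset.Ioi r, y s) *
      (y r * vd (fun a => (ex w (r : ℕ) a : ℝ)) - vd (fun a => (ex w ((r : ℕ) + 1) a : ℝ))) := by
  have h1 : Qp w y 0 r = fun a => C ((-1) ^ cnt w (r : ℕ) a *
      ∏ s ∈ Finset.univ.filter (fun s => w s = a), if r < s then y s else 1) *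
      (X ^ ex w (r : ℕ) a * (if w r = a then (C (y r) - X) else 1)) := funext (Qp_zero w y r)
  rw [Gf, h1, wr_smul_eval, wr_mono, Finset.prod_mul_distrib, Finset.prod_pow_eq_pow_sum,
    sum_cnt]
  have h2 : ∏ a : Fin k, ∏ s ∈ Finset.univ.filter (fun s => w s = a),
      (if r < s then y s else 1) = ∏ s ∈ Finset.Ioi r, y s := by
    rw [Finset.prod_fiberwise, Finset.prod_ite, Finset.prod_const_one, mul_one]
    refine Finset.prod_congr ?_ fun _ _ => rfl
    ext s
    rw [Finset.mem_filter, Finset.mem_Ioi]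
    exact ⟨fun h => h.2, fun h => ⟨Finset.mem_univ _, h⟩⟩
  have h3 : ∀ a, ex w (r : ℕ) a + (if w r = a then 1 else 0) = ex w ((r : ℕ) + 1) a := by
    intro a
    rw [ex, ex, cnt_succ, add_assoc]
  rw [h2]
  simp only [h3]

theorem ex_strict {k l : ℕ} {w : Fin (k * l) → Fin k} (hw : IsWord w) (m : ℕ) :
    StrictMono (ex w m) := by
  intro a b hab
  have h1 := hw.bal m a b hab.le
  have h2 : (a : ℕ) < (b : ℕ) := hab
  rw [ex, ex]
  omega

theorem vd_ex_pos {k l : ℕ} {w : Fin (k * l) → Fin k} (hw : IsWord w) (m : ℕ) :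
    0 < vd (fun a => (ex w m a : ℝ)) := by
  refine Finset.prod_pos fun i _ => Finset.prod_pos fun j hj => ?_
  have h1 := ex_strict hw m (Finset.mem_Ioi.1 hj)
  have h2 : (ex w m i : ℝ) < (ex w m j : ℝ) := Nat.cast_lt.2 h1
  exact sub_pos.2 h2

theorem y0_pos {k l : ℕ} {w : Fin (k * l) → Fin k} (hw : IsWord w) (r : Fin (k * l)) :
    0 < y0 w r := div_pos (vd_ex_pos hw _) (vd_ex_pos hw _)

/-- families of polynomials all of whose derivatives at `1` are smooth functions of the
parameter. -/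
private def SmP {E : Type} [NormedAddCommGroup E] [NormedSpace ℝ E] (P : E → ℝ[X]) : Prop :=
  ∀ c : ℕ, ContDiff ℝ ⊤ (fun e => (derivative^[c] (P e)).eval 1)

private theorem SmP.const {E : Type} [NormedAddCommGroup E] [NormedSpace ℝ E] (q : ℝ[X]) :
    SmP (fun _ : E => q) := fun _ => contDiff_const

private theorem SmP.C {E : Type} [NormedAddCommGroup E] [NormedSpace ℝ E] {f : E → ℝ}
    (hf : ContDiff ℝ ⊤ f) : SmP (fun e => C (f e)) := by
  intro c
  rcases c with _ | c
  · simpa using hf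
  · have h1 : (fun e => (derivative^[c + 1] (Polynomial.C (f e))).eval (1 : ℝ)) = fun _ => 0 := by
      funext e
      rw [Function.iterate_succ_apply, derivative_C, iterate_derivative_zero, eval_zero]
    rw [h1]
    exact contDiff_const

private theorem SmP.mul {E : Type} [NormedAddCommGroup E] [NormedSpace ℝ E] {P Q : E → ℝ[X]}
    (hP : SmP P) (hQ : SmP Q) : SmP (fun e => P e * Q e) := by
  intro c
  have h1 : (fun e => (derivative^[c] (P e * Q e)).eval (1 : ℝ)) = fun e =>
      ∑ j ∈ Finset.range c.succ, (c.choose j : ℝ) *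
        ((derivative^[c - j] (P e)).eval 1 * (derivative^[j] (Q e)).eval 1) := by
    funext e
    rw [iterate_derivative_mul, eval_finsetSum]
    refine Finset.sum_congr rfl fun j _ => ?_
    rw [eval_smul, eval_mul, nsmul_eq_mul]
  rw [h1]
  exact ContDiff.sum fun j _ => contDiff_const.mul ((hP _).mul (hQ _))

private theorem SmP.sub {E : Type} [NormedAddCommGroup E] [NormedSpace ℝ E] {P Q : E → ℝ[X]}
    (hP : SmP P) (hQ : SmP Q) : SmP (fun e => P e - Q e) := by
  intro c
  have h1 : (fun e => (derivative^[c] (P e - Q e)).eval (1 : ℝ)) = fun e =>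
      (derivative^[c] (P e)).eval 1 - (derivative^[c] (Q e)).eval 1 := by
    funext e
    rw [iterate_derivative_sub, eval_sub]
  rw [h1]
  exact (hP c).sub (hQ c)

private theorem SmP.prod {E ι : Type} [NormedAddCommGroup E] [NormedSpace ℝ E] (s : Finset ι)
    {P : ι → E → ℝ[X]} (hP : ∀ i, SmP (P i)) : SmP (fun e => ∏ i ∈ s, P i e) := by
  classical
  induction s using Finset.induction_on with
  | empty => simpa using SmP.const (1 : ℝ[X])
  | insert i s hi ih =>
    simp only [Finset.prod_insert hi]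
    exact (hP i).mul ih

/-- the equations are jointly smooth in `y` and `d`. -/
theorem Gf_contDiff {k N : ℕ} (w : Fin N → Fin k) (r : Fin N) :
    ContDiff ℝ ⊤ (fun p : (Fin N → ℝ) × ℝ => Gf w p.1 p.2 r) := by
  have hy : ∀ s : Fin N, ContDiff ℝ ⊤ (fun p : (Fin N → ℝ) × ℝ => p.1 s) := fun s =>
    (contDiff_apply ℝ ℝ s).comp contDiff_fst
  have hdp : ∀ n : ℕ, ContDiff ℝ ⊤ (fun p : (Fin N → ℝ) × ℝ => p.2 ^ n) := fun n =>
    contDiff_snd.pow n
  have hQ : ∀ a, SmP (fun p : (Fin N → ℝ) × ℝ => Qp w p.1 p.2 r a) := by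
    intro a
    refine (SmP.const _).mul (SmP.prod _ fun s => ?_)
    by_cases h1 : s < r
    · simp only [if_pos h1]
      exact (SmP.C ((hdp _).mul (hy s))).sub (SmP.const _)
    · by_cases h2 : s = r
      · simp only [if_neg h1, if_pos h2]
        exact (SmP.C (hy s)).sub (SmP.const _)
      · simp only [if_neg h1, if_neg h2]
        exact (SmP.C (hy s)).sub ((SmP.C (hdp _)).mul (SmP.const _))
  have h1 : (fun p : (Fin N → ℝ) × ℝ => Gf w p.1 p.2 r) = fun p =>
      ∑ σ : Equiv.Perm (Fin k), ((Equiv.Perm.sign σ : ℤ) : ℝ) *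
        ∏ c : Fin k, (derivative^[(c : ℕ)] (Qp w p.1 p.2 r (σ c))).eval 1 := by
    funext p
    rw [Gf, wr_eval, Matrix.det_apply']
    rfl
  rw [h1]
  exact ContDiff.sum fun σ _ => contDiff_const.mul (contDiff_prod fun c _ => hQ (σ c) c)

end GTR
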